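import Pool.Agent.MP_20d318_ag.Lat.Lin

/-! Numerical classes on a tower of blow-ups: definitions and statements. -/

set_option autoImplicit false
set_option linter.unusedSectionVars false

namespace Pool.Agent.MP_20d318_ag.CH

open Pool.Agent.MP_20d318_ag.Lat

universe u v u' v'

/-- Numerical data of a variety with a family of disjoint divisors. -/
structure Nd (V : Type u) (𝒞 : Type v) (κ : Type) [AddCommGroup V] [Module ℝ V] where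
  /-- the integral classes -/
  Λ : AddSubgroup V
  /-- the degrees on curves -/
  d : 𝒞 → V →ₗ[ℝ] ℝ
  /-- the effective classes -/
  Ef : Set V
  /-- the classes of the divisors -/
  c : κ → V
  /-- the automorphisms -/
  G : Set (V →ₗ[ℝ] V)

/-- `(L, t, a)` is the class `L + t f - ∑ a i j • E i j`. -/
abbrev WW (V : Type u) (κ : Type) : Type u := V × ℝ × (κ → Fin 4 → ℝ)

/-- Integers. -/
def IZ (r : ℝ) : Prop := ∃ z : ℤ, r = z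

theorem IZ.zero : IZ 0 := ⟨0, by simp⟩
theorem IZ.one : IZ 1 := ⟨1, by simp⟩
theorem IZ.nat (n : ℕ) : IZ n := ⟨n, by simp⟩
theorem IZ.add {a b : ℝ} (ha : IZ a) (hb : IZ b) : IZ (a + b) := by
  obtain ⟨x, rfl⟩ := ha
  obtain ⟨y, rfl⟩ := hb
  exact ⟨x + y, by simp⟩
theorem IZ.mul {a b : ℝ} (ha : IZ a) (hb : IZ b) : IZ (a * b) := by
  obtain ⟨x, rfl⟩ := ha
  obtain ⟨y, rfl⟩ := hb
  exact ⟨x * y, by simp⟩
theorem IZ.neg {a : ℝ} (ha : IZ a) : IZ (-a) := by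
  obtain ⟨x, rfl⟩ := ha
  exact ⟨-x, by simp⟩
theorem IZ.sub {a b : ℝ} (ha : IZ a) (hb : IZ b) : IZ (a - b) := by
  rw [sub_eq_add_neg]; exact ha.add hb.neg
theorem IZ.sum {α : Type*} (s : Finset α) {f : α → ℝ} (h : ∀ i ∈ s, IZ (f i)) :
    IZ (∑ i ∈ s, f i) :=
  Finset.sum_induction f IZ (fun _ _ => IZ.add) IZ.zero h
theorem IZ.ite {p : Prop} [Decidable p] {a b : ℝ} (ha : IZ a) (hb : IZ b) :
    IZ (if p then a else b) := by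
  split_ifs
  exacts [ha, hb]

variable {V : Type u} {𝒞 : Type v} {V' : Type u'} {𝒞' : Type v'} {κ : Type} [AddCommGroup V]
  [Module ℝ V] [AddCommGroup V'] [Module ℝ V'] [Fintype κ]

theorem IZ.smul_mem {Λ : AddSubgroup V} {a : ℝ} (ha : IZ a) {x : V} (hx : x ∈ Λ) : a • x ∈ Λ := by
  obtain ⟨z, rfl⟩ := ha
  rw [Int.cast_smul_eq_zsmul]
  exact Λ.zsmul_mem hx z

theorem cone_map (f : V →ₗ[ℝ] V') (R : Set V) : cone (f '' R) = f '' cone R :=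
  Set.Subset.antisymm (((isCone_cone R).image f).cone_subset (Set.image_mono (subset_cone R)))
    (Set.image_subset_iff.2 (((isCone_cone _).preimage f).cone_subset fun x hx =>
      subset_cone _ ⟨x, hx, rfl⟩))

namespace Nd

variable (N : Nd V 𝒞 κ)

/-- The nef cone. -/
def Nef : Set V := {L | ∀ ν, 0 ≤ N.d ν L}

/-- The expected nef cone of the next level. -/
def NL : Set (WW V κ) := {D | (∀ i j, 0 ≤ D.2.2 i j) ∧ (∀ i, ∑ j, D.2.2 i j ≤ D.2.1) ∧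
  D.1 ∈ N.Nef ∧ ∀ j, D.1 - ∑ i, D.2.2 i j • N.c i ∈ N.Nef}

/-- The integral classes of the next level. -/
def LW : AddSubgroup (WW V κ) where
  carrier := {D | D.1 ∈ N.Λ ∧ IZ D.2.1 ∧ ∀ i j, IZ (D.2.2 i j)}
  add_mem' h h' := ⟨N.Λ.add_mem h.1 h'.1, h.2.1.add h'.2.1, fun i j => (h.2.2 i j).add (h'.2.2 i j)⟩
  zero_mem' := ⟨N.Λ.zero_mem, IZ.zero, fun _ _ => IZ.zero⟩
  neg_mem' h := ⟨N.Λ.neg_mem h.1, h.2.1.neg, fun i j => (h.2.2 i j).neg⟩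

theorem mem_LW {D : WW V κ} : D ∈ N.LW ↔ D.1 ∈ N.Λ ∧ IZ D.2.1 ∧ ∀ i j, IZ (D.2.2 i j) := Iff.rfl

theorem isCone_nef : IsCone N.Nef :=
  ⟨fun ν => by simp, fun x hx y hy ν => by rw [map_add]; exact add_nonneg (hx ν) (hy ν),
    fun a ha x hx ν => by rw [map_smul]; exact mul_nonneg ha (hx ν)⟩

open Classical in
/-- The strict transform of `c i × line`. -/
noncomputable def rowW (i : κ) : WW V κ := (N.c i, 0, fun i' _ => if i' = i then 1 else 0)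

end Nd

/-- The strict transform of a special fibre. -/
def colW (j : Fin 4) : WW V κ := (0, 1, fun _ j' => if j' = j then 1 else 0)

open Classical in
/-- An exceptional divisor. -/
noncomputable def excW (i : κ) (j : Fin 4) : WW V κ :=
  (0, 0, fun i' j' => if i' = i ∧ j' = j then -1 else 0)

section props

variable (N : Nd V 𝒞 κ)

/-- Formal properties. -/
structure Bas : Prop where
  int : ∀ ν, Intg N.Λ (N.d ν)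
  cone : IsCone N.Ef
  gN : ∀ g ∈ N.G, ∀ L ∈ N.Nef, g L ∈ N.Nef

/-- A curve is nonnegative on all the divisors or meets only one of them. -/
def Dich : Prop := ∀ ν, (∀ i, 0 ≤ N.d ν (N.c i)) ∨ ∃ i, ∀ i', i' ≠ i → N.d ν (N.c i') = 0

/-- Lower bounds for the rows and the columns. -/
structure Adm (D : WW V κ) (p : κ → ℝ) (q : Fin 4 → ℝ) : Prop where
  p0 : ∀ i, 0 ≤ p i
  q0 : ∀ j, 0 ≤ q j
  pa : ∀ i j, p i ≤ D.2.2 i j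
  qa : ∀ i j, q j ≤ D.2.2 i j

/-- The decomposition. -/
def GKc (Q : Set V) (D : WW V κ) (p : κ → ℝ) (q : Fin 4 → ℝ) : Prop :=
  ∃ (x : κ → ℝ) (y : Fin 4 → ℝ), (∀ i, 0 ≤ x i) ∧ (∀ j, q j ≤ y j) ∧
    (∀ i j, D.2.2 i j ≤ x i + y j) ∧ ∑ j, y j ≤ D.2.1 ∧ D.1 - ∑ i, x i • N.c i ∈ Q ∧
    ∃ i₀, ∀ i, i ≠ i₀ → p i ≤ x i

/-- The decomposition exists. -/
structure GK (𝓗 : Set (WW V κ)) : Prop where
  cur : ∀ ν, ∀ D ∈ N.NL ∩ 𝓗, ∀ p q, Adm D p q → GKc N {L | 0 ≤ N.d ν L} D p q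
  eff : ∀ D ∈ N.NL ∩ 𝓗, D ∈ N.LW → ∀ p q, Adm D p q → (∀ i, IZ (p i)) → (∀ j, IZ (q j)) →
    GKc N N.Ef D p q

open Classical in
/-- All the divisors but one can be subtracted. -/
def SKc (Q : Set V) (L : V) (x : κ → ℝ) : Prop :=
  ∃ i₀, L - ∑ i ∈ Finset.univ.erase i₀, x i • N.c i ∈ Q

/-- The subtraction is possible. -/
structure SK : Prop where
  cur : ∀ ν, ∀ L ∈ N.Nef, ∀ x : κ → ℝ, (∀ i, 0 ≤ x i) → (∀ i, L - x i • N.c i ∈ N.Nef) →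
    SKc N {L | 0 ≤ N.d ν L} L x
  eff : ∀ L ∈ N.Nef, L ∈ N.Λ → ∀ x : κ → ℝ, (∀ i, 0 ≤ x i) → (∀ i, IZ (x i)) →
    (∀ i, L - x i • N.c i ∈ N.Nef) → SKc N N.Ef L x

/-- The additional inequalities. -/
structure HH (𝓗 : Set (WW V κ)) : Prop where
  sub : ∀ D ∈ N.NL ∩ 𝓗, ∀ (x : κ → ℝ) (y : Fin 4 → ℝ), (∀ i, 0 ≤ x i) → (∀ j, 0 ≤ y j) →
    (∀ i j, x i + y j ≤ D.2.2 i j) →
      (D.1 - ∑ i, x i • N.c i, D.2.1 - ∑ j, y j, fun i j => D.2.2 i j - x i - y j) ∈ 𝓗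
  low : ∀ D : WW V κ, D.1 ∈ N.Nef → (∀ i j, 0 ≤ D.2.2 i j) → ∑ i, ∑ j, D.2.2 i j ≤ D.2.1 → D ∈ 𝓗

/-- A rational polyhedral cone that meets all orbits in the expected nef cone. -/
def CVW (𝓗 : Set (WW V κ)) : Prop := ∃ R : Finset (WW V κ), (R : Set (WW V κ)) ⊆ N.LW ∧
  cone (R : Set (WW V κ)) ⊆ N.NL ∩ 𝓗 ∧ ∀ D ∈ N.NL ∩ 𝓗, D.1 ∈ N.Ef → ∃ g ∈ N.G,
    ((g D.1, D.2) ∈ N.NL ∩ 𝓗 → (g D.1, D.2) ∈ cone (R : Set (WW V κ)))

/-- A rational polyhedral cone that meets all orbits in the effective nef cone. -/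
def CV : Prop := ∃ R : Finset V, (R : Set V) ⊆ N.Λ ∧ cone (R : Set V) ⊆ N.Nef ∩ N.Ef ∧
  ∀ x ∈ N.Nef ∩ N.Ef, ∃ g ∈ N.G, g x ∈ cone (R : Set V)

/-- The effective nef cone spans. -/
def Spn : Prop := Submodule.span ℝ (N.Nef ∩ N.Ef) = ⊤

/-- Finitely many curves decide whether a nef class minus the divisors is nef. -/
def DL : Prop := ∃ F : Set 𝒞, F.Finite ∧ ∀ L ∈ N.Nef, ∀ z : κ → ℝ, (∀ i, 0 ≤ z i) →
  (∀ ν ∈ F, 0 ≤ N.d ν (L - ∑ i, z i • N.c i)) → L - ∑ i, z i • N.c i ∈ N.Nef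

/-- What is carried through the induction. -/
structure Lev (𝓗 : Set (WW V κ)) : Prop where
  fd : FiniteDimensional ℝ V
  ne : Nonempty κ
  cΛ : ∀ i, N.c i ∈ N.Λ
  dich : Dich N
  gk : GK N 𝓗
  hh : HH N 𝓗
  cvw : CVW N 𝓗
  spn : Spn N

open Classical in
/-- The degrees of a curve of the next level over `ν`: on a special fibre, over a divisor, on an
exceptional divisor, or general. -/
def Ty (ν : 𝒞) (τ : ℝ) (ε : κ → Fin 4 → ℝ) : Prop := 0 ≤ τ ∧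
  ((∃ j, τ = 0 ∧ ∀ i j', ε i j' = if j' = j then N.d ν (N.c i) else 0) ∨
   (∃ i, (∀ i', i' ≠ i → N.d ν (N.c i') = 0) ∧ ∀ i' j, ε i' j = if i' = i then τ else 0) ∨
   (∃ i j, (∀ i', i' ≠ i → N.d ν (N.c i') = 0) ∧ τ = 0 ∧ ε i j ≤ 0 ∧ ε i j ≤ N.d ν (N.c i) ∧
     ∀ i' j', ¬ (i' = i ∧ j' = j) → ε i' j' = 0) ∨
   ((∀ i j, 0 ≤ ε i j) ∧ (∀ i, ∑ j, ε i j ≤ N.d ν (N.c i)) ∧ ∀ j, ∑ i, ε i j ≤ τ))

variable (N' : Nd V' 𝒞' (κ ⊕ Fin 4)) (Φ : WW V κ →ₗ[ℝ] V')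

/-- The curves of the next level. -/
def StCur : Prop := ∀ ν', ∃ ν τ ε, Ty N ν τ ε ∧
  ∀ D, N'.d ν' (Φ D) = N.d ν D.1 + D.2.1 * τ - ∑ i, ∑ j, D.2.2 i j * ε i j

/-- The test curves. -/
structure StTest : Prop where
  tE : ∀ i j, ∃ ν', ∃ n : ℝ, 0 < n ∧ ∀ D, N'.d ν' (Φ D) = n * D.2.2 i j
  tC : ∀ i, ∃ ν', ∃ n : ℝ, 0 < n ∧ ∀ D, N'.d ν' (Φ D) = n * (D.2.1 - ∑ j, D.2.2 i j)
  tT : ∀ ν j, ∃ ν', ∃ n : ℝ, 0 < n ∧
    ∀ D, N'.d ν' (Φ D) = n * N.d ν (D.1 - ∑ i, D.2.2 i j • N.c i)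
  tB : ∀ ν i, N.d ν (N.c i) < 0 → ∃ ν', ∃ n : ℝ, 0 < n ∧ ∀ D, N'.d ν' (Φ D) = n * N.d ν D.1

/-- The divisors of the next level. -/
structure StDiv : Prop where
  lat : ∀ D ∈ N.LW, Φ D ∈ N'.Λ
  spn : Submodule.span ℝ (N'.Λ : Set V') = ⊤
  cC : ∀ i, N'.c (Sum.inl i) = Φ (N.rowW i)
  cT : ∀ j, N'.c (Sum.inr j) = Φ (colW j)
  eL : ∀ L ∈ N.Ef, Φ (L, 0, 0) ∈ N'.Ef
  eF : Φ (0, 1, 0) ∈ N'.Ef
  eE : ∀ i j, Φ (excW i j) ∈ N'.Ef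
  eC : ∀ i, N'.c i ∈ N'.Ef

/-- One step. -/
structure St : Prop extends StTest N N' Φ, StDiv N N' Φ where
  cur : StCur N N' Φ
  cls : ∀ x ∈ N'.Λ, ∃ n : ℕ, 0 < n ∧ ∃ D ∈ N.LW, (n : ℝ) • x = Φ D
  dn : ∀ x ∈ N'.Ef, ∃ D, Φ D = x ∧ D.1 ∈ N.Ef
  lift : ∀ g ∈ N.G, ∃ g' ∈ N'.G, ∀ D, g' (Φ D) = Φ (g D.1, D.2)

/-- The nef cone of the next level. -/
def NefEq (𝓗 : Set (WW V κ)) : Prop := ∀ D, Φ D ∈ N'.Nef ↔ D ∈ N.NL ∩ 𝓗

/-- The hypotheses of the inductive step. -/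
structure Stp (𝓗 : Set (WW V κ)) : Prop where
  b : Bas N
  l : Lev N 𝓗
  b' : Bas N'
  s : St N N' Φ
  tH : ∀ D, Φ D ∈ N'.Nef → D ∈ 𝓗

end props

/-- Isomorphic data. -/
structure Iso (N : Nd V 𝒞 κ) (N' : Nd V' 𝒞' κ) (ψ : V ≃ₗ[ℝ] V') : Prop where
  Λ : ∀ x, ψ x ∈ N'.Λ ↔ x ∈ N.Λ
  Ef : ∀ x, ψ x ∈ N'.Ef ↔ x ∈ N.Ef
  c : ∀ i, ψ (N.c i) = N'.c i
  dn : ∀ ν', (∀ x, N'.d ν' x = 0) ∨ ∃ ν, ∃ r : ℝ, 0 < r ∧ ∀ x, N'.d ν' (ψ x) = r * N.d ν x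
  up : ∀ ν, ∃ ν', ∃ r : ℝ, 0 < r ∧ ∀ x, N'.d ν' (ψ x) = r * N.d ν x
  G : ∀ g ∈ N.G, ∃ g' ∈ N'.G, ∀ x, g' (ψ x) = ψ (g x)

/-! ### Statements -/

/-- N1A: the nef cone. -/
def N1AStmt : Prop := ∀ (V : Type u) (𝒞 : Type v) (V' : Type u') (𝒞' : Type v') (κ : Type)
  [AddCommGroup V] [Module ℝ V] [AddCommGroup V'] [Module ℝ V'] [Fintype κ] (N : Nd V 𝒞 κ)
  (N' : Nd V' 𝒞' (κ ⊕ Fin 4)) (Φ : WW V κ →ₗ[ℝ] V') (𝓗 : Set (WW V κ)), Stp N N' Φ 𝓗 →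
    NefEq N N' Φ 𝓗

/-- N1B: the cover and the span. -/
def N1BStmt : Prop := ∀ (V : Type u) (𝒞 : Type v) (V' : Type u') (𝒞' : Type v') (κ : Type)
  [AddCommGroup V] [Module ℝ V] [AddCommGroup V'] [Module ℝ V'] [Fintype κ] (N : Nd V 𝒞 κ)
  (N' : Nd V' 𝒞' (κ ⊕ Fin 4)) (Φ : WW V κ →ₗ[ℝ] V') (𝓗 : Set (WW V κ)), Stp N N' Φ 𝓗 →
    NefEq N N' Φ 𝓗 → CV N' ∧ Spn N' ∧ FiniteDimensional ℝ V' ∧ ∀ i, N'.c i ∈ N'.Λ

/-- N1C: the subtraction. -/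
def N1CStmt : Prop := ∀ (V : Type u) (𝒞 : Type v) (V' : Type u') (𝒞' : Type v') (κ : Type)
  [AddCommGroup V] [Module ℝ V] [AddCommGroup V'] [Module ℝ V'] [Fintype κ] (N : Nd V 𝒞 κ)
  (N' : Nd V' 𝒞' (κ ⊕ Fin 4)) (Φ : WW V κ →ₗ[ℝ] V') (𝓗 : Set (WW V κ)), Stp N N' Φ 𝓗 →
    NefEq N N' Φ 𝓗 → Dich N' ∧ SK N'

/-- N1D: finitely many curves. -/
def N1DStmt : Prop := ∀ (V : Type u) (𝒞 : Type v) (V' : Type u') (𝒞' : Type v') (κ : Type)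
  [AddCommGroup V] [Module ℝ V] [AddCommGroup V'] [Module ℝ V'] [Fintype κ] (N : Nd V 𝒞 κ)
  (N' : Nd V' 𝒞' (κ ⊕ Fin 4)) (Φ : WW V κ →ₗ[ℝ] V') (𝓗 : Set (WW V κ)), Stp N N' Φ 𝓗 →
    NefEq N N' Φ 𝓗 → DL N'

/-- N3: the cover of the expected cone. -/
def N3Stmt : Prop := ∀ (V : Type u) (𝒞 : Type v) (κ : Type) [AddCommGroup V] [Module ℝ V]
  [Fintype κ] (N : Nd V 𝒞 κ), Bas N → (∀ i, N.c i ∈ N.Λ) → CV N → DL N → CVW N Set.univ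

/-- TR: transport. -/
def TrStmt : Prop := ∀ (V : Type u) (𝒞 : Type v) (V' : Type u') (𝒞' : Type v') (κ : Type)
  [AddCommGroup V] [Module ℝ V] [AddCommGroup V'] [Module ℝ V'] [Fintype κ] (N : Nd V 𝒞 κ)
  (N' : Nd V' 𝒞' κ) (ψ : V ≃ₗ[ℝ] V') (𝓗 : Set (WW V κ)), Iso N N' ψ → Lev N 𝓗 →
    Lev N' {D | (ψ.symm D.1, D.2) ∈ 𝓗}

/-! ### First lemmas -/

variable {N : Nd V 𝒞 κ}

theorem d_sub (ν : 𝒞) (L : V) (s : Finset κ) (x : κ → ℝ) :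
    N.d ν (L - ∑ i ∈ s, x i • N.c i) = N.d ν L - ∑ i ∈ s, x i * N.d ν (N.c i) := by
  simp only [map_sub, map_sum, map_smul, smul_eq_mul]

/-- The nef cone is convex in the direction of the divisors. -/
theorem Dich.mid (h : Dich N) {L : V} {a b : κ → ℝ} (hL : L ∈ N.Nef)
    (ha : L - ∑ i, a i • N.c i ∈ N.Nef) (b0 : ∀ i, 0 ≤ b i) (ba : ∀ i, b i ≤ a i) :
    L - ∑ i, b i • N.c i ∈ N.Nef := fun ν => by
  have h1 := ha ν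
  have h2 := hL ν
  rw [d_sub] at h1 ⊢
  rcases h ν with h3 | ⟨i, h3⟩
  · have := Finset.sum_le_sum fun i (_ : i ∈ Finset.univ) => mul_le_mul_of_nonneg_right (ba i) (h3 i)
    linarith
  · rw [Finset.sum_eq_single i (fun j _ hj => by rw [h3 j hj, mul_zero]) (by simp)] at h1 ⊢
    rcases le_total 0 (N.d ν (N.c i)) with h4 | h4
    · have := mul_le_mul_of_nonneg_right (ba i) h4
      linarith
    · have := mul_nonneg (b0 i) (neg_nonneg.2 h4)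
      linarith

theorem Dich.one (h : Dich N) {D : WW V κ} (hD : D ∈ N.NL) (i : κ) (j : Fin 4) :
    D.1 - D.2.2 i j • N.c i ∈ N.Nef := by
  classical
  have := h.mid hD.2.2.1 (hD.2.2.2 j) (b := fun i' => if i' = i then D.2.2 i j else 0)
    (fun i' => by split_ifs; exacts [hD.1 i j, le_rfl])
    (fun i' => by
      split_ifs with e
      exacts [e ▸ le_rfl, hD.1 i' j])
  simpa only [ite_smul, zero_smul, Finset.sum_ite_eq', Finset.mem_univ, if_true] using this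

/-- The decomposition that removes one row. -/
theorem gkc_of {Q : Set V} {D : WW V κ} (hD : D ∈ N.NL) {p : κ → ℝ} {q : Fin 4 → ℝ}
    (ha : Adm D p q) {x : κ → ℝ} (hx : ∀ i j, D.2.2 i j ≤ x i) (h : SKc N Q D.1 x) :
    GKc N Q D p q := by
  classical
  obtain ⟨i₀, h⟩ := h
  refine ⟨fun i => if i = i₀ then 0 else x i, D.2.2 i₀, fun i => ?_, ha.qa i₀, fun i j => ?_,
    hD.2.1 i₀, ?_, i₀, fun i hi => ?_⟩
  · dsimp only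
    split_ifs
    exacts [le_rfl, (hD.1 i 0).trans (hx i 0)]
  · dsimp only
    split_ifs with e
    · rw [e, zero_add]
    · exact (hx i j).trans (le_add_of_nonneg_right (hD.1 i₀ j))
  · rw [← Finset.sum_erase (a := i₀) _ (by simp), Finset.sum_congr rfl (g := fun i => x i • N.c i)
      fun i hi => by simp only [if_neg (Finset.ne_of_mem_erase hi)]]
    exact h
  · simp only [if_neg hi]
    exact (ha.pa i 0).trans (hx i 0)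

/-- The maxima of the rows. -/
theorem exists_max_row (D : WW V κ) : ∃ j : κ → Fin 4, ∀ i j', D.2.2 i j' ≤ D.2.2 i (j i) := by
  choose j hj using fun i => Finite.exists_max (D.2.2 i)
  exact ⟨j, hj⟩

/-- A curve that meets at most two of the divisors. -/
theorem skc_few {ν : 𝒞} {L : V} {x : κ → ℝ} (hL : L ∈ N.Nef)
    (hx : ∀ i, L - x i • N.c i ∈ N.Nef) {a b : κ}
    (h : ∀ i, i ≠ a → i ≠ b → N.d ν (N.c i) = 0) : SKc N {L | 0 ≤ N.d ν L} L x := by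
  classical
  refine ⟨a, ?_⟩
  change 0 ≤ N.d ν _
  rw [d_sub]
  by_cases e : b = a
  · rw [Finset.sum_eq_zero fun i hi => by
      rw [h i (Finset.ne_of_mem_erase hi) (e ▸ Finset.ne_of_mem_erase hi), mul_zero], sub_zero]
    exact hL ν
  · rw [Finset.sum_eq_single b (fun i hi hb => by rw [h i (Finset.ne_of_mem_erase hi) hb, mul_zero])
      (by simp [e])]
    simpa using hx b ν

theorem gkc_few (h : Dich N) {ν : 𝒞} {D : WW V κ} (hD : D ∈ N.NL) {p : κ → ℝ} {q : Fin 4 → ℝ}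
    (ha : Adm D p q) {a b : κ} (hab : ∀ i, i ≠ a → i ≠ b → N.d ν (N.c i) = 0) :
    GKc N {L | 0 ≤ N.d ν L} D p q := by
  obtain ⟨j, hj⟩ := exists_max_row D
  exact gkc_of hD ha hj (skc_few hD.2.2.1 (fun i => h.one hD i _) hab)

theorem SK.gk (h : SK N) (hd : Dich N) : GK N Set.univ := by
  refine ⟨fun ν D hD p q ha => ?_, fun D hD hL p q ha _ _ => ?_⟩ <;>
    obtain ⟨j, hj⟩ := exists_max_row D
  · exact gkc_of hD.1 ha hj (h.cur ν _ hD.1.2.2.1 _ (fun i => hD.1.1 i _) fun i => hd.one hD.1 i _)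
  · exact gkc_of hD.1 ha hj (h.eff _ hD.1.2.2.1 hL.1 _ (fun i => hD.1.1 i _) (fun i => hL.2.2 i _)
      fun i => hd.one hD.1 i _)

theorem hh_univ : HH N Set.univ := ⟨fun _ _ _ _ _ _ _ => trivial, fun _ _ _ _ => trivial⟩

theorem St.surj {N' : Nd V' 𝒞' (κ ⊕ Fin 4)} {Φ : WW V κ →ₗ[ℝ] V'} (h : St N N' Φ) :
    Function.Surjective Φ := by
  rw [← LinearMap.range_eq_top, eq_top_iff, ← h.spn, Submodule.span_le]
  intro x hx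
  obtain ⟨n, hn, D, -, e⟩ := h.cls x hx
  exact ⟨(n : ℝ)⁻¹ • D, by
    rw [map_smul, ← e, smul_smul, inv_mul_cancel₀ (Nat.cast_pos.2 hn).ne', one_smul]⟩

/-- The rows of the inductive step. -/
structure NMods : Prop where
  a : N1AStmt.{u, v, u', v'}
  b : N1BStmt.{u, v, u', v'}
  c : N1CStmt.{u, v, u', v'}
  d : N1DStmt.{u, v, u', v'}
  e : N3Stmt.{u', v'}

theorem NMods.step (m : NMods.{u, v, u', v'}) {N' : Nd V' 𝒞' (κ ⊕ Fin 4)} {Φ : WW V κ →ₗ[ℝ] V'}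
    {𝓗 : Set (WW V κ)} (h : Stp N N' Φ 𝓗) : CV N' ∧ Lev N' Set.univ := by
  have h1 := m.a V 𝒞 V' 𝒞' κ N N' Φ 𝓗 h
  obtain ⟨h2, h3, h4, h5⟩ := m.b V 𝒞 V' 𝒞' κ N N' Φ 𝓗 h h1
  obtain ⟨h6, h7⟩ := m.c V 𝒞 V' 𝒞' κ N N' Φ 𝓗 h h1
  exact ⟨h2, h4, inferInstance, h5, h6, h7.gk h6, hh_univ,
    m.e V' 𝒞' _ N' h.b' h5 h2 (m.d V 𝒞 V' 𝒞' κ N N' Φ 𝓗 h h1), h3⟩

end Pool.Agent.MP_20d318_ag.CH
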