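import Pool.Agent.MP_20d318_ag.CH.Spec

section PartHyp

/-! Row HYP: the jacobian criterion over a smooth ring. -/

set_option autoImplicit false
set_option linter.unusedSectionVars false

namespace Pool.Agent.MP_20d318_ag.CH

open Pool.Agent.MP_fd6584_ag.Fn Pool.Agent.CBk
open Pool.Agent.MP_fd6584_ag.AG hiding deg_inv deg_congr deg_of_unit deg_mul deg_prod deg_zpow
  deg_eq_zero deg_nonneg deg_div deg_pow

namespace HypA

/-- A first order deformation of a homomorphism along a derivation. -/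
def defo {k B A : Type} [Field k] [CommRing B] [Algebra k B] [CommRing A] [Algebra k A]
    (g : B →ₐ[k] A) (D : Derivation k B B) (ε : A) (h : ε * ε = 0) : B →ₐ[k] A where
  toFun b := g b - ε * g (D b)
  map_one' := by simp
  map_zero' := by simp
  map_add' a b := by simp only [map_add]; ring
  map_mul' a b := by
    simp only [Derivation.leibniz, smul_eq_mul, map_add, map_mul]
    linear_combination (-(g (D a) * g (D b))) * h
  commutes' r := by simp

end HypA

theorem hyp_stmt : HypStmt := by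
  intro k K B _ _ _ _ _ π₀ O P D hB hO h0 hker hu
  have hm : ∀ q, π₀ q ∈ O := fun q => hO.2.1 ⟨q, rfl⟩
  let π : B →ₐ[k] O := π₀.codRestrict O hm
  refine Algebra.FormallySmooth.of_comp_surjective fun A _ _ I hI f => ?_
  have hnil : IsNilpotent I := ⟨2, hI⟩
  let g : B →ₐ[k] A := Algebra.FormallySmooth.lift I hnil (f.comp π)
  have hg : ∀ q, Ideal.Quotient.mk I (g q) = f (π q) := fun q =>
    Algebra.FormallySmooth.mk_lift I hnil (f.comp π) q
  have hd : IsUnit (g (D P)) := by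
    rw [← IsNilpotent.isUnit_quotient_mk_iff hnil, hg]
    exact ((isU_iff_isUnit (π (D P))).1 hu).map f
  obtain ⟨w, hw⟩ := hd.exists_right_inv
  have hp0 : π P = 0 := Subtype.ext h0
  have hpI : g P ∈ I := by rw [← Ideal.Quotient.eq_zero_iff_mem, hg, hp0, map_zero]
  have hεI : g P * w ∈ I := I.mul_mem_right _ hpI
  have hε2 : g P * w * (g P * w) = 0 := by
    have := Ideal.mul_mem_mul hεI hεI
    rwa [← pow_two I, hI, Ideal.mem_bot] at this
  let ψ : B →ₐ[k] A := HypA.defo g D _ hε2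
  have key : ∀ q, Ideal.Quotient.mk I (ψ q) = f (π q) := fun q => by
    change Ideal.Quotient.mk I (g q - g P * w * g (D q)) = _
    rw [map_sub, map_mul, Ideal.Quotient.eq_zero_iff_mem.2 hεI, zero_mul, sub_zero, hg]
  have hψ : ψ P = 0 := by
    change g P - g P * w * g (D P) = 0
    linear_combination (-g P) * hw
  let M : Submonoid B := (IsUnit.submonoid O).comap π
  let π' : Localization M →ₐ[k] O := IsLocalization.liftAlgHom (M := M) (f := π) fun y => y.2
  let ψ' : Localization M →ₐ[k] A := IsLocalization.liftAlgHom (M := M) (f := ψ) fun y => by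
    rw [← IsNilpotent.isUnit_quotient_mk_iff hnil, key]
    exact IsUnit.map f y.2
  have hπ' : ∀ q, π' (algebraMap _ _ q) = π q := fun q => IsLocalization.lift_eq _ q
  have hψ' : ∀ q, ψ' (algebraMap _ _ q) = ψ q := fun q => by simp [ψ']
  have hsurj : Function.Surjective π' := by
    intro z
    obtain ⟨_, ⟨a, rfl⟩, _, ⟨b, rfl⟩, hb, hz⟩ := hO.2.2 z z.2
    have hbM : b ∈ M := (isU_iff_isUnit (π b)).1 hb
    refine ⟨IsLocalization.mk' _ a ⟨b, hbM⟩, ?_⟩
    have h1 := congrArg π' (IsLocalization.mk'_spec (Localization M) a ⟨b, hbM⟩)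
    rw [map_mul, hπ', hπ'] at h1
    refine Subtype.ext ?_
    rw [hz, eq_div_iff hb.1]
    exact congrArg Subtype.val h1
  have hle : RingHom.ker π'.toRingHom ≤ RingHom.ker ψ'.toRingHom := by
    intro z hz
    obtain ⟨⟨a, b⟩, rfl⟩ := IsLocalization.mk'_surjective M z
    have h1 := congrArg π' (IsLocalization.mk'_spec (Localization M) a b)
    have hz' : π' (IsLocalization.mk' (Localization M) a b) = 0 := hz
    rw [map_mul, hz', zero_mul, hπ'] at h1
    obtain ⟨h, rfl⟩ := hker a (congrArg Subtype.val h1.symm)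
    change ψ' (IsLocalization.mk' (Localization M) (P * h) b) = 0
    rw [← IsLocalization.mul_mk'_eq_mk'_of_mul, map_mul, hψ', hψ, zero_mul]
  refine ⟨AlgHom.liftOfSurjective π' hsurj ψ' hle, ?_⟩
  refine AlgHom.ext fun z => ?_
  obtain ⟨z, rfl⟩ := hsurj z
  have : (Ideal.Quotient.mkₐ k I).comp ψ' = f.comp π' := by
    refine AlgHom.coe_ringHom_injective (IsLocalization.ringHom_ext M (RingHom.ext fun q => ?_))
    change Ideal.Quotient.mk I (ψ' (algebraMap _ _ q)) = f (π' (algebraMap _ _ q))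
    rw [hψ', hπ']
    exact key q
  change Ideal.Quotient.mk I (AlgHom.liftOfSurjective π' hsurj ψ' hle (π' z)) = _
  rw [AlgHom.liftOfSurjective_apply]
  exact DFunLike.congr_fun this z

end Pool.Agent.MP_20d318_ag.CH

end PartHyp

section PartKer

/-! Row KER: the ideal of relations of the local model of the cover. -/

set_option autoImplicit false

namespace Pool.Agent.MP_20d318_ag.CH

open Pool.Agent.MP_fd6584_ag.Fn Pool.Agent.CBk Polynomial

namespace KerL

theorem pseudo {A : Type} [CommRing A] (a b : A) (e : ℕ) (he : e = 1 ∨ e = 2) (q : A[X]) :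
    ∃ (N : ℕ) (h : A[X]) (r0 r1 : A),
      C a ^ N * q = (C a * X ^ e - C b) * h + C r0 + C r1 * X ∧ (e = 1 → r1 = 0) := by
  induction q using Polynomial.induction_on with
  | C c => exact ⟨0, 0, c, 0, by simp, fun _ => rfl⟩
  | add p q hp hq =>
    obtain ⟨N, h, r0, r1, h1, h2⟩ := hp
    obtain ⟨N', h', r0', r1', h1', h2'⟩ := hq
    refine ⟨N + N', C a ^ N' * h + C a ^ N * h', a ^ N' * r0 + a ^ N * r0',
      a ^ N' * r1 + a ^ N * r1', ?_, fun h0 => by rw [h2 h0, h2' h0]; simp⟩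
    simp only [map_add, map_mul, map_pow]
    linear_combination C a ^ N' * h1 + C a ^ N * h1'
  | monomial n c hn =>
    obtain ⟨N, h, r0, r1, h1, h2⟩ := hn
    rcases he with he | he
    · have h3 := h2 he
      subst he
      subst h3
      refine ⟨N + 1, C a * h * X + C r0, r0 * b, 0, ?_, fun _ => rfl⟩
      simp only [map_mul, map_zero] at h1 ⊢
      linear_combination C a * X * h1
    · subst he
      refine ⟨N + 1, C a * h * X + C r1, r1 * b, a * r0, ?_, fun h0 => absurd h0 (by omega)⟩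
      simp only [map_mul]
      linear_combination C a * X * h1

theorem descend {A : Type} [CommRing A] [IsDomain A] (a b : A) (e : ℕ) (ha : a ≠ 0)
    (hab : ∀ c, a ∣ b * c → a ∣ c) (q : A[X]) (N : ℕ) :
    ∀ h : A[X], C a ^ N * q = (C a * X ^ e - C b) * h → C a * X ^ e - C b ∣ q := by
  induction N with
  | zero => exact fun h hh => ⟨h, by simpa using hh⟩
  | succ N ih =>
    intro h hh
    have h1 : C a ∣ C b * h := ⟨X ^ e * h - C a ^ N * q, by linear_combination hh⟩
    have h2 : C a ∣ h := by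
      rw [C_dvd_iff_dvd_coeff] at h1 ⊢
      intro i
      have h3 := h1 i
      rw [coeff_C_mul] at h3
      exact hab _ h3
    obtain ⟨h', rfl⟩ := h2
    refine ih h' (mul_left_cancel₀ (C_ne_zero.2 ha) ?_)
    linear_combination hh

theorem ker {A K : Type} [CommRing A] [IsDomain A] [Field K] (φ : A →+* K)
    (hφ : Function.Injective φ) (t : K) (a b : A) (e : ℕ) (he : e = 1 ∨ e = 2) (ha : a ≠ 0)
    (hab : ∀ c, a ∣ b * c → a ∣ c) (hsq : ∀ r0 r1 : A, r0 ^ 2 * a = r1 ^ 2 * b → r1 = 0)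
    (ht : t ^ e * φ a = φ b) (q : A[X]) (hq : eval₂ φ t q = 0) : C a * X ^ e - C b ∣ q := by
  obtain ⟨N, h, r0, r1, h1, h2⟩ := pseudo a b e he q
  have h3 := congrArg (eval₂RingHom φ t) h1
  simp only [map_add, map_mul, map_sub, map_pow, coe_eval₂RingHom, eval₂_C, eval₂_X, hq] at h3
  have h4 : φ r0 + φ r1 * t = 0 := by linear_combination (-1 : K) * h3 - eval₂ φ t h * ht
  have h5 : r1 = 0 := by
    rcases he with he | he
    · exact h2 he
    · subst he
      refine hsq r0 r1 (hφ ?_)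
      simp only [map_mul, map_pow]
      linear_combination φ r1 ^ 2 * ht + (φ r0 - φ r1 * t) * φ a * h4
  subst h5
  have h6 : r0 = 0 := hφ (by simpa using h4)
  subst h6
  exact descend a b e ha hab q N h (by simpa using h1)

theorem swap {A : Type} [CommRing A] [IsDomain A] (a b : A) (ha : a ≠ 0)
    (hab : ∀ c, a ∣ b * c → a ∣ c) (c : A) (h : b ∣ a * c) : b ∣ c := by
  obtain ⟨d, hd⟩ := h
  obtain ⟨d', rfl⟩ := hab d ⟨c, hd.symm⟩
  exact ⟨d', mul_left_cancel₀ ha (by linear_combination hd)⟩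

theorem dvd_of {k R : Type} [Field k] [CommRing R] [IsDomain R] [Algebra k R] (g : k[X])
    (hg : g ≠ 0) (S : R) (hS : S ≠ 0) (c : R[X]) (h : g.map (algebraMap k R) ∣ C S * c) :
    g.map (algebraMap k R) ∣ c := by
  have hm : ((g * C g.leadingCoeff⁻¹).map (algebraMap k R)).Monic :=
    (monic_mul_leadingCoeff_inv hg).map _
  have h1 : g.map (algebraMap k R) ∣ (g * C g.leadingCoeff⁻¹).map (algebraMap k R) :=
    Polynomial.map_dvd _ (Dvd.intro _ rfl)
  have h2 : (g * C g.leadingCoeff⁻¹).map (algebraMap k R) ∣ g.map (algebraMap k R) := by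
    refine Polynomial.map_dvd _ ⟨C g.leadingCoeff, ?_⟩
    rw [mul_assoc, ← C_mul, inv_mul_cancel₀ (leadingCoeff_ne_zero.2 hg), C_1, mul_one]
  refine h1.trans ?_
  have h3 := h2.trans h
  generalize (g * C g.leadingCoeff⁻¹).map (algebraMap k R) = m at hm h3
  have h4 := modByMonic_add_div c m
  have h5 : m ∣ C S * (c %ₘ m) := by
    have h6 : C S * (c %ₘ m) = C S * c - m * (C S * (c /ₘ m)) := by
      linear_combination C S * h4
    rw [h6]
    exact dvd_sub h3 (Dvd.intro _ rfl)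
  have h7 : C S * (c %ₘ m) = 0 := by
    refine eq_zero_of_dvd_of_degree_lt h5 ?_
    rw [degree_C_mul hS]
    exact degree_modByMonic_lt c hm
  have h8 : c %ₘ m = 0 := (mul_eq_zero.1 h7).resolve_left (C_ne_zero.2 hS)
  exact (modByMonic_eq_zero_iff_dvd hm).1 h8

theorem parity {R : Type} [CommRing R] [IsDomain R] (G : R[X]) (hG : G.natDegree = 3) (S : R)
    (hS : S ≠ 0) (r0 r1 : R[X]) (h : r0 ^ 2 * C S = r1 ^ 2 * G) : r0 = 0 ∧ r1 = 0 := by
  have hG0 : G ≠ 0 := by
    rintro rfl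
    simp at hG
  have hC : (C S : R[X]) ≠ 0 := C_ne_zero.2 hS
  by_cases h0 : r0 = 0
  · subst h0
    refine ⟨rfl, ?_⟩
    have h1 : r1 ^ 2 * G = 0 := by rw [← h]; simp
    exact pow_eq_zero_iff two_ne_zero |>.1 ((mul_eq_zero.1 h1).resolve_right hG0)
  · exfalso
    have h1 : r1 ≠ 0 := by
      rintro rfl
      exact mul_ne_zero (pow_ne_zero 2 h0) hC (by rw [h]; simp)
    have h2 := congrArg natDegree h
    rw [natDegree_mul (pow_ne_zero 2 h0) hC, natDegree_mul (pow_ne_zero 2 h1) hG0, natDegree_pow,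
      natDegree_pow, natDegree_C, hG] at h2
    omega

end KerL

theorem ker_stmt : KerStmt := by
  intro k M K _ _ _ _ _ ι R z t S g e he htr hS hg
  have hg0 : g ≠ 0 := by
    rintro rfl
    simp at hg
  have hG : (g.map (algebraMap k R)).natDegree = 3 := by
    rw [natDegree_map_eq_of_injective (algebraMap k R).injective, hg]
  have hG0 : g.map (algebraMap k R) ≠ 0 := by
    intro h
    rw [h] at hG
    simp at hG
  have hC : (C S : R[X]) ≠ 0 := C_ne_zero.2 hS
  have hinj : Function.Injective (XAlg.ev (ι.comp R.val) z : R[X] →+* K) := by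
    refine (injective_iff_map_eq_zero _).2 fun p hp => ?_
    have h1 : eval₂ (ι : M →+* K) z (p.map (R.val : R →+* M)) = 0 := by
      rw [eval₂_map]
      exact hp
    exact Polynomial.map_injective (R.val : R →+* M) Subtype.val_injective
      ((htr _ h1).trans (Polynomial.map_zero _).symm)
  have e1 : (XAlg.ev (ι.comp R.val) z : R[X] →+* K) (C S) = ι S := XAlg.ev_C _ _ _
  have e2 : (XAlg.ev (ι.comp R.val) z : R[X] →+* K) (g.map (algebraMap k R)) = aeval z g := by
    change eval₂ ((ι.comp R.val : R →ₐ[k] K) : R →+* K) z (g.map (algebraMap k R)) = _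
    rw [eval₂_map, AlgHom.comp_algebraMap, aeval_def]
  have d2 := KerL.dvd_of g hg0 S hS
  have d1 := KerL.swap _ _ hG0 d2
  refine ⟨fun h q hq => ?_, fun h q hq => ?_⟩
  · exact KerL.ker _ hinj t (C S) _ e he hC d1
      (fun r0 r1 hr => (KerL.parity _ hG S hS r0 r1 hr).2) (by rw [e1, e2]; exact h) q hq
  · have h1 := KerL.ker _ hinj t _ (C S) e he hG0 d2
      (fun r0 r1 hr => (KerL.parity _ hG S hS r1 r0 hr.symm).1) (by rw [e1, e2]; exact h.symm) q hq
    rw [← neg_dvd, neg_sub, mul_comm] at h1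
    exact h1

end Pool.Agent.MP_20d318_ag.CH

end PartKer

section PartSmo

/-! Smoothness of the charts. -/

set_option autoImplicit false
set_option linter.unusedSectionVars false

namespace Pool.Agent.MP_20d318_ag.CH

open Pool.Agent.MP_fd6584_ag.Fn Pool.Agent.CBk Polynomial
open Pool.Agent.MP_fd6584_ag.AG hiding deg_inv deg_congr deg_of_unit deg_mul deg_prod deg_zpow
  deg_eq_zero deg_nonneg deg_div deg_pow

namespace SmoR

variable {k M K : Type} [Field k] [Field M] [Field K] [Algebra k M] [Algebra k K]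

theorem ext_der {A : Type} [CommRing A] [Algebra k A] (d : Derivation k A A) :
    ∃ D : Derivation k A[X] A[X], D X = 0 ∧ ∀ a, D (C a) = C (d a) := by
  refine ⟨(PolynomialModule.equivPolynomialSelf (R := A)).toLinearMap.compDer d.mapCoeffs, ?_,
    fun a => ?_⟩
  · change PolynomialModule.equivPolynomialSelf (d.mapCoeffs X) = 0
    rw [Derivation.mapCoeffs_X, map_zero]
  · ext i
    change (d.mapCoeffs (C a)).coeff i = _
    rw [Derivation.mapCoeffs_apply, coeff_C, coeff_C]
    split_ifs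
    · rfl
    · exact map_zero d

theorem der_X {A : Type} [CommRing A] [Algebra k A] :
    ∃ D : Derivation k A[X] A[X], ∀ p, D p = derivative p :=
  ⟨(derivative' (R := A)).restrictScalars k, fun _ => rfl⟩

theorem res_der (R : Subalgebra k M) (D : Derivation k M M) (h : ∀ f ∈ R, D f ∈ R) :
    ∃ d : Derivation k R R, ∀ a : R, (d a : M) = D a :=
  ⟨{ toFun := fun a => ⟨D a, h a a.2⟩
     map_add' := fun a b => Subtype.ext (map_add D (a : M) b)
     map_smul' := fun c a => Subtype.ext (D.map_smul c (a : M))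
     map_one_eq_zero' := Subtype.ext D.map_one_eq_zero
     leibniz' := fun a b => Subtype.ext (D.leibniz (a : M) b) }, fun _ => rfl⟩

theorem ev_mem {A : Type} [CommRing A] [Algebra k A] (f : A →ₐ[k] K) (b : K) (T : Subalgebra k K)
    (h1 : ∀ a, f a ∈ T) (h2 : b ∈ T) (p : A[X]) : XAlg.ev f b p ∈ T := by
  induction p using Polynomial.induction_on' with
  | add p q hp hq => rw [map_add]; exact add_mem hp hq
  | monomial n a =>
    rw [← C_mul_X_pow_eq_monomial, map_mul, map_pow, XAlg.ev_C, XAlg.ev_X]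
    exact mul_mem (h1 a) (pow_mem h2 n)

theorem range_eq (ι : M →ₐ[k] K) (R : Subalgebra k M) (z t : K) :
    (XAlg.ev (XAlg.ev (ι.comp R.val) z) t).range = Algebra.adjoin k (ι '' R ∪ {z, t}) := by
  refine le_antisymm ?_ (Algebra.adjoin_le ?_)
  · rintro _ ⟨p, rfl⟩
    exact ev_mem _ _ _ (ev_mem _ _ _ (fun a => Algebra.subset_adjoin (.inl ⟨a, a.2, rfl⟩))
      (Algebra.subset_adjoin (.inr (.inl rfl)))) (Algebra.subset_adjoin (.inr (.inr rfl))) p
  · rintro _ (⟨a, ha, rfl⟩ | rfl | rfl)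
    · exact ⟨C (C ⟨a, ha⟩), (XAlg.ev_C _ _ _).trans (XAlg.ev_C _ _ _)⟩
    · exact ⟨C X, (XAlg.ev_C _ _ _).trans (XAlg.ev_X _ _)⟩
    · exact ⟨X, XAlg.ev_X _ _⟩

theorem ev_map {A : Type} [CommRing A] [Algebra k A] (f : A →ₐ[k] K) (b : K) (g : k[X]) :
    XAlg.ev f b (g.map (algebraMap k A)) = aeval b g := by
  rw [XAlg.ev_eq, eval₂_map, AlgHom.comp_algebraMap, aeval_def]

theorem aeval_mem {O : Subalgebra k K} {z : K} (hz : z ∈ O) (g : k[X]) : aeval z g ∈ O := by
  rw [← ev_map (Algebra.ofId k K), Algebra.algebraMap_self, Polynomial.map_id]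
  exact ev_mem _ _ _ (fun a => O.algebraMap_mem a) hz g

end SmoR

open SmoR in
theorem smo_stmt : SmoStmt := by
  intro hyp ker k M K _ _ _ _ _ _ e ι R O z A S g h hR hc
  have h1 : Algebra.FormallySmooth k R[X] := Algebra.FormallySmooth.comp k R R[X]
  have h2 : Algebra.FormallySmooth k R[X][X] := Algebra.FormallySmooth.comp k R[X] R[X][X]
  have hS : (⟨S, h.mS⟩ : R) ≠ 0 := fun a => h.nS (congrArg Subtype.val a)
  have mS : ι S ∈ O := h.dom.1 h.mS
  have up : ∀ a, IsU R a → IsU O (ι a) := fun a ha => (isU_comap ι).1 (ha.mono h.dom.1)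
  have e0 : e ≠ 0 := by rcases h.he with rfl | rfl <;> decide
  have eC : ∀ (t : K) (a : R), XAlg.ev (XAlg.ev (ι.comp R.val) z) t (C (C a)) = ι a := fun t a =>
    (XAlg.ev_C _ _ _).trans (XAlg.ev_C _ _ _)
  have eg : ∀ (t : K) (q : k[X]), XAlg.ev (XAlg.ev (ι.comp R.val) z) t
      (C (q.map (algebraMap k R))) = aeval z q := fun t q =>
    (XAlg.ev_C _ _ _).trans (ev_map _ _ q)
  by_cases hA : A ∈ O
  · have hO := h.pts A hA (.inl rfl)
    rw [← range_eq] at hO
    have hk := (ker k M K ι R z A ⟨S, h.mS⟩ g e h.he h.tr hS h.deg).1 h.eq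
    have hP : XAlg.ev (XAlg.ev (ι.comp R.val) z) A
        (C (C ⟨S, h.mS⟩) * X ^ e - C (g.map (algebraMap k R))) = 0 := by
      rw [map_sub, map_mul, map_pow, eC, eg, XAlg.ev_X, ← h.eq, mul_comm, sub_self]
    rcases isU_or_mx (aeval_mem h.mz (derivative g)) with hu | hm
    · obtain ⟨d, hd⟩ := der_X (k := k) (A := R)
      obtain ⟨D, hX, hD⟩ := ext_der d
      refine hyp k K _ _ O _ D h2 hO hP hk ?_
      rw [map_sub, Derivation.leibniz, Derivation.leibniz_pow, hX, hD, hD, hd, hd, derivative_C,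
        map_zero, smul_zero, smul_zero, smul_zero, smul_zero, add_zero, zero_sub, map_neg,
        derivative_map, eg]
      simpa using (isU_const (O := O) (neg_ne_zero.2 (one_ne_zero (α := k)))).mul hu
    · obtain ⟨a, b, hab⟩ := h.sep
      have hg : IsU O (aeval z g) := isU_of_not_mx (aeval_mem h.mz g) fun hg => by
        have := mx_add h.loc (mx_mul_left (aeval_mem h.mz a) hg) (mx_mul_left (aeval_mem h.mz b) hm)
        rw [← map_mul, ← map_mul, ← map_add, hab, map_one] at this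
        exact one_not_mem_mx this
      rw [← h.eq] at hg
      have uA : IsU O A := IsU.of_pow hA e0 (IsU.of_mul (pow_mem hA e) mS hg)
      have uS : IsU O (ι S) := IsU.of_mul mS (pow_mem hA e) (by rwa [mul_comm])
      have ue : IsU O (e : K) := by
        rcases h.he with rfl | rfl
        · simpa using isU_one
        · have := isU_const (O := O) (NeZero.ne (2 : k))
          rwa [map_ofNat] at this
      obtain ⟨D, hD⟩ := der_X (k := k) (A := R[X])
      refine hyp k K _ _ O _ D h2 hO hP hk ?_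
      rw [hD, derivative_sub, derivative_C, sub_zero, derivative_C_mul_X_pow, map_mul, map_pow,
        XAlg.ev_X, C_mul, map_mul, eC, map_natCast, map_natCast]
      exact (uS.mul ue).mul (uA.pow _)
  · have ht : A⁻¹ ∈ O := h.aa.resolve_left hA
    have hm : A⁻¹ ∈ mx O := ⟨ht, fun a => hA (by simpa using a.inv_mem)⟩
    have hO := h.pts _ ht (.inr rfl)
    rw [← range_eq] at hO
    have eq : ι S = A⁻¹ ^ e * aeval z g := by
      rw [← h.eq, ← mul_assoc, ← mul_pow, inv_mul_cancel₀ h.nA, one_pow, one_mul]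
    have hk := (ker k M K ι R z A⁻¹ ⟨S, h.mS⟩ g e h.he h.tr hS h.deg).2 eq
    have hP : XAlg.ev (XAlg.ev (ι.comp R.val) z) A⁻¹
        (C (C ⟨S, h.mS⟩) - X ^ e * C (g.map (algebraMap k R))) = 0 := by
      rw [map_sub, map_mul, map_pow, eC, eg, XAlg.ev_X, ← eq, sub_self]
    obtain ⟨D₀, h3, h4⟩ := hc ⟨h.mS, fun a => (up _ a).not_mx
      (eq ▸ mx_mul_right (mx_pow hm e0) (aeval_mem h.mz g))⟩
    obtain ⟨d, hd⟩ := res_der R D₀ h3
    obtain ⟨D₁, hX₁, hD₁⟩ := ext_der d
    obtain ⟨D, hX, hD⟩ := ext_der D₁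
    have h5 : D₁ (g.map (algebraMap k R)) = 0 := by
      rw [← aeval_X_left_eq_map, Derivation.map_aeval, hX₁, smul_zero]
    refine hyp k K _ _ O _ D h2 hO hP hk ?_
    rw [map_sub, Derivation.leibniz, Derivation.leibniz_pow, hX, hD, hD, hD₁, h5, map_zero,
      smul_zero, smul_zero, smul_zero, smul_zero, add_zero, sub_zero, eC, hd]
    exact up _ h4

end Pool.Agent.MP_20d318_ag.CH

end PartSmo

section PartCrd

/-! Row CRD: local coordinates on the next level. -/

set_option autoImplicit false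
set_option linter.unusedSectionVars false

namespace Pool.Agent.MP_20d318_ag.CH

open Pool.Agent.MP_fd6584_ag.Fn Pool.Agent.CBk Polynomial
open Pool.Agent.MP_fd6584_ag.AG

namespace CrdA

variable {k K : Type} [Field k] [Field K] [Algebra k K] {O : Subalgebra k K} {n : ℕ}

theorem smem {V : Type} [AddCommGroup V] [Module K V] (S : Submodule O V) {s : K} {v : V}
    (hs : s ∈ O) (hv : v ∈ S) : s • v ∈ S := S.smul_mem ⟨s, hs⟩ hv

/-- Exchange of one coordinate. -/
theorem exch {δ : Derivation k K (Fin n → K)} {c ρ : Fin n → K} {i₀ : Fin n} {t ε w : K}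
    (hc : ∀ i, c i ∈ O) (ht : t ∈ O) (hw : w ∈ O) (he : IsU O ε) (hρ : ∀ i, ρ i ∈ O)
    (hu : IsU O (ρ i₀)) (h : (ε * w) • δ t = ∑ i, ρ i • δ (c i))
    (G : ∀ S : Submodule O (Fin n → K), (∀ i, δ (c i) ∈ S) → δ t ∈ S → ∀ a ∈ O, δ a ∈ S) :
    Gens O δ (Function.update c i₀ t) ∧
      ∃ u, IsU O u ∧ w * dt δ (Function.update c i₀ t) = u * dt δ c := by
  refine ⟨gens_iff.2 ⟨fun i => ?_, ?_⟩, ρ i₀ / ε, hu.div he, ?_⟩
  · by_cases e : i = i₀
    · rwa [e, Function.update_self]
    · rw [Function.update_of_ne e]; exact hc i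
  · set S := Submodule.span O (Set.range fun i => δ (Function.update c i₀ t i))
    have h0 : δ t ∈ S := Submodule.subset_span ⟨i₀, by simp⟩
    have h1 : ∀ i, i ≠ i₀ → δ (c i) ∈ S := fun i e =>
      Submodule.subset_span ⟨i, by simp [Function.update_of_ne e]⟩
    refine G S (fun i => ?_) h0
    by_cases e : i = i₀
    · rw [← Finset.add_sum_erase _ _ (Finset.mem_univ i₀), ← sub_eq_iff_eq_add] at h
      have h2 := smem S hu.inv_mem (S.sub_mem (smem S (O.mul_mem he.mem hw) h0)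
        (S.sum_mem fun j (hj : j ∈ Finset.univ.erase i₀) =>
          smem S (hρ j) (h1 j (Finset.ne_of_mem_erase hj))))
      rwa [h, smul_smul, inv_mul_cancel₀ hu.ne, one_smul, ← e] at h2
    · exact h1 i e
  · have e1 : (Matrix.of fun i => δ (Function.update c i₀ t i)) =
        (Matrix.of fun i => δ (c i)).updateRow i₀ (δ t) := by
      ext i j
      by_cases e : i = i₀
      · simp [e]
      · simp [Function.update_of_ne e, Matrix.updateRow_ne e]
    have e2 := Matrix.det_updateRow_sum (Matrix.of fun i => δ (c i)) i₀ ρ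
    have e3 := Matrix.det_updateRow_smul (Matrix.of fun i => δ (c i)) i₀ (ε * w) (δ t)
    rw [h] at e3
    have e4 := e3.symm.trans e2
    rw [dt, dt, e1, div_mul_eq_mul_div, eq_div_iff he.ne, ← smul_eq_mul (ρ i₀), ← e4]
    ring

theorem aev {z : K} (hz : z ∈ O) (p : k[X]) : aeval z p ∈ O := by
  induction p using Polynomial.induction_on' with
  | add p q a b => rw [map_add]; exact O.add_mem a b
  | monomial m a =>
    rw [aeval_monomial]
    exact O.mul_mem (O.algebraMap_mem a) (O.pow_mem hz m)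

end CrdA

open CrdA in
theorem crd_stmt : CrdStmt := by
  intro k M K _ _ _ _ _ _ e ι R O z A S g N δ c L hc hR hS
  have up : ∀ a ∈ R, ι a ∈ O := fun a ha => L.dom.1 ha
  have upU : ∀ a, IsU R a → IsU O (ι a) := fun a ha => (isU_comap ι).1 (ha.mono L.dom.1)
  obtain ⟨m, rfl⟩ : ∃ m, e = m + 1 := ⟨e - 1, by have := L.he; omega⟩
  have he : IsU O ((m + 1 : ℕ) : K) := by
    rcases L.he with h | h <;> rw [h]
    · rw [Nat.cast_one]; exact isU_one
    · have := isU_const (O := O) (NeZero.ne (2 : k))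
      rwa [map_ofNat] at this
  set c₀ : Fin (N + 1) → K := Fin.cons z fun i => ι (c i) with hc₀
  have m0 : ∀ i, c₀ i ∈ O := Fin.cases L.mz fun i => up _ (hc i)
  have G : ∀ t ∈ O, t = A ∨ t = A⁻¹ → ∀ T : Submodule O (Fin (N + 1) → K),
      (∀ i, δ (c₀ i) ∈ T) → δ t ∈ T → ∀ a ∈ O, δ a ∈ T := fun t ht h T h1 h2 =>
    der_span (L.pts t ht h) δ T (by
      rintro _ (⟨a, ha, rfl⟩ | rfl | rfl)
      · obtain ⟨r, r1, r2⟩ := hR a ha
        rw [r2]
        exact T.sum_mem fun i _ => smem T (up _ (r1 i)) (h1 i.succ)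
      · exact h1 0
      · exact h2)
  have g1 := aev L.mz g
  have g2 := aev L.mz (derivative g)
  have b1 := up S L.mS
  by_cases hA : A ∈ O
  · obtain ⟨r, r1, r2⟩ := hR S L.mS
    have w1 : wt (m + 1) O A (ι S) = A ^ m * ι S := by rw [wt, if_pos hA, Nat.add_sub_cancel]
    have w2 : A ^ m * ι S ∈ O := O.mul_mem (O.pow_mem hA m) b1
    set ρ : Fin (N + 1) → K := Fin.cons (aeval z (derivative g)) fun i => -(A ^ (m + 1) * ι (r i))
      with hρ
    have p1 : ∀ i, ρ i ∈ O :=
      Fin.cases g2 fun i => O.neg_mem (O.mul_mem (O.pow_mem hA _) (up _ (r1 i)))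
    have d : (((m + 1 : ℕ) : K) * (A ^ m * ι S)) • δ A = ∑ i, ρ i • δ (c₀ i) := by
      have h := congrArg δ L.eq
      rw [Derivation.leibniz, Derivation.leibniz_pow, Derivation.map_aeval, r2] at h
      simp only [hρ, hc₀, Fin.sum_univ_succ, Fin.cons_zero, Fin.cons_succ, neg_smul,
        Finset.sum_neg_distrib, mul_smul (A ^ (m + 1)), ← Finset.smul_sum]
      rw [← h, Nat.add_sub_cancel, ← Nat.cast_smul_eq_nsmul K]
      module
    have nu : ∀ t ∈ mx O, t = A⁻¹ → False := fun t ht h =>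
      ht.2 (h ▸ IsU.inv ⟨L.nA, hA, h ▸ ht.1⟩)
    rw [w1]
    rcases isU_or_mx g2 with u | u
    · obtain ⟨a1, a2⟩ := exch (i₀ := 0) m0 hA w2 he p1 u d (G A hA (Or.inl rfl))
      exact ⟨_, a1, a2, fun t ht h => ⟨0, by
        rw [Function.update_self, h.resolve_right (nu t ht)]⟩⟩
    · obtain ⟨p, q, hpq⟩ := L.sep
      have u1 : IsU O (aeval z g) := isU_of_not_mx g1 fun v => by
        have := mx_add L.loc (mx_mul_left (aev L.mz p) v) (mx_mul_left (aev L.mz q) u)
        rw [← map_mul, ← map_mul, ← map_add, hpq, map_one] at this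
        exact isU_one.not_mx this
      rw [← L.eq, pow_succ', mul_assoc] at u1
      have u2 := IsU.of_mul hA w2 u1
      have u3 := IsU.of_mul w2 hA (by rwa [mul_comm])
      refine ⟨c₀, gens_iff.2 ⟨m0, G A hA (Or.inl rfl) _ (fun i => Submodule.subset_span ⟨i, rfl⟩) ?_⟩,
        ⟨_, u3, rfl⟩, fun t ht h => ?_⟩
      · have h2 := smem (Submodule.span O (Set.range fun i => δ (c₀ i))) (he.mul u3).inv_mem
          (Submodule.sum_mem _ fun i (_ : i ∈ Finset.univ) =>
            smem _ (p1 i) (Submodule.subset_span ⟨i, rfl⟩))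
        rwa [← d, smul_smul, inv_mul_cancel₀ (he.mul u3).ne, one_smul] at h2
      · exact (h.elim (fun h => ht.2 (h ▸ u2)) (nu t ht)).elim
  · have t1 := L.aa.resolve_left hA
    have t2 : A⁻¹ ∈ mx O := ⟨t1, fun v => hA (by simpa using v.inv_mem)⟩
    have b2 : ι S = A⁻¹ ^ (m + 1) * aeval z g := by
      rw [← L.eq, inv_pow, inv_mul_cancel_left₀ (pow_ne_zero _ L.nA)]
    obtain ⟨r, r1, r2, i₀, r3⟩ := hS ⟨L.mS, fun v =>
      (upU S v).not_mx (b2 ▸ mx_mul_right (mx_pow t2 m.succ_ne_zero) g1)⟩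
    have w1 : wt (m + 1) O A (ι S) = A⁻¹ ^ m * aeval z g := by
      rw [wt, if_neg hA, b2, pow_succ', mul_assoc, mul_inv_cancel_left₀ L.nA]
    set ρ : Fin (N + 1) → K := Fin.cons (-(A⁻¹ ^ (m + 1) * aeval z (derivative g))) fun i => ι (r i)
      with hρ
    have p1 : ∀ i, ρ i ∈ O :=
      Fin.cases (O.neg_mem (O.mul_mem (O.pow_mem t1 _) g2)) fun i => up _ (r1 i)
    have d : (((m + 1 : ℕ) : K) * (A⁻¹ ^ m * aeval z g)) • δ A⁻¹ = ∑ i, ρ i • δ (c₀ i) := by
      have h := congrArg δ b2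
      rw [Derivation.leibniz, Derivation.leibniz_pow, Derivation.map_aeval, r2] at h
      simp only [hρ, hc₀, Fin.sum_univ_succ, Fin.cons_zero, Fin.cons_succ]
      rw [h, Nat.add_sub_cancel, ← Nat.cast_smul_eq_nsmul K]
      module
    obtain ⟨a1, a2⟩ := exch (i₀ := i₀.succ) m0 t1 (O.mul_mem (O.pow_mem t1 m) g1) he p1
      (upU _ r3) d (G _ t1 (Or.inr rfl))
    rw [w1]
    exact ⟨_, a1, a2, fun t ht h => ⟨i₀.succ, by
      rw [Function.update_self, h.resolve_left fun h => hA (h ▸ ht.1)]⟩⟩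

end Pool.Agent.MP_20d318_ag.CH

end PartCrd

section PartDer

/-! Row DER: derivations of rational function fields. -/

set_option autoImplicit false

namespace Pool.Agent.MP_20d318_ag.CH

open Pool.Agent.MP_fd6584_ag.Fn Pool.Agent.CBk
open Pool.Agent.MP_fd6584_ag.AG

namespace DerL

theorem ex (k M : Type) [Field k] [Field M] [Algebra k M] (N : ℕ) (y : Fin N → M)
    (hy : AlgebraicIndependent k y) (ht : IntermediateField.adjoin k (Set.range y) = ⊤) :
    ∃ δ : Derivation k M (Fin N → M), ∀ i, δ (y i) = Pi.single i 1 := by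
  have hs : Algebra.IsSeparable (IntermediateField.adjoin k (Set.range y)) M :=
    ⟨fun x => isSeparable_algebraMap
      (⟨x, ht ▸ IntermediateField.mem_top⟩ : IntermediateField.adjoin k (Set.range y))⟩
  have hb : IsTranscendenceBasis k y := by
    rw [hy.isTranscendenceBasis_iff_isAlgebraic, ← IntermediateField.isAlgebraic_adjoin_iff_top]
    exact Algebra.IsSeparable.isAlgebraic _ _
  obtain ⟨b, hb⟩ := Canon.exists_basis hb hs
  refine ⟨b.equivFun.toLinearMap.compDer (KaehlerDifferential.D k M), fun i => ?_⟩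
  change b.equivFun (KaehlerDifferential.D k M (y i)) = _
  rw [← hb]
  funext j
  rw [Module.Basis.equivFun_self, Pi.single_apply]
  simp only [eq_comm]

theorem chain (k M K V : Type) [Field k] [Field M] [Field K] [Algebra k M] [Algebra k K]
    [AddCommGroup V] [Module K V] [Module k V] [IsScalarTower k K V] (N : ℕ) (y : Fin N → M)
    (δ : Derivation k M (Fin N → M)) (ι : M →ₐ[k] K) (Δ : Derivation k K V)
    (ht : IntermediateField.adjoin k (Set.range y) = ⊤) (hy : ∀ i, δ (y i) = Pi.single i 1)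
    (a : M) : Δ (ι a) = ∑ i, ι (δ a i) • Δ (ι (y i)) := by
  have ha : a ∈ IntermediateField.adjoin k (Set.range y) := ht ▸ IntermediateField.mem_top
  induction ha using IntermediateField.adjoin_induction with
  | mem x hx =>
    obtain ⟨j, rfl⟩ := hx
    rw [hy, Finset.sum_eq_single j]
    · rw [Pi.single_eq_same, map_one, one_smul]
    · intro i _ hi
      rw [Pi.single_eq_of_ne hi, map_zero, zero_smul]
    · intro h
      exact absurd (Finset.mem_univ j) h
  | algebraMap x =>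
    rw [ι.commutes, Derivation.map_algebraMap, Derivation.map_algebraMap]
    simp
  | add x z _ _ hx hz =>
    rw [map_add, map_add, map_add, hx, hz, ← Finset.sum_add_distrib]
    refine Finset.sum_congr rfl fun i _ => ?_
    rw [Pi.add_apply, map_add, add_smul]
  | inv x _ hx =>
    rw [map_inv₀, Derivation.leibniz_inv, Derivation.leibniz_inv, hx, Finset.smul_sum]
    refine Finset.sum_congr rfl fun i _ => ?_
    rw [Pi.smul_apply, smul_eq_mul, map_mul, map_neg, map_pow, map_inv₀, smul_smul]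
  | mul x z _ _ hx hz =>
    rw [map_mul, Derivation.leibniz, Derivation.leibniz, hx, hz, Finset.smul_sum, Finset.smul_sum,
      ← Finset.sum_add_distrib]
    refine Finset.sum_congr rfl fun i _ => ?_
    rw [Pi.add_apply, Pi.smul_apply, Pi.smul_apply, smul_eq_mul, smul_eq_mul, map_add, map_mul,
      map_mul, add_smul, smul_smul, smul_smul]

theorem dual (k K : Type) [Field k] [Field K] [Algebra k K] (N : ℕ) (O : Subalgebra k K)
    (δ : Derivation k K (Fin N → K)) (c : Fin N → K) (hc : Gens O δ c) (hd : dt δ c ≠ 0)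
    (i : Fin N) : Crd O (c i) := by
  intro _
  have hu : IsUnit (Matrix.of fun j => δ (c j)).det := Ne.isUnit hd
  let φ : (Fin N → K) →ₗ[K] K :=
    (LinearMap.proj i).comp (Matrix.vecMulLinear (Matrix.of fun j => δ (c j))⁻¹)
  have hφ : ∀ j, φ (δ (c j)) = if j = i then 1 else 0 := fun j => by
    have h1 := congrFun (congrFun (Matrix.mul_nonsing_inv _ hu) j) i
    rw [Matrix.one_apply] at h1
    exact h1
  refine ⟨φ.compDer δ, fun f hf => ?_, ?_⟩
  · obtain ⟨r, hr, h⟩ := hc.2 f hf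
    change φ (δ f) ∈ O
    rw [h, map_sum]
    refine O.sum_mem fun j _ => ?_
    rw [map_smul, hφ, smul_eq_mul]
    refine O.mul_mem (hr j) ?_
    split_ifs
    · exact O.one_mem
    · exact O.zero_mem
  · change IsU O (φ (δ (c i)))
    rw [hφ, if_pos rfl]
    exact ⟨one_ne_zero, O.one_mem, by rw [inv_one]; exact O.one_mem⟩

end DerL

theorem der_stmt : Der := ⟨DerL.ex, DerL.chain, DerL.dual⟩

end Pool.Agent.MP_20d318_ag.CH

end PartDer

section PartTriv

/-! TRIV: the canonical sheaf. -/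

set_option autoImplicit false
set_option linter.unusedSectionVars false

namespace Pool.Agent.MP_20d318_ag.CH

open Pool.Agent.MP_fd6584_ag Pool.Agent.MP_fd6584_ag.Pj Pool.Agent.CBk.Canon

theorem Triv.mem {k K J : Type} [Field k] [Field K] [Algebra k K] {𝒞 : Charts k K J} (M : Model 𝒞)
    (x : M.X) : Sch.OA M x ∈ Sch.pts 𝒞 := by
  obtain ⟨j, p, h⟩ := M.cover x
  refine Set.mem_iUnion.mpr ⟨j, (Sch.toOA M x).isLocalRing, fun _ hy => Model.B_le_O h hy,
    fun f hf => ?_⟩
  obtain ⟨a, b, hb, h1⟩ := (Model.mem_O h).mp hf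
  have h2 := (Model.U_iff h b).mpr hb
  exact ⟨a, a.2, b, b.2, h2, eq_div_of_mul_eq h2.1 h1⟩

theorem triv_stmt : TrivStmt := by
  intro k K J _ _ _ 𝒞 M n y l hi hs hl h
  have hy : IsTranscendenceBasis k y := hi.isTranscendenceBasis_iff_isAlgebraic.2
    (IntermediateField.isAlgebraic_adjoin_iff_top.1 inferInstance)
  let : Algebra k M.X.functionField := (const M.s).toAlgebra
  let e : M.X.functionField ≃ₐ[k] K := AlgEquiv.ofRingEquiv (f := M.e) M.e_const
  obtain ⟨b, hb⟩ := exists_basis (y := fun i => e.symm (y i))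
    (.of_comp e.toAlgHom e.injective (by simpa [Function.comp_def] using hy))
    (sep_comap e.toAlgHom _ (fun i => e.apply_symm_apply (y i)) hs)
  let D : Derivation k K (Fin (n + 1) → K) := Derivation.mk' (LinearMap.pi fun i => e.toLinearMap ∘ₗ
    (b.coord i).restrictScalars k ∘ₗ (KaehlerDifferential.D k _).toLinearMap ∘ₗ e.symm.toLinearMap)
    fun x y => by ext i; simp
  have hD : ∀ y i, D (M.e y) i = M.e (b.repr (KaehlerDifferential.D k _ y) i) := fun y i => by
    change e (b.coord i (KaehlerDifferential.D k _ (e.symm (e y)))) = _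
    rw [e.symm_apply_apply]
    rfl
  let b' := b.unitsSMul (Pi.mulSingle 0 (Units.mk0 (e.symm l) (by simpa using hl))⁻¹)
  have hdet : ∀ (z : M.X) (a : Fin (n + 1) → M.X.presheaf.stalk z), M.e (b'.det fun i =>
      KaehlerDifferential.D k M.X.functionField (algebraMap _ _ (a i))) =
      l * dt D fun i => M.ev z (a i) := fun z a => by
    rw [Module.Basis.det_unitsSMul, Finset.prod_pi_mulSingle' 0, if_pos (Finset.mem_univ _), inv_inv,
      AlternatingMap.smul_apply, smul_eq_mul, map_mul, Module.Basis.det_apply, RingEquiv.map_det,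
      ← Matrix.det_transpose, dt]
    exact congrArg₂ (· * ·) (e.apply_symm_apply l)
      (congrArg Matrix.det (Matrix.ext fun j i => (hD _ i).symm))
  refine ⟨n + 1, b', fun z => ?_⟩
  obtain ⟨c, ⟨h1, h2⟩, h3⟩ := h D (fun i => funext fun j => by
    rw [← M.e.apply_symm_apply (y i), hD]
    change M.e (b.repr (KaehlerDifferential.D k _ (e.symm (y i))) j) = _
    rw [← hb, b.repr_self, Finsupp.single_apply, Pi.single_apply]
    simp [eq_comm]) _ (Triv.mem M z)
  constructor
  · intro a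
    choose t ht hu using fun i => h2 _ (show M.ev z (a i) ∈ Sch.OA M z from ⟨a i, rfl⟩)
    have h5 : (dt D fun i => M.ev z (a i)) = (Matrix.of t).det * dt D c := by
      rw [dt, dt, ← Matrix.det_mul]
      exact congrArg Matrix.det (Matrix.ext fun j i => by simp [Matrix.mul_apply, hu])
    have h6 : (Matrix.of t).det ∈ Sch.OA M z := by
      rw [Matrix.det_apply']
      exact sum_mem fun σ _ => mul_mem (intCast_mem _ _) (prod_mem fun i _ => ht _ _)
    obtain ⟨u, hu⟩ := mul_mem h6 h3.2.1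
    exact ⟨u, M.e.injective (by rw [hdet, h5, mul_left_comm]; exact hu)⟩
  · choose a ha using h1
    obtain rfl : c = fun i => M.ev z (a i) := funext fun i => (ha i).symm
    simp only [← hdet] at h3
    obtain ⟨h4, -, u, hu⟩ := h3
    exact ⟨a, fun h0 => h4 (by rw [h0, map_zero]), u, M.e.injective (by rw [map_inv₀]; exact hu)⟩

end Pool.Agent.MP_20d318_ag.CH

end PartTriv

section PartLift

/-! Curves lift to points with the same residue field. -/

set_option autoImplicit false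
set_option linter.unusedSectionVars false

namespace Pool.Agent.MP_20d318_ag.CH

open Pool.Agent.MP_fd6584_ag.Fn Pool.Agent.CBk
open Pool.Agent.MP_fd6584_ag.AG hiding deg_inv deg_congr deg_of_unit deg_mul deg_prod deg_zpow
  deg_eq_zero deg_nonneg deg_div deg_pow

namespace Lift

variable {k M K L : Type} [Field k] [Field M] [Field K] [Field L] [Algebra k M] [Algebra k K]
  [Algebra k L]

/-- A local homomorphism extends to a point with the same residue field. -/
theorem ext (ι : M →ₐ[k] K) {R : Subalgebra k M} {O : Subalgebra k K} {G : Set K}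
    (hd : Dom R (O.comap ι)) (hO : O ∈ Pts (Algebra.adjoin k (ι '' R ∪ G)))
    (hG : ∀ g ∈ G, ∃ c : k, g - algebraMap k K c ∈ mx O) {ρ : R →ₐ[k] L} (hρ : LocHom R ρ) :
    ∃ ρ' : O →ₐ[k] L, LocHom O ρ' ∧ ∀ a ∈ R, evO O ρ' (ι a) = evO R ρ a := by
  have := hO.1
  have := hρ.isLocalRing
  have hr := resid_loc (O := O)
  let j : R →ₐ[k] O := (ι.comp R.val).codRestrict O fun u => hd.1 u.2
  have hj : LocHom R ((resid O).comp j) := fun u hu =>
    hd.2 u u.2 ((isU_comap ι).2 (hr (j u) hu))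
  obtain ⟨α, hα⟩ := hj.factor
  obtain ⟨β, hβ⟩ := hρ.factor
  have ha : ∀ a : R, evO O (resid O) (ι a) = α (resid R a) := fun a =>
    (evO_coe (resid O) (j a)).trans (AlgHom.congr_fun hα a).symm
  have hs : ι '' R ∪ G ⊆ O := fun g hg => hO.2.1 (Algebra.subset_adjoin hg)
  have h1 : Algebra.adjoin k (evO O (resid O) '' (ι '' R ∪ G)) ≤ α.fieldRange.toSubalgebra := by
    refine Algebra.adjoin_le ?_
    rintro _ ⟨_, ⟨a, h, rfl⟩ | h, rfl⟩
    · exact ⟨_, (ha ⟨a, h⟩).symm⟩
    · obtain ⟨c, hc⟩ := hG _ h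
      have h2 := (hr.eq_zero_iff hc.1).2 hc
      rw [evO_sub _ (hs (Or.inr h)) (O.algebraMap_mem c), evO_const, sub_eq_zero] at h2
      rw [h2]
      exact Subalgebra.algebraMap_mem _ c
  have su : Function.Surjective α := fun y => by
    obtain ⟨f, rfl⟩ := resid_surj y
    obtain ⟨a, h2, b, h3, h4, h5⟩ := hO.2.2 f f.2
    rw [← evO_coe, h5, evO_div _ (hO.2.1 h2) h4]
    exact α.fieldRange.div_mem (h1 (DimRow.ev_adjoin _ hs h2)) (h1 (DimRow.ev_adjoin _ hs h3))
  let ε := AlgEquiv.ofBijective α ⟨α.injective, su⟩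
  refine ⟨(β.comp (ε.symm : _ →ₐ[k] _)).comp (resid O), hr.comp _, fun a h => ?_⟩
  rw [evO_comp, ha ⟨a, h⟩, evO_of_mem ρ h, ← hβ]
  exact congrArg β (ε.symm_apply_apply _)

end Lift

theorem lift_stmt : LiftStmt := by
  intro k M K _ _ _ _ _ ι Y X ν O G hY hX h hO e hp hG
  have hd := h.dom hO
  rw [e] at hd hp
  obtain ⟨ρ, hρ, hv⟩ := Lift.ext ι hd hp hG ν.locHom
  refine ⟨hX.curve hO ρ hρ, rfl, fun f hf => ?_⟩
  refine finsum_congr fun P : Place k ν.L => ?_
  set ν' := hX.curve hO ρ hρ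
  have hm := ν'.pt_mem P
  have hle : pr ι Y (ν'.pt P) ≤ ν.gen := e ▸ pr_mono hY hX h hm hO (ν'.pt_le P)
  have h1 : ν.pt P = pr ι Y (ν'.pt P) := hY.pt_eq ν P (h.mem hm)
    ⟨fun u hu => mem_preO.2 ⟨hle hu, hv u (hle hu) ▸ ν'.v_le P (h.mem_up hm hu)⟩,
      fun u hu hU => (h.dom hm).2 u hu ((isU_comap ι).2 ((ν'.v_eq_one_iff P (h.mem_up hm hu)).1
        ((congrArg P.v (hv u (hle hu))).trans ((isU_preO ν.locHom).1 hU).2)))⟩
  refine congrArg P.ord ?_
  have h2 := hv _ (hf.unit (ν.pt_mem P) ν.gen_mem (ν.pt_le P)).2.1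
  rw [map_div₀, h1] at h2
  rw [h1]
  exact (congrArg (fun R => evO O ρ (ι (f (pr ι Y (ν'.pt P))) / ι (f R))) e).trans h2

end Pool.Agent.MP_20d318_ag.CH

end PartLift

section PartFld

/-! Facts on the field extension. -/

set_option autoImplicit false
set_option linter.unusedSectionVars false

namespace Pool.Agent.MP_20d318_ag.CH

open Pool.Agent.MP_fd6584_ag.Fn Pool.Agent.CBk Polynomial
open Pool.Agent.MP_fd6584_ag.AG hiding deg_inv deg_congr deg_of_unit deg_mul deg_prod deg_zpow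
  deg_eq_zero deg_nonneg deg_div deg_pow
open IntermediateField (adjoin)

namespace FLD

variable {k M K : Type} [Field k] [Field M] [Field K] [Algebra k M] [Algebra k K] {φ : M}
  {ι : M →ₐ[k] K} {l : k} {ζ w : K} {e : ℕ}

theorem rt_of (h : Tr ι ζ) {f : K} (hf : f ∈ adjoin k (Set.range ι ∪ {ζ})) : Rt ι ζ f := by
  induction hf using IntermediateField.adjoin_induction with
  | mem x hx =>
    rcases hx with ⟨m, rfl⟩ | rfl
    · exact ⟨C m, 1, one_ne_zero, by simp⟩
    · exact ⟨X, 1, one_ne_zero, by simp⟩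
  | algebraMap c => exact ⟨C (algebraMap k M c), 1, one_ne_zero, by simp⟩
  | add x y _ _ hx hy =>
    obtain ⟨A, B, hB, rfl⟩ := hx
    obtain ⟨A', B', hB', rfl⟩ := hy
    exact ⟨A * B' + B * A', B * B', mul_ne_zero hB hB', by
      rw [div_add_div _ _ (fun h0 => hB (h B h0)) fun h0 => hB' (h B' h0), eval₂_add, eval₂_mul,
        eval₂_mul, eval₂_mul]⟩
  | inv x _ hx =>
    obtain ⟨A, B, hB, rfl⟩ := hx
    by_cases hA : A = 0
    · exact ⟨0, 1, one_ne_zero, by simp [hA]⟩
    · exact ⟨B, A, hA, inv_div _ _⟩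
  | mul x y _ _ hx hy =>
    obtain ⟨A, B, hB, rfl⟩ := hx
    obtain ⟨A', B', hB', rfl⟩ := hy
    exact ⟨A * A', B * B', mul_ne_zero hB hB', by rw [div_mul_div_comm, eval₂_mul, eval₂_mul]⟩

theorem pow_mem' (h : Ext φ ι l ζ w e) {F : IntermediateField k K} (h1 : ∀ m, ι m ∈ F)
    (h2 : ζ ∈ F) : w ^ e ∈ F :=
  h.eq ▸ mul_mem (pow_mem (h1 φ) _) (mul_mem (mul_mem h2 (sub_mem h2 (one_mem _)))
    (sub_mem h2 (F.algebraMap_mem l)))

theorem eq_top (h : Ext φ ι l ζ w e) {F : IntermediateField k K} (h1 : ∀ m, ι m ∈ F)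
    (h2 : ζ ∈ F) (h3 : w ∈ F) : F = ⊤ := by
  rw [eq_top_iff, ← h.top, IntermediateField.adjoin_le_iff]
  rintro _ (⟨b, rfl⟩ | rfl | rfl)
  exacts [h1 b, h2, h3]

theorem dec (h : Ext φ ι l ζ w e) {F : IntermediateField k K} (h1 : ∀ m, ι m ∈ F) (h2 : ζ ∈ F)
    (h3 : w ^ 2 ∈ F) (f : K) : ∃ a ∈ F, ∃ b ∈ F, f = a + b * w := by
  have hf : f ∈ adjoin k (Set.range ι ∪ {ζ, w}) := h.top ▸ IntermediateField.mem_top
  induction hf using IntermediateField.adjoin_induction with
  | mem x hx =>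
    rcases hx with ⟨m, rfl⟩ | rfl | rfl
    · exact ⟨_, h1 m, 0, zero_mem _, by simp⟩
    · exact ⟨_, h2, 0, zero_mem _, by simp⟩
    · exact ⟨0, zero_mem _, 1, one_mem _, by simp⟩
  | algebraMap c => exact ⟨_, F.algebraMap_mem c, 0, zero_mem _, by simp⟩
  | add x y _ _ hx hy =>
    obtain ⟨a, ha, b, hb, rfl⟩ := hx
    obtain ⟨a', ha', b', hb', rfl⟩ := hy
    exact ⟨_, add_mem ha ha', _, add_mem hb hb', by ring⟩
  | inv x _ hx =>
    obtain ⟨a, ha, b, hb, rfl⟩ := hx
    by_cases h4 : a - b * w = 0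
    · refine ⟨(a + a)⁻¹, inv_mem (add_mem ha ha), 0, zero_mem _, ?_⟩
      rw [← sub_eq_zero.1 h4, zero_mul, add_zero]
    · have hn : a ^ 2 - b ^ 2 * w ^ 2 ∈ F := sub_mem (pow_mem ha 2) (mul_mem (pow_mem hb 2) h3)
      refine ⟨_, div_mem ha hn, _, div_mem (neg_mem hb) hn, ?_⟩
      rw [div_mul_eq_mul_div, ← add_div, neg_mul, ← sub_eq_add_neg, ← mul_pow, sq_sub_sq,
        div_mul_cancel_right₀ h4]
  | mul x y _ _ hx hy =>
    obtain ⟨a, ha, b, hb, rfl⟩ := hx
    obtain ⟨a', ha', b', hb', rfl⟩ := hy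
    exact ⟨_, add_mem (mul_mem ha ha') (mul_mem (mul_mem hb hb') h3), _,
      add_mem (mul_mem ha hb') (mul_mem hb ha'), by ring⟩

theorem fix {θ : K ≃ₐ[k] K} (h1 : ∀ m, θ (ι m) = ι m) (h2 : θ ζ = ζ) {f : K} (h : Rt ι ζ f) :
    θ f = f := by
  have key : ∀ A : M[X], θ (A.eval₂ (ι : M →+* K) ζ) = A.eval₂ (ι : M →+* K) ζ := fun A => by
    have := hom_eval₂ A (ι : M →+* K) (θ : K →+* K) ζ
    rwa [show (θ : K →+* K).comp (ι : M →+* K) = ι from RingHom.ext h1,
      show (θ : K →+* K) ζ = ζ from h2] at this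
  obtain ⟨A, B, -, rfl⟩ := h
  rw [map_div₀, key, key]

theorem ind (h : Tr ι ζ) {N : ℕ} {y : Fin N → M} (hy : AlgebraicIndependent k y) :
    AlgebraicIndependent k (Fin.cons ζ fun i => ι (y i) : Fin (N + 1) → K) := by
  have h1 : AlgebraicIndependent k fun i => ι (y i) := hy.map' ι.toRingHom.injective
  have h2 : Transcendental (Algebra.adjoin k (Set.range fun i => ι (y i))) ζ := by
    rintro ⟨p, hp, h0⟩
    have hle : Algebra.adjoin k (Set.range fun i => ι (y i)) ≤ ι.range :=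
      Algebra.adjoin_le (by rintro _ ⟨i, rfl⟩; exact ⟨_, rfl⟩)
    let ε := AlgEquiv.ofInjective ι ι.toRingHom.injective
    let f := (ε.symm.toAlgHom.comp (Subalgebra.inclusion hle)).toRingHom
    refine hp ((Polynomial.map_eq_zero_iff (f := f)
      (ε.symm.injective.comp (Subalgebra.inclusion_injective hle))).1 (h _ ?_))
    rw [eval₂_map, ← h0, aeval_def]
    congr 1
    exact RingHom.ext fun a => congrArg Subtype.val (ε.apply_symm_apply ⟨a, hle a.2⟩)
  have h3 := ((h1.option_iff_transcendental ζ).2 h2).comp _ (finSuccEquiv N).injective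
  rwa [show (fun o : Option (Fin N) => o.elim ζ fun i => ι (y i)) ∘ finSuccEquiv N =
    Fin.cons ζ fun i => ι (y i) from funext fun i => by cases i using Fin.cases <;> simp] at h3

theorem mems {N : ℕ} {y : Fin N → M} (hy : adjoin k (Set.range y) = ⊤) :
    (∀ m, ι m ∈ adjoin k (Set.range (Fin.cons ζ fun i => ι (y i) : Fin (N + 1) → K))) ∧
      ζ ∈ adjoin k (Set.range (Fin.cons ζ fun i => ι (y i) : Fin (N + 1) → K)) := by
  refine ⟨fun a => ?_, IntermediateField.subset_adjoin _ _ ⟨0, rfl⟩⟩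
  have h5 : adjoin k (Set.range y) ≤
      (adjoin k (Set.range (Fin.cons ζ fun i => ι (y i) : Fin (N + 1) → K))).comap ι := by
    rw [IntermediateField.adjoin_le_iff]
    rintro _ ⟨i, rfl⟩
    exact IntermediateField.subset_adjoin k _ ⟨i.succ, rfl⟩
  exact h5 (hy ▸ IntermediateField.mem_top)

theorem sep [NeZero (2 : k)] (h : Ext φ ι l ζ w e) {F : IntermediateField k K}
    (h1 : ∀ m, ι m ∈ F) (h2 : ζ ∈ F) : Algebra.IsSeparable F K := by
  have a : ∀ u ∈ F, u ∈ (separableClosure F K).restrictScalars k := fun u hu =>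
    (separableClosure F K).algebraMap_mem ⟨u, hu⟩
  have mw := pow_mem' h h1 h2
  have hw : w ∈ (separableClosure F K).restrictScalars k := by
    by_cases h0 : w = 0
    · exact h0 ▸ zero_mem _
    have he : (e : F) ≠ 0 := by
      rcases h.he with rfl | rfl
      · simp
      · exact_mod_cast two_ne k F
    exact (separable_X_pow_sub_C (n := e) (⟨_, mw⟩ : F) he fun e1 =>
      pow_ne_zero e h0 (congrArg Subtype.val e1)).of_dvd (minpoly.dvd F w (by simp))
  exact ⟨fun f => (eq_top h (fun m => a _ (h1 m)) (a _ h2) hw).ge IntermediateField.mem_top⟩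

end FLD

open FLD in
theorem fld_stmt : FldStmt := by
  intro k M K _ _ _ _ _ _ φ ι l ζ w e h
  have h1 : ∀ m, ι m ∈ adjoin k (Set.range ι ∪ {ζ}) := fun m =>
    IntermediateField.subset_adjoin _ _ (Or.inl ⟨m, rfl⟩)
  have h2 : ζ ∈ adjoin k (Set.range ι ∪ {ζ}) := IntermediateField.subset_adjoin _ _ (Or.inr rfl)
  have one : e = 1 → ∀ F : IntermediateField k K, (∀ m, ι m ∈ F) → ζ ∈ F → F = ⊤ := by
    rintro rfl F a b
    exact eq_top h a b (pow_one w ▸ pow_mem' h a b)
  have rt : e = 1 → ∀ μ, Rt ι ζ μ := fun he μ =>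
    rt_of h.tr ((one he _ h1 h2).ge IntermediateField.mem_top)
  refine ⟨rt, fun θ t1 t2 t3 μ => ?_, fun _ _ => ind h.tr,
    fun he _ _ hy => one he _ (mems hy).1 (mems hy).2, fun _ _ hy => sep h (mems hy).1 (mems hy).2⟩
  rcases h.he with rfl | rfl
  · exact rt rfl _
  have h3 := pow_mem' h h1 h2
  obtain ⟨a, ha, b, hb, rfl⟩ := dec h h1 h2 h3 μ
  rw [map_add, map_mul, fix t1 t2 (rt_of h.tr ha), fix t1 t2 (rt_of h.tr hb), t3]
  have e1 : (a + b * w) * (a + b * (ι ((-1) ^ (2 - 1)) * w)) = a ^ 2 - b ^ 2 * w ^ 2 := by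
    simp only [Nat.add_one_sub_one, pow_one, map_neg, map_one]
    ring
  exact e1 ▸ rt_of h.tr (sub_mem (pow_mem ha 2) (mul_mem (pow_mem hb 2) h3))

end Pool.Agent.MP_20d318_ag.CH

end PartFld

section PartHom

/-! The field of the next level exists, and automorphisms extend to it. -/

set_option autoImplicit false

namespace Pool.Agent.MP_20d318_ag.CH

open Pool.Agent.CBk Pool.Agent.CBk.XAlg Polynomial

namespace HomRow

variable {k M K : Type} [Field k] [Field M] [Field K] [Algebra k M] [Algebra k K]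

/-- A simple transcendental extension is the field of rational functions. -/
theorem equiv1 (τ : M →ₐ[k] K) (l : k) (ζ : K) (htr : Tr τ ζ)
    (htop : IntermediateField.adjoin k (Set.range τ ∪ {ζ, cb l ζ}) = ⊤) :
    ∃ α : RatFunc M ≃ₐ[k] K, ∀ p : M[X], α (algebraMap M[X] (RatFunc M) p) = ev τ ζ p := by
  let j : RatFunc M →ₐ[k] K := IsFractionRing.liftAlgHom (ev_inj htr)
  have hj : ∀ p : M[X], j (algebraMap M[X] (RatFunc M) p) = ev τ ζ p := fun p =>
    IsFractionRing.lift_algebraMap (g := (ev τ ζ : M[X] →+* K)) (ev_inj htr) p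
  have hz : ζ ∈ j.fieldRange := ⟨_, (hj X).trans (ev_X _ _)⟩
  have hs : Function.Surjective j := by
    have hle : IntermediateField.adjoin k (Set.range τ ∪ {ζ, cb l ζ}) ≤ j.fieldRange := by
      rw [IntermediateField.adjoin_le_iff]
      rintro _ (⟨m, rfl⟩ | rfl | rfl)
      · exact ⟨_, (hj (C m)).trans (ev_C _ _ _)⟩
      · exact hz
      · exact mul_mem (mul_mem hz (sub_mem hz (one_mem _)))
          (sub_mem hz (IntermediateField.algebraMap_mem _ l))
    intro z
    exact hle (htop ▸ IntermediateField.mem_top)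
  exact ⟨AlgEquiv.ofBijective j ⟨j.toRingHom.injective, hs⟩, hj⟩

theorem hom1 (ι : M →ₐ[k] K) (l : k) (ζ : K) (σ : M ≃ₐ[k] M) (htr : Tr ι ζ)
    (htop : IntermediateField.adjoin k (Set.range ι ∪ {ζ, cb l ζ}) = ⊤) :
    ∃ Φ : K ≃ₐ[k] K, (∀ m, Φ (ι m) = ι (σ m)) ∧ Φ ζ = ζ := by
  have htr' : Tr (ι.comp (σ : M →ₐ[k] M)) ζ := fun p hp => by
    have h1 := htr (p.map (σ : M →+* M)) (by rw [eval₂_map]; exact hp)
    exact (Polynomial.map_eq_zero_iff σ.injective).1 h1
  have hrg : Set.range (ι.comp (σ : M →ₐ[k] M)) = Set.range ι := σ.surjective.range_comp ι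
  obtain ⟨α, a1⟩ := equiv1 ι l ζ htr htop
  obtain ⟨β, b1⟩ := equiv1 (ι.comp (σ : M →ₐ[k] M)) l ζ htr' (by rw [hrg]; exact htop)
  refine ⟨α.symm.trans β, fun m => ?_, ?_⟩
  · rw [← ev_C ι ζ m, ← a1, AlgEquiv.trans_apply, α.symm_apply_apply, b1, ev_C]
    rfl
  · have h1 := a1 X
    have h2 := b1 X
    rw [ev_X] at h1 h2
    rw [AlgEquiv.trans_apply, α.symm_apply_eq.2 h1.symm, h2]

theorem ex1 (l : k) : ∃ (K : Type) (_ : Field K) (_ : Algebra k K) (ι : M →ₐ[k] K) (ζ : K),
    Tr ι ζ ∧ IntermediateField.adjoin k (Set.range ι ∪ {ζ, cb l ζ}) = ⊤ := by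
  let g : M[X] →ₐ[k] RatFunc M := IsScalarTower.toAlgHom k M[X] (RatFunc M)
  have hg : Function.Injective g := IsFractionRing.injective M[X] (RatFunc M)
  let ι : M →ₐ[k] RatFunc M := g.comp (IsScalarTower.toAlgHom k M M[X])
  have e : ev ι (g X) = g := by
    refine Polynomial.algHom_ext' (AlgHom.ext fun m => ?_) ?_
    · exact ev_C ι _ m
    · exact ev_X ι _
  refine ⟨RatFunc M, inferInstance, inferInstance, ι, g X, fun p hp => ?_, ?_⟩
  · apply hg
    rw [← e, ev_eq, hp, map_zero]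
  · have hm : ∀ p : M[X],
        g p ∈ IntermediateField.adjoin k (Set.range ι ∪ {g X, cb l (g X)}) := by
      intro p
      induction p using Polynomial.induction_on' with
      | add p q hp hq => rw [map_add]; exact add_mem hp hq
      | monomial n a =>
        rw [← C_mul_X_pow_eq_monomial, map_mul, map_pow]
        have hX : g X ∈ IntermediateField.adjoin k (Set.range ι ∪ {g X, cb l (g X)}) :=
          IntermediateField.subset_adjoin _ _ (Or.inr (Or.inl rfl))
        exact mul_mem (IntermediateField.subset_adjoin _ _ (Or.inl ⟨a, rfl⟩)) (pow_mem hX n)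
    refine eq_top_iff.2 fun z _ => ?_
    obtain ⟨a, b, -, rfl⟩ := IsFractionRing.div_surjective (A := M[X]) z
    exact div_mem (hm a) (hm b)

end HomRow

open HomRow in
theorem hom_stmt : HomStmt := by
  intro k M _ _ _ φ l e
  refine ⟨fun he h0 h1 hφ => ?_, fun K _ _ ι ζ w σ r h hr hσ => ?_⟩
  · rcases he with rfl | rfl
    · obtain ⟨K, _, _, ι, ζ, htr, htop⟩ := ex1 (M := M) l
      exact ⟨K, _, _, ι, ζ, cb l ζ, Or.inl rfl, h0, h1, hφ, htr, by simp, htop⟩
    · obtain ⟨K, _, _, ι, ζ, w, htr, hw, htop⟩ := cover (k := k) φ l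
      refine ⟨K, _, _, ι, ζ, w, Or.inr rfl, h0, h1, hφ, htr, ?_, htop⟩
      rw [hw]
      simp [cb]
  · have hq := h.eq
    have ht := h.top
    rcases h.he with rfl | rfl
    · have hw : w = cb l ζ := by simpa using hq
      subst hw
      obtain ⟨Φ, p1, p2⟩ := hom1 ι l ζ σ h.tr ht
      refine ⟨Φ, p1, p2, ?_⟩
      simp [cb, p2]
    · have hw : w ^ 2 = ι φ * (ζ * (ζ - 1) * (ζ - algebraMap k K l)) := by
        rw [hq]
        simp [cb]
      obtain ⟨Φ, p1, p2, p3⟩ := CB.P.SigX.hom h.φne hr hσ h.tr hw ht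
      exact ⟨Φ, p1, p2, by simpa using p3⟩

end Pool.Agent.MP_20d318_ag.CH

end PartHom

section PartMw

/-! Row MW: rational points on the twisted curves of the next level. -/

set_option autoImplicit false
set_option linter.unusedSectionVars false

namespace Pool.Agent.MP_20d318_ag.CH

open Polynomial

theorem mw_stmt : MwStmt := by
  intro k M K _ _ _ _ _ _ φ ι l l' ζ htr hrt hmw a b h
  obtain ⟨A, B, hB, rfl⟩ := hrt a
  obtain ⟨A', B', hB', rfl⟩ := hrt b
  by_contra hb
  have hA' : A' ≠ 0 := by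
    rintro rfl
    exact hb (by rw [eval₂_zero, zero_div])
  have e1 : B.eval₂ (ι : M →+* K) ζ ≠ 0 := fun e => hB (htr B e)
  have e2 : B'.eval₂ (ι : M →+* K) ζ ≠ 0 := fun e => hB' (htr B' e)
  have id : A' ^ 2 * B ^ 3 - C φ * (X * (X - 1) * (X - C (algebraMap k M l))) *
      (A * (A - B) * (A - C (algebraMap k M l') * B)) * B' ^ 2 = 0 := by
    refine htr _ ?_
    simp only [eval₂_sub, eval₂_mul, eval₂_pow, eval₂_C, eval₂_X, eval₂_one, RingHom.coe_coe,
      AlgHom.commutes]
    unfold cb at h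
    field_simp at h
    linear_combination h
  have hQ : B * B' * A' * (X * (X - 1) * (X - C (algebraMap k M l))) ≠ 0 :=
    mul_ne_zero (mul_ne_zero (mul_ne_zero hB hB') hA')
      (mul_ne_zero (mul_ne_zero X_ne_zero (X_sub_C_ne_zero 1)) (X_sub_C_ne_zero _))
  obtain ⟨c, hc⟩ : ∃ c : k, (B * B' * A' * (X * (X - 1) * (X - C (algebraMap k M l)))).eval
      (algebraMap k M c) ≠ 0 := by
    by_contra hn
    refine hQ (eq_zero_of_infinite_isRoot _
      ((Set.infinite_range_of_injective (algebraMap k M).injective).mono ?_))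
    rintro _ ⟨c, rfl⟩
    exact not_not.1 fun e => hn ⟨c, e⟩
  obtain ⟨d, hd⟩ := IsAlgClosed.exists_pow_nat_eq (c * (c - 1) * (c - l)) two_pos
  have hd' := congrArg (algebraMap k M) hd
  have id' := congrArg (eval (algebraMap k M c)) id
  simp only [map_pow, map_mul, map_sub, map_one] at hd'
  simp only [eval_sub, eval_mul, eval_pow, eval_C, eval_X, eval_one, eval_zero] at hc id'
  rw [← hd'] at hc id'
  obtain ⟨h1, h2⟩ := mul_ne_zero_iff.1 hc
  obtain ⟨h1, h3⟩ := mul_ne_zero_iff.1 h1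
  obtain ⟨h1, h4⟩ := mul_ne_zero_iff.1 h1
  have h5 : algebraMap k M d ≠ 0 := fun e => h2 (by rw [e]; ring)
  have := hmw (A.eval (algebraMap k M c) / B.eval (algebraMap k M c))
    (A'.eval (algebraMap k M c) / (B'.eval (algebraMap k M c) * algebraMap k M d)) (by
      unfold cb
      field_simp
      linear_combination id')
  exact div_ne_zero h3 (mul_ne_zero h4 h5) this

end Pool.Agent.MP_20d318_ag.CH

end PartMw

section PartHor

/-! Closed points of the generic fibre. -/

set_option autoImplicit false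

namespace Pool.Agent.MP_20d318_ag.CH

open Pool.Agent.MP_fd6584_ag.Fn Pool.Agent.CBk Polynomial
open Pool.Agent.MP_fd6584_ag.AG hiding deg_inv deg_congr deg_of_unit deg_mul deg_prod deg_zpow
  deg_eq_zero deg_nonneg deg_div deg_pow

namespace HorRow

variable {k M K : Type} [Field k] [Field M] [Field K] [Algebra k M] [Algebra k K]

theorem exists_mx {G : Set K} {O : Subalgebra k K} (hO : O ∈ Pts (Algebra.adjoin k G))
    (ht : IntermediateField.adjoin k G = ⊤) (hne : O ≠ ⊤) : ∃ g ∈ mx O, g ≠ 0 := by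
  by_contra hc
  have hi : ∀ x ∈ O, x⁻¹ ∈ O := fun x hx => by
    by_cases h0 : x = 0
    · rw [h0, inv_zero]; exact zero_mem _
    · exact (isU_of_not_mx hx fun hm => hc ⟨x, hm, h0⟩).2.2
  have h1 : IntermediateField.adjoin k G ≤ O.toIntermediateField hi :=
    IntermediateField.adjoin_le_iff.2 fun g hg => hO.2.1 (Algebra.subset_adjoin hg)
  refine hne (eq_top_iff.2 fun x _ => ?_)
  have h2 : x ∈ IntermediateField.adjoin k G := ht ▸ IntermediateField.mem_top
  exact h1 h2

theorem line (ι : M →ₐ[k] K) (ζ : K) (R : Subalgebra k K) (hζ : Tr ι ζ)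
    (h1 : ∀ p : M[X], eval₂RingHom (ι : M →+* K) ζ p ∈ R)
    (h2 : ∀ f ∈ R, ∃ p : M[X], eval₂RingHom (ι : M →+* K) ζ p = f)
    (O : Subalgebra k K) (hO : O ∈ Pts R) (g : K) (hg : g ∈ mx O) (hg0 : g ≠ 0) :
    ∃ h ∈ R, h ≠ 0 ∧ h ∈ mx O ∧ ∀ O' ∈ Pts R, h ∈ mx O' → O' = O := by
  set θ := eval₂RingHom (ι : M →+* K) ζ with hθ
  have hm : See.pm θ O hO.1 (fun a => hO.2.1 (h1 a)) ≠ ⊥ := fun h => by
    obtain ⟨a, ha, b, hb, hu, rfl⟩ := hO.2.2 g hg.1
    obtain ⟨a, rfl⟩ := h2 a ha
    have h3 : a ∈ See.pm θ O hO.1 fun a => hO.2.1 (h1 a) := by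
      have := mx_mul_right hg hu.2.1
      rwa [div_mul_cancel₀ _ hu.1] at this
    rw [h, Ideal.mem_bot] at h3
    simp [h3] at hg0
  have hp := See.pm_prime θ O hO.1 fun a => hO.2.1 (h1 a)
  have hmax := IsPrime.to_maximal_ideal hm
  obtain ⟨q, hq⟩ := (IsPrincipalIdealRing.principal
    (See.pm θ O hO.1 fun a => hO.2.1 (h1 a))).principal
  have hq1 : q ∈ See.pm θ O hO.1 fun a => hO.2.1 (h1 a) := by
    rw [hq]; exact Submodule.mem_span_singleton_self q
  refine ⟨θ q, h1 q, fun h0 => hm ?_, hq1, fun O' hO' hf => ?_⟩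
  · rw [hq, hζ q h0]; exact Submodule.span_zero_singleton _
  · have h3 : (See.pm θ O hO.1 fun a => hO.2.1 (h1 a)) ≤
        See.pm θ O' hO'.1 fun a => hO'.2.1 (h1 a) := by
      rw [hq]; exact (Submodule.span_singleton_le_iff_mem _ _).2 hf
    have h4 := hmax.eq_of_le (See.pm_prime θ O' hO'.1 fun a => hO'.2.1 (h1 a)).ne_top h3
    refine See.Pts_ext hO' hO fun b hb => ?_
    obtain ⟨b, rfl⟩ := h2 b hb
    exact (SetLike.ext_iff.1 h4 b).symm

end HorRow

theorem hor_stmt : HorStmt := by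
  intro k M K _ _ _ _ _ φ ι l ζ w e hx hmw O hO hne
  obtain ⟨g, hg, hg0⟩ := HorRow.exists_mx hO hx.top hne
  have hM : ∀ c : M, ι c ∈ Algebra.adjoin k (Set.range ι ∪ {ζ, w}) := fun c =>
    Algebra.subset_adjoin (Or.inl ⟨c, rfl⟩)
  have hz : ζ ∈ Algebra.adjoin k (Set.range ι ∪ {ζ, w}) :=
    Algebra.subset_adjoin (Or.inr (Or.inl rfl))
  have hw : w ∈ Algebra.adjoin k (Set.range ι ∪ {ζ, w}) :=
    Algebra.subset_adjoin (Or.inr (Or.inr rfl))
  have he := hx.eq
  rcases hx.he with rfl | rfl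
  · have he' : w = cb l ζ := by simpa using he
    obtain ⟨h, a1, a2, a3, a4⟩ := HorRow.line ι ζ _ hx.tr (fun p => by
      rw [coe_eval₂RingHom, eval₂_eq_sum_range]
      exact sum_mem fun i _ => mul_mem (hM _) (pow_mem hz i)) (fun f hf => by
      induction hf using Algebra.adjoin_induction with
      | mem a ha =>
        rcases ha with ⟨c, rfl⟩ | rfl | rfl
        · exact ⟨C c, by simp⟩
        · exact ⟨X, by simp⟩
        · exact ⟨X * (X - 1) * (X - C (algebraMap k M l)), by simp [he', cb]⟩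
      | algebraMap r => exact ⟨C (algebraMap k M r), by simp⟩
      | add x y _ _ hx hy =>
        obtain ⟨p, rfl⟩ := hx
        obtain ⟨q, rfl⟩ := hy
        exact ⟨p + q, map_add _ _ _⟩
      | mul x y _ _ hx hy =>
        obtain ⟨p, rfl⟩ := hx
        obtain ⟨q, rfl⟩ := hy
        exact ⟨p * q, map_mul _ _ _⟩) O hO g hg hg0
    exact ⟨h, a1, a2, a3, fun O' hO' hf => Or.inl (a4 O' hO' hf)⟩
  · have he' : w ^ 2 = ι φ * (ζ * (ζ - 1) * (ζ - algebraMap k K l)) := by simpa [cb] using he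
    obtain ⟨h, a1, a2, a3, a4⟩ := horB_stmt k M K ι φ l ζ w hx.φne hx.tr he' O hO ⟨g, hg, hg0⟩
    refine ⟨h, a1, a2, a3, fun O' hO' hf => (a4 O' hO' hf).imp id ?_⟩
    rintro ⟨a, b, b1, -, b3⟩
    rw [hmw a b b1, map_zero, sub_zero] at b3
    have h5 : cb l ζ = w * (w * ι φ⁻¹) := by
      have h6 : ι φ ≠ 0 := (_root_.map_ne_zero ι).2 hx.φne
      rw [map_inv₀, ← mul_assoc, ← sq, he', cb]
      field_simp
    rw [h5]
    exact mx_mul_right b3 (hO'.2.1 (mul_mem hw (hM _)))

end Pool.Agent.MP_20d318_ag.CH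

end PartHor

section PartTw

/-! Row TW: the tower of fields. -/

set_option autoImplicit false
set_option linter.unusedSectionVars false

namespace Pool.Agent.MP_20d318_ag.CH

open Pool.Agent.MP_fd6584_ag.Fn Pool.Agent.CBk
open Pool.Agent.MP_fd6584_ag.AG hiding deg_inv deg_congr deg_of_unit deg_mul deg_prod deg_zpow
  deg_eq_zero deg_nonneg deg_div deg_pow

namespace TwR

variable {k M₀ M K : Type} [Field k] [Field M₀] [Field M] [Field K] [Algebra k M₀] [Algebra k M]
  [Algebra k K] {m : ℕ}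

theorem map_cb (ι : M →ₐ[k] K) (l : k) (z : M) : ι (cb l z) = cb l (ι z) := by
  simp [cb]

theorem eval_cons (ι₀ : M₀ →ₐ[k] M) (ζ₀ : Fin m → M) (ι : M →ₐ[k] K) (ζ : K)
    (q : MvPolynomial (Fin (m + 1)) M₀) :
    q.eval₂ (ι.comp ι₀ : M₀ →+* K) (Fin.cons ζ fun r => ι (ζ₀ r)) =
      Polynomial.eval₂ (ι : M →+* K) ζ ((MvPolynomial.finSuccEquiv M₀ m q).map
        (MvPolynomial.eval₂Hom (ι₀ : M₀ →+* M) ζ₀)) := by
  induction q using MvPolynomial.induction_on with
  | C a => simp [MvPolynomial.finSuccEquiv_apply]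
  | add p q hp hq =>
    rw [MvPolynomial.eval₂_add, hp, hq, map_add, Polynomial.map_add, Polynomial.eval₂_add]
  | mul_X p i hp =>
    rw [MvPolynomial.eval₂_mul, hp, map_mul, Polynomial.map_mul, Polynomial.eval₂_mul,
      MvPolynomial.eval₂_X]
    refine congrArg _ (Fin.cases ?_ (fun r => ?_) i)
    · simp [MvPolynomial.finSuccEquiv_X_zero]
    · simp [MvPolynomial.finSuccEquiv_X_succ]

theorem step {T : Set (Subalgebra k M₀)} {φ : M₀} {l : Fin (m + 1) → k}
    {Y : Set (Subalgebra k M)} {X : Set (Subalgebra k K)} {ψ : M} {ι₀ : M₀ →ₐ[k] M}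
    {ζ₀ : Fin m → M} {ι : M →ₐ[k] K} {ζ w : K} {e : ℕ} (h : Tw T φ (Fin.tail l) Y ψ ∅ ι₀ ζ₀)
    (hx : Ext ψ ι (l 0) ζ w e) (hm : Maps ι X Y) (hz : ∀ O ∈ X, zc ζ O ∈ O) (G : Set K)
    (hG : w ∈ G ∨ w = cb (l 0) ζ) :
    Tw T φ l X (ι ψ * cb (l 0) ζ) G (ι.comp ι₀) (Fin.cons ζ fun r => ι (ζ₀ r)) := by
  refine ⟨fun q hq => ?_, ?_, ?_, fun O hO => ?_⟩
  · rw [eval_cons] at hq
    have h1 := hx.tr _ hq
    rw [Polynomial.map_eq_zero_iff ((injective_iff_map_eq_zero _).2 h.ind)] at h1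
    exact (map_eq_zero_iff _ (MvPolynomial.finSuccEquiv M₀ m).injective).1 h1
  · rw [Fin.prod_univ_succ, h.eq, map_mul, map_prod]
    simp only [map_cb, Fin.cons_zero, Fin.cons_succ, AlgHom.comp_apply, Fin.tail]
    ring
  · set F := IntermediateField.adjoin k (Set.range (ι.comp ι₀) ∪
      (Set.range (Fin.cons ζ fun r => ι (ζ₀ r) : Fin (m + 1) → K) ∪ G)) with hF
    have h1 : ζ ∈ F := IntermediateField.subset_adjoin _ _ (Or.inr (Or.inl ⟨0, rfl⟩))
    have h2 : (⊤ : IntermediateField k M) ≤ F.comap ι := by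
      rw [← h.top, IntermediateField.adjoin_le_iff]
      rintro _ (⟨a, rfl⟩ | ⟨r, rfl⟩ | ⟨⟨⟩⟩)
      · exact IntermediateField.subset_adjoin k _ (Or.inl ⟨a, rfl⟩)
      · exact IntermediateField.subset_adjoin k _ (Or.inr (Or.inl ⟨r.succ, rfl⟩))
    rw [eq_top_iff, ← hx.top, IntermediateField.adjoin_le_iff]
    rintro _ (⟨a, rfl⟩ | rfl | rfl)
    · exact h2 trivial
    · exact h1
    · rcases hG with hG | hG
      · exact IntermediateField.subset_adjoin k _ (Or.inr (Or.inr hG))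
      · rw [hG]
        exact F.mul_mem (F.mul_mem h1 (F.sub_mem h1 F.one_mem)) (F.sub_mem h1 (F.algebraMap_mem _))
  · obtain ⟨⟨R, hR, h1⟩, h2⟩ := h.reg _ (hm.mem hO)
    refine ⟨⟨R, hR, fun a ha => hm.mem_up hO (h1 a ha)⟩, Fin.cases ?_ fun r => ?_⟩
    · have h3 := hz O hO
      unfold zc at h3
      split_ifs at h3
      exacts [Or.inl h3, Or.inr h3]
    · refine (h2 r).imp (hm.mem_up hO) fun h3 => ?_
      have h4 := hm.mem_up hO h3
      rwa [map_inv₀] at h4

end TwR

theorem tw_stmt : TwStmt := by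
  intro k M₀ _ _ _ T φ
  refine ⟨fun l => ⟨fun q hq => ?_, by simp, ?_,
    fun O hO => ⟨⟨O, hO, fun a ha => ha⟩, fun r => r.elim0⟩⟩,
    fun M K _ _ _ _ m l Y X ψ ι₀ ζ₀ ι ζ w e h hx hm hz =>
      ⟨TwR.step h hx hm hz _ (Or.inl rfl), fun he => TwR.step h hx hm hz _ (Or.inr ?_)⟩⟩
  · obtain ⟨c, rfl⟩ := MvPolynomial.C_surjective (Fin 0) q
    rw [MvPolynomial.eval₂_C] at hq
    rw [show c = 0 from hq, map_zero]
  · exact eq_top_iff.2 fun a _ => IntermediateField.subset_adjoin k _ (Or.inl ⟨a, rfl⟩)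
  · subst he
    simpa using hx.eq

end Pool.Agent.MP_20d318_ag.CH

end PartTw

section PartDim

/-! Row DIM: points of codimension at most one. -/

set_option autoImplicit false

namespace Pool.Agent.MP_20d318_ag.CH

open Pool.Agent.MP_fd6584_ag.Fn Pool.Agent.CBk Polynomial
open Pool.Agent.MP_fd6584_ag.AG hiding deg_inv deg_congr deg_of_unit deg_mul deg_prod deg_zpow
  deg_eq_zero deg_nonneg deg_div deg_pow

namespace DimRw

variable {k K : Type} [Field k] [Field K] [Algebra k K]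

theorem card {s m : ℕ} {y : Fin s → K} (hy : IntermediateField.adjoin k (Set.range y) = ⊤)
    {c : Fin m → K} (hc : AlgebraicIndependent k c) : m ≤ s := by
  have : Algebra.IsAlgebraic (Algebra.adjoin k (Set.range y)) K := ⟨fun f => by
    have hf : f ∈ IntermediateField.adjoin k (Set.range y) := by
      rw [hy]; exact IntermediateField.mem_top
    obtain ⟨a, ha, b, hb, rfl⟩ := IntermediateField.mem_adjoin_iff_div.1 hf
    rw [div_eq_mul_inv]
    exact (isAlgebraic_algebraMap (⟨a, ha⟩ : Algebra.adjoin k (Set.range y))).mul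
      (isAlgebraic_algebraMap (⟨b, hb⟩ : Algebra.adjoin k (Set.range y))).inv⟩
  have h2 := Algebra.IsAlgebraic.trdeg_le_cardinalMk k (A := K) (Set.range y)
  have h3 := hc.lift_cardinalMk_le_trdeg
  have h4 : Cardinal.mk (Set.range y) ≤ (s : Cardinal) := by
    simpa using Cardinal.mk_range_le (f := y)
  simp only [Cardinal.lift_id, Cardinal.mk_fin] at h3
  exact_mod_cast h3.trans (h2.trans h4)

theorem split {m : ℕ} (f : K) (a : Fin m → K) (p : MvPolynomial (Fin (m + 1)) k) :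
    MvPolynomial.aeval (Fin.cons f a : Fin (m + 1) → K) p =
      eval₂ (MvPolynomial.aeval a : MvPolynomial (Fin m) k →ₐ[k] K).toRingHom f
        (MvPolynomial.finSuccEquiv k m p) := by
  induction p using MvPolynomial.induction_on with
  | C c => simp [MvPolynomial.finSuccEquiv_apply]
  | add p q hp hq => rw [map_add, map_add, eval₂_add, hp, hq]
  | mul_X p i hp =>
    rw [map_mul, map_mul, eval₂_mul, hp]
    refine Fin.cases ?_ (fun j => ?_) i
    · simp [MvPolynomial.finSuccEquiv_X_zero]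
    · simp [MvPolynomial.finSuccEquiv_X_succ]

/-- A function that vanishes at `R` but not at `W` is independent of the residues at `R`. -/
theorem drop {R W : Subalgebra k K} (hR : IsLocalRing R) (hle : R ≤ W) {f : K} (hf : f ∈ mx R)
    (hu : IsU W f) {m : ℕ} {a : Fin m → K} (ha : Ind R a) :
    Ind W (Fin.cons f a : Fin (m + 1) → K) := by
  refine ⟨fun i => Fin.cases hu.mem (fun j => hle (ha.1 j)) i, fun p hp => ?_⟩
  have hm : ∀ c : MvPolynomial (Fin m) k, MvPolynomial.aeval a c ∈ R := fun c => by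
    have h1 : MvPolynomial.aeval a c ∈ Algebra.adjoin k (Set.range a) := by
      rw [Algebra.adjoin_range_eq_range_aeval]; exact ⟨c, rfl⟩
    exact Algebra.adjoin_le (Set.range_subset_iff.2 ha.1) h1
  have hq : ∀ q : (MvPolynomial (Fin m) k)[X],
      eval₂ (MvPolynomial.aeval a : MvPolynomial (Fin m) k →ₐ[k] K).toRingHom f q ∈ R := fun q => by
    induction q using Polynomial.induction_on' with
    | add p q hp hq => rw [eval₂_add]; exact R.add_mem hp hq
    | monomial j c => rw [eval₂_monomial]; exact R.mul_mem (hm c) (R.pow_mem hf.1 j)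
  have h0 : MvPolynomial.finSuccEquiv k m p ≠ 0 := by simpa using hp
  obtain ⟨q, h1, h2⟩ := exists_eq_pow_rootMultiplicity_mul_and_not_dvd _ h0 0
  rw [map_zero, sub_zero] at h1 h2
  rw [X_dvd_iff] at h2
  rw [split, h1, eval₂_mul, eval₂_pow, eval₂_X]
  refine (hu.pow _).mul (IsU.mono ?_ hle)
  rw [← X_mul_divX_add q, eval₂_add, eval₂_mul, eval₂_X, eval₂_C, add_comm]
  exact (ha.2 _ h2).add_mx hR (mx_mul_right hf (hq _))

theorem place {n : ℕ} {y : Fin (n + 1) → K} (hy : IntermediateField.adjoin k (Set.range y) = ⊤)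
    (P : Place k K) : Dim (plO P) n := by
  rintro ⟨r, hr⟩
  have h1 : P.unif ∈ mx (plO P) := (mx_plO P.unif_ne).2 (by simp)
  have h2 := drop (plO_isVal P).isLocalRing le_top h1 (isU_top.2 P.unif_ne) hr
  have h3 := card hy (algebraicIndependent_iff.2 fun p hp => by_contra fun h => (h2.2 p h).ne hp)
  omega

end DimRw

theorem dim_stmt : DimStmt := by
  intro k M _ _ _ Y n y hY hy
  refine ⟨fun P _ => DimRw.place hy P, fun R hR hD => ?_⟩
  obtain ⟨r, hr⟩ := not_not.1 hD
  refine or_iff_not_imp_left.2 fun hne => ?_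
  obtain ⟨a, ha⟩ : ∃ a, a ∉ R := by
    by_contra h
    exact hne (eq_top_iff.2 fun a _ => by_contra fun h' => h ⟨a, h'⟩)
  obtain ⟨P, hP, hle⟩ : ∃ P : Place k M, plO P ∈ Y ∧ R ≤ plO P := by
    by_contra h
    exact ha (hY.krull hR fun P h1 h2 => absurd ⟨P, h1, h2⟩ h)
  refine ⟨P, hY.sep R hR _ hP _ (hY.loc _ hP) ⟨hle, fun u hu hW => by_contra fun h => ?_⟩
    (Dom.refl _)⟩
  exact DimRw.place hy P ⟨_, DimRw.drop (hY.loc R hR) hle ⟨hu, h⟩ hW hr⟩

end Pool.Agent.MP_20d318_ag.CH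

end PartDim
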