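import Pool.Agent.MP_20d318_ag.CH.LSpec
import Pool.Agent.MP_20d318_ag.CC.En3

/-! The numerical data of the surface. -/

set_option autoImplicit false
set_option linter.unusedSectionVars false

namespace Pool.Agent.MP_20d318_ag.CH

open Pool.Agent.MP_20d318_ag.Lat hiding act actW W
open Pool.Agent.MP_20d318_ag.CB

variable {ι κ : Type} [Fintype ι] [Fintype κ]

/-- The degree on a prime class. -/
def ipL (B : ι → ι → ℤ) (c : ι → ℤ) : (ι → ℝ) →ₗ[ℝ] ℝ where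
  toFun L := ip B L (toR c)
  map_add' a b := ip_add_left a b _
  map_smul' r a := ip_smul_left r a _

/-- The action of an integral matrix. -/
def actR (ρ : Matrix ι ι ℤ) : (ι → ℝ) →ₗ[ℝ] (ι → ℝ) where
  toFun := act ρ
  map_add' := act_add ρ
  map_smul' := act_smul ρ

/-- The integral classes. -/
def zL (ι : Type) : AddSubgroup (ι → ℝ) where
  carrier := Set.range toR
  add_mem' := by
    rintro _ _ ⟨a, rfl⟩ ⟨b, rfl⟩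
    exact ⟨a + b, toR_add a b⟩
  zero_mem' := ⟨0, toR_zero⟩
  neg_mem' := by
    rintro _ ⟨a, rfl⟩
    exact ⟨-a, toR_neg a⟩

/-- The numerical data of a lattice. -/
def ldN (Λ : Ld ι κ) (G : Set (Matrix ι ι ℤ)) : Nd (ι → ℝ) Λ.P κ where
  Λ := zL ι
  d c := ipL Λ.B c
  Ef := cone (toR '' Λ.P)
  c k := toR (Λ.C k)
  G := actR '' G

/-- The inequalities given by graphs. -/
def HG (Λ : Ld ι κ) : Set (WW (ι → ℝ) κ) := {D | ∀ b ∈ CC.HC Λ, ∀ e : Fin 4 ≃ κ,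
  ∑ j, D.2.2 (e j) j ≤ ip Λ.B D.1 (toR b) + D.2.1}

variable {Λ : Ld ι κ} {G : Set (Matrix ι ι ℤ)}

theorem ld_d (c : Λ.P) (L : ι → ℝ) : (ldN Λ G).d c L = ip Λ.B L (toR c) := rfl

theorem ld_c (k : κ) : (ldN Λ G).c k = toR (Λ.C k) := rfl

theorem ld_nef : (ldN Λ G).Nef = Λ.NT :=
  Set.ext fun _ => ⟨fun h c hc => h ⟨c, hc⟩, fun h c => h c c.2⟩

theorem ld_nl : (ldN Λ G).NL = Λ.NX := by
  ext D
  simp only [Nd.NL, ld_nef, Ld.NX, ld_c]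

theorem ld_nn : (ldN Λ G).NL ∩ HG Λ = CC.NN Λ := by
  rw [ld_nl]; rfl

theorem ld_lw {D : WW (ι → ℝ) κ} : D ∈ (ldN Λ G).LW ↔ ∃ E : W ι κ ℤ, toRW E = D := by
  refine ⟨fun ⟨⟨y, h1⟩, ⟨t, h2⟩, h3⟩ => ?_, ?_⟩
  · choose a ha using h3
    exact ⟨(y, t, a), Prod.ext h1 (Prod.ext h2.symm (funext₂ fun i j => (ha i j).symm))⟩
  · rintro ⟨E, rfl⟩
    exact ⟨⟨E.1, rfl⟩, ⟨E.2.1, rfl⟩, fun i j => ⟨E.2.2 i j, rfl⟩⟩

theorem lw_le : LW ι κ ≤ (ldN Λ G).LW :=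
  (AddSubgroup.closure_le _).2 fun _ hx => ld_lw.2 hx

theorem ld_ef {c : ι → ℤ} (hc : c ∈ Λ.Ef) : toR c ∈ (ldN Λ G).Ef := by
  induction hc using AddSubmonoid.closure_induction with
  | mem x hx => exact subset_cone _ ⟨x, hx, rfl⟩
  | zero => rw [toR_zero]; exact (isCone_cone _).zero
  | add x y _ _ hx hy => rw [toR_add]; exact (isCone_cone _).add _ hx _ hy

theorem ld_dich (disj : ∀ k l, k ≠ l → ip Λ.B (Λ.C k) (Λ.C l) = 0)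
    (Cc : ∀ c ∈ Λ.P, c ∉ Set.range Λ.C → ∀ k, 0 ≤ ip Λ.B (Λ.C k) c) : Dich (ldN Λ G) := fun c => by
  by_cases h : (c : ι → ℤ) ∈ Set.range Λ.C
  · obtain ⟨k, hk⟩ := h
    exact Or.inr ⟨k, fun l hl => by rw [ld_d, ld_c, ip_toR, ← hk, disj l k hl, Int.cast_zero]⟩
  · exact Or.inl fun k => by
      rw [ld_d, ld_c, ip_toR]
      exact_mod_cast Cc c c.2 h k

theorem ld_spn (dif : ∀ c, ∃ y, Λ.Nef y ∧ Λ.Nef (y - c)) (nefr : ∀ y, toR y ∈ Λ.NT ↔ Λ.Nef y)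
    (ne : ∀ y, Λ.Nef y → 0 ≤ ip Λ.B y y ∧ y ∈ Λ.Ef) : Spn (ldN Λ G) := by
  classical
  set S := Submodule.span ℝ ((ldN Λ G).Nef ∩ (ldN Λ G).Ef)
  have s0 : ∀ y, Λ.Nef y → toR y ∈ S := fun y hy =>
    Submodule.subset_span ⟨ld_nef.superset ((nefr y).2 hy), ld_ef (ne y hy).2⟩
  have s1 : ∀ c : ι → ℤ, toR c ∈ S := fun c => by
    obtain ⟨y, a, b⟩ := dif c
    have := S.sub_mem (s0 _ a) (s0 _ b)
    rwa [toR_sub, sub_sub_cancel] at this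
  refine eq_top_iff.2 fun L _ => ?_
  refine Eq.subst (motive := (· ∈ S)) ?_ (S.sum_mem (t := Finset.univ)
    fun i _ => S.smul_mem (L i) (s1 (Pi.single i 1)))
  funext i
  simp [Finset.sum_apply, toR, Pi.single_apply]

theorem ld_hh (h : CC.B0 Λ) : HH (ldN Λ G) (HG Λ) := by
  refine ⟨fun D hD x y _ _ _ b hb e => ?_, fun D hL a0 hs b hb e => ?_⟩
  · have h1 := hD.2 b hb e
    have h2 : ∀ k, ip Λ.B (toR (Λ.C k)) (toR b) = 1 := fun k => by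
      rw [ip_toR, hb.2.2.2 k, Int.cast_one]
    simp only [ld_c, ip_sub_left, ip_sum_left, ip_smul_left, h2, mul_one, Finset.sum_sub_distrib,
      Equiv.sum_comp e x]
    linarith
  · have h1 := h.lb.efr _ (ld_nef.subset hL) b (h.lb.ne b hb.1).2
    have h2 : ∑ j, D.2.2 (e j) j ≤ ∑ i, ∑ j, D.2.2 i j := by
      rw [Finset.sum_comm]
      exact Finset.sum_le_sum fun j _ =>
        Finset.single_le_sum (f := fun i => D.2.2 i j) (fun i _ => a0 i j) (Finset.mem_univ _)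
    linarith

theorem ld_cvC (h : CC.LC Λ G) :
    CVW (ldN Λ {ρ | ρ ∈ G ∧ ∀ k, act ρ (Λ.C k) = Λ.C k}) (HG Λ) := by
  obtain ⟨R, h1, h2, h3⟩ := h.cov
  refine ⟨R, h1.trans lw_le, h2.trans ld_nn.superset, fun D hD hE => ?_⟩
  rw [ld_nn] at hD ⊢
  obtain ⟨ρ, a1, a2, a3⟩ := h3 D hD hE
  exact ⟨_, ⟨ρ, ⟨a1, a2⟩, rfl⟩, a3⟩

/-- The coefficients, with lower bounds. -/
structure XYp {R : Type} [Field R] [LinearOrder R] (a : κ → Fin 4 → R) (t : R) (p : κ → R)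
    (q : Fin 4 → R) (xh x : κ → R) (y : Fin 4 → R) : Prop extends CC.XYc a t xh x y where
  qy : ∀ j, q j ≤ y j
  px : ∃ i₀, ∀ i, i ≠ i₀ → p i ≤ x i

/-- They exist. -/
def XYP : Prop := ∀ (R κ : Type) [Field R] [LinearOrder R] [IsStrictOrderedRing R] [Fintype κ]
  [Nonempty κ] (a : κ → Fin 4 → R) (t : R) (p : κ → R) (q : Fin 4 → R),
  (∀ k, ∑ j, a k j ≤ t) → (∀ k, 0 ≤ p k) → (∀ j, 0 ≤ q j) → (∀ k j, p k ≤ a k j) →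
  (∀ k j, q j ≤ a k j) → ∃ xh x y, XYp a t p q xh x y

/-- XYP. -/
def XypStmt : Prop := CC.LpStmt → XYP

/-- SKB: a component of nonnegative square. -/
def SkbStmt : Prop := ∀ (ι κ : Type) [Fintype ι] [Fintype κ] (Λ : Ld ι κ)
  (G : Set (Matrix ι ι ℤ)), NS Λ → L1 Λ → KEY Λ → SK (ldN Λ G)

/-- GKC: all components have square `-4`. -/
def GkcStmt : Prop := XYP → ∀ (ι κ : Type) [Fintype ι] [Fintype κ] (Λ : Ld ι κ)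
  (G : Set (Matrix ι ι ℤ)), CC.B0 Λ → CC.XN Λ → CC.KEY Λ → GK (ldN Λ G) (HG Λ)

/-- CVB: the cover. -/
def CvbStmt : Prop := ∀ (ι κ : Type) [Fintype ι] [Fintype κ] (Λ : Ld ι κ)
  (G : Set (Matrix ι ι ℤ)), NS Λ → (∃ ρ ∈ G, ∀ L : ι → ℝ, act ρ L = L) →
  (ip Λ.B Λ.F Λ.F = 0 → ∃ N : ℕ, 0 < N ∧ ∀ x, ip Λ.B x Λ.F = 0 →
    ∃ ρ ∈ G, Λ.Tl ρ ((N : ℤ) • x)) → CVW (ldN Λ G) Set.univ

theorem levB (a : SkbStmt) (b : CvbStmt) (h : NS Λ) (h1 : ∃ ρ ∈ G, ∀ L : ι → ℝ, act ρ L = L)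
    (h2 : ip Λ.B Λ.F Λ.F = 0 → ∃ N : ℕ, 0 < N ∧ ∀ x, ip Λ.B x Λ.F = 0 →
      ∃ ρ ∈ G, Λ.Tl ρ ((N : ℤ) • x)) : Lev (ldN Λ G) Set.univ := by
  have l1 := l1_stmt ι κ Λ h (hg_stmt ι Λ.B h.sym h.hodge)
  have key := keyC_stmt ι κ Λ h l1 (ct_stmt ι κ Λ h l1) fun h4 =>
    (keyA_stmt ι κ Λ h l1 h4).imp fun J hJ => ⟨hJ, keyB_stmt ι κ Λ J h l1 h4 hJ⟩
  have d : Dich (ldN Λ G) := ld_dich h.disj l1.Cc
  exact ⟨inferInstance, ⟨Λ.k0⟩, fun i => ⟨_, rfl⟩, d, (a ι κ Λ G h l1 key).gk d, hh_univ,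
    b ι κ Λ G h h1 h2, ld_spn h.dif l1.nefr l1.ne⟩

theorem levC (a : XYP) (b : GkcStmt) (h : CC.B0 Λ) (xn : CC.XN Λ) (key : CC.KEY Λ)
    (lc : CC.LC Λ G) : Lev (ldN Λ {ρ | ρ ∈ G ∧ ∀ k, act ρ (Λ.C k) = Λ.C k}) (HG Λ) :=
  ⟨inferInstance, ⟨Λ.k0⟩, fun _ => ⟨_, rfl⟩, ld_dich h.nc.disj h.lb.Cc, b a ι κ Λ _ h xn key,
    ld_hh h, ld_cvC lc, ld_spn h.nc.dif h.lb.nefr h.lb.ne⟩

end Pool.Agent.MP_20d318_ag.CH
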