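import Pool.Agent.MP_20d318_ag.CH.Spec
import Pool.Agent.MP_20d318_ag.CH.LBase
import Pool.Agent.MP_20d318_ag.CC.Spec

/-! The surface as the first level of the tower. -/

set_option autoImplicit false
set_option linter.unusedSectionVars false

namespace Pool.Agent.MP_20d318_ag.CH

open Pool.Agent.MP_fd6584_ag.Fn Pool.Agent.CBk
open Pool.Agent.MP_fd6584_ag.AG hiding deg_inv deg_congr deg_of_unit deg_mul deg_prod deg_zpow
  deg_eq_zero deg_nonneg deg_div deg_pow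
open Pool.Agent.MP_20d318_ag.CB (ip toR)
open Pool.Agent.MP_20d318_ag.CB.P (Pd Pair0 Sg)

variable {k M I κ : Type} [Field k] [Field M] [Algebra k M] [Fintype I] [Fintype κ]

/-- The first level. -/
noncomputable def lv0 (p : Pd k M I κ) : Lv k M Unit κ 0 :=
  ⟨fun _ => p.H, ![p.x, p.y], p.s, p.φ, p.jj, p.U, (fun u => p.φ * u) '' p.U'⟩

theorem lv0_Y (p : Pd k M I κ) : (lv0 p).Y = p.T := rfl

/-- BS0. -/
def Bs0Stmt : Prop := Der → ∀ (k M I κ : Type) [Field k] [NeZero (2 : k)] [IsAlgClosed k] [Field M]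
  [Algebra k M] [Fintype I] [Fintype κ] (p : Pd k M I κ), Pair0 p → CC.TA p.toSd → Ok0 (lv0 p)

/-- ISO. -/
def IsoStmt : Prop := ∀ (k M I κ : Type) [Field k] [NeZero (2 : k)] [IsAlgClosed k] [Field M]
  [Algebra k M] [Fintype I] [Fintype κ] (p : Pd k M I κ) (G : Set (Matrix I I ℤ)), Pair0 p →
  (∀ ρ ∈ G, ∃ σ, Sg p σ ρ) → ∃ ψ : (I → ℝ) ≃ₗ[ℝ] N1 (lv0 p).Y,
    Iso (ldN p.ld G) (lv0 p).nd ψ ∧
      ∀ (ν : Curve (lv0 p).Y) x, ν.lin (ψ x) = ip p.B x (toR (p.zz ν))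

/-- TH0. -/
def Th0Stmt : Prop := GraStmt → GrbStmt → ∀ (k M K I κ : Type) [Field k] [NeZero (2 : k)]
  [IsAlgClosed k] [Field M] [Field K] [Algebra k M] [Algebra k K] [Fintype I] [Fintype κ]
  (p : Pd k M I κ) (ψ : (I → ℝ) ≃ₗ[ℝ] N1 (lv0 p).Y) (ι : M →ₐ[k] K) (l : k) (ζ w : K) (e : ℕ)
  (h : All (lv0 p) ι l ζ w e), Pair0 p →
  (∀ (ν : Curve (lv0 p).Y) x, ν.lin (ψ x) = ip p.B x (toR (p.zz ν))) →
  (∀ b ∈ CC.HC p.ld, ∀ σ : Fin 4 ≃ κ, ∃ A s₀ s₃ φ P, CC.G1 p b σ l A s₀ s₃ φ P) →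
    ∀ D, h.Phi D ∈ (nx (lv0 p) ι l ζ w e).nd.Nef → (ψ.symm D.1, D.2) ∈ HG p.ld

end Pool.Agent.MP_20d318_ag.CH
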