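import Pool.Agent.MP_20d318_ag.CH.Spec

/-! The induction on the number of lines. -/

set_option autoImplicit false
set_option linter.unusedSectionVars false

namespace Pool.Agent.MP_20d318_ag.CH

open Pool.Agent.MP_fd6584_ag.Fn Pool.Agent.CBk
open Pool.Agent.MP_fd6584_ag.AG hiding deg_inv deg_congr deg_of_unit deg_mul deg_prod deg_zpow
  deg_eq_zero deg_nonneg deg_div deg_pow
open Pool.Agent.MVg (GaussStmt)

/-- All the rows. -/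
structure Mods : Prop where
  n : NMods.{1, 1, 1, 1}
  gauss : GaussStmt
  hyp : HypStmt
  ker : KerStmt
  smo : SmoStmt
  crd : CrdStmt
  der : Der
  triv : TrivStmt
  dim : DimStmt
  lift : LiftStmt
  nice : NiceStmt
  fld : FldStmt
  hom : HomStmt
  mw : MwStmt
  hor : HorStmt
  tw : TwStmt
  xloc : XlocStmt
  xdiv : XdivStmt
  cur : CurStmt
  pt : PtStmt
  test : TestStmt
  pl : PlStmt
  cls : ClsStmt
  sig : SigStmt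
  lft : LftStmt
  pol : PolStmt
  eff : EffStmt
  cln : ClnStmt
  dv : DvStmt
  vol : VolStmt
  nxa : NxaStmt
  nxb : NxbStmt

variable {k M K Λ κ : Type} {n : ℕ} [Field k] [NeZero (2 : k)] [IsAlgClosed k] [Field M] [Field K]
  [Algebra k M] [Algebra k K] [Finite Λ] [Fintype κ] {L : Lv k M Λ κ n} {ι : M →ₐ[k] K} {l : k}
  {ζ w : K} {e : ℕ}

/-- Nef classes of the next level satisfy the additional inequalities. -/
def TH (L : Lv k M Λ κ n) (𝓗 : Set (WW (N1 L.Y) κ)) : Prop :=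
  ∀ (K : Type) [Field K] [Algebra k K] (ι : M →ₐ[k] K) (l : k) (ζ w : K) (e : ℕ)
    (h : All L ι l ζ w e), ∀ D, h.Phi D ∈ (nx L ι l ζ w e).nd.Nef → D ∈ 𝓗

theorem Mods.ok (m : Mods) (h : Ok0 L) : Ok L :=
  have h1 := m.nice k M L.Y (fine_mp h.fam) h.smo
  have h2 := m.dim k M L.Y n L.y h1.1 h.top
  ⟨h, h1.1, h1.2, h2.1, h2.2⟩

theorem Mods.all (m : Mods) (h : Ok L) (he : e = 1 ∨ e = 2) (l0 : l ≠ 0) (l1 : l ≠ 1) :
    ∃ (K : Type) (_ : Field K) (_ : Algebra k K) (ι : M →ₐ[k] K) (ζ w : K), All L ι l ζ w e := by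
  obtain ⟨K, _, _, ι, ζ, w, x⟩ := (m.hom k M L.φ l e).1 he l0 l1 h.φne
  have a := m.xloc k M K Λ κ n L ι l ζ w e h.toOkA x
  exact ⟨K, _, _, ι, ζ, w, h, x, m.fld k M K _ ι l ζ w e x, a,
    m.xdiv k M K Λ κ n L ι l ζ w e h.toOkA x a⟩

theorem Mods.sm (m : Mods) (h : All L ι l ζ w e) :
    ∀ O ∈ XX L ι ζ w e, Algebra.FormallySmooth k O := fun O hO => by
  obtain ⟨g, hg⟩ := h.lc hO
  have hR := h.loc.maps.mem hO
  exact m.smo m.hyp m.ker k M K e ι _ O _ _ _ g hg (h.ok.smo _ hR) (h.ok.crd _ hR)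

theorem Mods.step (m : Mods) (h : All L ι l ζ w e) {𝓗 : Set (WW (N1 L.Y) κ)} (a : Lev L.nd 𝓗)
    (b : TH L 𝓗) : CV (nx L ι l ζ w e).nd ∧ Lev (nx L ι l ζ w e).nd Set.univ := by
  have cur := m.cur k M K Λ κ n L ι l ζ w e h
  have sig := m.sig m.hom k M K Λ κ n L ι l ζ w e h
  have cln := m.cln k M K Λ κ n L ι l ζ w e h
    (m.cls m.hor k M K Λ κ n L ι l ζ w e h (m.pl k M K Λ κ n L ι l ζ w e h)
      (m.nice k K _ h.loc.fine (m.sm h)).1)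
    (m.eff k M K Λ κ n L ι l ζ w e h sig (m.pol m.gauss k M K Λ κ n L ι l ζ w e h))
  exact m.n.step ⟨bas_nd, a, bas_nd, ⟨m.test m.lift k M K Λ κ n L ι l ζ w e h cur.1
    (m.pt k M K Λ κ n L ι l ζ w e h), m.dv k M K Λ κ n L ι l ζ w e h, cur.2, cln.1, cln.2,
    m.lft k M K Λ κ n L ι l ζ w e h sig⟩, b K ι l ζ w e h⟩

theorem Mods.next (m : Mods) (h : All L ι l ζ w 1) : Ok (nx L ι l ζ w 1) :=
  have v := (m.nxb m.der k M K Λ κ n L ι l ζ w 1 h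
    (m.vol m.der m.crd k M K Λ κ n L ι l ζ w 1 h)).1 rfl
  m.ok ⟨m.nxa k M K Λ κ n L ι l ζ w 1 h (m.pl k M K Λ κ n L ι l ζ w 1 h) rfl,
    h.fld.ind _ _ h.ok.ind, h.fld.top rfl _ _ h.ok.top, (m.pt k M K Λ κ n L ι l ζ w 1 h).rat,
    fun l' l0 l1 => m.mw k M K L.φ ι l l' ζ h.ext.tr (h.fld.rt rfl) (h.ok.mw l' l0 l1), m.sm h,
    v.1, v.2⟩

omit [NeZero (2 : k)] [IsAlgClosed k] [Finite Λ] in
theorem cone_of (a : CV L.nd) (b : Spn L.nd) (c : FiniteDimensional ℝ (N1 L.Y)) :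
    ConeStatement L.Y := by
  obtain ⟨R, h1, h2, h3⟩ := a
  have e : L.nd.Nef ∩ L.nd.Ef = Glue.NEf L.Y := Set.ext fun x => and_congr_left' <|
    ⟨fun h _ ⟨ν, e⟩ => e ▸ h ν, fun h ν => h _ ⟨ν, rfl⟩⟩
  rw [Spn, e] at b
  rw [e] at h2 h3
  refine Glue.cone_of_concl (Lat.looijenga (Cv := Set.range Curve.lin)
    ((Lat.isCone_dual _).inter (Lat.isCone_cone _)) Glue.cvint (fun c hc x hx => hx.1 c hc)
    (fun x hx => Subtype.ext (funext fun ν => hx _ ⟨ν, rfl⟩)) Glue.gL Glue.gC b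
    ⟨R, h1, rfl⟩ h2 fun x hx => ?_)
  obtain ⟨_, ⟨g, r, -, rfl⟩, h4⟩ := h3 x hx
  exact ⟨_, ⟨g, rfl⟩, h4⟩

variable {M₀ : Type} [Field M₀] [Algebra k M₀] {T : Set (Subalgebra k M₀)} {φ : M₀}

/-- A level of the tower over `T`. -/
def Pk (T : Set (Subalgebra k M₀)) (φ : M₀) {m : ℕ} (l : Fin m → k) : Prop :=
  ∃ (M Λ κ : Type) (n : ℕ) (_ : Field M) (_ : Algebra k M) (_ : Finite Λ) (_ : Fintype κ)
    (L : Lv k M Λ κ n) (𝓗 : Set (WW (N1 L.Y) κ)) (ι : M₀ →ₐ[k] M) (ζ : Fin m → M),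
      Ok L ∧ Lev L.nd 𝓗 ∧ TH L 𝓗 ∧ Tw T φ l L.Y L.φ ∅ ι ζ

theorem Mods.pk (m : Mods) (h : ∀ l : Fin 0 → k, Pk T φ l) (r : ℕ) (l : Fin r → k)
    (hl : ∀ i, l i ≠ 0 ∧ l i ≠ 1) : Pk T φ l := by
  induction r with
  | zero => exact h l
  | succ r ih =>
    obtain ⟨M, Λ, κ, n, _, _, _, _, L, 𝓗, ι₀, ζ₀, h1, h2, h3, h4⟩ :=
      ih (Fin.tail l) fun i => hl i.succ
    obtain ⟨K, _, _, ι, ζ, w, a⟩ := m.all h1 (Or.inl rfl) (hl 0).1 (hl 0).2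
    exact ⟨K, _, _, _, _, _, inferInstance, _, nx L ι (l 0) ζ w 1, Set.univ, _, _, m.next a,
      (m.step a h2 h3).2, fun _ _ _ _ _ _ _ _ _ _ _ => trivial,
      ((m.tw k M₀ T φ).2 M K r l _ _ _ ι₀ ζ₀ ι ζ w 1 h4 a.ext a.loc.maps a.loc.zm).2 rfl⟩

/-- The double cover. -/
theorem Mods.top (m : Mods) (h : ∀ l : Fin 0 → k, Pk T φ l) (r : ℕ) (l : Fin (r + 1) → k)
    (hl : ∀ i, l i ≠ 0 ∧ l i ≠ 1) : ∃ (K Λ : Type) (_ : Field K) (_ : Algebra k K) (_ : Finite Λ)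
      (S : Λ → Set K) (n : ℕ) (y : Fin (n + 1) → K) (j w : K) (ι : M₀ →ₐ[k] K)
      (ζ : Fin (r + 1) → K), Fam k S ∧ (∀ O ∈ mp k S, Algebra.FormallySmooth k O) ∧
        AlgebraicIndependent k y ∧
        Algebra.IsSeparable (IntermediateField.adjoin k (Set.range y)) K ∧ j ≠ 0 ∧
        Vol (mp k S) y (fun _ => j) ∧ Tw T φ l (mp k S) (w ^ 2) {w} ι ζ ∧
        ConeStatement (mp k S) := by
  obtain ⟨M, Λ, κ, n, _, _, _, _, L, 𝓗, ι₀, ζ₀, h1, h2, h3, h4⟩ :=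
    m.pk h r (Fin.tail l) fun i => hl i.succ
  obtain ⟨K, _, _, ι, ζ, w, a⟩ := m.all h1 (Or.inr rfl) (hl 0).1 (hl 0).2
  obtain ⟨j, j0, hj⟩ := (m.nxb m.der k M K Λ κ n L ι _ ζ w 2 a
    (m.vol m.der m.crd k M K Λ κ n L ι _ ζ w 2 a)).2 rfl
  obtain ⟨b, c⟩ := m.step a h2 h3
  have t := ((m.tw k M₀ T φ).2 M K r l _ _ _ ι₀ ζ₀ ι ζ w 2 h4 a.ext a.loc.maps a.loc.zm).1
  rw [← pow_one (ι L.φ), ← a.ext.eq] at t
  exact ⟨K, _, _, _, inferInstance, famX L ι ζ w 2, n + 2, (nx L ι (l 0) ζ w 2).y, j, w, _, _,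
    a.loc.fam, m.sm a, a.fld.ind _ _ h1.ind, a.fld.sep _ _ h1.top, j0, hj, t,
    cone_of b c.spn c.fd⟩

end Pool.Agent.MP_20d318_ag.CH
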