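import Pool.Agent.MP_20d318_ag.CH.Spec

section PartCls

/-! CLS: the divisor class group of the next level. -/

set_option autoImplicit false
set_option linter.unusedSectionVars false

namespace Pool.Agent.MP_20d318_ag.CH

open Pool.Agent.MP_fd6584_ag.Fn Pool.Agent.CBk
open Pool.Agent.MP_fd6584_ag.AG hiding deg_inv deg_congr deg_of_unit deg_mul deg_prod deg_zpow
  deg_eq_zero deg_nonneg deg_div deg_pow
open Pool.Agent.MP_20d318_ag.CB.P.XCls (mx_of_ord ord_ne zeta_mem)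

namespace ClsA

variable {k M K Λ κ : Type} {n : ℕ} [Field k] [Field M] [Field K] [Algebra k M] [Algebra k K]
  [Fintype κ] {L : Lv k M Λ κ n} {ι : M →ₐ[k] K} {l : k} {ζ w : K} {e : ℕ}

theorem lb_L (g : Subalgebra k M → M) (t : ℤ) (O : Subalgebra k K) :
    lb L ι l ζ g t 0 O = up ι L.Y g O * eta ζ O ^ (-t) := by simp [lb]

open Classical in
theorem lb_E (i : κ) (j : Fin 4) (O : Subalgebra k K) :
    lb L ι l ζ 1 0 (fun i' j' => if i' = i ∧ j' = j then -1 else 0) O = EE L ι l ζ i j O := by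
  have h : ∀ i' j', EE L ι l ζ i' j' O ^ (-(if i' = i ∧ j' = j then -1 else 0 : ℤ)) =
      if j' = j then if i' = i then EE L ι l ζ i' j' O else 1 else 1 := fun i' j' => by
    by_cases a : i' = i <;> by_cases b : j' = j <;> simp [a, b]
  simp only [lb, h]
  simp [up]

theorem lb_add (h : All L ι l ζ w e) {O : Subalgebra k K} (hO : O ∈ XX L ι ζ w e)
    (g g' : Subalgebra k M → M) (t t' : ℤ) (a a' : κ → Fin 4 → ℤ) :
    lb L ι l ζ (g * g') (t + t') (a + a') O = lb L ι l ζ g t a O * lb L ι l ζ g' t' a' O := by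
  simp only [lb, up, Pi.mul_apply, Pi.add_apply, map_mul, neg_add, zpow_add₀ (h.div.cartZ.ne hO),
    zpow_add₀ ((h.div.cartE _ _).ne hO), Finset.prod_mul_distrib]
  ring

theorem lb_zpow (O : Subalgebra k K) (g : Subalgebra k M → M) (t : ℤ) (a : κ → Fin 4 → ℤ) (m : ℤ) :
    lb L ι l ζ (g ^ m) (t * m) (fun i j => a i j * m) O = lb L ι l ζ g t a O ^ m := by
  simp only [lb, up, Pi.pow_apply, map_zpow₀, mul_zpow, ← Finset.prod_zpow, ← zpow_mul, neg_mul]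

/-- A place on the generic fibre lies in the affine chart. -/
theorem gen_pts (h : All L ι l ζ w e) {P : Place k K} (hP : plO P ∈ XX L ι ζ w e)
    (ht : pr ι L.Y (plO P) = ⊤) (hu : ∀ j, IsU (plO P) (tau l ζ j (plO P))) :
    plO P ∈ Pts (Algebra.adjoin k (Set.range ι ∪ {ζ, w})) := by
  have hL := h.loc
  have he : e ≠ 0 := by rcases h.ext.he with rfl | rfl <;> norm_num
  have hz := zeta_mem (hu 3)
  have hm : ∀ m, ι m ∈ plO P := fun m => hL.maps.mem_up hP (by rw [ht]; trivial)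
  have hmu : ∀ m, ι m ≠ 0 → IsU (plO P) (ι m) := fun m h0 => ⟨h0, hm m, by
    rw [← map_inv₀]; exact hm _⟩
  have hs : ∀ i, IsU (plO P) (sX L ι i (plO P)) := fun i => hmu _ (hL.sne _ hP i)
  have h2 : IsU (plO P) (AA L ι ζ w e (plO P) ^ e) := by
    have h4 := isU_prod (s := Finset.univ) fun i _ => hs i
    have h3 := (isU_prod (s := Finset.univ) fun j _ => hu j).div h4
    rwa [← hL.eqn _ hP, mul_div_cancel_right₀ _ h4.ne] at h3
  have hA : AA L ι ζ w e (plO P) ∈ plO P := by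
    rcases hL.aa _ hP with h | h
    · exact h
    · have h3 : IsU (plO P) ((AA L ι ζ w e (plO P))⁻¹ ^ e) := by
        rw [inv_pow]; exact h2.inv
      simpa using (IsU.of_pow h he h3).inv_mem
  obtain ⟨m, hAm⟩ : ∃ m, AA L ι ζ w e (plO P) = w * ι m :=
    ⟨(L.φ * L.jj (pr ι L.Y (plO P)) ^ (3 - e))⁻¹, by simp [AA, up, eta, hz, div_eq_mul_inv]⟩
  have hm0 : ι m ≠ 0 := fun h => hL.ane _ hP (by rw [hAm, h, mul_zero])
  have hw : w ∈ plO P := by
    have h3 := (hmu m hm0).div_mem hA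
    rwa [hAm, mul_div_cancel_right₀ _ hm0] at h3
  refine Pts_of_le (hL.pts _ hP _ hA (Or.inl rfl)) (Algebra.adjoin_le ?_) (Algebra.adjoin_le ?_)
  · rintro a (⟨b, -, rfl⟩ | rfl | rfl)
    · exact Algebra.subset_adjoin (Or.inl ⟨b, rfl⟩)
    · rw [zc, if_pos hz]; exact Algebra.subset_adjoin (Or.inr (Or.inl rfl))
    · rw [hAm]
      exact Subalgebra.mul_mem _ (Algebra.subset_adjoin (Or.inr (Or.inr rfl)))
        (Algebra.subset_adjoin (Or.inl ⟨m, rfl⟩))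
  · rintro a (⟨b, rfl⟩ | rfl | rfl)
    exacts [hm b, hz, hw]

variable (L ι l ζ) in
open Classical in
/-- The order in which the places are treated. -/
noncomputable def lev (P : Place k K) : ℕ :=
  if ∃ i j, sX L ι i (plO P) ∈ mx (plO P) ∧ tau l ζ j (plO P) ∈ mx (plO P) then 0
  else if pr ι L.Y (plO P) = ⊤ ∧ ∀ j, IsU (plO P) (tau l ζ j (plO P)) then 2 else 1

theorem lev_zero {P : Place k K} {i : κ} {j : Fin 4} (h1 : sX L ι i (plO P) ∈ mx (plO P))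
    (h2 : tau l ζ j (plO P) ∈ mx (plO P)) : lev L ι l ζ P = 0 := if_pos ⟨i, j, h1, h2⟩

theorem lev_pos {P : Place k K}
    (h : ¬ ∃ i j, sX L ι i (plO P) ∈ mx (plO P) ∧ tau l ζ j (plO P) ∈ mx (plO P)) :
    0 < lev L ι l ζ P := by
  rw [lev, if_neg h]; split_ifs <;> norm_num

variable (L ι l ζ w e) in
/-- Divisors that are linearly equivalent to a divisor of the lattice. -/
def Gw (f : Subalgebra k K → K) : Prop := IsCart (XX L ι ζ w e) f ∧
  ∃ (g : Subalgebra k M → M) (t : ℤ) (a : κ → Fin 4 → ℤ) (μ : K), IsCart L.Y g ∧ μ ≠ 0 ∧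
    ∀ O ∈ XX L ι ζ w e, IsU O (f O / (μ * lb L ι l ζ g t a O))

theorem gw_of (h : All L ι l ζ w e) {f : Subalgebra k K → K} {g : Subalgebra k M → M}
    (hg : IsCart L.Y g) (t : ℤ) (a : κ → Fin 4 → ℤ) {μ : K} (hμ : μ ≠ 0)
    (q : ∀ O, f O = μ * lb L ι l ζ g t a O) : Gw L ι l ζ w e f := by
  obtain rfl : f = (fun _ => μ) * lb L ι l ζ g t a := funext q
  refine ⟨(isCart_const hμ).mul (h.div.cartW g t a hg), g, t, a, μ, hg, hμ, fun O hO => ?_⟩
  rw [Pi.mul_apply, div_self (mul_ne_zero hμ ((h.div.cartW g t a hg).ne hO))]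
  exact isU_one

theorem gw_const (h : All L ι l ζ w e) {μ : K} (hμ : μ ≠ 0) : Gw L ι l ζ w e fun _ => μ :=
  gw_of h (g := 1) (isCart_const one_ne_zero) 0 0 hμ fun O => by simp [lb_L, up]

theorem gw_mul (h : All L ι l ζ w e) (f f' : Subalgebra k K → K) (hf : Gw L ι l ζ w e f)
    (hf' : Gw L ι l ζ w e f') : Gw L ι l ζ w e (f * f') := by
  obtain ⟨hf, g, t, a, μ, c, h0, hD⟩ := hf
  obtain ⟨hf', g', t', a', ν, c', h1, hE⟩ := hf'
  refine ⟨hf.mul hf', g * g', t + t', a + a', μ * ν, c.mul c', mul_ne_zero h0 h1, fun O hO => ?_⟩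
  have := (hD O hO).mul (hE O hO)
  rwa [div_mul_div_comm, mul_mul_mul_comm, ← lb_add h hO] at this

theorem gw_zpow (f : Subalgebra k K → K) (m : ℤ) (hf : Gw L ι l ζ w e f) :
    Gw L ι l ζ w e (f ^ m) := by
  obtain ⟨hf, g, t, a, μ, c, h0, hD⟩ := hf
  refine ⟨hf.zpow m, g ^ m, t * m, fun i j => a i j * m, μ ^ m, c.zpow m, zpow_ne_zero m h0,
    fun O hO => ?_⟩
  have := (hD O hO).zpow m
  rwa [div_zpow, mul_zpow, ← lb_zpow] at this

theorem step (hH : HorStmt) (h : All L ι l ζ w e) (hP : XPl L ι l ζ w e) (P : Place k K)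
    (hm : plO P ∈ XX L ι ζ w e) :
    ∃ g, Gw L ι l ζ w e g ∧ P.ord (g (plO P)) ≠ 0 ∧ ∀ P' : Place k K,
      plO P' ∈ XX L ι ζ w e → P' ≠ P → P'.ord (g (plO P')) ≠ 0 →
        lev L ι l ζ P' < lev L ι l ζ P := by
  have hL := h.loc
  have hD := h.div
  have c1 : IsCart L.Y 1 := isCart_const one_ne_zero
  by_cases h0 : ∃ i j, sX L ι i (plO P) ∈ mx (plO P) ∧ tau l ζ j (plO P) ∈ mx (plO P)
  · obtain ⟨i, j, h1, h2⟩ := h0
    refine ⟨EE L ι l ζ i j, gw_of h c1 0 _ one_ne_zero fun O => by rw [lb_E i j, one_mul],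
      ord_ne ((hD.cartE i j).ne hm) (hD.emx _ hm i j h1 h2), fun P' hm' hne ho => ?_⟩
    have h3 : ¬ IsU (plO P') (EE L ι l ζ i j (plO P')) := fun h => ho ((isU_plO' _).1 h).2
    exact absurd (hP.uE P' P i j hm' hm ⟨hL.sm _ hm' i, fun h => h3 (hD.eu _ hm' i j (Or.inl h))⟩
      ⟨hL.tm _ hm' j, fun h => h3 (hD.eu _ hm' i j (Or.inr h))⟩ h1 h2) hne
  have key : ∀ P' : Place k K, plO P' ∈ XX L ι ζ w e → ∀ j, tau l ζ j (plO P') ∈ mx (plO P') →
      lev L ι l ζ P' = 0 ∨ pr ι L.Y (plO P') = ⊤ := fun P' hm' j hj => by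
    by_cases h : ∃ i, sX L ι i (plO P') ∈ mx (plO P')
    · obtain ⟨i, hi⟩ := h
      exact Or.inl (lev_zero hi hj)
    · exact Or.inr (hP.top P' j hm' hj fun i => isU_of_not_mx (hL.sm _ hm' i) fun h' => h ⟨i, h'⟩)
  have hpos := lev_pos h0
  by_cases h1 : ∃ j, tau l ζ j (plO P) ∈ mx (plO P)
  · obtain ⟨j, hj⟩ := h1
    refine ⟨tau l ζ j, gw_of h c1 1 0 (div_ne_zero_iff.1 (hL.tne ⊤ j)).1 fun O => ?_,
      ord_ne (hL.tne _ j) hj, fun P' hm' hne ho => ?_⟩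
    · rw [lb_L, up, Pi.one_apply, map_one, one_mul, zpow_neg_one]
      exact div_eq_mul_inv _ _
    have h3 := mx_of_ord (hL.tm _ hm' j) ho
    rcases key P' hm' j h3 with h | h
    · rwa [h]
    · exact absurd (hP.uT P' P j hm' hm h3 h hj ((key P hm j hj).resolve_left hpos.ne')) hne
  have hu : ∀ j, IsU (plO P) (tau l ζ j (plO P)) := fun j =>
    isU_of_not_mx (hL.tm _ hm j) fun h => h1 ⟨j, h⟩
  rcases hP.pl P hm with ht | ⟨P₀, ht⟩
  · obtain ⟨f, hB, hh0, hh, H⟩ := hH k M K L.φ ι l ζ w e h.ext (h.ok.mw l h.ext.l0 h.ext.l1) _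
      (gen_pts h hm ht hu) (plO_ne_top _)
    refine ⟨fun _ => f, gw_const h hh0, ord_ne hh0 hh, fun P' hm' hne ho => ?_⟩
    rw [lev.eq_1 L ι l ζ P, if_neg h0, if_pos ⟨ht, hu⟩, lev]
    split_ifs with e1 e2
    · norm_num
    · exfalso
      have hp := gen_pts h hm' e2.1 e2.2
      have hz := zeta_mem (e2.2 3)
      rcases H _ hp (mx_of_ord (hp.2.1 hB) ho) with q | q
      · exact hne (plO_inj q.le)
      · exact (((e2.2 0).mul (e2.2 1)).mul (e2.2 2)).not_mx (by simpa [tau, eta, hz, cb] using q)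
    · norm_num
  · have hm0 : plO P₀ ∈ L.Y := ht ▸ hL.maps.mem hm
    obtain ⟨g, hg, o1, o2⟩ := h.ok.fac P₀ hm0
    have m1 : g (plO P₀) ∈ mx (plO P₀) := (mx_plO (hg.ne hm0)).2 (by rw [o1]; norm_num)
    rw [← ht] at m1
    refine ⟨up ι L.Y g, gw_of h hg 0 0 one_ne_zero fun O => by simp [lb_L],
      ord_ne ((hD.cartU g hg).ne hm) ((hL.maps.mx_up hm m1.1).2 m1), fun P' hm' hne ho => ?_⟩
    have n1 := hg.ne (hL.maps.mem hm')
    have h2 : ¬ IsU (pr ι L.Y (plO P')) (g (pr ι L.Y (plO P'))) := fun q =>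
      ho ((isU_plO' _).1 (hL.maps.isU_up hm' q)).2
    have h3 : pr ι L.Y (plO P') ≠ ⊤ := fun q => h2 (by rw [q] at n1 ⊢; exact isU_top.2 n1)
    obtain ⟨P₁, h4⟩ := (hP.pl P' hm').resolve_left h3
    obtain rfl : P₁ = P₀ := by_contra fun q => h2 (by
      rw [h4] at n1 ⊢
      exact (isU_plO' _).2 ⟨n1, o2 P₁ (h4 ▸ hL.maps.mem hm') q⟩)
    by_cases h5 : ∃ j, tau l ζ j (plO P') ∈ mx (plO P')
    · obtain ⟨j, hj⟩ := h5
      rwa [(key P' hm' j hj).resolve_right h3]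
    · exact absurd (hP.uV P' P P₁ hm' hm
        (fun j => isU_of_not_mx (hL.tm _ hm' j) fun h => h5 ⟨j, h⟩) hu h4 ht) hne

end ClsA

open ClsA in
theorem cls_stmt : ClsStmt := by
  intro hH k M K Λ κ n _ _ _ _ _ _ _ _ _ L ι l ζ w e h hP hN f hf
  obtain ⟨N, g, h0, hg, hu⟩ := clsGen_stmt k K (XX L ι ζ w e) (Gw L ι l ζ w e) (lev L ι l ζ) hN
    (fun _ h => h.1) (gw_mul h) gw_zpow (gw_const h one_ne_zero) (step hH h hP) f hf
  obtain ⟨-, g', t, a, μ, c, h1, hD⟩ := gw_zpow g N hg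
  refine ⟨N.natAbs ^ 2, g', t, a, μ, pow_pos (Int.natAbs_pos.2 h0) 2, c, h1, fun O hO => ?_⟩
  have := ((hu O hO).zpow N).mul (hD O hO)
  rwa [div_zpow, Pi.pow_apply, div_mul_div_cancel₀ (zpow_ne_zero N (hg.1.ne hO)), ← zpow_mul,
    ← Int.natAbs_mul_self, zpow_natCast, ← sq] at this

end Pool.Agent.MP_20d318_ag.CH

end PartCls

section PartSig

/-! Automorphisms of one level lift to the next. -/

set_option autoImplicit false
set_option linter.unusedSectionVars false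

namespace Pool.Agent.MP_20d318_ag.CH

open Pool.Agent.MP_fd6584_ag.Fn Pool.Agent.CBk
open Pool.Agent.MP_fd6584_ag.AG hiding deg_inv deg_congr deg_of_unit deg_mul deg_prod deg_zpow
  deg_eq_zero deg_nonneg deg_div deg_pow
open Pool.Agent.MP_20d318_ag.CB.P.SigX (sq_unit cc comap_comap eta_map zc_map tau_map)

namespace Sig

variable {k M K Λ κ : Type} {n : ℕ} [Field k] [Field M] [Field K] [Algebra k M] [Algebra k K]
  [Fintype κ] {L : Lv k M Λ κ n} {ι : M →ₐ[k] K} {l : k} {ζ w : K} {e : ℕ} {σ : M ≃ₐ[k] M}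
  {Φ : K ≃ₐ[k] K} {r : M} {O : Subalgebra k K}

variable (L ι ζ w e σ Φ r) in
/-- A lift of `σ` to the field. -/
structure Lt : Prop where
  h1 : ∀ m, Φ (ι m) = ι (σ m)
  h2 : Φ ζ = ζ
  h3 : Φ w = ι (r ^ (e - 1)) * w
  ne : r ≠ 0
  sq : σ L.φ = L.φ * r ^ 2
  inv : ∀ R, R ∈ L.Y ↔ R.comap (σ : M →ₐ[k] M) ∈ L.Y
  st : ∀ i, ∀ R ∈ L.Y, IsU R (σ (L.s i (R.comap (σ : M →ₐ[k] M))) / L.s i R)

theorem Lt.symm (h : Lt L ι ζ w e σ Φ r) : Lt L ι ζ w e σ.symm Φ.symm (σ.symm r)⁻¹ := by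
  have h1 : ∀ m, Φ.symm (ι m) = ι (σ.symm m) := fun m => by
    rw [Φ.symm_apply_eq, h.h1, σ.apply_symm_apply]
  have h0 : σ.symm r ≠ 0 := (map_ne_zero _).2 h.ne
  have hi : ∀ R, R ∈ L.Y ↔ R.comap (σ.symm : M →ₐ[k] M) ∈ L.Y := fun R => by
    rw [h.inv (R.comap _), cc]
  refine ⟨h1, Φ.symm_apply_eq.2 h.h2.symm, ?_, inv_ne_zero h0, ?_, hi, fun i R hR => ?_⟩
  · rw [Φ.symm_apply_eq, map_mul, h.h1, h.h3, map_pow σ, map_inv₀, σ.apply_symm_apply, inv_pow,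
      map_inv₀, inv_mul_cancel_left₀ ((map_ne_zero ι).2 (pow_ne_zero _ h.ne))]
  · rw [σ.symm_apply_eq, map_mul, h.sq, map_pow, map_inv₀, σ.apply_symm_apply]
    have := h.ne
    field_simp
  · have h2 := (isU_comap (σ.symm : M →ₐ[k] M)).1 (h.st i _ ((hi R).1 hR)).inv
    rw [cc, inv_div, map_div₀] at h2
    simpa using h2

theorem dom_comap (h : All L ι l ζ w e) (hL : Lt L ι ζ w e σ Φ r) (hO : O ∈ XX L ι ζ w e) :
    Dom ((pr ι L.Y O).comap (σ : M →ₐ[k] M)) ((O.comap (Φ : K →ₐ[k] K)).comap ι) := by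
  rw [comap_comap hL.h1]
  exact (h.loc.maps.dom hO).comap _

theorem pr_comap (h : All L ι l ζ w e) (hL : Lt L ι ζ w e σ Φ r) (hO : O ∈ XX L ι ζ w e) :
    pr ι L.Y (O.comap (Φ : K →ₐ[k] K)) = (pr ι L.Y O).comap (σ : M →ₐ[k] M) :=
  pr_eq h.gY (isLocalRing_comap _ (mp_loc hO)) ((hL.inv _).1 (h.loc.maps.mem hO))
    (dom_comap h hL hO)

theorem up_unit (h : All L ι l ζ w e) (hL : Lt L ι ζ w e σ Φ r) (hO : O ∈ XX L ι ζ w e)
    {f f' : Subalgebra k M → M}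
    (hf : ∀ R ∈ L.Y, IsU R (σ (f (R.comap (σ : M →ₐ[k] M))) / f' R)) :
    IsU O (Φ (up ι L.Y f (O.comap (Φ : K →ₐ[k] K))) / up ι L.Y f' O) := by
  unfold up
  rw [pr_comap h hL hO, hL.h1, ← map_div₀]
  exact h.loc.maps.isU_up hO (hf _ (h.loc.maps.mem hO))

theorem jj_unit (h : Ok L) (hL : Lt L ι ζ w e σ Φ r) {R : Subalgebra k M} (hR : R ∈ L.Y) :
    IsU R (r * σ (L.jj (R.comap (σ : M →ₐ[k] M))) / L.jj R) := by
  refine sq_unit (h.nice.nrm R hR) ?_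
  have u : IsU R (∏ i, σ (L.s i (R.comap (σ : M →ₐ[k] M))) / L.s i R) :=
    isU_prod fun i _ => hL.st i R hR
  rw [Finset.prod_div_distrib, ← map_prod, ← h.eqn _ hR, ← h.eqn _ ((hL.inv R).1 hR), map_mul,
    map_pow, hL.sq, mul_assoc, mul_div_mul_left _ _ h.φne, ← mul_pow, ← div_pow] at u
  exact u

theorem ja_unit (h : Ok L) (he : e = 1 ∨ e = 2) (hL : Lt L ι ζ w e σ Φ r) {R : Subalgebra k M}
    (hR : R ∈ L.Y) : IsU R (σ (L.φ * L.jj (R.comap (σ : M →ₐ[k] M)) ^ (3 - e)) /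
      (r ^ (e - 1) * (L.φ * L.jj R ^ (3 - e)))) := by
  have u := jj_unit h hL hR
  have h0 := h.cj.ne hR
  have h1 := h.φne
  have h2 := hL.ne
  have key : σ (L.φ * L.jj (R.comap (σ : M →ₐ[k] M)) ^ (3 - e)) /
      (r ^ (e - 1) * (L.φ * L.jj R ^ (3 - e))) =
      (r * σ (L.jj (R.comap (σ : M →ₐ[k] M))) / L.jj R) ^ (3 - e) := by
    rw [map_mul, map_pow, hL.sq]
    rcases he with rfl | rfl <;> norm_num <;> field_simp
  rw [key]
  rcases he with rfl | rfl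
  · rw [show 3 - 1 = 2 from rfl, sq]
    exact u.mul u
  · rwa [show 3 - 2 = 1 from rfl, pow_one]

theorem aa_unit (h : All L ι l ζ w e) (hL : Lt L ι ζ w e σ Φ r) (hO : O ∈ XX L ι ζ w e) :
    IsU O (AA L ι ζ w e O / Φ (AA L ι ζ w e (O.comap (Φ : K →ₐ[k] K)))) := by
  have u := up_unit h hL hO (f := fun R => L.φ * L.jj R ^ (3 - e))
    (f' := fun R => r ^ (e - 1) * (L.φ * L.jj R ^ (3 - e)))
    fun R hR => ja_unit h.ok h.ext.he hL hR
  have hw := h.loc.wne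
  have he := pow_ne_zero (2 * (3 - e)) (h.loc.gZ O hO).ne
  have hr : ι (r ^ (e - 1)) ≠ 0 := (map_ne_zero ι).2 (pow_ne_zero _ hL.ne)
  have e1 : up ι L.Y (fun R => r ^ (e - 1) * (L.φ * L.jj R ^ (3 - e))) O =
      ι (r ^ (e - 1)) * up ι L.Y (fun R => L.φ * L.jj R ^ (3 - e)) O := map_mul ι _ _
  rw [e1] at u
  have h1 := (div_ne_zero_iff.1 u.1).1
  have h2 := right_ne_zero_of_mul (div_ne_zero_iff.1 u.1).2
  have key : AA L ι ζ w e O / Φ (AA L ι ζ w e (O.comap (Φ : K →ₐ[k] K))) =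
      Φ (up ι L.Y (fun R => L.φ * L.jj R ^ (3 - e)) (O.comap (Φ : K →ₐ[k] K))) /
        (ι (r ^ (e - 1)) * up ι L.Y (fun R => L.φ * L.jj R ^ (3 - e)) O) := by
    unfold AA
    rw [map_div₀, map_mul, map_pow Φ, eta_map hL.h2, hL.h3]
    generalize eta ζ O ^ (2 * (3 - e)) = a at he
    generalize ι (r ^ (e - 1)) = b at hr
    field_simp
  rwa [key]

theorem prin (h : All L ι l ζ w e) (hL : Lt L ι ζ w e σ Φ r) (hO : O ∈ XX L ι ζ w e)
    (j : Λ ⊕ Bool) : Prin (famX L ι ζ w e j) (O.comap (Φ : K →ₐ[k] K)) := by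
  have hR := (hL.inv _).1 (h.loc.maps.mem hO)
  have hD := dom_comap h hL hO
  rcases j with a | _ | _
  · obtain ⟨γ, hγ⟩ := mp_prin h.ok.fam hR a
    exact (hγ.up ι hD.1).prin
  · have g := h.loc.gZ O hO
    have e1 : ({ζ, 1} : Set K) = (Φ : K →ₐ[k] K) '' {ζ, 1} := by
      simp [Set.image_insert_eq, hL.h2]
    rw [← eta_map hL.h2] at g
    refine ((gn_map (Φ : K →ₐ[k] K)).1 ?_).prin (γ := eta ζ (O.comap (Φ : K →ₐ[k] K)))
    show Gn ((Φ : K →ₐ[k] K) '' {ζ, 1}) O _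
    rw [← e1]
    exact g
  · have hu := aa_unit h hL hO
    have ha := h.loc.ane O hO
    refine h.loc.prin _ (isLocalRing_comap _ (mp_loc hO)) ⟨_, hR, hD⟩ ?_ ?_
    · rcases h.loc.aa O hO with h1 | h1
      · left
        have := O.mul_mem hu.inv_mem h1
        rwa [inv_div, div_mul_cancel₀ _ ha] at this
      · right
        have := O.mul_mem hu.mem h1
        rw [div_mul_eq_mul_div, mul_inv_cancel₀ ha, one_div, ← map_inv₀] at this
        exact this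
    · show Φ _ ∈ O
      rw [zc_map hL.h2]
      exact h.loc.zm O hO

theorem mem [Finite Λ] (h : All L ι l ζ w e) (hL : Lt L ι ζ w e σ Φ r) (hO : O ∈ XX L ι ζ w e) :
    O.comap (Φ : K →ₐ[k] K) ∈ XX L ι ζ w e := by
  refine (mp_comap Φ).1 (B1.mp_sub h.loc.fam (fun O hO j => ?_) (fun O hO j => ?_) hO)
  · obtain ⟨g, hg⟩ := prin h hL hO j
    exact ((gn_map (Φ : K →ₐ[k] K)).2 hg).prin
  · have := prin h hL.symm ((mp_comap Φ).1 hO) j
    rwa [show (O.comap (Φ : K →ₐ[k] K)).comap (Φ.symm : K →ₐ[k] K) = O from cc Φ.symm O] at this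

theorem ee_unit [Finite Λ] (h : All L ι l ζ w e) (hL : Lt L ι ζ w e σ Φ r)
    (hO : O ∈ XX L ι ζ w e) (i : κ) (j : Fin 4) :
    IsU O (Φ (EE L ι l ζ i j (O.comap (Φ : K →ₐ[k] K))) / EE L ι l ζ i j O) := by
  have g1 := (gn_map (Φ : K →ₐ[k] K)).2 (h.div.gE _ (mem h hL hO) i j)
  rw [Set.image_pair] at g1
  have u1 : IsU O (Φ (sX L ι i (O.comap (Φ : K →ₐ[k] K))) / sX L ι i O) :=
    up_unit h hL hO (hL.st i)
  have u2 : IsU O (tau l ζ j O / Φ (tau l ζ j (O.comap (Φ : K →ₐ[k] K)))) := by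
    rw [tau_map hL.h2, div_self (h.loc.tne O j)]
    exact isU_one
  have u3 : IsU O (sX L ι i O / Φ (sX L ι i (O.comap (Φ : K →ₐ[k] K)))) := by
    simpa using u1.inv
  exact (g1.pair_unit u3 u2).unit (h.div.gE _ hO i j)

end Sig

open Sig in
theorem sig_stmt : SigStmt := by
  intro hH k M K Λ κ n _ _ _ _ _ _ _ _ _ L ι l ζ w e h g r hg
  obtain ⟨Φ, h1, h2, h3⟩ := (hH k M L.φ l e).2 K ι ζ w g.1 r h.ext hg.ne hg.sq
  have hL : Lt L ι ζ w e g.1 Φ r := ⟨h1, h2, h3, hg.ne, hg.sq, g.2, hg.st⟩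
  have hX : ∀ O, O ∈ XX L ι ζ w e ↔ O.comap (Φ : K →ₐ[k] K) ∈ XX L ι ζ w e := fun O =>
    ⟨mem h hL, fun hO => by
      have := mem h hL.symm hO
      rwa [show (O.comap (Φ : K →ₐ[k] K)).comap (Φ.symm : K →ₐ[k] K) = O from cc Φ.symm O]
        at this⟩
  exact ⟨⟨Φ, hX⟩, h1, h2, h3, fun O hO => pr_comap h hL hO, fun O hO i j => ee_unit h hL hO i j⟩

end Pool.Agent.MP_20d318_ag.CH

end PartSig

section PartLft

/-! The action of the lifted automorphisms on numerical classes. -/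

set_option autoImplicit false
set_option linter.unusedSectionVars false

namespace Pool.Agent.MP_20d318_ag.CH

open Pool.Agent.MP_fd6584_ag.Fn Pool.Agent.CBk
open Pool.Agent.MP_fd6584_ag.AG hiding deg_inv deg_congr deg_of_unit deg_mul deg_prod deg_zpow
  deg_eq_zero deg_nonneg deg_div deg_pow

namespace Lft

variable {k K : Type} [Field k] [Field K] [Algebra k K] {X : Set (Subalgebra k K)}
  {f f' : Subalgebra k K → K} {ζ : K}

/-- Transported local equations. -/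
noncomputable def mv (g : Aut X) (f : Subalgebra k K → K) (O : Subalgebra k K) : K :=
  g.1 (f (O.comap (g.1 : K →ₐ[k] K)))

theorem mv_cart (g : Aut X) (hf : IsCart X f) : IsCart X (mv g f) :=
  (Cartier.pull g ⟨f, hf⟩).isCart

theorem n1_cl (g : Aut X) (hf : IsCart X f) : g.n1 (cl X f) = cl X (mv g f) := by
  rw [cl_eq hf, Aut.n1_n1, n1_eq]
  rfl

theorem cl_congr [IsAlgClosed k] (hX : Good X) (hf : IsCart X f) (hf' : IsCart X f')
    (h : ∀ O ∈ X, IsU O (f O / f' O)) : cl X f = cl X f' :=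
  n1_ext fun ν => by rw [cl_val hf, cl_val hf', deg_congr hX hf hf' h]

theorem cl_same [IsAlgClosed k] (hX : Good X) (hf : IsCart X f) (hf' : IsCart X f')
    (h : ∀ O ∈ X, f O = f' O) : cl X f = cl X f' :=
  cl_congr hX hf hf' fun O hO => by
    rw [h O hO, div_self (hf'.ne hO)]
    exact isU_one

theorem mv_eta (g : Aut X) (h : g.1 ζ = ζ) (O : Subalgebra k K) : mv g (eta ζ) O = eta ζ O := by
  have e : ζ ∈ O.comap (g.1 : K →ₐ[k] K) ↔ ζ ∈ O := by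
    rw [Subalgebra.mem_comap]
    change g.1 ζ ∈ O ↔ _
    rw [h]
  unfold mv eta
  by_cases hz : ζ ∈ O
  · rw [if_pos hz, if_pos (e.2 hz), map_one]
  · rw [if_neg hz, if_neg (mt e.1 hz), h]

theorem mv_tau (g : Aut X) (h : g.1 ζ = ζ) (l : k) (j : Fin 4) (O : Subalgebra k K) :
    mv g (tau l ζ j) O = tau l ζ j O := by
  have e := mv_eta g h O
  unfold mv at e
  unfold mv tau
  rw [map_div₀, e]
  refine congrArg (· / eta ζ O) ?_
  fin_cases j <;> simp [h]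

theorem map_cb (g : K ≃ₐ[k] K) (h : g ζ = ζ) (l : k) : g (cb l ζ) = cb l ζ := by
  simp [cb, h]

end Lft

open Lft

theorem lft_stmt : LftStmt := by
  intro k M K Λ κ n _ _ _ _ _ _ _ _ _ L ι l ζ w e h hs
  rintro _ ⟨g, r, hg, rfl⟩
  obtain ⟨g', u⟩ := hs g r hg
  have hup : ∀ f : Subalgebra k M → M, ∀ O ∈ XX L ι ζ w e,
      mv g' (up ι L.Y f) O = up ι L.Y (mv g f) O := fun f O hO => by
    unfold mv up
    rw [u.h1, u.pr O hO]
  have hE : ∀ O ∈ XX L ι ζ w e, ∀ i j,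
      IsU O (mv g' (EE L ι l ζ i j) O / EE L ι l ζ i j O) := u.ee
  refine ⟨g'.n1, ⟨g', ι r, ⟨(_root_.map_ne_zero ι).2 hg.ne, ?_, ?_⟩, rfl⟩, fun D => ?_⟩
  · change g'.1 (ι L.φ * cb l ζ) = ι L.φ * cb l ζ * ι r ^ 2
    rw [map_mul, u.h1, hg.sq, map_cb g'.1 u.h2, map_mul, map_pow]
    ring
  · rintro (i | j) O hO
    · have h1 : IsU O (mv g' (sX L ι i) O / sX L ι i O) := by
        have h2 := (isU_comap ι).1
          ((hg.st i _ (h.loc.maps.mem hO)).mono (h.loc.maps.dom hO).1)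
        rw [map_div₀] at h2
        rw [sX, hup _ O hO]
        exact h2
      have h3 := h1.div (isU_prod (s := Finset.univ) fun j _ => hE O hO i j)
      rw [Finset.prod_div_distrib, div_div_div_comm] at h3
      change IsU O (g'.1 (_ / ∏ j, _) / (_ / ∏ j, _))
      rw [map_div₀, map_prod]
      exact h3
    · have h1 : IsU O (mv g' (tau l ζ j) O / tau l ζ j O) := by
        rw [mv_tau g' u.h2, div_self (h.loc.tne O j)]
        exact isU_one
      have h3 := h1.div (isU_prod (s := Finset.univ) fun i _ => hE O hO i j)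
      rw [Finset.prod_div_distrib, div_div_div_comm] at h3
      change IsU O (g'.1 (_ / ∏ i, _) / (_ / ∏ i, _))
      rw [map_div₀, map_prod]
      exact h3
  · have e1 : g'.n1 ∘ₗ pull h.gY h.gX h.loc.maps = pull h.gY h.gX h.loc.maps ∘ₗ g.n1 :=
      lin_ext fun f hf => by
        rw [LinearMap.comp_apply, LinearMap.comp_apply, pull_cl _ _ _ hf, n1_cl g hf,
          pull_cl _ _ _ (mv_cart g hf), n1_cl g' (h.div.cartU f hf)]
        exact cl_same h.gX (mv_cart g' (h.div.cartU f hf)) (h.div.cartU _ (mv_cart g hf)) (hup f)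
    have e2 : g'.n1 (cl _ (eta ζ)) = cl _ (eta ζ) := (n1_cl g' h.div.cartZ).trans
      (cl_same h.gX (mv_cart g' h.div.cartZ) h.div.cartZ fun O _ => mv_eta g' u.h2 O)
    have e3 : ∀ i j, g'.n1 (cl _ (EE L ι l ζ i j)) = cl _ (EE L ι l ζ i j) := fun i j =>
      (n1_cl g' (h.div.cartE i j)).trans
        (cl_congr h.gX (mv_cart g' (h.div.cartE i j)) (h.div.cartE i j) fun O hO => hE O hO i j)
    have e4 := LinearMap.congr_fun e1 D.1
    rw [LinearMap.comp_apply, LinearMap.comp_apply] at e4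
    change g'.n1 (pull h.gY h.gX h.loc.maps D.1 - D.2.1 • cl _ (eta ζ) -
      ∑ i, ∑ j, D.2.2 i j • cl _ (EE L ι l ζ i j)) =
      pull h.gY h.gX h.loc.maps (g.n1 D.1) - D.2.1 • cl _ (eta ζ) -
      ∑ i, ∑ j, D.2.2 i j • cl _ (EE L ι l ζ i j)
    simp only [map_sub, map_sum, map_smul, e2, e3, e4]

end Pool.Agent.MP_20d318_ag.CH

end PartLft

section PartPol

/-! Sections that are rational functions of `ζ`. -/

set_option autoImplicit false
set_option linter.unusedSectionVars false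

namespace Pool.Agent.MP_20d318_ag.CH

open Pool.Agent.MP_fd6584_ag.Fn Pool.Agent.CBk Polynomial
open Pool.Agent.MP_fd6584_ag.AG hiding deg_inv deg_congr deg_of_unit deg_mul deg_prod deg_zpow
  deg_eq_zero deg_nonneg deg_div deg_pow
open Pool.Agent.MVg (Sc Fac GaussStmt)

namespace PolR

variable {k M K Λ κ : Type} {n : ℕ} [Field k] [Field M] [Field K] [Algebra k M] [Algebra k K]

/-- A valuation ring over the prime `π` of `M[ζ]`. -/
theorem exists_val {ι : M →ₐ[k] K} {ζ : K} (htr : Tr ι ζ) {π : M[X]} (hπ : Irreducible π) :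
    ∃ V : Subalgebra k K, IsVal V ∧ Dom ⊤ (V.comap ι) ∧ ∀ H : M[X],
      H.eval₂ (ι : M →+* K) ζ ∈ V ∧ (H.eval₂ (ι : M →+* K) ζ ∈ mx V ↔ π ∣ H) := by
  have : Fact (Irreducible π) := ⟨hπ⟩
  obtain ⟨V, hV, hd, h⟩ := XAlg.exists_val_ev ι ⊤ ζ htr
    ((IsScalarTower.toAlgHom k M (AdjoinRoot π)).comp (Subalgebra.val ⊤))
    (fun u hu => isU_top.2 fun h0 => hu (by rw [show u = 0 from Subtype.ext h0, map_zero]))
    (AdjoinRoot.root π)
  refine ⟨V, hV, hd, fun H => ?_⟩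
  have h1 := h (H.map ((Subalgebra.topEquiv (R := k) (A := M)).symm : M →+* (⊤ : Subalgebra k M)))
  rw [XAlg.ev_eq, XAlg.ev_eq, eval₂_map, eval₂_map] at h1
  rw [← AdjoinRoot.mk_eq_zero, ← AdjoinRoot.aeval_eq, aeval_def]
  exact h1

variable [Fintype κ] {L : Lv k M Λ κ n} {ι : M →ₐ[k] K} {l : k} {ζ w : K} {e : ℕ}
  {g : Subalgebra k M → M} {t : ℤ} {a : κ → Fin 4 → ℤ} {O : Subalgebra k K}

/-- Removing the exceptional factors where they are units. -/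
theorem strip {f : K} (hf : f * lb L ι l ζ g t a O ∈ O) (hz : ζ ∈ O)
    (hE : ∀ i j, IsU O (EE L ι l ζ i j O)) : f * ι (g (pr ι L.Y O)) ∈ O := by
  have u : IsU O (∏ i, ∏ j, EE L ι l ζ i j O ^ (-a i j)) :=
    isU_prod fun i _ => isU_prod fun j _ => (hE i j).zpow _
  have := u.div_mem hf
  rwa [lb, ← mul_assoc, mul_div_cancel_right₀ _ u.1, CBk.eta, if_pos hz, one_zpow, mul_one] at this

/-- A section that is a rational function of `ζ` is a polynomial. -/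
theorem poly (h : All L ι l ζ w e) (hg : IsCart L.Y g) (A B : M[X]) (hB : B ≠ 0)
    (hs : Sc (XX L ι ζ w e) (lb L ι l ζ g t a)
      (A.eval₂ (ι : M →+* K) ζ / B.eval₂ (ι : M →+* K) ζ)) :
    ∃ G : M[X], A.eval₂ (ι : M →+* K) ζ / B.eval₂ (ι : M →+* K) ζ = G.eval₂ (ι : M →+* K) ζ := by
  obtain ⟨A', B', c, hc, rfl, rfl⟩ := UniqueFactorizationMonoid.exists_reduced_factors' A B hB
  have hc0 : c.eval₂ (ι : M →+* K) ζ ≠ 0 := fun e => left_ne_zero_of_mul hB (h.ext.tr _ e)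
  have hB0 : B'.eval₂ (ι : M →+* K) ζ ≠ 0 := fun e => right_ne_zero_of_mul hB (h.ext.tr _ e)
  rw [eval₂_mul, eval₂_mul, mul_div_mul_left _ _ hc0] at hs ⊢
  by_cases hu : IsUnit B'
  · obtain ⟨G, hG⟩ := hu.dvd (a := A')
    exact ⟨G, by rw [hG, eval₂_mul, mul_div_cancel_left₀ _ hB0]⟩
  obtain ⟨π, hπ, hd⟩ := WfDvdMonoid.exists_irreducible_factor hu (right_ne_zero_of_mul hB)
  obtain ⟨V, hV, hT, hm⟩ := exists_val h.ext.tr hπ
  have htop := h.ok.nice.toFine.top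
  obtain ⟨O, hO, hOV, hR⟩ := h.below htop hV hT
  have hz : ζ ∈ O := XTst.mem_of_dom hOV (XTst.zor (h.loc.zm O hO)) (by simpa using (hm X).1)
  have hU : ∀ m, m ≠ 0 → IsU O (ι m) := fun m hm =>
    h.loc.maps.isU_up hO (by rw [hR]; exact isU_top.2 hm)
  have h1 := strip (hs O hO) hz fun i j =>
    h.div.eu O hO i j (Or.inl (hU _ ((h.ok.cs i).ne (h.loc.maps.mem hO))))
  have hl := hU _ (hg.ne (h.loc.maps.mem hO))
  have h2 := hl.div_mem h1
  rw [mul_div_cancel_right₀ _ hl.ne] at h2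
  have hA := mx_mul_left (hOV.1 h2) ((hm B').2.2 hd)
  rw [div_mul_cancel₀ _ hB0] at hA
  exact absurd (hc ((hm A').2.1 hA) hd) hπ.not_isUnit

/-- The coefficients of a polynomial section. -/
theorem coeff_sc (hG : GaussStmt) (h : All L ι l ζ w e) (hg : IsCart L.Y g) (G : M[X])
    (hs : Sc (XX L ι ζ w e) (lb L ι l ζ g t a) (G.eval₂ (ι : M →+* K) ζ)) (m : ℕ) :
    Sc L.Y g (G.coeff m) := by
  refine MVg.sc_of_places h.ok.nice hg fun P hP => ?_
  obtain ⟨V, hV, hd, hu, hc⟩ := hG k M K ι P ζ h.ext.tr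
  obtain ⟨O, hO, d, e⟩ := h.below hP hV hd
  have hz : ζ ∈ O := XTst.mem_of_dom d (XTst.zor (h.loc.zm O hO)) (XTst.mem_of_sub (hu 0).mem)
  have ht := XTst.tau_unit (l := l) hz fun c _ =>
    d.2 _ (O.sub_mem hz (O.algebraMap_mem c)) (hu c)
  have a := strip (hs O hO) hz fun i j => h.div.eu O hO i j (Or.inr (ht j))
  rw [e] at a
  have b := hc (G * C (g (plO P))) (by rw [eval₂_mul, eval₂_C]; exact d.1 a) m
  rwa [coeff_mul_C] at b

end PolR

theorem pol_stmt : PolStmt := by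
  intro hG k M K Λ κ n _ _ _ _ _ _ _ _ _ L ι l ζ w e h g t a hg μ h0 ⟨A, B, hB, hμ⟩ hs
  subst hμ
  obtain ⟨G, hG'⟩ := PolR.poly h hg A B hB hs
  rw [hG'] at hs h0
  exact ⟨G.leadingCoeff, fun h1 => h0 (by rw [leadingCoeff_eq_zero.1 h1, eval₂_zero]),
    PolR.coeff_sc hG h hg G hs _⟩

end Pool.Agent.MP_20d318_ag.CH

end PartPol

section PartEff

/-! Effective divisors have effective images. -/

set_option autoImplicit false
set_option linter.unusedSectionVars false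

namespace Pool.Agent.MP_20d318_ag.CH

open Pool.Agent.MP_fd6584_ag.Fn Pool.Agent.CBk Polynomial
open Pool.Agent.MP_fd6584_ag.AG hiding deg_inv deg_congr deg_of_unit deg_mul deg_prod deg_zpow
  deg_eq_zero deg_nonneg deg_div deg_pow
open Pool.Agent.MVg (Sc Fac GaussStmt)

namespace EffR

variable {k M K Λ κ : Type} {n : ℕ} [Field k] [Field M] [Field K] [Algebra k M] [Algebra k K]
  [Fintype κ] {L : Lv k M Λ κ n} {ι : M →ₐ[k] K} {l : k} {ζ w : K} {e : ℕ}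

theorem comap_one (R : Subalgebra k M) : R.comap ((1 : M ≃ₐ[k] M) : M →ₐ[k] M) = R := by
  ext x; simp

theorem lf_one (h : All L ι l ζ w e) : Lf L Aut.one (-1) := by
  refine ⟨by simp, by simp [Aut.one], fun i R hR => ?_⟩
  have e1 : R.comap (((Aut.one : Aut L.Y).1 : M ≃ₐ[k] M) : M →ₐ[k] M) = R := comap_one R
  have e2 : (Aut.one : Aut L.Y).1 (L.s i R) = L.s i R := rfl
  rw [e1, e2, div_self ((h.ok.cs i).ne hR)]
  exact isU_one

theorem lb_sq (g : Subalgebra k M → M) (t : ℤ) (a : κ → Fin 4 → ℤ) (O : Subalgebra k K) :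
    lb L ι l ζ (g ^ 2) (t * 2) (fun i j => a i j * 2) O =
      lb L ι l ζ g t a O * lb L ι l ζ g t a O := by
  have e1 : ∀ (x : K) (s : ℤ), x ^ (-(s * 2)) = (x ^ (-s)) ^ 2 := fun x s => by
    rw [← neg_mul, zpow_mul, zpow_ofNat]
  unfold lb up
  simp only [e1, Finset.prod_pow, Pi.pow_apply, map_pow]
  ring

theorem lb_up {g : Subalgebra k M → M} (hg : IsCart L.Y g) (h : All L ι l ζ w e)
    {θ : Aut (XX L ι ζ w e)} (hθ : Up L ι l ζ w e Aut.one (-1) θ) (t : ℤ) (a : κ → Fin 4 → ℤ)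
    {O : Subalgebra k K} (hO : O ∈ XX L ι ζ w e) :
    IsU O (θ.1 (lb L ι l ζ g t a (O.comap (θ.1 : K →ₐ[k] K))) / lb L ι l ζ g t a O) := by
  have e1 : θ.1 (up ι L.Y g (O.comap (θ.1 : K →ₐ[k] K))) = up ι L.Y g O := by
    unfold up
    rw [hθ.h1, hθ.pr O hO]
    exact congrArg (fun R => ι (g R)) (comap_one _)
  have e2 : θ.1 (eta ζ (O.comap (θ.1 : K →ₐ[k] K))) = eta ζ O := by
    have e3 : ζ ∈ O.comap (θ.1 : K →ₐ[k] K) ↔ ζ ∈ O := by
      rw [Subalgebra.mem_comap]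
      exact iff_of_eq (congrArg (· ∈ O) hθ.h2)
    unfold CBk.eta
    by_cases hz : ζ ∈ O
    · rw [if_pos hz, if_pos (e3.2 hz), map_one]
    · rw [if_neg hz, if_neg fun h' => hz (e3.1 h'), hθ.h2]
  have n1 : up ι L.Y g O * eta ζ O ^ (-t) ≠ 0 :=
    mul_ne_zero ((h.div.cartU g hg).ne hO) (zpow_ne_zero _ (h.div.cartZ.ne hO))
  unfold lb
  rw [map_mul, map_mul, map_zpow₀, e1, e2, mul_div_mul_left _ _ n1, map_prod,
    ← Finset.prod_div_distrib]
  refine isU_prod fun i _ => ?_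
  rw [map_prod, ← Finset.prod_div_distrib]
  refine isU_prod fun j _ => ?_
  rw [map_zpow₀, ← div_zpow]
  exact (hθ.ee O hO i j).zpow _

end EffR

theorem eff_stmt : EffStmt := by
  intro k M K Λ κ n _ _ _ _ _ _ _ _ _ L ι l ζ w e h hS hP g t a hg μ hμ s1
  obtain ⟨θ, hθ⟩ := hS _ _ (EffR.lf_one h)
  have s2 : Sc (XX L ι ζ w e) (lb L ι l ζ g t a) (θ.1 μ) := fun O hO => by
    have h1 : θ.1 (μ * lb L ι l ζ g t a (O.comap (θ.1 : K →ₐ[k] K))) ∈ O := s1 _ ((θ.2 O).1 hO)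
    have h2 := EffR.lb_up hg h hθ t a hO
    have h3 := O.mul_mem h1 h2.inv_mem
    rwa [map_mul, inv_div, mul_assoc, mul_div_cancel₀ _ (div_ne_zero_iff.1 h2.1).1] at h3
  refine hP (g ^ 2) (t * 2) (fun i j => a i j * 2) (hg.pow 2) (μ * θ.1 μ)
    (mul_ne_zero hμ ((map_ne_zero θ.1).2 hμ)) (h.fld.nrm θ.1 hθ.h1 hθ.h2 hθ.h3 μ) fun O hO => ?_
  rw [EffR.lb_sq, mul_mul_mul_comm]
  exact O.mul_mem (s1 O hO) (s2 O hO)

end Pool.Agent.MP_20d318_ag.CH

end PartEff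

section PartCln

/-! Integral and effective classes of the next level. -/

set_option autoImplicit false
set_option linter.unusedSectionVars false

namespace Pool.Agent.MP_20d318_ag.CH

open Pool.Agent.MP_fd6584_ag.Fn Pool.Agent.CBk
open Pool.Agent.MP_fd6584_ag.AG hiding deg_inv deg_congr deg_of_unit deg_mul deg_prod deg_zpow
  deg_eq_zero deg_nonneg deg_div deg_pow
open Pool.Agent.MVg (Sc)

namespace Cln

section general

variable {k K : Type} [Field k] [IsAlgClosed k] [Field K] [Algebra k K] {X : Set (Subalgebra k K)}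

theorem cl_pow (hX : Good X) {f g : Subalgebra k K → K} (hf : IsCart X f) (hg : IsCart X g) (N : ℕ)
    {μ : K} (hμ : μ ≠ 0) (h : ∀ O ∈ X, IsU O (f O ^ N / (μ * g O))) :
    (N : ℝ) • cl X f = cl X g :=
  n1_ext fun ν => by
    have h1 : ν.deg (f ^ N) = ν.deg fun O => μ * g O :=
      deg_congr hX (hf.pow N) ((isCart_const hμ).mul hg) h ν
    rw [deg_pow hX hf, deg_cmul hX hg hμ] at h1
    rw [map_smul, cl_val hf, cl_val hg, ← h1, smul_eq_mul]
    push_cast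
    rfl

theorem cl_ef (hX : Good X) {g : Subalgebra k K → K} (hg : IsCart X g) {m : K} (hm : m ≠ 0)
    (h : Sc X (g ^ 2) m) : cl X g ∈ Glue.Ef X := by
  have hc : IsCart X fun O => m * (g ^ 2) O := (isCart_const hm).mul (hg.pow 2)
  have h1 : cl X g = (2⁻¹ : ℝ) • cl X fun O => m * (g ^ 2) O := n1_ext fun ν => by
    rw [map_smul, cl_val hg, cl_val hc, deg_cmul hX (hg.pow 2) hm, deg_pow hX hg, smul_eq_mul]
    push_cast
    ring
  rw [h1]
  exact (Lat.isCone_cone _).smul _ (by norm_num) _ (cl_eff hc h)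

end general

variable {k M K Λ κ : Type} {n : ℕ} [Field k] [IsAlgClosed k] [Field M] [Field K] [Algebra k M]
  [Algebra k K] [Fintype κ] {L : Lv k M Λ κ n} {ι : M →ₐ[k] K} {l : k} {ζ w : K} {e : ℕ}

theorem gen (h : All L ι l ζ w e) (hc : XCls L ι l ζ w e) {f : Subalgebra k K → K}
    (hf : IsCart (XX L ι ζ w e) f) : ∃ (N : ℕ) (g : Subalgebra k M → M) (t : ℤ)
      (a : κ → Fin 4 → ℤ) (μ : K), 0 < N ∧ IsCart L.Y g ∧ μ ≠ 0 ∧
      (∀ O ∈ XX L ι ζ w e, IsU O (f O ^ N / (μ * lb L ι l ζ g t a O))) ∧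
      (N : ℝ) • cl _ f = h.Phi (cl _ g, t, fun i j => a i j) := by
  obtain ⟨N, g, t, a, μ, h1, h2, h3, h4⟩ := hc f hf
  exact ⟨N, g, t, a, μ, h1, h2, h3, h4,
    (cl_pow h.gX hf (h.div.cartW g t a h2) N h3 h4).trans (h.phi_lb h2 t a).symm⟩

theorem cls (h : All L ι l ζ w e) (hc : XCls L ι l ζ w e) (x : N1 (XX L ι ζ w e))
    (hx : x ∈ AddSubgroup.closure (Set.range Cartier.n1)) :
    ∃ N : ℕ, 0 < N ∧ ∃ D ∈ L.nd.LW, (N : ℝ) • x = h.Phi D := by
  induction hx using AddSubgroup.closure_induction with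
  | mem x hx =>
    obtain ⟨D, rfl⟩ := hx
    obtain ⟨N, g, t, a, μ, h1, h2, -, -, h5⟩ := gen h hc D.isCart
    exact ⟨N, h1, (cl _ g, t, fun i j => a i j),
      (Nd.mem_LW _).2 ⟨cl_mem h2, ⟨t, rfl⟩, fun i j => ⟨a i j, rfl⟩⟩, by rw [n1_eq, h5]⟩
  | zero => exact ⟨1, one_pos, 0, zero_mem _, by rw [smul_zero, map_zero]⟩
  | add x y _ _ hx hy =>
    obtain ⟨N, h1, D, h2, h3⟩ := hx
    obtain ⟨N', h1', D', h2', h3'⟩ := hy
    refine ⟨N * N', Nat.mul_pos h1 h1', (N' : ℝ) • D + (N : ℝ) • D',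
      add_mem ((IZ.nat N').smul_mem h2) ((IZ.nat N).smul_mem h2'), ?_⟩
    rw [map_add, map_smul, map_smul, ← h3, ← h3', smul_smul, smul_smul, smul_add, Nat.cast_mul,
      mul_comm (N' : ℝ)]
  | neg x _ hx =>
    obtain ⟨N, h1, D, h2, h3⟩ := hx
    exact ⟨N, h1, -D, neg_mem h2, by rw [smul_neg, map_neg, h3]⟩

theorem dn (h : All L ι l ζ w e) (hc : XCls L ι l ζ w e) (he : XEff L ι l ζ w e) :
    Glue.Ef (XX L ι ζ w e) ⊆ h.Phi '' (LinearMap.fst ℝ _ _ ⁻¹' Glue.Ef L.Y) := by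
  refine (((Lat.isCone_cone _).preimage _).image _).cone_subset ?_
  rintro _ ⟨D, hD, rfl⟩
  obtain ⟨N, g, t, a, μ, h1, h2, h3, h4, h5⟩ := gen h hc D.isCart
  have hs : Sc (XX L ι ζ w e) (lb L ι l ζ g t a) μ := fun O hO => by
    have h6 := (h4 O hO).div_mem (O.pow_mem (hD O hO) N)
    rwa [div_div_cancel₀ (div_ne_zero_iff.1 (h4 O hO).1).1] at h6
  obtain ⟨m, hm, h7⟩ := he g t a h2 μ h3 hs
  have hN : (N : ℝ) ≠ 0 := Nat.cast_ne_zero.2 h1.ne'
  refine ⟨(N : ℝ)⁻¹ • ((cl _ g, t, fun i j => a i j) : WW (N1 L.Y) κ), ?_, ?_⟩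
  · exact (Lat.isCone_cone _).smul _ (inv_nonneg.2 (Nat.cast_nonneg N)) _ (cl_ef h.gY h2 hm h7)
  · rw [map_smul, ← h5, smul_smul, inv_mul_cancel₀ hN, one_smul, n1_eq]

end Cln

/-- CLN. -/
theorem cln_stmt : ClnStmt := fun _ _ _ _ _ _ _ _ _ _ _ _ _ _ _ _ _ _ _ _ _ h hc he =>
  ⟨Cln.cls h hc, fun _ hx => by
    obtain ⟨D, h1, h2⟩ := Cln.dn h hc he hx
    exact ⟨D, h2, h1⟩⟩

end Pool.Agent.MP_20d318_ag.CH

end PartCln

section PartDv

/-! The classes of the divisors on the blow-up and on its double cover. -/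

set_option autoImplicit false
set_option linter.unusedSectionVars false

namespace Pool.Agent.MP_20d318_ag.CH

open Pool.Agent.MP_fd6584_ag.Fn Pool.Agent.CBk
open Pool.Agent.MP_fd6584_ag.AG hiding deg_inv deg_congr deg_of_unit deg_mul deg_prod deg_zpow
  deg_eq_zero deg_nonneg deg_div deg_pow

namespace DvR

variable {k M K Λ κ : Type} {n : ℕ} [Field k] [Field M] [Field K] [Algebra k M] [Algebra k K]
  [IsAlgClosed k] [Fintype κ] {L : Lv k M Λ κ n} {ι : M →ₐ[k] K} {l : k} {ζ w : K} {e : ℕ}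
  (h : All L ι l ζ w e)

include h

theorem pull_mem {x : N1 L.Y} (hx : x ∈ AddSubgroup.closure (Set.range Cartier.n1)) :
    pull h.gY h.gX h.loc.maps x ∈ AddSubgroup.closure (Set.range Cartier.n1) := by
  induction hx using AddSubgroup.closure_induction with
  | mem x hx =>
    obtain ⟨D, rfl⟩ := hx
    rw [n1_eq, pull_cl _ _ _ D.isCart]
    exact cl_mem (h.div.cartU _ D.isCart)
  | zero => rw [map_zero]; exact zero_mem _
  | add x y _ _ a b => rw [map_add]; exact add_mem a b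
  | neg x _ a => rw [map_neg]; exact neg_mem a

theorem degC (ν : Curve (XX L ι ζ w e)) (i : κ) : ν.deg (sN L ι l ζ (Sum.inl i)) =
    ν.deg (sX L ι i) - ∑ j, ν.deg (EE L ι l ζ i j) := by
  have e1 : sN L ι l ζ (Sum.inl i) = sX L ι i / ∏ j, EE L ι l ζ i j := by
    funext O
    simp only [sN, Sum.elim_inl, Pi.div_apply, Finset.prod_apply]
  rw [e1, deg_div h.gX (h.div.cartS i) (isCart_prod fun j _ => h.div.cartE i j),
    deg_prod h.gX fun j _ => h.div.cartE i j]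

theorem degF (ν : Curve (XX L ι ζ w e)) (j : Fin 4) : ν.deg (sN L ι l ζ (Sum.inr j)) =
    -ν.deg (eta ζ) - ∑ i, ν.deg (EE L ι l ζ i j) := by
  have e1 : sN L ι l ζ (Sum.inr j) = tau l ζ j / ∏ i, EE L ι l ζ i j := by
    funext O
    simp only [sN, Sum.elim_inr, Pi.div_apply, Finset.prod_apply]
  rw [e1, deg_div h.gX (h.div.cartT j) (isCart_prod fun i _ => h.div.cartE i j),
    deg_prod h.gX fun i _ => h.div.cartE i j, h.div.degT]

theorem cC (i : κ) : cl (XX L ι ζ w e) (sN L ι l ζ (Sum.inl i)) = h.Phi (L.nd.rowW i) := by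
  classical
  refine n1_ext fun ν => Eq.trans ?_ (h.phi_d ν _).symm
  rw [cl_val (h.div.cartN _), degC h]
  simp only [Nd.rowW, h.pj_c, zero_mul, add_zero, ite_mul, one_mul]
  rw [Finset.sum_eq_single i (fun b _ hb => by simp [hb]) (by simp)]
  simp

theorem cT (j : Fin 4) : cl (XX L ι ζ w e) (sN L ι l ζ (Sum.inr j)) = h.Phi (colW j) := by
  refine n1_ext fun ν => Eq.trans ?_ (h.phi_d ν _).symm
  rw [cl_val (h.div.cartN _), degF h]
  simp [colW]

theorem cF : h.Phi (0, 1, 0) = cl (XX L ι ζ w e) (tau l ζ 0) := by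
  refine n1_ext fun ν => (h.phi_d ν _).trans ?_
  rw [cl_val (h.div.cartT 0), h.div.degT]
  simp

theorem cE (i : κ) (j : Fin 4) : h.Phi (excW i j) = cl (XX L ι ζ w e) (EE L ι l ζ i j) := by
  classical
  refine n1_ext fun ν => (h.phi_d ν _).trans ?_
  rw [cl_val (h.div.cartE i j)]
  simp only [excW, map_zero, zero_mul, add_zero, zero_sub]
  rw [Finset.sum_eq_single i (fun b _ hb => by simp [hb]) (by simp),
    Finset.sum_eq_single j (fun b _ hb => by simp [hb]) (by simp)]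
  simp

theorem eL {x : N1 L.Y} (hx : x ∈ Glue.Ef L.Y) :
    pull h.gY h.gX h.loc.maps x ∈ Glue.Ef (XX L ι ζ w e) := by
  refine ((Lat.isCone_cone _).preimage (pull h.gY h.gX h.loc.maps)).cone_subset ?_ hx
  rintro _ ⟨D, hD, rfl⟩
  rw [Set.mem_preimage, n1_eq, pull_cl _ _ _ D.isCart]
  exact cl_eff (h.div.cartU _ D.isCart) fun O hO =>
    (h.loc.maps.dom hO).1 (hD _ (h.loc.maps.mem hO))

end DvR

theorem dv_stmt : DvStmt := by
  intro k M K Λ κ n _ _ _ _ _ _ _ _ _ L ι l ζ w e h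
  refine ⟨fun D hD => ?_, ?_, DvR.cC h, DvR.cT h, fun x hx => ?_, ?_, fun i j => ?_, fun i => ?_⟩
  · exact sub_mem (sub_mem (DvR.pull_mem h hD.1) (hD.2.1.smul_mem (cl_mem h.div.cartZ)))
      (sum_mem fun i _ => sum_mem fun j _ => (hD.2.2 i j).smul_mem (cl_mem (h.div.cartE i j)))
  · exact eq_top_iff.2 (span_cl.ge.trans (Submodule.span_mono AddSubgroup.subset_closure))
  · have : h.Phi (x, 0, 0) = pull h.gY h.gX h.loc.maps x := by simp [All.Phi]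
    exact Set.mem_of_eq_of_mem this (DvR.eL h hx)
  · exact Set.mem_of_eq_of_mem (DvR.cF h)
      (cl_eff (h.div.cartT 0) fun O hO => h.loc.tm O hO 0)
  · exact Set.mem_of_eq_of_mem (DvR.cE h i j)
      (cl_eff (h.div.cartE i j) fun O hO => h.div.em O hO i j)
  · refine cl_eff (h.div.cartN i) fun O hO => ?_
    rcases i with i | j
    exacts [(h.div.rC O hO i).1, (h.div.rT O hO j).1]

end Pool.Agent.MP_20d318_ag.CH

end PartDv

section PartVol

/-! Row VOL: the volume form on the next level. -/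

set_option autoImplicit false
set_option linter.unusedSectionVars false

namespace Pool.Agent.MP_20d318_ag.CH

open Pool.Agent.MP_fd6584_ag.Fn Pool.Agent.CBk Polynomial
open Pool.Agent.MP_fd6584_ag.AG hiding deg_inv deg_congr deg_of_unit deg_mul deg_prod deg_zpow
  deg_eq_zero deg_nonneg deg_div deg_pow

namespace VolAux

variable {k M K : Type} [Field k] [Field M] [Field K] [Algebra k M] [Algebra k K] {N : ℕ}
  {ι : M →ₐ[k] K} {δ₀ : Derivation k M (Fin N → M)} {δ : Derivation k K (Fin (N + 1) → K)}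

theorem lin (ch : ∀ a, δ (ι a) = Fin.cons 0 fun i => ι (δ₀ a i)) {c r : Fin N → M} {a : M}
    (h : δ₀ a = ∑ i, r i • δ₀ (c i)) : δ (ι a) = ∑ i, ι (r i) • δ (ι (c i)) := by
  funext i
  rw [ch, h, Finset.sum_apply]
  refine Fin.cases ?_ (fun i => ?_) i <;> simp [ch]

theorem det (ch : ∀ a, δ (ι a) = Fin.cons 0 fun i => ι (δ₀ a i)) {z u : K}
    (hz : δ z = u • Pi.single 0 1) (c : Fin N → M) :
    dt δ (Fin.cons z fun i => ι (c i)) = u * ι (dt δ₀ c) := by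
  unfold dt
  rw [Matrix.det_succ_row_zero, Finset.sum_eq_single 0 (fun j _ hj => by simp [hz, hj]) (by simp),
    AlgHom.map_det]
  refine congrArg₂ _ (by simp [hz]) (congrArg _ ?_)
  ext i j
  simp [ch]

end VolAux

open VolAux in
theorem vol_stmt : VolStmt := by
  intro hD hC k M K Λ κ n _ _ _ _ _ _ _ _ _ L ι l ζ w e h
  obtain ⟨j, j0, hv⟩ := h.ok.vol
  obtain ⟨δ₀, h0⟩ := hD.ex k M (n + 2) L.y h.ok.ind h.ok.top
  refine ⟨j, j0, fun (δ : Derivation k K (Fin (n + 2 + 1) → K)) hδ O hO => ?_⟩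
  have hR := h.loc.maps.mem hO
  obtain ⟨c, ⟨cm, cg⟩, cu⟩ := hv δ₀ h0 _ hR
  have hz : δ ζ = Pi.single 0 1 := hδ 0
  have hy : ∀ i, δ (ι (L.y i)) = Pi.single i.succ 1 := fun i => hδ i.succ
  have ch : ∀ a, δ (ι a) = Fin.cons 0 fun i => ι (δ₀ a i) := fun a => by
    rw [hD.chain k M K _ _ L.y δ₀ ι δ h.ok.top h0 a]
    funext i
    refine Fin.cases ?_ (fun i => ?_) i <;> simp [hy, Pi.single_apply]
  obtain ⟨g, hg⟩ := h.lc hO
  obtain ⟨c', g1, ⟨u, hu, g2⟩, g3⟩ := hC k M K e ι _ O _ _ _ g (n + 2) δ c hg cm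
    (fun a ha => (cg a ha).imp fun r hr => ⟨hr.1, lin ch hr.2⟩) (fun hS => by
      obtain ⟨r, r1, r2⟩ := cg _ hS.1
      refine ⟨r, r1, lin ch r2, by_contra fun hn => ?_⟩
      obtain ⟨D, d1, d2⟩ := h.ok.crd _ hR hS
      have e : ∀ a, D a = ∑ i, δ₀ a i * D (L.y i) :=
        hD.chain k M M M _ L.y δ₀ (AlgHom.id k M) D h.ok.top h0
      have e' : D (∏ i, L.s i (pr ι L.Y O)) = ∑ i, r i * D (c i) := by
        rw [e, r2]
        simp only [e (c _), Finset.sum_apply, Pi.smul_apply, smul_eq_mul, Finset.sum_mul,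
          Finset.mul_sum, mul_assoc]
        exact Finset.sum_comm
      rw [e'] at d2
      exact (mx_sum hg.locR fun i _ => mx_mul_right ⟨r1 i, fun hi => hn ⟨i, hi⟩⟩ (d1 _ (cm i))).2 d2)
  refine ⟨c', g1, ?_, g3⟩
  obtain ⟨v, hv, v1⟩ : ∃ v : K, δ (zc ζ O) = v • Pi.single 0 1 ∧ IsU O (eta ζ O ^ 2 * v) := by
    unfold zc CBk.eta
    split_ifs
    · exact ⟨1, by rw [hz, one_smul], by simpa using isU_one⟩
    · have z0 : ζ ≠ 0 := by simpa using h.ext.tr.ne 0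
      exact ⟨-ζ⁻¹ ^ 2, by rw [Derivation.leibniz_inv, hz], by simpa [z0] using isU_one.neg⟩
  have := (hu.mul v1).mul (h.loc.maps.isU_up hO cu)
  rw [det ch hv, ← h.prod_sX] at g2
  refine Eq.subst ?_ this
  rw [map_mul, map_div₀, up]
  linear_combination (-(ι j * eta ζ O ^ 2 / ι (L.jj (pr ι L.Y O)))) * g2

end Pool.Agent.MP_20d318_ag.CH

end PartVol

section PartNxa

/-! Row NXA: the algebraic part of the induction hypothesis passes to the blow-up. -/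

set_option autoImplicit false
set_option linter.unusedSectionVars false

namespace Pool.Agent.MP_20d318_ag.CH

open Pool.Agent.MP_fd6584_ag.Fn Pool.Agent.CBk
open Pool.Agent.MP_fd6584_ag.AG hiding deg_inv deg_congr deg_of_unit deg_mul deg_prod deg_zpow
  deg_eq_zero deg_nonneg deg_div deg_pow

namespace Nxa

variable {k M K Λ κ : Type} {n : ℕ} [Field k] [Field M] [Field K] [Algebra k M] [Algebra k K]
  [Fintype κ] {L : Lv k M Λ κ n} {ι : M →ₐ[k] K} {l : k} {ζ w : K} {e : ℕ}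
  {O : Subalgebra k K}

theorem prod_tau (l : k) (ζ : K) (O : Subalgebra k K) :
    ∏ j, tau l ζ j O = cb l ζ / eta ζ O ^ 4 := by
  unfold tau cb
  rw [Finset.prod_div_distrib, Fin.prod_univ_four, Finset.prod_const, Finset.card_univ,
    Fintype.card_fin]
  exact congrArg (· / _) (mul_one _)

variable (h : All L ι l ζ w e)

include h

theorem ee_ne (hO : O ∈ XX L ι ζ w e) (i : κ) (j : Fin 4) : EE L ι l ζ i j O ≠ 0 :=
  (h.div.gE O hO i j).ne

theorem of_inl (hO : O ∈ XX L ι ζ w e) {i : κ} (hm : sN L ι l ζ (Sum.inl i) O ∈ mx O) :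
    (AA L ι ζ w e O)⁻¹ ∈ mx O ∧ sX L ι i O ∈ mx O := by
  refine ⟨by_contra fun hn => hm.2 ((h.div.rC O hO i).2 hn), ?_⟩
  have h1 := mx_mul_right hm (prod_mem fun j (_ : j ∈ Finset.univ) => h.div.em O hO i j)
  have h2 : (∏ j, EE L ι l ζ i j O) ≠ 0 := Finset.prod_ne_zero_iff.2 fun j _ => ee_ne h hO i j
  exact (div_mul_cancel₀ (sX L ι i O) h2) ▸ h1

theorem of_inr (hO : O ∈ XX L ι ζ w e) {j : Fin 4} (hm : sN L ι l ζ (Sum.inr j) O ∈ mx O) :
    AA L ι ζ w e O ∈ mx O ∧ tau l ζ j O ∈ mx O := by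
  refine ⟨by_contra fun hn => hm.2 ((h.div.rT O hO j).2 hn), ?_⟩
  have h1 := mx_mul_right hm (prod_mem fun i (_ : i ∈ Finset.univ) => h.div.em O hO i j)
  have h2 : (∏ i, EE L ι l ζ i j O) ≠ 0 := Finset.prod_ne_zero_iff.2 fun i _ => ee_ne h hO i j
  exact (div_mul_cancel₀ (tau l ζ j O) h2) ▸ h1

theorem not_both (hO : O ∈ XX L ι ζ w e) (h1 : AA L ι ζ w e O ∈ mx O)
    (h2 : (AA L ι ζ w e O)⁻¹ ∈ mx O) : False :=
  h1.2 ⟨h.loc.ane O hO, h1.1, h2.1⟩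

theorem one (hO : O ∈ XX L ι ζ w e) (i i' : κ ⊕ Fin 4) (h1 : sN L ι l ζ i O ∈ mx O)
    (h2 : sN L ι l ζ i' O ∈ mx O) : i = i' := by
  rcases i with i | j <;> rcases i' with i' | j'
  · rw [h.loc.s1 O hO i i' (of_inl h hO h1).2 (of_inl h hO h2).2]
  · exact (not_both h hO (of_inr h hO h2).1 (of_inl h hO h1).1).elim
  · exact (not_both h hO (of_inr h hO h1).1 (of_inl h hO h2).1).elim
  · rw [h.loc.t1 O hO j j' (of_inr h hO h1).2 (of_inr h hO h2).2]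

theorem pl_inl (hp : XPl L ι l ζ w e) {P : Place k K} (hP : plO P ∈ XX L ι ζ w e) {i : κ}
    (hm : sN L ι l ζ (Sum.inl i) (plO P) ∈ mx (plO P)) :
    (∀ j, IsU (plO P) (tau l ζ j (plO P))) ∧ ∃ P₀ : Place k M, pr ι L.Y (plO P) = plO P₀ ∧
      plO P₀ ∈ L.Y ∧ L.s i (plO P₀) ∈ mx (plO P₀) := by
  obtain ⟨h1, h2⟩ := of_inl h hP hm
  have hR := h.loc.maps.mem hP
  have h3 := (h.loc.maps.mx_up hP (h.ok.sm _ hR i)).1 h2
  refine ⟨fun j => isU_of_not_mx (h.loc.tm _ hP j) fun hj => h1.2 (hp.eA P i j hP h2 hj).inv, ?_⟩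
  rcases hp.pl P hP with h4 | ⟨P₀, h4⟩
  · have h5 := (h.ok.cs i).ne hR
    rw [h4] at h3 h5
    exact (h5 (mem_mx_top.1 h3)).elim
  · exact ⟨P₀, h4, h4 ▸ hR, h4 ▸ h3⟩

theorem pl_inr (hp : XPl L ι l ζ w e) {P : Place k K} (hP : plO P ∈ XX L ι ζ w e) {j : Fin 4}
    (hm : sN L ι l ζ (Sum.inr j) (plO P) ∈ mx (plO P)) :
    tau l ζ j (plO P) ∈ mx (plO P) ∧ pr ι L.Y (plO P) = ⊤ := by
  obtain ⟨h1, h2⟩ := of_inr h hP hm
  exact ⟨h2, hp.top P j hP h2 fun i =>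
    isU_of_not_mx (h.loc.sm _ hP i) fun hi => h1.2 (hp.eA P i j hP hi h2)⟩

theorem uniq (hp : XPl L ι l ζ w e) (i : κ ⊕ Fin 4) (P P' : Place k K)
    (hP : plO P ∈ XX L ι ζ w e) (hP' : plO P' ∈ XX L ι ζ w e)
    (h1 : sN L ι l ζ i (plO P) ∈ mx (plO P)) (h2 : sN L ι l ζ i (plO P') ∈ mx (plO P')) :
    P = P' := by
  rcases i with i | j
  · obtain ⟨a1, Q, a2, a3, a4⟩ := pl_inl h hp hP h1
    obtain ⟨b1, Q', b2, b3, b4⟩ := pl_inl h hp hP' h2
    obtain rfl := h.ok.uniq i Q Q' a3 b3 a4 b4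
    exact hp.uV P P' Q hP hP' a1 b1 a2 b2
  · obtain ⟨a1, a2⟩ := pl_inr h hp hP h1
    obtain ⟨b1, b2⟩ := pl_inr h hp hP' h2
    exact hp.uT P P' j hP hP' a1 a2 b1 b2

theorem prod_s (hO : O ∈ XX L ι ζ w e) :
    ∏ i, sX L ι i O = ι L.φ * ι (L.jj (pr ι L.Y O)) ^ 2 := by
  rw [h.prod_sX, ← h.ok.eqn _ (h.loc.maps.mem hO), map_mul, map_pow]

theorem eqn (hO : O ∈ XX L ι ζ w e) :
    ι L.φ * cb l ζ * (up ι L.Y L.jj O / (eta ζ O ^ 2 * ∏ i, ∏ j, EE L ι l ζ i j O)) ^ 2 =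
      ∏ i, sN L ι l ζ i O := by
  rw [Fintype.prod_sum_type]
  simp only [sN, Sum.elim_inl, Sum.elim_inr, Finset.prod_div_distrib]
  rw [prod_s h hO, prod_tau, Finset.prod_comm (f := fun j i => EE L ι l ζ i j O)]
  unfold up
  ring

theorem gen_U (hO : O ∈ XX L ι ζ w e) : Gn (nx L ι l ζ w e).U O
    (ι (gn L.U (pr ι L.Y O) * (gn L.U (pr ι L.Y O) / L.jj (pr ι L.Y O))) * eta ζ O ^ 2) := by
  have hR := h.loc.maps.mem hO
  have g1 := h.ok.gU _ hR
  have g2 := h.ok.gU' _ hR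
  have g3 := h.loc.gZ O hO
  have e1 : ∀ (u v : M) (b : K), ι (u * v) * b ^ 2 /
      (ι (gn L.U (pr ι L.Y O) * (gn L.U (pr ι L.Y O) / L.jj (pr ι L.Y O))) * eta ζ O ^ 2) =
      ι (u / gn L.U (pr ι L.Y O)) * ι (v / (gn L.U (pr ι L.Y O) / L.jj (pr ι L.Y O))) *
        (b / eta ζ O) ^ 2 := fun u v b => by
    rw [← map_mul, div_mul_div_comm, map_div₀, div_pow, div_mul_div_comm]
  have e2 : ∀ a ∈ (nx L ι l ζ w e).U, ∃ u ∈ L.U, ∃ v ∈ L.U', ∃ b ∈ ({ζ, 1} : Set K),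
      a = ι (u * v) * b ^ 2 := by
    rintro a (⟨u, hu, v, hv, rfl⟩ | ⟨u, hu, v, hv, rfl⟩)
    · exact ⟨u, hu, v, hv, 1, Or.inr rfl, by rw [one_pow, mul_one]⟩
    · exact ⟨u, hu, v, hv, ζ, Or.inl rfl, rfl⟩
  refine ⟨fun a ha => ?_, ?_⟩
  · obtain ⟨u, hu, v, hv, b, hb, rfl⟩ := e2 a ha
    rw [e1]
    exact O.mul_mem (O.mul_mem (h.loc.maps.mem_up hO (g1.1 u hu)) (h.loc.maps.mem_up hO (g2.1 v hv)))
      (O.pow_mem (g3.1 b hb) 2)
  · obtain ⟨u, hu, u1⟩ := g1.2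
    obtain ⟨v, hv, v1⟩ := g2.2
    obtain ⟨b, hb, b1⟩ := g3.2
    refine ⟨ι (u * v) * b ^ 2, ?_, ?_⟩
    · rcases hb with rfl | rfl
      · exact Or.inr ⟨u, hu, v, hv, rfl⟩
      · exact Or.inl ⟨u, hu, v, hv, by rw [one_pow, mul_one]⟩
    · rw [e1]
      exact ((h.loc.maps.isU_up hO u1).mul (h.loc.maps.isU_up hO v1)).mul (b1.pow 2)

end Nxa

open Nxa in
theorem nxa_stmt : NxaStmt := by
  intro k M K Λ κ n _ _ _ _ _ _ _ _ _ L ι l ζ w e h hp he
  subst he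
  have hw : w = cb l ζ := by simpa using h.ext.eq
  have hφ : ι L.φ ≠ 0 := (map_ne_zero ι).2 h.ext.φne
  have hζ : ζ ≠ 0 := h.loc.fam.nz (Sum.inr false) ζ (Or.inl rfl)
  have fS : (SI L ι ζ w 1).Finite := h.loc.fam.fin (Sum.inr true)
  have nS : ∀ a ∈ SI L ι ζ w 1, a ≠ 0 := h.loc.fam.nz (Sum.inr true)
  have nn : ∀ u ∈ L.U, ∀ v ∈ L.U', ι (u * v) ≠ 0 := fun u hu v hv =>
    (map_ne_zero ι).2 (mul_ne_zero (h.ok.nU u hu) (h.ok.nU' v hv))
  refine ⟨⟨Sum.inr 0⟩, h.loc.fam, mul_ne_zero hφ (hw ▸ h.loc.wne), h.div.cartN, ?_,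
    fun O hO => eqn h hO, ?_, fun O hO => one h hO, uniq h hp,
    (h.ok.fU.image2 _ h.ok.fU').union (h.ok.fU.image2 _ h.ok.fU'), fS.image _, ?_, ?_,
    fun O hO => gn_spec (gen_U h hO).prin, fun O hO => ?_⟩
  · have h1 := (h.div.cartU _ h.ok.cj).div ((h.div.cartZ.pow 2).mul
      (isCart_prod (s := Finset.univ) fun i _ => isCart_prod (s := Finset.univ) fun j _ =>
        h.div.cartE i j))
    have h2 : (nx L ι l ζ w 1).jj = up ι L.Y L.jj / (eta ζ ^ 2 * ∏ i, ∏ j, EE L ι l ζ i j) := by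
      funext O
      simp only [nx, Pi.div_apply, Pi.mul_apply, Pi.pow_apply, Finset.prod_apply]
    exact h2 ▸ h1
  · rintro O hO (i | j)
    exacts [(h.div.rC O hO i).1, (h.div.rT O hO j).1]
  · rintro _ (⟨u, hu, v, hv, rfl⟩ | ⟨u, hu, v, hv, rfl⟩)
    exacts [nn u hu v hv, mul_ne_zero (nn u hu v hv) (pow_ne_zero 2 hζ)]
  · rintro _ ⟨a, ha, rfl⟩
    exact mul_ne_zero hφ (nS a ha)
  · have hR := h.loc.maps.mem hO
    have u1 := (gn_spec (gen_U h hO).prin).unit (gen_U h hO)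
    have n1 : ι (gn L.U (pr ι L.Y O)) ≠ 0 := (map_ne_zero ι).2 (h.ok.gU _ hR).ne
    have n2 : ι (L.jj (pr ι L.Y O)) ≠ 0 := (map_ne_zero ι).2 (h.ok.cj.ne hR)
    have n3 : eta ζ O ≠ 0 := (h.loc.gZ O hO).ne
    have n4 : (∏ i, ∏ j, EE L ι l ζ i j O) ≠ 0 :=
      Finset.prod_ne_zero_iff.2 fun i _ => Finset.prod_ne_zero_iff.2 fun j _ => ee_ne h hO i j
    have n5 := h.loc.wne
    rcases h.loc.aa O hO with ha | ha
    · refine (((h.loc.gS O hO).1 ha).smul hφ).of_unit ?_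
      have u2 := u1.div (h.div.pC O hO ha)
      rw [prod_s h hO] at u2
      have e1 : gn (nx L ι l ζ w 1).U O / (nx L ι l ζ w 1).jj O / (ι L.φ * NN L ι ζ 1 O) =
          gn (nx L ι l ζ w 1).U O / (ι (gn L.U (pr ι L.Y O) *
            (gn L.U (pr ι L.Y O) / L.jj (pr ι L.Y O))) * eta ζ O ^ 2) /
            (ι L.φ * ι (L.jj (pr ι L.Y O)) ^ 2 / ∏ i, ∏ j, EE L ι l ζ i j O) := by
        generalize gn (nx L ι l ζ w 1).U O = γ
        simp only [nx, NN, up, map_mul, map_pow, map_div₀, Nat.reduceSub, Nat.reduceMul]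
        field_simp
      exact e1 ▸ u2
    · refine (((h.loc.gS O hO).2 ha).smul hφ).of_unit ?_
      have u2 := u1.div (h.div.pT O hO ha)
      rw [prod_tau, ← hw] at u2
      have e1 : gn (nx L ι l ζ w 1).U O / (nx L ι l ζ w 1).jj O /
          (ι L.φ * (NN L ι ζ 1 O * AA L ι ζ w 1 O)) =
          gn (nx L ι l ζ w 1).U O / (ι (gn L.U (pr ι L.Y O) *
            (gn L.U (pr ι L.Y O) / L.jj (pr ι L.Y O))) * eta ζ O ^ 2) /
            (w / eta ζ O ^ 4 / ∏ i, ∏ j, EE L ι l ζ i j O) := by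
        generalize gn (nx L ι l ζ w 1).U O = γ
        simp only [nx, NN, AA, up, map_mul, map_pow, map_div₀, Nat.reduceSub, Nat.reduceMul]
        field_simp
      exact e1 ▸ u2

end Pool.Agent.MP_20d318_ag.CH

end PartNxa

section PartNxb

/-! The volume form and the coordinates of the next level. -/

set_option autoImplicit false
set_option linter.unusedSectionVars false

namespace Pool.Agent.MP_20d318_ag.CH

open Pool.Agent.MP_fd6584_ag.Fn Pool.Agent.CBk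
open Pool.Agent.MP_fd6584_ag.AG hiding deg_inv deg_congr deg_of_unit deg_mul deg_prod deg_zpow
  deg_eq_zero deg_nonneg deg_div deg_pow

namespace NxbR

variable {k M K Λ κ : Type} {n : ℕ} [Field k] [Field M] [Field K] [Algebra k M] [Algebra k K]
  [Fintype κ] {L : Lv k M Λ κ n} {ι : M →ₐ[k] K} {l : k} {ζ w : K}

theorem prod_sN (O : Subalgebra k K) : ∏ i, sN L ι l ζ i O =
    (∏ i, sX L ι i O) / (∏ i, ∏ j, EE L ι l ζ i j O) *
      ((∏ j, tau l ζ j O) / ∏ i, ∏ j, EE L ι l ζ i j O) := by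
  rw [Fintype.prod_sum_type]
  simp only [sN, Sum.elim_inl, Sum.elim_inr, Finset.prod_div_distrib]
  rw [Finset.prod_comm (s := (Finset.univ : Finset (Fin 4)))]

theorem wt_unit (h : All L ι l ζ w 1) {O : Subalgebra k K} (hO : O ∈ XX L ι ζ w 1) :
    IsU O (wt 1 O (AA L ι ζ w 1 O) (∏ i, sX L ι i O) / ∏ i, ∏ j, EE L ι l ζ i j O) := by
  unfold wt
  split_ifs with q
  · rw [Nat.sub_self, pow_zero, one_mul]
    exact h.div.pC O hO q
  · have e := h.loc.eqn O hO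
    rw [pow_one] at e
    rw [e]
    exact h.div.pT O hO ((h.loc.aa O hO).resolve_left q)

theorem one (hD : Der) (h : All L ι l ζ w 1) (hv : XVol L ι l ζ w 1) :
    (∀ O ∈ XX L ι ζ w 1, Crd O (∏ i, sN L ι l ζ i O)) ∧ ∃ j, j ≠ 0 ∧
      Vol (XX L ι ζ w 1) (nx L ι l ζ w 1).y fun O => j / (nx L ι l ζ w 1).jj O := by
  obtain ⟨j, hj, hv⟩ := hv
  refine ⟨fun O hO => ?_, ι j, (map_ne_zero ι).2 hj, fun δ hδ O hO => ?_⟩
  · obtain ⟨δ, hδ⟩ := hD.ex k K (n + 1 + 2) (nx L ι l ζ w 1).y (h.fld.ind _ L.y h.ok.ind)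
      (h.fld.top rfl _ L.y h.ok.top)
    obtain ⟨c, h1, h2, h3⟩ := hv δ hδ O hO
    have h4 : ∀ t, t = AA L ι ζ w 1 O ∨ t = (AA L ι ζ w 1 O)⁻¹ → Crd O t := fun t ht hm => by
      obtain ⟨i, rfl⟩ := h3 t hm ht
      exact hD.dual k K _ O δ c h1 (right_ne_zero_of_mul h2.ne) i hm
    have e := h.loc.eqn O hO
    have h0 := h.loc.ane O hO
    rw [pow_one] at e
    rw [prod_sN]
    rcases h.loc.aa O hO with q | q
    · have h5 := (h4 _ (.inl rfl)).of_unit (h.gX.loc O hO) q ((h.div.pC O hO q).pow 2)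
      rw [← e]
      refine Eq.subst (motive := Crd O) ?_ h5
      ring
    · have h5 := (h4 _ (.inr rfl)).of_unit (h.gX.loc O hO) q ((h.div.pT O hO q).pow 2)
      rw [← e] at h5 ⊢
      refine Eq.subst (motive := Crd O) ?_ h5
      field_simp
  · obtain ⟨c, h1, h2, -⟩ := hv δ hδ O hO
    have h3 := wt_unit h hO
    refine ⟨c, h1, Eq.subst (motive := IsU O) ?_ (h2.div h3)⟩
    obtain ⟨h4, h5⟩ := div_ne_zero_iff.1 h3.ne
    have h6 := (div_ne_zero_iff.1 (left_ne_zero_of_mul h2.ne)).2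
    change _ = ι j / (up ι L.Y L.jj O / (eta ζ O ^ 2 * ∏ i, ∏ j, EE L ι l ζ i j O)) * dt δ c
    field_simp

theorem two (h : All L ι l ζ w 2) (hv : XVol L ι l ζ w 2) :
    ∃ j, j ≠ 0 ∧ Vol (XX L ι ζ w 2) (nx L ι l ζ w 2).y fun _ => j := by
  obtain ⟨j, hj, hv⟩ := hv
  refine ⟨ι j * w, mul_ne_zero ((map_ne_zero ι).2 hj) h.loc.wne, fun δ hδ O hO => ?_⟩
  obtain ⟨c, h1, h2, -⟩ := hv δ hδ O hO
  refine ⟨c, h1, Eq.subst (motive := IsU O) (congrArg (· * dt δ c) ?_) h2⟩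
  have e1 : wt 2 O (AA L ι ζ w 2 O) (∏ i, sX L ι i O) = AA L ι ζ w 2 O * ∏ i, sX L ι i O := by
    unfold wt
    split_ifs
    · rw [pow_one]
    · rfl
  have e2 : AA L ι ζ w 2 O = w / (ι (L.φ * L.jj (pr ι L.Y O) ^ 1) * eta ζ O ^ 2) := rfl
  have e3 : up ι L.Y L.jj O = ι (L.jj (pr ι L.Y O)) := rfl
  have h0 := h.loc.ane O hO
  rw [e1, h.prod_sX, ← h.ok.eqn _ (h.loc.maps.mem hO), e3, e2]
  rw [e2] at h0
  obtain ⟨h3, h4⟩ := mul_ne_zero_iff.1 (div_ne_zero_iff.1 h0).2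
  rw [pow_one, map_mul] at h3 ⊢
  obtain ⟨h5, h6⟩ := mul_ne_zero_iff.1 h3
  have h7 := (pow_ne_zero_iff two_ne_zero).1 h4
  rw [map_mul, map_pow]
  field_simp

end NxbR

theorem nxb_stmt : NxbStmt := fun hD _ _ _ _ _ _ _ _ _ _ _ _ _ _ _ _ _ _ _ _ _ h hv =>
  ⟨by rintro rfl; exact NxbR.one hD h hv, by rintro rfl; exact NxbR.two h hv⟩

end Pool.Agent.MP_20d318_ag.CH

end PartNxb

section PartGra

/-! Row GRA: a curve over a given curve, along the graph of a function. -/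

set_option autoImplicit false
set_option linter.unusedSectionVars false

namespace Pool.Agent.MP_20d318_ag.CH

open Pool.Agent.MP_fd6584_ag.Fn Pool.Agent.CBk
open Pool.Agent.MP_fd6584_ag.AG hiding deg_inv deg_congr deg_of_unit deg_mul deg_prod deg_zpow
  deg_eq_zero deg_nonneg deg_div deg_pow
open Pool.Agent.CBk.XTst (mem_of_dom zor tau_unit)

namespace GraA

theorem algM_of_sub {k K : Type} [Field k] [Field K] [Algebra k K] {O B : Subalgebra k K}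
    {a b : K} (hb : b ∈ B) (h : a - b ∈ mx O) : AlgM O B a := by
  refine ⟨Polynomial.X - Polynomial.C b, fun i => ?_, ⟨1, ?_⟩, by simpa using h⟩
  · rw [Polynomial.coeff_sub, Polynomial.coeff_X, Polynomial.coeff_C]
    refine B.sub_mem ?_ ?_
    · split_ifs
      exacts [B.one_mem, B.zero_mem]
    · split_ifs
      exacts [hb, B.zero_mem]
  · simpa using isU_one

end GraA

theorem gra_stmt : GraStmt := by
  intro k M K Λ κ n _ _ _ _ _ _ _ _ _ L ι l ζ w e h P u hP hd1 hi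
  classical
  have htr : Tr ι (ζ - ι u) := by
    have := h.ext.tr.lin (a := 1) one_ne_zero (-u)
    rwa [map_one, one_mul, map_neg, ← sub_eq_add_neg] at this
  obtain ⟨V, hV, hd, hv⟩ := (up_stmt k M K ι (plO P) (ζ - ι u) (h.gY.loc _ hP) htr).1 0
  rw [map_zero, sub_zero] at hv
  obtain ⟨O, hO, hOV, he⟩ := h.below hP hV hd
  have hl := h.gX.loc O hO
  have hu0 : u ∈ pr ι L.Y O := he ▸ (by simpa using hi.1 0)
  have hu1 : ι u ∈ O := h.loc.maps.mem_up hO hu0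
  have hz : ζ ∈ O := mem_of_dom hOV (zor (h.loc.zm O hO))
    (by simpa using V.add_mem hv.1 (hOV.1 hu1))
  have hv' : ζ - ι u ∈ mx O := mx_of_le hOV.1 (O.sub_mem hz hu1) hv
  have hu : ∀ j, IsU O (tau l ζ j O) := tau_unit hz fun c _ => by
    have h1 : IsU (pr ι L.Y O) (u - algebraMap k M c) := he ▸ ind_one hi c
    have h2 := (h.loc.maps.isU_up hO h1).add_mx hl hv'
    rwa [map_sub, AlgHom.commutes, sub_add_sub_cancel'] at h2
  have h1 : Dim O 1 := h.loc.dimZ O hO 1 (he ▸ hd1)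
    (GraA.algM_of_sub (b := ι u) ⟨u, hu0, rfl⟩ (by rwa [zc, if_pos hz])) fun ⟨hA, i, hs⟩ => by
      have h2 : ∏ i, sX L ι i O ∈ mx O := by
        rw [← Finset.mul_prod_erase _ _ (Finset.mem_univ i)]
        exact mx_mul_right hs (O.prod_mem fun j _ => h.loc.sm O hO j)
      have := mx_mul_left (O.pow_mem hA.mem e) h2
      rw [h.loc.eqn O hO] at this
      exact this.2 (isU_prod fun j _ => hu j)
  have h0 : ¬ Dim O 0 := fun h0 => (he ▸ h0.comap (h.loc.maps.dom hO) : Dim (plO P) 0) ⟨![u], hi⟩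
  obtain ⟨ν, rfl⟩ := curve_stmt k K _ h.gX O hO h1 h0
  exact ⟨ν, he, hv'⟩

end Pool.Agent.MP_20d318_ag.CH

end PartGra

section PartGrb

/-! The degrees of the graph curves. -/

set_option autoImplicit false
set_option linter.unusedSectionVars false

namespace Pool.Agent.MP_20d318_ag.CH

open Pool.Agent.MP_fd6584_ag.Fn Pool.Agent.CBk
open Pool.Agent.MP_fd6584_ag.AG hiding deg_inv deg_congr deg_of_unit deg_mul deg_prod deg_zpow
  deg_eq_zero deg_nonneg deg_div deg_pow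

namespace GrbR

variable {k M K Λ κ : Type} {n : ℕ} [Field k] [IsAlgClosed k] [Field M] [Field K]
  [Algebra k M] [Algebra k K] [Fintype κ]

/-- The four sections. -/
abbrev sg (l : k) (s₀ s₃ : M) (j : Fin 4) : M := ![s₀, s₀ - s₃, s₀ - l • s₃, s₃] j

theorem degV {X : Set (Subalgebra k K)} {f g : Subalgebra k K → K} (hX : Good X) (hf : IsCart X f)
    (hg : IsCart X g) (ν : Curve X) (uf : IsU ν.gen (f ν.gen)) (ug : IsU ν.gen (g ν.gen))
    (h : ∀ Q : Place k ν.L, Q.v (ν.ev (f (ν.pt Q))) = Q.v (ν.ev (g (ν.pt Q)))) :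
    ν.deg f = ν.deg g := by
  rw [deg_of_unit hX hf ν uf, deg_of_unit hX hg ν ug]
  exact finsum_congr fun Q => by unfold Place.ord; rw [h Q]

theorem cartU {X : Set (Subalgebra k K)} {f : Subalgebra k K → K} (hf : IsCart X f) (ν : Curve X)
    (uf : IsU ν.gen (f ν.gen)) {O : Subalgebra k K} (hO : O ∈ X) (hle : O ≤ ν.gen) :
    IsU ν.gen (f O) := by
  have := (hf.unit hO ν.gen_mem hle).mul uf
  rwa [div_mul_cancel₀ _ uf.1] at this

variable {p : Lv k M Λ κ n} {ι : M →ₐ[k] K} {l : k} {ζ w : K} {ε : ℕ} {e : Fin 4 ≃ κ}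
  {s₀ s₃ : M} {P : Place k M} {ν : Curve (XX p ι ζ w ε)} (h : All p ι l ζ w ε)
  (g : G2 p l e s₀ s₃ P) (hP : pr ι p.Y ν.gen = plO P) (hz : ζ - ι (s₀ / s₃) ∈ mx ν.gen)

include h g hP

theorem sG (i : κ) : IsU ν.gen (sX p ι i ν.gen) := by
  refine h.loc.maps.isU_up ν.gen_mem ?_
  rw [hP]
  exact g.su i

include hz

theorem core {O : Subalgebra k K} (hO : O ∈ XX p ι ζ w ε) (hle : O ≤ ν.gen) :
    ∃ (t : Fin 4 → ν.L) (u : Fin 4 → K), (∀ j, IsU O (u j)) ∧ (∀ j, t j ≠ 0) ∧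
      (∀ j, t j = ν.ev (u j) * ν.ev (sX p ι (e j) O)) ∧ ζ ∈ ν.gen ∧
      ∀ j, ![ζ, ζ - 1, ζ - algebraMap k K l, 1] j ∈ ν.gen ∧
        ν.ev (![ζ, ζ - 1, ζ - algebraMap k K l, 1] j) = t j / t 3 := by
  have hX := h.loc.fine.toGood
  have m := h.loc.maps
  have hR := m.mem hO
  have hl : pr ι p.Y O ≤ plO P :=
    hP ▸ pr_mono h.gY hX m hO ν.gen_mem hle
  obtain ⟨lam, l0, hcg⟩ := g.cg _ hR hl
  choose hs v hv hc using hcg
  have hT : ∀ j, ι (sg l s₀ s₃ j * lam) ∈ ν.gen := fun j => hle (m.mem_up hO (hs j))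
  have hu : ∀ j, IsU O (ι (v j)) := fun j => m.isU_up hO (hv j)
  have hsO : ∀ j, IsU ν.gen (sX p ι (e j) O) := fun j =>
    cartU (h.div.cartS _) ν (sG h g hP _) hO hle
  have e1 : ∀ j, ν.ev (ι (sg l s₀ s₃ j * lam)) = ν.ev (ι (v j)) * ν.ev (sX p ι (e j) O) :=
    fun j => by
      have h1 : sg l s₀ s₃ j * lam - v j * p.s (e j) (pr ι p.Y O) ∈ mx (plO P) := hc j
      rw [← hP] at h1
      have h2 := (m.mx_up ν.gen_mem h1.1).2 h1
      have h3 := (ev_eq_zero ν h2.1).2 h2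
      rw [map_sub, map_mul ι (v j), show ι (p.s (e j) (pr ι p.Y O)) = sX p ι (e j) O from rfl,
        ν.ev_eq, evO_sub _ (hT j)
        (mul_mem (hle (hu j).mem) (hsO j).mem), sub_eq_zero,
        evO_mul _ (hle (hu j).mem) (hsO j).mem] at h3
      exact h3
  have t0 : ∀ j, ν.ev (ι (sg l s₀ s₃ j * lam)) ≠ 0 := fun j =>
    e1 j ▸ mul_ne_zero (evO_ne _ ((hu j).mono hle)) (evO_ne _ (hsO j))
  have u3 : IsU ν.gen (ι (s₃ * lam)) :=
    isU_of_not_mx (hT 3) fun hm => t0 3 ((ev_eq_zero ν (hT 3)).2 hm)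
  have e2 : ι (s₀ / s₃) = ι (s₀ * lam) / ι (s₃ * lam) := by
    rw [← map_div₀, mul_div_mul_right _ _ l0]
  have m0 : ι (s₀ * lam) ∈ ν.gen := hT 0
  have m1 : ι (s₀ / s₃) ∈ ν.gen := e2 ▸ u3.div_mem m0
  have mζ : ζ ∈ ν.gen := by simpa using add_mem hz.1 m1
  have e3 : ν.ev ζ = ν.ev (ι (s₀ * lam)) / ν.ev (ι (s₃ * lam)) := by
    have h3 := (ev_eq_zero ν hz.1).2 hz
    rwa [ν.ev_eq, evO_sub _ mζ m1, sub_eq_zero, e2, evO_div _ m0 u3] at h3
  have e4 : ∀ c : k, ν.ev (ζ - algebraMap k K c) =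
      ν.ev (ι ((s₀ - c • s₃) * lam)) / ν.ev (ι (s₃ * lam)) := fun c => by
    have d0 : evO ν.gen ν.ρ (ι (s₃ * lam)) ≠ 0 := evO_ne _ u3
    rw [ev_sub_const ν mζ, e3, sub_mul, smul_mul_assoc, Algebra.smul_def, map_sub, map_mul ι
      (algebraMap k M c), AlgHom.commutes, ν.ev_eq, ν.ev_eq, ν.ev_eq, evO_sub _ m0
      (mul_mem (algebraMap_mem _ c) u3.mem), evO_mul _ (algebraMap_mem _ c) u3.mem, evO_const,
      sub_div, mul_div_cancel_right₀ _ d0]
  refine ⟨fun j => ν.ev (ι (sg l s₀ s₃ j * lam)), fun j => ι (v j), hu, t0, e1, mζ, fun j => ?_⟩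
  fin_cases j
  · exact ⟨mζ, e3⟩
  · refine ⟨sub_mem mζ (one_mem _), ?_⟩
    have := e4 1
    rw [map_one, one_smul] at this
    exact this
  · exact ⟨sub_mem mζ (algebraMap_mem _ l), e4 l⟩
  · exact ⟨one_mem _, (evO_one _).trans (div_self (t0 3)).symm⟩

theorem tG (j : Fin 4) : IsU ν.gen (tau l ζ j ν.gen) := by
  obtain ⟨t, u, -, t0, -, mζ, h1⟩ := core h g hP hz ν.gen_mem le_rfl
  unfold tau eta
  rw [if_pos mζ, div_one]
  exact isU_of_not_mx (h1 j).1 fun hm => div_ne_zero (t0 j) (t0 3)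
    ((h1 j).2 ▸ (ev_eq_zero ν (h1 j).1).2 hm)

theorem key (Q : Place k ν.L) (j : Fin 4) :
    Q.v (ν.ev (tau l ζ j (ν.pt Q))) = Q.v (ν.ev (sX p ι (e j) (ν.pt Q))) := by
  have hO := ν.pt_mem Q
  obtain ⟨t, u, hu, t0, e1, mζ, h1⟩ := core h g hP hz hO (ν.pt_le Q)
  have v1 : ∀ j, Q.v (t j) = Q.v (ν.ev (sX p ι (e j) (ν.pt Q))) := fun j => by
    rw [e1, map_mul, (ν.v_eq_one_iff Q (hu j).mem).2 (hu j), one_mul]
  have v2 : ∀ j, Q.v (t j) ≤ 1 := fun j => v1 j ▸ ν.v_le Q (h.loc.sm _ hO _)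
  have v0 : ∀ j, 0 < Q.v (t j) := fun j => (Valuation.pos_iff _).2 (t0 j)
  have v3 : Q.v (t 0) = 1 ∨ Q.v (t 3) = 1 := by
    rw [v1, v1, ν.v_eq_one_iff Q (h.loc.sm _ hO _), ν.v_eq_one_iff Q (h.loc.sm _ hO _)]
    by_contra hn
    have := e.injective (h.loc.s1 _ hO _ _ ⟨h.loc.sm _ hO _, fun a => hn (.inl a)⟩
      ⟨h.loc.sm _ hO _, fun a => hn (.inr a)⟩)
    exact absurd this (by decide)
  have eζ : ν.ev ζ = t 0 / t 3 := (h1 0).2
  have hm := h.loc.zm _ hO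
  unfold zc at hm
  unfold tau eta
  split_ifs at hm ⊢ with c
  · have h2 := ν.v_le Q hm
    rw [eζ, map_div₀, div_le_one₀ (v0 3)] at h2
    rw [div_one, (h1 j).2, map_div₀, v3.elim (fun a => le_antisymm (v2 3) (a ▸ h2)) id, div_one,
      v1]
  · have uζ : IsU ν.gen ζ := isU_of_not_mx mζ fun a => div_ne_zero (t0 0) (t0 3)
      (eζ ▸ (ev_eq_zero ν mζ).2 a)
    have h2 := ν.v_le Q hm
    rw [ν.ev_eq, evO_inv _ uζ, ← ν.ev_eq, eζ, inv_div, map_div₀, div_le_one₀ (v0 0)] at h2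
    rw [ev_div ν (h1 j).1 uζ, (h1 j).2, eζ, div_div_div_cancel_right₀ (t0 3), map_div₀,
      v3.elim id fun a => le_antisymm (v2 0) (a ▸ h2), div_one, v1]

theorem keyE (Q : Place k ν.L) (j : Fin 4) :
    Q.v (ν.ev (EE p ι l ζ (e j) j (ν.pt Q))) = Q.v (ν.ev (sX p ι (e j) (ν.pt Q))) := by
  have hO := ν.pt_mem Q
  have uE := cartU (h.div.cartE (e j) j) ν (h.div.eu _ ν.gen_mem _ _ (.inl (sG h g hP _))) hO
    (ν.pt_le Q)
  have h0 : Q.v (ν.ev (EE p ι l ζ (e j) j (ν.pt Q))) ≠ 0 :=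
    (Valuation.ne_zero_iff _).2 (evO_ne _ uE)
  obtain ⟨a, ha, hu⟩ := (h.div.gE _ hO (e j) j).2
  have h1 := (ν.v_eq_one_iff Q hu.mem).2 hu
  rcases ha with rfl | rfl
  · rw [ev_div ν (ν.pt_le Q (h.loc.sm _ hO _)) uE, map_div₀, div_eq_one_iff_eq h0] at h1
    exact h1.symm
  · rw [ev_div ν (ν.pt_le Q (h.loc.tm _ hO _)) uE, map_div₀, div_eq_one_iff_eq h0] at h1
    exact h1.symm.trans (key h g hP hz Q j)

end GrbR

open GrbR in
theorem grb_stmt : GrbStmt := by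
  intro k M K Λ κ n _ _ _ _ _ _ _ _ _ p ι l ζ w ε h e s₀ s₃ P ν g hP hz
  have hX := h.gX
  refine ⟨fun j => ?_, fun i j => ?_⟩
  · exact (h.div.degT ν j).symm.trans (degV hX (h.div.cartT j) (h.div.cartS _) ν (tG h g hP hz j)
      (sG h g hP _) fun Q => key h g hP hz Q j)
  · split_ifs with c
    · subst c
      exact degV hX (h.div.cartE _ j) (h.div.cartS _) ν
        (h.div.eu _ ν.gen_mem _ _ (.inl (sG h g hP _))) (sG h g hP _)
        fun Q => keyE h g hP hz Q j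
    · rw [deg_of_unit hX (h.div.cartE i j) ν (h.div.eu _ ν.gen_mem _ _ (.inl (sG h g hP _)))]
      refine finsum_eq_zero_of_forall_eq_zero fun Q => ν.ord_unit Q ?_
      have hO := ν.pt_mem Q
      refine h.div.eu _ hO i j ((isU_or_mx (h.loc.sm _ hO i)).imp_right fun a => ?_)
      rw [← ν.v_eq_one_iff Q (h.loc.tm _ hO j), key h g hP hz,
        ν.v_eq_one_iff Q (h.loc.sm _ hO _)]
      exact isU_of_not_mx (h.loc.sm _ hO _) fun a' => c (h.loc.s1 _ hO _ _ a a')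

end Pool.Agent.MP_20d318_ag.CH

end PartGrb
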