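import Pool.Agent.MP_20d318_ag.CH.BSpec

/-! The surface satisfies the induction hypothesis. -/

set_option autoImplicit false
set_option linter.unusedSectionVars false

namespace Pool.Agent.MP_20d318_ag.CH

open Pool.Agent.MP_fd6584_ag.Fn Pool.Agent.CBk
open Pool.Agent.MP_fd6584_ag.AG hiding deg_inv deg_congr deg_of_unit deg_mul deg_prod deg_zpow
  deg_eq_zero deg_nonneg deg_div deg_pow
open Pool.Agent.MP_20d318_ag.CB.P (Pd Pair0 Cht Jc)

namespace Bs0

variable {k M I κ : Type} [Field k] [Field M] [Algebra k M] [Fintype I] [Fintype κ]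
  {p : Pd k M I κ}

theorem range_pair (a b : M) : Set.range ![a, b] = {a, b} := by
  ext z
  simp only [Set.mem_insert_iff, Set.mem_singleton_iff, Set.mem_range, Fin.exists_fin_two,
    Matrix.cons_val_zero, Matrix.cons_val_one, eq_comm]

theorem smo {O : Subalgebra k M} {a b : M} (h : Cht O a b) : Algebra.FormallySmooth k O := by
  refine (et_stmt k M 2 ![a, b] (![a, b] 0) (MvPolynomial.X none - MvPolynomial.X (some 0)) O h.1.ind
    (by simp) ?_ ?_).1
  · rw [Set.insert_eq_of_mem (Set.mem_range_self 0), range_pair]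
    exact h.2
  · have e : MvPolynomial.pderiv none (MvPolynomial.X none - MvPolynomial.X (some 0) :
        MvPolynomial (Option (Fin 2)) k) = 1 := by simp
    rw [e, map_one]
    exact isU_one

theorem gens (hJ : Jc k M) {O : Subalgebra k M} {a b : M} (h : Cht O a b)
    (δ : Derivation k M (Fin 2 → M)) : Gens O δ ![a, b] := by
  refine ⟨fun i => h.2.2.1 (Algebra.subset_adjoin (range_pair a b ▸ Set.mem_range_self i)),
    fun c hc => ?_⟩
  obtain ⟨r, hr, s, hs, e⟩ := hJ.mem O a b h c hc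
  refine ⟨![r, s], fun i => by fin_cases i <;> assumption, funext fun i => ?_⟩
  have := e ((LinearMap.proj i : (Fin 2 → M) →ₗ[M] M).compDer δ)
  rw [Fin.sum_univ_two]
  exact this

theorem dt_mul (hD : Der) (h : Pair0 p) (δ : Derivation k M (Fin 2 → M))
    (hδ : ∀ i, δ (![p.x, p.y] i) = Pi.single i 1) (a b : M) :
    p.j p.x p.y * dt δ ![a, b] = p.j a b := by
  have ht : IntermediateField.adjoin k (Set.range ![p.x, p.y]) = ⊤ := by
    rw [range_pair]; exact h.gen.top
  have c : ∀ (Δ : Derivation k M M) (c : M), Δ c = δ c 0 * Δ p.x + δ c 1 * Δ p.y := fun Δ c => by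
    have := hD.chain k M M M 2 ![p.x, p.y] δ (AlgHom.id k M) Δ ht hδ c
    rw [Fin.sum_univ_two] at this
    exact this
  have e : dt δ ![a, b] = δ a 0 * δ b 1 - δ a 1 * δ b 0 := Matrix.det_fin_two _
  rw [e]
  unfold Pd.j RS.jac
  rw [c p.D₁ a, c p.D₁ b, c p.D₂ a, c p.D₂ b]
  ring

theorem okA (h : Pair0 p) : OkA (lv0 p) where
  ne := ⟨p.k0⟩
  fam := h.all.s.fam
  φne := h.φne
  cs i := (h.prm i).elim fun _ hP => h.all.a1.pcart _ _ hP.1
  cj := h.all.a1.pcart _ _ h.ωne
  eqn := h.eqn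
  sm _ hR i := CC.s_mem h hR i
  one := h.one
  uniq i P P' hP hP' m m' := (h.prm i).elim fun Q hQ =>
    (h.all.a1.peq _ _ Q hQ P hP m).trans (h.all.a1.peq _ _ Q hQ P' hP' m').symm
  fU := h.fU
  fU' := h.fU'.image _
  nU := h.nU
  nU' := by
    rintro _ ⟨a, ha, rfl⟩
    exact mul_ne_zero h.φne (h.nU' a ha)
  gU := h.gU
  gU' R hR := by
    have g := (h.gU' R hR).smul h.φne
    rw [← mul_div_assoc, mul_div_mul_left _ _ h.φne] at g
    exact g

end Bs0

open Bs0 in
theorem bs0_stmt : Bs0Stmt := by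
  intro hD k M I κ _ _ _ _ _ _ _ p h hT
  refine ⟨okA h, h.gen.ind, ?_, fun i => ?_, fun l h0 h1 => CB.P.mw_stmt k M I κ p l h h0 h1,
    fun R hR => ?_, fun R hR => CB.P.XSmA.crd h hR (mp_loc hR), p.j p.x p.y, h.jne,
    fun δ hδ O hO => ?_⟩
  · exact (congrArg _ (range_pair p.x p.y)).trans h.gen.top
  · obtain ⟨P, hP⟩ := h.prm i
    obtain ⟨O, hO, hr, hle⟩ := hT.rat P hP.2.1
    exact ⟨O, hO, hr, (h.all.a1.pmx _ _ P hP O hO).2 hle⟩
  · obtain ⟨a, b, hc⟩ := h.all.a1.chart R hR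
    exact smo hc
  · obtain ⟨a, b, hc⟩ := h.all.a1.chart O hO
    refine ⟨![a, b], gens h.all.jc hc δ, ?_⟩
    have u := h.chart O hO a b hc
    rw [← dt_mul hD h δ hδ a b, mul_div_right_comm] at u
    exact u

end Pool.Agent.MP_20d318_ag.CH
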