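import Pool.Agent.MP_20d318_ag.CH.Spec

/-! Integral and effective classes of the next level. -/

set_option autoImplicit false
set_option linter.unusedSectionVars false

namespace Pool.Agent.MP_20d318_ag.CH

open Pool.Agent.MP_fd6584_ag.Fn Pool.Agent.CBk
open Pool.Agent.MP_fd6584_ag.AG hiding deg_inv deg_congr deg_of_unit deg_mul deg_prod deg_zpow
  deg_eq_zero deg_nonneg deg_div deg_pow
open Pool.Agent.MVg (Sc)

namespace Cln

section general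

variable {k K : Type} [Field k] [IsAlgClosed k] [Field K] [Algebra k K] {X : Set (Subalgebra k K)}

theorem cl_pow (hX : Good X) {f g : Subalgebra k K → K} (hf : IsCart X f) (hg : IsCart X g) (N : ℕ)
    {μ : K} (hμ : μ ≠ 0) (h : ∀ O ∈ X, IsU O (f O ^ N / (μ * g O))) :
    (N : ℝ) • cl X f = cl X g :=
  n1_ext fun ν => by
    have h1 : ν.deg (f ^ N) = ν.deg fun O => μ * g O :=
      deg_congr hX (hf.pow N) ((isCart_const hμ).mul hg) h ν
    rw [deg_pow hX hf, deg_cmul hX hg hμ] at h1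
    rw [map_smul, cl_val hf, cl_val hg, ← h1, smul_eq_mul]
    push_cast
    rfl

theorem cl_ef (hX : Good X) {g : Subalgebra k K → K} (hg : IsCart X g) {m : K} (hm : m ≠ 0)
    (h : Sc X (g ^ 2) m) : cl X g ∈ Glue.Ef X := by
  have hc : IsCart X fun O => m * (g ^ 2) O := (isCart_const hm).mul (hg.pow 2)
  have h1 : cl X g = (2⁻¹ : ℝ) • cl X fun O => m * (g ^ 2) O := n1_ext fun ν => by
    rw [map_smul, cl_val hg, cl_val hc, deg_cmul hX (hg.pow 2) hm, deg_pow hX hg, smul_eq_mul]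
    push_cast
    ring
  rw [h1]
  exact (Lat.isCone_cone _).smul _ (by norm_num) _ (cl_eff hc h)

end general

variable {k M K Λ κ : Type} {n : ℕ} [Field k] [IsAlgClosed k] [Field M] [Field K] [Algebra k M]
  [Algebra k K] [Fintype κ] {L : Lv k M Λ κ n} {ι : M →ₐ[k] K} {l : k} {ζ w : K} {e : ℕ}

theorem gen (h : All L ι l ζ w e) (hc : XCls L ι l ζ w e) {f : Subalgebra k K → K}
    (hf : IsCart (XX L ι ζ w e) f) : ∃ (N : ℕ) (g : Subalgebra k M → M) (t : ℤ)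
      (a : κ → Fin 4 → ℤ) (μ : K), 0 < N ∧ IsCart L.Y g ∧ μ ≠ 0 ∧
      (∀ O ∈ XX L ι ζ w e, IsU O (f O ^ N / (μ * lb L ι l ζ g t a O))) ∧
      (N : ℝ) • cl _ f = h.Phi (cl _ g, t, fun i j => a i j) := by
  obtain ⟨N, g, t, a, μ, h1, h2, h3, h4⟩ := hc f hf
  exact ⟨N, g, t, a, μ, h1, h2, h3, h4,
    (cl_pow h.gX hf (h.div.cartW g t a h2) N h3 h4).trans (h.phi_lb h2 t a).symm⟩

theorem cls (h : All L ι l ζ w e) (hc : XCls L ι l ζ w e) (x : N1 (XX L ι ζ w e))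
    (hx : x ∈ AddSubgroup.closure (Set.range Cartier.n1)) :
    ∃ N : ℕ, 0 < N ∧ ∃ D ∈ L.nd.LW, (N : ℝ) • x = h.Phi D := by
  induction hx using AddSubgroup.closure_induction with
  | mem x hx =>
    obtain ⟨D, rfl⟩ := hx
    obtain ⟨N, g, t, a, μ, h1, h2, -, -, h5⟩ := gen h hc D.isCart
    exact ⟨N, h1, (cl _ g, t, fun i j => a i j),
      (Nd.mem_LW _).2 ⟨cl_mem h2, ⟨t, rfl⟩, fun i j => ⟨a i j, rfl⟩⟩, by rw [n1_eq, h5]⟩
  | zero => exact ⟨1, one_pos, 0, zero_mem _, by rw [smul_zero, map_zero]⟩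
  | add x y _ _ hx hy =>
    obtain ⟨N, h1, D, h2, h3⟩ := hx
    obtain ⟨N', h1', D', h2', h3'⟩ := hy
    refine ⟨N * N', Nat.mul_pos h1 h1', (N' : ℝ) • D + (N : ℝ) • D',
      add_mem ((IZ.nat N').smul_mem h2) ((IZ.nat N).smul_mem h2'), ?_⟩
    rw [map_add, map_smul, map_smul, ← h3, ← h3', smul_smul, smul_smul, smul_add, Nat.cast_mul,
      mul_comm (N' : ℝ)]
  | neg x _ hx =>
    obtain ⟨N, h1, D, h2, h3⟩ := hx
    exact ⟨N, h1, -D, neg_mem h2, by rw [smul_neg, map_neg, h3]⟩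

theorem dn (h : All L ι l ζ w e) (hc : XCls L ι l ζ w e) (he : XEff L ι l ζ w e) :
    Glue.Ef (XX L ι ζ w e) ⊆ h.Phi '' (LinearMap.fst ℝ _ _ ⁻¹' Glue.Ef L.Y) := by
  refine (((Lat.isCone_cone _).preimage _).image _).cone_subset ?_
  rintro _ ⟨D, hD, rfl⟩
  obtain ⟨N, g, t, a, μ, h1, h2, h3, h4, h5⟩ := gen h hc D.isCart
  have hs : Sc (XX L ι ζ w e) (lb L ι l ζ g t a) μ := fun O hO => by
    have h6 := (h4 O hO).div_mem (O.pow_mem (hD O hO) N)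
    rwa [div_div_cancel₀ (div_ne_zero_iff.1 (h4 O hO).1).1] at h6
  obtain ⟨m, hm, h7⟩ := he g t a h2 μ h3 hs
  have hN : (N : ℝ) ≠ 0 := Nat.cast_ne_zero.2 h1.ne'
  refine ⟨(N : ℝ)⁻¹ • ((cl _ g, t, fun i j => a i j) : WW (N1 L.Y) κ), ?_, ?_⟩
  · exact (Lat.isCone_cone _).smul _ (inv_nonneg.2 (Nat.cast_nonneg N)) _ (cl_ef h.gY h2 hm h7)
  · rw [map_smul, ← h5, smul_smul, inv_mul_cancel₀ hN, one_smul, n1_eq]

end Cln

/-- CLN. -/
theorem cln_stmt : ClnStmt := fun _ _ _ _ _ _ _ _ _ _ _ _ _ _ _ _ _ _ _ _ _ h hc he =>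
  ⟨Cln.cls h hc, fun _ hx => by
    obtain ⟨D, h1, h2⟩ := Cln.dn h hc he hx
    exact ⟨D, h2, h1⟩⟩

end Pool.Agent.MP_20d318_ag.CH
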