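import Pool.Agent.MP_20d318_ag.CH.Spec

/-! CLS: the divisor class group of the next level. -/

set_option autoImplicit false
set_option linter.unusedSectionVars false

namespace Pool.Agent.MP_20d318_ag.CH

open Pool.Agent.MP_fd6584_ag.Fn Pool.Agent.CBk
open Pool.Agent.MP_fd6584_ag.AG hiding deg_inv deg_congr deg_of_unit deg_mul deg_prod deg_zpow
  deg_eq_zero deg_nonneg deg_div deg_pow
open Pool.Agent.MP_20d318_ag.CB.P.XCls (mx_of_ord ord_ne zeta_mem)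

namespace ClsA

variable {k M K Λ κ : Type} {n : ℕ} [Field k] [Field M] [Field K] [Algebra k M] [Algebra k K]
  [Fintype κ] {L : Lv k M Λ κ n} {ι : M →ₐ[k] K} {l : k} {ζ w : K} {e : ℕ}

theorem lb_L (g : Subalgebra k M → M) (t : ℤ) (O : Subalgebra k K) :
    lb L ι l ζ g t 0 O = up ι L.Y g O * eta ζ O ^ (-t) := by simp [lb]

open Classical in
theorem lb_E (i : κ) (j : Fin 4) (O : Subalgebra k K) :
    lb L ι l ζ 1 0 (fun i' j' => if i' = i ∧ j' = j then -1 else 0) O = EE L ι l ζ i j O := by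
  have h : ∀ i' j', EE L ι l ζ i' j' O ^ (-(if i' = i ∧ j' = j then -1 else 0 : ℤ)) =
      if j' = j then if i' = i then EE L ι l ζ i' j' O else 1 else 1 := fun i' j' => by
    by_cases a : i' = i <;> by_cases b : j' = j <;> simp [a, b]
  simp only [lb, h]
  simp [up]

theorem lb_add (h : All L ι l ζ w e) {O : Subalgebra k K} (hO : O ∈ XX L ι ζ w e)
    (g g' : Subalgebra k M → M) (t t' : ℤ) (a a' : κ → Fin 4 → ℤ) :
    lb L ι l ζ (g * g') (t + t') (a + a') O = lb L ι l ζ g t a O * lb L ι l ζ g' t' a' O := by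
  simp only [lb, up, Pi.mul_apply, Pi.add_apply, map_mul, neg_add, zpow_add₀ (h.div.cartZ.ne hO),
    zpow_add₀ ((h.div.cartE _ _).ne hO), Finset.prod_mul_distrib]
  ring

theorem lb_zpow (O : Subalgebra k K) (g : Subalgebra k M → M) (t : ℤ) (a : κ → Fin 4 → ℤ) (m : ℤ) :
    lb L ι l ζ (g ^ m) (t * m) (fun i j => a i j * m) O = lb L ι l ζ g t a O ^ m := by
  simp only [lb, up, Pi.pow_apply, map_zpow₀, mul_zpow, ← Finset.prod_zpow, ← zpow_mul, neg_mul]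

/-- A place on the generic fibre lies in the affine chart. -/
theorem gen_pts (h : All L ι l ζ w e) {P : Place k K} (hP : plO P ∈ XX L ι ζ w e)
    (ht : pr ι L.Y (plO P) = ⊤) (hu : ∀ j, IsU (plO P) (tau l ζ j (plO P))) :
    plO P ∈ Pts (Algebra.adjoin k (Set.range ι ∪ {ζ, w})) := by
  have hL := h.loc
  have he : e ≠ 0 := by rcases h.ext.he with rfl | rfl <;> norm_num
  have hz := zeta_mem (hu 3)
  have hm : ∀ m, ι m ∈ plO P := fun m => hL.maps.mem_up hP (by rw [ht]; trivial)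
  have hmu : ∀ m, ι m ≠ 0 → IsU (plO P) (ι m) := fun m h0 => ⟨h0, hm m, by
    rw [← map_inv₀]; exact hm _⟩
  have hs : ∀ i, IsU (plO P) (sX L ι i (plO P)) := fun i => hmu _ (hL.sne _ hP i)
  have h2 : IsU (plO P) (AA L ι ζ w e (plO P) ^ e) := by
    have h4 := isU_prod (s := Finset.univ) fun i _ => hs i
    have h3 := (isU_prod (s := Finset.univ) fun j _ => hu j).div h4
    rwa [← hL.eqn _ hP, mul_div_cancel_right₀ _ h4.ne] at h3
  have hA : AA L ι ζ w e (plO P) ∈ plO P := by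
    rcases hL.aa _ hP with h | h
    · exact h
    · have h3 : IsU (plO P) ((AA L ι ζ w e (plO P))⁻¹ ^ e) := by
        rw [inv_pow]; exact h2.inv
      simpa using (IsU.of_pow h he h3).inv_mem
  obtain ⟨m, hAm⟩ : ∃ m, AA L ι ζ w e (plO P) = w * ι m :=
    ⟨(L.φ * L.jj (pr ι L.Y (plO P)) ^ (3 - e))⁻¹, by simp [AA, up, eta, hz, div_eq_mul_inv]⟩
  have hm0 : ι m ≠ 0 := fun h => hL.ane _ hP (by rw [hAm, h, mul_zero])
  have hw : w ∈ plO P := by
    have h3 := (hmu m hm0).div_mem hA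
    rwa [hAm, mul_div_cancel_right₀ _ hm0] at h3
  refine Pts_of_le (hL.pts _ hP _ hA (Or.inl rfl)) (Algebra.adjoin_le ?_) (Algebra.adjoin_le ?_)
  · rintro a (⟨b, -, rfl⟩ | rfl | rfl)
    · exact Algebra.subset_adjoin (Or.inl ⟨b, rfl⟩)
    · rw [zc, if_pos hz]; exact Algebra.subset_adjoin (Or.inr (Or.inl rfl))
    · rw [hAm]
      exact Subalgebra.mul_mem _ (Algebra.subset_adjoin (Or.inr (Or.inr rfl)))
        (Algebra.subset_adjoin (Or.inl ⟨m, rfl⟩))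
  · rintro a (⟨b, rfl⟩ | rfl | rfl)
    exacts [hm b, hz, hw]

variable (L ι l ζ) in
open Classical in
/-- The order in which the places are treated. -/
noncomputable def lev (P : Place k K) : ℕ :=
  if ∃ i j, sX L ι i (plO P) ∈ mx (plO P) ∧ tau l ζ j (plO P) ∈ mx (plO P) then 0
  else if pr ι L.Y (plO P) = ⊤ ∧ ∀ j, IsU (plO P) (tau l ζ j (plO P)) then 2 else 1

theorem lev_zero {P : Place k K} {i : κ} {j : Fin 4} (h1 : sX L ι i (plO P) ∈ mx (plO P))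
    (h2 : tau l ζ j (plO P) ∈ mx (plO P)) : lev L ι l ζ P = 0 := if_pos ⟨i, j, h1, h2⟩

theorem lev_pos {P : Place k K}
    (h : ¬ ∃ i j, sX L ι i (plO P) ∈ mx (plO P) ∧ tau l ζ j (plO P) ∈ mx (plO P)) :
    0 < lev L ι l ζ P := by
  rw [lev, if_neg h]; split_ifs <;> norm_num

variable (L ι l ζ w e) in
/-- Divisors that are linearly equivalent to a divisor of the lattice. -/
def Gw (f : Subalgebra k K → K) : Prop := IsCart (XX L ι ζ w e) f ∧
  ∃ (g : Subalgebra k M → M) (t : ℤ) (a : κ → Fin 4 → ℤ) (μ : K), IsCart L.Y g ∧ μ ≠ 0 ∧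
    ∀ O ∈ XX L ι ζ w e, IsU O (f O / (μ * lb L ι l ζ g t a O))

theorem gw_of (h : All L ι l ζ w e) {f : Subalgebra k K → K} {g : Subalgebra k M → M}
    (hg : IsCart L.Y g) (t : ℤ) (a : κ → Fin 4 → ℤ) {μ : K} (hμ : μ ≠ 0)
    (q : ∀ O, f O = μ * lb L ι l ζ g t a O) : Gw L ι l ζ w e f := by
  obtain rfl : f = (fun _ => μ) * lb L ι l ζ g t a := funext q
  refine ⟨(isCart_const hμ).mul (h.div.cartW g t a hg), g, t, a, μ, hg, hμ, fun O hO => ?_⟩
  rw [Pi.mul_apply, div_self (mul_ne_zero hμ ((h.div.cartW g t a hg).ne hO))]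
  exact isU_one

theorem gw_const (h : All L ι l ζ w e) {μ : K} (hμ : μ ≠ 0) : Gw L ι l ζ w e fun _ => μ :=
  gw_of h (g := 1) (isCart_const one_ne_zero) 0 0 hμ fun O => by simp [lb_L, up]

theorem gw_mul (h : All L ι l ζ w e) (f f' : Subalgebra k K → K) (hf : Gw L ι l ζ w e f)
    (hf' : Gw L ι l ζ w e f') : Gw L ι l ζ w e (f * f') := by
  obtain ⟨hf, g, t, a, μ, c, h0, hD⟩ := hf
  obtain ⟨hf', g', t', a', ν, c', h1, hE⟩ := hf'
  refine ⟨hf.mul hf', g * g', t + t', a + a', μ * ν, c.mul c', mul_ne_zero h0 h1, fun O hO => ?_⟩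
  have := (hD O hO).mul (hE O hO)
  rwa [div_mul_div_comm, mul_mul_mul_comm, ← lb_add h hO] at this

theorem gw_zpow (f : Subalgebra k K → K) (m : ℤ) (hf : Gw L ι l ζ w e f) :
    Gw L ι l ζ w e (f ^ m) := by
  obtain ⟨hf, g, t, a, μ, c, h0, hD⟩ := hf
  refine ⟨hf.zpow m, g ^ m, t * m, fun i j => a i j * m, μ ^ m, c.zpow m, zpow_ne_zero m h0,
    fun O hO => ?_⟩
  have := (hD O hO).zpow m
  rwa [div_zpow, mul_zpow, ← lb_zpow] at this

theorem step (hH : HorStmt) (h : All L ι l ζ w e) (hP : XPl L ι l ζ w e) (P : Place k K)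
    (hm : plO P ∈ XX L ι ζ w e) :
    ∃ g, Gw L ι l ζ w e g ∧ P.ord (g (plO P)) ≠ 0 ∧ ∀ P' : Place k K,
      plO P' ∈ XX L ι ζ w e → P' ≠ P → P'.ord (g (plO P')) ≠ 0 →
        lev L ι l ζ P' < lev L ι l ζ P := by
  have hL := h.loc
  have hD := h.div
  have c1 : IsCart L.Y 1 := isCart_const one_ne_zero
  by_cases h0 : ∃ i j, sX L ι i (plO P) ∈ mx (plO P) ∧ tau l ζ j (plO P) ∈ mx (plO P)
  · obtain ⟨i, j, h1, h2⟩ := h0
    refine ⟨EE L ι l ζ i j, gw_of h c1 0 _ one_ne_zero fun O => by rw [lb_E i j, one_mul],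
      ord_ne ((hD.cartE i j).ne hm) (hD.emx _ hm i j h1 h2), fun P' hm' hne ho => ?_⟩
    have h3 : ¬ IsU (plO P') (EE L ι l ζ i j (plO P')) := fun h => ho ((isU_plO' _).1 h).2
    exact absurd (hP.uE P' P i j hm' hm ⟨hL.sm _ hm' i, fun h => h3 (hD.eu _ hm' i j (Or.inl h))⟩
      ⟨hL.tm _ hm' j, fun h => h3 (hD.eu _ hm' i j (Or.inr h))⟩ h1 h2) hne
  have key : ∀ P' : Place k K, plO P' ∈ XX L ι ζ w e → ∀ j, tau l ζ j (plO P') ∈ mx (plO P') →
      lev L ι l ζ P' = 0 ∨ pr ι L.Y (plO P') = ⊤ := fun P' hm' j hj => by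
    by_cases h : ∃ i, sX L ι i (plO P') ∈ mx (plO P')
    · obtain ⟨i, hi⟩ := h
      exact Or.inl (lev_zero hi hj)
    · exact Or.inr (hP.top P' j hm' hj fun i => isU_of_not_mx (hL.sm _ hm' i) fun h' => h ⟨i, h'⟩)
  have hpos := lev_pos h0
  by_cases h1 : ∃ j, tau l ζ j (plO P) ∈ mx (plO P)
  · obtain ⟨j, hj⟩ := h1
    refine ⟨tau l ζ j, gw_of h c1 1 0 (div_ne_zero_iff.1 (hL.tne ⊤ j)).1 fun O => ?_,
      ord_ne (hL.tne _ j) hj, fun P' hm' hne ho => ?_⟩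
    · rw [lb_L, up, Pi.one_apply, map_one, one_mul, zpow_neg_one]
      exact div_eq_mul_inv _ _
    have h3 := mx_of_ord (hL.tm _ hm' j) ho
    rcases key P' hm' j h3 with h | h
    · rwa [h]
    · exact absurd (hP.uT P' P j hm' hm h3 h hj ((key P hm j hj).resolve_left hpos.ne')) hne
  have hu : ∀ j, IsU (plO P) (tau l ζ j (plO P)) := fun j =>
    isU_of_not_mx (hL.tm _ hm j) fun h => h1 ⟨j, h⟩
  rcases hP.pl P hm with ht | ⟨P₀, ht⟩
  · obtain ⟨f, hB, hh0, hh, H⟩ := hH k M K L.φ ι l ζ w e h.ext (h.ok.mw l h.ext.l0 h.ext.l1) _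
      (gen_pts h hm ht hu) (plO_ne_top _)
    refine ⟨fun _ => f, gw_const h hh0, ord_ne hh0 hh, fun P' hm' hne ho => ?_⟩
    rw [lev.eq_1 L ι l ζ P, if_neg h0, if_pos ⟨ht, hu⟩, lev]
    split_ifs with e1 e2
    · norm_num
    · exfalso
      have hp := gen_pts h hm' e2.1 e2.2
      have hz := zeta_mem (e2.2 3)
      rcases H _ hp (mx_of_ord (hp.2.1 hB) ho) with q | q
      · exact hne (plO_inj q.le)
      · exact (((e2.2 0).mul (e2.2 1)).mul (e2.2 2)).not_mx (by simpa [tau, eta, hz, cb] using q)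
    · norm_num
  · have hm0 : plO P₀ ∈ L.Y := ht ▸ hL.maps.mem hm
    obtain ⟨g, hg, o1, o2⟩ := h.ok.fac P₀ hm0
    have m1 : g (plO P₀) ∈ mx (plO P₀) := (mx_plO (hg.ne hm0)).2 (by rw [o1]; norm_num)
    rw [← ht] at m1
    refine ⟨up ι L.Y g, gw_of h hg 0 0 one_ne_zero fun O => by simp [lb_L],
      ord_ne ((hD.cartU g hg).ne hm) ((hL.maps.mx_up hm m1.1).2 m1), fun P' hm' hne ho => ?_⟩
    have n1 := hg.ne (hL.maps.mem hm')
    have h2 : ¬ IsU (pr ι L.Y (plO P')) (g (pr ι L.Y (plO P'))) := fun q =>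
      ho ((isU_plO' _).1 (hL.maps.isU_up hm' q)).2
    have h3 : pr ι L.Y (plO P') ≠ ⊤ := fun q => h2 (by rw [q] at n1 ⊢; exact isU_top.2 n1)
    obtain ⟨P₁, h4⟩ := (hP.pl P' hm').resolve_left h3
    obtain rfl : P₁ = P₀ := by_contra fun q => h2 (by
      rw [h4] at n1 ⊢
      exact (isU_plO' _).2 ⟨n1, o2 P₁ (h4 ▸ hL.maps.mem hm') q⟩)
    by_cases h5 : ∃ j, tau l ζ j (plO P') ∈ mx (plO P')
    · obtain ⟨j, hj⟩ := h5
      rwa [(key P' hm' j hj).resolve_right h3]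
    · exact absurd (hP.uV P' P P₁ hm' hm
        (fun j => isU_of_not_mx (hL.tm _ hm' j) fun h => h5 ⟨j, h⟩) hu h4 ht) hne

end ClsA

open ClsA in
theorem cls_stmt : ClsStmt := by
  intro hH k M K Λ κ n _ _ _ _ _ _ _ _ _ L ι l ζ w e h hP hN f hf
  obtain ⟨N, g, h0, hg, hu⟩ := clsGen_stmt k K (XX L ι ζ w e) (Gw L ι l ζ w e) (lev L ι l ζ) hN
    (fun _ h => h.1) (gw_mul h) gw_zpow (gw_const h one_ne_zero) (step hH h hP) f hf
  obtain ⟨-, g', t, a, μ, c, h1, hD⟩ := gw_zpow g N hg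
  refine ⟨N.natAbs ^ 2, g', t, a, μ, pow_pos (Int.natAbs_pos.2 h0) 2, c, h1, fun O hO => ?_⟩
  have := ((hu O hO).zpow N).mul (hD O hO)
  rwa [div_zpow, Pi.pow_apply, div_mul_div_cancel₀ (zpow_ne_zero N (hg.1.ne hO)), ← zpow_mul,
    ← Int.natAbs_mul_self, zpow_natCast, ← sq] at this

end Pool.Agent.MP_20d318_ag.CH
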