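import Pool.Agent.MP_20d318_ag.CH.Spec

/-! Row CRD: local coordinates on the next level. -/

set_option autoImplicit false
set_option linter.unusedSectionVars false

namespace Pool.Agent.MP_20d318_ag.CH

open Pool.Agent.MP_fd6584_ag.Fn Pool.Agent.CBk Polynomial
open Pool.Agent.MP_fd6584_ag.AG

namespace CrdA

variable {k K : Type} [Field k] [Field K] [Algebra k K] {O : Subalgebra k K} {n : ℕ}

theorem smem {V : Type} [AddCommGroup V] [Module K V] (S : Submodule O V) {s : K} {v : V}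
    (hs : s ∈ O) (hv : v ∈ S) : s • v ∈ S := S.smul_mem ⟨s, hs⟩ hv

/-- Exchange of one coordinate. -/
theorem exch {δ : Derivation k K (Fin n → K)} {c ρ : Fin n → K} {i₀ : Fin n} {t ε w : K}
    (hc : ∀ i, c i ∈ O) (ht : t ∈ O) (hw : w ∈ O) (he : IsU O ε) (hρ : ∀ i, ρ i ∈ O)
    (hu : IsU O (ρ i₀)) (h : (ε * w) • δ t = ∑ i, ρ i • δ (c i))
    (G : ∀ S : Submodule O (Fin n → K), (∀ i, δ (c i) ∈ S) → δ t ∈ S → ∀ a ∈ O, δ a ∈ S) :
    Gens O δ (Function.update c i₀ t) ∧
      ∃ u, IsU O u ∧ w * dt δ (Function.update c i₀ t) = u * dt δ c := by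
  refine ⟨gens_iff.2 ⟨fun i => ?_, ?_⟩, ρ i₀ / ε, hu.div he, ?_⟩
  · by_cases e : i = i₀
    · rwa [e, Function.update_self]
    · rw [Function.update_of_ne e]; exact hc i
  · set S := Submodule.span O (Set.range fun i => δ (Function.update c i₀ t i))
    have h0 : δ t ∈ S := Submodule.subset_span ⟨i₀, by simp⟩
    have h1 : ∀ i, i ≠ i₀ → δ (c i) ∈ S := fun i e =>
      Submodule.subset_span ⟨i, by simp [Function.update_of_ne e]⟩
    refine G S (fun i => ?_) h0
    by_cases e : i = i₀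
    · rw [← Finset.add_sum_erase _ _ (Finset.mem_univ i₀), ← sub_eq_iff_eq_add] at h
      have h2 := smem S hu.inv_mem (S.sub_mem (smem S (O.mul_mem he.mem hw) h0)
        (S.sum_mem fun j (hj : j ∈ Finset.univ.erase i₀) =>
          smem S (hρ j) (h1 j (Finset.ne_of_mem_erase hj))))
      rwa [h, smul_smul, inv_mul_cancel₀ hu.ne, one_smul, ← e] at h2
    · exact h1 i e
  · have e1 : (Matrix.of fun i => δ (Function.update c i₀ t i)) =
        (Matrix.of fun i => δ (c i)).updateRow i₀ (δ t) := by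
      ext i j
      by_cases e : i = i₀
      · simp [e]
      · simp [Function.update_of_ne e, Matrix.updateRow_ne e]
    have e2 := Matrix.det_updateRow_sum (Matrix.of fun i => δ (c i)) i₀ ρ
    have e3 := Matrix.det_updateRow_smul (Matrix.of fun i => δ (c i)) i₀ (ε * w) (δ t)
    rw [h] at e3
    have e4 := e3.symm.trans e2
    rw [dt, dt, e1, div_mul_eq_mul_div, eq_div_iff he.ne, ← smul_eq_mul (ρ i₀), ← e4]
    ring

theorem aev {z : K} (hz : z ∈ O) (p : k[X]) : aeval z p ∈ O := by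
  induction p using Polynomial.induction_on' with
  | add p q a b => rw [map_add]; exact O.add_mem a b
  | monomial m a =>
    rw [aeval_monomial]
    exact O.mul_mem (O.algebraMap_mem a) (O.pow_mem hz m)

end CrdA

open CrdA in
theorem crd_stmt : CrdStmt := by
  intro k M K _ _ _ _ _ _ e ι R O z A S g N δ c L hc hR hS
  have up : ∀ a ∈ R, ι a ∈ O := fun a ha => L.dom.1 ha
  have upU : ∀ a, IsU R a → IsU O (ι a) := fun a ha => (isU_comap ι).1 (ha.mono L.dom.1)
  obtain ⟨m, rfl⟩ : ∃ m, e = m + 1 := ⟨e - 1, by have := L.he; omega⟩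
  have he : IsU O ((m + 1 : ℕ) : K) := by
    rcases L.he with h | h <;> rw [h]
    · rw [Nat.cast_one]; exact isU_one
    · have := isU_const (O := O) (NeZero.ne (2 : k))
      rwa [map_ofNat] at this
  set c₀ : Fin (N + 1) → K := Fin.cons z fun i => ι (c i) with hc₀
  have m0 : ∀ i, c₀ i ∈ O := Fin.cases L.mz fun i => up _ (hc i)
  have G : ∀ t ∈ O, t = A ∨ t = A⁻¹ → ∀ T : Submodule O (Fin (N + 1) → K),
      (∀ i, δ (c₀ i) ∈ T) → δ t ∈ T → ∀ a ∈ O, δ a ∈ T := fun t ht h T h1 h2 =>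
    der_span (L.pts t ht h) δ T (by
      rintro _ (⟨a, ha, rfl⟩ | rfl | rfl)
      · obtain ⟨r, r1, r2⟩ := hR a ha
        rw [r2]
        exact T.sum_mem fun i _ => smem T (up _ (r1 i)) (h1 i.succ)
      · exact h1 0
      · exact h2)
  have g1 := aev L.mz g
  have g2 := aev L.mz (derivative g)
  have b1 := up S L.mS
  by_cases hA : A ∈ O
  · obtain ⟨r, r1, r2⟩ := hR S L.mS
    have w1 : wt (m + 1) O A (ι S) = A ^ m * ι S := by rw [wt, if_pos hA, Nat.add_sub_cancel]
    have w2 : A ^ m * ι S ∈ O := O.mul_mem (O.pow_mem hA m) b1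
    set ρ : Fin (N + 1) → K := Fin.cons (aeval z (derivative g)) fun i => -(A ^ (m + 1) * ι (r i))
      with hρ
    have p1 : ∀ i, ρ i ∈ O :=
      Fin.cases g2 fun i => O.neg_mem (O.mul_mem (O.pow_mem hA _) (up _ (r1 i)))
    have d : (((m + 1 : ℕ) : K) * (A ^ m * ι S)) • δ A = ∑ i, ρ i • δ (c₀ i) := by
      have h := congrArg δ L.eq
      rw [Derivation.leibniz, Derivation.leibniz_pow, Derivation.map_aeval, r2] at h
      simp only [hρ, hc₀, Fin.sum_univ_succ, Fin.cons_zero, Fin.cons_succ, neg_smul,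
        Finset.sum_neg_distrib, mul_smul (A ^ (m + 1)), ← Finset.smul_sum]
      rw [← h, Nat.add_sub_cancel, ← Nat.cast_smul_eq_nsmul K]
      module
    have nu : ∀ t ∈ mx O, t = A⁻¹ → False := fun t ht h =>
      ht.2 (h ▸ IsU.inv ⟨L.nA, hA, h ▸ ht.1⟩)
    rw [w1]
    rcases isU_or_mx g2 with u | u
    · obtain ⟨a1, a2⟩ := exch (i₀ := 0) m0 hA w2 he p1 u d (G A hA (Or.inl rfl))
      exact ⟨_, a1, a2, fun t ht h => ⟨0, by
        rw [Function.update_self, h.resolve_right (nu t ht)]⟩⟩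
    · obtain ⟨p, q, hpq⟩ := L.sep
      have u1 : IsU O (aeval z g) := isU_of_not_mx g1 fun v => by
        have := mx_add L.loc (mx_mul_left (aev L.mz p) v) (mx_mul_left (aev L.mz q) u)
        rw [← map_mul, ← map_mul, ← map_add, hpq, map_one] at this
        exact isU_one.not_mx this
      rw [← L.eq, pow_succ', mul_assoc] at u1
      have u2 := IsU.of_mul hA w2 u1
      have u3 := IsU.of_mul w2 hA (by rwa [mul_comm])
      refine ⟨c₀, gens_iff.2 ⟨m0, G A hA (Or.inl rfl) _ (fun i => Submodule.subset_span ⟨i, rfl⟩) ?_⟩,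
        ⟨_, u3, rfl⟩, fun t ht h => ?_⟩
      · have h2 := smem (Submodule.span O (Set.range fun i => δ (c₀ i))) (he.mul u3).inv_mem
          (Submodule.sum_mem _ fun i (_ : i ∈ Finset.univ) =>
            smem _ (p1 i) (Submodule.subset_span ⟨i, rfl⟩))
        rwa [← d, smul_smul, inv_mul_cancel₀ (he.mul u3).ne, one_smul] at h2
      · exact (h.elim (fun h => ht.2 (h ▸ u2)) (nu t ht)).elim
  · have t1 := L.aa.resolve_left hA
    have t2 : A⁻¹ ∈ mx O := ⟨t1, fun v => hA (by simpa using v.inv_mem)⟩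
    have b2 : ι S = A⁻¹ ^ (m + 1) * aeval z g := by
      rw [← L.eq, inv_pow, inv_mul_cancel_left₀ (pow_ne_zero _ L.nA)]
    obtain ⟨r, r1, r2, i₀, r3⟩ := hS ⟨L.mS, fun v =>
      (upU S v).not_mx (b2 ▸ mx_mul_right (mx_pow t2 m.succ_ne_zero) g1)⟩
    have w1 : wt (m + 1) O A (ι S) = A⁻¹ ^ m * aeval z g := by
      rw [wt, if_neg hA, b2, pow_succ', mul_assoc, mul_inv_cancel_left₀ L.nA]
    set ρ : Fin (N + 1) → K := Fin.cons (-(A⁻¹ ^ (m + 1) * aeval z (derivative g))) fun i => ι (r i)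
      with hρ
    have p1 : ∀ i, ρ i ∈ O :=
      Fin.cases (O.neg_mem (O.mul_mem (O.pow_mem t1 _) g2)) fun i => up _ (r1 i)
    have d : (((m + 1 : ℕ) : K) * (A⁻¹ ^ m * aeval z g)) • δ A⁻¹ = ∑ i, ρ i • δ (c₀ i) := by
      have h := congrArg δ b2
      rw [Derivation.leibniz, Derivation.leibniz_pow, Derivation.map_aeval, r2] at h
      simp only [hρ, hc₀, Fin.sum_univ_succ, Fin.cons_zero, Fin.cons_succ]
      rw [h, Nat.add_sub_cancel, ← Nat.cast_smul_eq_nsmul K]
      module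
    obtain ⟨a1, a2⟩ := exch (i₀ := i₀.succ) m0 t1 (O.mul_mem (O.pow_mem t1 m) g1) he p1
      (upU _ r3) d (G _ t1 (Or.inr rfl))
    rw [w1]
    exact ⟨_, a1, a2, fun t ht h => ⟨i₀.succ, by
      rw [Function.update_self, h.resolve_left fun h => hA (h ▸ ht.1)]⟩⟩

end Pool.Agent.MP_20d318_ag.CH
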