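import Pool.Agent.MP_20d318_ag.CH.Spec

/-! The degrees of curves on the blow-up and on its double cover. -/

set_option autoImplicit false
set_option linter.unusedSectionVars false

namespace Pool.Agent.MP_20d318_ag.CH

open Pool.Agent.MP_fd6584_ag.Fn Pool.Agent.CBk
open Pool.Agent.MP_fd6584_ag.AG hiding deg_inv deg_congr deg_of_unit deg_mul deg_prod deg_zpow
  deg_eq_zero deg_nonneg deg_div deg_pow
open Pool.Agent.MP_20d318_ag.CB.P.XCurA (ptmx mx_prod)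

namespace CurR

variable {k M K Λ κ : Type} {n : ℕ} [Field k] [Field M] [Field K] [Algebra k M] [Algebra k K]
  [IsAlgClosed k] [Fintype κ] {L : Lv k M Λ κ n} {ι : M →ₐ[k] K} {l : k} {ζ w : K} {e : ℕ}
  (h : All L ι l ζ w e) (ν : Curve (XX L ι ζ w e))

include h

theorem tauU {j j' : Fin 4} (ht : tau l ζ j ν.gen ∈ mx ν.gen) (hj : j' ≠ j) (P : Place k ν.L) :
    IsU (ν.pt P) (tau l ζ j' (ν.pt P)) :=
  isU_of_not_mx (h.loc.tm _ (ν.pt_mem P) j') fun e => hj (h.loc.t1 _ (ν.pt_mem P) j' j e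
    (ptmx (h.div.cartT j) (fun O hO => .inl (h.loc.tm O hO j)) ν ht P))

theorem sU {i i' : κ} (hs : sX L ι i ν.gen ∈ mx ν.gen) (hi : i' ≠ i) (P : Place k ν.L) :
    IsU (ν.pt P) (sX L ι i' (ν.pt P)) :=
  isU_of_not_mx (h.loc.sm _ (ν.pt_mem P) i') fun e => hi (h.loc.s1 _ (ν.pt_mem P) i' i e
    (ptmx (h.div.cartS i) (fun O hO => .inl (h.loc.sm O hO i)) ν hs P))

theorem zeroT (j : Fin 4) (hu : ∀ P, IsU (ν.pt P) (tau l ζ j (ν.pt P))) : ν.deg (eta ζ) = 0 :=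
  neg_eq_zero.1 ((h.div.degT ν j).symm.trans (deg_zero_of h.gX (h.div.cartT j) ν hu))

theorem zeroE (i : κ) (j : Fin 4) (hu : ∀ P, IsU (ν.pt P) (sX L ι i (ν.pt P)) ∨
    IsU (ν.pt P) (tau l ζ j (ν.pt P))) : ν.deg (EE L ι l ζ i j) = 0 :=
  deg_zero_of h.gX (h.div.cartE i j) ν fun P => h.div.eu _ (ν.pt_mem P) i j (hu P)

theorem zeroS {i i' : κ} (hs : sX L ι i ν.gen ∈ mx ν.gen) (hi : i' ≠ i) :
    L.nd.d (h.pj ν) (L.nd.c i') = 0 := by
  rw [h.pj_c, deg_zero_of h.gX (h.div.cartS i') ν (sU h ν hs hi), Int.cast_zero]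

theorem zeroT' {j : Fin 4} (ht : tau l ζ j ν.gen ∈ mx ν.gen) : ν.deg (eta ζ) = 0 := by
  obtain ⟨j', hj⟩ := exists_ne j
  exact zeroT h ν j' (tauU h ν ht hj)

theorem cA (j : Fin 4) (ha : AA L ι ζ w e ν.gen ∈ mx ν.gen) (ht : tau l ζ j ν.gen ∈ mx ν.gen) :
    ν.deg (eta ζ) = 0 ∧
      ∀ i j', ν.deg (EE L ι l ζ i j') = if j' = j then ν.deg (sX L ι i) else 0 := by
  refine ⟨zeroT' h ν ht, fun i j' => ?_⟩
  split_ifs with q
  · subst q
    exact degc h.gX (h.div.cartE i j') (h.div.cartS i) ν fun P =>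
      h.div.eT _ (ν.pt_mem P) i j' (ptmx h.div.cartA h.loc.aa ν ha P).1
        (ptmx (h.div.cartT j') (fun O hO => .inl (h.loc.tm O hO j')) ν ht P)
  · exact zeroE h ν i j' fun P => .inr (tauU h ν ht q P)

open Classical in
theorem cB (i : κ) (ha : (AA L ι ζ w e ν.gen)⁻¹ ∈ mx ν.gen)
    (hs : sX L ι i ν.gen ∈ mx ν.gen) (i' : κ) (j : Fin 4) :
    ν.deg (EE L ι l ζ i' j) = if i' = i then -ν.deg (eta ζ) else 0 := by
  split_ifs with q
  · subst q
    rw [← h.div.degT ν j]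
    exact degc h.gX (h.div.cartE i' j) (h.div.cartT j) ν fun P =>
      h.div.eC _ (ν.pt_mem P) i' j (ptmx h.div.cartA.inv
        (fun O hO => (h.loc.aa O hO).symm.imp_right fun e => by simpa using e) ν ha P).1
        (ptmx (h.div.cartS i') (fun O hO => .inl (h.loc.sm O hO i')) ν hs P)
  · exact zeroE h ν i' j fun P => .inl (sU h ν hs q P)

theorem cX (i : κ) (j : Fin 4) (hs : sX L ι i ν.gen ∈ mx ν.gen)
    (ht : tau l ζ j ν.gen ∈ mx ν.gen) : ν.deg (eta ζ) = 0 ∧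
      ∀ i' j', ¬ (i' = i ∧ j' = j) → ν.deg (EE L ι l ζ i' j') = 0 :=
  ⟨zeroT' h ν ht, fun i' j' e => zeroE h ν i' j' fun P =>
    (not_and_or.1 e).imp (fun e => sU h ν hs e P) fun e => tauU h ν ht e P⟩

theorem cG (c : k) (h0 : c ≠ 0) (h1 : c ≠ 1) (hl : c ≠ l)
    (hc : ζ - algebraMap k K c ∈ mx ν.gen) :
    ν.deg (eta ζ) = 0 ∧ ∀ i j, ν.deg (EE L ι l ζ i j) = 0 := by
  have hu : ∀ j P, IsU (ν.pt P) (tau l ζ j (ν.pt P)) := fun j P => by
    have hO := h.gX.loc _ (ν.pt_mem P)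
    have h2 := mem_pt_of_const ν P hc (by
      have := h.loc.zm _ (ν.pt_mem P)
      unfold zc at this
      split_ifs at this
      exacts [.inl this, .inr this])
    have h3 : ζ ∈ ν.pt P := by simpa using add_mem h2.1 ((ν.pt P).algebraMap_mem c)
    have h4 : ∀ e : k, c ≠ e → IsU (ν.pt P) (ζ - algebraMap k K e) := fun e he => by
      have := (isU_const (O := ν.pt P) (sub_ne_zero.2 he)).add_mx hO h2
      rwa [map_sub, sub_add_sub_cancel'] at this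
    unfold tau eta
    rw [if_pos h3, div_one]
    fin_cases j
    · simpa using h4 0 h0
    · simpa using h4 1 h1
    · exact h4 l hl
    · exact isU_one
  exact ⟨zeroT h ν 0 (hu 0), fun i j => zeroE h ν i j fun P => .inr (hu j P)⟩

theorem sumT (j : Fin 4) (ha : AA L ι ζ w e ν.gen ∉ mx ν.gen) :
    ∑ i, ν.deg (EE L ι l ζ i j) ≤ -ν.deg (eta ζ) := by
  have hc := isCart_prod (s := Finset.univ) fun i _ => h.div.cartE i j
  have h1 := deg_nonneg h.gX ((h.div.cartT j).div hc)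
    (fun O hO => by simpa using (h.div.rT O hO j).1) ν
    (by simpa using (h.div.rT _ ν.gen_mem j).2 ha)
  rw [deg_div h.gX (h.div.cartT j) hc, deg_prod h.gX fun i _ => h.div.cartE i j, h.div.degT] at h1
  exact sub_nonneg.1 h1

theorem sumC (i : κ) (ha : (AA L ι ζ w e ν.gen)⁻¹ ∉ mx ν.gen) :
    ∑ j, ν.deg (EE L ι l ζ i j) ≤ ν.deg (sX L ι i) := by
  have hc := isCart_prod (s := Finset.univ) fun j _ => h.div.cartE i j
  have h1 := deg_nonneg h.gX ((h.div.cartS i).div hc)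
    (fun O hO => by simpa using (h.div.rC O hO i).1) ν
    (by simpa using (h.div.rC _ ν.gen_mem i).2 ha)
  rw [deg_div h.gX (h.div.cartS i) hc, deg_prod h.gX fun j _ => h.div.cartE i j] at h1
  exact sub_nonneg.1 h1

theorem ty : Ty L.nd (h.pj ν) (-ν.deg (eta ζ) : ℤ) fun i j => ν.deg (EE L ι l ζ i j) := by
  classical
  have hO := ν.gen_mem
  have he : e ≠ 0 := by rcases h.ext.he with q | q <;> omega
  have hs2 : ∏ i, sX L ι i ν.gen ∈ mx ν.gen → ∃ i, sX L ι i ν.gen ∈ mx ν.gen := fun e =>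
    mx_prod (h.loc.sm _ hO) e
  have hsm : ∏ i, sX L ι i ν.gen ∈ ν.gen := prod_mem fun i _ => h.loc.sm _ hO i
  have eqn := h.loc.eqn _ hO
  refine ⟨Int.cast_nonneg (neg_nonneg.2 (deg_gn_nonpos h.gX (Set.toFinite _) h.loc.gZ ν)), ?_⟩
  by_cases ha : AA L ι ζ w e ν.gen ∈ mx ν.gen
  · obtain ⟨j, hj⟩ := mx_prod (h.loc.tm _ hO) (eqn ▸ mx_mul_right (mx_pow ha he) hsm)
    obtain ⟨h1, h2⟩ := cA h ν j ha hj
    refine .inl ⟨j, by simp [h1], fun i j' => ?_⟩
    dsimp only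
    rw [h2, h.pj_c]
    split_ifs <;> simp
  by_cases hb : (AA L ι ζ w e ν.gen)⁻¹ ∈ mx ν.gen
  · obtain ⟨i, hi⟩ := hs2 (by
      have := mx_mul_right (mx_pow hb he) (prod_mem fun j (_ : j ∈ Finset.univ) =>
        h.loc.tm _ hO j)
      rwa [← eqn, inv_pow, inv_mul_cancel_left₀ (pow_ne_zero _ (h.loc.ane _ hO))] at this)
    refine .inr (.inl ⟨i, fun i' => zeroS h ν hi, fun i' j => ?_⟩)
    dsimp only
    rw [cB h ν i hb hi]
    split_ifs <;> simp
  have hu : IsU ν.gen (AA L ι ζ w e ν.gen) := (h.loc.aa _ hO).elim (isU_of_not_mx · ha)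
    fun e => by simpa using (isU_of_not_mx e hb).inv
  by_cases ht : ∃ j, tau l ζ j ν.gen ∈ mx ν.gen
  · obtain ⟨j, hj⟩ := ht
    obtain ⟨i, hi⟩ := hs2 (by
      refine (mx_or_of_mul (hu.pow e).mem hsm ?_).resolve_left (hu.pow e).not_mx
      rw [eqn, ← Finset.mul_prod_erase _ _ (Finset.mem_univ j)]
      exact mx_mul_right hj (prod_mem fun j _ => h.loc.tm _ hO j))
    obtain ⟨h1, h2⟩ := cX h ν i j hi hj
    have h3 := sumT h ν j ha
    have h4 := sumC h ν i hb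
    rw [h1, Finset.sum_eq_single i (fun i' _ e => h2 i' j fun e' => e e'.1) (by simp)] at h3
    rw [Finset.sum_eq_single j (fun j' _ e => h2 i j' fun e' => e e'.2) (by simp)] at h4
    refine .inr (.inr (.inl ⟨i, j, fun i' => zeroS h ν hi, by simp [h1], ?_, ?_,
      fun i' j' q => ?_⟩))
    · dsimp only
      exact_mod_cast h3
    · rw [h.pj_c]
      dsimp only
      exact_mod_cast h4
    · simp [h2 i' j' q]
  · push Not at ht
    refine .inr (.inr (.inr ⟨fun i j => Int.cast_nonneg (deg_nonneg h.gX (h.div.cartE i j)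
      (fun O hO => h.div.em O hO i j) ν (h.div.eu _ hO i j
        (.inr (isU_of_not_mx (h.loc.tm _ hO j) (ht j))))), fun i => ?_, fun j => ?_⟩))
    · rw [h.pj_c]
      dsimp only
      exact_mod_cast sumC h ν i hb
    · dsimp only
      exact_mod_cast sumT h ν j ha

end CurR

theorem cur_stmt : CurStmt := fun _ _ _ _ _ _ _ _ _ _ _ _ _ _ _ _ _ _ _ _ _ h =>
  ⟨⟨CurR.cA h, CurR.cB h, CurR.cX h, CurR.cG h⟩,
    fun ν => ⟨h.pj ν, _, _, CurR.ty h ν, h.phi_d ν⟩⟩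

end Pool.Agent.MP_20d318_ag.CH
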