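import Pool.Agent.MP_20d318_ag.CH.LBase
import Pool.Agent.MP_20d318_ag.CB.EndB1

/-! The cover for the lattice of the surface. -/

set_option autoImplicit false
set_option linter.unusedSectionVars false

namespace Pool.Agent.MP_20d318_ag.CH

open Pool.Agent.MP_20d318_ag.Lat hiding act actW W
open Pool.Agent.MP_20d318_ag.CB

namespace Cvb

variable {ι κ : Type} [Fintype ι] [Fintype κ]

open Classical in
theorem ob_smul {Λ : Ld ι κ} {T : Finset (ι → ℤ)} (h : OB Λ T) {N : ℤ} (hN : N ≠ 0) :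
    OB Λ (T.image fun x => N • x) where
  neg := by
    intro _ h1
    obtain ⟨x, hx, rfl⟩ := Finset.mem_image.1 h1
    rw [ip_smul_left, ip_smul_right, ← mul_assoc]
    exact mul_neg_of_pos_of_neg (mul_self_pos.2 hN) (h.neg x hx)
  orth := by
    intro _ h1 _ h2 e
    obtain ⟨x, hx, rfl⟩ := Finset.mem_image.1 h1
    obtain ⟨y, hy, rfl⟩ := Finset.mem_image.1 h2
    rw [ip_smul_left, ip_smul_right, h.orth x hx y hy fun k => e (by rw [k]), mul_zero, mul_zero]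
  perp := by
    intro _ h1 v hv
    obtain ⟨x, hx, rfl⟩ := Finset.mem_image.1 h1
    rw [toR_zsmul, ip_smul_right, h.perp x hx v hv, mul_zero]
  span r h1 h2 := h.span r h1 fun x hx => by
    have := h2 _ (Finset.mem_image_of_mem _ hx)
    rw [toR_zsmul, ip_smul_right] at this
    exact (mul_eq_zero.1 this).resolve_left (by exact_mod_cast hN)

end Cvb

theorem cvb_stmt : CvbStmt := by
  classical
  intro ι κ _ _ Λ G h h0 ha
  have hg := hg_stmt ι Λ.B h.sym h.hodge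
  have l1 := l1_stmt ι κ Λ h hg
  have ct := ct_stmt ι κ Λ h l1
  unfold CVW
  rw [Set.inter_univ, ld_nl]
  rcases h.sq0.lt_or_eq with hF | hF
  · obtain ⟨R, h1, h2⟩ := endA_stmt ι κ Λ h hg l1 ct hF
    obtain ⟨ρ, a, -⟩ := h0
    exact ⟨R, h1.trans lw_le, h2.subset, fun D _ _ => ⟨_, ⟨ρ, a, rfl⟩, fun k => h2.superset k⟩⟩
  replace hF := hF.symm
  obtain ⟨fin, T, hT⟩ := endB1_stmt ι κ Λ h hg l1 hF
  obtain ⟨N, hN, ha⟩ := ha hF
  have hN' : (N : ℤ) ≠ 0 := by exact_mod_cast hN.ne'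
  have hT' := Cvb.ob_smul hT hN'
  obtain ⟨R, h1, h2⟩ := endB3_stmt ι κ Λ _ h l1 ct (hz_stmt ι κ Λ h hg l1 ct) hF fin hT'
  refine ⟨R, h1.trans lw_le, h2.subset.trans Set.inter_subset_left, fun D hD _ => ?_⟩
  obtain ⟨ρ, ⟨g, h3, h5⟩, h4⟩ := endB2_stmt ι κ Λ _
    {ρ | ∃ g ∈ G, ∀ L : ι → ℝ, act g L = act ρ L} h l1 hF hT'
    (h0.imp fun g k => ⟨k.1, fun L => by rw [CB.act_one, k.2]⟩) (fun n => by
      obtain ⟨ρ, a2, a1⟩ := ha (∑ x ∈ T, n ((N : ℤ) • x) • x) (by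
        rw [ip_sum_left]
        refine Finset.sum_eq_zero fun x hx => ?_
        have := hT.perp x hx _ (Submodule.subset_span ⟨Λ.F, ⟨h.memC _, hF⟩, rfl⟩)
        rw [ip_toR, Int.cast_eq_zero] at this
        rw [ip_smul_left, ip_comm h.sym, this, mul_zero])
      refine ⟨ρ, ⟨ρ, a2, fun _ => rfl⟩, ?_⟩
      rw [Finset.sum_image fun x _ y _ e => smul_right_injective _ hN' e]
      rw [Finset.smul_sum] at a1
      simpa only [smul_comm (N : ℤ)] using a1) D.1 hD.2.2.1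
  exact ⟨_, ⟨g, h3, rfl⟩, fun k => h2.superset ⟨k, show act g D.1 ∈ Box Λ _ from h5 D.1 ▸ h4⟩⟩

end Pool.Agent.MP_20d318_ag.CH
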