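import Pool.Agent.MP_20d318_ag.CH.Spec

/-! Row DER: derivations of rational function fields. -/

set_option autoImplicit false

namespace Pool.Agent.MP_20d318_ag.CH

open Pool.Agent.MP_fd6584_ag.Fn Pool.Agent.CBk
open Pool.Agent.MP_fd6584_ag.AG

namespace DerL

theorem ex (k M : Type) [Field k] [Field M] [Algebra k M] (N : ℕ) (y : Fin N → M)
    (hy : AlgebraicIndependent k y) (ht : IntermediateField.adjoin k (Set.range y) = ⊤) :
    ∃ δ : Derivation k M (Fin N → M), ∀ i, δ (y i) = Pi.single i 1 := by
  have hs : Algebra.IsSeparable (IntermediateField.adjoin k (Set.range y)) M :=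
    ⟨fun x => isSeparable_algebraMap
      (⟨x, ht ▸ IntermediateField.mem_top⟩ : IntermediateField.adjoin k (Set.range y))⟩
  have hb : IsTranscendenceBasis k y := by
    rw [hy.isTranscendenceBasis_iff_isAlgebraic, ← IntermediateField.isAlgebraic_adjoin_iff_top]
    exact Algebra.IsSeparable.isAlgebraic _ _
  obtain ⟨b, hb⟩ := Canon.exists_basis hb hs
  refine ⟨b.equivFun.toLinearMap.compDer (KaehlerDifferential.D k M), fun i => ?_⟩
  change b.equivFun (KaehlerDifferential.D k M (y i)) = _
  rw [← hb]
  funext j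
  rw [Module.Basis.equivFun_self, Pi.single_apply]
  simp only [eq_comm]

theorem chain (k M K V : Type) [Field k] [Field M] [Field K] [Algebra k M] [Algebra k K]
    [AddCommGroup V] [Module K V] [Module k V] [IsScalarTower k K V] (N : ℕ) (y : Fin N → M)
    (δ : Derivation k M (Fin N → M)) (ι : M →ₐ[k] K) (Δ : Derivation k K V)
    (ht : IntermediateField.adjoin k (Set.range y) = ⊤) (hy : ∀ i, δ (y i) = Pi.single i 1)
    (a : M) : Δ (ι a) = ∑ i, ι (δ a i) • Δ (ι (y i)) := by
  have ha : a ∈ IntermediateField.adjoin k (Set.range y) := ht ▸ IntermediateField.mem_top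
  induction ha using IntermediateField.adjoin_induction with
  | mem x hx =>
    obtain ⟨j, rfl⟩ := hx
    rw [hy, Finset.sum_eq_single j]
    · rw [Pi.single_eq_same, map_one, one_smul]
    · intro i _ hi
      rw [Pi.single_eq_of_ne hi, map_zero, zero_smul]
    · intro h
      exact absurd (Finset.mem_univ j) h
  | algebraMap x =>
    rw [ι.commutes, Derivation.map_algebraMap, Derivation.map_algebraMap]
    simp
  | add x z _ _ hx hz =>
    rw [map_add, map_add, map_add, hx, hz, ← Finset.sum_add_distrib]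
    refine Finset.sum_congr rfl fun i _ => ?_
    rw [Pi.add_apply, map_add, add_smul]
  | inv x _ hx =>
    rw [map_inv₀, Derivation.leibniz_inv, Derivation.leibniz_inv, hx, Finset.smul_sum]
    refine Finset.sum_congr rfl fun i _ => ?_
    rw [Pi.smul_apply, smul_eq_mul, map_mul, map_neg, map_pow, map_inv₀, smul_smul]
  | mul x z _ _ hx hz =>
    rw [map_mul, Derivation.leibniz, Derivation.leibniz, hx, hz, Finset.smul_sum, Finset.smul_sum,
      ← Finset.sum_add_distrib]
    refine Finset.sum_congr rfl fun i _ => ?_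
    rw [Pi.add_apply, Pi.smul_apply, Pi.smul_apply, smul_eq_mul, smul_eq_mul, map_add, map_mul,
      map_mul, add_smul, smul_smul, smul_smul]

theorem dual (k K : Type) [Field k] [Field K] [Algebra k K] (N : ℕ) (O : Subalgebra k K)
    (δ : Derivation k K (Fin N → K)) (c : Fin N → K) (hc : Gens O δ c) (hd : dt δ c ≠ 0)
    (i : Fin N) : Crd O (c i) := by
  intro _
  have hu : IsUnit (Matrix.of fun j => δ (c j)).det := Ne.isUnit hd
  let φ : (Fin N → K) →ₗ[K] K :=
    (LinearMap.proj i).comp (Matrix.vecMulLinear (Matrix.of fun j => δ (c j))⁻¹)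
  have hφ : ∀ j, φ (δ (c j)) = if j = i then 1 else 0 := fun j => by
    have h1 := congrFun (congrFun (Matrix.mul_nonsing_inv _ hu) j) i
    rw [Matrix.one_apply] at h1
    exact h1
  refine ⟨φ.compDer δ, fun f hf => ?_, ?_⟩
  · obtain ⟨r, hr, h⟩ := hc.2 f hf
    change φ (δ f) ∈ O
    rw [h, map_sum]
    refine O.sum_mem fun j _ => ?_
    rw [map_smul, hφ, smul_eq_mul]
    refine O.mul_mem (hr j) ?_
    split_ifs
    · exact O.one_mem
    · exact O.zero_mem
  · change IsU O (φ (δ (c i)))
    rw [hφ, if_pos rfl]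
    exact ⟨one_ne_zero, O.one_mem, by rw [inv_one]; exact O.one_mem⟩

end DerL

theorem der_stmt : Der := ⟨DerL.ex, DerL.chain, DerL.dual⟩

end Pool.Agent.MP_20d318_ag.CH
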