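import Pool.Agent.MP_20d318_ag.CH.Spec

/-! Row DIM: points of codimension at most one. -/

set_option autoImplicit false

namespace Pool.Agent.MP_20d318_ag.CH

open Pool.Agent.MP_fd6584_ag.Fn Pool.Agent.CBk Polynomial
open Pool.Agent.MP_fd6584_ag.AG hiding deg_inv deg_congr deg_of_unit deg_mul deg_prod deg_zpow
  deg_eq_zero deg_nonneg deg_div deg_pow

namespace DimRw

variable {k K : Type} [Field k] [Field K] [Algebra k K]

theorem card {s m : ℕ} {y : Fin s → K} (hy : IntermediateField.adjoin k (Set.range y) = ⊤)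
    {c : Fin m → K} (hc : AlgebraicIndependent k c) : m ≤ s := by
  have : Algebra.IsAlgebraic (Algebra.adjoin k (Set.range y)) K := ⟨fun f => by
    have hf : f ∈ IntermediateField.adjoin k (Set.range y) := by
      rw [hy]; exact IntermediateField.mem_top
    obtain ⟨a, ha, b, hb, rfl⟩ := IntermediateField.mem_adjoin_iff_div.1 hf
    rw [div_eq_mul_inv]
    exact (isAlgebraic_algebraMap (⟨a, ha⟩ : Algebra.adjoin k (Set.range y))).mul
      (isAlgebraic_algebraMap (⟨b, hb⟩ : Algebra.adjoin k (Set.range y))).inv⟩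
  have h2 := Algebra.IsAlgebraic.trdeg_le_cardinalMk k (A := K) (Set.range y)
  have h3 := hc.lift_cardinalMk_le_trdeg
  have h4 : Cardinal.mk (Set.range y) ≤ (s : Cardinal) := by
    simpa using Cardinal.mk_range_le (f := y)
  simp only [Cardinal.lift_id, Cardinal.mk_fin] at h3
  exact_mod_cast h3.trans (h2.trans h4)

theorem split {m : ℕ} (f : K) (a : Fin m → K) (p : MvPolynomial (Fin (m + 1)) k) :
    MvPolynomial.aeval (Fin.cons f a : Fin (m + 1) → K) p =
      eval₂ (MvPolynomial.aeval a : MvPolynomial (Fin m) k →ₐ[k] K).toRingHom f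
        (MvPolynomial.finSuccEquiv k m p) := by
  induction p using MvPolynomial.induction_on with
  | C c => simp [MvPolynomial.finSuccEquiv_apply]
  | add p q hp hq => rw [map_add, map_add, eval₂_add, hp, hq]
  | mul_X p i hp =>
    rw [map_mul, map_mul, eval₂_mul, hp]
    refine Fin.cases ?_ (fun j => ?_) i
    · simp [MvPolynomial.finSuccEquiv_X_zero]
    · simp [MvPolynomial.finSuccEquiv_X_succ]

/-- A function that vanishes at `R` but not at `W` is independent of the residues at `R`. -/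
theorem drop {R W : Subalgebra k K} (hR : IsLocalRing R) (hle : R ≤ W) {f : K} (hf : f ∈ mx R)
    (hu : IsU W f) {m : ℕ} {a : Fin m → K} (ha : Ind R a) :
    Ind W (Fin.cons f a : Fin (m + 1) → K) := by
  refine ⟨fun i => Fin.cases hu.mem (fun j => hle (ha.1 j)) i, fun p hp => ?_⟩
  have hm : ∀ c : MvPolynomial (Fin m) k, MvPolynomial.aeval a c ∈ R := fun c => by
    have h1 : MvPolynomial.aeval a c ∈ Algebra.adjoin k (Set.range a) := by
      rw [Algebra.adjoin_range_eq_range_aeval]; exact ⟨c, rfl⟩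
    exact Algebra.adjoin_le (Set.range_subset_iff.2 ha.1) h1
  have hq : ∀ q : (MvPolynomial (Fin m) k)[X],
      eval₂ (MvPolynomial.aeval a : MvPolynomial (Fin m) k →ₐ[k] K).toRingHom f q ∈ R := fun q => by
    induction q using Polynomial.induction_on' with
    | add p q hp hq => rw [eval₂_add]; exact R.add_mem hp hq
    | monomial j c => rw [eval₂_monomial]; exact R.mul_mem (hm c) (R.pow_mem hf.1 j)
  have h0 : MvPolynomial.finSuccEquiv k m p ≠ 0 := by simpa using hp
  obtain ⟨q, h1, h2⟩ := exists_eq_pow_rootMultiplicity_mul_and_not_dvd _ h0 0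
  rw [map_zero, sub_zero] at h1 h2
  rw [X_dvd_iff] at h2
  rw [split, h1, eval₂_mul, eval₂_pow, eval₂_X]
  refine (hu.pow _).mul (IsU.mono ?_ hle)
  rw [← X_mul_divX_add q, eval₂_add, eval₂_mul, eval₂_X, eval₂_C, add_comm]
  exact (ha.2 _ h2).add_mx hR (mx_mul_right hf (hq _))

theorem place {n : ℕ} {y : Fin (n + 1) → K} (hy : IntermediateField.adjoin k (Set.range y) = ⊤)
    (P : Place k K) : Dim (plO P) n := by
  rintro ⟨r, hr⟩
  have h1 : P.unif ∈ mx (plO P) := (mx_plO P.unif_ne).2 (by simp)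
  have h2 := drop (plO_isVal P).isLocalRing le_top h1 (isU_top.2 P.unif_ne) hr
  have h3 := card hy (algebraicIndependent_iff.2 fun p hp => by_contra fun h => (h2.2 p h).ne hp)
  omega

end DimRw

theorem dim_stmt : DimStmt := by
  intro k M _ _ _ Y n y hY hy
  refine ⟨fun P _ => DimRw.place hy P, fun R hR hD => ?_⟩
  obtain ⟨r, hr⟩ := not_not.1 hD
  refine or_iff_not_imp_left.2 fun hne => ?_
  obtain ⟨a, ha⟩ : ∃ a, a ∉ R := by
    by_contra h
    exact hne (eq_top_iff.2 fun a _ => by_contra fun h' => h ⟨a, h'⟩)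
  obtain ⟨P, hP, hle⟩ : ∃ P : Place k M, plO P ∈ Y ∧ R ≤ plO P := by
    by_contra h
    exact ha (hY.krull hR fun P h1 h2 => absurd ⟨P, h1, h2⟩ h)
  refine ⟨P, hY.sep R hR _ hP _ (hY.loc _ hP) ⟨hle, fun u hu hW => by_contra fun h => ?_⟩
    (Dom.refl _)⟩
  exact DimRw.place hy P ⟨_, DimRw.drop (hY.loc R hR) hle ⟨hu, h⟩ hW hr⟩

end Pool.Agent.MP_20d318_ag.CH
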