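import Pool.Agent.MP_20d318_ag.CH.Spec

/-! The classes of the divisors on the blow-up and on its double cover. -/

set_option autoImplicit false
set_option linter.unusedSectionVars false

namespace Pool.Agent.MP_20d318_ag.CH

open Pool.Agent.MP_fd6584_ag.Fn Pool.Agent.CBk
open Pool.Agent.MP_fd6584_ag.AG hiding deg_inv deg_congr deg_of_unit deg_mul deg_prod deg_zpow
  deg_eq_zero deg_nonneg deg_div deg_pow

namespace DvR

variable {k M K Λ κ : Type} {n : ℕ} [Field k] [Field M] [Field K] [Algebra k M] [Algebra k K]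
  [IsAlgClosed k] [Fintype κ] {L : Lv k M Λ κ n} {ι : M →ₐ[k] K} {l : k} {ζ w : K} {e : ℕ}
  (h : All L ι l ζ w e)

include h

theorem pull_mem {x : N1 L.Y} (hx : x ∈ AddSubgroup.closure (Set.range Cartier.n1)) :
    pull h.gY h.gX h.loc.maps x ∈ AddSubgroup.closure (Set.range Cartier.n1) := by
  induction hx using AddSubgroup.closure_induction with
  | mem x hx =>
    obtain ⟨D, rfl⟩ := hx
    rw [n1_eq, pull_cl _ _ _ D.isCart]
    exact cl_mem (h.div.cartU _ D.isCart)
  | zero => rw [map_zero]; exact zero_mem _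
  | add x y _ _ a b => rw [map_add]; exact add_mem a b
  | neg x _ a => rw [map_neg]; exact neg_mem a

theorem degC (ν : Curve (XX L ι ζ w e)) (i : κ) : ν.deg (sN L ι l ζ (Sum.inl i)) =
    ν.deg (sX L ι i) - ∑ j, ν.deg (EE L ι l ζ i j) := by
  have e1 : sN L ι l ζ (Sum.inl i) = sX L ι i / ∏ j, EE L ι l ζ i j := by
    funext O
    simp only [sN, Sum.elim_inl, Pi.div_apply, Finset.prod_apply]
  rw [e1, deg_div h.gX (h.div.cartS i) (isCart_prod fun j _ => h.div.cartE i j),
    deg_prod h.gX fun j _ => h.div.cartE i j]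

theorem degF (ν : Curve (XX L ι ζ w e)) (j : Fin 4) : ν.deg (sN L ι l ζ (Sum.inr j)) =
    -ν.deg (eta ζ) - ∑ i, ν.deg (EE L ι l ζ i j) := by
  have e1 : sN L ι l ζ (Sum.inr j) = tau l ζ j / ∏ i, EE L ι l ζ i j := by
    funext O
    simp only [sN, Sum.elim_inr, Pi.div_apply, Finset.prod_apply]
  rw [e1, deg_div h.gX (h.div.cartT j) (isCart_prod fun i _ => h.div.cartE i j),
    deg_prod h.gX fun i _ => h.div.cartE i j, h.div.degT]

theorem cC (i : κ) : cl (XX L ι ζ w e) (sN L ι l ζ (Sum.inl i)) = h.Phi (L.nd.rowW i) := by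
  classical
  refine n1_ext fun ν => Eq.trans ?_ (h.phi_d ν _).symm
  rw [cl_val (h.div.cartN _), degC h]
  simp only [Nd.rowW, h.pj_c, zero_mul, add_zero, ite_mul, one_mul]
  rw [Finset.sum_eq_single i (fun b _ hb => by simp [hb]) (by simp)]
  simp

theorem cT (j : Fin 4) : cl (XX L ι ζ w e) (sN L ι l ζ (Sum.inr j)) = h.Phi (colW j) := by
  refine n1_ext fun ν => Eq.trans ?_ (h.phi_d ν _).symm
  rw [cl_val (h.div.cartN _), degF h]
  simp [colW]

theorem cF : h.Phi (0, 1, 0) = cl (XX L ι ζ w e) (tau l ζ 0) := by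
  refine n1_ext fun ν => (h.phi_d ν _).trans ?_
  rw [cl_val (h.div.cartT 0), h.div.degT]
  simp

theorem cE (i : κ) (j : Fin 4) : h.Phi (excW i j) = cl (XX L ι ζ w e) (EE L ι l ζ i j) := by
  classical
  refine n1_ext fun ν => (h.phi_d ν _).trans ?_
  rw [cl_val (h.div.cartE i j)]
  simp only [excW, map_zero, zero_mul, add_zero, zero_sub]
  rw [Finset.sum_eq_single i (fun b _ hb => by simp [hb]) (by simp),
    Finset.sum_eq_single j (fun b _ hb => by simp [hb]) (by simp)]
  simp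

theorem eL {x : N1 L.Y} (hx : x ∈ Glue.Ef L.Y) :
    pull h.gY h.gX h.loc.maps x ∈ Glue.Ef (XX L ι ζ w e) := by
  refine ((Lat.isCone_cone _).preimage (pull h.gY h.gX h.loc.maps)).cone_subset ?_ hx
  rintro _ ⟨D, hD, rfl⟩
  rw [Set.mem_preimage, n1_eq, pull_cl _ _ _ D.isCart]
  exact cl_eff (h.div.cartU _ D.isCart) fun O hO =>
    (h.loc.maps.dom hO).1 (hD _ (h.loc.maps.mem hO))

end DvR

theorem dv_stmt : DvStmt := by
  intro k M K Λ κ n _ _ _ _ _ _ _ _ _ L ι l ζ w e h
  refine ⟨fun D hD => ?_, ?_, DvR.cC h, DvR.cT h, fun x hx => ?_, ?_, fun i j => ?_, fun i => ?_⟩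
  · exact sub_mem (sub_mem (DvR.pull_mem h hD.1) (hD.2.1.smul_mem (cl_mem h.div.cartZ)))
      (sum_mem fun i _ => sum_mem fun j _ => (hD.2.2 i j).smul_mem (cl_mem (h.div.cartE i j)))
  · exact eq_top_iff.2 (span_cl.ge.trans (Submodule.span_mono AddSubgroup.subset_closure))
  · have : h.Phi (x, 0, 0) = pull h.gY h.gX h.loc.maps x := by simp [All.Phi]
    exact Set.mem_of_eq_of_mem this (DvR.eL h hx)
  · exact Set.mem_of_eq_of_mem (DvR.cF h)
      (cl_eff (h.div.cartT 0) fun O hO => h.loc.tm O hO 0)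
  · exact Set.mem_of_eq_of_mem (DvR.cE h i j)
      (cl_eff (h.div.cartE i j) fun O hO => h.div.em O hO i j)
  · refine cl_eff (h.div.cartN i) fun O hO => ?_
    rcases i with i | j
    exacts [(h.div.rC O hO i).1, (h.div.rT O hO j).1]

end Pool.Agent.MP_20d318_ag.CH
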