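import Pool.Agent.MP_20d318_ag.CH.Spec

/-! Effective divisors have effective images. -/

set_option autoImplicit false
set_option linter.unusedSectionVars false

namespace Pool.Agent.MP_20d318_ag.CH

open Pool.Agent.MP_fd6584_ag.Fn Pool.Agent.CBk Polynomial
open Pool.Agent.MP_fd6584_ag.AG hiding deg_inv deg_congr deg_of_unit deg_mul deg_prod deg_zpow
  deg_eq_zero deg_nonneg deg_div deg_pow
open Pool.Agent.MVg (Sc Fac GaussStmt)

namespace EffR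

variable {k M K Λ κ : Type} {n : ℕ} [Field k] [Field M] [Field K] [Algebra k M] [Algebra k K]
  [Fintype κ] {L : Lv k M Λ κ n} {ι : M →ₐ[k] K} {l : k} {ζ w : K} {e : ℕ}

theorem comap_one (R : Subalgebra k M) : R.comap ((1 : M ≃ₐ[k] M) : M →ₐ[k] M) = R := by
  ext x; simp

theorem lf_one (h : All L ι l ζ w e) : Lf L Aut.one (-1) := by
  refine ⟨by simp, by simp [Aut.one], fun i R hR => ?_⟩
  have e1 : R.comap (((Aut.one : Aut L.Y).1 : M ≃ₐ[k] M) : M →ₐ[k] M) = R := comap_one R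
  have e2 : (Aut.one : Aut L.Y).1 (L.s i R) = L.s i R := rfl
  rw [e1, e2, div_self ((h.ok.cs i).ne hR)]
  exact isU_one

theorem lb_sq (g : Subalgebra k M → M) (t : ℤ) (a : κ → Fin 4 → ℤ) (O : Subalgebra k K) :
    lb L ι l ζ (g ^ 2) (t * 2) (fun i j => a i j * 2) O =
      lb L ι l ζ g t a O * lb L ι l ζ g t a O := by
  have e1 : ∀ (x : K) (s : ℤ), x ^ (-(s * 2)) = (x ^ (-s)) ^ 2 := fun x s => by
    rw [← neg_mul, zpow_mul, zpow_ofNat]
  unfold lb up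
  simp only [e1, Finset.prod_pow, Pi.pow_apply, map_pow]
  ring

theorem lb_up {g : Subalgebra k M → M} (hg : IsCart L.Y g) (h : All L ι l ζ w e)
    {θ : Aut (XX L ι ζ w e)} (hθ : Up L ι l ζ w e Aut.one (-1) θ) (t : ℤ) (a : κ → Fin 4 → ℤ)
    {O : Subalgebra k K} (hO : O ∈ XX L ι ζ w e) :
    IsU O (θ.1 (lb L ι l ζ g t a (O.comap (θ.1 : K →ₐ[k] K))) / lb L ι l ζ g t a O) := by
  have e1 : θ.1 (up ι L.Y g (O.comap (θ.1 : K →ₐ[k] K))) = up ι L.Y g O := by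
    unfold up
    rw [hθ.h1, hθ.pr O hO]
    exact congrArg (fun R => ι (g R)) (comap_one _)
  have e2 : θ.1 (eta ζ (O.comap (θ.1 : K →ₐ[k] K))) = eta ζ O := by
    have e3 : ζ ∈ O.comap (θ.1 : K →ₐ[k] K) ↔ ζ ∈ O := by
      rw [Subalgebra.mem_comap]
      exact iff_of_eq (congrArg (· ∈ O) hθ.h2)
    unfold CBk.eta
    by_cases hz : ζ ∈ O
    · rw [if_pos hz, if_pos (e3.2 hz), map_one]
    · rw [if_neg hz, if_neg fun h' => hz (e3.1 h'), hθ.h2]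
  have n1 : up ι L.Y g O * eta ζ O ^ (-t) ≠ 0 :=
    mul_ne_zero ((h.div.cartU g hg).ne hO) (zpow_ne_zero _ (h.div.cartZ.ne hO))
  unfold lb
  rw [map_mul, map_mul, map_zpow₀, e1, e2, mul_div_mul_left _ _ n1, map_prod,
    ← Finset.prod_div_distrib]
  refine isU_prod fun i _ => ?_
  rw [map_prod, ← Finset.prod_div_distrib]
  refine isU_prod fun j _ => ?_
  rw [map_zpow₀, ← div_zpow]
  exact (hθ.ee O hO i j).zpow _

end EffR

theorem eff_stmt : EffStmt := by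
  intro k M K Λ κ n _ _ _ _ _ _ _ _ _ L ι l ζ w e h hS hP g t a hg μ hμ s1
  obtain ⟨θ, hθ⟩ := hS _ _ (EffR.lf_one h)
  have s2 : Sc (XX L ι ζ w e) (lb L ι l ζ g t a) (θ.1 μ) := fun O hO => by
    have h1 : θ.1 (μ * lb L ι l ζ g t a (O.comap (θ.1 : K →ₐ[k] K))) ∈ O := s1 _ ((θ.2 O).1 hO)
    have h2 := EffR.lb_up hg h hθ t a hO
    have h3 := O.mul_mem h1 h2.inv_mem
    rwa [map_mul, inv_div, mul_assoc, mul_div_cancel₀ _ (div_ne_zero_iff.1 h2.1).1] at h3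
  refine hP (g ^ 2) (t * 2) (fun i j => a i j * 2) (hg.pow 2) (μ * θ.1 μ)
    (mul_ne_zero hμ ((map_ne_zero θ.1).2 hμ)) (h.fld.nrm θ.1 hθ.h1 hθ.h2 hθ.h3 μ) fun O hO => ?_
  rw [EffR.lb_sq, mul_mul_mul_comm]
  exact O.mul_mem (s1 O hO) (s2 O hO)

end Pool.Agent.MP_20d318_ag.CH
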