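import Pool.Agent.MP_20d318_ag.CC.Stmt

/-! Double covers of the product of a surface with several projective lines. -/

set_option autoImplicit false

open AlgebraicGeometry CategoryTheory

namespace Pool.Agent.MP_20d318_ag.CH

open Pool.Agent.MP_fd6584_ag Pool.Agent.MP_fd6584_ag.Pj

variable {k M : Type} [Field k] [Field M] [Algebra k M] {X : Scheme.{0}} [IsIntegral X]

/-- The function field of `X` is `M(ζ 0, …, ζ (m - 1), w)` with the `ζ r` algebraically independent
over `M` and `w² = φ · ∏ ζ r (ζ r - 1) (ζ r - l r)`, and the rational maps from `X` to the surface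
with local rings `T` and to the lines with coordinates `ζ r` are morphisms. -/
def MultiCover (s : X ⟶ Spec (CommRingCat.of k)) (T : Set (Subalgebra k M)) (φ : M) {m : ℕ}
    (l : Fin m → k) : Prop :=
  letI : Algebra k X.functionField := (const s).toAlgebra
  ∃ (ι : M →ₐ[k] X.functionField) (ζ : Fin m → X.functionField) (w : X.functionField),
    (∀ q : MvPolynomial (Fin m) M, q.eval₂ (ι : M →+* X.functionField) ζ = 0 → q = 0) ∧
    w ^ 2 = ι φ * ∏ r, ζ r * (ζ r - 1) * (ζ r - const s (l r)) ∧
    IntermediateField.adjoin k (Set.range ι ∪ (Set.range ζ ∪ {w})) = ⊤ ∧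
    ∀ p : X, (∃ O ∈ T, ∀ a ∈ O, RegAt p (ι a)) ∧ ∀ r, RegAt p (ζ r) ∨ RegAt p (ζ r)⁻¹

end Pool.Agent.MP_20d318_ag.CH
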