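import Pool.Agent.MP_20d318_ag.CH.Asm
import Pool.Agent.MP_20d318_ag.CH.BSpec
import Pool.Agent.MP_20d318_ag.CH.Stmt
import Pool.Agent.MP_20d318_ag.CC.Asm
import Pool.Agent.MP_20d318_ag.CC.Brg

/-! The first level and the scheme. -/

set_option autoImplicit false
set_option linter.unusedSectionVars false
set_option linter.style.haveILetI false

open AlgebraicGeometry CategoryTheory

namespace Pool.Agent.MP_20d318_ag.CH

open Pool.Agent.MP_fd6584_ag Pool.Agent.MP_fd6584_ag.Pj Pool.Agent.CBk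
open Pool.Agent.MP_fd6584_ag.AG hiding deg_inv deg_congr deg_of_unit deg_mul deg_prod deg_zpow
  deg_eq_zero deg_nonneg deg_div deg_pow
open Pool.Agent.MP_20d318_ag.CB (ip toR act act_one)
open Pool.Agent.MP_20d318_ag.CB.P (Pd Pair0 Pair Sg)

/-- The rows on the first level. -/
structure BMods : Prop where
  g : CC.GMods
  l : CC.LMods
  tr : TrStmt.{0, 0, 1, 1}
  skb : SkbStmt
  cvb : CvbStmt
  xyp : XypStmt
  gkc : GkcStmt
  gra : GraStmt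
  grb : GrbStmt
  bs0 : Bs0Stmt
  iso : IsoStmt
  th0 : Th0Stmt

variable {k M I κ : Type} [Field k] [NeZero (2 : k)] [IsAlgClosed k] [Field M] [Algebra k M]
  [Fintype I] [Fintype κ] {p : Pd k M I κ}

open Classical in
theorem sg_one (h : Pair0 p) : Sg p 1 1 := by
  refine ⟨fun _ => Iff.rfl, fun c => ⟨1, one_ne_zero, fun O hO => ?_⟩, fun i O hO => ?_, 1,
    one_ne_zero, by simp⟩
  · rw [act_one, one_mul]
    exact (div_self ((h.all.a1.cart c).ne hO)).symm ▸ isU_one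
  · exact (div_self ((h.all.a1.pcart _ _ (h.prm i).choose_spec.1).ne hO)).symm ▸ isU_one

theorem BMods.levB (b : BMods) (h : Pair p) : Lev (lv0 p).nd Set.univ := by
  classical
  obtain ⟨ψ, h1, -⟩ := b.iso k M I κ p {ρ | ∃ σ, Sg p σ ρ} h.toPair0 fun _ h => h
  refine b.tr _ _ _ _ _ _ _ ψ Set.univ h1 (CH.levB b.skb b.cvb h.ns
    ⟨1, ⟨1, sg_one h.toPair0⟩, act_one⟩ fun hF => ?_)
  obtain ⟨N, hN, h2⟩ := CB.P.trans_stmt k M I κ p h.toPair0 hF (h.hz.two hF) (h.hasInv hF)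
  refine ⟨N, hN, fun x hx => ?_⟩
  obtain ⟨σ, ρ, h3, h4⟩ := h2 x hx
  exact ⟨ρ, ⟨σ, h3⟩, h4⟩

theorem BMods.lev (b : BMods) (h : Pair0 p) {N : ℕ} {ε : ℕ → I → ℤ}
    (st : CC.ST p.B p.K p.PP N ε) : ∃ 𝓗, Lev (lv0 p).nd 𝓗 ∧ TH (lv0 p) 𝓗 := by
  rcases b.g.pcx k M I κ p h with ⟨i, hi⟩ | h4
  · exact ⟨Set.univ, (b.levB hi :), fun _ _ _ _ _ _ _ _ _ _ _ => trivial⟩
  have c := b.g.cob b.l h h4
  have xn := b.l.xn I κ p.ld c.b0
  obtain ⟨ψ, h1, h2⟩ := b.iso k M I κ p {ρ | ρ ∈ CC.GG p ∧ ∀ i, act ρ (p.C i) = p.C i} h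
    fun ρ hρ => (b.g.grp k M I κ p c).sg ρ hρ.1 hρ.2
  refine ⟨_, b.tr _ _ _ _ _ _ _ ψ _ h1 (levC (b.xyp b.l.lp) b.gkc c.b0 xn
    (b.l.kc b.l.rb b.l.rc b.l.ka b.l.kb I κ p.ld c.b0 (b.l.c0' c.b0))
    (b.l.lc c.b0.nc st (b.g.ad c))), fun K _ _ ι l ζ w e a =>
      b.th0 b.gra b.grb k M K I κ p ψ ι l ζ w e a h h2 fun d hd σ => ?_⟩
  obtain ⟨A, s₀, s₃, h3⟩ := b.g.ga k M I κ p d σ l c hd a.ext.l0 a.ext.l1
  obtain ⟨φ, P, y, h4⟩ := b.g.gb1 k M I κ p d A σ l s₀ s₃ c xn h3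
  exact ⟨A, s₀, s₃, φ, P, b.g.gb2 k M I κ p d A σ l s₀ s₃ φ P y c h4⟩

theorem final (m : Mods) (b : BMods) {T : Set (Subalgebra k M)} {D₁ D₂ : Derivation k M M} {φ : M}
    {r : ℕ} {l : Fin r → k} (hT : RS.Tower T) (h1 : RS.BiAnti T D₁ D₂ φ)
    (h2 : RS.SmoothZero T D₁ D₂ φ) (hr : 0 < r) (hl : ∀ i, l i ≠ 0 ∧ l i ≠ 1) :
    ∃ (X : Scheme.{0}) (_ : IsIntegral X) (s : X ⟶ Spec (CommRingCat.of k)),
      IsProjective s ∧ Smooth s ∧ TrivialCanonical s ∧ MultiCover s T φ l ∧ ConeConj s ∧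
        CC.NefConj s := by
  obtain ⟨r, rfl⟩ := Nat.exists_eq_succ_of_ne_zero hr.ne'
  obtain ⟨I, κ, _, _, p, n, ε₀, rfl, rfl, hp, st⟩ := b.g.pair hT h1 h2
  obtain ⟨𝓗, a1, a2⟩ := b.lev hp st
  obtain ⟨K, Λ, _, _, _, S, n, y, j, w, ι, ζ, fam, sm, ind, sep, j0, vol, tw, hc⟩ :=
    m.top (T := p.T) (φ := p.φ) (fun l => ⟨M, _, κ, 0, _, _, inferInstance, _, lv0 p, 𝓗, _, _,
      m.ok (b.bs0 m.der k M I κ p hp (b.g.ta k M I _ hp.all)), a1, a2, (m.tw k M _ _).1 l⟩) r l hl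
  obtain ⟨J, _, 𝒞, hC, hB⟩ := chart_of fam
  obtain ⟨N⟩ := exists_model 𝒞
  have hO : ∀ q, Sch.OA N q ∈ mp k S := fun q => hC ▸ Sch.OA_mem q
  refine ⟨N.X, N.integral, N.s, N.proj, N.smooth fun j => ?_,
    m.triv k K J 𝒞 N n y j ind sep j0 (hC ▸ vol), ?_, (Sch.bridge k K J 𝒞 N
      (hC ▸ ⟨hc, addv (fine_mp fam).toGood⟩)).2, CC.bridge N (hC ▸ hc)⟩
  · obtain ⟨G, g1, g2⟩ := hB j
    rw [g2]
    exact smG_stmt k K G g1 fun O g3 => sm O (hC ▸ Set.mem_iUnion.2 ⟨j, g2 ▸ g3⟩)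
  · letI : Algebra k N.X.functionField := (const N.s).toAlgebra
    let ε : N.X.functionField ≃ₐ[k] K := AlgEquiv.ofRingEquiv (f := N.e) N.e_const
    have reg : ∀ q, ∀ f ∈ Sch.OA N q, RegAt q (ε.symm f) := fun q f ⟨u, hu⟩ =>
      ⟨u, ε.eq_symm_apply.2 hu⟩
    refine ⟨ε.symm.toAlgHom.comp ι, fun i => ε.symm (ζ i), ε.symm w, fun q hq => tw.ind q ?_, ?_,
      ?_, fun q => ⟨?_, fun i => ?_⟩⟩
    · refine ε.symm.injective ?_
      rw [map_zero, ← hq]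
      exact MvPolynomial.eval₂_comp_left (ε.symm : K →+* N.X.functionField) _ ζ q
    · have := congrArg ε.symm tw.eq
      simp only [cb, map_pow, map_mul, map_prod, map_sub, map_one, AlgEquiv.commutes] at this
      exact this
    · have := congrArg (IntermediateField.map ε.symm.toAlgHom) tw.top
      rw [IntermediateField.adjoin_map, Set.image_union, Set.image_union, ← Set.range_comp,
        ← Set.range_comp, Set.image_singleton, ← AlgHom.fieldRange_eq_map,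
        AlgHom.fieldRange_eq_top.2 ε.symm.surjective] at this
      exact this
    · obtain ⟨R, hR, hd⟩ := (tw.reg _ (hO q)).1
      exact ⟨R, hR, fun a ha => reg q _ (hd a ha)⟩
    · rw [← map_inv₀]
      exact ((tw.reg _ (hO q)).2 i).imp (reg q _) (reg q _)

end Pool.Agent.MP_20d318_ag.CH
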