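import Pool.Agent.MP_20d318_ag.CH.Spec

/-! Facts on the field extension. -/

set_option autoImplicit false
set_option linter.unusedSectionVars false

namespace Pool.Agent.MP_20d318_ag.CH

open Pool.Agent.MP_fd6584_ag.Fn Pool.Agent.CBk Polynomial
open Pool.Agent.MP_fd6584_ag.AG hiding deg_inv deg_congr deg_of_unit deg_mul deg_prod deg_zpow
  deg_eq_zero deg_nonneg deg_div deg_pow
open IntermediateField (adjoin)

namespace FLD

variable {k M K : Type} [Field k] [Field M] [Field K] [Algebra k M] [Algebra k K] {φ : M}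
  {ι : M →ₐ[k] K} {l : k} {ζ w : K} {e : ℕ}

theorem rt_of (h : Tr ι ζ) {f : K} (hf : f ∈ adjoin k (Set.range ι ∪ {ζ})) : Rt ι ζ f := by
  induction hf using IntermediateField.adjoin_induction with
  | mem x hx =>
    rcases hx with ⟨m, rfl⟩ | rfl
    · exact ⟨C m, 1, one_ne_zero, by simp⟩
    · exact ⟨X, 1, one_ne_zero, by simp⟩
  | algebraMap c => exact ⟨C (algebraMap k M c), 1, one_ne_zero, by simp⟩
  | add x y _ _ hx hy =>
    obtain ⟨A, B, hB, rfl⟩ := hx
    obtain ⟨A', B', hB', rfl⟩ := hy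
    exact ⟨A * B' + B * A', B * B', mul_ne_zero hB hB', by
      rw [div_add_div _ _ (fun h0 => hB (h B h0)) fun h0 => hB' (h B' h0), eval₂_add, eval₂_mul,
        eval₂_mul, eval₂_mul]⟩
  | inv x _ hx =>
    obtain ⟨A, B, hB, rfl⟩ := hx
    by_cases hA : A = 0
    · exact ⟨0, 1, one_ne_zero, by simp [hA]⟩
    · exact ⟨B, A, hA, inv_div _ _⟩
  | mul x y _ _ hx hy =>
    obtain ⟨A, B, hB, rfl⟩ := hx
    obtain ⟨A', B', hB', rfl⟩ := hy
    exact ⟨A * A', B * B', mul_ne_zero hB hB', by rw [div_mul_div_comm, eval₂_mul, eval₂_mul]⟩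

theorem pow_mem' (h : Ext φ ι l ζ w e) {F : IntermediateField k K} (h1 : ∀ m, ι m ∈ F)
    (h2 : ζ ∈ F) : w ^ e ∈ F :=
  h.eq ▸ mul_mem (pow_mem (h1 φ) _) (mul_mem (mul_mem h2 (sub_mem h2 (one_mem _)))
    (sub_mem h2 (F.algebraMap_mem l)))

theorem eq_top (h : Ext φ ι l ζ w e) {F : IntermediateField k K} (h1 : ∀ m, ι m ∈ F)
    (h2 : ζ ∈ F) (h3 : w ∈ F) : F = ⊤ := by
  rw [eq_top_iff, ← h.top, IntermediateField.adjoin_le_iff]
  rintro _ (⟨b, rfl⟩ | rfl | rfl)
  exacts [h1 b, h2, h3]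

theorem dec (h : Ext φ ι l ζ w e) {F : IntermediateField k K} (h1 : ∀ m, ι m ∈ F) (h2 : ζ ∈ F)
    (h3 : w ^ 2 ∈ F) (f : K) : ∃ a ∈ F, ∃ b ∈ F, f = a + b * w := by
  have hf : f ∈ adjoin k (Set.range ι ∪ {ζ, w}) := h.top ▸ IntermediateField.mem_top
  induction hf using IntermediateField.adjoin_induction with
  | mem x hx =>
    rcases hx with ⟨m, rfl⟩ | rfl | rfl
    · exact ⟨_, h1 m, 0, zero_mem _, by simp⟩
    · exact ⟨_, h2, 0, zero_mem _, by simp⟩
    · exact ⟨0, zero_mem _, 1, one_mem _, by simp⟩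
  | algebraMap c => exact ⟨_, F.algebraMap_mem c, 0, zero_mem _, by simp⟩
  | add x y _ _ hx hy =>
    obtain ⟨a, ha, b, hb, rfl⟩ := hx
    obtain ⟨a', ha', b', hb', rfl⟩ := hy
    exact ⟨_, add_mem ha ha', _, add_mem hb hb', by ring⟩
  | inv x _ hx =>
    obtain ⟨a, ha, b, hb, rfl⟩ := hx
    by_cases h4 : a - b * w = 0
    · refine ⟨(a + a)⁻¹, inv_mem (add_mem ha ha), 0, zero_mem _, ?_⟩
      rw [← sub_eq_zero.1 h4, zero_mul, add_zero]
    · have hn : a ^ 2 - b ^ 2 * w ^ 2 ∈ F := sub_mem (pow_mem ha 2) (mul_mem (pow_mem hb 2) h3)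
      refine ⟨_, div_mem ha hn, _, div_mem (neg_mem hb) hn, ?_⟩
      rw [div_mul_eq_mul_div, ← add_div, neg_mul, ← sub_eq_add_neg, ← mul_pow, sq_sub_sq,
        div_mul_cancel_right₀ h4]
  | mul x y _ _ hx hy =>
    obtain ⟨a, ha, b, hb, rfl⟩ := hx
    obtain ⟨a', ha', b', hb', rfl⟩ := hy
    exact ⟨_, add_mem (mul_mem ha ha') (mul_mem (mul_mem hb hb') h3), _,
      add_mem (mul_mem ha hb') (mul_mem hb ha'), by ring⟩

theorem fix {θ : K ≃ₐ[k] K} (h1 : ∀ m, θ (ι m) = ι m) (h2 : θ ζ = ζ) {f : K} (h : Rt ι ζ f) :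
    θ f = f := by
  have key : ∀ A : M[X], θ (A.eval₂ (ι : M →+* K) ζ) = A.eval₂ (ι : M →+* K) ζ := fun A => by
    have := hom_eval₂ A (ι : M →+* K) (θ : K →+* K) ζ
    rwa [show (θ : K →+* K).comp (ι : M →+* K) = ι from RingHom.ext h1,
      show (θ : K →+* K) ζ = ζ from h2] at this
  obtain ⟨A, B, -, rfl⟩ := h
  rw [map_div₀, key, key]

theorem ind (h : Tr ι ζ) {N : ℕ} {y : Fin N → M} (hy : AlgebraicIndependent k y) :
    AlgebraicIndependent k (Fin.cons ζ fun i => ι (y i) : Fin (N + 1) → K) := by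
  have h1 : AlgebraicIndependent k fun i => ι (y i) := hy.map' ι.toRingHom.injective
  have h2 : Transcendental (Algebra.adjoin k (Set.range fun i => ι (y i))) ζ := by
    rintro ⟨p, hp, h0⟩
    have hle : Algebra.adjoin k (Set.range fun i => ι (y i)) ≤ ι.range :=
      Algebra.adjoin_le (by rintro _ ⟨i, rfl⟩; exact ⟨_, rfl⟩)
    let ε := AlgEquiv.ofInjective ι ι.toRingHom.injective
    let f := (ε.symm.toAlgHom.comp (Subalgebra.inclusion hle)).toRingHom
    refine hp ((Polynomial.map_eq_zero_iff (f := f)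
      (ε.symm.injective.comp (Subalgebra.inclusion_injective hle))).1 (h _ ?_))
    rw [eval₂_map, ← h0, aeval_def]
    congr 1
    exact RingHom.ext fun a => congrArg Subtype.val (ε.apply_symm_apply ⟨a, hle a.2⟩)
  have h3 := ((h1.option_iff_transcendental ζ).2 h2).comp _ (finSuccEquiv N).injective
  rwa [show (fun o : Option (Fin N) => o.elim ζ fun i => ι (y i)) ∘ finSuccEquiv N =
    Fin.cons ζ fun i => ι (y i) from funext fun i => by cases i using Fin.cases <;> simp] at h3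

theorem mems {N : ℕ} {y : Fin N → M} (hy : adjoin k (Set.range y) = ⊤) :
    (∀ m, ι m ∈ adjoin k (Set.range (Fin.cons ζ fun i => ι (y i) : Fin (N + 1) → K))) ∧
      ζ ∈ adjoin k (Set.range (Fin.cons ζ fun i => ι (y i) : Fin (N + 1) → K)) := by
  refine ⟨fun a => ?_, IntermediateField.subset_adjoin _ _ ⟨0, rfl⟩⟩
  have h5 : adjoin k (Set.range y) ≤
      (adjoin k (Set.range (Fin.cons ζ fun i => ι (y i) : Fin (N + 1) → K))).comap ι := by
    rw [IntermediateField.adjoin_le_iff]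
    rintro _ ⟨i, rfl⟩
    exact IntermediateField.subset_adjoin k _ ⟨i.succ, rfl⟩
  exact h5 (hy ▸ IntermediateField.mem_top)

theorem sep [NeZero (2 : k)] (h : Ext φ ι l ζ w e) {F : IntermediateField k K}
    (h1 : ∀ m, ι m ∈ F) (h2 : ζ ∈ F) : Algebra.IsSeparable F K := by
  have a : ∀ u ∈ F, u ∈ (separableClosure F K).restrictScalars k := fun u hu =>
    (separableClosure F K).algebraMap_mem ⟨u, hu⟩
  have mw := pow_mem' h h1 h2
  have hw : w ∈ (separableClosure F K).restrictScalars k := by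
    by_cases h0 : w = 0
    · exact h0 ▸ zero_mem _
    have he : (e : F) ≠ 0 := by
      rcases h.he with rfl | rfl
      · simp
      · exact_mod_cast two_ne k F
    exact (separable_X_pow_sub_C (n := e) (⟨_, mw⟩ : F) he fun e1 =>
      pow_ne_zero e h0 (congrArg Subtype.val e1)).of_dvd (minpoly.dvd F w (by simp))
  exact ⟨fun f => (eq_top h (fun m => a _ (h1 m)) (a _ h2) hw).ge IntermediateField.mem_top⟩

end FLD

open FLD in
theorem fld_stmt : FldStmt := by
  intro k M K _ _ _ _ _ _ φ ι l ζ w e h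
  have h1 : ∀ m, ι m ∈ adjoin k (Set.range ι ∪ {ζ}) := fun m =>
    IntermediateField.subset_adjoin _ _ (Or.inl ⟨m, rfl⟩)
  have h2 : ζ ∈ adjoin k (Set.range ι ∪ {ζ}) := IntermediateField.subset_adjoin _ _ (Or.inr rfl)
  have one : e = 1 → ∀ F : IntermediateField k K, (∀ m, ι m ∈ F) → ζ ∈ F → F = ⊤ := by
    rintro rfl F a b
    exact eq_top h a b (pow_one w ▸ pow_mem' h a b)
  have rt : e = 1 → ∀ μ, Rt ι ζ μ := fun he μ =>
    rt_of h.tr ((one he _ h1 h2).ge IntermediateField.mem_top)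
  refine ⟨rt, fun θ t1 t2 t3 μ => ?_, fun _ _ => ind h.tr,
    fun he _ _ hy => one he _ (mems hy).1 (mems hy).2, fun _ _ hy => sep h (mems hy).1 (mems hy).2⟩
  rcases h.he with rfl | rfl
  · exact rt rfl _
  have h3 := pow_mem' h h1 h2
  obtain ⟨a, ha, b, hb, rfl⟩ := dec h h1 h2 h3 μ
  rw [map_add, map_mul, fix t1 t2 (rt_of h.tr ha), fix t1 t2 (rt_of h.tr hb), t3]
  have e1 : (a + b * w) * (a + b * (ι ((-1) ^ (2 - 1)) * w)) = a ^ 2 - b ^ 2 * w ^ 2 := by
    simp only [Nat.add_one_sub_one, pow_one, map_neg, map_one]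
    ring
  exact e1 ▸ rt_of h.tr (sub_mem (pow_mem ha 2) (mul_mem (pow_mem hb 2) h3))

end Pool.Agent.MP_20d318_ag.CH
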