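import Pool.Agent.MP_20d318_ag.CH.LBase
import Pool.Agent.MP_20d318_ag.CC.Q1

/-! Row GKC: the decomposition when all components have square `-4`. -/

set_option autoImplicit false
set_option linter.unusedSectionVars false

namespace Pool.Agent.MP_20d318_ag.CH

open Pool.Agent.MP_20d318_ag.Lat hiding act actW W
open Pool.Agent.MP_20d318_ag.CB

namespace Gkc

variable {ι κ : Type} [Fintype ι] [Fintype κ] {Λ : Ld ι κ} {G : Set (Matrix ι ι ℤ)}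

theorem rat (h : CC.B0 Λ) {N : ι → ℝ} {n : ℕ} (hn : 0 < n) {c : ι → ℤ}
    (e : (n : ℝ) • N = toR c) (hN : N ∈ Λ.NT) : N ∈ (ldN Λ G).Ef := by
  have h0 : (0 : ℝ) < n := by exact_mod_cast hn
  have h1 : toR c ∈ Λ.NT := fun d hd => by
    rw [← e, ip_smul_left]
    exact mul_nonneg h0.le (hN d hd)
  have h2 := (isCone_cone _).smul _ (inv_nonneg.2 h0.le) _
    (ld_ef (G := G) (h.lb.ne _ ((h.lb.nefr _).1 h1)).2)
  rwa [← e, smul_smul, inv_mul_cancel₀ h0.ne', one_smul] at h2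

/-- A prime class of negative square meets at most two components. -/
theorem two (h : CC.B0 Λ) {c : ι → ℤ} (hc : c ∈ Λ.P) (hcc : ip Λ.B c c < 0) :
    ∃ a b : κ, ∀ i, i ≠ a → i ≠ b → ip Λ.B (Λ.C i) c = 0 := by
  rcases h.lb.neg c hc hcc with ⟨k, rfl⟩ | ⟨c1, -, c3⟩ | ⟨-, -, -, c4⟩
  · exact ⟨k, k, fun i hi _ => h.nc.disj i k hi⟩
  · rcases h.lb.pat c (h.lb.Cc c hc c1) c3 with ⟨k, -, s⟩ | ⟨k, l, -, -, -, s⟩
    · exact ⟨k, k, fun i hi _ => s i hi⟩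
    · exact ⟨k, l, s⟩
  · exact ⟨Λ.k0, Λ.k0, fun i _ _ => c4 i⟩

theorem cur (xy : XYP) (h : CC.B0 Λ) (xn : CC.XN Λ) (key : CC.KEY Λ) (c : Λ.P)
    (D : WW (ι → ℝ) κ) (hD : D ∈ (ldN Λ G).NL ∩ HG Λ) (p : κ → ℝ) (q : Fin 4 → ℝ)
    (ha : Adm D p q) : GKc (ldN Λ G) {L | 0 ≤ (ldN Λ G).d c L} D p q := by
  rcases le_or_gt 0 (ip Λ.B (c : ι → ℤ) c) with hcc | hcc
  · rw [ld_nn] at hD
    have : Nonempty κ := ⟨Λ.k0⟩
    obtain ⟨xh, x, y, k⟩ := xy ℝ κ D.2.2 D.2.1 p q hD.1.2.1 ha.p0 ha.q0 ha.pa ha.qa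
    refine ⟨x, y, k.x0, k.qy, k.le, k.sy, ?_, k.px⟩
    refine CC.LcA.nefc h key (xh := xh) (x := x) ⟨hD.1.2.2.1, fun i => ?_, k.x0, k.xx, k.p2,
      fun b hb => k.lp _ (xn.four b hb) (xn.s2 D hD.1 b hb) (hD.2 b hb), rfl⟩ c.2 hcc
    obtain ⟨j, e⟩ := k.att i
    exact e ▸ xn.nk D hD.1 i j
  · obtain ⟨a, b, hab⟩ := two h c.2 hcc
    exact gkc_few (ld_dich h.nc.disj h.lb.Cc) hD.1 ha (a := a) (b := b) fun i h1 h2 => by
      rw [ld_d, ld_c, ip_toR, hab i h1 h2, Int.cast_zero]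

theorem eff (xy : XYP) (h : CC.B0 Λ) (xn : CC.XN Λ) (key : CC.KEY Λ) (D : W ι κ ℤ)
    (hD : toRW D ∈ CC.NN Λ) (p : κ → ℤ) (q : Fin 4 → ℤ)
    (ha : Adm (toRW D) (fun i => p i) fun j => q j) :
    GKc (ldN Λ G) (ldN Λ G).Ef (toRW D) (fun i => p i) fun j => q j := by
  classical
  have nk := xn.nk _ hD.1
  have s2 := xn.s2 _ hD.1
  obtain ⟨p0, q0, pa, qa⟩ := ha
  obtain ⟨L, t, a⟩ := D
  obtain ⟨⟨a0, at', hL, -⟩, hM⟩ := hD
  simp only [toRW, Set.mem_ofPred_eq, ip_toR] at a0 at' hL hM nk s2 pa qa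
  have : Nonempty κ := ⟨Λ.k0⟩
  obtain ⟨xh, x, y, c⟩ := xy ℚ κ (fun k j => a k j) t (fun k => p k) (fun j => q j)
    (fun k => by exact_mod_cast at' k) (fun k => by exact_mod_cast p0 k)
    (fun j => by exact_mod_cast q0 j) (fun k j => by exact_mod_cast pa k j)
    fun k j => by exact_mod_cast qa k j
  obtain ⟨N, eN⟩ : ∃ N, N = toR L - ∑ k, (x k : ℝ) • toR (Λ.C k) := ⟨_, rfl⟩
  have x0 : ∀ k, (0 : ℝ) ≤ x k := fun k => by exact_mod_cast c.x0 k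
  have qy : ∀ j, (q j : ℝ) ≤ y j := fun j => by exact_mod_cast c.qy j
  have xa : ∀ k j, (a k j : ℝ) ≤ x k + y j := fun k j => by exact_mod_cast c.le k j
  have sy : ∑ j, (y j : ℝ) ≤ t := by exact_mod_cast c.sy
  obtain ⟨i₀, px⟩ := c.px
  have px' : ∀ i, i ≠ i₀ → (p i : ℝ) ≤ x i := fun i hi => by exact_mod_cast px i hi
  obtain ⟨T, hT, n1⟩ := key (toR L) N (fun k => xh k) (fun k => x k) ⟨hL, fun k => by
      obtain ⟨j, e⟩ := c.att k
      rw [e, Rat.cast_intCast]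
      exact nk k j, x0, fun k => by exact_mod_cast c.xx k, fun k => by exact_mod_cast c.p2 k,
    fun b hb => by
      rw [ip_toR]
      exact_mod_cast c.lp (ip Λ.B L b : ℤ) (xn.four b hb)
        (fun e j j' => by exact_mod_cast s2 b hb e j j') fun e => by exact_mod_cast hM b hb e, eN⟩
  obtain ⟨n, hn, z, hz⟩ := CC.LcBA.den x
  have e0 : (n : ℝ) • N = toR (n • L - ∑ k, z k • Λ.C k) := by
    simp only [eN, toR_sub, toR_sum, toR_zsmul, toR_nsmul, smul_sub, Finset.smul_sum, smul_smul, hz]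
  have n2 := rat (G := G) h hn (c := (n • L - ∑ k, z k • Λ.C k) +
    ∑ e ∈ T, ip Λ.B (n • L - ∑ k, z k • Λ.C k) e • e) (by
      simp only [toR_add, toR_sum (s := T), toR_zsmul, ← ip_toR, ← e0, ip_smul_left, smul_add,
        Finset.smul_sum, smul_smul]) n1
  have C := isCone_cone (toR '' Λ.P)
  have n3 := C.add _ n2 _ (C.sum_mem T (fun e => (-ip Λ.B N (toR e)) • toR e)
    fun e he => C.smul _ (neg_nonneg.2 (hT e he).2.le) _ (ld_ef (G := G) (hT e he).1))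
  simp only [neg_smul, Finset.sum_neg_distrib, add_neg_cancel_right] at n3
  rw [eN] at n3
  exact ⟨fun k => x k, fun j => y j, x0, qy, xa, sy, n3, i₀, px'⟩

end Gkc

theorem gkc_stmt : GkcStmt := by
  intro xy ι κ _ _ Λ G h xn key
  refine ⟨Gkc.cur xy h xn key, fun D hD hL p q ha hp hq => ?_⟩
  obtain ⟨E, rfl⟩ := ld_lw.1 hL
  choose p' hp using hp
  choose q' hq using hq
  obtain rfl : p = fun i => (p' i : ℝ) := funext hp
  obtain rfl : q = fun j => (q' j : ℝ) := funext hq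
  exact Gkc.eff xy h xn key E (ld_nn.subset hD) p' q' ha

end Pool.Agent.MP_20d318_ag.CH
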