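import Pool.Agent.MP_20d318_ag.CH.Spec

/-! Row GRA: a curve over a given curve, along the graph of a function. -/

set_option autoImplicit false
set_option linter.unusedSectionVars false

namespace Pool.Agent.MP_20d318_ag.CH

open Pool.Agent.MP_fd6584_ag.Fn Pool.Agent.CBk
open Pool.Agent.MP_fd6584_ag.AG hiding deg_inv deg_congr deg_of_unit deg_mul deg_prod deg_zpow
  deg_eq_zero deg_nonneg deg_div deg_pow
open Pool.Agent.CBk.XTst (mem_of_dom zor tau_unit)

namespace GraA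

theorem algM_of_sub {k K : Type} [Field k] [Field K] [Algebra k K] {O B : Subalgebra k K}
    {a b : K} (hb : b ∈ B) (h : a - b ∈ mx O) : AlgM O B a := by
  refine ⟨Polynomial.X - Polynomial.C b, fun i => ?_, ⟨1, ?_⟩, by simpa using h⟩
  · rw [Polynomial.coeff_sub, Polynomial.coeff_X, Polynomial.coeff_C]
    refine B.sub_mem ?_ ?_
    · split_ifs
      exacts [B.one_mem, B.zero_mem]
    · split_ifs
      exacts [hb, B.zero_mem]
  · simpa using isU_one

end GraA

theorem gra_stmt : GraStmt := by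
  intro k M K Λ κ n _ _ _ _ _ _ _ _ _ L ι l ζ w e h P u hP hd1 hi
  classical
  have htr : Tr ι (ζ - ι u) := by
    have := h.ext.tr.lin (a := 1) one_ne_zero (-u)
    rwa [map_one, one_mul, map_neg, ← sub_eq_add_neg] at this
  obtain ⟨V, hV, hd, hv⟩ := (up_stmt k M K ι (plO P) (ζ - ι u) (h.gY.loc _ hP) htr).1 0
  rw [map_zero, sub_zero] at hv
  obtain ⟨O, hO, hOV, he⟩ := h.below hP hV hd
  have hl := h.gX.loc O hO
  have hu0 : u ∈ pr ι L.Y O := he ▸ (by simpa using hi.1 0)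
  have hu1 : ι u ∈ O := h.loc.maps.mem_up hO hu0
  have hz : ζ ∈ O := mem_of_dom hOV (zor (h.loc.zm O hO))
    (by simpa using V.add_mem hv.1 (hOV.1 hu1))
  have hv' : ζ - ι u ∈ mx O := mx_of_le hOV.1 (O.sub_mem hz hu1) hv
  have hu : ∀ j, IsU O (tau l ζ j O) := tau_unit hz fun c _ => by
    have h1 : IsU (pr ι L.Y O) (u - algebraMap k M c) := he ▸ ind_one hi c
    have h2 := (h.loc.maps.isU_up hO h1).add_mx hl hv'
    rwa [map_sub, AlgHom.commutes, sub_add_sub_cancel'] at h2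
  have h1 : Dim O 1 := h.loc.dimZ O hO 1 (he ▸ hd1)
    (GraA.algM_of_sub (b := ι u) ⟨u, hu0, rfl⟩ (by rwa [zc, if_pos hz])) fun ⟨hA, i, hs⟩ => by
      have h2 : ∏ i, sX L ι i O ∈ mx O := by
        rw [← Finset.mul_prod_erase _ _ (Finset.mem_univ i)]
        exact mx_mul_right hs (O.prod_mem fun j _ => h.loc.sm O hO j)
      have := mx_mul_left (O.pow_mem hA.mem e) h2
      rw [h.loc.eqn O hO] at this
      exact this.2 (isU_prod fun j _ => hu j)
  have h0 : ¬ Dim O 0 := fun h0 => (he ▸ h0.comap (h.loc.maps.dom hO) : Dim (plO P) 0) ⟨![u], hi⟩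
  obtain ⟨ν, rfl⟩ := curve_stmt k K _ h.gX O hO h1 h0
  exact ⟨ν, he, hv'⟩

end Pool.Agent.MP_20d318_ag.CH
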