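import Pool.Agent.MP_20d318_ag.CH.Spec

/-! The degrees of the graph curves. -/

set_option autoImplicit false
set_option linter.unusedSectionVars false

namespace Pool.Agent.MP_20d318_ag.CH

open Pool.Agent.MP_fd6584_ag.Fn Pool.Agent.CBk
open Pool.Agent.MP_fd6584_ag.AG hiding deg_inv deg_congr deg_of_unit deg_mul deg_prod deg_zpow
  deg_eq_zero deg_nonneg deg_div deg_pow

namespace GrbR

variable {k M K Λ κ : Type} {n : ℕ} [Field k] [IsAlgClosed k] [Field M] [Field K]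
  [Algebra k M] [Algebra k K] [Fintype κ]

/-- The four sections. -/
abbrev sg (l : k) (s₀ s₃ : M) (j : Fin 4) : M := ![s₀, s₀ - s₃, s₀ - l • s₃, s₃] j

theorem degV {X : Set (Subalgebra k K)} {f g : Subalgebra k K → K} (hX : Good X) (hf : IsCart X f)
    (hg : IsCart X g) (ν : Curve X) (uf : IsU ν.gen (f ν.gen)) (ug : IsU ν.gen (g ν.gen))
    (h : ∀ Q : Place k ν.L, Q.v (ν.ev (f (ν.pt Q))) = Q.v (ν.ev (g (ν.pt Q)))) :
    ν.deg f = ν.deg g := by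
  rw [deg_of_unit hX hf ν uf, deg_of_unit hX hg ν ug]
  exact finsum_congr fun Q => by unfold Place.ord; rw [h Q]

theorem cartU {X : Set (Subalgebra k K)} {f : Subalgebra k K → K} (hf : IsCart X f) (ν : Curve X)
    (uf : IsU ν.gen (f ν.gen)) {O : Subalgebra k K} (hO : O ∈ X) (hle : O ≤ ν.gen) :
    IsU ν.gen (f O) := by
  have := (hf.unit hO ν.gen_mem hle).mul uf
  rwa [div_mul_cancel₀ _ uf.1] at this

variable {p : Lv k M Λ κ n} {ι : M →ₐ[k] K} {l : k} {ζ w : K} {ε : ℕ} {e : Fin 4 ≃ κ}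
  {s₀ s₃ : M} {P : Place k M} {ν : Curve (XX p ι ζ w ε)} (h : All p ι l ζ w ε)
  (g : G2 p l e s₀ s₃ P) (hP : pr ι p.Y ν.gen = plO P) (hz : ζ - ι (s₀ / s₃) ∈ mx ν.gen)

include h g hP

theorem sG (i : κ) : IsU ν.gen (sX p ι i ν.gen) := by
  refine h.loc.maps.isU_up ν.gen_mem ?_
  rw [hP]
  exact g.su i

include hz

theorem core {O : Subalgebra k K} (hO : O ∈ XX p ι ζ w ε) (hle : O ≤ ν.gen) :
    ∃ (t : Fin 4 → ν.L) (u : Fin 4 → K), (∀ j, IsU O (u j)) ∧ (∀ j, t j ≠ 0) ∧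
      (∀ j, t j = ν.ev (u j) * ν.ev (sX p ι (e j) O)) ∧ ζ ∈ ν.gen ∧
      ∀ j, ![ζ, ζ - 1, ζ - algebraMap k K l, 1] j ∈ ν.gen ∧
        ν.ev (![ζ, ζ - 1, ζ - algebraMap k K l, 1] j) = t j / t 3 := by
  have hX := h.loc.fine.toGood
  have m := h.loc.maps
  have hR := m.mem hO
  have hl : pr ι p.Y O ≤ plO P :=
    hP ▸ pr_mono h.gY hX m hO ν.gen_mem hle
  obtain ⟨lam, l0, hcg⟩ := g.cg _ hR hl
  choose hs v hv hc using hcg
  have hT : ∀ j, ι (sg l s₀ s₃ j * lam) ∈ ν.gen := fun j => hle (m.mem_up hO (hs j))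
  have hu : ∀ j, IsU O (ι (v j)) := fun j => m.isU_up hO (hv j)
  have hsO : ∀ j, IsU ν.gen (sX p ι (e j) O) := fun j =>
    cartU (h.div.cartS _) ν (sG h g hP _) hO hle
  have e1 : ∀ j, ν.ev (ι (sg l s₀ s₃ j * lam)) = ν.ev (ι (v j)) * ν.ev (sX p ι (e j) O) :=
    fun j => by
      have h1 : sg l s₀ s₃ j * lam - v j * p.s (e j) (pr ι p.Y O) ∈ mx (plO P) := hc j
      rw [← hP] at h1
      have h2 := (m.mx_up ν.gen_mem h1.1).2 h1
      have h3 := (ev_eq_zero ν h2.1).2 h2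
      rw [map_sub, map_mul ι (v j), show ι (p.s (e j) (pr ι p.Y O)) = sX p ι (e j) O from rfl,
        ν.ev_eq, evO_sub _ (hT j)
        (mul_mem (hle (hu j).mem) (hsO j).mem), sub_eq_zero,
        evO_mul _ (hle (hu j).mem) (hsO j).mem] at h3
      exact h3
  have t0 : ∀ j, ν.ev (ι (sg l s₀ s₃ j * lam)) ≠ 0 := fun j =>
    e1 j ▸ mul_ne_zero (evO_ne _ ((hu j).mono hle)) (evO_ne _ (hsO j))
  have u3 : IsU ν.gen (ι (s₃ * lam)) :=
    isU_of_not_mx (hT 3) fun hm => t0 3 ((ev_eq_zero ν (hT 3)).2 hm)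
  have e2 : ι (s₀ / s₃) = ι (s₀ * lam) / ι (s₃ * lam) := by
    rw [← map_div₀, mul_div_mul_right _ _ l0]
  have m0 : ι (s₀ * lam) ∈ ν.gen := hT 0
  have m1 : ι (s₀ / s₃) ∈ ν.gen := e2 ▸ u3.div_mem m0
  have mζ : ζ ∈ ν.gen := by simpa using add_mem hz.1 m1
  have e3 : ν.ev ζ = ν.ev (ι (s₀ * lam)) / ν.ev (ι (s₃ * lam)) := by
    have h3 := (ev_eq_zero ν hz.1).2 hz
    rwa [ν.ev_eq, evO_sub _ mζ m1, sub_eq_zero, e2, evO_div _ m0 u3] at h3
  have e4 : ∀ c : k, ν.ev (ζ - algebraMap k K c) =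
      ν.ev (ι ((s₀ - c • s₃) * lam)) / ν.ev (ι (s₃ * lam)) := fun c => by
    have d0 : evO ν.gen ν.ρ (ι (s₃ * lam)) ≠ 0 := evO_ne _ u3
    rw [ev_sub_const ν mζ, e3, sub_mul, smul_mul_assoc, Algebra.smul_def, map_sub, map_mul ι
      (algebraMap k M c), AlgHom.commutes, ν.ev_eq, ν.ev_eq, ν.ev_eq, evO_sub _ m0
      (mul_mem (algebraMap_mem _ c) u3.mem), evO_mul _ (algebraMap_mem _ c) u3.mem, evO_const,
      sub_div, mul_div_cancel_right₀ _ d0]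
  refine ⟨fun j => ν.ev (ι (sg l s₀ s₃ j * lam)), fun j => ι (v j), hu, t0, e1, mζ, fun j => ?_⟩
  fin_cases j
  · exact ⟨mζ, e3⟩
  · refine ⟨sub_mem mζ (one_mem _), ?_⟩
    have := e4 1
    rw [map_one, one_smul] at this
    exact this
  · exact ⟨sub_mem mζ (algebraMap_mem _ l), e4 l⟩
  · exact ⟨one_mem _, (evO_one _).trans (div_self (t0 3)).symm⟩

theorem tG (j : Fin 4) : IsU ν.gen (tau l ζ j ν.gen) := by
  obtain ⟨t, u, -, t0, -, mζ, h1⟩ := core h g hP hz ν.gen_mem le_rfl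
  unfold tau eta
  rw [if_pos mζ, div_one]
  exact isU_of_not_mx (h1 j).1 fun hm => div_ne_zero (t0 j) (t0 3)
    ((h1 j).2 ▸ (ev_eq_zero ν (h1 j).1).2 hm)

theorem key (Q : Place k ν.L) (j : Fin 4) :
    Q.v (ν.ev (tau l ζ j (ν.pt Q))) = Q.v (ν.ev (sX p ι (e j) (ν.pt Q))) := by
  have hO := ν.pt_mem Q
  obtain ⟨t, u, hu, t0, e1, mζ, h1⟩ := core h g hP hz hO (ν.pt_le Q)
  have v1 : ∀ j, Q.v (t j) = Q.v (ν.ev (sX p ι (e j) (ν.pt Q))) := fun j => by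
    rw [e1, map_mul, (ν.v_eq_one_iff Q (hu j).mem).2 (hu j), one_mul]
  have v2 : ∀ j, Q.v (t j) ≤ 1 := fun j => v1 j ▸ ν.v_le Q (h.loc.sm _ hO _)
  have v0 : ∀ j, 0 < Q.v (t j) := fun j => (Valuation.pos_iff _).2 (t0 j)
  have v3 : Q.v (t 0) = 1 ∨ Q.v (t 3) = 1 := by
    rw [v1, v1, ν.v_eq_one_iff Q (h.loc.sm _ hO _), ν.v_eq_one_iff Q (h.loc.sm _ hO _)]
    by_contra hn
    have := e.injective (h.loc.s1 _ hO _ _ ⟨h.loc.sm _ hO _, fun a => hn (.inl a)⟩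
      ⟨h.loc.sm _ hO _, fun a => hn (.inr a)⟩)
    exact absurd this (by decide)
  have eζ : ν.ev ζ = t 0 / t 3 := (h1 0).2
  have hm := h.loc.zm _ hO
  unfold zc at hm
  unfold tau eta
  split_ifs at hm ⊢ with c
  · have h2 := ν.v_le Q hm
    rw [eζ, map_div₀, div_le_one₀ (v0 3)] at h2
    rw [div_one, (h1 j).2, map_div₀, v3.elim (fun a => le_antisymm (v2 3) (a ▸ h2)) id, div_one,
      v1]
  · have uζ : IsU ν.gen ζ := isU_of_not_mx mζ fun a => div_ne_zero (t0 0) (t0 3)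
      (eζ ▸ (ev_eq_zero ν mζ).2 a)
    have h2 := ν.v_le Q hm
    rw [ν.ev_eq, evO_inv _ uζ, ← ν.ev_eq, eζ, inv_div, map_div₀, div_le_one₀ (v0 0)] at h2
    rw [ev_div ν (h1 j).1 uζ, (h1 j).2, eζ, div_div_div_cancel_right₀ (t0 3), map_div₀,
      v3.elim id fun a => le_antisymm (v2 0) (a ▸ h2), div_one, v1]

theorem keyE (Q : Place k ν.L) (j : Fin 4) :
    Q.v (ν.ev (EE p ι l ζ (e j) j (ν.pt Q))) = Q.v (ν.ev (sX p ι (e j) (ν.pt Q))) := by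
  have hO := ν.pt_mem Q
  have uE := cartU (h.div.cartE (e j) j) ν (h.div.eu _ ν.gen_mem _ _ (.inl (sG h g hP _))) hO
    (ν.pt_le Q)
  have h0 : Q.v (ν.ev (EE p ι l ζ (e j) j (ν.pt Q))) ≠ 0 :=
    (Valuation.ne_zero_iff _).2 (evO_ne _ uE)
  obtain ⟨a, ha, hu⟩ := (h.div.gE _ hO (e j) j).2
  have h1 := (ν.v_eq_one_iff Q hu.mem).2 hu
  rcases ha with rfl | rfl
  · rw [ev_div ν (ν.pt_le Q (h.loc.sm _ hO _)) uE, map_div₀, div_eq_one_iff_eq h0] at h1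
    exact h1.symm
  · rw [ev_div ν (ν.pt_le Q (h.loc.tm _ hO _)) uE, map_div₀, div_eq_one_iff_eq h0] at h1
    exact h1.symm.trans (key h g hP hz Q j)

end GrbR

open GrbR in
theorem grb_stmt : GrbStmt := by
  intro k M K Λ κ n _ _ _ _ _ _ _ _ _ p ι l ζ w ε h e s₀ s₃ P ν g hP hz
  have hX := h.gX
  refine ⟨fun j => ?_, fun i j => ?_⟩
  · exact (h.div.degT ν j).symm.trans (degV hX (h.div.cartT j) (h.div.cartS _) ν (tG h g hP hz j)
      (sG h g hP _) fun Q => key h g hP hz Q j)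
  · split_ifs with c
    · subst c
      exact degV hX (h.div.cartE _ j) (h.div.cartS _) ν
        (h.div.eu _ ν.gen_mem _ _ (.inl (sG h g hP _))) (sG h g hP _)
        fun Q => keyE h g hP hz Q j
    · rw [deg_of_unit hX (h.div.cartE i j) ν (h.div.eu _ ν.gen_mem _ _ (.inl (sG h g hP _)))]
      refine finsum_eq_zero_of_forall_eq_zero fun Q => ν.ord_unit Q ?_
      have hO := ν.pt_mem Q
      refine h.div.eu _ hO i j ((isU_or_mx (h.loc.sm _ hO i)).imp_right fun a => ?_)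
      rw [← ν.v_eq_one_iff Q (h.loc.tm _ hO j), key h g hP hz,
        ν.v_eq_one_iff Q (h.loc.sm _ hO _)]
      exact isU_of_not_mx (h.loc.sm _ hO _) fun a' => c (h.loc.s1 _ hO _ _ a a')

end Pool.Agent.MP_20d318_ag.CH
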