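import Pool.Agent.MP_20d318_ag.CH.Spec

/-! The field of the next level exists, and automorphisms extend to it. -/

set_option autoImplicit false

namespace Pool.Agent.MP_20d318_ag.CH

open Pool.Agent.CBk Pool.Agent.CBk.XAlg Polynomial

namespace HomRow

variable {k M K : Type} [Field k] [Field M] [Field K] [Algebra k M] [Algebra k K]

/-- A simple transcendental extension is the field of rational functions. -/
theorem equiv1 (τ : M →ₐ[k] K) (l : k) (ζ : K) (htr : Tr τ ζ)
    (htop : IntermediateField.adjoin k (Set.range τ ∪ {ζ, cb l ζ}) = ⊤) :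
    ∃ α : RatFunc M ≃ₐ[k] K, ∀ p : M[X], α (algebraMap M[X] (RatFunc M) p) = ev τ ζ p := by
  let j : RatFunc M →ₐ[k] K := IsFractionRing.liftAlgHom (ev_inj htr)
  have hj : ∀ p : M[X], j (algebraMap M[X] (RatFunc M) p) = ev τ ζ p := fun p =>
    IsFractionRing.lift_algebraMap (g := (ev τ ζ : M[X] →+* K)) (ev_inj htr) p
  have hz : ζ ∈ j.fieldRange := ⟨_, (hj X).trans (ev_X _ _)⟩
  have hs : Function.Surjective j := by
    have hle : IntermediateField.adjoin k (Set.range τ ∪ {ζ, cb l ζ}) ≤ j.fieldRange := by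
      rw [IntermediateField.adjoin_le_iff]
      rintro _ (⟨m, rfl⟩ | rfl | rfl)
      · exact ⟨_, (hj (C m)).trans (ev_C _ _ _)⟩
      · exact hz
      · exact mul_mem (mul_mem hz (sub_mem hz (one_mem _)))
          (sub_mem hz (IntermediateField.algebraMap_mem _ l))
    intro z
    exact hle (htop ▸ IntermediateField.mem_top)
  exact ⟨AlgEquiv.ofBijective j ⟨j.toRingHom.injective, hs⟩, hj⟩

theorem hom1 (ι : M →ₐ[k] K) (l : k) (ζ : K) (σ : M ≃ₐ[k] M) (htr : Tr ι ζ)
    (htop : IntermediateField.adjoin k (Set.range ι ∪ {ζ, cb l ζ}) = ⊤) :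
    ∃ Φ : K ≃ₐ[k] K, (∀ m, Φ (ι m) = ι (σ m)) ∧ Φ ζ = ζ := by
  have htr' : Tr (ι.comp (σ : M →ₐ[k] M)) ζ := fun p hp => by
    have h1 := htr (p.map (σ : M →+* M)) (by rw [eval₂_map]; exact hp)
    exact (Polynomial.map_eq_zero_iff σ.injective).1 h1
  have hrg : Set.range (ι.comp (σ : M →ₐ[k] M)) = Set.range ι := σ.surjective.range_comp ι
  obtain ⟨α, a1⟩ := equiv1 ι l ζ htr htop
  obtain ⟨β, b1⟩ := equiv1 (ι.comp (σ : M →ₐ[k] M)) l ζ htr' (by rw [hrg]; exact htop)
  refine ⟨α.symm.trans β, fun m => ?_, ?_⟩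
  · rw [← ev_C ι ζ m, ← a1, AlgEquiv.trans_apply, α.symm_apply_apply, b1, ev_C]
    rfl
  · have h1 := a1 X
    have h2 := b1 X
    rw [ev_X] at h1 h2
    rw [AlgEquiv.trans_apply, α.symm_apply_eq.2 h1.symm, h2]

theorem ex1 (l : k) : ∃ (K : Type) (_ : Field K) (_ : Algebra k K) (ι : M →ₐ[k] K) (ζ : K),
    Tr ι ζ ∧ IntermediateField.adjoin k (Set.range ι ∪ {ζ, cb l ζ}) = ⊤ := by
  let g : M[X] →ₐ[k] RatFunc M := IsScalarTower.toAlgHom k M[X] (RatFunc M)
  have hg : Function.Injective g := IsFractionRing.injective M[X] (RatFunc M)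
  let ι : M →ₐ[k] RatFunc M := g.comp (IsScalarTower.toAlgHom k M M[X])
  have e : ev ι (g X) = g := by
    refine Polynomial.algHom_ext' (AlgHom.ext fun m => ?_) ?_
    · exact ev_C ι _ m
    · exact ev_X ι _
  refine ⟨RatFunc M, inferInstance, inferInstance, ι, g X, fun p hp => ?_, ?_⟩
  · apply hg
    rw [← e, ev_eq, hp, map_zero]
  · have hm : ∀ p : M[X],
        g p ∈ IntermediateField.adjoin k (Set.range ι ∪ {g X, cb l (g X)}) := by
      intro p
      induction p using Polynomial.induction_on' with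
      | add p q hp hq => rw [map_add]; exact add_mem hp hq
      | monomial n a =>
        rw [← C_mul_X_pow_eq_monomial, map_mul, map_pow]
        have hX : g X ∈ IntermediateField.adjoin k (Set.range ι ∪ {g X, cb l (g X)}) :=
          IntermediateField.subset_adjoin _ _ (Or.inr (Or.inl rfl))
        exact mul_mem (IntermediateField.subset_adjoin _ _ (Or.inl ⟨a, rfl⟩)) (pow_mem hX n)
    refine eq_top_iff.2 fun z _ => ?_
    obtain ⟨a, b, -, rfl⟩ := IsFractionRing.div_surjective (A := M[X]) z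
    exact div_mem (hm a) (hm b)

end HomRow

open HomRow in
theorem hom_stmt : HomStmt := by
  intro k M _ _ _ φ l e
  refine ⟨fun he h0 h1 hφ => ?_, fun K _ _ ι ζ w σ r h hr hσ => ?_⟩
  · rcases he with rfl | rfl
    · obtain ⟨K, _, _, ι, ζ, htr, htop⟩ := ex1 (M := M) l
      exact ⟨K, _, _, ι, ζ, cb l ζ, Or.inl rfl, h0, h1, hφ, htr, by simp, htop⟩
    · obtain ⟨K, _, _, ι, ζ, w, htr, hw, htop⟩ := cover (k := k) φ l
      refine ⟨K, _, _, ι, ζ, w, Or.inr rfl, h0, h1, hφ, htr, ?_, htop⟩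
      rw [hw]
      simp [cb]
  · have hq := h.eq
    have ht := h.top
    rcases h.he with rfl | rfl
    · have hw : w = cb l ζ := by simpa using hq
      subst hw
      obtain ⟨Φ, p1, p2⟩ := hom1 ι l ζ σ h.tr ht
      refine ⟨Φ, p1, p2, ?_⟩
      simp [cb, p2]
    · have hw : w ^ 2 = ι φ * (ζ * (ζ - 1) * (ζ - algebraMap k K l)) := by
        rw [hq]
        simp [cb]
      obtain ⟨Φ, p1, p2, p3⟩ := CB.P.SigX.hom h.φne hr hσ h.tr hw ht
      exact ⟨Φ, p1, p2, by simpa using p3⟩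

end Pool.Agent.MP_20d318_ag.CH
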