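import Pool.Agent.MP_20d318_ag.CH.Spec

/-! Closed points of the generic fibre. -/

set_option autoImplicit false

namespace Pool.Agent.MP_20d318_ag.CH

open Pool.Agent.MP_fd6584_ag.Fn Pool.Agent.CBk Polynomial
open Pool.Agent.MP_fd6584_ag.AG hiding deg_inv deg_congr deg_of_unit deg_mul deg_prod deg_zpow
  deg_eq_zero deg_nonneg deg_div deg_pow

namespace HorRow

variable {k M K : Type} [Field k] [Field M] [Field K] [Algebra k M] [Algebra k K]

theorem exists_mx {G : Set K} {O : Subalgebra k K} (hO : O ∈ Pts (Algebra.adjoin k G))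
    (ht : IntermediateField.adjoin k G = ⊤) (hne : O ≠ ⊤) : ∃ g ∈ mx O, g ≠ 0 := by
  by_contra hc
  have hi : ∀ x ∈ O, x⁻¹ ∈ O := fun x hx => by
    by_cases h0 : x = 0
    · rw [h0, inv_zero]; exact zero_mem _
    · exact (isU_of_not_mx hx fun hm => hc ⟨x, hm, h0⟩).2.2
  have h1 : IntermediateField.adjoin k G ≤ O.toIntermediateField hi :=
    IntermediateField.adjoin_le_iff.2 fun g hg => hO.2.1 (Algebra.subset_adjoin hg)
  refine hne (eq_top_iff.2 fun x _ => ?_)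
  have h2 : x ∈ IntermediateField.adjoin k G := ht ▸ IntermediateField.mem_top
  exact h1 h2

theorem line (ι : M →ₐ[k] K) (ζ : K) (R : Subalgebra k K) (hζ : Tr ι ζ)
    (h1 : ∀ p : M[X], eval₂RingHom (ι : M →+* K) ζ p ∈ R)
    (h2 : ∀ f ∈ R, ∃ p : M[X], eval₂RingHom (ι : M →+* K) ζ p = f)
    (O : Subalgebra k K) (hO : O ∈ Pts R) (g : K) (hg : g ∈ mx O) (hg0 : g ≠ 0) :
    ∃ h ∈ R, h ≠ 0 ∧ h ∈ mx O ∧ ∀ O' ∈ Pts R, h ∈ mx O' → O' = O := by
  set θ := eval₂RingHom (ι : M →+* K) ζ with hθ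
  have hm : See.pm θ O hO.1 (fun a => hO.2.1 (h1 a)) ≠ ⊥ := fun h => by
    obtain ⟨a, ha, b, hb, hu, rfl⟩ := hO.2.2 g hg.1
    obtain ⟨a, rfl⟩ := h2 a ha
    have h3 : a ∈ See.pm θ O hO.1 fun a => hO.2.1 (h1 a) := by
      have := mx_mul_right hg hu.2.1
      rwa [div_mul_cancel₀ _ hu.1] at this
    rw [h, Ideal.mem_bot] at h3
    simp [h3] at hg0
  have hp := See.pm_prime θ O hO.1 fun a => hO.2.1 (h1 a)
  have hmax := IsPrime.to_maximal_ideal hm
  obtain ⟨q, hq⟩ := (IsPrincipalIdealRing.principal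
    (See.pm θ O hO.1 fun a => hO.2.1 (h1 a))).principal
  have hq1 : q ∈ See.pm θ O hO.1 fun a => hO.2.1 (h1 a) := by
    rw [hq]; exact Submodule.mem_span_singleton_self q
  refine ⟨θ q, h1 q, fun h0 => hm ?_, hq1, fun O' hO' hf => ?_⟩
  · rw [hq, hζ q h0]; exact Submodule.span_zero_singleton _
  · have h3 : (See.pm θ O hO.1 fun a => hO.2.1 (h1 a)) ≤
        See.pm θ O' hO'.1 fun a => hO'.2.1 (h1 a) := by
      rw [hq]; exact (Submodule.span_singleton_le_iff_mem _ _).2 hf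
    have h4 := hmax.eq_of_le (See.pm_prime θ O' hO'.1 fun a => hO'.2.1 (h1 a)).ne_top h3
    refine See.Pts_ext hO' hO fun b hb => ?_
    obtain ⟨b, rfl⟩ := h2 b hb
    exact (SetLike.ext_iff.1 h4 b).symm

end HorRow

theorem hor_stmt : HorStmt := by
  intro k M K _ _ _ _ _ φ ι l ζ w e hx hmw O hO hne
  obtain ⟨g, hg, hg0⟩ := HorRow.exists_mx hO hx.top hne
  have hM : ∀ c : M, ι c ∈ Algebra.adjoin k (Set.range ι ∪ {ζ, w}) := fun c =>
    Algebra.subset_adjoin (Or.inl ⟨c, rfl⟩)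
  have hz : ζ ∈ Algebra.adjoin k (Set.range ι ∪ {ζ, w}) :=
    Algebra.subset_adjoin (Or.inr (Or.inl rfl))
  have hw : w ∈ Algebra.adjoin k (Set.range ι ∪ {ζ, w}) :=
    Algebra.subset_adjoin (Or.inr (Or.inr rfl))
  have he := hx.eq
  rcases hx.he with rfl | rfl
  · have he' : w = cb l ζ := by simpa using he
    obtain ⟨h, a1, a2, a3, a4⟩ := HorRow.line ι ζ _ hx.tr (fun p => by
      rw [coe_eval₂RingHom, eval₂_eq_sum_range]
      exact sum_mem fun i _ => mul_mem (hM _) (pow_mem hz i)) (fun f hf => by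
      induction hf using Algebra.adjoin_induction with
      | mem a ha =>
        rcases ha with ⟨c, rfl⟩ | rfl | rfl
        · exact ⟨C c, by simp⟩
        · exact ⟨X, by simp⟩
        · exact ⟨X * (X - 1) * (X - C (algebraMap k M l)), by simp [he', cb]⟩
      | algebraMap r => exact ⟨C (algebraMap k M r), by simp⟩
      | add x y _ _ hx hy =>
        obtain ⟨p, rfl⟩ := hx
        obtain ⟨q, rfl⟩ := hy
        exact ⟨p + q, map_add _ _ _⟩
      | mul x y _ _ hx hy =>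
        obtain ⟨p, rfl⟩ := hx
        obtain ⟨q, rfl⟩ := hy
        exact ⟨p * q, map_mul _ _ _⟩) O hO g hg hg0
    exact ⟨h, a1, a2, a3, fun O' hO' hf => Or.inl (a4 O' hO' hf)⟩
  · have he' : w ^ 2 = ι φ * (ζ * (ζ - 1) * (ζ - algebraMap k K l)) := by simpa [cb] using he
    obtain ⟨h, a1, a2, a3, a4⟩ := horB_stmt k M K ι φ l ζ w hx.φne hx.tr he' O hO ⟨g, hg, hg0⟩
    refine ⟨h, a1, a2, a3, fun O' hO' hf => (a4 O' hO' hf).imp id ?_⟩
    rintro ⟨a, b, b1, -, b3⟩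
    rw [hmw a b b1, map_zero, sub_zero] at b3
    have h5 : cb l ζ = w * (w * ι φ⁻¹) := by
      have h6 : ι φ ≠ 0 := (_root_.map_ne_zero ι).2 hx.φne
      rw [map_inv₀, ← mul_assoc, ← sq, he', cb]
      field_simp
    rw [h5]
    exact mx_mul_right b3 (hO'.2.1 (mul_mem hw (hM _)))

end Pool.Agent.MP_20d318_ag.CH
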