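import Pool.Agent.MP_20d318_ag.CH.Spec

/-! Row HYP: the jacobian criterion over a smooth ring. -/

set_option autoImplicit false
set_option linter.unusedSectionVars false

namespace Pool.Agent.MP_20d318_ag.CH

open Pool.Agent.MP_fd6584_ag.Fn Pool.Agent.CBk
open Pool.Agent.MP_fd6584_ag.AG hiding deg_inv deg_congr deg_of_unit deg_mul deg_prod deg_zpow
  deg_eq_zero deg_nonneg deg_div deg_pow

namespace HypA

/-- A first order deformation of a homomorphism along a derivation. -/
def defo {k B A : Type} [Field k] [CommRing B] [Algebra k B] [CommRing A] [Algebra k A]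
    (g : B →ₐ[k] A) (D : Derivation k B B) (ε : A) (h : ε * ε = 0) : B →ₐ[k] A where
  toFun b := g b - ε * g (D b)
  map_one' := by simp
  map_zero' := by simp
  map_add' a b := by simp only [map_add]; ring
  map_mul' a b := by
    simp only [Derivation.leibniz, smul_eq_mul, map_add, map_mul]
    linear_combination (-(g (D a) * g (D b))) * h
  commutes' r := by simp

end HypA

theorem hyp_stmt : HypStmt := by
  intro k K B _ _ _ _ _ π₀ O P D hB hO h0 hker hu
  have hm : ∀ q, π₀ q ∈ O := fun q => hO.2.1 ⟨q, rfl⟩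
  let π : B →ₐ[k] O := π₀.codRestrict O hm
  refine Algebra.FormallySmooth.of_comp_surjective fun A _ _ I hI f => ?_
  have hnil : IsNilpotent I := ⟨2, hI⟩
  let g : B →ₐ[k] A := Algebra.FormallySmooth.lift I hnil (f.comp π)
  have hg : ∀ q, Ideal.Quotient.mk I (g q) = f (π q) := fun q =>
    Algebra.FormallySmooth.mk_lift I hnil (f.comp π) q
  have hd : IsUnit (g (D P)) := by
    rw [← IsNilpotent.isUnit_quotient_mk_iff hnil, hg]
    exact ((isU_iff_isUnit (π (D P))).1 hu).map f
  obtain ⟨w, hw⟩ := hd.exists_right_inv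
  have hp0 : π P = 0 := Subtype.ext h0
  have hpI : g P ∈ I := by rw [← Ideal.Quotient.eq_zero_iff_mem, hg, hp0, map_zero]
  have hεI : g P * w ∈ I := I.mul_mem_right _ hpI
  have hε2 : g P * w * (g P * w) = 0 := by
    have := Ideal.mul_mem_mul hεI hεI
    rwa [← pow_two I, hI, Ideal.mem_bot] at this
  let ψ : B →ₐ[k] A := HypA.defo g D _ hε2
  have key : ∀ q, Ideal.Quotient.mk I (ψ q) = f (π q) := fun q => by
    change Ideal.Quotient.mk I (g q - g P * w * g (D q)) = _
    rw [map_sub, map_mul, Ideal.Quotient.eq_zero_iff_mem.2 hεI, zero_mul, sub_zero, hg]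
  have hψ : ψ P = 0 := by
    change g P - g P * w * g (D P) = 0
    linear_combination (-g P) * hw
  let M : Submonoid B := (IsUnit.submonoid O).comap π
  let π' : Localization M →ₐ[k] O := IsLocalization.liftAlgHom (M := M) (f := π) fun y => y.2
  let ψ' : Localization M →ₐ[k] A := IsLocalization.liftAlgHom (M := M) (f := ψ) fun y => by
    rw [← IsNilpotent.isUnit_quotient_mk_iff hnil, key]
    exact IsUnit.map f y.2
  have hπ' : ∀ q, π' (algebraMap _ _ q) = π q := fun q => IsLocalization.lift_eq _ q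
  have hψ' : ∀ q, ψ' (algebraMap _ _ q) = ψ q := fun q => by simp [ψ']
  have hsurj : Function.Surjective π' := by
    intro z
    obtain ⟨_, ⟨a, rfl⟩, _, ⟨b, rfl⟩, hb, hz⟩ := hO.2.2 z z.2
    have hbM : b ∈ M := (isU_iff_isUnit (π b)).1 hb
    refine ⟨IsLocalization.mk' _ a ⟨b, hbM⟩, ?_⟩
    have h1 := congrArg π' (IsLocalization.mk'_spec (Localization M) a ⟨b, hbM⟩)
    rw [map_mul, hπ', hπ'] at h1
    refine Subtype.ext ?_
    rw [hz, eq_div_iff hb.1]
    exact congrArg Subtype.val h1
  have hle : RingHom.ker π'.toRingHom ≤ RingHom.ker ψ'.toRingHom := by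
    intro z hz
    obtain ⟨⟨a, b⟩, rfl⟩ := IsLocalization.mk'_surjective M z
    have h1 := congrArg π' (IsLocalization.mk'_spec (Localization M) a b)
    have hz' : π' (IsLocalization.mk' (Localization M) a b) = 0 := hz
    rw [map_mul, hz', zero_mul, hπ'] at h1
    obtain ⟨h, rfl⟩ := hker a (congrArg Subtype.val h1.symm)
    change ψ' (IsLocalization.mk' (Localization M) (P * h) b) = 0
    rw [← IsLocalization.mul_mk'_eq_mk'_of_mul, map_mul, hψ', hψ, zero_mul]
  refine ⟨AlgHom.liftOfSurjective π' hsurj ψ' hle, ?_⟩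
  refine AlgHom.ext fun z => ?_
  obtain ⟨z, rfl⟩ := hsurj z
  have : (Ideal.Quotient.mkₐ k I).comp ψ' = f.comp π' := by
    refine AlgHom.coe_ringHom_injective (IsLocalization.ringHom_ext M (RingHom.ext fun q => ?_))
    change Ideal.Quotient.mk I (ψ' (algebraMap _ _ q)) = f (π' (algebraMap _ _ q))
    rw [hψ', hπ']
    exact key q
  change Ideal.Quotient.mk I (AlgHom.liftOfSurjective π' hsurj ψ' hle (π' z)) = _
  rw [AlgHom.liftOfSurjective_apply]
  exact DFunLike.congr_fun this z

end Pool.Agent.MP_20d318_ag.CH
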