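import Pool.Agent.MP_20d318_ag.CH.BSpec

/-! The numerical data of the surface is that of its lattice. -/

set_option autoImplicit false
set_option linter.unusedSectionVars false

namespace Pool.Agent.MP_20d318_ag.CH

open Pool.Agent.MP_fd6584_ag.Fn Pool.Agent.CBk
open Pool.Agent.MP_fd6584_ag.AG hiding deg_inv deg_congr deg_of_unit deg_mul deg_prod deg_zpow
  deg_eq_zero deg_nonneg deg_div deg_pow
open Pool.Agent.MP_20d318_ag.CB (ip toR act)
open Pool.Agent.MP_20d318_ag.CB.P (Pd Pair0 Sg Sd SAll)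

namespace Iso0

variable {k M I κ : Type} [Field k] [Field M] [Algebra k M] [Fintype I] [Fintype κ]

/-- The class map. -/
noncomputable def ps (S : Sd k M I) : (I → ℝ) →ₗ[ℝ] N1 S.T :=
  Fintype.linearCombination ℝ fun i => cl S.T (S.g i)

open Classical in
theorem lb_single (S : Sd k M I) (i : I) : S.lb (Pi.single i 1) = S.g i := by
  funext O
  unfold Sd.lb
  rw [Finset.prod_eq_single i (fun j _ hj => by rw [Pi.single_eq_of_ne hj, zpow_zero])
    (fun h => absurd (Finset.mem_univ i) h), Pi.single_eq_same, zpow_one]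

open Classical in
theorem toR_single (i : I) : toR (Pi.single i 1 : I → ℤ) = Pi.single i 1 := by
  funext j
  by_cases h : j = i
  · subst h; simp [toR]
  · simp [toR, Pi.single_eq_of_ne h]

variable {S : Sd k M I} [IsAlgClosed k]

theorem good (h : SAll S) : Good S.T := h.a1.nice.toFine.toGood

theorem ps_val (h : SAll S) (ν : Curve S.T) (x : I → ℝ) :
    ν.lin (ps S x) = ip S.B x (toR (S.zz ν)) := by
  classical
  have e : x = ∑ i, x i • toR (Pi.single i 1 : I → ℤ) := by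
    simp only [toR_single]
    exact pi_eq_sum_univ' x
  rw [ps, Fintype.linearCombination_apply, map_sum]
  conv_rhs => rw [e, CB.ip_sum_left]
  refine Finset.sum_congr rfl fun i _ => ?_
  rw [map_smul, CB.ip_smul_left, cl_val (h.s.cartg i), CB.ip_toR, ← h.a1.zzd, lb_single,
    smul_eq_mul]

theorem ps_toR (h : SAll S) (c : I → ℤ) : ps S (toR c) = cl S.T (S.lb c) :=
  n1_ext fun ν => by rw [ps_val h, cl_val (h.a1.cart c), h.a1.zzd, CB.ip_toR]

theorem cl_cmul (h : SAll S) (c : I → ℤ) {φ : M} (hφ : φ ≠ 0) :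
    ps S (toR c) = cl S.T fun O => φ * S.lb c O :=
  n1_ext fun ν => by
    rw [ps_toR h, cl_val (h.a1.cart c), cl_val (h.a1.pcart c φ hφ),
      deg_cmul (good h) (h.a1.cart c) hφ]

theorem cl_of (h : SAll S) {c : I → ℤ} {φ : M} {f : Subalgebra k M → M} (hf : IsCart S.T f)
    (hφ : φ ≠ 0) (hu : ∀ O ∈ S.T, IsU O (φ * S.lb c O / f O)) : ps S (toR c) = cl S.T f :=
  n1_ext fun ν => by
    rw [cl_cmul h c hφ, cl_val (h.a1.pcart c φ hφ), cl_val hf,
      deg_congr (good h) (h.a1.pcart c φ hφ) hf hu]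

theorem ex_cls (h : SAll S) (D : Cartier S.T) : ∃ c, ps S (toR c) = D.n1 := by
  obtain ⟨c, φ, h1, h2⟩ := h.a2.pic D.f D.isCart
  exact ⟨c, (cl_of h D.isCart h1 h2).trans (n1_eq D).symm⟩

theorem surj (h : SAll S) : Function.Surjective (ps S) := by
  refine LinearMap.range_eq_top.1 (eq_top_iff.2 ?_)
  rw [← span_cl]
  refine Submodule.span_le.2 ?_
  rintro _ ⟨D, rfl⟩
  obtain ⟨c, hc⟩ := ex_cls h D
  exact ⟨_, hc⟩

theorem ex_cur (h : SAll S) {c : I → ℤ} (hc : c ∈ S.PP) : ∃ ν : Curve S.T, S.zz ν = c := by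
  obtain ⟨φ, P, hP⟩ := hc
  obtain ⟨ν, h1, h2, -⟩ := h.a1.cur P hP.2.1
  exact ⟨ν, by rw [h.a1.zz1 c φ P hP ν h1, h2, one_smul]⟩

theorem gg_ef (h : SAll S) (hn : S.T.Nonempty) {c : I → ℤ} (hc : S.GG c) : c ∈ S.Ef := by
  obtain ⟨U, -, h2, h3⟩ := hc
  obtain ⟨O, hO⟩ := hn
  obtain ⟨a, ha, -⟩ := (h3 O hO).2
  exact h.a2.eff1 c a (fun O' hO' => by simpa using (h3 O' hO').1 a ha) (h2 a ha)

theorem inj (h : SAll S) (hn : S.T.Nonempty) : Function.Injective (ps S) := by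
  refine (injective_iff_map_eq_zero _).2 fun x hx => ?_
  have h1 : ∀ c ∈ S.Ef, ip S.B x (toR c) = 0 := fun c hc => by
    induction hc using AddSubmonoid.closure_induction with
    | mem c hc =>
      obtain ⟨ν, rfl⟩ := ex_cur h hc
      rw [← ps_val h, hx, map_zero]
    | zero => rw [CB.toR_zero, CB.ip_zero_right]
    | add a b _ _ ha hb => rw [CB.toR_add, CB.ip_add_right, ha, hb, add_zero]
  refine (CB.hg_stmt I S.B h.s.sym h.s.hodge).nd x fun y => ?_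
  obtain ⟨c, a, b⟩ := h.s.dif y
  have h2 := h1 _ (gg_ef h hn b)
  rwa [CB.toR_add, CB.ip_add_right, h1 _ (gg_ef h hn a), zero_add] at h2

theorem lam (h : SAll S) (hn : S.T.Nonempty) (x : I → ℝ) :
    ps S x ∈ AddSubgroup.closure (Set.range Cartier.n1) ↔ x ∈ zL I := by
  constructor
  · intro hx
    have h1 : AddSubgroup.closure (Set.range (Cartier.n1 (X := S.T))) ≤
        (zL I).map (ps S).toAddMonoidHom := by
      refine (AddSubgroup.closure_le _).2 ?_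
      rintro _ ⟨D, rfl⟩
      obtain ⟨c, hc⟩ := ex_cls h D
      exact ⟨toR c, ⟨c, rfl⟩, hc⟩
    obtain ⟨y, hy, e⟩ := h1 hx
    exact inj h hn e ▸ hy
  · rintro ⟨c, rfl⟩
    rw [ps_toR h]
    exact cl_mem (h.a1.cart c)

theorem cone_ef {c : I → ℤ} (hc : c ∈ S.Ef) : toR c ∈ Lat.cone (toR '' S.PP) := by
  induction hc using AddSubmonoid.closure_induction with
  | mem x hx => exact Lat.subset_cone _ ⟨x, hx, rfl⟩
  | zero => rw [CB.toR_zero]; exact (Lat.isCone_cone _).zero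
  | add x y _ _ hx hy => rw [CB.toR_add]; exact (Lat.isCone_cone _).add _ hx _ hy

theorem ef (h : SAll S) (hn : S.T.Nonempty) (x : I → ℝ) :
    ps S x ∈ Glue.Ef S.T ↔ x ∈ Lat.cone (toR '' S.PP) := by
  constructor
  · intro hx
    have h1 : Glue.Ef S.T ⊆ ps S '' Lat.cone (toR '' S.PP) := by
      refine ((Lat.isCone_cone _).image (ps S)).cone_subset ?_
      rintro _ ⟨D, hD, rfl⟩
      obtain ⟨c, φ, h1, h2⟩ := h.a2.pic D.f D.isCart
      refine ⟨toR c, cone_ef (h.a2.eff1 c φ (fun O hO => ?_) h1),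
        (cl_of h D.isCart h1 h2).trans (n1_eq D).symm⟩
      have h3 := O.mul_mem (h2 O hO).mem (hD O hO)
      rwa [div_mul_cancel₀ _ (D.isCart.ne hO)] at h3
    obtain ⟨y, hy, e⟩ := h1 hx
    exact inj h hn e ▸ hy
  · intro hx
    refine ((Lat.isCone_cone _).preimage (ps S)).cone_subset ?_ hx
    rintro _ ⟨c, ⟨φ, P, hP⟩, rfl⟩
    have h1 := cl_eff (h.a1.pcart c φ hP.1) (h.a1.pmem c φ P hP)
    rwa [← cl_cmul h c hP.1] at h1

theorem aut (h : SAll S) {σ : M ≃ₐ[k] M} {ρ : Matrix I I ℤ} (h1 : CB.P.Inv S σ)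
    (h2 : CB.P.Rep S σ ρ) (x : I → ℝ) :
    Aut.n1 (X := S.T) ⟨σ, h1⟩ (ps S x) = ps S (actR ρ x) := by
  classical
  have h3 : ∀ c, Aut.n1 (X := S.T) ⟨σ, h1⟩ (ps S (toR c)) = ps S (actR ρ (toR c)) := fun c => by
    obtain ⟨μ, h4, h5⟩ := h2 c
    rw [ps_toR h, cl_eq (h.a1.cart c), Aut.n1_n1, n1_eq]
    refine (cl_of (c := act ρ c) h (Cartier.isCart _) h4 fun O hO => ?_).symm.trans
      (congrArg _ ?_)
    · have h6 := (h5 O hO).inv
      rw [inv_div] at h6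
      exact h6
    · exact CB.toR_act ρ c
  have h4 : (Aut.n1 (X := S.T) ⟨σ, h1⟩).comp (ps S) = (ps S).comp (actR ρ) :=
    (Pi.basisFun ℝ I).ext fun i => by
      rw [Pi.basisFun_apply, ← toR_single]
      exact h3 _
  exact LinearMap.congr_fun h4 x

end Iso0

open Iso0 in
theorem iso_stmt : IsoStmt := by
  intro k M I κ _ _ _ _ _ _ _ p G hp hG
  have h : SAll p.toSd := hp.all
  have hn : p.T.Nonempty := by
    obtain ⟨P, hP⟩ := hp.prm p.k0
    exact ⟨_, hP.2.1⟩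
  refine ⟨LinearEquiv.ofBijective (ps p.toSd) ⟨inj h hn, surj h⟩,
    ⟨lam h hn, ef h hn, fun i => ?_, fun ν => ?_, fun c => ?_, ?_⟩, ps_val h⟩
  · obtain ⟨P, hP⟩ := hp.prm i
    exact cl_cmul h (p.C i) hP.1
  · rcases h.a1.cases ν with hr | ⟨P, hP⟩
    · exact Or.inl fun x => LinearMap.congr_fun (lin_rat hr) x
    · obtain ⟨c, φ, hc⟩ := h.s.all P (hP ▸ ν.gen_mem)
      refine Or.inr ⟨⟨c, φ, P, hc⟩, CB.P.nu ν, Nat.cast_pos.2 (h.a1.nupos ν P hP), fun x => ?_⟩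
      refine (ps_val h ν x).trans ?_
      rw [h.a1.zz1 c φ P hc ν hP, CB.toR_nsmul, CB.ip_smul_right]
      rfl
  · obtain ⟨ν, hν⟩ := ex_cur h c.2
    refine ⟨ν, 1, one_pos, fun x => (ps_val h ν x).trans ?_⟩
    rw [hν, one_mul]
    rfl
  · rintro _ ⟨ρ, hρ, rfl⟩
    obtain ⟨σ, hσ⟩ := hG ρ hρ
    obtain ⟨r, h1, h2⟩ := hσ.sq
    exact ⟨_, ⟨⟨σ, hσ.inv⟩, r, ⟨h1, h2, hσ.st⟩, rfl⟩, aut h hσ.inv hσ.rep⟩

end Pool.Agent.MP_20d318_ag.CH
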