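import Pool.Agent.MP_20d318_ag.CH.Spec

/-! Row KER: the ideal of relations of the local model of the cover. -/

set_option autoImplicit false

namespace Pool.Agent.MP_20d318_ag.CH

open Pool.Agent.MP_fd6584_ag.Fn Pool.Agent.CBk Polynomial

namespace KerL

theorem pseudo {A : Type} [CommRing A] (a b : A) (e : ℕ) (he : e = 1 ∨ e = 2) (q : A[X]) :
    ∃ (N : ℕ) (h : A[X]) (r0 r1 : A),
      C a ^ N * q = (C a * X ^ e - C b) * h + C r0 + C r1 * X ∧ (e = 1 → r1 = 0) := by
  induction q using Polynomial.induction_on with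
  | C c => exact ⟨0, 0, c, 0, by simp, fun _ => rfl⟩
  | add p q hp hq =>
    obtain ⟨N, h, r0, r1, h1, h2⟩ := hp
    obtain ⟨N', h', r0', r1', h1', h2'⟩ := hq
    refine ⟨N + N', C a ^ N' * h + C a ^ N * h', a ^ N' * r0 + a ^ N * r0',
      a ^ N' * r1 + a ^ N * r1', ?_, fun h0 => by rw [h2 h0, h2' h0]; simp⟩
    simp only [map_add, map_mul, map_pow]
    linear_combination C a ^ N' * h1 + C a ^ N * h1'
  | monomial n c hn =>
    obtain ⟨N, h, r0, r1, h1, h2⟩ := hn
    rcases he with he | he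
    · have h3 := h2 he
      subst he
      subst h3
      refine ⟨N + 1, C a * h * X + C r0, r0 * b, 0, ?_, fun _ => rfl⟩
      simp only [map_mul, map_zero] at h1 ⊢
      linear_combination C a * X * h1
    · subst he
      refine ⟨N + 1, C a * h * X + C r1, r1 * b, a * r0, ?_, fun h0 => absurd h0 (by omega)⟩
      simp only [map_mul]
      linear_combination C a * X * h1

theorem descend {A : Type} [CommRing A] [IsDomain A] (a b : A) (e : ℕ) (ha : a ≠ 0)
    (hab : ∀ c, a ∣ b * c → a ∣ c) (q : A[X]) (N : ℕ) :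
    ∀ h : A[X], C a ^ N * q = (C a * X ^ e - C b) * h → C a * X ^ e - C b ∣ q := by
  induction N with
  | zero => exact fun h hh => ⟨h, by simpa using hh⟩
  | succ N ih =>
    intro h hh
    have h1 : C a ∣ C b * h := ⟨X ^ e * h - C a ^ N * q, by linear_combination hh⟩
    have h2 : C a ∣ h := by
      rw [C_dvd_iff_dvd_coeff] at h1 ⊢
      intro i
      have h3 := h1 i
      rw [coeff_C_mul] at h3
      exact hab _ h3
    obtain ⟨h', rfl⟩ := h2
    refine ih h' (mul_left_cancel₀ (C_ne_zero.2 ha) ?_)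
    linear_combination hh

theorem ker {A K : Type} [CommRing A] [IsDomain A] [Field K] (φ : A →+* K)
    (hφ : Function.Injective φ) (t : K) (a b : A) (e : ℕ) (he : e = 1 ∨ e = 2) (ha : a ≠ 0)
    (hab : ∀ c, a ∣ b * c → a ∣ c) (hsq : ∀ r0 r1 : A, r0 ^ 2 * a = r1 ^ 2 * b → r1 = 0)
    (ht : t ^ e * φ a = φ b) (q : A[X]) (hq : eval₂ φ t q = 0) : C a * X ^ e - C b ∣ q := by
  obtain ⟨N, h, r0, r1, h1, h2⟩ := pseudo a b e he q
  have h3 := congrArg (eval₂RingHom φ t) h1
  simp only [map_add, map_mul, map_sub, map_pow, coe_eval₂RingHom, eval₂_C, eval₂_X, hq] at h3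
  have h4 : φ r0 + φ r1 * t = 0 := by linear_combination (-1 : K) * h3 - eval₂ φ t h * ht
  have h5 : r1 = 0 := by
    rcases he with he | he
    · exact h2 he
    · subst he
      refine hsq r0 r1 (hφ ?_)
      simp only [map_mul, map_pow]
      linear_combination φ r1 ^ 2 * ht + (φ r0 - φ r1 * t) * φ a * h4
  subst h5
  have h6 : r0 = 0 := hφ (by simpa using h4)
  subst h6
  exact descend a b e ha hab q N h (by simpa using h1)

theorem swap {A : Type} [CommRing A] [IsDomain A] (a b : A) (ha : a ≠ 0)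
    (hab : ∀ c, a ∣ b * c → a ∣ c) (c : A) (h : b ∣ a * c) : b ∣ c := by
  obtain ⟨d, hd⟩ := h
  obtain ⟨d', rfl⟩ := hab d ⟨c, hd.symm⟩
  exact ⟨d', mul_left_cancel₀ ha (by linear_combination hd)⟩

theorem dvd_of {k R : Type} [Field k] [CommRing R] [IsDomain R] [Algebra k R] (g : k[X])
    (hg : g ≠ 0) (S : R) (hS : S ≠ 0) (c : R[X]) (h : g.map (algebraMap k R) ∣ C S * c) :
    g.map (algebraMap k R) ∣ c := by
  have hm : ((g * C g.leadingCoeff⁻¹).map (algebraMap k R)).Monic :=
    (monic_mul_leadingCoeff_inv hg).map _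
  have h1 : g.map (algebraMap k R) ∣ (g * C g.leadingCoeff⁻¹).map (algebraMap k R) :=
    Polynomial.map_dvd _ (Dvd.intro _ rfl)
  have h2 : (g * C g.leadingCoeff⁻¹).map (algebraMap k R) ∣ g.map (algebraMap k R) := by
    refine Polynomial.map_dvd _ ⟨C g.leadingCoeff, ?_⟩
    rw [mul_assoc, ← C_mul, inv_mul_cancel₀ (leadingCoeff_ne_zero.2 hg), C_1, mul_one]
  refine h1.trans ?_
  have h3 := h2.trans h
  generalize (g * C g.leadingCoeff⁻¹).map (algebraMap k R) = m at hm h3
  have h4 := modByMonic_add_div c m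
  have h5 : m ∣ C S * (c %ₘ m) := by
    have h6 : C S * (c %ₘ m) = C S * c - m * (C S * (c /ₘ m)) := by
      linear_combination C S * h4
    rw [h6]
    exact dvd_sub h3 (Dvd.intro _ rfl)
  have h7 : C S * (c %ₘ m) = 0 := by
    refine eq_zero_of_dvd_of_degree_lt h5 ?_
    rw [degree_C_mul hS]
    exact degree_modByMonic_lt c hm
  have h8 : c %ₘ m = 0 := (mul_eq_zero.1 h7).resolve_left (C_ne_zero.2 hS)
  exact (modByMonic_eq_zero_iff_dvd hm).1 h8

theorem parity {R : Type} [CommRing R] [IsDomain R] (G : R[X]) (hG : G.natDegree = 3) (S : R)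
    (hS : S ≠ 0) (r0 r1 : R[X]) (h : r0 ^ 2 * C S = r1 ^ 2 * G) : r0 = 0 ∧ r1 = 0 := by
  have hG0 : G ≠ 0 := by
    rintro rfl
    simp at hG
  have hC : (C S : R[X]) ≠ 0 := C_ne_zero.2 hS
  by_cases h0 : r0 = 0
  · subst h0
    refine ⟨rfl, ?_⟩
    have h1 : r1 ^ 2 * G = 0 := by rw [← h]; simp
    exact pow_eq_zero_iff two_ne_zero |>.1 ((mul_eq_zero.1 h1).resolve_right hG0)
  · exfalso
    have h1 : r1 ≠ 0 := by
      rintro rfl
      exact mul_ne_zero (pow_ne_zero 2 h0) hC (by rw [h]; simp)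
    have h2 := congrArg natDegree h
    rw [natDegree_mul (pow_ne_zero 2 h0) hC, natDegree_mul (pow_ne_zero 2 h1) hG0, natDegree_pow,
      natDegree_pow, natDegree_C, hG] at h2
    omega

end KerL

theorem ker_stmt : KerStmt := by
  intro k M K _ _ _ _ _ ι R z t S g e he htr hS hg
  have hg0 : g ≠ 0 := by
    rintro rfl
    simp at hg
  have hG : (g.map (algebraMap k R)).natDegree = 3 := by
    rw [natDegree_map_eq_of_injective (algebraMap k R).injective, hg]
  have hG0 : g.map (algebraMap k R) ≠ 0 := by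
    intro h
    rw [h] at hG
    simp at hG
  have hC : (C S : R[X]) ≠ 0 := C_ne_zero.2 hS
  have hinj : Function.Injective (XAlg.ev (ι.comp R.val) z : R[X] →+* K) := by
    refine (injective_iff_map_eq_zero _).2 fun p hp => ?_
    have h1 : eval₂ (ι : M →+* K) z (p.map (R.val : R →+* M)) = 0 := by
      rw [eval₂_map]
      exact hp
    exact Polynomial.map_injective (R.val : R →+* M) Subtype.val_injective
      ((htr _ h1).trans (Polynomial.map_zero _).symm)
  have e1 : (XAlg.ev (ι.comp R.val) z : R[X] →+* K) (C S) = ι S := XAlg.ev_C _ _ _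
  have e2 : (XAlg.ev (ι.comp R.val) z : R[X] →+* K) (g.map (algebraMap k R)) = aeval z g := by
    change eval₂ ((ι.comp R.val : R →ₐ[k] K) : R →+* K) z (g.map (algebraMap k R)) = _
    rw [eval₂_map, AlgHom.comp_algebraMap, aeval_def]
  have d2 := KerL.dvd_of g hg0 S hS
  have d1 := KerL.swap _ _ hG0 d2
  refine ⟨fun h q hq => ?_, fun h q hq => ?_⟩
  · exact KerL.ker _ hinj t (C S) _ e he hC d1
      (fun r0 r1 hr => (KerL.parity _ hG S hS r0 r1 hr).2) (by rw [e1, e2]; exact h) q hq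
  · have h1 := KerL.ker _ hinj t _ (C S) e he hG0 d2
      (fun r0 r1 hr => (KerL.parity _ hG S hS r1 r0 hr.symm).1) (by rw [e1, e2]; exact h.symm) q hq
    rw [← neg_dvd, neg_sub, mul_comm] at h1
    exact h1

end Pool.Agent.MP_20d318_ag.CH
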