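import Pool.Agent.MP_20d318_ag.CH.Spec

/-! The action of the lifted automorphisms on numerical classes. -/

set_option autoImplicit false
set_option linter.unusedSectionVars false

namespace Pool.Agent.MP_20d318_ag.CH

open Pool.Agent.MP_fd6584_ag.Fn Pool.Agent.CBk
open Pool.Agent.MP_fd6584_ag.AG hiding deg_inv deg_congr deg_of_unit deg_mul deg_prod deg_zpow
  deg_eq_zero deg_nonneg deg_div deg_pow

namespace Lft

variable {k K : Type} [Field k] [Field K] [Algebra k K] {X : Set (Subalgebra k K)}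
  {f f' : Subalgebra k K → K} {ζ : K}

/-- Transported local equations. -/
noncomputable def mv (g : Aut X) (f : Subalgebra k K → K) (O : Subalgebra k K) : K :=
  g.1 (f (O.comap (g.1 : K →ₐ[k] K)))

theorem mv_cart (g : Aut X) (hf : IsCart X f) : IsCart X (mv g f) :=
  (Cartier.pull g ⟨f, hf⟩).isCart

theorem n1_cl (g : Aut X) (hf : IsCart X f) : g.n1 (cl X f) = cl X (mv g f) := by
  rw [cl_eq hf, Aut.n1_n1, n1_eq]
  rfl

theorem cl_congr [IsAlgClosed k] (hX : Good X) (hf : IsCart X f) (hf' : IsCart X f')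
    (h : ∀ O ∈ X, IsU O (f O / f' O)) : cl X f = cl X f' :=
  n1_ext fun ν => by rw [cl_val hf, cl_val hf', deg_congr hX hf hf' h]

theorem cl_same [IsAlgClosed k] (hX : Good X) (hf : IsCart X f) (hf' : IsCart X f')
    (h : ∀ O ∈ X, f O = f' O) : cl X f = cl X f' :=
  cl_congr hX hf hf' fun O hO => by
    rw [h O hO, div_self (hf'.ne hO)]
    exact isU_one

theorem mv_eta (g : Aut X) (h : g.1 ζ = ζ) (O : Subalgebra k K) : mv g (eta ζ) O = eta ζ O := by
  have e : ζ ∈ O.comap (g.1 : K →ₐ[k] K) ↔ ζ ∈ O := by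
    rw [Subalgebra.mem_comap]
    change g.1 ζ ∈ O ↔ _
    rw [h]
  unfold mv eta
  by_cases hz : ζ ∈ O
  · rw [if_pos hz, if_pos (e.2 hz), map_one]
  · rw [if_neg hz, if_neg (mt e.1 hz), h]

theorem mv_tau (g : Aut X) (h : g.1 ζ = ζ) (l : k) (j : Fin 4) (O : Subalgebra k K) :
    mv g (tau l ζ j) O = tau l ζ j O := by
  have e := mv_eta g h O
  unfold mv at e
  unfold mv tau
  rw [map_div₀, e]
  refine congrArg (· / eta ζ O) ?_
  fin_cases j <;> simp [h]

theorem map_cb (g : K ≃ₐ[k] K) (h : g ζ = ζ) (l : k) : g (cb l ζ) = cb l ζ := by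
  simp [cb, h]

end Lft

open Lft

theorem lft_stmt : LftStmt := by
  intro k M K Λ κ n _ _ _ _ _ _ _ _ _ L ι l ζ w e h hs
  rintro _ ⟨g, r, hg, rfl⟩
  obtain ⟨g', u⟩ := hs g r hg
  have hup : ∀ f : Subalgebra k M → M, ∀ O ∈ XX L ι ζ w e,
      mv g' (up ι L.Y f) O = up ι L.Y (mv g f) O := fun f O hO => by
    unfold mv up
    rw [u.h1, u.pr O hO]
  have hE : ∀ O ∈ XX L ι ζ w e, ∀ i j,
      IsU O (mv g' (EE L ι l ζ i j) O / EE L ι l ζ i j O) := u.ee
  refine ⟨g'.n1, ⟨g', ι r, ⟨(_root_.map_ne_zero ι).2 hg.ne, ?_, ?_⟩, rfl⟩, fun D => ?_⟩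
  · change g'.1 (ι L.φ * cb l ζ) = ι L.φ * cb l ζ * ι r ^ 2
    rw [map_mul, u.h1, hg.sq, map_cb g'.1 u.h2, map_mul, map_pow]
    ring
  · rintro (i | j) O hO
    · have h1 : IsU O (mv g' (sX L ι i) O / sX L ι i O) := by
        have h2 := (isU_comap ι).1
          ((hg.st i _ (h.loc.maps.mem hO)).mono (h.loc.maps.dom hO).1)
        rw [map_div₀] at h2
        rw [sX, hup _ O hO]
        exact h2
      have h3 := h1.div (isU_prod (s := Finset.univ) fun j _ => hE O hO i j)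
      rw [Finset.prod_div_distrib, div_div_div_comm] at h3
      change IsU O (g'.1 (_ / ∏ j, _) / (_ / ∏ j, _))
      rw [map_div₀, map_prod]
      exact h3
    · have h1 : IsU O (mv g' (tau l ζ j) O / tau l ζ j O) := by
        rw [mv_tau g' u.h2, div_self (h.loc.tne O j)]
        exact isU_one
      have h3 := h1.div (isU_prod (s := Finset.univ) fun i _ => hE O hO i j)
      rw [Finset.prod_div_distrib, div_div_div_comm] at h3
      change IsU O (g'.1 (_ / ∏ i, _) / (_ / ∏ i, _))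
      rw [map_div₀, map_prod]
      exact h3
  · have e1 : g'.n1 ∘ₗ pull h.gY h.gX h.loc.maps = pull h.gY h.gX h.loc.maps ∘ₗ g.n1 :=
      lin_ext fun f hf => by
        rw [LinearMap.comp_apply, LinearMap.comp_apply, pull_cl _ _ _ hf, n1_cl g hf,
          pull_cl _ _ _ (mv_cart g hf), n1_cl g' (h.div.cartU f hf)]
        exact cl_same h.gX (mv_cart g' (h.div.cartU f hf)) (h.div.cartU _ (mv_cart g hf)) (hup f)
    have e2 : g'.n1 (cl _ (eta ζ)) = cl _ (eta ζ) := (n1_cl g' h.div.cartZ).trans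
      (cl_same h.gX (mv_cart g' h.div.cartZ) h.div.cartZ fun O _ => mv_eta g' u.h2 O)
    have e3 : ∀ i j, g'.n1 (cl _ (EE L ι l ζ i j)) = cl _ (EE L ι l ζ i j) := fun i j =>
      (n1_cl g' (h.div.cartE i j)).trans
        (cl_congr h.gX (mv_cart g' (h.div.cartE i j)) (h.div.cartE i j) fun O hO => hE O hO i j)
    have e4 := LinearMap.congr_fun e1 D.1
    rw [LinearMap.comp_apply, LinearMap.comp_apply] at e4
    change g'.n1 (pull h.gY h.gX h.loc.maps D.1 - D.2.1 • cl _ (eta ζ) -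
      ∑ i, ∑ j, D.2.2 i j • cl _ (EE L ι l ζ i j)) =
      pull h.gY h.gX h.loc.maps (g.n1 D.1) - D.2.1 • cl _ (eta ζ) -
      ∑ i, ∑ j, D.2.2 i j • cl _ (EE L ι l ζ i j)
    simp only [map_sub, map_sum, map_smul, e2, e3, e4]

end Pool.Agent.MP_20d318_ag.CH
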