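import Pool.Agent.MP_20d318_ag.CH.Spec

/-! Curves lift to points with the same residue field. -/

set_option autoImplicit false
set_option linter.unusedSectionVars false

namespace Pool.Agent.MP_20d318_ag.CH

open Pool.Agent.MP_fd6584_ag.Fn Pool.Agent.CBk
open Pool.Agent.MP_fd6584_ag.AG hiding deg_inv deg_congr deg_of_unit deg_mul deg_prod deg_zpow
  deg_eq_zero deg_nonneg deg_div deg_pow

namespace Lift

variable {k M K L : Type} [Field k] [Field M] [Field K] [Field L] [Algebra k M] [Algebra k K]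
  [Algebra k L]

/-- A local homomorphism extends to a point with the same residue field. -/
theorem ext (ι : M →ₐ[k] K) {R : Subalgebra k M} {O : Subalgebra k K} {G : Set K}
    (hd : Dom R (O.comap ι)) (hO : O ∈ Pts (Algebra.adjoin k (ι '' R ∪ G)))
    (hG : ∀ g ∈ G, ∃ c : k, g - algebraMap k K c ∈ mx O) {ρ : R →ₐ[k] L} (hρ : LocHom R ρ) :
    ∃ ρ' : O →ₐ[k] L, LocHom O ρ' ∧ ∀ a ∈ R, evO O ρ' (ι a) = evO R ρ a := by
  have := hO.1
  have := hρ.isLocalRing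
  have hr := resid_loc (O := O)
  let j : R →ₐ[k] O := (ι.comp R.val).codRestrict O fun u => hd.1 u.2
  have hj : LocHom R ((resid O).comp j) := fun u hu =>
    hd.2 u u.2 ((isU_comap ι).2 (hr (j u) hu))
  obtain ⟨α, hα⟩ := hj.factor
  obtain ⟨β, hβ⟩ := hρ.factor
  have ha : ∀ a : R, evO O (resid O) (ι a) = α (resid R a) := fun a =>
    (evO_coe (resid O) (j a)).trans (AlgHom.congr_fun hα a).symm
  have hs : ι '' R ∪ G ⊆ O := fun g hg => hO.2.1 (Algebra.subset_adjoin hg)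
  have h1 : Algebra.adjoin k (evO O (resid O) '' (ι '' R ∪ G)) ≤ α.fieldRange.toSubalgebra := by
    refine Algebra.adjoin_le ?_
    rintro _ ⟨_, ⟨a, h, rfl⟩ | h, rfl⟩
    · exact ⟨_, (ha ⟨a, h⟩).symm⟩
    · obtain ⟨c, hc⟩ := hG _ h
      have h2 := (hr.eq_zero_iff hc.1).2 hc
      rw [evO_sub _ (hs (Or.inr h)) (O.algebraMap_mem c), evO_const, sub_eq_zero] at h2
      rw [h2]
      exact Subalgebra.algebraMap_mem _ c
  have su : Function.Surjective α := fun y => by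
    obtain ⟨f, rfl⟩ := resid_surj y
    obtain ⟨a, h2, b, h3, h4, h5⟩ := hO.2.2 f f.2
    rw [← evO_coe, h5, evO_div _ (hO.2.1 h2) h4]
    exact α.fieldRange.div_mem (h1 (DimRow.ev_adjoin _ hs h2)) (h1 (DimRow.ev_adjoin _ hs h3))
  let ε := AlgEquiv.ofBijective α ⟨α.injective, su⟩
  refine ⟨(β.comp (ε.symm : _ →ₐ[k] _)).comp (resid O), hr.comp _, fun a h => ?_⟩
  rw [evO_comp, ha ⟨a, h⟩, evO_of_mem ρ h, ← hβ]
  exact congrArg β (ε.symm_apply_apply _)

end Lift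

theorem lift_stmt : LiftStmt := by
  intro k M K _ _ _ _ _ ι Y X ν O G hY hX h hO e hp hG
  have hd := h.dom hO
  rw [e] at hd hp
  obtain ⟨ρ, hρ, hv⟩ := Lift.ext ι hd hp hG ν.locHom
  refine ⟨hX.curve hO ρ hρ, rfl, fun f hf => ?_⟩
  refine finsum_congr fun P : Place k ν.L => ?_
  set ν' := hX.curve hO ρ hρ
  have hm := ν'.pt_mem P
  have hle : pr ι Y (ν'.pt P) ≤ ν.gen := e ▸ pr_mono hY hX h hm hO (ν'.pt_le P)
  have h1 : ν.pt P = pr ι Y (ν'.pt P) := hY.pt_eq ν P (h.mem hm)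
    ⟨fun u hu => mem_preO.2 ⟨hle hu, hv u (hle hu) ▸ ν'.v_le P (h.mem_up hm hu)⟩,
      fun u hu hU => (h.dom hm).2 u hu ((isU_comap ι).2 ((ν'.v_eq_one_iff P (h.mem_up hm hu)).1
        ((congrArg P.v (hv u (hle hu))).trans ((isU_preO ν.locHom).1 hU).2)))⟩
  refine congrArg P.ord ?_
  have h2 := hv _ (hf.unit (ν.pt_mem P) ν.gen_mem (ν.pt_le P)).2.1
  rw [map_div₀, h1] at h2
  rw [h1]
  exact (congrArg (fun R => evO O ρ (ι (f (pr ι Y (ν'.pt P))) / ι (f R))) e).trans h2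

end Pool.Agent.MP_20d318_ag.CH
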