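import Pool.Agent.MP_20d318_ag.CH.LSpec

section PartN1a

/-! The nef cone of the next level. -/

set_option autoImplicit false

namespace Pool.Agent.MP_20d318_ag.CH

universe u v u' v'

theorem n1a_stmt : N1AStmt.{u, v, u', v'} := by
  classical
  intro V 𝒞 V' 𝒞' κ _ _ _ _ _ N N' Φ 𝓗 h D
  refine ⟨fun hD => ?_, fun hD ν' => ?_⟩
  · have key : ∀ {ν' : 𝒞'} {n r : ℝ}, 0 < n → N'.d ν' (Φ D) = n * r → 0 ≤ r := fun {ν' n r} hn e =>
      (mul_nonneg_iff_of_pos_left hn).1 (e ▸ hD ν')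
    have a0 : ∀ i j, 0 ≤ D.2.2 i j := fun i j => by
      obtain ⟨ν', n, hn, e⟩ := h.s.tE i j
      exact key hn (e D)
    have c0 : ∀ j, D.1 - ∑ i, D.2.2 i j • N.c i ∈ N.Nef := fun j ν => by
      obtain ⟨ν', n, hn, e⟩ := h.s.tT ν j
      exact key hn (e D)
    refine ⟨⟨a0, fun i => ?_, fun ν => ?_, c0⟩, h.tH D hD⟩
    · obtain ⟨ν', n, hn, e⟩ := h.s.tC i
      exact sub_nonneg.1 (key hn (e D))
    · by_cases hc : ∃ i, N.d ν (N.c i) < 0
      · obtain ⟨i, hi⟩ := hc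
        obtain ⟨ν', n, hn, e⟩ := h.s.tB ν i hi
        exact key hn (e D)
      · push Not at hc
        have h1 := c0 0 ν
        rw [d_sub] at h1
        have := Finset.sum_nonneg fun i (_ : i ∈ Finset.univ) => mul_nonneg (a0 i 0) (hc i)
        linarith
  · obtain ⟨ν, τ, ε, ⟨t0, ty⟩, e⟩ := h.s.cur ν'
    obtain ⟨a0, r0, l0, c0⟩ := hD.1
    have l1 := l0 ν
    rw [e D]
    rcases ty with ⟨j, rfl, he⟩ | ⟨i, -, he⟩ | ⟨i, j, -, rfl, e0, -, he⟩ | ⟨e0, e1, e2⟩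
    · have h1 := c0 j ν
      rw [d_sub] at h1
      simpa [he] using h1
    · have h1 : ∑ i', ∑ j, D.2.2 i' j * ε i' j = (∑ j, D.2.2 i j) * τ := by
        rw [Finset.sum_eq_single i (fun i' _ hi => by simp [he, hi]) (by simp), Finset.sum_mul]
        simp [he]
      have := mul_le_mul_of_nonneg_right (r0 i) t0
      rw [h1]
      linarith
    · have h1 : ∑ i', ∑ j', D.2.2 i' j' * ε i' j' ≤ 0 :=
        Finset.sum_nonpos fun i' _ => Finset.sum_nonpos fun j' _ => by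
          by_cases hh : i' = i ∧ j' = j
          · rw [hh.1, hh.2]
            exact mul_nonpos_of_nonneg_of_nonpos (a0 i j) e0
          · rw [he i' j' hh, mul_zero]
      linarith
    · obtain ⟨x, y, x0, y0, xy, yt, hx, -⟩ := h.l.gk.cur ν D hD 0 0
        ⟨fun _ => le_rfl, fun _ => le_rfl, a0, a0⟩
      have h1 : 0 ≤ N.d ν D.1 - ∑ i, x i * N.d ν (N.c i) := d_sub ν D.1 _ x ▸ hx
      have h2 : ∑ i, ∑ j, D.2.2 i j * ε i j ≤ ∑ i, ∑ j, (x i * ε i j + y j * ε i j) :=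
        Finset.sum_le_sum fun i _ => Finset.sum_le_sum fun j _ => by
          rw [← add_mul]; exact mul_le_mul_of_nonneg_right (xy i j) (e0 i j)
      have h3 : ∑ i, ∑ j, x i * ε i j ≤ ∑ i, x i * N.d ν (N.c i) :=
        Finset.sum_le_sum fun i _ => by
          rw [← Finset.mul_sum]; exact mul_le_mul_of_nonneg_left (e1 i) (x0 i)
      have h4 : ∑ i, ∑ j, y j * ε i j ≤ (∑ j, y j) * τ := by
        rw [Finset.sum_comm, Finset.sum_mul]
        exact Finset.sum_le_sum fun j _ => by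
          rw [← Finset.mul_sum]; exact mul_le_mul_of_nonneg_left (e2 j) (y0 j)
      have h5 := mul_le_mul_of_nonneg_right yt t0
      simp only [Finset.sum_add_distrib] at h2
      linarith

end Pool.Agent.MP_20d318_ag.CH

end PartN1a

section PartN1b

/-! The cover and the span on the next level. -/

set_option autoImplicit false

namespace Pool.Agent.MP_20d318_ag.CH

open Pool.Agent.MP_20d318_ag.Lat

universe u v u' v'

namespace N1b

variable {V : Type u} {𝒞 : Type v} {V' : Type u'} {𝒞' : Type v'} {κ : Type} [AddCommGroup V]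
  [Module ℝ V] [AddCommGroup V'] [Module ℝ V'] [Fintype κ] {N : Nd V 𝒞 κ}
  {N' : Nd V' 𝒞' (κ ⊕ Fin 4)} {Φ : WW V κ →ₗ[ℝ] V'} {𝓗 : Set (WW V κ)}

theorem ident (N : Nd V 𝒞 κ) (D : WW V κ) (x : κ → ℝ) (y : Fin 4 → ℝ) :
    D = (D.1 - ∑ i, x i • N.c i, 0, 0) + (D.2.1 - ∑ j, y j) • ((0, 1, 0) : WW V κ) +
      ∑ i, x i • N.rowW i + ∑ j, y j • colW j +
      ∑ i, ∑ j, (x i + y j - D.2.2 i j) • excW i j := by
  classical
  refine Prod.ext ?_ (Prod.ext ?_ (funext₂ fun i j => ?_))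
  · simp [Prod.fst_sum, Nd.rowW, colW, excW]
  · simp [Prod.fst_sum, Prod.snd_sum, Nd.rowW, colW, excW]
  · simp [Prod.snd_sum, Nd.rowW, colW, excW, Finset.sum_apply, ite_and]

theorem eff (h : Stp N N' Φ 𝓗) {D : WW V κ} {x : κ → ℝ} {y : Fin 4 → ℝ} (x0 : ∀ i, 0 ≤ x i)
    (y0 : ∀ j, 0 ≤ y j) (xy : ∀ i j, D.2.2 i j ≤ x i + y j) (yt : ∑ j, y j ≤ D.2.1)
    (hx : D.1 - ∑ i, x i • N.c i ∈ N.Ef) : Φ D ∈ N'.Ef := by
  have c := h.b'.cone
  rw [ident N D x y]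
  simp only [map_add, map_sum, map_smul]
  refine c.add _ (c.add _ (c.add _ (c.add _ (h.s.eL _ hx) _ (c.smul _ (sub_nonneg.2 yt) _ h.s.eF)) _
    (c.sum_mem _ _ fun i _ => c.smul _ (x0 i) _ ?_)) _
    (c.sum_mem _ _ fun j _ => c.smul _ (y0 j) _ ?_)) _
    (c.sum_mem _ _ fun i _ => c.sum_mem _ _ fun j _ =>
      c.smul _ (sub_nonneg.2 (xy i j)) _ (h.s.eE i j))
  · exact h.s.cC i ▸ h.s.eC _
  · exact h.s.cT j ▸ h.s.eC _

theorem diff {K : Set V} (hK : IsCone K) {w : V} (hw : w ∈ Submodule.span ℝ K) :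
    ∃ A ∈ K, ∃ B ∈ K, w = A - B := by
  induction hw using Submodule.span_induction with
  | mem x hx => exact ⟨x, hx, 0, hK.zero, (sub_zero x).symm⟩
  | zero => exact ⟨0, hK.zero, 0, hK.zero, (sub_zero 0).symm⟩
  | add x y _ _ hx hy =>
    obtain ⟨A, hA, B, hB, rfl⟩ := hx
    obtain ⟨A', hA', B', hB', rfl⟩ := hy
    exact ⟨_, hK.add _ hA _ hA', _, hK.add _ hB _ hB', by abel⟩
  | smul r x _ hx =>
    obtain ⟨A, hA, B, hB, rfl⟩ := hx
    rcases le_total 0 r with hr | hr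
    · exact ⟨_, hK.smul r hr _ hA, _, hK.smul r hr _ hB, smul_sub _ _ _⟩
    · exact ⟨_, hK.smul _ (neg_nonneg.2 hr) _ hB, _, hK.smul _ (neg_nonneg.2 hr) _ hA, by module⟩

theorem cv (h : Stp N N' Φ 𝓗) (hn : NefEq N N' Φ 𝓗) : CV N' := by
  classical
  obtain ⟨R, r1, r2, r3⟩ := h.l.cvw
  refine ⟨R.image Φ, ?_, ?_, fun x hx => ?_⟩
  · rw [Finset.coe_image]
    rintro _ ⟨D, hD, rfl⟩
    exact h.s.lat D (r1 hD)
  · refine (N'.isCone_nef.inter h.b'.cone).cone_subset ?_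
    rw [Finset.coe_image]
    rintro _ ⟨D, hD, rfl⟩
    have h1 := r2 (subset_cone _ hD)
    obtain ⟨x, y, x0, y0, xy, yt, hx, -⟩ := h.l.gk.eff D h1 (r1 hD) 0 0
      ⟨fun _ => le_rfl, fun _ => le_rfl, h1.1.1, h1.1.1⟩ (fun _ => IZ.zero) fun _ => IZ.zero
    exact ⟨(hn D).2 h1, eff h x0 y0 xy yt hx⟩
  · obtain ⟨D, rfl, hD⟩ := h.s.dn x hx.2
    obtain ⟨g, hg, h1⟩ := r3 D ((hn D).1 hx.1) hD
    obtain ⟨g', hg', e⟩ := h.s.lift g hg
    refine ⟨g', hg', ?_⟩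
    rw [Finset.coe_image, cone_map, e]
    exact ⟨_, h1 ((hn _).1 (e D ▸ h.b'.gN g' hg' _ hx.1)), rfl⟩

theorem spn (h : Stp N N' Φ 𝓗) (hn : NefEq N N' Φ 𝓗) : Spn N' := by
  classical
  set S := Submodule.span ℝ (N'.Nef ∩ N'.Ef)
  have z := N.isCone_nef.zero
  have s1 : ∀ L : V, Φ (L, 0, 0) ∈ S := fun L => by
    have : (⊤ : Submodule ℝ V) ≤ S.comap (Φ.comp (LinearMap.inl ℝ V _)) := by
      rw [← show _ = ⊤ from h.l.spn, Submodule.span_le]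
      exact fun L hL => Submodule.subset_span ⟨(hn (L, 0, 0)).2
        ⟨⟨fun _ _ => le_rfl, by simp, hL.1, by simpa using hL.1⟩,
          h.l.hh.low _ hL.1 (fun _ _ => le_rfl) (by simp)⟩, h.s.eL L hL.2⟩
    exact this (x := L) trivial
  have s2 : Φ (0, 1, 0) ∈ S := Submodule.subset_span ⟨(hn (0, 1, 0)).2
    ⟨⟨fun _ _ => le_rfl, by simp, z, by simpa using z⟩,
      h.l.hh.low _ z (fun _ _ => le_rfl) (by simp)⟩, h.s.eF⟩
  have s3 : ∀ i j, Φ (excW i j) ∈ S := fun i j => by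
    obtain ⟨A, hA, B, hB, e⟩ := diff (N.isCone_nef.inter h.b.cone) (w := N.c i)
      (by rw [show _ = ⊤ from h.l.spn]; trivial)
    have eB : A - N.c i = B := by rw [e, sub_sub_cancel]
    let D : WW V κ := (A, 1, fun i' j' => if i' = i ∧ j' = j then 1 else 0)
    have a0 : ∀ i' j', 0 ≤ D.2.2 i' j' := fun i' j' => by
      simp only [D]
      split_ifs <;> norm_num
    have m : Φ D ∈ S := Submodule.subset_span ⟨(hn D).2 ⟨⟨a0, fun i' => ?_, hA.1, fun j' => ?_⟩,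
      h.l.hh.low _ hA.1 a0 (by simp [D, ite_and])⟩,
      eff h (x := fun i' => if i' = i then 1 else 0) (y := 0) (fun i' => ?_) (fun _ => le_rfl)
        (fun i' j' => ?_) (by simp [D]) (by simpa [D, ite_smul, eB] using hB.2)⟩
    · have e2 : excW i j = (A, 0, 0) + (0, 1, 0) - D := by
        refine Prod.ext (by simp [excW, D]) (Prod.ext (by simp [excW, D]) (funext₂ fun i' j' => ?_))
        simp only [excW, D, Prod.snd_sub, Prod.snd_add, Pi.sub_apply, Pi.add_apply, Pi.zero_apply]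
        split_ifs <;> norm_num
      rw [e2, map_sub, map_add]
      exact S.sub_mem (S.add_mem (s1 A) s2) m
    · by_cases hi : i' = i <;> simp [D, hi]
    · by_cases hj : j' = j
      · simpa [D, hj, ite_smul, eB] using hB.1
      · simpa [D, hj] using hA.1
    · split_ifs <;> norm_num
    · by_cases hi : i' = i <;> by_cases hj : j' = j <;> simp [D, hi, hj]
  refine eq_top_iff.2 fun w _ => ?_
  obtain ⟨D, rfl⟩ := h.s.surj w
  rw [ident N D 0 0]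
  simp only [map_add, map_sum, map_smul, Pi.zero_apply, zero_smul, Finset.sum_const_zero, add_zero]
  exact S.add_mem (S.add_mem (s1 _) (S.smul_mem _ s2))
    (S.sum_mem fun i _ => S.sum_mem fun j _ => S.smul_mem _ (s3 i j))

end N1b

theorem n1b_stmt : N1BStmt.{u, v, u', v'} := by
  classical
  intro V 𝒞 V' 𝒞' κ _ _ _ _ _ N N' Φ 𝓗 h hn
  have := h.l.fd
  refine ⟨N1b.cv h hn, N1b.spn h hn, Module.Finite.of_surjective Φ h.s.surj, ?_⟩
  rintro (i | j)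
  · rw [h.s.cC]
    exact h.s.lat _ ⟨h.l.cΛ i, IZ.zero, fun _ _ => IZ.ite IZ.one IZ.zero⟩
  · rw [h.s.cT]
    exact h.s.lat _ ⟨N.Λ.zero_mem, IZ.one, fun _ _ => IZ.ite IZ.one IZ.zero⟩

end Pool.Agent.MP_20d318_ag.CH

end PartN1b

section PartN1c

/-! Row N1C: the dichotomy and the subtraction on the next level. -/

set_option autoImplicit false
set_option linter.unusedSectionVars false

namespace Pool.Agent.MP_20d318_ag.CH

open Pool.Agent.MP_20d318_ag.Lat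

universe u v u' v'

namespace N1c

variable {V : Type u} {𝒞 : Type v} {V' : Type u'} {𝒞' : Type v'} {κ : Type} [AddCommGroup V]
  [Module ℝ V] [AddCommGroup V'] [Module ℝ V'] [Fintype κ] {N : Nd V 𝒞 κ}
  {N' : Nd V' 𝒞' (κ ⊕ Fin 4)} {Φ : WW V κ →ₗ[ℝ] V'} {𝓗 : Set (WW V κ)}

theorem ident (N : Nd V 𝒞 κ) (D : WW V κ) (x : κ → ℝ) (y : Fin 4 → ℝ) :
    D = ((D.1 - ∑ i, x i • N.c i, 0, 0) : WW V κ) + (D.2.1 - ∑ j, y j) • ((0, 1, 0) : WW V κ) +
      ∑ i, x i • N.rowW i + ∑ j, y j • (colW j : WW V κ) +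
      ∑ i, ∑ j, (x i + y j - D.2.2 i j) • (excW i j : WW V κ) := by
  classical
  refine Prod.ext ?_ (Prod.ext ?_ ?_)
  · simp [Prod.fst_sum, Nd.rowW, colW, excW]
  · simp [Prod.fst_sum, Prod.snd_sum, Nd.rowW, colW, excW]
  · funext i j
    simp [Prod.snd_sum, Finset.sum_apply, Nd.rowW, colW, excW, ite_and]

theorem key (s : StDiv N N' Φ) {Q : Set V} {Q' : Set V'} (hQ : IsCone Q')
    (h1 : ∀ L ∈ Q, Φ (L, 0, 0) ∈ Q') (h2 : Φ (0, 1, 0) ∈ Q') (h3 : ∀ i j, Φ (excW i j) ∈ Q')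
    (h4 : ∀ k, N'.c k ∈ Q') {D : WW V κ} {x : κ ⊕ Fin 4 → ℝ}
    (h : GKc N Q D (fun i => x (.inl i)) (fun j => x (.inr j))) : SKc N' Q' (Φ D) x := by
  classical
  obtain ⟨U, W, U0, hW, haU, hs, hQU, i₀, hU⟩ := h
  refine ⟨.inl i₀, ?_⟩
  have e1 : ∀ (inst : DecidableEq (κ ⊕ Fin 4)),
      ∑ k ∈ @Finset.erase _ inst Finset.univ (.inl i₀), x k • N'.c k =
      ∑ i, (if i = i₀ then 0 else x (.inl i)) • N'.c (.inl i) + ∑ j, x (.inr j) • N'.c (.inr j) := by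
    intro inst
    have e0 : ∑ i, (if i = i₀ then 0 else x (.inl i)) • N'.c (.inl i) =
        ∑ i, x (.inl i) • N'.c (.inl i) - x (.inl i₀) • N'.c (.inl i₀) := by
      rw [← Finset.sum_erase_eq_sub (Finset.mem_univ i₀), ← Finset.sum_erase (a := i₀) _ (by simp)]
      exact Finset.sum_congr rfl fun i hi => by rw [if_neg (Finset.ne_of_mem_erase hi)]
    rw [Finset.sum_erase_eq_sub (Finset.mem_univ _), Fintype.sum_sum_type, e0]
    abel
  have e2 : Φ D = Φ (D.1 - ∑ i, U i • N.c i, 0, 0) + (D.2.1 - ∑ j, W j) • Φ (0, 1, 0) +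
      ∑ i, U i • N'.c (.inl i) + ∑ j, W j • N'.c (.inr j) +
      ∑ i, ∑ j, (U i + W j - D.2.2 i j) • Φ (excW i j) := by
    have := congrArg Φ (ident N D U W)
    simp only [map_add, map_sum, map_smul] at this
    simp only [s.cC, s.cT]
    exact this
  have e3 : Φ D - (∑ i, (if i = i₀ then 0 else x (.inl i)) • N'.c (.inl i) +
      ∑ j, x (.inr j) • N'.c (.inr j)) =
      Φ (D.1 - ∑ i, U i • N.c i, 0, 0) + (D.2.1 - ∑ j, W j) • Φ (0, 1, 0) +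
      ∑ i, (U i - if i = i₀ then 0 else x (.inl i)) • N'.c (.inl i) +
      ∑ j, (W j - x (.inr j)) • N'.c (.inr j) +
      ∑ i, ∑ j, (U i + W j - D.2.2 i j) • Φ (excW i j) := by
    rw [e2]
    simp only [sub_smul (U _), sub_smul (W _), Finset.sum_sub_distrib]
    abel
  rw [e1, e3]
  refine hQ.add _ (hQ.add _ (hQ.add _ (hQ.add _ (h1 _ hQU) _ (hQ.smul _ (sub_nonneg.2 hs) _ h2)) _
    (hQ.sum_mem _ _ fun i _ => hQ.smul _ ?_ _ (h4 _))) _
    (hQ.sum_mem _ _ fun j _ => hQ.smul _ (sub_nonneg.2 (hW j)) _ (h4 _))) _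
    (hQ.sum_mem _ _ fun i _ => hQ.sum_mem _ _ fun j _ =>
      hQ.smul _ (sub_nonneg.2 (haU i j)) _ (h3 i j))
  split_ifs with e
  · simpa using U0 i
  · exact sub_nonneg.2 (hU i e)

theorem adm (s : StDiv N N' Φ) (hne : NefEq N N' Φ 𝓗) {D : WW V κ} {x : κ ⊕ Fin 4 → ℝ}
    (x0 : ∀ k, 0 ≤ x k) (hx : ∀ k, Φ D - x k • N'.c k ∈ N'.Nef) :
    Adm D (fun i => x (.inl i)) (fun j => x (.inr j)) := by
  refine ⟨fun i => x0 _, fun j => x0 _, fun i j => ?_, fun i j => ?_⟩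
  · have h := hx (.inl i)
    rw [s.cC, ← map_smul, ← map_sub, hne] at h
    simpa [Nd.rowW] using h.1.1 i j
  · have h := hx (.inr j)
    rw [s.cT, ← map_smul, ← map_sub, hne] at h
    simpa [colW] using h.1.1 i j

theorem degs (s : StDiv N N' Φ) {ν' : 𝒞'} {ν : 𝒞} {τ : ℝ} {ε : κ → Fin 4 → ℝ}
    (h : ∀ D, N'.d ν' (Φ D) = N.d ν D.1 + D.2.1 * τ - ∑ i, ∑ j, D.2.2 i j * ε i j) :
    (∀ i, N'.d ν' (N'.c (.inl i)) = N.d ν (N.c i) - ∑ j, ε i j) ∧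
      (∀ j, N'.d ν' (N'.c (.inr j)) = τ - ∑ i, ε i j) ∧
      ∀ i j, N'.d ν' (Φ (excW i j)) = ε i j := by
  classical
  refine ⟨fun i => ?_, fun j => ?_, fun i j => ?_⟩
  · rw [s.cC, h]
    simp [Nd.rowW]
  · rw [s.cT, h]
    simp [colW]
  · rw [h]
    simp [excW, ite_and]

/-- The four types of curves. -/
theorem types (s : St N N' Φ) (ν' : 𝒞') :
    (∃ a, ∀ k, k ≠ a → N'.d ν' (N'.c k) = 0) ∨ ((∀ k, 0 ≤ N'.d ν' (N'.c k)) ∧
      ((∃ a b, ∀ k, k ≠ a → k ≠ b → N'.d ν' (N'.c k) = 0) ∨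
        ∃ ν, (∀ L, N'.d ν' (Φ (L, 0, 0)) = N.d ν L) ∧ 0 ≤ N'.d ν' (Φ (0, 1, 0)) ∧
          ∀ i j, 0 ≤ N'.d ν' (Φ (excW i j)))) := by
  classical
  obtain ⟨ν, τ, ε, ⟨τ0, ht⟩, h⟩ := s.cur ν'
  obtain ⟨d1, d2, d3⟩ := degs s.toStDiv h
  rcases ht with ⟨j, hτ, he⟩ | ⟨i, hi, he⟩ | ⟨i, j, hi, hτ, e0, e1, he⟩ | ⟨e0, e1, e2⟩
  · refine Or.inl ⟨.inr j, ?_⟩
    rintro (i | j') hk
    · simp [d1, he]
    · have : j' ≠ j := fun e => hk (by rw [e])
      simp [d2, he, hτ, this]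
  · refine Or.inl ⟨.inl i, ?_⟩
    rintro (i' | j) hk
    · have : i' ≠ i := fun e => hk (by rw [e])
      simp [d1, he, hi i' this, this]
    · simp [d2, he]
  · have r1 : ∑ j', ε i j' = ε i j :=
      Finset.sum_eq_single j (fun j' _ hj => he i j' fun e => hj e.2) (by simp)
    have r2 : ∑ i', ε i' j = ε i j :=
      Finset.sum_eq_single i (fun i' _ hi' => he i' j fun e => hi' e.1) (by simp)
    have r3 : ∀ i', i' ≠ i → N'.d ν' (N'.c (.inl i')) = 0 := fun i' hi' => by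
      rw [d1, hi i' hi', Finset.sum_eq_zero fun j' _ => he i' j' fun e => hi' e.1, sub_zero]
    have r4 : ∀ j', j' ≠ j → N'.d ν' (N'.c (.inr j')) = 0 := fun j' hj' => by
      rw [d2, hτ, Finset.sum_eq_zero fun i' _ => he i' j' fun e => hj' e.2, sub_zero]
    refine Or.inr ⟨?_, Or.inl ⟨.inl i, .inr j, ?_⟩⟩
    · rintro (i' | j')
      · by_cases e : i' = i
        · rw [e, d1, r1]
          exact sub_nonneg.2 e1
        · exact (r3 i' e).ge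
      · by_cases e : j' = j
        · rw [e, d2, r2, hτ]
          exact sub_nonneg.2 e0
        · exact (r4 j' e).ge
    · rintro (i' | j') ha hb
      · exact r3 i' fun e => ha (by rw [e])
      · exact r4 j' fun e => hb (by rw [e])
  · refine Or.inr ⟨?_, Or.inr ⟨ν, fun L => by simp [h], by simpa [h] using τ0,
      fun i j => by rw [d3]; exact e0 i j⟩⟩
    rintro (i | j)
    · rw [d1]
      exact sub_nonneg.2 (e1 i)
    · rw [d2]
      exact sub_nonneg.2 (e2 j)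

end N1c

theorem n1c_stmt : N1CStmt.{u, v, u', v'} := by
  intro V 𝒞 V' 𝒞' κ _ _ _ _ _ N N' Φ 𝓗 h hne
  refine ⟨fun ν' => (N1c.types h.s ν').elim Or.inr fun t => Or.inl t.1, fun ν' L hL x x0 hx => ?_,
    fun L hL hΛ x x0 xz hx => ?_⟩
  · rcases N1c.types h.s ν' with ⟨a, ha⟩ | ⟨h0, ⟨a, b, hab⟩ | ⟨ν, h1, h2, h3⟩⟩
    · exact skc_few hL hx (a := a) (b := a) fun k hk _ => ha k hk
    · exact skc_few hL hx hab
    · obtain ⟨D, rfl⟩ := h.s.surj L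
      refine N1c.key h.s.toStDiv (Q := {L | 0 ≤ N.d ν L}) ⟨by simp, fun a ha b hb => ?_,
        fun c hc a ha => ?_⟩ (fun L hL => ?_) h2 h3 h0
        (h.l.gk.cur ν D ((hne D).1 hL) _ _ (N1c.adm h.s.toStDiv hne x0 hx))
      · change 0 ≤ N'.d ν' _
        rw [map_add]
        exact add_nonneg ha hb
      · change 0 ≤ N'.d ν' _
        rw [map_smul]
        exact mul_nonneg hc ha
      · change 0 ≤ N'.d ν' _
        rw [h1]
        exact hL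
  · obtain ⟨n, hn, D, hD, e⟩ := h.s.cls L hΛ
    have n0 : (0 : ℝ) < n := Nat.cast_pos.2 hn
    have hx' : ∀ k, Φ D - ((n : ℝ) * x k) • N'.c k ∈ N'.Nef := fun k => by
      rw [← e, mul_smul, ← smul_sub]
      exact N'.isCone_nef.smul _ n0.le _ (hx k)
    have hD' : Φ D ∈ N'.Nef := e ▸ N'.isCone_nef.smul _ n0.le _ hL
    obtain ⟨i₀, hi⟩ := N1c.key h.s.toStDiv (x := fun k => (n : ℝ) * x k) h.b'.cone h.s.eL h.s.eF
      h.s.eE h.s.eC (h.l.gk.eff D ((hne D).1 hD') hD _ _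
        (N1c.adm h.s.toStDiv hne (fun k => mul_nonneg n0.le (x0 k)) hx')
        (fun i => (IZ.nat n).mul (xz _)) fun j => (IZ.nat n).mul (xz _))
    refine ⟨i₀, ?_⟩
    have := h.b'.cone.smul _ (inv_nonneg.2 n0.le) _ hi
    simp only [← e, mul_smul, ← Finset.smul_sum, ← smul_sub] at this
    rwa [smul_smul, inv_mul_cancel₀ n0.ne', one_smul] at this

end Pool.Agent.MP_20d318_ag.CH

end PartN1c

section PartN1d

/-! Rows N1D and N3: finitely many curves, and the cover of the expected cone. -/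

set_option autoImplicit false
set_option linter.unusedSectionVars false

namespace Pool.Agent.MP_20d318_ag.CH

open Pool.Agent.MP_20d318_ag.Lat

universe u v u' v'

namespace N1d

variable {V : Type u} {𝒞 : Type v} {κ : Type} [AddCommGroup V] [Module ℝ V] [Fintype κ]

theorem ident (N : Nd V 𝒞 κ) (D : WW V κ) (x : κ → ℝ) (y : Fin 4 → ℝ) :
    D - (∑ i, x i • N.rowW i + ∑ j, y j • (colW j : WW V κ)) =
      (D.1 - ∑ i, x i • N.c i, D.2.1 - ∑ j, y j, fun i j => D.2.2 i j - x i - y j) := by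
  classical
  refine Prod.ext ?_ (Prod.ext ?_ ?_)
  · simp [Prod.fst_sum, Nd.rowW, colW]
  · simp [Prod.fst_sum, Prod.snd_sum, Nd.rowW, colW]
  · funext i j
    simp [Prod.snd_sum, Finset.sum_apply, Nd.rowW, colW, sub_sub]

theorem ident0 (D : WW V κ) : D = ((D.1, 0, 0) : WW V κ) + D.2.1 • ((0, 1, 0) : WW V κ) +
    ∑ i, ∑ j, D.2.2 i j • (-excW i j : WW V κ) := by
  classical
  refine Prod.ext ?_ (Prod.ext ?_ ?_)
  · simp [Prod.fst_sum, excW]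
  · simp [Prod.fst_sum, Prod.snd_sum, excW]
  · funext i j
    simp [Prod.snd_sum, Finset.sum_apply, excW, ite_and]

/-- The form of a row. -/
def rowF (i : κ) : WW V κ →ₗ[ℝ] ℝ where
  toFun D := D.2.1 - ∑ j, D.2.2 i j
  map_add' D D' := by
    simp only [Prod.snd_add, Prod.fst_add, Pi.add_apply, Finset.sum_add_distrib]
    ring
  map_smul' c D := by
    simp only [Prod.smul_snd, Prod.smul_fst, Pi.smul_apply, smul_eq_mul, RingHom.id_apply,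
      ← Finset.mul_sum]
    ring

/-- The form of a column. -/
def colF (N : Nd V 𝒞 κ) (ν : 𝒞) (j : Fin 4) : WW V κ →ₗ[ℝ] ℝ where
  toFun D := N.d ν (D.1 - ∑ i, D.2.2 i j • N.c i)
  map_add' D D' := by
    simp only [d_sub, Prod.snd_add, Prod.fst_add, Pi.add_apply, map_add, add_mul,
      Finset.sum_add_distrib]
    ring
  map_smul' c D := by
    simp only [d_sub, Prod.smul_snd, Prod.smul_fst, Pi.smul_apply, smul_eq_mul, RingHom.id_apply,
      map_smul, mul_assoc, ← Finset.mul_sum]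
    ring

theorem rp0 (N : Nd V 𝒞 κ) {R : Finset V} (hR : (R : Set V) ⊆ N.Λ) :
    RP N.LW {D : WW V κ | D.1 ∈ cone (R : Set V) ∧ ∀ i j, 0 ≤ D.2.2 i j} := by
  classical
  have hc := isCone_cone (R : Set V)
  let G : Finset (WW V κ) := R.image (fun r => (r, 0, 0)) ∪ {(0, 1, 0)} ∪ {-(0, 1, 0)} ∪
    Finset.univ.image fun p : κ × Fin 4 => -excW p.1 p.2
  have hG : ∀ D : WW V κ, D ∈ (G : Set (WW V κ)) ↔
      (((∃ r ∈ R, (r, 0, 0) = D) ∨ D = (0, 1, 0)) ∨ D = -(0, 1, 0)) ∨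
      ∃ p : κ × Fin 4, -excW p.1 p.2 = D := fun D => by
    simp only [G, Finset.mem_coe, Finset.mem_union, Finset.mem_image, Finset.mem_singleton,
      Finset.mem_univ, true_and]
  refine ⟨G, fun D hD => ?_, Set.Subset.antisymm (IsCone.cone_subset ⟨⟨hc.zero,
    fun _ _ => le_rfl⟩, fun x hx y hy => ⟨hc.add _ hx.1 _ hy.1,
      fun i j => add_nonneg (hx.2 i j) (hy.2 i j)⟩, fun c h0 x hx => ⟨hc.smul _ h0 _ hx.1,
        fun i j => mul_nonneg h0 (hx.2 i j)⟩⟩ fun D hD => ?_) fun D hD => ?_⟩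
  · rcases (hG D).1 hD with ((⟨r, hr, rfl⟩ | rfl) | rfl) | ⟨p, rfl⟩
    · exact ⟨hR hr, IZ.zero, fun _ _ => IZ.zero⟩
    · exact ⟨N.Λ.zero_mem, IZ.one, fun _ _ => IZ.zero⟩
    · exact N.LW.neg_mem ⟨N.Λ.zero_mem, IZ.one, fun _ _ => IZ.zero⟩
    · exact N.LW.neg_mem ⟨N.Λ.zero_mem, IZ.zero, fun _ _ => IZ.ite IZ.one.neg IZ.zero⟩
  · rcases (hG D).1 hD with ((⟨r, hr, rfl⟩ | rfl) | rfl) | ⟨p, rfl⟩
    · exact ⟨subset_cone _ hr, fun _ _ => le_rfl⟩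
    · exact ⟨hc.zero, fun _ _ => le_rfl⟩
    · exact ⟨by simp only [Prod.fst_neg, neg_zero]; exact hc.zero, fun _ _ => by simp⟩
    · refine ⟨by simp only [excW, Prod.fst_neg, neg_zero]; exact hc.zero, fun i j => ?_⟩
      simp only [excW, Prod.snd_neg, Pi.neg_apply]
      split_ifs <;> simp
  · have hcG := isCone_cone (G : Set (WW V κ))
    rw [ident0 D]
    refine hcG.add _ (hcG.add _ ?_ _ ?_) _ (hcG.sum_mem _ _ fun i _ => hcG.sum_mem _ _ fun j _ =>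
        hcG.smul _ (hD.2 i j) _ (subset_cone _ ((hG _).2 (Or.inr ⟨(i, j), rfl⟩))))
    · exact (hcG.preimage (LinearMap.inl ℝ V (ℝ × (κ → Fin 4 → ℝ)))).cone_subset
        (fun r hr => subset_cone _ ((hG _).2 (Or.inl (Or.inl (Or.inl ⟨r, hr, rfl⟩))))) hD.1
    · rcases le_total 0 D.2.1 with h | h
      · exact hcG.smul _ h _ (subset_cone _ ((hG _).2 (Or.inl (Or.inl (Or.inr rfl)))))
      · rw [← neg_smul_neg]
        exact hcG.smul _ (neg_nonneg.2 h) _ (subset_cone _ ((hG _).2 (Or.inl (Or.inr rfl))))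

end N1d

theorem n1d_stmt : N1DStmt.{u, v, u', v'} := by
  intro V 𝒞 V' 𝒞' κ _ _ _ _ _ N N' Φ 𝓗 h hne
  choose νE nE nE0 hE using h.s.tE
  choose νC nC nC0 hC using h.s.tC
  refine ⟨Set.range (fun p : κ × Fin 4 => νE p.1 p.2) ∪ Set.range νC,
    (Set.finite_range _).union (Set.finite_range _), fun L hL z z0 hz => ?_⟩
  obtain ⟨D, rfl⟩ := h.s.surj L
  have hD := (hne D).1 hL
  have e : Φ D - ∑ k, z k • N'.c k = Φ (D.1 - ∑ i, z (.inl i) • N.c i, D.2.1 - ∑ j, z (.inr j),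
      fun i j => D.2.2 i j - z (.inl i) - z (.inr j)) := by
    rw [← N1d.ident, Fintype.sum_sum_type]
    simp only [map_sub, map_add, map_sum, map_smul, h.s.cC, h.s.cT]
  rw [e] at hz ⊢
  have h1 : ∀ i j, 0 ≤ D.2.2 i j - z (.inl i) - z (.inr j) := fun i j => by
    have := hz _ (Or.inl ⟨(i, j), rfl⟩)
    rw [hE] at this
    exact nonneg_of_mul_nonneg_right this (nE0 i j)
  refine (hne _).2 ⟨⟨h1, fun i => ?_, ?_, fun j => ?_⟩, h.l.hh.sub D hD _ _ (fun i => z0 _)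
    (fun j => z0 _) fun i j => by linarith [h1 i j]⟩
  · have := hz _ (Or.inr ⟨i, rfl⟩)
    rw [hC] at this
    exact sub_nonneg.1 (nonneg_of_mul_nonneg_right this (nC0 i))
  · exact h.l.dich.mid hD.1.2.2.1 (hD.1.2.2.2 0) (fun i => z0 _)
      fun i => by linarith [h1 i 0, z0 (.inr 0)]
  · have := h.l.dich.mid hD.1.2.2.1 (hD.1.2.2.2 j) (b := fun i => D.2.2 i j - z (.inr j))
      (fun i => by linarith [h1 i j, z0 (.inl i)]) fun i => by linarith [z0 (.inr j)]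
    have e2 : D.1 - ∑ i, z (.inl i) • N.c i -
        ∑ i, (D.2.2 i j - z (.inl i) - z (.inr j)) • N.c i =
        D.1 - ∑ i, (D.2.2 i j - z (.inr j)) • N.c i := by
      simp only [sub_smul, Finset.sum_sub_distrib]
      abel
    exact e2 ▸ this

theorem n3_stmt : N3Stmt.{u, v} := by
  intro V 𝒞 κ _ _ _ N b hc ⟨R, hR, hRc, hcov⟩ ⟨F, hF, hDL⟩
  obtain ⟨R', h1, h2⟩ := (N1d.rp0 N hR).inter_fin (T := Set.range N1d.rowF ∪
      (fun p : 𝒞 × Fin 4 => N1d.colF N p.1 p.2) '' (F ×ˢ Set.univ))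
    ((Set.finite_range _).union ((hF.prod Set.finite_univ).image _)) (by
      rintro _ (⟨i, rfl⟩ | ⟨p, -, rfl⟩) D hD
      · exact hD.2.1.sub (IZ.sum _ fun j _ => hD.2.2 i j)
      · exact b.int _ _ (N.Λ.sub_mem hD.1 (N.Λ.sum_mem fun i _ => (hD.2.2 i _).smul_mem (hc i))))
  refine ⟨R', h1, fun D hD => ?_, fun D hD hE => ?_⟩
  · rw [h2] at hD
    obtain ⟨⟨d1, d3⟩, d4⟩ := hD
    exact ⟨⟨d3, fun i => sub_nonneg.1 (d4 _ (Or.inl ⟨i, rfl⟩)), (hRc d1).1, fun j =>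
      hDL _ (hRc d1).1 _ (fun i => d3 i j) fun ν hν =>
        d4 _ (Or.inr ⟨(ν, j), ⟨hν, trivial⟩, rfl⟩)⟩, trivial⟩
  · obtain ⟨g, hg, hgD⟩ := hcov _ ⟨hD.1.2.2.1, hE⟩
    refine ⟨g, hg, fun hD' => ?_⟩
    rw [h2]
    refine ⟨⟨hgD, hD.1.1⟩, ?_⟩
    rintro _ (⟨i, rfl⟩ | ⟨p, -, rfl⟩)
    · exact sub_nonneg.2 (hD.1.2.1 i)
    · exact hD'.1.2.2.2 p.2 p.1

end Pool.Agent.MP_20d318_ag.CH

end PartN1d

section PartTr

/-! Numerical classes on a tower of blow-ups: transport along an isomorphism. -/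

set_option autoImplicit false
set_option linter.unusedSectionVars false

namespace Pool.Agent.MP_20d318_ag.CH

open Pool.Agent.MP_20d318_ag.Lat

universe u v u' v'

namespace TrA

variable {V : Type u} {𝒞 : Type v} {V' : Type u'} {𝒞' : Type v'} {κ : Type} [AddCommGroup V]
  [Module ℝ V] [AddCommGroup V'] [Module ℝ V'] [Fintype κ] {N : Nd V 𝒞 κ} {N' : Nd V' 𝒞' κ}
  {ψ : V ≃ₗ[ℝ] V'} {𝓗 : Set (WW V κ)} {x : V} {w : ℝ × (κ → Fin 4 → ℝ)}

theorem nef (h : Iso N N' ψ) : ψ x ∈ N'.Nef ↔ x ∈ N.Nef := by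
  refine ⟨fun k ν => ?_, fun k ν' => ?_⟩
  · obtain ⟨ν', r, hr, e⟩ := h.up ν
    have := k ν'
    rw [e] at this
    exact (mul_nonneg_iff_of_pos_left hr).1 this
  · rcases h.dn ν' with e | ⟨ν, r, hr, e⟩
    · exact (e _).ge
    · rw [e]
      exact mul_nonneg hr.le (k ν)

theorem sub (h : Iso N N' ψ) (a : κ → ℝ) :
    ψ x - ∑ i, a i • N'.c i = ψ (x - ∑ i, a i • N.c i) := by
  simp only [map_sub, map_sum, map_smul, h.c]

theorem nl (h : Iso N N' ψ) : (ψ x, w) ∈ N'.NL ↔ (x, w) ∈ N.NL :=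
  and_congr_right' (and_congr_right' (and_congr (nef h) (forall_congr' fun j => by
    rw [← nef h, ← sub h])))

theorem lw (h : Iso N N' ψ) : (ψ x, w) ∈ N'.LW ↔ (x, w) ∈ N.LW :=
  and_congr_left' (h.Λ x)

theorem hm : ((ψ x, w) : WW V' κ) ∈ {D : WW V' κ | (ψ.symm D.1, D.2) ∈ 𝓗} ↔ (x, w) ∈ 𝓗 := by
  show (ψ.symm (ψ x), w) ∈ 𝓗 ↔ _
  rw [ψ.symm_apply_apply]

theorem both (h : Iso N N' ψ) :
    (ψ x, w) ∈ N'.NL ∩ {D : WW V' κ | (ψ.symm D.1, D.2) ∈ 𝓗} ↔ (x, w) ∈ N.NL ∩ 𝓗 :=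
  and_congr (nl h) hm

theorem gkc (h : Iso N N' ψ) {Q : Set V} {Q' : Set V'} (hQ : ∀ z ∈ Q, ψ z ∈ Q') {p : κ → ℝ}
    {q : Fin 4 → ℝ} (k : GKc N Q (x, w) p q) : GKc N' Q' (ψ x, w) p q := by
  obtain ⟨a, b, h1, h2, h3, h4, h5, h6⟩ := k
  exact ⟨a, b, h1, h2, h3, h4, (sub h a).symm ▸ hQ _ h5, h6⟩

theorem adm {p : κ → ℝ} {q : Fin 4 → ℝ} (k : Adm ((ψ x, w) : WW V' κ) p q) :
    Adm ((x, w) : WW V κ) p q := ⟨k.p0, k.q0, k.pa, k.qa⟩

theorem dich (h : Iso N N' ψ) (l : Dich N) : Dich N' := fun ν' => by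
  rcases h.dn ν' with e | ⟨ν, r, hr, e⟩
  · exact Or.inl fun i => (e _).ge
  · refine (l ν).imp (fun k i => ?_) fun ⟨i, k⟩ => ⟨i, fun i' hi => ?_⟩
    · rw [← h.c, e]
      exact mul_nonneg hr.le (k i)
    · rw [← h.c, e, k i' hi, mul_zero]

theorem gk (h : Iso N N' ψ) (l : Lev N 𝓗) : GK N' {D | (ψ.symm D.1, D.2) ∈ 𝓗} := by
  refine ⟨fun ν' ⟨y, w⟩ hD p q ha => ?_, fun ⟨y, w⟩ hD hL p q ha hp hq => ?_⟩ <;>
    obtain ⟨x, rfl⟩ := ψ.surjective y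
  · rcases h.dn ν' with e | ⟨ν, r, hr, e⟩
    · obtain ⟨j, hj⟩ := exists_max_row ((ψ x, w) : WW V' κ)
      obtain ⟨i₀⟩ := l.ne
      exact gkc_of hD.1 ha hj ⟨i₀, (e _).ge⟩
    · refine gkc h (fun z hz => ?_) (l.gk.cur ν _ ((both h).1 hD) p q (adm ha))
      show 0 ≤ N'.d ν' (ψ z)
      rw [e]
      exact mul_nonneg hr.le hz
  · exact gkc h (fun z hz => (h.Ef z).2 hz)
      (l.gk.eff _ ((both h).1 hD) ((lw h).1 hL) p q (adm ha) hp hq)

theorem hh (h : Iso N N' ψ) (l : Lev N 𝓗) : HH N' {D | (ψ.symm D.1, D.2) ∈ 𝓗} := by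
  refine ⟨fun ⟨y, w⟩ hD a b ha hb hab => ?_, fun ⟨y, w⟩ h1 h2 h3 => ?_⟩ <;>
    obtain ⟨x, rfl⟩ := ψ.surjective y
  · rw [sub h a]
    exact hm.2 (l.hh.sub _ ((both h).1 hD) a b ha hb hab)
  · exact hm.2 (l.hh.low (x, w) ((nef h).1 h1) h2 h3)

theorem cvw (h : Iso N N' ψ) (l : CVW N 𝓗) : CVW N' {D | (ψ.symm D.1, D.2) ∈ 𝓗} := by
  classical
  obtain ⟨R, h1, h2, h3⟩ := l
  let f : WW V κ →ₗ[ℝ] WW V' κ := ψ.toLinearMap.prodMap LinearMap.id
  have e : cone ((R.image f : Finset (WW V' κ)) : Set (WW V' κ)) = f '' cone (R : Set (WW V κ)) := by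
    rw [Finset.coe_image, cone_map]
  refine ⟨R.image f, ?_, ?_, fun ⟨y, w⟩ hD hE => ?_⟩
  · rw [Finset.coe_image]
    rintro _ ⟨⟨x, w⟩, hx, rfl⟩
    exact (lw h).2 (h1 hx)
  · rw [e]
    rintro _ ⟨⟨x, w⟩, hx, rfl⟩
    exact (both h).2 (h2 hx)
  · obtain ⟨x, rfl⟩ := ψ.surjective y
    obtain ⟨g, hg, k⟩ := h3 _ ((both h).1 hD) ((h.Ef x).1 hE)
    obtain ⟨g', hg', e'⟩ := h.G g hg
    refine ⟨g', hg', ?_⟩
    rw [e, e']
    exact fun m => ⟨_, k ((both h).1 m), rfl⟩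

theorem spn (h : Iso N N' ψ) (l : Spn N) : Spn N' := by
  refine eq_top_iff.2 fun y _ => ?_
  obtain ⟨x, rfl⟩ := ψ.surjective y
  have h1 : x ∈ Submodule.span ℝ (N.Nef ∩ N.Ef) := by rw [l]; trivial
  refine Submodule.span_mono ?_ (Submodule.apply_mem_span_image_of_mem_span ψ.toLinearMap h1)
  rintro _ ⟨z, hz, rfl⟩
  exact ⟨(nef h).2 hz.1, (h.Ef z).2 hz.2⟩

end TrA

theorem tr_stmt : TrStmt.{u, v, u', v'} := by
  intro V 𝒞 V' 𝒞' κ _ _ _ _ _ N N' ψ 𝓗 h l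
  have := l.fd
  exact ⟨ψ.finiteDimensional, l.ne, fun i => h.c i ▸ (h.Λ _).2 (l.cΛ i), TrA.dich h l.dich,
    TrA.gk h l, TrA.hh h l, TrA.cvw h l.cvw, TrA.spn h l.spn⟩

end Pool.Agent.MP_20d318_ag.CH

end PartTr
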