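import Pool.Agent.MP_20d318_ag.CH.Spec

section PartXloc

/-! XLOC: the charts of the blow-up and of its double cover. -/

set_option autoImplicit false
set_option linter.unusedSectionVars false

namespace Pool.Agent.MP_20d318_ag.CH

open Pool.Agent.MP_fd6584_ag.Fn Pool.Agent.CBk Polynomial
open Pool.Agent.MP_fd6584_ag.AG hiding deg_inv deg_congr deg_of_unit deg_mul deg_prod deg_zpow
  deg_eq_zero deg_nonneg deg_div deg_pow

namespace XlocR

open CB.P.XLocR (up_ne prod_eq eta_cases)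

variable {k M K Λ κ : Type} {n : ℕ} [Field k] [Field M] [Field K] [Algebra k M] [Algebra k K]
  [Finite Λ] [Fintype κ] {L : Lv k M Λ κ n} {ι : M →ₐ[k] K} {l : k} {ζ w : K} {e : ℕ} {φ : M}
  {O B : Subalgebra k K}

section ext

variable (he : Ext φ ι l ζ w e)

include he

theorem z_ne (c : k) : ζ - algebraMap k K c ≠ 0 := by
  have := he.tr.ne (algebraMap k M c)
  rw [AlgHom.commutes] at this
  exact sub_ne_zero.2 this

theorem z0 : ζ ≠ 0 := by simpa using z_ne he 0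

theorem z1 : ζ - 1 ≠ 0 := by simpa using z_ne he 1

theorem e0 : e ≠ 0 := by rcases he.he with h | h <;> omega

theorem w_ne : w ≠ 0 := fun h => by
  have h1 := he.eq
  rw [h, zero_pow (e0 he)] at h1
  exact mul_ne_zero (pow_ne_zero _ (up_ne he.φne))
    (mul_ne_zero (mul_ne_zero (z0 he) (z1 he)) (z_ne he l)) h1.symm

theorem eta_ne (O : Subalgebra k K) : eta ζ O ≠ 0 := by
  unfold CBk.eta
  split_ifs
  · exact one_ne_zero
  · exact z0 he

theorem tau_ne (O : Subalgebra k K) (j : Fin 4) : tau l ζ j O ≠ 0 := by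
  refine div_ne_zero ?_ (eta_ne he O)
  fin_cases j
  · exact z0 he
  · exact z1 he
  · exact z_ne he l
  · exact one_ne_zero

theorem tp (O : Subalgebra k K) : ∃ α β : Fin 4 → k,
    (∀ j, tau l ζ j O = algebraMap k K (α j) * zc ζ O + algebraMap k K (β j)) ∧
    ∀ j j', j ≠ j' → α j * β j' ≠ α j' * β j := by
  have h0 := he.l0
  have h1 := he.l1
  have h1' := h1.symm
  have hz := z0 he
  by_cases h : ζ ∈ O
  · refine ⟨![1, 1, 1, 0], ![0, -1, -l, 1], fun j => ?_, fun j j' hj => ?_⟩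
    · fin_cases j <;> simp [tau, CBk.eta, zc, h, sub_eq_add_neg]
    · fin_cases j <;> fin_cases j' <;> simp_all
  · refine ⟨![0, -1, -l, 1], ![1, 1, 1, 0], fun j => ?_, fun j j' hj => ?_⟩
    · fin_cases j <;> simp [tau, CBk.eta, zc, h, hz, div_eq_mul_inv, sub_mul] <;> ring
    · fin_cases j <;> fin_cases j' <;> simp_all

omit he in
theorem cub0 {c a : k} (hc : c ≠ 0) (h0 : a ≠ 0) (h1 : a ≠ 1) : ∃ g : k[X], g.natDegree = 3 ∧
    g.Separable ∧ ∀ z : K, aeval z g = algebraMap k K c * cb a z := by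
  refine ⟨C c * ∏ i, (X - C (![0, 1, a] i)), ?_, ?_, fun z => ?_⟩
  · rw [natDegree_C_mul hc, natDegree_finsetProd_X_sub_C_eq_card]
    rfl
  · refine Separable.unit_mul (isUnit_C.2 hc.isUnit) (separable_prod_X_sub_C_iff.2 ?_)
    have h0' := h0.symm
    have h1' := h1.symm
    intro i j
    fin_cases i <;> fin_cases j <;> simp_all
  · simp [Fin.prod_univ_three, cb]

/-- The product of the four equations is a separable cubic in the coordinate. -/
theorem cub (O : Subalgebra k K) : ∃ g : k[X], g.natDegree = 3 ∧ g.Separable ∧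
    ∏ j, tau l ζ j O = aeval (zc ζ O) g := by
  have hz := z0 he
  rw [prod_eq]
  rcases eta_cases ζ O with ⟨h1, h2⟩ | ⟨h1, h2⟩ <;> rw [h1, h2]
  · obtain ⟨g, a, b, c⟩ := cub0 (K := K) one_ne_zero he.l0 he.l1
    exact ⟨g, a, b, by simp [c, cb]⟩
  · obtain ⟨g, a, b, c⟩ := cub0 (K := K) he.l0 (inv_ne_zero he.l0) (inv_ne_one.2 he.l1)
    have hl : algebraMap k K l ≠ 0 := by simpa using he.l0
    refine ⟨g, a, b, ?_⟩
    rw [c, cb, map_inv₀]
    field_simp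
    ring

theorem t1 (hO : IsLocalRing O) (j j' : Fin 4) (h : tau l ζ j O ∈ mx O)
    (h' : tau l ζ j' O ∈ mx O) : j = j' := by
  by_contra hn
  obtain ⟨α, β, h1, h2⟩ := tp he O
  have h3 := mx_sub' hO (mx_mul_left (O.algebraMap_mem (α j)) h')
    (mx_mul_left (O.algebraMap_mem (α j')) h)
  have h4 : algebraMap k K (α j) * tau l ζ j' O - algebraMap k K (α j') * tau l ζ j O =
      algebraMap k K (α j * β j' - α j' * β j) := by
    rw [h1, h1, map_sub, map_mul, map_mul]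
    ring
  rw [h4, const_mem_mx, sub_eq_zero] at h3
  exact h2 j j' hn h3

end ext

section loc

variable (ht : OkA L) (he : Ext L.φ ι l ζ w e) (hR : pr ι L.Y O ∈ L.Y)

include ht he hR

theorem N_ne : NN L ι ζ e O ≠ 0 :=
  mul_ne_zero (up_ne (pow_ne_zero _ (ht.gU _ hR).ne)) (pow_ne_zero _ (eta_ne he O))

theorem A_ne : AA L ι ζ w e O ≠ 0 :=
  div_ne_zero (w_ne he) (mul_ne_zero (up_ne (mul_ne_zero ht.φne (pow_ne_zero _ (ht.cj.ne hR))))
    (pow_ne_zero _ (eta_ne he O)))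

theorem eqn : AA L ι ζ w e O ^ e * ∏ i, sX L ι i O = ∏ j, tau l ζ j O := by
  have h1 : ∏ i, sX L ι i O = ι L.φ * ι (L.jj (pr ι L.Y O)) ^ 2 := by
    rw [← map_pow, ← map_mul, ht.eqn _ hR, map_prod]
    rfl
  have h3 := eta_ne he O
  have h4 : ι (L.jj (pr ι L.Y O)) ≠ 0 := up_ne (ht.cj.ne hR)
  have h5 : ι L.φ ≠ 0 := up_ne ht.φne
  rw [prod_eq, h1]
  simp only [AA, up, map_mul, map_pow, div_pow]
  rw [he.eq, cb]
  rcases he.he with rfl | rfl <;> norm_num <;> field_simp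

theorem w_eq (m : M) : w * ι (m ^ (3 - e) / L.φ) = NN L ι ζ e O * AA L ι ζ w e O *
    ι ((m / (gn L.U (pr ι L.Y O) / L.jj (pr ι L.Y O))) ^ (3 - e)) := by
  have h3 := eta_ne he O
  have h4 : ι (L.jj (pr ι L.Y O)) ≠ 0 := up_ne (ht.cj.ne hR)
  have h5 : ι L.φ ≠ 0 := up_ne ht.φne
  have h6 : ι (gn L.U (pr ι L.Y O)) ≠ 0 := up_ne (ht.gU _ hR).ne
  simp only [NN, AA, up, map_mul, map_div₀, map_pow, div_pow]
  field_simp

theorem v_eq (m : M) (c : K) : ι (m ^ (3 - e)) * c = NN L ι ζ e O *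
    (ι ((m / gn L.U (pr ι L.Y O)) ^ (3 - e)) * (c / eta ζ O ^ (2 * (3 - e)))) := by
  have h3 := eta_ne he O
  have h6 : ι (gn L.U (pr ι L.Y O)) ≠ 0 := up_ne (ht.gU _ hR).ne
  simp only [NN, map_div₀, map_pow, div_pow]
  field_simp

theorem SI_mem (hB : ∀ a ∈ pr ι L.Y O, ι a ∈ B) (hz : zc ζ O ∈ B) :
    ∀ c ∈ SI L ι ζ w e, ∃ b ∈ B, c = NN L ι ζ e O * AA L ι ζ w e O * b ∨ c = NN L ι ζ e O * b := by
  have g := (ht.gU' _ hR).1
  have g' := (ht.gU _ hR).1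
  have hz0 := z0 he
  have p1 : 1 / eta ζ O ^ (2 * (3 - e)) ∈ B := by
    rcases eta_cases ζ O with ⟨h1, h2⟩ | ⟨h1, h2⟩
    · rw [h1]; simp
    · rw [h1, one_div, ← inv_pow, ← h2]; exact pow_mem hz _
  have p2 : ζ ^ (2 * (3 - e)) / eta ζ O ^ (2 * (3 - e)) ∈ B := by
    rcases eta_cases ζ O with ⟨h1, h2⟩ | ⟨h1, h2⟩
    · rw [h1, one_pow, div_one, ← h2]; exact pow_mem hz _
    · rw [h1, div_self (pow_ne_zero _ hz0)]; exact B.one_mem
  have key : ∀ m ∈ L.U, ∀ c : K, c / eta ζ O ^ (2 * (3 - e)) ∈ B → ∃ b ∈ B,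
      ι (m ^ (3 - e)) * c = NN L ι ζ e O * AA L ι ζ w e O * b ∨
        ι (m ^ (3 - e)) * c = NN L ι ζ e O * b :=
    fun m hm c hc => ⟨_, mul_mem (hB _ (pow_mem (g' m hm) _)) hc, Or.inr (v_eq ht he hR m c)⟩
  rintro c (⟨m, hm, rfl⟩ | ⟨m, hm, rfl⟩ | ⟨m, hm, rfl⟩)
  · exact ⟨_, hB _ (pow_mem (g m hm) _), Or.inl (w_eq ht he hR m)⟩
  · simpa only [mul_one] using key m hm 1 p1
  · exact key m hm _ p2

theorem SI_one :
    ∃ u, IsU (pr ι L.Y O) u ∧ NN L ι ζ e O * AA L ι ζ w e O * ι u ∈ SI L ι ζ w e := by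
  obtain ⟨m, hm, hu⟩ := (ht.gU' _ hR).2
  refine ⟨_, hu.pow (3 - e), ?_⟩
  rw [← w_eq ht he hR]
  exact Or.inl ⟨m, hm, rfl⟩

theorem SI_two : ∃ u, IsU (pr ι L.Y O) u ∧ NN L ι ζ e O * ι u ∈ SI L ι ζ w e := by
  obtain ⟨m, hm, hu⟩ := (ht.gU _ hR).2
  refine ⟨_, hu.pow (3 - e), ?_⟩
  have h1 := v_eq ht he hR m (eta ζ O ^ (2 * (3 - e)))
  rw [div_self (pow_ne_zero _ (eta_ne he O)), mul_one] at h1
  rw [← h1]
  rcases eta_cases ζ O with ⟨h2, -⟩ | ⟨h2, -⟩ <;> rw [h2]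
  · exact Or.inr (Or.inl ⟨m, hm, by simp⟩)
  · exact Or.inr (Or.inr ⟨m, hm, rfl⟩)

variable (hB : ∀ a ∈ pr ι L.Y O, ι a ∈ B) (hz : zc ζ O ∈ B)

include hB hz

omit ht he hR hz in
theorem isU_B {u : M} (hu : IsU (pr ι L.Y O) u) : IsU B (ι u) :=
  ⟨up_ne hu.ne, hB _ hu.mem, by simpa using hB _ hu.inv_mem⟩

theorem gS1 (ha : AA L ι ζ w e O ∈ B) : Gn (SI L ι ζ w e) B (NN L ι ζ e O) := by
  have hN := N_ne ht he hR
  obtain ⟨u, hu, h⟩ := SI_two ht he hR
  refine ⟨fun c hc => ?_, _, h, ?_⟩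
  · obtain ⟨b, hb, rfl | rfl⟩ := SI_mem ht he hR hB hz c hc
    · exact Set.mem_of_eq_of_mem (by field_simp) (mul_mem ha hb)
    · exact Set.mem_of_eq_of_mem (by field_simp) hb
  · rw [mul_div_cancel_left₀ _ hN]
    exact isU_B hB hu

theorem gS2 (ha : (AA L ι ζ w e O)⁻¹ ∈ B) :
    Gn (SI L ι ζ w e) B (NN L ι ζ e O * AA L ι ζ w e O) := by
  have hN := N_ne ht he hR
  have hA := A_ne ht he hR
  obtain ⟨u, hu, h⟩ := SI_one ht he hR
  refine ⟨fun c hc => ?_, _, h, ?_⟩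
  · obtain ⟨b, hb, rfl | rfl⟩ := SI_mem ht he hR hB hz c hc
    · exact Set.mem_of_eq_of_mem (by field_simp) hb
    · exact Set.mem_of_eq_of_mem (by field_simp) (mul_mem ha hb)
  · rw [mul_div_cancel_left₀ _ (mul_ne_zero hN hA)]
    exact isU_B hB hu

theorem prinS (ha : AA L ι ζ w e O ∈ B ∨ (AA L ι ζ w e O)⁻¹ ∈ B) : Prin (SI L ι ζ w e) B :=
  ha.elim (fun h => (gS1 ht he hR hB hz h).prin) fun h => (gS2 ht he hR hB hz h).prin

theorem aa_of (hp : Prin (SI L ι ζ w e) B) : AA L ι ζ w e O ∈ B ∨ (AA L ι ζ w e O)⁻¹ ∈ B := by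
  have hN := N_ne ht he hR
  have hA := A_ne ht he hR
  obtain ⟨c, hc, hg⟩ := hp.exists_mem
  have hc0 := hg.ne
  obtain ⟨b, hb, rfl | rfl⟩ := SI_mem ht he hR hB hz c hc
  · obtain ⟨u, hu, h⟩ := SI_two ht he hR
    have h0 : ι u ≠ 0 := up_ne hu.ne
    have h1 : (ι u)⁻¹ ∈ B := (isU_B hB hu).inv_mem
    have hb0 := right_ne_zero_of_mul hc0
    right
    exact Set.mem_of_eq_of_mem (by field_simp) (mul_mem (mul_mem (hg.1 _ h) hb) h1)
  · obtain ⟨u, hu, h⟩ := SI_one ht he hR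
    have h0 : ι u ≠ 0 := up_ne hu.ne
    have h1 : (ι u)⁻¹ ∈ B := (isU_B hB hu).inv_mem
    have hb0 := right_ne_zero_of_mul hc0
    left
    exact Set.mem_of_eq_of_mem (by field_simp) (mul_mem (mul_mem (hg.1 _ h) hb) h1)

end loc

section glob

variable (ht : OkA L) (he : Ext L.φ ι l ζ w e)

include ht he

theorem fam : Fam k (famX L ι ζ w e) where
  fin := by
    rintro (a | b)
    · exact (ht.fam.fin a).image ι
    · cases b
      · exact Set.toFinite ({ζ, 1} : Set K)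
      · exact (ht.fU'.image _).union ((ht.fU.image _).union (ht.fU.image _))
  ne := by
    rintro (a | b)
    · exact (ht.fam.ne a).image ι
    · cases b
      · exact ⟨ζ, Or.inl rfl⟩
      · obtain ⟨m, hm, -⟩ := (ht.gU _ (fine_mp ht.fam).top).2
        exact ⟨_, Or.inr (Or.inl ⟨m, hm, rfl⟩)⟩
  nz := by
    rintro (o | b) a ha
    · obtain ⟨m, hm, rfl⟩ := ha
      exact up_ne (ht.fam.nz o m hm)
    · cases b
      · rcases ha with rfl | rfl
        · exact z0 he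
        · exact one_ne_zero
      · rcases ha with ⟨m, hm, rfl⟩ | ⟨m, hm, rfl⟩ | ⟨m, hm, rfl⟩
        · exact mul_ne_zero (w_ne he) (up_ne (div_ne_zero (pow_ne_zero _ (ht.nU' m hm)) ht.φne))
        · exact up_ne (pow_ne_zero _ (ht.nU m hm))
        · exact mul_ne_zero (up_ne (pow_ne_zero _ (ht.nU m hm))) (pow_ne_zero _ (z0 he))
  top := by
    have h1 : (⊤ : IntermediateField k M) ≤ (IntermediateField.adjoin k
        {f | ∃ l, ∃ a ∈ famX L ι ζ w e l, ∃ b ∈ famX L ι ζ w e l, f = a / b}).comap ι := by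
      rw [← ht.fam.top, IntermediateField.adjoin_le_iff]
      rintro _ ⟨o, a, ha, b, hb, rfl⟩
      exact IntermediateField.subset_adjoin _ _
        ⟨Sum.inl o, ι a, ⟨a, ha, rfl⟩, ι b, ⟨b, hb, rfl⟩, map_div₀ ι a b⟩
    rw [eq_top_iff, ← he.top, IntermediateField.adjoin_le_iff]
    rintro f (⟨m, h⟩ | h | h)
    · exact h ▸ h1 (IntermediateField.mem_top (x := m))
    · exact IntermediateField.subset_adjoin _ _
        ⟨Sum.inr false, ζ, Or.inl rfl, 1, Or.inr rfl, by simpa using h⟩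
    · obtain ⟨m, hm, -⟩ := (ht.gU _ (fine_mp ht.fam).top).2
      obtain ⟨m', hm', -⟩ := (ht.gU' _ (fine_mp ht.fam).top).2
      have h2 : ι (m ^ (3 - e)) ≠ 0 := up_ne (pow_ne_zero _ (ht.nU m hm))
      have h3 : ι (m' ^ (3 - e) / L.φ) ≠ 0 :=
        up_ne (div_ne_zero (pow_ne_zero _ (ht.nU' m' hm')) ht.φne)
      have e1 : f = w * ι (m' ^ (3 - e) / L.φ) / ι (m ^ (3 - e)) *
          ι (m ^ (3 - e) / (m' ^ (3 - e) / L.φ)) := by
        rw [map_div₀ ι (m ^ (3 - e)), show f = w from h, div_mul_div_cancel₀ h2,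
          mul_div_cancel_right₀ _ h3]
      rw [e1]
      exact mul_mem (IntermediateField.subset_adjoin _ _ ⟨Sum.inr true, _, Or.inl ⟨m', hm', rfl⟩,
        _, Or.inr (Or.inl ⟨m, hm, rfl⟩), rfl⟩) (h1 IntermediateField.mem_top)

theorem maps : Maps ι (XX L ι ζ w e) L.Y := fun O hO => by
  refine exists_mp_dom (S := L.S) (isLocalRing_comap ι (mp_loc hO)) fun a => ?_
  obtain ⟨_, ⟨b, -, rfl⟩, hg⟩ := (mp_prin (fam ht he) hO (Sum.inl a)).exists_mem
  exact ((gn_map ι).1 hg).prin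

variable (hO : O ∈ XX L ι ζ w e)

include hO

theorem zm : zc ζ O ∈ O := by
  unfold zc
  split_ifs with h
  · exact h
  · rcases Prin.pair (mp_prin (fam ht he) hO (Sum.inr false)) with h1 | h1
    · exact absurd (by simpa using h1) h
    · simpa using h1

theorem gZ : Gn {ζ, 1} O (eta ζ O) := by
  have hz := zm ht he hO
  rcases eta_cases ζ O with ⟨h1, h2⟩ | ⟨h1, h2⟩
  · rw [h1]
    exact gn_right one_ne_zero (by rw [div_one, ← h2]; exact hz)
  · rw [h1]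
    exact gn_left (z0 he) (by rw [one_div, ← h2]; exact hz)

theorem aa : AA L ι ζ w e O ∈ O ∨ (AA L ι ζ w e O)⁻¹ ∈ O :=
  aa_of ht he ((maps ht he).mem hO) (fun _ => (maps ht he).mem_up hO) (zm ht he hO)
    (mp_prin (fam ht he) hO (Sum.inr true))

theorem pts (a : K) (ha : a ∈ O) (h : a = AA L ι ζ w e O ∨ a = (AA L ι ζ w e O)⁻¹) :
    O ∈ Pts (Algebra.adjoin k (ι '' pr ι L.Y O ∪ {zc ζ O, a})) := by
  have hm := maps ht he
  have hB : ∀ b ∈ pr ι L.Y O,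
      ι b ∈ Algebra.adjoin k (ι '' pr ι L.Y O ∪ {zc ζ O, a}) := fun b hb =>
    Algebra.subset_adjoin (Or.inl ⟨b, hb, rfl⟩)
  have hz : zc ζ O ∈ Algebra.adjoin k (ι '' pr ι L.Y O ∪ {zc ζ O, a}) :=
    Algebra.subset_adjoin (Or.inr (Or.inl rfl))
  have ha' : a ∈ Algebra.adjoin k (ι '' pr ι L.Y O ∪ {zc ζ O, a}) :=
    Algebra.subset_adjoin (Or.inr (Or.inr rfl))
  refine mp_chart (fam ht he) hO ?_ ?_
  · rw [Algebra.adjoin_le_iff]
    rintro _ (⟨b, hb, rfl⟩ | rfl | rfl)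
    · exact hm.mem_up hO hb
    · exact zm ht he hO
    · exact ha
  · rintro (o | b)
    · obtain ⟨b, hb, hg⟩ := (mp_prin ht.fam (hm.mem hO) o).exists_mem
      refine ⟨ι b, ⟨b, hb, rfl⟩, ?_⟩
      rintro _ ⟨c, hc, rfl⟩
      rw [← map_div₀]
      exact le_fr (hB _ (hg.1 c hc))
    · cases b
      · have hz0 := z0 he
        rcases eta_cases ζ O with ⟨-, h2⟩ | ⟨-, h2⟩
        · refine ⟨1, Or.inr rfl, fun c hc => le_fr ?_⟩
          rcases hc with hc | hc <;> rw [hc, div_one]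
          · exact Set.mem_of_eq_of_mem h2.symm hz
          · exact one_mem _
        · refine ⟨ζ, Or.inl rfl, fun c hc => le_fr ?_⟩
          rcases hc with hc | hc <;> rw [hc]
          · rw [div_self hz0]
            exact one_mem _
          · rw [one_div]
            exact Set.mem_of_eq_of_mem h2.symm hz
      · obtain ⟨b, hb, h1⟩ := (prinS ht he (hm.mem hO) hB hz
          (h.imp (fun h => Set.mem_of_eq_of_mem h.symm ha')
            fun h => Set.mem_of_eq_of_mem h.symm ha')).exists_mem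
        exact ⟨b, hb, fun c hc => le_fr (h1.1 c hc)⟩

theorem tm (j : Fin 4) : tau l ζ j O ∈ O := by
  obtain ⟨α, β, h, -⟩ := tp he O
  rw [h]
  exact add_mem (mul_mem (O.algebraMap_mem _) (zm ht he hO)) (O.algebraMap_mem _)

theorem sm (i : κ) : sX L ι i O ∈ O :=
  (maps ht he).mem_up hO (ht.sm _ ((maps ht he).mem hO) i)

theorem s1 (i i' : κ) (h : sX L ι i O ∈ mx O) (h' : sX L ι i' O ∈ mx O) : i = i' := by
  have hm := maps ht he
  have hR := hm.mem hO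
  exact ht.one _ hR i i' ((hm.mx_up hO (ht.sm _ hR i)).1 h) ((hm.mx_up hO (ht.sm _ hR i')).1 h')

theorem ss_mem (u : K) : ∏ i, sX L ι i O ∈ Algebra.adjoin k (ι '' pr ι L.Y O ∪ {u}) :=
  prod_mem fun i _ => Algebra.subset_adjoin (Or.inl ⟨_, ht.sm _ ((maps ht he).mem hO) i, rfl⟩)

/-- The coordinate on the line is algebraic over the rest. -/
theorem algZ : AlgM O (Algebra.adjoin k (ι '' pr ι L.Y O ∪ {AA L ι ζ w e O})) (zc ζ O) := by
  obtain ⟨g, h0, -, h2⟩ := cub he O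
  have h1 : g.coeff 3 ≠ 0 := by
    rw [← h0]
    exact leadingCoeff_ne_zero.2 fun h => by simp [h] at h0
  have hA : AA L ι ζ w e O ∈ Algebra.adjoin k (ι '' pr ι L.Y O ∪ {AA L ι ζ w e O}) :=
    Algebra.subset_adjoin (Or.inr rfl)
  refine ⟨g.map (algebraMap k K) - C (AA L ι ζ w e O ^ e * (∏ i, sX L ι i O)), fun i => ?_,
    ⟨3, ?_⟩, ?_⟩
  · rw [coeff_sub, coeff_map, coeff_C]
    refine sub_mem (Subalgebra.algebraMap_mem _ _) ?_
    split_ifs
    · exact mul_mem (pow_mem hA e) (ss_mem ht he hO _)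
    · exact zero_mem _
  · rw [coeff_sub, coeff_map, coeff_C, if_neg three_ne_zero, sub_zero]
    exact isU_const h1
  · rw [eval_sub, eval_C, eqn ht he ((maps ht he).mem hO), h2, eval_map_algebraMap, sub_self]
    exact zero_mem_mx

/-- Away from the components the fibre coordinate is algebraic over the rest. -/
theorem algA (hs : ∀ i, IsU O (sX L ι i O)) :
    AlgM O (Algebra.adjoin k (ι '' pr ι L.Y O ∪ {zc ζ O})) (AA L ι ζ w e O) := by
  obtain ⟨g, -, -, h2⟩ := cub he O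
  have hz : zc ζ O ∈ Algebra.adjoin k (ι '' pr ι L.Y O ∪ {zc ζ O}) :=
    Algebra.subset_adjoin (Or.inr rfl)
  refine ⟨monomial e (∏ i, sX L ι i O) - C (∏ j, tau l ζ j O), fun i => ?_, ⟨e, ?_⟩, ?_⟩
  · rw [coeff_sub, coeff_monomial, coeff_C]
    refine sub_mem ?_ ?_ <;> split_ifs
    · exact ss_mem ht he hO _
    · exact zero_mem _
    · rw [h2]
      exact aeval_mem_adjoin_singleton k _ |> (Algebra.adjoin_le (by simpa using hz))
    · exact zero_mem _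
  · rw [coeff_sub, coeff_monomial, coeff_C, if_pos rfl, if_neg (e0 he), sub_zero]
    exact isU_prod fun i _ => hs i
  · rw [eval_sub, eval_C, eval_monomial, ← eqn ht he ((maps ht he).mem hO), mul_comm, sub_self]
    exact zero_mem_mx

theorem inv_mx (h : AA L ι ζ w e O ∉ O) : (AA L ι ζ w e O)⁻¹ ∈ mx O :=
  ⟨(aa ht he hO).resolve_left h, fun h1 => h (by simpa using h1.inv_mem)⟩

variable {m : ℕ} (hn : Dim (pr ι L.Y O) m)

include hn

theorem upA (ha : AA L ι ζ w e O ∈ O) : Dim O (m + 1) ∧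
    (AlgM O ((pr ι L.Y O).map ι) (AA L ι ζ w e O) → Dim O m) :=
  dimUp_stmt k M K ι _ O _ (zc ζ O) m ((maps ht he).dom hO)
    (by rw [Set.pair_comm]; exact pts ht he hO _ ha (Or.inl rfl)) hn (algZ ht he hO)

theorem upZ (a : K) (ha : a ∈ mx O) (h : a = AA L ι ζ w e O ∨ a = (AA L ι ζ w e O)⁻¹) :
    Dim O (m + 1) ∧ (AlgM O ((pr ι L.Y O).map ι) (zc ζ O) → Dim O m) :=
  dimUp_stmt k M K ι _ O _ a m ((maps ht he).dom hO) (pts ht he hO a ha.1 h) hn
    (algM_of_mx (c := 0) (by simpa using ha))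

theorem dim : Dim O (m + 1) := by
  by_cases h : AA L ι ζ w e O ∈ O
  · exact (upA ht he hO hn h).1
  · exact (upZ ht he hO hn _ (inv_mx ht he hO h) (Or.inr rfl)).1

theorem dimZ (h1 : AlgM O ((pr ι L.Y O).map ι) (zc ζ O))
    (h2 : ¬ (IsU O (AA L ι ζ w e O) ∧ ∃ i, sX L ι i O ∈ mx O)) : Dim O m := by
  by_cases h : AA L ι ζ w e O ∈ O
  · rcases isU_or_mx h with h3 | h3
    · exact (dimUp_stmt k M K ι _ O _ _ m ((maps ht he).dom hO) (pts ht he hO _ h (Or.inl rfl)) hn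
        (algA ht he hO fun i => isU_of_not_mx (sm ht he hO i) fun h4 => h2 ⟨h3, i, h4⟩)).2 h1
    · exact (upZ ht he hO hn _ h3 (Or.inl rfl)).2 h1
  · exact (upZ ht he hO hn _ (inv_mx ht he hO h) (Or.inr rfl)).2 h1

end glob

end XlocR

open XlocR in
theorem xloc_stmt : XlocStmt := fun _ _ _ _ _ _ _ _ _ _ _ _ _ _ _ _ _ _ _ _ ht he =>
  { fam := fam ht he
    fine := fine_mp (fam ht he)
    maps := maps ht he
    wne := w_ne he
    tne := tau_ne he
    zm := fun _ => zm ht he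
    gZ := fun _ => gZ ht he
    tp := tp he
    cub := cub he
    sne := fun _ hO i => CB.P.XLocR.up_ne ((ht.cs i).ne ((maps ht he).mem hO))
    ane := fun _ hO => A_ne ht he ((maps ht he).mem hO)
    aa := fun _ => aa ht he
    eqn := fun _ hO => eqn ht he ((maps ht he).mem hO)
    pts := fun _ => pts ht he
    prin := fun _ _ h ha hz => prinS ht he (pr_spec h).1 (fun _ hc => (pr_spec h).2.1 hc) hz ha
    gS := fun _ hO =>
      ⟨gS1 ht he ((maps ht he).mem hO) (fun _ => (maps ht he).mem_up hO) (zm ht he hO),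
        gS2 ht he ((maps ht he).mem hO) (fun _ => (maps ht he).mem_up hO) (zm ht he hO)⟩
    tm := fun _ => tm ht he
    sm := fun _ => sm ht he
    t1 := fun _ hO => t1 he (mp_loc hO)
    s1 := fun _ => s1 ht he
    dim := fun _ hO _ hn => dim ht he hO hn
    dimZ := fun _ hO _ hn => dimZ ht he hO hn
    dimA := fun _ hO _ hn hu => (upA ht he hO hn hu.mem).2 }

end Pool.Agent.MP_20d318_ag.CH

end PartXloc

section PartXdiv

/-! The divisors on one step of the tower. -/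

set_option autoImplicit false
set_option linter.unusedSectionVars false

namespace Pool.Agent.MP_20d318_ag.CH

open Pool.Agent.MP_fd6584_ag.Fn Pool.Agent.CBk
open Pool.Agent.MP_fd6584_ag.AG hiding deg_inv deg_congr deg_of_unit deg_mul deg_prod deg_zpow
  deg_eq_zero deg_nonneg deg_div deg_pow
open Pool.Agent.CBk.XDivL (prod_div gn_swap)

namespace Xdv

section loc

variable {k K I J : Type} [Field k] [Field K] [Algebra k K] [Fintype I] [Fintype J]

/-- The local equation `A ^ e ∏ s = ∏ t` with at most one vanishing factor on each side. -/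
structure Loc (e : ℕ) (O : Subalgebra k K) (s : I → K) (t : J → K) (A : K) : Prop where
  sne : ∀ i, s i ≠ 0
  tne : ∀ j, t j ≠ 0
  ane : A ≠ 0
  aa : A ∈ O ∨ A⁻¹ ∈ O
  eqn : A ^ e * ∏ i, s i = ∏ j, t j
  sm : ∀ i, s i ∈ O
  tm : ∀ j, t j ∈ O
  s1 : ∀ i i', s i ∈ mx O → s i' ∈ mx O → i = i'
  t1 : ∀ j j', t j ∈ mx O → t j' ∈ mx O → j = j'

variable {e : ℕ} {O : Subalgebra k K} {s : I → K} {t : J → K} {A : K}

theorem Loc.symm (h : Loc e O s t A) : Loc e O t s A⁻¹ where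
  sne := h.tne
  tne := h.sne
  ane := inv_ne_zero h.ane
  aa := by rw [inv_inv]; exact h.aa.symm
  eqn := by rw [← h.eqn, inv_pow, inv_mul_cancel_left₀ (pow_ne_zero e h.ane)]
  sm := h.tm
  tm := h.sm
  s1 := h.t1
  t1 := h.s1

theorem Loc.su (h : Loc e O s t A) {i : I} (hi : s i ∈ mx O) (i' : I) (hne : i' ≠ i) :
    IsU O (s i') :=
  isU_of_not_mx (h.sm i') fun h' => hne (h.s1 i' i h' hi)

theorem Loc.key (h : Loc e O s t A) {i : I} {j : J} (hi : s i ∈ mx O) (hj : t j ∈ mx O) :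
    IsU O (t j / s i / A ^ e) := by
  have h1 := prod_div i (h.sne i) (h.su hi)
  have h2 := prod_div j (h.tne j) (h.symm.su hj)
  have h3 := h1.div h2
  have h4 : (∏ i', s i') ≠ 0 := Finset.prod_ne_zero_iff.2 fun i _ => h.sne i
  have := h.sne i
  have := h.tne j
  have := h.ane
  have h5 : (∏ i', s i') / s i / ((∏ j', t j') / t j) = t j / s i / A ^ e := by
    rw [← h.eqn]
    field_simp
  rwa [h5] at h3

theorem Loc.div_mem (h : Loc e O s t A) (hA : A ∈ O) (i : I) {j : J} (hj : t j ∈ mx O) :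
    t j / s i ∈ O := by
  rcases isU_or_mx (h.sm i) with hi | hi
  · exact hi.div_mem (h.tm j)
  · have := O.mul_mem (h.key hi hj).mem (O.pow_mem hA e)
    rwa [div_mul_cancel₀ _ (pow_ne_zero e h.ane)] at this

theorem Loc.prin (h : Loc e O s t A) (i : I) (j : J) : Prin {s i, t j} O := by
  rcases isU_or_mx (h.sm i) with hi | hi
  · exact (gn_left (h.sne i) (hi.div_mem (h.tm j))).prin
  rcases isU_or_mx (h.tm j) with hj | hj
  · exact (gn_right (h.tne j) (hj.div_mem (h.sm i))).prin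
  rcases h.aa with hA | hA
  · exact (gn_left (h.sne i) (h.div_mem hA i hj)).prin
  · exact (gn_right (h.tne j) (h.symm.div_mem hA j hi)).prin

theorem Loc.pm (h : Loc e O s t A) (i : I) (j : J) : ∀ a ∈ ({s i, t j} : Set K), a ∈ O := by
  rintro a (rfl | rfl)
  exacts [h.sm i, h.tm j]

variable {E : I → J → K}

theorem Loc.eu (h : Loc e O s t A) (hE : ∀ i j, Gn {s i, t j} O (E i j)) (i : I) (j : J)
    (hu : IsU O (s i) ∨ IsU O (t j)) : IsU O (E i j) :=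
  (hE i j).isU (h.pm i j) (hu.elim (fun h' => ⟨_, Or.inl rfl, h'⟩) fun h' => ⟨_, Or.inr rfl, h'⟩)

theorem Loc.eT (h : Loc e O s t A) (hE : ∀ i j, Gn {s i, t j} O (E i j)) (i : I) (j : J)
    (hA : A ∈ O) (hj : t j ∈ mx O) : IsU O (E i j / s i) :=
  (hE i j).unit (gn_left (h.sne i) (h.div_mem hA i hj))

theorem Loc.rC (h : Loc e O s t A) (hE : ∀ i j, Gn {s i, t j} O (E i j)) (i : I) :
    s i / ∏ j, E i j ∈ O ∧ (A⁻¹ ∉ mx O → IsU O (s i / ∏ j, E i j)) := by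
  rcases isU_or_mx (h.sm i) with hi | hi
  · have := hi.div (isU_prod (s := Finset.univ) fun j _ => h.eu hE i j (Or.inl hi))
    exact ⟨this.mem, fun _ => this⟩
  have hA : A⁻¹ ∉ mx O → A ∈ O := fun hA => h.aa.elim id fun h' => by
    simpa using (isU_of_not_mx h' hA).inv_mem
  by_cases hj : ∃ j, t j ∈ mx O
  · obtain ⟨j, hj⟩ := hj
    have h1 := prod_div (O := O) (f := E i) j (hE i j).ne
      fun j' hj' => h.eu hE i j' (Or.inr (h.symm.su hj j' hj'))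
    have h2 : s i / ∏ j, E i j = s i / E i j / ((∏ j', E i j') / E i j) := by
      have := (hE i j).ne
      rw [div_div_div_cancel_right₀ this]
    rw [h2]
    refine ⟨h1.div_mem ((hE i j).1 _ (Or.inl rfl)), fun h3 => IsU.div ?_ h1⟩
    simpa using (h.eT hE i j (hA h3) hj).inv
  · have ht : ∀ j, IsU O (t j) := fun j => isU_of_not_mx (h.tm j) fun h' => hj ⟨j, h'⟩
    refine ⟨(isU_prod (s := Finset.univ) fun j _ => h.eu hE i j (Or.inr (ht j))).div_mem (h.sm i),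
      fun h3 => absurd ?_ hi.2⟩
    have h4 : IsU O (A ^ e * ∏ i, s i) := by
      rw [h.eqn]; exact isU_prod fun j _ => ht j
    have h5 : IsU O ((∏ i, s i) * A ^ e) := by rwa [mul_comm]
    have h6 := IsU.of_mul (O.prod_mem fun i _ => h.sm i) (O.pow_mem (hA h3) e) h5
    have h7 := h6.div (prod_div i (h.sne i) (h.su hi))
    rwa [div_div_cancel₀ h6.1] at h7

theorem Loc.pC (h : Loc e O s t A) (hE : ∀ i j, Gn {s i, t j} O (E i j)) (hA : A ∈ O) :
    IsU O ((∏ i, s i) / ∏ i, ∏ j, E i j) := by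
  have h1 : A⁻¹ ∉ mx O := fun h' =>
    h'.2 ⟨inv_ne_zero h.ane, h'.1, by rw [inv_inv]; exact hA⟩
  rw [← Finset.prod_div_distrib]
  exact isU_prod fun i _ => (h.rC hE i).2 h1

theorem Loc.pT (h : Loc e O s t A) (hE : ∀ i j, Gn {s i, t j} O (E i j)) (hA : A⁻¹ ∈ O) :
    IsU O ((∏ j, t j) / ∏ i, ∏ j, E i j) := by
  rw [Finset.prod_comm]
  exact h.symm.pC (gn_swap hE) hA

end loc

variable {k M K Λ κ : Type} {n : ℕ} [Field k] [Field M] [Field K] [Algebra k M] [Algebra k K]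
  [Finite Λ] [Fintype κ] {L : Lv k M Λ κ n} {ι : M →ₐ[k] K} {l : k} {ζ w : K} {e : ℕ}

theorem loc (h : XLoc L ι l ζ w e) {O : Subalgebra k K} (hO : O ∈ XX L ι ζ w e) :
    Loc e O (fun i => sX L ι i O) (fun j => tau l ζ j O) (AA L ι ζ w e O) where
  sne := h.sne O hO
  tne := h.tne O
  ane := h.ane O hO
  aa := h.aa O hO
  eqn := h.eqn O hO
  sm := h.sm O hO
  tm := h.tm O hO
  s1 := h.s1 O hO
  t1 := h.t1 O hO

theorem gE (h : XLoc L ι l ζ w e) {O : Subalgebra k K} (hO : O ∈ XX L ι ζ w e) (i : κ)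
    (j : Fin 4) : Gn {sX L ι i O, tau l ζ j O} O (EE L ι l ζ i j O) :=
  gn_spec ((loc h hO).prin i j)

theorem cartZ (h : XLoc L ι l ζ w e) : IsCart (XX L ι ζ w e) (eta ζ) :=
  isCart_of_gn (Set.toFinite _) h.gZ

theorem cne (h : XLoc L ι l ζ w e) (j : Fin 4) :
    (![ζ, ζ - 1, ζ - algebraMap k K l, 1] j : K) ≠ 0 := fun e =>
  h.tne ⊤ j (by rw [tau, e, zero_div])

theorem cartT (h : XLoc L ι l ζ w e) (j : Fin 4) : IsCart (XX L ι ζ w e) (tau l ζ j) :=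
  (isCart_const (cne h j)).div (cartZ h)

theorem cartU (ht : OkA L) (h : XLoc L ι l ζ w e) {f : Subalgebra k M → M} (hf : IsCart L.Y f) :
    IsCart (XX L ι ζ w e) (up ι L.Y f) :=
  isCart_up (fine_mp ht.fam).toGood h.fine.toGood h.maps hf

theorem cartS (ht : OkA L) (h : XLoc L ι l ζ w e) (i : κ) : IsCart (XX L ι ζ w e) (sX L ι i) :=
  cartU ht h (ht.cs i)

theorem cartA (ht : OkA L) (h : XLoc L ι l ζ w e) : IsCart (XX L ι ζ w e) (AA L ι ζ w e) :=
  (isCart_const h.wne).div ((cartU ht h ((isCart_const ht.φne).mul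
    (ht.cj.pow (3 - e)))).mul ((cartZ h).pow (2 * (3 - e))))

theorem cartE (ht : OkA L) (h : XLoc L ι l ζ w e) (i : κ) (j : Fin 4) :
    IsCart (XX L ι ζ w e) (EE L ι l ζ i j) :=
  isCart_gn_pair (cartS ht h i) (cartT h j) fun _ hO => gE h hO i j

theorem cartN (ht : OkA L) (h : XLoc L ι l ζ w e) (i : κ ⊕ Fin 4) :
    IsCart (XX L ι ζ w e) (sN L ι l ζ i) := by
  rcases i with i | j
  · have e1 : sN L ι l ζ (Sum.inl i) = sX L ι i / ∏ j, EE L ι l ζ i j := by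
      funext O
      simp only [sN, Sum.elim_inl, Pi.div_apply, Finset.prod_apply]
    rw [e1]
    exact (cartS ht h i).div (isCart_prod fun j _ => cartE ht h i j)
  · have e1 : sN L ι l ζ (Sum.inr j) = tau l ζ j / ∏ i, EE L ι l ζ i j := by
      funext O
      simp only [sN, Sum.elim_inr, Pi.div_apply, Finset.prod_apply]
    rw [e1]
    exact (cartT h j).div (isCart_prod fun i _ => cartE ht h i j)

theorem lb_eq (g : Subalgebra k M → M) (t : ℤ) (a : κ → Fin 4 → ℤ) : lb L ι l ζ g t a =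
    up ι L.Y g * eta ζ ^ (-t) * ∏ i, ∏ j, EE L ι l ζ i j ^ (-a i j) := by
  funext O
  simp only [lb, Pi.mul_apply, Pi.pow_apply, Finset.prod_apply]

theorem cartP (ht : OkA L) (h : XLoc L ι l ζ w e) (a : κ → Fin 4 → ℤ) (i : κ) :
    IsCart (XX L ι ζ w e) (∏ j, EE L ι l ζ i j ^ (-a i j)) :=
  isCart_prod fun j _ => (cartE ht h i j).zpow _

theorem cartW (ht : OkA L) (h : XLoc L ι l ζ w e) (g : Subalgebra k M → M) (t : ℤ)
    (a : κ → Fin 4 → ℤ) (hg : IsCart L.Y g) : IsCart (XX L ι ζ w e) (lb L ι l ζ g t a) := by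
  rw [lb_eq]
  exact ((cartU ht h hg).mul ((cartZ h).zpow _)).mul (isCart_prod fun i _ => cartP ht h a i)

variable [IsAlgClosed k]

theorem degT (h : XLoc L ι l ζ w e) (ν : Curve (XX L ι ζ w e)) (j : Fin 4) :
    ν.deg (tau l ζ j) = -ν.deg (eta ζ) := by
  have := deg_div h.fine.toGood (isCart_const (cne h j)) (cartZ h) ν
  rw [deg_const, zero_sub] at this
  exact this

theorem degW (ht : OkA L) (h : XLoc L ι l ζ w e) (ν : Curve (XX L ι ζ w e))
    (g : Subalgebra k M → M) (t : ℤ) (a : κ → Fin 4 → ℤ) (hg : IsCart L.Y g) :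
    ν.deg (lb L ι l ζ g t a) =
      ν.deg (up ι L.Y g) - t * ν.deg (eta ζ) - ∑ i, ∑ j, a i j * ν.deg (EE L ι l ζ i j) := by
  have hX := h.fine.toGood
  rw [lb_eq, deg_mul hX ((cartU ht h hg).mul ((cartZ h).zpow _))
    (isCart_prod fun i _ => cartP ht h a i),
    deg_mul hX (cartU ht h hg) ((cartZ h).zpow _), deg_zpow hX (cartZ h),
    deg_prod hX fun i _ => cartP ht h a i]
  have h2 : ∀ i, ν.deg (∏ j, EE L ι l ζ i j ^ (-a i j)) =
      -∑ j, a i j * ν.deg (EE L ι l ζ i j) := fun i => by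
    rw [deg_prod hX fun j _ => (cartE ht h i j).zpow _, ← Finset.sum_neg_distrib]
    exact Finset.sum_congr rfl fun j _ => by rw [deg_zpow hX (cartE ht h i j), neg_mul]
  rw [Finset.sum_congr rfl fun i _ => h2 i, Finset.sum_neg_distrib]
  ring

end Xdv

open Xdv in
/-- XDIV. -/
theorem xdiv_stmt : XdivStmt := fun _ _ _ _ _ _ _ _ _ _ _ _ _ _ _ _ _ _ _ _ ht _ h =>
  { gE := fun _ hO => gE h hO
    em := fun _ hO i j => (gE h hO i j).mem ((loc h hO).pm i j)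
    eu := fun _ hO => (loc h hO).eu (gE h hO)
    emx := fun _ hO i j hi hj => (gE h hO i j).mem_mx (by rintro a (rfl | rfl); exacts [hi, hj])
    eT := fun _ hO => (loc h hO).eT (gE h hO)
    eC := fun _ hO i j => (loc h hO).symm.eT (gn_swap (gE h hO)) j i
    rT := fun _ hO j => by
      simpa only [inv_inv] using (loc h hO).symm.rC (gn_swap (gE h hO)) j
    rC := fun _ hO => (loc h hO).rC (gE h hO)
    pC := fun _ hO => (loc h hO).pC (gE h hO)
    pT := fun _ hO => (loc h hO).pT (gE h hO)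
    cartU := fun _ => cartU ht h
    cartZ := cartZ h
    cartT := cartT h
    cartS := cartS ht h
    cartA := cartA ht h
    cartE := cartE ht h
    cartN := cartN ht h
    cartW := cartW ht h
    degT := degT h
    degW := degW ht h }

end Pool.Agent.MP_20d318_ag.CH

end PartXdiv

section PartCur

/-! The degrees of curves on the blow-up and on its double cover. -/

set_option autoImplicit false
set_option linter.unusedSectionVars false

namespace Pool.Agent.MP_20d318_ag.CH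

open Pool.Agent.MP_fd6584_ag.Fn Pool.Agent.CBk
open Pool.Agent.MP_fd6584_ag.AG hiding deg_inv deg_congr deg_of_unit deg_mul deg_prod deg_zpow
  deg_eq_zero deg_nonneg deg_div deg_pow
open Pool.Agent.MP_20d318_ag.CB.P.XCurA (ptmx mx_prod)

namespace CurR

variable {k M K Λ κ : Type} {n : ℕ} [Field k] [Field M] [Field K] [Algebra k M] [Algebra k K]
  [IsAlgClosed k] [Fintype κ] {L : Lv k M Λ κ n} {ι : M →ₐ[k] K} {l : k} {ζ w : K} {e : ℕ}
  (h : All L ι l ζ w e) (ν : Curve (XX L ι ζ w e))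

include h

theorem tauU {j j' : Fin 4} (ht : tau l ζ j ν.gen ∈ mx ν.gen) (hj : j' ≠ j) (P : Place k ν.L) :
    IsU (ν.pt P) (tau l ζ j' (ν.pt P)) :=
  isU_of_not_mx (h.loc.tm _ (ν.pt_mem P) j') fun e => hj (h.loc.t1 _ (ν.pt_mem P) j' j e
    (ptmx (h.div.cartT j) (fun O hO => .inl (h.loc.tm O hO j)) ν ht P))

theorem sU {i i' : κ} (hs : sX L ι i ν.gen ∈ mx ν.gen) (hi : i' ≠ i) (P : Place k ν.L) :
    IsU (ν.pt P) (sX L ι i' (ν.pt P)) :=
  isU_of_not_mx (h.loc.sm _ (ν.pt_mem P) i') fun e => hi (h.loc.s1 _ (ν.pt_mem P) i' i e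
    (ptmx (h.div.cartS i) (fun O hO => .inl (h.loc.sm O hO i)) ν hs P))

theorem zeroT (j : Fin 4) (hu : ∀ P, IsU (ν.pt P) (tau l ζ j (ν.pt P))) : ν.deg (eta ζ) = 0 :=
  neg_eq_zero.1 ((h.div.degT ν j).symm.trans (deg_zero_of h.gX (h.div.cartT j) ν hu))

theorem zeroE (i : κ) (j : Fin 4) (hu : ∀ P, IsU (ν.pt P) (sX L ι i (ν.pt P)) ∨
    IsU (ν.pt P) (tau l ζ j (ν.pt P))) : ν.deg (EE L ι l ζ i j) = 0 :=
  deg_zero_of h.gX (h.div.cartE i j) ν fun P => h.div.eu _ (ν.pt_mem P) i j (hu P)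

theorem zeroS {i i' : κ} (hs : sX L ι i ν.gen ∈ mx ν.gen) (hi : i' ≠ i) :
    L.nd.d (h.pj ν) (L.nd.c i') = 0 := by
  rw [h.pj_c, deg_zero_of h.gX (h.div.cartS i') ν (sU h ν hs hi), Int.cast_zero]

theorem zeroT' {j : Fin 4} (ht : tau l ζ j ν.gen ∈ mx ν.gen) : ν.deg (eta ζ) = 0 := by
  obtain ⟨j', hj⟩ := exists_ne j
  exact zeroT h ν j' (tauU h ν ht hj)

theorem cA (j : Fin 4) (ha : AA L ι ζ w e ν.gen ∈ mx ν.gen) (ht : tau l ζ j ν.gen ∈ mx ν.gen) :
    ν.deg (eta ζ) = 0 ∧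
      ∀ i j', ν.deg (EE L ι l ζ i j') = if j' = j then ν.deg (sX L ι i) else 0 := by
  refine ⟨zeroT' h ν ht, fun i j' => ?_⟩
  split_ifs with q
  · subst q
    exact degc h.gX (h.div.cartE i j') (h.div.cartS i) ν fun P =>
      h.div.eT _ (ν.pt_mem P) i j' (ptmx h.div.cartA h.loc.aa ν ha P).1
        (ptmx (h.div.cartT j') (fun O hO => .inl (h.loc.tm O hO j')) ν ht P)
  · exact zeroE h ν i j' fun P => .inr (tauU h ν ht q P)

open Classical in
theorem cB (i : κ) (ha : (AA L ι ζ w e ν.gen)⁻¹ ∈ mx ν.gen)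
    (hs : sX L ι i ν.gen ∈ mx ν.gen) (i' : κ) (j : Fin 4) :
    ν.deg (EE L ι l ζ i' j) = if i' = i then -ν.deg (eta ζ) else 0 := by
  split_ifs with q
  · subst q
    rw [← h.div.degT ν j]
    exact degc h.gX (h.div.cartE i' j) (h.div.cartT j) ν fun P =>
      h.div.eC _ (ν.pt_mem P) i' j (ptmx h.div.cartA.inv
        (fun O hO => (h.loc.aa O hO).symm.imp_right fun e => by simpa using e) ν ha P).1
        (ptmx (h.div.cartS i') (fun O hO => .inl (h.loc.sm O hO i')) ν hs P)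
  · exact zeroE h ν i' j fun P => .inl (sU h ν hs q P)

theorem cX (i : κ) (j : Fin 4) (hs : sX L ι i ν.gen ∈ mx ν.gen)
    (ht : tau l ζ j ν.gen ∈ mx ν.gen) : ν.deg (eta ζ) = 0 ∧
      ∀ i' j', ¬ (i' = i ∧ j' = j) → ν.deg (EE L ι l ζ i' j') = 0 :=
  ⟨zeroT' h ν ht, fun i' j' e => zeroE h ν i' j' fun P =>
    (not_and_or.1 e).imp (fun e => sU h ν hs e P) fun e => tauU h ν ht e P⟩

theorem cG (c : k) (h0 : c ≠ 0) (h1 : c ≠ 1) (hl : c ≠ l)
    (hc : ζ - algebraMap k K c ∈ mx ν.gen) :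
    ν.deg (eta ζ) = 0 ∧ ∀ i j, ν.deg (EE L ι l ζ i j) = 0 := by
  have hu : ∀ j P, IsU (ν.pt P) (tau l ζ j (ν.pt P)) := fun j P => by
    have hO := h.gX.loc _ (ν.pt_mem P)
    have h2 := mem_pt_of_const ν P hc (by
      have := h.loc.zm _ (ν.pt_mem P)
      unfold zc at this
      split_ifs at this
      exacts [.inl this, .inr this])
    have h3 : ζ ∈ ν.pt P := by simpa using add_mem h2.1 ((ν.pt P).algebraMap_mem c)
    have h4 : ∀ e : k, c ≠ e → IsU (ν.pt P) (ζ - algebraMap k K e) := fun e he => by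
      have := (isU_const (O := ν.pt P) (sub_ne_zero.2 he)).add_mx hO h2
      rwa [map_sub, sub_add_sub_cancel'] at this
    unfold tau eta
    rw [if_pos h3, div_one]
    fin_cases j
    · simpa using h4 0 h0
    · simpa using h4 1 h1
    · exact h4 l hl
    · exact isU_one
  exact ⟨zeroT h ν 0 (hu 0), fun i j => zeroE h ν i j fun P => .inr (hu j P)⟩

theorem sumT (j : Fin 4) (ha : AA L ι ζ w e ν.gen ∉ mx ν.gen) :
    ∑ i, ν.deg (EE L ι l ζ i j) ≤ -ν.deg (eta ζ) := by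
  have hc := isCart_prod (s := Finset.univ) fun i _ => h.div.cartE i j
  have h1 := deg_nonneg h.gX ((h.div.cartT j).div hc)
    (fun O hO => by simpa using (h.div.rT O hO j).1) ν
    (by simpa using (h.div.rT _ ν.gen_mem j).2 ha)
  rw [deg_div h.gX (h.div.cartT j) hc, deg_prod h.gX fun i _ => h.div.cartE i j, h.div.degT] at h1
  exact sub_nonneg.1 h1

theorem sumC (i : κ) (ha : (AA L ι ζ w e ν.gen)⁻¹ ∉ mx ν.gen) :
    ∑ j, ν.deg (EE L ι l ζ i j) ≤ ν.deg (sX L ι i) := by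
  have hc := isCart_prod (s := Finset.univ) fun j _ => h.div.cartE i j
  have h1 := deg_nonneg h.gX ((h.div.cartS i).div hc)
    (fun O hO => by simpa using (h.div.rC O hO i).1) ν
    (by simpa using (h.div.rC _ ν.gen_mem i).2 ha)
  rw [deg_div h.gX (h.div.cartS i) hc, deg_prod h.gX fun j _ => h.div.cartE i j] at h1
  exact sub_nonneg.1 h1

theorem ty : Ty L.nd (h.pj ν) (-ν.deg (eta ζ) : ℤ) fun i j => ν.deg (EE L ι l ζ i j) := by
  classical
  have hO := ν.gen_mem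
  have he : e ≠ 0 := by rcases h.ext.he with q | q <;> omega
  have hs2 : ∏ i, sX L ι i ν.gen ∈ mx ν.gen → ∃ i, sX L ι i ν.gen ∈ mx ν.gen := fun e =>
    mx_prod (h.loc.sm _ hO) e
  have hsm : ∏ i, sX L ι i ν.gen ∈ ν.gen := prod_mem fun i _ => h.loc.sm _ hO i
  have eqn := h.loc.eqn _ hO
  refine ⟨Int.cast_nonneg (neg_nonneg.2 (deg_gn_nonpos h.gX (Set.toFinite _) h.loc.gZ ν)), ?_⟩
  by_cases ha : AA L ι ζ w e ν.gen ∈ mx ν.gen
  · obtain ⟨j, hj⟩ := mx_prod (h.loc.tm _ hO) (eqn ▸ mx_mul_right (mx_pow ha he) hsm)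
    obtain ⟨h1, h2⟩ := cA h ν j ha hj
    refine .inl ⟨j, by simp [h1], fun i j' => ?_⟩
    dsimp only
    rw [h2, h.pj_c]
    split_ifs <;> simp
  by_cases hb : (AA L ι ζ w e ν.gen)⁻¹ ∈ mx ν.gen
  · obtain ⟨i, hi⟩ := hs2 (by
      have := mx_mul_right (mx_pow hb he) (prod_mem fun j (_ : j ∈ Finset.univ) =>
        h.loc.tm _ hO j)
      rwa [← eqn, inv_pow, inv_mul_cancel_left₀ (pow_ne_zero _ (h.loc.ane _ hO))] at this)
    refine .inr (.inl ⟨i, fun i' => zeroS h ν hi, fun i' j => ?_⟩)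
    dsimp only
    rw [cB h ν i hb hi]
    split_ifs <;> simp
  have hu : IsU ν.gen (AA L ι ζ w e ν.gen) := (h.loc.aa _ hO).elim (isU_of_not_mx · ha)
    fun e => by simpa using (isU_of_not_mx e hb).inv
  by_cases ht : ∃ j, tau l ζ j ν.gen ∈ mx ν.gen
  · obtain ⟨j, hj⟩ := ht
    obtain ⟨i, hi⟩ := hs2 (by
      refine (mx_or_of_mul (hu.pow e).mem hsm ?_).resolve_left (hu.pow e).not_mx
      rw [eqn, ← Finset.mul_prod_erase _ _ (Finset.mem_univ j)]
      exact mx_mul_right hj (prod_mem fun j _ => h.loc.tm _ hO j))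
    obtain ⟨h1, h2⟩ := cX h ν i j hi hj
    have h3 := sumT h ν j ha
    have h4 := sumC h ν i hb
    rw [h1, Finset.sum_eq_single i (fun i' _ e => h2 i' j fun e' => e e'.1) (by simp)] at h3
    rw [Finset.sum_eq_single j (fun j' _ e => h2 i j' fun e' => e e'.2) (by simp)] at h4
    refine .inr (.inr (.inl ⟨i, j, fun i' => zeroS h ν hi, by simp [h1], ?_, ?_,
      fun i' j' q => ?_⟩))
    · dsimp only
      exact_mod_cast h3
    · rw [h.pj_c]
      dsimp only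
      exact_mod_cast h4
    · simp [h2 i' j' q]
  · push Not at ht
    refine .inr (.inr (.inr ⟨fun i j => Int.cast_nonneg (deg_nonneg h.gX (h.div.cartE i j)
      (fun O hO => h.div.em O hO i j) ν (h.div.eu _ hO i j
        (.inr (isU_of_not_mx (h.loc.tm _ hO j) (ht j))))), fun i => ?_, fun j => ?_⟩))
    · rw [h.pj_c]
      dsimp only
      exact_mod_cast sumC h ν i hb
    · dsimp only
      exact_mod_cast sumT h ν j ha

end CurR

theorem cur_stmt : CurStmt := fun _ _ _ _ _ _ _ _ _ _ _ _ _ _ _ _ _ _ _ _ _ h =>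
  ⟨⟨CurR.cA h, CurR.cB h, CurR.cX h, CurR.cG h⟩,
    fun ν => ⟨h.pj ν, _, _, CurR.ty h ν, h.phi_d ν⟩⟩

end Pool.Agent.MP_20d318_ag.CH

end PartCur

section PartPt

/-! Row PT: points of the blow-up over a given point. -/

set_option autoImplicit false
set_option linter.unusedSectionVars false

namespace Pool.Agent.MP_20d318_ag.CH

open Pool.Agent.MP_fd6584_ag.Fn Pool.Agent.CBk
open Pool.Agent.MP_fd6584_ag.AG hiding deg_inv deg_congr deg_of_unit deg_mul deg_prod deg_zpow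
  deg_eq_zero deg_nonneg deg_div deg_pow
open Pool.Agent.CBk.XTst (tb tr_tb mem_of_dom zor mem_of_sub tau_eq tau_unit)

namespace PtA

variable {k M K Λ κ : Type} {n : ℕ} [Field k] [Field M] [Field K] [Algebra k M] [Algebra k K]
  [Fintype κ] {L : Lv k M Λ κ n} {ι : M →ₐ[k] K} {l : k} {ζ w : K} {e : ℕ} {O V : Subalgebra k K}
  {R : Subalgebra k M}

theorem val_pow (hV : IsVal V) {a : K} (h : a ^ e ∈ mx V) : a ∈ mx V := by
  refine mx_of_pow (by_contra fun hn => ?_) h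
  have h0 : a ≠ 0 := fun h0 => hn (h0 ▸ V.zero_mem)
  have := mx_mul_right h (V.pow_mem (hV.inv_mx hn).1 e)
  rw [← mul_pow, mul_inv_cancel₀ h0, one_pow] at this
  exact one_not_mem_mx this

variable (h : All L ι l ζ w e)
include h

theorem s_mx (hO : O ∈ XX L ι ζ w e) {i : κ} (hs : L.s i (pr ι L.Y O) ∈ mx (pr ι L.Y O)) :
    sX L ι i O ∈ mx O :=
  (h.loc.maps.mx_up hO hs.1).2 hs

theorem A_not (hO : O ∈ XX L ι ζ w e) (hu : ∀ j, IsU O (tau l ζ j O)) {i : κ}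
    (hi : sX L ι i O ∈ mx O) : AA L ι ζ w e O ∉ O := fun hA => by
  classical
  have h1 : ∏ i, sX L ι i O ∈ mx O := by
    rw [← Finset.mul_prod_erase _ _ (Finset.mem_univ i)]
    exact mx_mul_right hi (O.prod_mem fun j _ => h.loc.sm O hO j)
  have := mx_mul_left (O.pow_mem hA e) h1
  rw [h.loc.eqn O hO] at this
  exact this.2 (isU_prod fun j _ => hu j)

theorem pT (hR : R ∈ L.Y) (j : Fin 4) : ∃ O ∈ XX L ι ζ w e, pr ι L.Y O = R ∧ tau l ζ j O ∈ mx O ∧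
    AA L ι ζ w e O ∈ mx O ∧ ∃ c : k, zc ζ O - algebraMap k K c ∈ mx O := by
  have hz : ζ ≠ 0 := by simpa using h.ext.tr.ne 0
  have hs : ∏ i, L.s i R ≠ 0 := Finset.prod_ne_zero_iff.2 fun i _ => (h.ok.cs i).ne hR
  have hs' : ι (∏ i, L.s i R) ≠ 0 := (map_ne_zero ι).2 hs
  obtain ⟨V, hV, hd, hv⟩ := (up_stmt k M K ι R _ (h.gY.loc _ hR) (tr_tb (l := l) h.ext.tr j hs)).1 0
  rw [map_zero, sub_zero] at hv
  obtain ⟨O, hO, hOV, he⟩ := h.below hR hV hd
  have ht : tb l ζ j ∈ mx V := by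
    have := mx_mul_right (b := ι (∏ i, L.s i R)) hv
      (hd.1 (R.prod_mem fun i _ => h.ok.sm R hR i))
    rwa [div_mul_cancel₀ _ hs'] at this
  obtain ⟨e0, c0, e1⟩ := tau_eq hz (h.loc.zm O hO) hOV ht
  have ht' : tau l ζ j O ∈ mx O := mx_of_le hOV.1 (h.loc.tm O hO j) (e0 ▸ ht)
  have hA : AA L ι ζ w e O ∈ mx V := by
    refine val_pow (e := e) hV ?_
    have e2 := h.loc.eqn O hO
    rw [← Finset.mul_prod_erase _ (tau l ζ · O) (Finset.mem_univ j), e0, h.prod_sX, he] at e2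
    rw [eq_div_of_mul_eq hs' e2, ← div_mul_eq_mul_div]
    exact mx_mul_right hv (hOV.1 (O.prod_mem fun j' _ => h.loc.tm O hO j'))
  exact ⟨O, hO, he, ht', mx_of_le hOV.1 (mem_of_dom hOV (h.loc.aa O hO) hA.1) hA, c0,
    by rwa [e1, ← e0]⟩

theorem pG [Infinite k] (hR : R ∈ L.Y) (i : κ) (hs : L.s i R ∈ mx R) :
    ∃ O ∈ XX L ι ζ w e, pr ι L.Y O = R ∧ (AA L ι ζ w e O)⁻¹ ∈ mx O ∧ zc ζ O = ζ ∧
      (∀ j, IsU O (tau l ζ j O)) ∧
      ∃ c : k, c ≠ 0 ∧ c ≠ 1 ∧ c ≠ l ∧ ζ - algebraMap k K c ∈ mx O := by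
  classical
  obtain ⟨c0, h0⟩ := Infinite.exists_notMem_finset ({0, 1, l} : Finset k)
  simp only [Finset.mem_insert, Finset.mem_singleton, not_or] at h0
  obtain ⟨V, hV, hd, hv⟩ := (up_stmt k M K ι R ζ (h.gY.loc _ hR) h.ext.tr).1 c0
  obtain ⟨O, hO, hOV, he⟩ := h.below hR hV hd
  have hz : ζ ∈ O := mem_of_dom hOV (zor (h.loc.zm O hO)) (mem_of_sub hv.1)
  have hv' : ζ - algebraMap k K c0 ∈ mx O :=
    mx_of_le hOV.1 (O.sub_mem hz (O.algebraMap_mem _)) hv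
  have hu : ∀ j, IsU O (tau l ζ j O) := tau_unit hz fun c hc => by
    have hne : c0 - c ≠ 0 := sub_ne_zero.2 (by rcases hc with rfl | rfl | rfl <;> tauto)
    have := (isU_const (O := O) hne).add_mx (h.gX.loc O hO) hv'
    rwa [map_sub, sub_add_sub_cancel'] at this
  have hA := A_not h hO hu (s_mx h hO (he ▸ hs))
  exact ⟨O, hO, he, ⟨(h.loc.aa O hO).resolve_left hA, fun hh => hA (by simpa using hh.inv_mem)⟩,
    if_pos hz, hu, c0, h0.1, h0.2.1, h0.2.2, hv'⟩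

theorem rat_up (hO : O ∈ XX L ι ζ w e) (hr : RatPt (pr ι L.Y O)) {a : K} (ha : a ∈ mx O)
    (ha' : a = AA L ι ζ w e O ∨ a = (AA L ι ζ w e O)⁻¹) {c : k}
    (hc : zc ζ O - algebraMap k K c ∈ mx O) : RatPt O := by
  refine ratPt_of (h.loc.pts O hO a ha.1 ha') rfl ?_
  rintro _ (⟨b, hb, rfl⟩ | rfl | rfl)
  · obtain ⟨d, hd⟩ := hr b hb
    have := (h.loc.maps.mx_up hO hd.1).2 hd
    rw [map_sub, AlgHom.commutes] at this
    exact ⟨d, this⟩
  · exact ⟨c, hc⟩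
  · exact ⟨0, by rwa [map_zero, sub_zero]⟩

theorem sN_T (hO : O ∈ XX L ι ζ w e) {j : Fin 4} (ht : tau l ζ j O ∈ mx O)
    (hA : AA L ι ζ w e O ∈ mx O) : tau l ζ j O / ∏ i, EE L ι l ζ i j O ∈ mx O := by
  have h1 : IsU O (∏ i, EE L ι l ζ i j O / sX L ι i O) :=
    isU_prod fun i _ => h.div.eT O hO i j hA.1 ht
  have h2 : IsU O (∏ j' ∈ Finset.univ.erase j, tau l ζ j' O) :=
    isU_prod fun j' hj => isU_of_not_mx (h.loc.tm O hO j') fun hm =>
      Finset.ne_of_mem_erase hj (h.loc.t1 O hO j' j hm ht)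
  have h3 := h.loc.eqn O hO
  rw [← Finset.mul_prod_erase _ (tau l ζ · O) (Finset.mem_univ j)] at h3
  have he : e ≠ 0 := by rcases h.ext.he with rfl | rfl <;> decide
  have := mx_div (mx_div (mx_pow hA he) h1) h2
  rwa [Finset.prod_div_distrib, div_div_eq_mul_div, h3, div_right_comm, mul_div_cancel_right₀ _ h2.1]
    at this

theorem rat [Infinite k] (i : κ ⊕ Fin 4) :
    ∃ O ∈ XX L ι ζ w e, RatPt O ∧ sN L ι l ζ i O ∈ mx O := by
  rcases i with i | j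
  · obtain ⟨R, hR, hr, hs⟩ := h.ok.rat i
    obtain ⟨O, hO, rfl, hA, hz, hu, c, -, -, -, hc⟩ := pG h hR i hs
    exact ⟨O, hO, rat_up h hO hr hA (.inr rfl) (hz.symm ▸ hc),
      mx_div (s_mx h hO hs) (isU_prod fun j _ => h.div.eu O hO i j (.inr (hu j)))⟩
  · obtain ⟨i⟩ := h.ok.ne
    obtain ⟨R, hR, hr, -⟩ := h.ok.rat i
    obtain ⟨O, hO, rfl, ht, hA, c, hc⟩ := pT h hR j
    exact ⟨O, hO, rat_up h hO hr hA (.inl rfl) hc, sN_T h hO ht hA⟩

end PtA

theorem pt_stmt : PtStmt := fun _ _ _ _ _ _ _ _ _ _ _ _ _ _ _ _ _ _ _ _ _ h =>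
  ⟨fun _ hR j => PtA.pT h hR j, fun _ hR i hs => PtA.pG h hR i hs, PtA.rat h⟩

end Pool.Agent.MP_20d318_ag.CH

end PartPt

section PartTest

/-! ROW TEST: the test curves of one step. -/

set_option autoImplicit false
set_option linter.unusedSectionVars false

namespace Pool.Agent.MP_20d318_ag.CH

open Pool.Agent.MP_fd6584_ag.Fn Pool.Agent.CBk
open Pool.Agent.MP_fd6584_ag.AG hiding deg_inv deg_congr deg_of_unit deg_mul deg_prod deg_zpow
  deg_eq_zero deg_nonneg deg_div deg_pow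
open Pool.Agent.CBk.XTst (tb tb_form tr_tb mem_of_dom zor mem_of_sub tau_eq tau_unit)
open Classical

namespace Tst

variable {k M K Λ κ : Type} {n : ℕ} [Field k] [Field M] [Field K] [Algebra k M] [Algebra k K]
  [Fintype κ] {L : Lv k M Λ κ n} {ι : M →ₐ[k] K} {l : k} {ζ w : K} {e : ℕ} {O : Subalgebra k K}

variable (h : All L ι l ζ w e)
include h

theorem z_ne : ζ ≠ 0 := by simpa using h.ext.tr.ne 0

theorem A_not (hO : O ∈ XX L ι ζ w e) (hu : ∀ j, IsU O (tau l ζ j O)) {i : κ}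
    (hi : sX L ι i O ∈ mx O) : AA L ι ζ w e O ∉ O := fun hA => by
  have h1 : ∏ i, sX L ι i O ∈ mx O := by
    rw [← Finset.mul_prod_erase _ _ (Finset.mem_univ i)]
    exact mx_mul_right hi (O.prod_mem fun j _ => h.loc.sm O hO j)
  have := mx_mul_left (O.pow_mem hA e) h1
  rw [h.loc.eqn O hO] at this
  exact this.2 (isU_prod fun j _ => hu j)

/-- A curve lifts to a point with constant coordinates. -/
theorem lift (hL : LiftStmt) (ν : Curve L.Y) (hO : O ∈ XX L ι ζ w e) (he : pr ι L.Y O = ν.gen)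
    {a : K} (ha : a ∈ mx O) (h1 : a = AA L ι ζ w e O ∨ a = (AA L ι ζ w e O)⁻¹) {c : k}
    (hz : zc ζ O - algebraMap k K c ∈ mx O) :
    ∃ ν' : Curve (XX L ι ζ w e), ν'.gen = O ∧ (h.pj ν').lin = ν.lin := by
  obtain ⟨ν', e1, e2⟩ := hL k M K ι L.Y _ ν O {zc ζ O, a} h.gY h.gX h.loc.maps hO he
    (h.loc.pts O hO a ha.1 h1) (by
      rintro g (rfl | rfl)
      · exact ⟨c, hz⟩
      · exact ⟨0, by simpa using ha⟩)
  exact ⟨ν', e1, lin_congr fun f hf => (h.pj_deg ν' hf).trans (e2 f hf)⟩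

variable [NeZero (2 : k)] [IsAlgClosed k] (hc : XCur L ι l ζ w e)
include hc

theorem cvC (i : κ) : ∃ ν : Curve (XX L ι ζ w e), RatPt (pr ι L.Y ν.gen) ∧
    0 < -ν.deg (eta ζ) ∧
      ∀ i' j, ν.deg (EE L ι l ζ i' j) = if i' = i then -ν.deg (eta ζ) else 0 := by
  obtain ⟨R, hR, hr, hs⟩ := h.ok.rat i
  obtain ⟨V, hV, hd, hv⟩ := (up_stmt k M K ι R ζ (h.gY.loc R hR) h.ext.tr).2
  obtain ⟨O, hO, hOV, he⟩ := h.below hR hV hd
  have hz : ζ ∈ O := mem_of_dom hOV (zor (h.loc.zm O hO)) (hv.1 0)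
  have hu : ∀ c : k, IsU O (ζ - algebraMap k K c) := fun c =>
    hOV.2 _ (O.sub_mem hz (O.algebraMap_mem _)) (ind_one hv c)
  have hs' : sX L ι i O ∈ mx O := by
    rw [sX, up, h.loc.maps.mx_up hO (he ▸ hs.1), he]
    exact hs
  have hA := A_not h hO (tau_unit hz fun c _ => hu c) hs'
  have hA' : (AA L ι ζ w e O)⁻¹ ∈ mx O :=
    ⟨(h.loc.aa O hO).resolve_left hA, fun hh => hA (by simpa using hh.inv_mem)⟩
  obtain ⟨ν, rfl⟩ := curve_stmt k K _ h.gX O hO (h.loc.dim O hO 0 (he ▸ hr.dim))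
    (not_dim_zero (h.gX.loc O hO) hz fun c => (hu c).not_mx)
  refine ⟨ν, he ▸ hr, ?_, hc.cB ν i hA' hs'⟩
  have e0 := deg_gn_pair ν (h.loc.gZ _ hO) (fun P => h.loc.gZ _ (ν.pt_mem P)) one_ne_zero
    (by rwa [div_one])
  rw [div_one] at e0
  rw [e0, neg_neg]
  exact pdeg_pos (ev_transcendental ν hz fun c => (hu c).not_mx)

theorem cvE (i : κ) (j : Fin 4) : ∃ ν : Curve (XX L ι ζ w e), RatPt (pr ι L.Y ν.gen) ∧
    ν.deg (eta ζ) = 0 ∧ 0 < -ν.deg (EE L ι l ζ i j) ∧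
      ∀ i' j', ¬ (i' = i ∧ j' = j) → ν.deg (EE L ι l ζ i' j') = 0 := by
  obtain ⟨R, hR, hr, hs⟩ := h.ok.rat i
  have hs1 : L.s i R ≠ 0 := (h.ok.cs i).ne hR
  have hs0 : ι (L.s i R) ≠ 0 := by simpa using hs1
  obtain ⟨V, hV, hd, hv⟩ := (up_stmt k M K ι R _ (h.gY.loc R hR)
    (tr_tb (l := l) h.ext.tr j hs1)).2
  obtain ⟨O, hO, hOV, he⟩ := h.below hR hV hd
  have ht : tb l ζ j ∈ mx V := by
    have := mx_mul_left (hv.1 0) ((mem_mx_comap ι).1 (hd.mx hs))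
    rwa [Matrix.cons_val_zero, div_mul_cancel₀ _ hs0] at this
  obtain ⟨e0, -⟩ := tau_eq (z_ne h) (h.loc.zm O hO) hOV ht
  have ht' : tau l ζ j O ∈ mx O := mx_of_le hOV.1 (h.loc.tm O hO j) (e0 ▸ ht)
  have es : sX L ι i O = ι (L.s i R) := by rw [sX, up, he]
  have hs' : sX L ι i O ∈ mx O := by
    rw [es, h.loc.maps.mx_up hO (he ▸ hs.1), he]
    exact hs
  have g0 : Gn {tb l ζ j, ι (L.s i R)} O (EE L ι l ζ i j O) := by
    have := h.div.gE O hO i j
    rwa [es, e0, Set.pair_comm] at this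
  have hy : tb l ζ j / ι (L.s i R) ∈ O :=
    mem_of_dom hOV (g0.prin.pair.imp_right fun hh => by rwa [inv_div]) (hv.1 0)
  have hu : ∀ c : k, tb l ζ j / ι (L.s i R) - algebraMap k K c ∉ mx O := fun c hh =>
    (ind_one hv c).not_mx (hOV.mx hh)
  obtain ⟨ν, rfl⟩ := curve_stmt k K _ h.gX O hO (h.loc.dim O hO 0 (he ▸ hr.dim))
    (not_dim_zero (h.gX.loc O hO) hy hu)
  have g1 : ∀ P, Gn {tb l ζ j, ι (L.s i R)} (ν.pt P) (EE L ι l ζ i j (ν.pt P)) := by
    intro P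
    have hP := ν.pt_mem P
    have hz := zor (h.loc.zm _ hP)
    have hm : tb l ζ j ∈ mx (ν.pt P) := by
      rw [e0] at ht'
      obtain ⟨c, ⟨h1, -⟩ | ⟨h1, -⟩⟩ := tb_form l ζ j
      · rw [h1] at ht' ⊢
        exact mem_pt_of_const ν P ht' hz
      · rw [h1] at ht' ⊢
        exact mem_pt_of_const ν P ht' (by simpa using hz.symm)
    have := h.div.gE _ hP i j
    rwa [(tau_eq (z_ne h) (h.loc.zm _ hP) (Dom.refl _) hm).1, sX, up,
      pr_pt h.gY h.gX h.loc.maps ν (he ▸ hr) P, he, Set.pair_comm] at this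
  have e3 := deg_gn_pair ν g0 g1 hs0 hy
  obtain ⟨e1, e2⟩ := hc.cX ν i j hs' ht'
  refine ⟨ν, he ▸ hr, e1, ?_, e2⟩
  rw [e3, neg_neg]
  exact pdeg_pos (ev_transcendental ν hy hu)

theorem tE (i : κ) (j : Fin 4) : ∃ ν', ∃ m : ℝ, 0 < m ∧
    ∀ D, (nx L ι l ζ w e).nd.d ν' (h.Phi D) = m * D.2.2 i j := by
  obtain ⟨ν, hr, e1, e2, e3⟩ := cvE h hc i j
  refine ⟨ν, (-ν.deg (EE L ι l ζ i j) : ℤ), Int.cast_pos.2 e2, fun D => ?_⟩
  rw [h.phi_d, nd_d, lin_rat (ν := h.pj ν) hr, e1,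
    Finset.sum_eq_single i (fun i' _ hi => Finset.sum_eq_zero fun j' _ => by
      rw [e3 i' j' fun hh => hi hh.1]; simp) (by simp),
    Finset.sum_eq_single j (fun j' _ hj => by rw [e3 i j' fun hh => hj hh.2]; simp) (by simp)]
  simp [mul_comm]

theorem tC (i : κ) : ∃ ν', ∃ m : ℝ, 0 < m ∧
    ∀ D, (nx L ι l ζ w e).nd.d ν' (h.Phi D) = m * (D.2.1 - ∑ j, D.2.2 i j) := by
  obtain ⟨ν, hr, e1, e2⟩ := cvC h hc i
  refine ⟨ν, (-ν.deg (eta ζ) : ℤ), Int.cast_pos.2 e1, fun D => ?_⟩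
  rw [h.phi_d, nd_d, lin_rat (ν := h.pj ν) hr,
    Finset.sum_eq_single i (fun i' _ hi => Finset.sum_eq_zero fun j' _ => by
      rw [e2 i' j', if_neg hi]; simp) (by simp)]
  simp only [e2, if_true, ← Finset.sum_mul, LinearMap.zero_apply]
  ring

variable (hL : LiftStmt) (hp : XPt L ι l ζ w e)
include hL hp

theorem tT (ν : Curve L.Y) (j : Fin 4) : ∃ ν', ∃ m : ℝ, 0 < m ∧
    ∀ D, (nx L ι l ζ w e).nd.d ν' (h.Phi D) =
      m * L.nd.d ν (D.1 - ∑ i, D.2.2 i j • L.nd.c i) := by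
  obtain ⟨O, hO, he, ht, hA, c, hz⟩ := hp.pT ν.gen ν.gen_mem j
  obtain ⟨ν', rfl, e0⟩ := lift h hL ν hO he hA (Or.inl rfl) hz
  obtain ⟨e1, e2⟩ := hc.cA ν' j hA ht
  have e3 : ∀ i, ((ν'.deg (sX L ι i) : ℤ) : ℝ) = L.nd.d ν (L.nd.c i) := fun i => by
    rw [← h.pj_c, nd_d, nd_d, e0]
  refine ⟨ν', 1, one_pos, fun D => ?_⟩
  rw [h.phi_d, e1, one_mul, map_sub, map_sum, nd_d (h.pj ν'), e0, nd_d]
  simp only [neg_zero, Int.cast_zero, mul_zero, add_zero]
  congr 1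
  refine Finset.sum_congr rfl fun i _ => ?_
  rw [Finset.sum_eq_single j (fun j' _ hj => by rw [e2 i j', if_neg hj]; simp) (by simp), e2,
    if_pos rfl, e3, map_smul, smul_eq_mul, nd_d]

theorem tB (ν : Curve L.Y) (i : κ) (hi : L.nd.d ν (L.nd.c i) < 0) : ∃ ν', ∃ m : ℝ, 0 < m ∧
    ∀ D, (nx L ι l ζ w e).nd.d ν' (h.Phi D) = m * L.nd.d ν D.1 := by
  rw [nd_c h.ok.toOkA] at hi
  have hs : L.s i ν.gen ∈ mx ν.gen := by
    by_contra hn
    have := deg_nonneg h.gY (h.ok.cs i) (fun R hR => h.ok.sm R hR i) ν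
      (isU_of_not_mx (h.ok.sm _ ν.gen_mem i) hn)
    exact absurd (Int.cast_lt_zero.1 hi) (not_lt.2 this)
  obtain ⟨O, hO, he, hA, hz, -, c, c0, c1, cl, hm⟩ := hp.pG ν.gen ν.gen_mem i hs
  obtain ⟨ν', rfl, e0⟩ := lift h hL ν hO he hA (Or.inr rfl) (c := c) (by rwa [hz])
  obtain ⟨e1, e2⟩ := hc.cG ν' c c0 c1 cl hm
  refine ⟨ν', 1, one_pos, fun D => ?_⟩
  rw [h.phi_d, e1, one_mul, nd_d (h.pj ν'), e0, nd_d]
  simp [e2]

end Tst

theorem test_stmt : TestStmt := fun hL _ _ _ _ _ _ _ _ _ _ _ _ _ _ _ _ _ _ _ _ _ h hc hp =>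
  ⟨Tst.tE h hc, Tst.tC h hc, Tst.tT h hc hL hp, Tst.tB h hc hL hp⟩

end Pool.Agent.MP_20d318_ag.CH

end PartTest

section PartPl

/-! The prime divisors of the blow-up and of its double cover. -/

set_option autoImplicit false
set_option linter.unusedSectionVars false

namespace Pool.Agent.MP_20d318_ag.CH

open Pool.Agent.MP_fd6584_ag.Fn Pool.Agent.CBk
open Pool.Agent.MP_fd6584_ag.AG hiding deg_inv deg_congr deg_of_unit deg_mul deg_prod deg_zpow
  deg_eq_zero deg_nonneg deg_div deg_pow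
open Pool.Agent.CBk.XPlAux (ext0 ext1 ext3 le_pu self_pu eta_congr zc_congr tau_congr
  zeta_of_units gen_cases zc_eq)

namespace PL

variable {k M K Λ κ : Type} {n : ℕ} [Field k] [Field M] [Field K] [Algebra k M] [Algebra k K]
  [Fintype κ] {L : Lv k M Λ κ n} {ι : M →ₐ[k] K} {l : k} {ζ w : K} {e : ℕ}
  {O O' : Subalgebra k K}

theorem sX_congr (hR : pr ι L.Y O' = pr ι L.Y O) (i : κ) :
    sX L ι i O' = sX L ι i O := by
  unfold sX up; rw [hR]

theorem AA_congr (h : ζ ∈ O ↔ ζ ∈ O') (hR : pr ι L.Y O' = pr ι L.Y O) :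
    AA L ι ζ w e O' = AA L ι ζ w e O := by
  unfold AA up; rw [eta_congr h, hR]

/-- The branch point decides the chart of the line. -/
theorem zeta_mem (hL : XLoc L ι l ζ w e) (hO : O ∈ XX L ι ζ w e) {j : Fin 4}
    (ht : tau l ζ j O ∈ mx O) : ζ ∈ O ↔ j ≠ 3 := by
  constructor
  · rintro hz rfl
    exact one_not_mem_mx (by simpa [tau, eta, hz] using ht)
  · intro hj
    by_contra hz
    have h1 : ζ⁻¹ ∈ O := by simpa [zc, hz] using hL.zm O hO
    have h2 : tau l ζ 3 O ∈ mx O := by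
      have e1 : tau l ζ 3 O = ζ⁻¹ := by simp [tau, eta, hz]
      rw [e1]
      exact ⟨h1, fun hu => hz (by simpa using hu.2.2)⟩
    exact hj (hL.t1 O hO j 3 ht h2)

theorem zc_const (hL : XLoc L ι l ζ w e) {j : Fin 4} (ht : tau l ζ j O ∈ mx O) :
    ∃ c b : k, zc ζ O - algebraMap k K c = algebraMap k K b * tau l ζ j O := by
  obtain ⟨α, β, h1, h2⟩ := hL.tp O
  have ha : α j ≠ 0 := fun ha => by
    rw [h1 j, ha, map_zero, zero_mul, zero_add, const_mem_mx] at ht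
    obtain ⟨j', hj⟩ := exists_ne j
    exact h2 j j' hj.symm (by rw [ha, ht, zero_mul, mul_zero])
  refine ⟨-β j / α j, (α j)⁻¹, ?_⟩
  have : algebraMap k K (α j) ≠ 0 := by simpa using ha
  rw [h1 j, map_div₀, map_neg, map_inv₀]
  field_simp
  ring

theorem algM_zc (hL : XLoc L ι l ζ w e) {j : Fin 4} (ht : tau l ζ j O ∈ mx O)
    (B : Subalgebra k K) : AlgM O B (zc ζ O) := by
  obtain ⟨c, b, h⟩ := zc_const hL ht
  exact algM_of_mx (c := c) (h ▸ mx_mul_left (O.algebraMap_mem b) ht)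

theorem map_le (hL : XLoc L ι l ζ w e) (hO : O ∈ XX L ι ζ w e) :
    (pr ι L.Y O).map ι ≤ O := by
  rintro _ ⟨a, ha, rfl⟩
  exact hL.maps.mem_up hO ha

theorem map_le' (hL : XLoc L ι l ζ w e) (hO' : O' ∈ XX L ι ζ w e)
    (hR : pr ι L.Y O' = pr ι L.Y O) : (pr ι L.Y O).map ι ≤ O' :=
  hR ▸ map_le hL hO'

theorem map_mx (hL : XLoc L ι l ζ w e) (hO : O ∈ XX L ι ζ w e) (hO' : O' ∈ XX L ι ζ w e)
    (hR : pr ι L.Y O' = pr ι L.Y O) :
    ∀ s ∈ (pr ι L.Y O).map ι, s ∈ mx O ↔ s ∈ mx O' := by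
  rintro _ ⟨a, ha, rfl⟩
  change ι a ∈ mx O ↔ ι a ∈ mx O'
  rw [hL.maps.mx_up hO ha, hL.maps.mx_up hO' (hR ▸ ha), hR]

theorem s_mem (h : All L ι l ζ w e) {R : Subalgebra k M} (hR : R ∈ L.Y) (i : κ) : L.s i R ∈ R :=
  h.ok.sm R hR i

theorem sX_mx (h : All L ι l ζ w e) (hO : O ∈ XX L ι ζ w e) (i : κ) :
    sX L ι i O ∈ mx O ↔ L.s i (pr ι L.Y O) ∈ mx (pr ι L.Y O) :=
  h.loc.maps.mx_up hO (s_mem h (h.loc.maps.mem hO) i)

theorem sX_top (h : All L ι l ζ w e) (hO : O ∈ XX L ι ζ w e) (hR : pr ι L.Y O = ⊤)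
    (i : κ) : IsU O (sX L ι i O) := by
  refine isU_of_not_mx (h.loc.sm O hO i) fun hm => h.loc.sne O hO i ?_
  have h1 := (sX_mx h hO i).1 hm
  unfold sX up
  rw [hR] at h1 ⊢
  rw [mem_mx_top.1 h1, map_zero]

theorem prod_tau_mx (hL : XLoc L ι l ζ w e) (hO : O ∈ XX L ι ζ w e) {j : Fin 4}
    (ht : tau l ζ j O ∈ mx O) : ∏ j, tau l ζ j O ∈ mx O := by
  rw [← Finset.mul_prod_erase _ _ (Finset.mem_univ j)]
  exact mx_mul_right ht (O.prod_mem fun j' _ => hL.tm O hO j')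

theorem eqn_inv (hL : XLoc L ι l ζ w e) (hO : O ∈ XX L ι ζ w e) :
    ∏ i, sX L ι i O = (AA L ι ζ w e O)⁻¹ ^ e * ∏ j, tau l ζ j O := by
  rw [← hL.eqn O hO, inv_pow, inv_mul_cancel_left₀ (pow_ne_zero e (hL.ane O hO))]

theorem ss_mx (hL : XLoc L ι l ζ w e) (hO : O ∈ XX L ι ζ w e) {i : κ}
    (hs : sX L ι i O ∈ mx O) : ∏ i, sX L ι i O ∈ mx O := by
  classical
  rw [← Finset.mul_prod_erase _ _ (Finset.mem_univ i)]
  exact mx_mul_right hs (O.prod_mem fun i' _ => hL.sm O hO i')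

/-- On the ramification divisors over the branch points `A` vanishes. -/
theorem A_mx (hL : XLoc L ι l ζ w e) (hO : O ∈ XX L ι ζ w e) {j : Fin 4}
    (ht : tau l ζ j O ∈ mx O) (hs : ∀ i, IsU O (sX L ι i O)) : AA L ι ζ w e O ∈ mx O := by
  have h1 := prod_tau_mx hL hO ht
  have hu : IsU O (∏ i, sX L ι i O) := isU_prod fun i _ => hs i
  rcases hL.aa O hO with hA | hA
  · rw [← hL.eqn O hO] at h1
    exact mx_of_pow hA ((mx_or_of_mul (O.pow_mem hA e) hu.mem h1).resolve_right hu.not_mx)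
  · exact absurd (eqn_inv hL hO ▸ mx_mul_left (O.pow_mem hA e) h1) hu.not_mx

/-- On the ramification divisors over the branch curves `1 / A` vanishes. -/
theorem Ainv_mx (hL : XLoc L ι l ζ w e) (hO : O ∈ XX L ι ζ w e) {i : κ}
    (hs : sX L ι i O ∈ mx O) (ht : ∀ j, IsU O (tau l ζ j O)) :
    (AA L ι ζ w e O)⁻¹ ∈ mx O := by
  have h1 := ss_mx hL hO hs
  have hu : IsU O (∏ j, tau l ζ j O) := isU_prod fun j _ => ht j
  rcases hL.aa O hO with hA | hA
  · exact absurd (hL.eqn O hO ▸ mx_mul_left (O.pow_mem hA e) h1) hu.not_mx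
  · rw [eqn_inv hL hO] at h1
    exact mx_of_pow hA ((mx_or_of_mul (O.pow_mem hA e) hu.mem h1).resolve_right hu.not_mx)

theorem A_unit (he : e ≠ 0) (hL : XLoc L ι l ζ w e) (hO : O ∈ XX L ι ζ w e)
    (hs : ∀ i, IsU O (sX L ι i O)) (ht : ∀ j, IsU O (tau l ζ j O)) :
    IsU O (AA L ι ζ w e O) := by
  have hu : IsU O (∏ j, tau l ζ j O) := isU_prod fun j _ => ht j
  have hv : IsU O (∏ i, sX L ι i O) := isU_prod fun i _ => hs i
  rcases hL.aa O hO with hA | hA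
  · rw [← hL.eqn O hO] at hu
    exact IsU.of_pow hA he (IsU.of_mul (O.pow_mem hA e) hv.mem hu)
  · rw [eqn_inv hL hO] at hv
    simpa using (IsU.of_pow hA he (IsU.of_mul (O.pow_mem hA e) hu.mem hv)).inv

variable {P P' : Place k K}

theorem not_dim (h : All L ι l ζ w e) (hP : plO P ∈ XX L ι ζ w e) :
    ¬ Dim (plO P) (n + 1) := by
  obtain ⟨G, h1, h2, h3⟩ := h.loc.fine.chart hP
  exact htOne_stmt k K G (n + 1) _ P h1 h2 (h.fld.ind (n + 2) L.y h.ok.ind) h3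

theorem pl (h : All L ι l ζ w e) (hP : plO P ∈ XX L ι ζ w e) :
    pr ι L.Y (plO P) = ⊤ ∨ ∃ P₀ : Place k M, pr ι L.Y (plO P) = plO P₀ :=
  h.ok.tri _ (h.loc.maps.mem hP) fun h1 => not_dim h hP (h.loc.dim _ hP n h1)

theorem dim_pr (h : All L ι l ζ w e) (hO : O ∈ XX L ι ζ w e) {P₀ : Place k M}
    (hR : pr ι L.Y O = plO P₀) : Dim (pr ι L.Y O) (n + 1) := by
  have := h.loc.maps.mem hO
  rw [hR] at this ⊢
  exact h.ok.dim P₀ this

theorem top (h : All L ι l ζ w e) {j : Fin 4} (hP : plO P ∈ XX L ι ζ w e)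
    (ht : tau l ζ j (plO P) ∈ mx (plO P)) (hs : ∀ i, IsU (plO P) (sX L ι i (plO P))) :
    pr ι L.Y (plO P) = ⊤ := by
  refine (pl h hP).resolve_right fun ⟨P₀, hR⟩ => not_dim h hP ?_
  exact h.loc.dimZ _ hP _ (dim_pr h hP hR) (algM_zc h.loc ht _) fun ⟨_, i, hi⟩ => (hs i).not_mx hi

/-- The exceptional divisors lie over the branch curves, and `A` is a coordinate on the fibres. -/
theorem exc (h : All L ι l ζ w e) {i : κ} {j : Fin 4} (hP : plO P ∈ XX L ι ζ w e)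
    (hs : sX L ι i (plO P) ∈ mx (plO P)) (ht : tau l ζ j (plO P) ∈ mx (plO P)) :
    (∃ Q : Place k M, pr ι L.Y (plO P) = plO Q ∧ plO Q ∈ L.Y ∧ L.s i (plO Q) ∈ mx (plO Q)) ∧
      IsU (plO P) (AA L ι ζ w e (plO P)) ∧
      ¬ AlgM (plO P) ((pr ι L.Y (plO P)).map ι) (AA L ι ζ w e (plO P)) := by
  obtain ⟨P₀, hR⟩ := (pl h hP).resolve_left fun h1 => (sX_top h hP h1 i).not_mx hs
  have h1 := (sX_mx h hP i).1 hs
  have h2 := h.loc.maps.mem hP
  have hd := dim_pr h hP hR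
  rw [hR] at h1 h2
  have h4 : IsU (plO P) (AA L ι ζ w e (plO P)) := by
    by_contra hn
    exact not_dim h hP (h.loc.dimZ _ hP _ hd (algM_zc h.loc ht _) fun h5 => hn h5.1)
  exact ⟨⟨P₀, hR, h2, h1⟩, h4, fun h5 => not_dim h hP (h.loc.dimA _ hP _ hd h4 h5)⟩

theorem uE (h : All L ι l ζ w e) {i : κ} {j : Fin 4}
    (hP : plO P ∈ XX L ι ζ w e) (hP' : plO P' ∈ XX L ι ζ w e)
    (hs : sX L ι i (plO P) ∈ mx (plO P)) (ht : tau l ζ j (plO P) ∈ mx (plO P))
    (hs' : sX L ι i (plO P') ∈ mx (plO P')) (ht' : tau l ζ j (plO P') ∈ mx (plO P')) :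
    P = P' := by
  obtain ⟨⟨Q, h1, q1, q2⟩, h2, h3⟩ := exc h hP hs ht
  obtain ⟨⟨Q', h1', q3, q4⟩, h2', h3'⟩ := exc h hP' hs' ht'
  obtain rfl := h.ok.uniq i Q Q' q1 q3 q2 q4
  have hR := h1'.trans h1.symm
  have hz := (zeta_mem h.loc hP ht).trans (zeta_mem h.loc hP' ht').symm
  have p1 := h.loc.pts _ hP _ h2.mem (Or.inl rfl)
  have p2 := h.loc.pts _ hP' _ h2'.mem (Or.inl rfl)
  rw [AA_congr hz hR] at h2' h3' p2
  rw [hR] at h3' p2
  rw [zc_congr hz] at p2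
  rw [tau_congr hz] at ht'
  obtain ⟨c, b, hc⟩ := zc_const h.loc ht
  refine plO_inj (ext1 p1 p2 (map_le h.loc hP) (map_le' h.loc hP' hR) (map_mx h.loc hP hP' hR)
    h2.mem h2'.mem h3 h3' fun g hg => ?_).le
  rcases gen_cases hg with hg | rfl | rfl
  · exact ⟨g, le_pu hg, by simpa using zero_mem_mx, by simpa using zero_mem_mx⟩
  · exact ⟨_, Subalgebra.algebraMap_mem _ c, hc ▸ mx_mul_left (Subalgebra.algebraMap_mem _ b) ht,
      hc ▸ mx_mul_left (Subalgebra.algebraMap_mem _ b) ht'⟩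
  · exact ⟨_, self_pu, by simpa using zero_mem_mx, by simpa using zero_mem_mx⟩

theorem uT (h : All L ι l ζ w e) {j : Fin 4}
    (hO : O ∈ XX L ι ζ w e) (hO' : O' ∈ XX L ι ζ w e)
    (ht : tau l ζ j O ∈ mx O) (h1 : pr ι L.Y O = ⊤)
    (ht' : tau l ζ j O' ∈ mx O') (h1' : pr ι L.Y O' = ⊤) : O = O' := by
  have hR := h1'.trans h1.symm
  have hz := (zeta_mem h.loc hO ht).trans (zeta_mem h.loc hO' ht').symm
  have h2 := A_mx h.loc hO ht (sX_top h hO h1)
  have h2' := A_mx h.loc hO' ht' (sX_top h hO' h1')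
  have p1 := h.loc.pts _ hO _ h2.1 (Or.inl rfl)
  have p2 := h.loc.pts _ hO' _ h2'.1 (Or.inl rfl)
  rw [AA_congr hz hR] at h2' p2
  rw [hR, zc_congr hz] at p2
  rw [tau_congr hz] at ht'
  obtain ⟨c, b, hc⟩ := zc_const h.loc ht
  refine ext0 p1 p2 (map_le h.loc hO) (map_le' h.loc hO' hR) (map_mx h.loc hO hO' hR)
    fun g hg => ?_
  rcases gen_cases hg with hg | rfl | rfl
  · exact ⟨g, hg, by simpa using zero_mem_mx, by simpa using zero_mem_mx⟩
  · exact ⟨_, Subalgebra.algebraMap_mem _ c, hc ▸ mx_mul_left (Subalgebra.algebraMap_mem _ b) ht,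
      hc ▸ mx_mul_left (Subalgebra.algebraMap_mem _ b) ht'⟩
  · exact ⟨0, Subalgebra.zero_mem _, by simpa using h2, by simpa using h2'⟩

theorem not_algM (h : All L ι l ζ w e) {P₀ : Place k M}
    (hP : plO P ∈ XX L ι ζ w e) (ht : ∀ j, IsU (plO P) (tau l ζ j (plO P)))
    (hR : pr ι L.Y (plO P) = plO P₀) :
    ¬ AlgM (plO P) ((pr ι L.Y (plO P)).map ι) ζ := fun ha => by
  refine not_dim h hP (h.loc.dimZ _ hP _ (dim_pr h hP hR)
    ((zc_eq (zeta_of_units ht)).symm ▸ ha) fun ⟨h1, i, hi⟩ => ?_)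
  exact h1.inv.not_mx (Ainv_mx h.loc hP hi ht)

theorem uV (h : All L ι l ζ w e) {P₀ : Place k M}
    (hP : plO P ∈ XX L ι ζ w e) (hP' : plO P' ∈ XX L ι ζ w e)
    (ht : ∀ j, IsU (plO P) (tau l ζ j (plO P))) (ht' : ∀ j, IsU (plO P') (tau l ζ j (plO P')))
    (h1 : pr ι L.Y (plO P) = plO P₀) (h1' : pr ι L.Y (plO P') = plO P₀) :
    P = P' := by
  have hR := h1'.trans h1.symm
  have z1 := zeta_of_units ht
  have z2 := zeta_of_units ht'
  have hz : ζ ∈ plO P ↔ ζ ∈ plO P' := iff_of_true z1 z2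
  have n1 := not_algM h hP ht h1
  have n2 := not_algM h hP' ht' h1'
  rw [hR] at n2
  have hm := map_mx h.loc hP hP' hR
  have hsS : ∀ i, sX L ι i (plO P) ∈ (pr ι L.Y (plO P)).map ι := fun i =>
    ⟨_, s_mem h (h.loc.maps.mem hP) i, rfl⟩
  refine plO_inj (le_of_eq ?_)
  by_cases hs : ∃ i, sX L ι i (plO P) ∈ mx (plO P)
  · obtain ⟨i, hi⟩ := hs
    have hi' : sX L ι i (plO P') ∈ mx (plO P') := sX_congr hR i ▸ (hm _ (hsS i)).1 hi
    have h2 := Ainv_mx h.loc hP hi ht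
    have h2' := Ainv_mx h.loc hP' hi' ht'
    have p1 := h.loc.pts _ hP _ h2.1 (Or.inr rfl)
    have p2 := h.loc.pts _ hP' _ h2'.1 (Or.inr rfl)
    rw [AA_congr hz hR] at h2' p2
    rw [hR, zc_eq z2] at p2
    rw [zc_eq z1] at p1
    refine ext1 p1 p2 (map_le h.loc hP) (map_le' h.loc hP' hR) hm z1 z2 n1 n2 fun g hg => ?_
    rcases gen_cases hg with hg | rfl | rfl
    · exact ⟨g, le_pu hg, by simpa using zero_mem_mx, by simpa using zero_mem_mx⟩
    · exact ⟨_, self_pu, by simpa using zero_mem_mx, by simpa using zero_mem_mx⟩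
    · exact ⟨0, Subalgebra.zero_mem _, by simpa using h2, by simpa using h2'⟩
  · have hu : ∀ i, IsU (plO P) (sX L ι i (plO P)) := fun i =>
      isU_of_not_mx (h.loc.sm _ hP i) fun hi => hs ⟨i, hi⟩
    have hu' : ∀ i, IsU (plO P') (sX L ι i (plO P')) := fun i =>
      isU_of_not_mx (h.loc.sm _ hP' i) fun hi =>
        (hu i).not_mx ((hm _ (hsS i)).2 (sX_congr hR i ▸ hi))
    have he : e ≠ 0 := by have := h.ext.he; omega
    have p1 := h.loc.pts _ hP _ (A_unit he h.loc hP hu ht).mem (Or.inl rfl)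
    have p2 := h.loc.pts _ hP' _ (A_unit he h.loc hP' hu' ht').mem (Or.inl rfl)
    rw [AA_congr hz hR, hR, zc_eq z2, ← Subalgebra.coe_map] at p2
    rw [zc_eq z1, ← Subalgebra.coe_map] at p1
    have hS : ∀ i, IsU ((pr ι L.Y (plO P)).map ι) (sX L ι i (plO P)) := fun i => by
      have h3 : IsU (pr ι L.Y (plO P)) (L.s i (pr ι L.Y (plO P))) :=
        isU_of_not_mx (s_mem h (h.loc.maps.mem hP) i) fun h4 =>
          (hu i).not_mx ((sX_mx h hP i).2 h4)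
      exact ⟨(hu i).1, hsS i, _, h3.inv_mem, map_inv₀ ι _⟩
    have hv := (isU_prod (s := Finset.univ) fun i _ => hS i).inv
    have e1 := h.loc.eqn _ hP
    have e2 : ∏ j, tau l ζ j (plO P) = ζ * (ζ - 1) * (ζ - algebraMap k K l) := by
      simp [tau, eta, z1, Fin.prod_univ_four]
    have e3 : AA L ι ζ w e (plO P) ^ e =
        (∏ i, sX L ι i (plO P))⁻¹ * (ζ * (ζ - 1) * (ζ - algebraMap k K l)) := by
      rw [← e2, ← e1, mul_comm (AA L ι ζ w e (plO P) ^ e),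
        inv_mul_cancel_left₀ (Finset.prod_ne_zero_iff.2 fun i _ => (hu i).1)]
    rcases h.ext.he with rfl | rfl
    · refine ext1 p1 p2 (map_le h.loc hP) (map_le' h.loc hP' hR) hm z1 z2 n1 n2 fun g hg =>
        ⟨g, ?_, by simpa using zero_mem_mx, by simpa using zero_mem_mx⟩
      rcases hg with hg | rfl | rfl
      · exact le_pu hg
      · exact self_pu
      · rw [← pow_one (AA L ι ζ w 1 (plO P)), e3]
        exact mul_mem (le_pu hv.mem) (mul_mem (mul_mem self_pu (sub_mem self_pu (one_mem _)))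
          (sub_mem self_pu (Subalgebra.algebraMap_mem _ l)))
    · exact ext3 p1 p2 hm n1 n2 hv l e3

end PL

theorem pl_stmt : PlStmt := fun _ _ _ _ _ _ _ _ _ _ _ _ _ _ _ _ _ _ _ _ _ h =>
  { uE := fun _ _ _ _ => PL.uE h
    eA := fun _ _ _ hP hs ht => (PL.exc h hP hs ht).2.1
    top := fun _ _ => PL.top h
    uT := fun _ _ _ hP hP' ht h1 ht' h1' => plO_inj (PL.uT h hP hP' ht h1 ht' h1').le
    pl := fun _ => PL.pl h
    uV := fun _ _ _ => PL.uV h }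

end Pool.Agent.MP_20d318_ag.CH

end PartPl
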