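import Pool.Agent.MP_20d318_ag.CH.Asm
import Pool.Agent.MP_20d318_ag.CH.RowsL
import Pool.Agent.MP_20d318_ag.CH.RowsA
import Pool.Agent.MP_20d318_ag.CH.RowsX
import Pool.Agent.MP_20d318_ag.CH.RowsY
import Pool.Agent.MP_20d318_ag.CH.Spec
import Pool.Agent.MP_fd6584_ag.MV.RowsG

section PartNice

/-! Smooth models are normal and locally factorial. -/

set_option autoImplicit false

namespace Pool.Agent.MP_20d318_ag.CH

open Pool.Agent.CBk Pool.Agent.MP_fd6584_ag.AG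

theorem nice_stmt : NiceStmt := by
  intro k K _ _ _ _ X hX hs
  have hU : ∀ O ∈ X, UniqueFactorizationMonoid O := fun O hO => by
    obtain ⟨𝒢, -, h1, h2⟩ := hX.cov
    obtain ⟨G, hG, h3⟩ := Set.mem_iUnion₂.1 (h2 ▸ hO)
    exact MVg.ufd_stmt k K G (h1 G hG).1
      (smG_stmt k K G (h1 G hG).1 fun O' h => hs O' (h2 ▸ Set.mem_biUnion hG h)) O h3
  have hN : Nice X := ⟨hX, fun O hO f hf => by
    have := hU O hO
    have : IsFractionRing O K := IsFractionRing.of_field O K fun z => by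
      obtain ⟨a, ha, b, hb, -, e⟩ := hX.frac hO z
      exact ⟨⟨a, ha⟩, ⟨b, hb⟩, e⟩
    obtain ⟨y, rfl⟩ := IsIntegrallyClosed.isIntegral_iff.1 hf
    exact y.2⟩
  exact ⟨hN, MVg.fac_stmt k K X hN hU⟩

end Pool.Agent.MP_20d318_ag.CH

end PartNice

namespace Pool.Agent.MP_20d318_ag.CH

theorem mods : Mods := ⟨⟨n1a_stmt, n1b_stmt, n1c_stmt, n1d_stmt, n3_stmt⟩, MVg.gauss_stmt, hyp_stmt,
  ker_stmt, smo_stmt, crd_stmt, der_stmt, triv_stmt, dim_stmt, lift_stmt, nice_stmt, fld_stmt,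
  hom_stmt, mw_stmt, hor_stmt, tw_stmt, xloc_stmt, xdiv_stmt, cur_stmt, pt_stmt, test_stmt, pl_stmt,
  cls_stmt, sig_stmt, lft_stmt, pol_stmt, eff_stmt, cln_stmt, dv_stmt, vol_stmt, nxa_stmt, nxb_stmt⟩

end Pool.Agent.MP_20d318_ag.CH
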