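import Pool.Agent.MP_20d318_ag.CH.LBase
import Pool.Agent.MP_20d318_ag.CB.EndB1
import Pool.Agent.MP_20d318_ag.CC.Q1

section PartCvb

/-! The cover for the lattice of the surface. -/

set_option autoImplicit false
set_option linter.unusedSectionVars false

namespace Pool.Agent.MP_20d318_ag.CH

open Pool.Agent.MP_20d318_ag.Lat hiding act actW W
open Pool.Agent.MP_20d318_ag.CB

namespace Cvb

variable {ι κ : Type} [Fintype ι] [Fintype κ]

open Classical in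
theorem ob_smul {Λ : Ld ι κ} {T : Finset (ι → ℤ)} (h : OB Λ T) {N : ℤ} (hN : N ≠ 0) :
    OB Λ (T.image fun x => N • x) where
  neg := by
    intro _ h1
    obtain ⟨x, hx, rfl⟩ := Finset.mem_image.1 h1
    rw [ip_smul_left, ip_smul_right, ← mul_assoc]
    exact mul_neg_of_pos_of_neg (mul_self_pos.2 hN) (h.neg x hx)
  orth := by
    intro _ h1 _ h2 e
    obtain ⟨x, hx, rfl⟩ := Finset.mem_image.1 h1
    obtain ⟨y, hy, rfl⟩ := Finset.mem_image.1 h2
    rw [ip_smul_left, ip_smul_right, h.orth x hx y hy fun k => e (by rw [k]), mul_zero, mul_zero]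
  perp := by
    intro _ h1 v hv
    obtain ⟨x, hx, rfl⟩ := Finset.mem_image.1 h1
    rw [toR_zsmul, ip_smul_right, h.perp x hx v hv, mul_zero]
  span r h1 h2 := h.span r h1 fun x hx => by
    have := h2 _ (Finset.mem_image_of_mem _ hx)
    rw [toR_zsmul, ip_smul_right] at this
    exact (mul_eq_zero.1 this).resolve_left (by exact_mod_cast hN)

end Cvb

theorem cvb_stmt : CvbStmt := by
  classical
  intro ι κ _ _ Λ G h h0 ha
  have hg := hg_stmt ι Λ.B h.sym h.hodge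
  have l1 := l1_stmt ι κ Λ h hg
  have ct := ct_stmt ι κ Λ h l1
  unfold CVW
  rw [Set.inter_univ, ld_nl]
  rcases h.sq0.lt_or_eq with hF | hF
  · obtain ⟨R, h1, h2⟩ := endA_stmt ι κ Λ h hg l1 ct hF
    obtain ⟨ρ, a, -⟩ := h0
    exact ⟨R, h1.trans lw_le, h2.subset, fun D _ _ => ⟨_, ⟨ρ, a, rfl⟩, fun k => h2.superset k⟩⟩
  replace hF := hF.symm
  obtain ⟨fin, T, hT⟩ := endB1_stmt ι κ Λ h hg l1 hF
  obtain ⟨N, hN, ha⟩ := ha hF
  have hN' : (N : ℤ) ≠ 0 := by exact_mod_cast hN.ne'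
  have hT' := Cvb.ob_smul hT hN'
  obtain ⟨R, h1, h2⟩ := endB3_stmt ι κ Λ _ h l1 ct (hz_stmt ι κ Λ h hg l1 ct) hF fin hT'
  refine ⟨R, h1.trans lw_le, h2.subset.trans Set.inter_subset_left, fun D hD _ => ?_⟩
  obtain ⟨ρ, ⟨g, h3, h5⟩, h4⟩ := endB2_stmt ι κ Λ _
    {ρ | ∃ g ∈ G, ∀ L : ι → ℝ, act g L = act ρ L} h l1 hF hT'
    (h0.imp fun g k => ⟨k.1, fun L => by rw [CB.act_one, k.2]⟩) (fun n => by
      obtain ⟨ρ, a2, a1⟩ := ha (∑ x ∈ T, n ((N : ℤ) • x) • x) (by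
        rw [ip_sum_left]
        refine Finset.sum_eq_zero fun x hx => ?_
        have := hT.perp x hx _ (Submodule.subset_span ⟨Λ.F, ⟨h.memC _, hF⟩, rfl⟩)
        rw [ip_toR, Int.cast_eq_zero] at this
        rw [ip_smul_left, ip_comm h.sym, this, mul_zero])
      refine ⟨ρ, ⟨ρ, a2, fun _ => rfl⟩, ?_⟩
      rw [Finset.sum_image fun x _ y _ e => smul_right_injective _ hN' e]
      rw [Finset.smul_sum] at a1
      simpa only [smul_comm (N : ℤ)] using a1) D.1 hD.2.2.1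
  exact ⟨_, ⟨g, h3, rfl⟩, fun k => h2.superset ⟨k, show act g D.1 ∈ Box Λ _ from h5 D.1 ▸ h4⟩⟩

end Pool.Agent.MP_20d318_ag.CH

end PartCvb

section PartGkc

/-! Row GKC: the decomposition when all components have square `-4`. -/

set_option autoImplicit false
set_option linter.unusedSectionVars false

namespace Pool.Agent.MP_20d318_ag.CH

open Pool.Agent.MP_20d318_ag.Lat hiding act actW W
open Pool.Agent.MP_20d318_ag.CB

namespace Gkc

variable {ι κ : Type} [Fintype ι] [Fintype κ] {Λ : Ld ι κ} {G : Set (Matrix ι ι ℤ)}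

theorem rat (h : CC.B0 Λ) {N : ι → ℝ} {n : ℕ} (hn : 0 < n) {c : ι → ℤ}
    (e : (n : ℝ) • N = toR c) (hN : N ∈ Λ.NT) : N ∈ (ldN Λ G).Ef := by
  have h0 : (0 : ℝ) < n := by exact_mod_cast hn
  have h1 : toR c ∈ Λ.NT := fun d hd => by
    rw [← e, ip_smul_left]
    exact mul_nonneg h0.le (hN d hd)
  have h2 := (isCone_cone _).smul _ (inv_nonneg.2 h0.le) _
    (ld_ef (G := G) (h.lb.ne _ ((h.lb.nefr _).1 h1)).2)
  rwa [← e, smul_smul, inv_mul_cancel₀ h0.ne', one_smul] at h2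

/-- A prime class of negative square meets at most two components. -/
theorem two (h : CC.B0 Λ) {c : ι → ℤ} (hc : c ∈ Λ.P) (hcc : ip Λ.B c c < 0) :
    ∃ a b : κ, ∀ i, i ≠ a → i ≠ b → ip Λ.B (Λ.C i) c = 0 := by
  rcases h.lb.neg c hc hcc with ⟨k, rfl⟩ | ⟨c1, -, c3⟩ | ⟨-, -, -, c4⟩
  · exact ⟨k, k, fun i hi _ => h.nc.disj i k hi⟩
  · rcases h.lb.pat c (h.lb.Cc c hc c1) c3 with ⟨k, -, s⟩ | ⟨k, l, -, -, -, s⟩
    · exact ⟨k, k, fun i hi _ => s i hi⟩
    · exact ⟨k, l, s⟩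
  · exact ⟨Λ.k0, Λ.k0, fun i _ _ => c4 i⟩

theorem cur (xy : XYP) (h : CC.B0 Λ) (xn : CC.XN Λ) (key : CC.KEY Λ) (c : Λ.P)
    (D : WW (ι → ℝ) κ) (hD : D ∈ (ldN Λ G).NL ∩ HG Λ) (p : κ → ℝ) (q : Fin 4 → ℝ)
    (ha : Adm D p q) : GKc (ldN Λ G) {L | 0 ≤ (ldN Λ G).d c L} D p q := by
  rcases le_or_gt 0 (ip Λ.B (c : ι → ℤ) c) with hcc | hcc
  · rw [ld_nn] at hD
    have : Nonempty κ := ⟨Λ.k0⟩
    obtain ⟨xh, x, y, k⟩ := xy ℝ κ D.2.2 D.2.1 p q hD.1.2.1 ha.p0 ha.q0 ha.pa ha.qa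
    refine ⟨x, y, k.x0, k.qy, k.le, k.sy, ?_, k.px⟩
    refine CC.LcA.nefc h key (xh := xh) (x := x) ⟨hD.1.2.2.1, fun i => ?_, k.x0, k.xx, k.p2,
      fun b hb => k.lp _ (xn.four b hb) (xn.s2 D hD.1 b hb) (hD.2 b hb), rfl⟩ c.2 hcc
    obtain ⟨j, e⟩ := k.att i
    exact e ▸ xn.nk D hD.1 i j
  · obtain ⟨a, b, hab⟩ := two h c.2 hcc
    exact gkc_few (ld_dich h.nc.disj h.lb.Cc) hD.1 ha (a := a) (b := b) fun i h1 h2 => by
      rw [ld_d, ld_c, ip_toR, hab i h1 h2, Int.cast_zero]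

theorem eff (xy : XYP) (h : CC.B0 Λ) (xn : CC.XN Λ) (key : CC.KEY Λ) (D : W ι κ ℤ)
    (hD : toRW D ∈ CC.NN Λ) (p : κ → ℤ) (q : Fin 4 → ℤ)
    (ha : Adm (toRW D) (fun i => p i) fun j => q j) :
    GKc (ldN Λ G) (ldN Λ G).Ef (toRW D) (fun i => p i) fun j => q j := by
  classical
  have nk := xn.nk _ hD.1
  have s2 := xn.s2 _ hD.1
  obtain ⟨p0, q0, pa, qa⟩ := ha
  obtain ⟨L, t, a⟩ := D
  obtain ⟨⟨a0, at', hL, -⟩, hM⟩ := hD
  simp only [toRW, Set.mem_ofPred_eq, ip_toR] at a0 at' hL hM nk s2 pa qa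
  have : Nonempty κ := ⟨Λ.k0⟩
  obtain ⟨xh, x, y, c⟩ := xy ℚ κ (fun k j => a k j) t (fun k => p k) (fun j => q j)
    (fun k => by exact_mod_cast at' k) (fun k => by exact_mod_cast p0 k)
    (fun j => by exact_mod_cast q0 j) (fun k j => by exact_mod_cast pa k j)
    fun k j => by exact_mod_cast qa k j
  obtain ⟨N, eN⟩ : ∃ N, N = toR L - ∑ k, (x k : ℝ) • toR (Λ.C k) := ⟨_, rfl⟩
  have x0 : ∀ k, (0 : ℝ) ≤ x k := fun k => by exact_mod_cast c.x0 k
  have qy : ∀ j, (q j : ℝ) ≤ y j := fun j => by exact_mod_cast c.qy j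
  have xa : ∀ k j, (a k j : ℝ) ≤ x k + y j := fun k j => by exact_mod_cast c.le k j
  have sy : ∑ j, (y j : ℝ) ≤ t := by exact_mod_cast c.sy
  obtain ⟨i₀, px⟩ := c.px
  have px' : ∀ i, i ≠ i₀ → (p i : ℝ) ≤ x i := fun i hi => by exact_mod_cast px i hi
  obtain ⟨T, hT, n1⟩ := key (toR L) N (fun k => xh k) (fun k => x k) ⟨hL, fun k => by
      obtain ⟨j, e⟩ := c.att k
      rw [e, Rat.cast_intCast]
      exact nk k j, x0, fun k => by exact_mod_cast c.xx k, fun k => by exact_mod_cast c.p2 k,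
    fun b hb => by
      rw [ip_toR]
      exact_mod_cast c.lp (ip Λ.B L b : ℤ) (xn.four b hb)
        (fun e j j' => by exact_mod_cast s2 b hb e j j') fun e => by exact_mod_cast hM b hb e, eN⟩
  obtain ⟨n, hn, z, hz⟩ := CC.LcBA.den x
  have e0 : (n : ℝ) • N = toR (n • L - ∑ k, z k • Λ.C k) := by
    simp only [eN, toR_sub, toR_sum, toR_zsmul, toR_nsmul, smul_sub, Finset.smul_sum, smul_smul, hz]
  have n2 := rat (G := G) h hn (c := (n • L - ∑ k, z k • Λ.C k) +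
    ∑ e ∈ T, ip Λ.B (n • L - ∑ k, z k • Λ.C k) e • e) (by
      simp only [toR_add, toR_sum (s := T), toR_zsmul, ← ip_toR, ← e0, ip_smul_left, smul_add,
        Finset.smul_sum, smul_smul]) n1
  have C := isCone_cone (toR '' Λ.P)
  have n3 := C.add _ n2 _ (C.sum_mem T (fun e => (-ip Λ.B N (toR e)) • toR e)
    fun e he => C.smul _ (neg_nonneg.2 (hT e he).2.le) _ (ld_ef (G := G) (hT e he).1))
  simp only [neg_smul, Finset.sum_neg_distrib, add_neg_cancel_right] at n3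
  rw [eN] at n3
  exact ⟨fun k => x k, fun j => y j, x0, qy, xa, sy, n3, i₀, px'⟩

end Gkc

theorem gkc_stmt : GkcStmt := by
  intro xy ι κ _ _ Λ G h xn key
  refine ⟨Gkc.cur xy h xn key, fun D hD hL p q ha hp hq => ?_⟩
  obtain ⟨E, rfl⟩ := ld_lw.1 hL
  choose p' hp using hp
  choose q' hq using hq
  obtain rfl : p = fun i => (p' i : ℝ) := funext hp
  obtain rfl : q = fun j => (q' j : ℝ) := funext hq
  exact Gkc.eff xy h xn key E (ld_nn.subset hD) p' q' ha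

end Pool.Agent.MP_20d318_ag.CH

end PartGkc

section PartSkb

/-! Row SKB: the subtraction on a surface with a component of nonnegative square. -/

set_option autoImplicit false
set_option linter.unusedSectionVars false

namespace Pool.Agent.MP_20d318_ag.CH

open Pool.Agent.MP_20d318_ag.Lat hiding act actW W
open Pool.Agent.MP_20d318_ag.CB
open Finset

namespace Skb

variable {ι κ : Type} [Fintype ι] [Fintype κ] {Λ : Ld ι κ}

/-- At most two terms are nonzero. -/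
theorem few {s : κ → ℤ} (k0 : κ) (s0 : ∀ k, 0 ≤ s k) (hs : ∑ k, s k = 2) :
    ∃ a b, ∀ r, r ≠ a → r ≠ b → s r = 0 := by
  classical
  by_contra h
  push Not at h
  obtain ⟨a, -, -, ha⟩ := h k0 k0
  obtain ⟨b, hba, -, hb⟩ := h a a
  obtain ⟨c, hca, hcb, hc⟩ := h a b
  have e : ∑ k ∈ ({a, b, c} : Finset κ), s k ≤ ∑ k, s k :=
    sum_le_sum_of_subset_of_nonneg (subset_univ _) fun i _ _ => s0 i
  rw [sum_insert (by simp [hba.symm, hca.symm]), sum_pair hcb.symm, hs] at e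
  have := s0 a
  have := s0 b
  have := s0 c
  omega

open Classical in
/-- The decomposition, for the sum over the other components. -/
theorem dec (hK : KEY Λ) : ∃ I : Finset (ι → ℤ), (∀ e ∈ I, e ∈ Λ.Ef) ∧
    ∀ (L N : ι → ℝ) (x : κ → ℝ), L ∈ Λ.NT → (∀ k, 0 ≤ x k) →
      (∀ k, L - x k • toR (Λ.C k) ∈ Λ.NT) → N = L - ∑ k ∈ univ.erase Λ.k0, x k • toR (Λ.C k) →
        N - ∑ e ∈ I, max 0 (-ip Λ.B N (toR e)) • toR e ∈ Λ.NT := by
  obtain ⟨I, i1, i2⟩ := hK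
  refine ⟨I, i1, fun L N x hL x0 hx hN => i2 L N (fun k => if k = Λ.k0 then 0 else x k) hL
    (fun k => ?_) (if_pos rfl) (fun k => ?_) ?_⟩
  · split_ifs
    exacts [le_rfl, x0 k]
  · split_ifs
    · rwa [zero_smul, sub_zero]
    · exact hx k
  · rw [hN, ← sum_erase (a := Λ.k0) univ (f := fun k => (if k = Λ.k0 then 0 else x k) • toR (Λ.C k))
      (by simp)]
    exact congrArg (L - ·) (sum_congr rfl fun k hk => by rw [if_neg (ne_of_mem_erase hk)])

end Skb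

open Skb in
theorem skb_stmt : SkbStmt := by
  classical
  intro ι κ _ _ Λ G hS h1 hK
  obtain ⟨I, i1, i2⟩ := dec hK
  refine ⟨fun c L hL x x0 hx => ?_, fun L hL hΛ x x0 xz hx => ?_⟩
  · have z : ∀ k, ip Λ.B (Λ.C k) c = 0 → (ldN Λ G).d c ((ldN Λ G).c k) = 0 := fun k h => by
      rw [ld_d, ld_c, ip_toR, h, Int.cast_zero]
    rcases le_or_gt 0 (ip Λ.B (c : ι → ℤ) c) with hc | hc
    · refine ⟨Λ.k0, ?_⟩
      have e := i2 L _ x (ld_nef.subset hL) x0 (fun k => ld_nef.subset (hx k)) rfl c c.2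
      change 0 ≤ ip Λ.B (L - ∑ k ∈ univ.erase Λ.k0, x k • toR (Λ.C k)) (toR c)
      generalize L - ∑ k ∈ univ.erase Λ.k0, x k • toR (Λ.C k) = N at e ⊢
      rw [ip_sub_left, ip_sum_left] at e
      have : 0 ≤ ∑ e ∈ I, ip Λ.B (max 0 (-ip Λ.B N (toR e)) • toR e) (toR c) :=
        sum_nonneg fun e he => by
          rw [ip_smul_left, ip_toR, ip_comm hS.sym e c]
          exact mul_nonneg (le_max_left _ _)
            (Int.cast_nonneg (h1.efn c (h1.pn c c.2 hc) e (i1 e he)))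
      linarith
    · rcases h1.neg c c.2 hc with ⟨k, -, e, -⟩ | ⟨m, -, e⟩ | ⟨-, -, -, e⟩
      · exact skc_few (a := k) (b := k) hL hx fun i hi _ => z i (e ▸ hS.disj i k hi)
      · obtain ⟨a, b, hab⟩ := few (s := fun k => ip Λ.B (Λ.C k) c) Λ.k0 (h1.Cc c c.2 m)
          (by rw [h1.sumK, e]; rfl)
        exact skc_few hL hx fun i ha hb => z i (hab i ha hb)
      · exact skc_few (a := Λ.k0) (b := Λ.k0) hL hx fun i _ _ => z i (e i)
  · refine ⟨Λ.k0, ?_⟩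
    obtain ⟨y, rfl⟩ := hΛ
    choose n hn using xz
    have e := i2 _ _ x (ld_nef.subset hL) x0 (fun k => ld_nef.subset (hx k)) rfl
    have hN : toR y - ∑ k ∈ univ.erase Λ.k0, x k • toR (Λ.C k) =
        toR (y - ∑ k ∈ univ.erase Λ.k0, n k • Λ.C k) := by
      rw [toR_sub, toR_sum]
      exact congrArg (toR y - ·) (sum_congr rfl fun k _ => by rw [toR_zsmul, hn])
    change toR y - ∑ k ∈ univ.erase Λ.k0, x k • toR (Λ.C k) ∈ (ldN Λ G).Ef
    rw [hN] at e ⊢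
    generalize y - ∑ k ∈ univ.erase Λ.k0, n k • Λ.C k = N at e ⊢
    have hM : ∑ e ∈ I, max 0 (-ip Λ.B (toR N) (toR e)) • toR e =
        toR (∑ e ∈ I, (-ip Λ.B N e).toNat • e) := by
      rw [toR_sum]
      refine sum_congr rfl fun e _ => ?_
      rw [toR_nsmul, ip_toR, ← Int.cast_natCast, Int.toNat_eq_max, Int.cast_max, Int.cast_neg,
        Int.cast_zero, max_comm]
    rw [hM, ← toR_sub] at e
    have a := (h1.ne _ ((h1.nefr _).1 e)).2
    have b : ∑ e ∈ I, (-ip Λ.B N e).toNat • e ∈ Λ.Ef :=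
      sum_mem fun e he => nsmul_mem (i1 e he) _
    have := Λ.Ef.add_mem a b
    rw [sub_add_cancel] at this
    exact ld_ef this

end Pool.Agent.MP_20d318_ag.CH

end PartSkb

section PartXyp

/-! The coefficients with lower bounds. -/

set_option autoImplicit false
set_option linter.unusedSectionVars false

namespace Pool.Agent.MP_20d318_ag.CH

namespace Xyp

variable {κ R : Type} [Fintype κ] [Field R] [LinearOrder R] [IsStrictOrderedRing R]
  {a : κ → Fin 4 → R} {t : R} {xh p : κ → R} {q : Fin 4 → R}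

/-- The graph inequality after the subtraction. -/
theorem graph {c : Fin 4 → Fin 4 → R} {p q : Fin 4 → R} {s t : R} (hr : ∀ k, ∑ j, c k j ≤ t)
    (hp : ∀ (e : Equiv.Perm (Fin 4)) j j', c (e 0) j + c (e 1) j + c (e 2) j' + c (e 3) j' ≤ s)
    (hg : ∑ j, c j j ≤ s + t) (p0 : ∀ k, 0 ≤ p k) (pa : ∀ k j, p k ≤ c k j)
    (qa : ∀ k j, q j ≤ c k j) :
    ∑ j, max 0 (c j j - p j - q j) ≤ s - ∑ k, p k + (t - ∑ j, q j) := by
  by_cases h : ∀ j, 0 ≤ c j j - p j - q j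
  · simp only [max_eq_right (h _), Finset.sum_sub_distrib]
    linarith
  · obtain ⟨m, hm⟩ := not_forall.1 h
    have e3 : Equiv.swap 3 m 3 = m := Equiv.swap_apply_left _ _
    generalize Equiv.swap 3 m = e at e3
    have sm : ∀ f : Fin 4 → R, ∑ x, f x = f (e 0) + f (e 1) + f (e 2) + f m := fun f => by
      rw [← Equiv.sum_comp e f, Fin.sum_univ_four, e3]
    have c0 : ∀ k j, 0 ≤ c k j := fun k j => (p0 k).trans (pa k j)
    have b1 : ∀ i j, max 0 (c i i - p i - q i) ≤ c i i + c i j - p i - q i := fun i j =>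
      max_le (by linarith [qa i i, pa i j]) (by linarith [c0 i j])
    have b2 : ∀ i j, max 0 (c j j - p j - q j) ≤ c j j + c i j - p j - q j := fun i j =>
      max_le (by linarith [qa i j, pa j j]) (by linarith [c0 i j])
    have h1 := hr (e 1)
    have h2 := hp e (e 0) (e 2)
    rw [sm] at h1
    rw [e3] at h2
    rw [sm, sm p, sm q, max_eq_left (not_le.1 hm).le]
    linarith [b1 (e 1) (e 0), b2 (e 1) (e 0), b2 (e 1) (e 2), pa m (e 2), qa (e 1) m]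

/-- Removal of the largest row. -/
theorem optA [Nonempty κ] (p0 : ∀ k, 0 ≤ p k) (pa : ∀ k j, p k ≤ a k j) (qa : ∀ k j, q j ≤ a k j)
    (ht : ∀ k, ∑ j, a k j ≤ t) (ub : ∀ k j, a k j ≤ xh k) :
    ∃ (x : κ → R) (y : Fin 4 → R), (∀ k, 0 ≤ x k) ∧ (∀ j, q j ≤ y j) ∧
      (∀ k j, a k j ≤ x k + y j) ∧ ∑ j, y j ≤ t ∧ (∀ k, x k ≤ xh k) ∧
      (∃ i₀, ∀ i, i ≠ i₀ → p i ≤ x i) ∧ ∀ k, ∑ l, x l + xh k ≤ ∑ l, xh l := by
  classical
  obtain ⟨m, hm⟩ := Finite.exists_max xh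
  have h0 : ∀ k j, 0 ≤ a k j := fun k j => (p0 k).trans (pa k j)
  have hx : ∀ k, 0 ≤ xh k := fun k => (h0 k 0).trans (ub k 0)
  refine ⟨Function.update xh m 0, a m, fun k => ?_, qa m, fun k j => ?_, ht m, fun k => ?_,
    ⟨m, fun i hi => ?_⟩, fun k => ?_⟩
  · by_cases e : k = m
    · simp [e]
    · simp [e, hx]
  · by_cases e : k = m
    · simp [e]
    · rw [Function.update_of_ne e]
      exact (ub k j).trans (le_add_of_nonneg_right (h0 m j))
  · by_cases e : k = m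
    · simp [e, hx]
    · simp [e]
  · rw [Function.update_of_ne hi]
    exact (pa i 0).trans (ub i 0)
  · rw [Finset.sum_update_of_mem (Finset.mem_univ m), zero_add, Finset.sdiff_singleton_eq_erase,
      ← Finset.sum_erase_add _ xh (Finset.mem_univ m)]
    exact add_le_add_right (hm k) _

/-- The linear program with lower bounds. -/
theorem lpp (lp : CC.LpStmt) {c : Fin 4 → Fin 4 → R} {p q : Fin 4 → R} {s t : R}
    (hr : ∀ k, ∑ j, c k j ≤ t)
    (hp : ∀ (e : Equiv.Perm (Fin 4)) j j', c (e 0) j + c (e 1) j + c (e 2) j' + c (e 3) j' ≤ s)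
    (hg : ∀ e : Equiv.Perm (Fin 4), ∑ j, c (e j) j ≤ s + t) (p0 : ∀ k, 0 ≤ p k)
    (q0 : ∀ j, 0 ≤ q j) (pa : ∀ k j, p k ≤ c k j) (qa : ∀ k j, q j ≤ c k j) :
    ∃ x y : Fin 4 → R, (∀ k, p k ≤ x k) ∧ (∀ j, q j ≤ y j) ∧ (∀ k j, c k j ≤ x k + y j) ∧
      ∑ j, y j ≤ t ∧ ∑ k, x k ≤ s ∧ ∀ k, ∃ j, x k ≤ c k j := by
  have b1 : ∀ k j, max 0 (c k j - p k - q j) ≤ c k j - q j := fun k j =>
    max_le (by linarith [qa k j]) (by linarith [p0 k])
  have b2 : ∀ k j, max 0 (c k j - p k - q j) ≤ c k j - p k := fun k j =>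
    max_le (by linarith [pa k j]) (by linarith [q0 j])
  obtain ⟨x, y, k1, k2, k3, k4, k5, k6⟩ := lp R (fun k j => max 0 (c k j - p k - q j))
    (t - ∑ j, q j) (s - ∑ k, p k) (fun _ _ => le_max_left _ _)
    (fun k => (Finset.sum_le_sum fun j _ => b1 k j).trans (by
      rw [Finset.sum_sub_distrib]
      linarith [hr k]))
    (fun e j j' => by
      rw [← Equiv.sum_comp e p, Fin.sum_univ_four]
      linarith [hp e j j', b2 (e 0) j, b2 (e 1) j, b2 (e 2) j', b2 (e 3) j'])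
    (fun e => by
      rw [← Equiv.sum_comp e p]
      exact graph (c := fun k => c (e k)) (fun k => hr _) (fun e' => hp (e'.trans e)) (hg e)
        (fun k => p0 _) (fun k => pa _) fun k => qa _)
  refine ⟨fun k => p k + x k, fun j => q j + y j, fun k => le_add_of_nonneg_right (k1 k),
    fun j => le_add_of_nonneg_right (k2 j), fun k j => ?_, ?_, ?_, fun k => ?_⟩
  · linarith [k3 k j, le_max_right 0 (c k j - p k - q j)]
  · rw [Finset.sum_add_distrib]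
    linarith
  · rw [Finset.sum_add_distrib]
    linarith
  · obtain ⟨j, hj⟩ := k6 k
    exact ⟨j, by linarith [b2 k j]⟩

/-- The solution of the linear program. -/
theorem optB (lp : CC.LpStmt) (e0 : Fin 4 ≃ κ) (p0 : ∀ k, 0 ≤ p k) (q0 : ∀ j, 0 ≤ q j)
    (pa : ∀ k j, p k ≤ a k j) (qa : ∀ k j, q j ≤ a k j) (ht : ∀ k, ∑ j, a k j ≤ t)
    (ub : ∀ k j, a k j ≤ xh k) :
    ∃ (x : κ → R) (y : Fin 4 → R), (∀ k, p k ≤ x k) ∧ (∀ j, q j ≤ y j) ∧
      (∀ k j, a k j ≤ x k + y j) ∧ ∑ j, y j ≤ t ∧ (∀ k, x k ≤ xh k) ∧ ∀ s : R,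
      (∀ (e : Fin 4 ≃ κ) j j', a (e 0) j + a (e 1) j + a (e 2) j' + a (e 3) j' ≤ s) →
      (∀ e : Fin 4 ≃ κ, ∑ j, a (e j) j ≤ s + t) → ∑ k, x k ≤ s := by
  obtain ⟨u, hu⟩ := Finite.exists_max fun u : Equiv.Perm (Fin 4) × Fin 4 × Fin 4 =>
    a (e0 (u.1 0)) u.2.1 + a (e0 (u.1 1)) u.2.1 + a (e0 (u.1 2)) u.2.2 + a (e0 (u.1 3)) u.2.2
  obtain ⟨w, hw⟩ := Finite.exists_max fun w : Equiv.Perm (Fin 4) => ∑ j, a (e0 (w j)) j
  obtain ⟨x, y, k1, k2, k3, k4, k5, k6⟩ := lpp lp (c := fun k => a (e0 k)) (t := t)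
    (p := fun k => p (e0 k)) (q := q)
    (s := max (a (e0 (u.1 0)) u.2.1 + a (e0 (u.1 1)) u.2.1 + a (e0 (u.1 2)) u.2.2 +
      a (e0 (u.1 3)) u.2.2) (∑ j, a (e0 (w j)) j - t)) (fun k => ht _)
    (fun e j j' => (hu (e, j, j')).trans (le_max_left _ _))
    (fun e => (hw e).trans (sub_le_iff_le_add.1 (le_max_right _ _))) (fun k => p0 _) q0
    (fun k => pa _) fun k => qa _
  refine ⟨fun k => x (e0.symm k), y, fun k => ?_, k2, fun k j => ?_, k4, fun k => ?_,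
    fun s h1 h2 => ?_⟩
  · simpa using k1 (e0.symm k)
  · simpa using k3 (e0.symm k) j
  · obtain ⟨j, hj⟩ := k6 (e0.symm k)
    exact hj.trans (by simpa using ub k j)
  · rw [Equiv.sum_comp e0.symm x]
    exact k5.trans (max_le (h1 (u.1.trans e0) _ _) (sub_le_iff_le_add.2 (h2 (w.trans e0))))

end Xyp

theorem xyp_stmt : XypStmt := by
  intro lp R κ _ _ _ _ _ a t p q ht p0 q0 pa qa
  choose j hj using fun k => Finite.exists_max (a k)
  obtain ⟨x, y, k1, k2, k3, k4, k5, k7, k6⟩ :=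
    Xyp.optA (xh := fun k => a k (j k)) p0 pa qa ht hj
  have k0 : ∀ j, 0 ≤ y j := fun j => (q0 j).trans (k2 j)
  by_cases he : Nonempty (Fin 4 ≃ κ)
  · obtain ⟨x', y', l1, l2, l3, l4, l5, l6⟩ :=
      Xyp.optB (xh := fun k => a k (j k)) lp he.some p0 q0 pa qa ht hj
    rcases le_total (∑ k, x k) (∑ k, x' k) with h | h
    · exact ⟨_, x, y, ⟨k1, k0, k3, k4, fun k => ⟨_, rfl⟩, hj, k5, k6,
        fun s _ h1 h2 => h.trans (l6 s h1 h2)⟩, k2, k7⟩
    · exact ⟨_, x', y', ⟨fun k => (p0 k).trans (l1 k), fun j => (q0 j).trans (l2 j), l3, l4,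
        fun k => ⟨_, rfl⟩, hj, l5, fun k => (add_le_add_left h _).trans (k6 k),
        fun s _ => l6 s⟩, l2, he.some 0, fun i _ => l1 i⟩
  · exact ⟨_, x, y, ⟨k1, k0, k3, k4, fun k => ⟨_, rfl⟩, hj, k5, k6, fun s h => absurd h he⟩, k2, k7⟩

end Pool.Agent.MP_20d318_ag.CH

end PartXyp
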