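import Pool.Agent.MP_20d318_ag.CH.BSpec

section PartBs0

/-! The surface satisfies the induction hypothesis. -/

set_option autoImplicit false
set_option linter.unusedSectionVars false

namespace Pool.Agent.MP_20d318_ag.CH

open Pool.Agent.MP_fd6584_ag.Fn Pool.Agent.CBk
open Pool.Agent.MP_fd6584_ag.AG hiding deg_inv deg_congr deg_of_unit deg_mul deg_prod deg_zpow
  deg_eq_zero deg_nonneg deg_div deg_pow
open Pool.Agent.MP_20d318_ag.CB.P (Pd Pair0 Cht Jc)

namespace Bs0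

variable {k M I κ : Type} [Field k] [Field M] [Algebra k M] [Fintype I] [Fintype κ]
  {p : Pd k M I κ}

theorem range_pair (a b : M) : Set.range ![a, b] = {a, b} := by
  ext z
  simp only [Set.mem_insert_iff, Set.mem_singleton_iff, Set.mem_range, Fin.exists_fin_two,
    Matrix.cons_val_zero, Matrix.cons_val_one, eq_comm]

theorem smo {O : Subalgebra k M} {a b : M} (h : Cht O a b) : Algebra.FormallySmooth k O := by
  refine (et_stmt k M 2 ![a, b] (![a, b] 0) (MvPolynomial.X none - MvPolynomial.X (some 0)) O h.1.ind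
    (by simp) ?_ ?_).1
  · rw [Set.insert_eq_of_mem (Set.mem_range_self 0), range_pair]
    exact h.2
  · have e : MvPolynomial.pderiv none (MvPolynomial.X none - MvPolynomial.X (some 0) :
        MvPolynomial (Option (Fin 2)) k) = 1 := by simp
    rw [e, map_one]
    exact isU_one

theorem gens (hJ : Jc k M) {O : Subalgebra k M} {a b : M} (h : Cht O a b)
    (δ : Derivation k M (Fin 2 → M)) : Gens O δ ![a, b] := by
  refine ⟨fun i => h.2.2.1 (Algebra.subset_adjoin (range_pair a b ▸ Set.mem_range_self i)),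
    fun c hc => ?_⟩
  obtain ⟨r, hr, s, hs, e⟩ := hJ.mem O a b h c hc
  refine ⟨![r, s], fun i => by fin_cases i <;> assumption, funext fun i => ?_⟩
  have := e ((LinearMap.proj i : (Fin 2 → M) →ₗ[M] M).compDer δ)
  rw [Fin.sum_univ_two]
  exact this

theorem dt_mul (hD : Der) (h : Pair0 p) (δ : Derivation k M (Fin 2 → M))
    (hδ : ∀ i, δ (![p.x, p.y] i) = Pi.single i 1) (a b : M) :
    p.j p.x p.y * dt δ ![a, b] = p.j a b := by
  have ht : IntermediateField.adjoin k (Set.range ![p.x, p.y]) = ⊤ := by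
    rw [range_pair]; exact h.gen.top
  have c : ∀ (Δ : Derivation k M M) (c : M), Δ c = δ c 0 * Δ p.x + δ c 1 * Δ p.y := fun Δ c => by
    have := hD.chain k M M M 2 ![p.x, p.y] δ (AlgHom.id k M) Δ ht hδ c
    rw [Fin.sum_univ_two] at this
    exact this
  have e : dt δ ![a, b] = δ a 0 * δ b 1 - δ a 1 * δ b 0 := Matrix.det_fin_two _
  rw [e]
  unfold Pd.j RS.jac
  rw [c p.D₁ a, c p.D₁ b, c p.D₂ a, c p.D₂ b]
  ring

theorem okA (h : Pair0 p) : OkA (lv0 p) where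
  ne := ⟨p.k0⟩
  fam := h.all.s.fam
  φne := h.φne
  cs i := (h.prm i).elim fun _ hP => h.all.a1.pcart _ _ hP.1
  cj := h.all.a1.pcart _ _ h.ωne
  eqn := h.eqn
  sm _ hR i := CC.s_mem h hR i
  one := h.one
  uniq i P P' hP hP' m m' := (h.prm i).elim fun Q hQ =>
    (h.all.a1.peq _ _ Q hQ P hP m).trans (h.all.a1.peq _ _ Q hQ P' hP' m').symm
  fU := h.fU
  fU' := h.fU'.image _
  nU := h.nU
  nU' := by
    rintro _ ⟨a, ha, rfl⟩
    exact mul_ne_zero h.φne (h.nU' a ha)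
  gU := h.gU
  gU' R hR := by
    have g := (h.gU' R hR).smul h.φne
    rw [← mul_div_assoc, mul_div_mul_left _ _ h.φne] at g
    exact g

end Bs0

open Bs0 in
theorem bs0_stmt : Bs0Stmt := by
  intro hD k M I κ _ _ _ _ _ _ _ p h hT
  refine ⟨okA h, h.gen.ind, ?_, fun i => ?_, fun l h0 h1 => CB.P.mw_stmt k M I κ p l h h0 h1,
    fun R hR => ?_, fun R hR => CB.P.XSmA.crd h hR (mp_loc hR), p.j p.x p.y, h.jne,
    fun δ hδ O hO => ?_⟩
  · exact (congrArg _ (range_pair p.x p.y)).trans h.gen.top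
  · obtain ⟨P, hP⟩ := h.prm i
    obtain ⟨O, hO, hr, hle⟩ := hT.rat P hP.2.1
    exact ⟨O, hO, hr, (h.all.a1.pmx _ _ P hP O hO).2 hle⟩
  · obtain ⟨a, b, hc⟩ := h.all.a1.chart R hR
    exact smo hc
  · obtain ⟨a, b, hc⟩ := h.all.a1.chart O hO
    refine ⟨![a, b], gens h.all.jc hc δ, ?_⟩
    have u := h.chart O hO a b hc
    rw [← dt_mul hD h δ hδ a b, mul_div_right_comm] at u
    exact u

end Pool.Agent.MP_20d318_ag.CH

end PartBs0

section PartIso0

/-! The numerical data of the surface is that of its lattice. -/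

set_option autoImplicit false
set_option linter.unusedSectionVars false

namespace Pool.Agent.MP_20d318_ag.CH

open Pool.Agent.MP_fd6584_ag.Fn Pool.Agent.CBk
open Pool.Agent.MP_fd6584_ag.AG hiding deg_inv deg_congr deg_of_unit deg_mul deg_prod deg_zpow
  deg_eq_zero deg_nonneg deg_div deg_pow
open Pool.Agent.MP_20d318_ag.CB (ip toR act)
open Pool.Agent.MP_20d318_ag.CB.P (Pd Pair0 Sg Sd SAll)

namespace Iso0

variable {k M I κ : Type} [Field k] [Field M] [Algebra k M] [Fintype I] [Fintype κ]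

/-- The class map. -/
noncomputable def ps (S : Sd k M I) : (I → ℝ) →ₗ[ℝ] N1 S.T :=
  Fintype.linearCombination ℝ fun i => cl S.T (S.g i)

open Classical in
theorem lb_single (S : Sd k M I) (i : I) : S.lb (Pi.single i 1) = S.g i := by
  funext O
  unfold Sd.lb
  rw [Finset.prod_eq_single i (fun j _ hj => by rw [Pi.single_eq_of_ne hj, zpow_zero])
    (fun h => absurd (Finset.mem_univ i) h), Pi.single_eq_same, zpow_one]

open Classical in
theorem toR_single (i : I) : toR (Pi.single i 1 : I → ℤ) = Pi.single i 1 := by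
  funext j
  by_cases h : j = i
  · subst h; simp [toR]
  · simp [toR, Pi.single_eq_of_ne h]

variable {S : Sd k M I} [IsAlgClosed k]

theorem good (h : SAll S) : Good S.T := h.a1.nice.toFine.toGood

theorem ps_val (h : SAll S) (ν : Curve S.T) (x : I → ℝ) :
    ν.lin (ps S x) = ip S.B x (toR (S.zz ν)) := by
  classical
  have e : x = ∑ i, x i • toR (Pi.single i 1 : I → ℤ) := by
    simp only [toR_single]
    exact pi_eq_sum_univ' x
  rw [ps, Fintype.linearCombination_apply, map_sum]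
  conv_rhs => rw [e, CB.ip_sum_left]
  refine Finset.sum_congr rfl fun i _ => ?_
  rw [map_smul, CB.ip_smul_left, cl_val (h.s.cartg i), CB.ip_toR, ← h.a1.zzd, lb_single,
    smul_eq_mul]

theorem ps_toR (h : SAll S) (c : I → ℤ) : ps S (toR c) = cl S.T (S.lb c) :=
  n1_ext fun ν => by rw [ps_val h, cl_val (h.a1.cart c), h.a1.zzd, CB.ip_toR]

theorem cl_cmul (h : SAll S) (c : I → ℤ) {φ : M} (hφ : φ ≠ 0) :
    ps S (toR c) = cl S.T fun O => φ * S.lb c O :=
  n1_ext fun ν => by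
    rw [ps_toR h, cl_val (h.a1.cart c), cl_val (h.a1.pcart c φ hφ),
      deg_cmul (good h) (h.a1.cart c) hφ]

theorem cl_of (h : SAll S) {c : I → ℤ} {φ : M} {f : Subalgebra k M → M} (hf : IsCart S.T f)
    (hφ : φ ≠ 0) (hu : ∀ O ∈ S.T, IsU O (φ * S.lb c O / f O)) : ps S (toR c) = cl S.T f :=
  n1_ext fun ν => by
    rw [cl_cmul h c hφ, cl_val (h.a1.pcart c φ hφ), cl_val hf,
      deg_congr (good h) (h.a1.pcart c φ hφ) hf hu]

theorem ex_cls (h : SAll S) (D : Cartier S.T) : ∃ c, ps S (toR c) = D.n1 := by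
  obtain ⟨c, φ, h1, h2⟩ := h.a2.pic D.f D.isCart
  exact ⟨c, (cl_of h D.isCart h1 h2).trans (n1_eq D).symm⟩

theorem surj (h : SAll S) : Function.Surjective (ps S) := by
  refine LinearMap.range_eq_top.1 (eq_top_iff.2 ?_)
  rw [← span_cl]
  refine Submodule.span_le.2 ?_
  rintro _ ⟨D, rfl⟩
  obtain ⟨c, hc⟩ := ex_cls h D
  exact ⟨_, hc⟩

theorem ex_cur (h : SAll S) {c : I → ℤ} (hc : c ∈ S.PP) : ∃ ν : Curve S.T, S.zz ν = c := by
  obtain ⟨φ, P, hP⟩ := hc
  obtain ⟨ν, h1, h2, -⟩ := h.a1.cur P hP.2.1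
  exact ⟨ν, by rw [h.a1.zz1 c φ P hP ν h1, h2, one_smul]⟩

theorem gg_ef (h : SAll S) (hn : S.T.Nonempty) {c : I → ℤ} (hc : S.GG c) : c ∈ S.Ef := by
  obtain ⟨U, -, h2, h3⟩ := hc
  obtain ⟨O, hO⟩ := hn
  obtain ⟨a, ha, -⟩ := (h3 O hO).2
  exact h.a2.eff1 c a (fun O' hO' => by simpa using (h3 O' hO').1 a ha) (h2 a ha)

theorem inj (h : SAll S) (hn : S.T.Nonempty) : Function.Injective (ps S) := by
  refine (injective_iff_map_eq_zero _).2 fun x hx => ?_
  have h1 : ∀ c ∈ S.Ef, ip S.B x (toR c) = 0 := fun c hc => by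
    induction hc using AddSubmonoid.closure_induction with
    | mem c hc =>
      obtain ⟨ν, rfl⟩ := ex_cur h hc
      rw [← ps_val h, hx, map_zero]
    | zero => rw [CB.toR_zero, CB.ip_zero_right]
    | add a b _ _ ha hb => rw [CB.toR_add, CB.ip_add_right, ha, hb, add_zero]
  refine (CB.hg_stmt I S.B h.s.sym h.s.hodge).nd x fun y => ?_
  obtain ⟨c, a, b⟩ := h.s.dif y
  have h2 := h1 _ (gg_ef h hn b)
  rwa [CB.toR_add, CB.ip_add_right, h1 _ (gg_ef h hn a), zero_add] at h2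

theorem lam (h : SAll S) (hn : S.T.Nonempty) (x : I → ℝ) :
    ps S x ∈ AddSubgroup.closure (Set.range Cartier.n1) ↔ x ∈ zL I := by
  constructor
  · intro hx
    have h1 : AddSubgroup.closure (Set.range (Cartier.n1 (X := S.T))) ≤
        (zL I).map (ps S).toAddMonoidHom := by
      refine (AddSubgroup.closure_le _).2 ?_
      rintro _ ⟨D, rfl⟩
      obtain ⟨c, hc⟩ := ex_cls h D
      exact ⟨toR c, ⟨c, rfl⟩, hc⟩
    obtain ⟨y, hy, e⟩ := h1 hx
    exact inj h hn e ▸ hy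
  · rintro ⟨c, rfl⟩
    rw [ps_toR h]
    exact cl_mem (h.a1.cart c)

theorem cone_ef {c : I → ℤ} (hc : c ∈ S.Ef) : toR c ∈ Lat.cone (toR '' S.PP) := by
  induction hc using AddSubmonoid.closure_induction with
  | mem x hx => exact Lat.subset_cone _ ⟨x, hx, rfl⟩
  | zero => rw [CB.toR_zero]; exact (Lat.isCone_cone _).zero
  | add x y _ _ hx hy => rw [CB.toR_add]; exact (Lat.isCone_cone _).add _ hx _ hy

theorem ef (h : SAll S) (hn : S.T.Nonempty) (x : I → ℝ) :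
    ps S x ∈ Glue.Ef S.T ↔ x ∈ Lat.cone (toR '' S.PP) := by
  constructor
  · intro hx
    have h1 : Glue.Ef S.T ⊆ ps S '' Lat.cone (toR '' S.PP) := by
      refine ((Lat.isCone_cone _).image (ps S)).cone_subset ?_
      rintro _ ⟨D, hD, rfl⟩
      obtain ⟨c, φ, h1, h2⟩ := h.a2.pic D.f D.isCart
      refine ⟨toR c, cone_ef (h.a2.eff1 c φ (fun O hO => ?_) h1),
        (cl_of h D.isCart h1 h2).trans (n1_eq D).symm⟩
      have h3 := O.mul_mem (h2 O hO).mem (hD O hO)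
      rwa [div_mul_cancel₀ _ (D.isCart.ne hO)] at h3
    obtain ⟨y, hy, e⟩ := h1 hx
    exact inj h hn e ▸ hy
  · intro hx
    refine ((Lat.isCone_cone _).preimage (ps S)).cone_subset ?_ hx
    rintro _ ⟨c, ⟨φ, P, hP⟩, rfl⟩
    have h1 := cl_eff (h.a1.pcart c φ hP.1) (h.a1.pmem c φ P hP)
    rwa [← cl_cmul h c hP.1] at h1

theorem aut (h : SAll S) {σ : M ≃ₐ[k] M} {ρ : Matrix I I ℤ} (h1 : CB.P.Inv S σ)
    (h2 : CB.P.Rep S σ ρ) (x : I → ℝ) :
    Aut.n1 (X := S.T) ⟨σ, h1⟩ (ps S x) = ps S (actR ρ x) := by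
  classical
  have h3 : ∀ c, Aut.n1 (X := S.T) ⟨σ, h1⟩ (ps S (toR c)) = ps S (actR ρ (toR c)) := fun c => by
    obtain ⟨μ, h4, h5⟩ := h2 c
    rw [ps_toR h, cl_eq (h.a1.cart c), Aut.n1_n1, n1_eq]
    refine (cl_of (c := act ρ c) h (Cartier.isCart _) h4 fun O hO => ?_).symm.trans
      (congrArg _ ?_)
    · have h6 := (h5 O hO).inv
      rw [inv_div] at h6
      exact h6
    · exact CB.toR_act ρ c
  have h4 : (Aut.n1 (X := S.T) ⟨σ, h1⟩).comp (ps S) = (ps S).comp (actR ρ) :=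
    (Pi.basisFun ℝ I).ext fun i => by
      rw [Pi.basisFun_apply, ← toR_single]
      exact h3 _
  exact LinearMap.congr_fun h4 x

end Iso0

open Iso0 in
theorem iso_stmt : IsoStmt := by
  intro k M I κ _ _ _ _ _ _ _ p G hp hG
  have h : SAll p.toSd := hp.all
  have hn : p.T.Nonempty := by
    obtain ⟨P, hP⟩ := hp.prm p.k0
    exact ⟨_, hP.2.1⟩
  refine ⟨LinearEquiv.ofBijective (ps p.toSd) ⟨inj h hn, surj h⟩,
    ⟨lam h hn, ef h hn, fun i => ?_, fun ν => ?_, fun c => ?_, ?_⟩, ps_val h⟩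
  · obtain ⟨P, hP⟩ := hp.prm i
    exact cl_cmul h (p.C i) hP.1
  · rcases h.a1.cases ν with hr | ⟨P, hP⟩
    · exact Or.inl fun x => LinearMap.congr_fun (lin_rat hr) x
    · obtain ⟨c, φ, hc⟩ := h.s.all P (hP ▸ ν.gen_mem)
      refine Or.inr ⟨⟨c, φ, P, hc⟩, CB.P.nu ν, Nat.cast_pos.2 (h.a1.nupos ν P hP), fun x => ?_⟩
      refine (ps_val h ν x).trans ?_
      rw [h.a1.zz1 c φ P hc ν hP, CB.toR_nsmul, CB.ip_smul_right]
      rfl
  · obtain ⟨ν, hν⟩ := ex_cur h c.2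
    refine ⟨ν, 1, one_pos, fun x => (ps_val h ν x).trans ?_⟩
    rw [hν, one_mul]
    rfl
  · rintro _ ⟨ρ, hρ, rfl⟩
    obtain ⟨σ, hσ⟩ := hG ρ hρ
    obtain ⟨r, h1, h2⟩ := hσ.sq
    exact ⟨_, ⟨⟨σ, hσ.inv⟩, r, ⟨h1, h2, hσ.st⟩, rfl⟩, aut h hσ.inv hσ.rep⟩

end Pool.Agent.MP_20d318_ag.CH

end PartIso0

section PartTh0

/-! TH0: the inequalities given by graphs. -/

set_option autoImplicit false
set_option linter.unusedSectionVars false

namespace Pool.Agent.MP_20d318_ag.CH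

open Pool.Agent.MP_fd6584_ag.Fn Pool.Agent.CBk
open Pool.Agent.MP_fd6584_ag.AG hiding deg_inv deg_congr deg_of_unit deg_mul deg_prod deg_zpow
  deg_eq_zero deg_nonneg deg_div deg_pow
open Pool.Agent.MP_20d318_ag.CB (ip toR ip_nsmul_right toR_nsmul ip_smul_right)
open Pool.Agent.MP_20d318_ag.CB.P (Pd Pair0 Sg nu)

namespace Th0

variable {k M I κ : Type} [Field k] [Field M] [Algebra k M] [Fintype I] [Fintype κ]
  {p : Pd k M I κ} {b A : I → ℤ} {σ : Fin 4 ≃ κ} {l : k} {s₀ s₃ φ : M} {P : Place k M}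

theorem g2 (h : Pair0 p) (g : CC.G1 p b σ l A s₀ s₃ φ P) : G2 (lv0 p) l σ s₀ s₃ P := by
  have hP : plO P ∈ p.T := g.prm.2.1
  refine ⟨hP, fun i => isU_of_not_mx (CC.s_mem h hP i) fun hm => ?_, fun R hR hle =>
    ⟨p.lb A R, p.lb_ne (h.all.a1.gne R hR) A, fun j => ⟨?_, g.cg j R hR hle⟩⟩⟩
  · obtain ⟨P', hP'⟩ := h.prm i
    obtain rfl := h.all.a1.peq _ _ _ hP' P hP hm
    have e := h.all.a1.uniq _ _ _ _ _ hP' g.prm
    have h1 := g.Cb i
    rw [e, g.bb] at h1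
    exact zero_ne_one h1
  · have hm : ![s₀, s₀ - s₃, s₀ - l • s₃, s₃] j ∈ p.Sec A := by
      fin_cases j
      exacts [g.m0, sub_mem g.m0 g.m3, sub_mem g.m0 (Submodule.smul_mem _ l g.m3), g.m3]
    exact hm R hR

theorem deg_s [IsAlgClosed k] (h : Pair0 p) (g : CC.G1 p b σ l A s₀ s₃ φ P) (ν : Curve p.T)
    (hν : ν.gen = plO P) (i : κ) : ν.deg (p.s i) = nu ν := by
  have h1 := deg_mul h.all.a1.nice.toGood (isCart_const (h.prm i).choose_spec.1)
    (h.all.a1.cart (p.C i)) ν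
  rw [deg_const, zero_add, h.all.a1.zzd, h.all.a1.zz1 _ _ _ g.prm ν hν, ip_nsmul_right, g.Cb,
    mul_one] at h1
  exact h1

end Th0

open Th0 in
theorem th0_stmt : Th0Stmt := by
  intro ga gb k M K I κ _ _ _ _ _ _ _ _ _ p ψ ι l ζ w e h hp hψ hG D hD b hb σ
  classical
  obtain ⟨A, s₀, s₃, φ, P, g⟩ := hG b hb σ
  have hP : plO P ∈ p.T := g.prm.2.1
  obtain ⟨ν, h1, h2⟩ := ga k M K Unit κ 0 (lv0 p) ι l ζ w e h P (s₀ / s₃) hP
    (hp.all.a1.dim P hP).2 g.ind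
  obtain ⟨h3, h4⟩ := gb k M K Unit κ 0 (lv0 p) ι l ζ w e h σ s₀ s₃ P ν (g2 hp g) h1 h2
  have hg : (h.pj ν).gen = plO P := h1
  have hn : (0 : ℝ) < nu (h.pj ν) := Nat.cast_pos.2 (hp.all.a1.nupos _ P hg)
  have hS : ∀ i, ν.deg (sX (lv0 p) ι i) = nu (h.pj ν) := fun i =>
    (h.pj_deg ν (h.ok.cs i)).symm.trans (deg_s hp g _ hg i)
  have h5 : 0 ≤ (nx (lv0 p) ι l ζ w e).nd.d ν (h.Phi D) := hD ν
  have h6 : (lv0 p).nd.d (h.pj ν) D.1 = nu (h.pj ν) * ip p.B (ψ.symm D.1) (toR b) := by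
    have h7 : p.zz (h.pj ν) = nu (h.pj ν) • b := hp.all.a1.zz1 _ _ _ g.prm _ hg
    have h8 := hψ (h.pj ν) (ψ.symm D.1)
    rw [ψ.apply_symm_apply, h7, toR_nsmul, ip_smul_right] at h8
    exact h8
  have h9 : ∑ i, ∑ j, D.2.2 i j * (ν.deg (EE (lv0 p) ι l ζ i j) : ℝ) =
      nu (h.pj ν) * ∑ j, D.2.2 (σ j) j := by
    rw [Finset.sum_comm, Finset.mul_sum]
    refine Finset.sum_congr rfl fun j _ => ?_
    rw [Finset.sum_eq_single (σ j) (fun i _ hi => by rw [h4, if_neg hi, Int.cast_zero, mul_zero])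
      (by simp), h4, if_pos rfl, hS, Int.cast_natCast, mul_comm]
  rw [h.phi_d, h6, h9, h3 0, hS, Int.cast_natCast] at h5
  change ∑ j, D.2.2 (σ j) j ≤ ip p.B (ψ.symm D.1) (toR b) + D.2.1
  refine le_of_mul_le_mul_left ?_ hn
  linarith

end Pool.Agent.MP_20d318_ag.CH

end PartTh0
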