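import Pool.Agent.MP_20d318_ag.CH.Fin
import Pool.Agent.MP_20d318_ag.CH.Rows
import Pool.Agent.MP_20d318_ag.CH.RowsB
import Pool.Agent.MP_20d318_ag.CH.RowsS
import Pool.Agent.MP_20d318_ag.CC.Main

/-! All rows hold. -/

set_option autoImplicit false

namespace Pool.Agent.MP_20d318_ag.CH

theorem bmods : BMods := ⟨CC.gmods, CC.lmodsC, tr_stmt, skb_stmt, cvb_stmt, xyp_stmt, gkc_stmt,
  gra_stmt, grb_stmt, bs0_stmt, iso_stmt, th0_stmt⟩

end Pool.Agent.MP_20d318_ag.CH
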