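import Pool.Agent.MP_20d318_ag.CH.Spec

/-! Row MW: rational points on the twisted curves of the next level. -/

set_option autoImplicit false
set_option linter.unusedSectionVars false

namespace Pool.Agent.MP_20d318_ag.CH

open Polynomial

theorem mw_stmt : MwStmt := by
  intro k M K _ _ _ _ _ _ φ ι l l' ζ htr hrt hmw a b h
  obtain ⟨A, B, hB, rfl⟩ := hrt a
  obtain ⟨A', B', hB', rfl⟩ := hrt b
  by_contra hb
  have hA' : A' ≠ 0 := by
    rintro rfl
    exact hb (by rw [eval₂_zero, zero_div])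
  have e1 : B.eval₂ (ι : M →+* K) ζ ≠ 0 := fun e => hB (htr B e)
  have e2 : B'.eval₂ (ι : M →+* K) ζ ≠ 0 := fun e => hB' (htr B' e)
  have id : A' ^ 2 * B ^ 3 - C φ * (X * (X - 1) * (X - C (algebraMap k M l))) *
      (A * (A - B) * (A - C (algebraMap k M l') * B)) * B' ^ 2 = 0 := by
    refine htr _ ?_
    simp only [eval₂_sub, eval₂_mul, eval₂_pow, eval₂_C, eval₂_X, eval₂_one, RingHom.coe_coe,
      AlgHom.commutes]
    unfold cb at h
    field_simp at h
    linear_combination h
  have hQ : B * B' * A' * (X * (X - 1) * (X - C (algebraMap k M l))) ≠ 0 :=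
    mul_ne_zero (mul_ne_zero (mul_ne_zero hB hB') hA')
      (mul_ne_zero (mul_ne_zero X_ne_zero (X_sub_C_ne_zero 1)) (X_sub_C_ne_zero _))
  obtain ⟨c, hc⟩ : ∃ c : k, (B * B' * A' * (X * (X - 1) * (X - C (algebraMap k M l)))).eval
      (algebraMap k M c) ≠ 0 := by
    by_contra hn
    refine hQ (eq_zero_of_infinite_isRoot _
      ((Set.infinite_range_of_injective (algebraMap k M).injective).mono ?_))
    rintro _ ⟨c, rfl⟩
    exact not_not.1 fun e => hn ⟨c, e⟩
  obtain ⟨d, hd⟩ := IsAlgClosed.exists_pow_nat_eq (c * (c - 1) * (c - l)) two_pos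
  have hd' := congrArg (algebraMap k M) hd
  have id' := congrArg (eval (algebraMap k M c)) id
  simp only [map_pow, map_mul, map_sub, map_one] at hd'
  simp only [eval_sub, eval_mul, eval_pow, eval_C, eval_X, eval_one, eval_zero] at hc id'
  rw [← hd'] at hc id'
  obtain ⟨h1, h2⟩ := mul_ne_zero_iff.1 hc
  obtain ⟨h1, h3⟩ := mul_ne_zero_iff.1 h1
  obtain ⟨h1, h4⟩ := mul_ne_zero_iff.1 h1
  have h5 : algebraMap k M d ≠ 0 := fun e => h2 (by rw [e]; ring)
  have := hmw (A.eval (algebraMap k M c) / B.eval (algebraMap k M c))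
    (A'.eval (algebraMap k M c) / (B'.eval (algebraMap k M c) * algebraMap k M d)) (by
      unfold cb
      field_simp
      linear_combination id')
  exact div_ne_zero h3 (mul_ne_zero h4 h5) this

end Pool.Agent.MP_20d318_ag.CH
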