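import Pool.Agent.MP_20d318_ag.CH.LSpec

/-! The nef cone of the next level. -/

set_option autoImplicit false

namespace Pool.Agent.MP_20d318_ag.CH

universe u v u' v'

theorem n1a_stmt : N1AStmt.{u, v, u', v'} := by
  classical
  intro V 𝒞 V' 𝒞' κ _ _ _ _ _ N N' Φ 𝓗 h D
  refine ⟨fun hD => ?_, fun hD ν' => ?_⟩
  · have key : ∀ {ν' : 𝒞'} {n r : ℝ}, 0 < n → N'.d ν' (Φ D) = n * r → 0 ≤ r := fun {ν' n r} hn e =>
      (mul_nonneg_iff_of_pos_left hn).1 (e ▸ hD ν')
    have a0 : ∀ i j, 0 ≤ D.2.2 i j := fun i j => by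
      obtain ⟨ν', n, hn, e⟩ := h.s.tE i j
      exact key hn (e D)
    have c0 : ∀ j, D.1 - ∑ i, D.2.2 i j • N.c i ∈ N.Nef := fun j ν => by
      obtain ⟨ν', n, hn, e⟩ := h.s.tT ν j
      exact key hn (e D)
    refine ⟨⟨a0, fun i => ?_, fun ν => ?_, c0⟩, h.tH D hD⟩
    · obtain ⟨ν', n, hn, e⟩ := h.s.tC i
      exact sub_nonneg.1 (key hn (e D))
    · by_cases hc : ∃ i, N.d ν (N.c i) < 0
      · obtain ⟨i, hi⟩ := hc
        obtain ⟨ν', n, hn, e⟩ := h.s.tB ν i hi
        exact key hn (e D)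
      · push Not at hc
        have h1 := c0 0 ν
        rw [d_sub] at h1
        have := Finset.sum_nonneg fun i (_ : i ∈ Finset.univ) => mul_nonneg (a0 i 0) (hc i)
        linarith
  · obtain ⟨ν, τ, ε, ⟨t0, ty⟩, e⟩ := h.s.cur ν'
    obtain ⟨a0, r0, l0, c0⟩ := hD.1
    have l1 := l0 ν
    rw [e D]
    rcases ty with ⟨j, rfl, he⟩ | ⟨i, -, he⟩ | ⟨i, j, -, rfl, e0, -, he⟩ | ⟨e0, e1, e2⟩
    · have h1 := c0 j ν
      rw [d_sub] at h1
      simpa [he] using h1
    · have h1 : ∑ i', ∑ j, D.2.2 i' j * ε i' j = (∑ j, D.2.2 i j) * τ := by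
        rw [Finset.sum_eq_single i (fun i' _ hi => by simp [he, hi]) (by simp), Finset.sum_mul]
        simp [he]
      have := mul_le_mul_of_nonneg_right (r0 i) t0
      rw [h1]
      linarith
    · have h1 : ∑ i', ∑ j', D.2.2 i' j' * ε i' j' ≤ 0 :=
        Finset.sum_nonpos fun i' _ => Finset.sum_nonpos fun j' _ => by
          by_cases hh : i' = i ∧ j' = j
          · rw [hh.1, hh.2]
            exact mul_nonpos_of_nonneg_of_nonpos (a0 i j) e0
          · rw [he i' j' hh, mul_zero]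
      linarith
    · obtain ⟨x, y, x0, y0, xy, yt, hx, -⟩ := h.l.gk.cur ν D hD 0 0
        ⟨fun _ => le_rfl, fun _ => le_rfl, a0, a0⟩
      have h1 : 0 ≤ N.d ν D.1 - ∑ i, x i * N.d ν (N.c i) := d_sub ν D.1 _ x ▸ hx
      have h2 : ∑ i, ∑ j, D.2.2 i j * ε i j ≤ ∑ i, ∑ j, (x i * ε i j + y j * ε i j) :=
        Finset.sum_le_sum fun i _ => Finset.sum_le_sum fun j _ => by
          rw [← add_mul]; exact mul_le_mul_of_nonneg_right (xy i j) (e0 i j)
      have h3 : ∑ i, ∑ j, x i * ε i j ≤ ∑ i, x i * N.d ν (N.c i) :=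
        Finset.sum_le_sum fun i _ => by
          rw [← Finset.mul_sum]; exact mul_le_mul_of_nonneg_left (e1 i) (x0 i)
      have h4 : ∑ i, ∑ j, y j * ε i j ≤ (∑ j, y j) * τ := by
        rw [Finset.sum_comm, Finset.sum_mul]
        exact Finset.sum_le_sum fun j _ => by
          rw [← Finset.mul_sum]; exact mul_le_mul_of_nonneg_left (e2 j) (y0 j)
      have h5 := mul_le_mul_of_nonneg_right yt t0
      simp only [Finset.sum_add_distrib] at h2
      linarith

end Pool.Agent.MP_20d318_ag.CH
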