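import Pool.Agent.MP_20d318_ag.CH.LSpec

/-! The cover and the span on the next level. -/

set_option autoImplicit false

namespace Pool.Agent.MP_20d318_ag.CH

open Pool.Agent.MP_20d318_ag.Lat

universe u v u' v'

namespace N1b

variable {V : Type u} {𝒞 : Type v} {V' : Type u'} {𝒞' : Type v'} {κ : Type} [AddCommGroup V]
  [Module ℝ V] [AddCommGroup V'] [Module ℝ V'] [Fintype κ] {N : Nd V 𝒞 κ}
  {N' : Nd V' 𝒞' (κ ⊕ Fin 4)} {Φ : WW V κ →ₗ[ℝ] V'} {𝓗 : Set (WW V κ)}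

theorem ident (N : Nd V 𝒞 κ) (D : WW V κ) (x : κ → ℝ) (y : Fin 4 → ℝ) :
    D = (D.1 - ∑ i, x i • N.c i, 0, 0) + (D.2.1 - ∑ j, y j) • ((0, 1, 0) : WW V κ) +
      ∑ i, x i • N.rowW i + ∑ j, y j • colW j +
      ∑ i, ∑ j, (x i + y j - D.2.2 i j) • excW i j := by
  classical
  refine Prod.ext ?_ (Prod.ext ?_ (funext₂ fun i j => ?_))
  · simp [Prod.fst_sum, Nd.rowW, colW, excW]
  · simp [Prod.fst_sum, Prod.snd_sum, Nd.rowW, colW, excW]
  · simp [Prod.snd_sum, Nd.rowW, colW, excW, Finset.sum_apply, ite_and]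

theorem eff (h : Stp N N' Φ 𝓗) {D : WW V κ} {x : κ → ℝ} {y : Fin 4 → ℝ} (x0 : ∀ i, 0 ≤ x i)
    (y0 : ∀ j, 0 ≤ y j) (xy : ∀ i j, D.2.2 i j ≤ x i + y j) (yt : ∑ j, y j ≤ D.2.1)
    (hx : D.1 - ∑ i, x i • N.c i ∈ N.Ef) : Φ D ∈ N'.Ef := by
  have c := h.b'.cone
  rw [ident N D x y]
  simp only [map_add, map_sum, map_smul]
  refine c.add _ (c.add _ (c.add _ (c.add _ (h.s.eL _ hx) _ (c.smul _ (sub_nonneg.2 yt) _ h.s.eF)) _
    (c.sum_mem _ _ fun i _ => c.smul _ (x0 i) _ ?_)) _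
    (c.sum_mem _ _ fun j _ => c.smul _ (y0 j) _ ?_)) _
    (c.sum_mem _ _ fun i _ => c.sum_mem _ _ fun j _ =>
      c.smul _ (sub_nonneg.2 (xy i j)) _ (h.s.eE i j))
  · exact h.s.cC i ▸ h.s.eC _
  · exact h.s.cT j ▸ h.s.eC _

theorem diff {K : Set V} (hK : IsCone K) {w : V} (hw : w ∈ Submodule.span ℝ K) :
    ∃ A ∈ K, ∃ B ∈ K, w = A - B := by
  induction hw using Submodule.span_induction with
  | mem x hx => exact ⟨x, hx, 0, hK.zero, (sub_zero x).symm⟩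
  | zero => exact ⟨0, hK.zero, 0, hK.zero, (sub_zero 0).symm⟩
  | add x y _ _ hx hy =>
    obtain ⟨A, hA, B, hB, rfl⟩ := hx
    obtain ⟨A', hA', B', hB', rfl⟩ := hy
    exact ⟨_, hK.add _ hA _ hA', _, hK.add _ hB _ hB', by abel⟩
  | smul r x _ hx =>
    obtain ⟨A, hA, B, hB, rfl⟩ := hx
    rcases le_total 0 r with hr | hr
    · exact ⟨_, hK.smul r hr _ hA, _, hK.smul r hr _ hB, smul_sub _ _ _⟩
    · exact ⟨_, hK.smul _ (neg_nonneg.2 hr) _ hB, _, hK.smul _ (neg_nonneg.2 hr) _ hA, by module⟩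

theorem cv (h : Stp N N' Φ 𝓗) (hn : NefEq N N' Φ 𝓗) : CV N' := by
  classical
  obtain ⟨R, r1, r2, r3⟩ := h.l.cvw
  refine ⟨R.image Φ, ?_, ?_, fun x hx => ?_⟩
  · rw [Finset.coe_image]
    rintro _ ⟨D, hD, rfl⟩
    exact h.s.lat D (r1 hD)
  · refine (N'.isCone_nef.inter h.b'.cone).cone_subset ?_
    rw [Finset.coe_image]
    rintro _ ⟨D, hD, rfl⟩
    have h1 := r2 (subset_cone _ hD)
    obtain ⟨x, y, x0, y0, xy, yt, hx, -⟩ := h.l.gk.eff D h1 (r1 hD) 0 0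
      ⟨fun _ => le_rfl, fun _ => le_rfl, h1.1.1, h1.1.1⟩ (fun _ => IZ.zero) fun _ => IZ.zero
    exact ⟨(hn D).2 h1, eff h x0 y0 xy yt hx⟩
  · obtain ⟨D, rfl, hD⟩ := h.s.dn x hx.2
    obtain ⟨g, hg, h1⟩ := r3 D ((hn D).1 hx.1) hD
    obtain ⟨g', hg', e⟩ := h.s.lift g hg
    refine ⟨g', hg', ?_⟩
    rw [Finset.coe_image, cone_map, e]
    exact ⟨_, h1 ((hn _).1 (e D ▸ h.b'.gN g' hg' _ hx.1)), rfl⟩

theorem spn (h : Stp N N' Φ 𝓗) (hn : NefEq N N' Φ 𝓗) : Spn N' := by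
  classical
  set S := Submodule.span ℝ (N'.Nef ∩ N'.Ef)
  have z := N.isCone_nef.zero
  have s1 : ∀ L : V, Φ (L, 0, 0) ∈ S := fun L => by
    have : (⊤ : Submodule ℝ V) ≤ S.comap (Φ.comp (LinearMap.inl ℝ V _)) := by
      rw [← show _ = ⊤ from h.l.spn, Submodule.span_le]
      exact fun L hL => Submodule.subset_span ⟨(hn (L, 0, 0)).2
        ⟨⟨fun _ _ => le_rfl, by simp, hL.1, by simpa using hL.1⟩,
          h.l.hh.low _ hL.1 (fun _ _ => le_rfl) (by simp)⟩, h.s.eL L hL.2⟩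
    exact this (x := L) trivial
  have s2 : Φ (0, 1, 0) ∈ S := Submodule.subset_span ⟨(hn (0, 1, 0)).2
    ⟨⟨fun _ _ => le_rfl, by simp, z, by simpa using z⟩,
      h.l.hh.low _ z (fun _ _ => le_rfl) (by simp)⟩, h.s.eF⟩
  have s3 : ∀ i j, Φ (excW i j) ∈ S := fun i j => by
    obtain ⟨A, hA, B, hB, e⟩ := diff (N.isCone_nef.inter h.b.cone) (w := N.c i)
      (by rw [show _ = ⊤ from h.l.spn]; trivial)
    have eB : A - N.c i = B := by rw [e, sub_sub_cancel]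
    let D : WW V κ := (A, 1, fun i' j' => if i' = i ∧ j' = j then 1 else 0)
    have a0 : ∀ i' j', 0 ≤ D.2.2 i' j' := fun i' j' => by
      simp only [D]
      split_ifs <;> norm_num
    have m : Φ D ∈ S := Submodule.subset_span ⟨(hn D).2 ⟨⟨a0, fun i' => ?_, hA.1, fun j' => ?_⟩,
      h.l.hh.low _ hA.1 a0 (by simp [D, ite_and])⟩,
      eff h (x := fun i' => if i' = i then 1 else 0) (y := 0) (fun i' => ?_) (fun _ => le_rfl)
        (fun i' j' => ?_) (by simp [D]) (by simpa [D, ite_smul, eB] using hB.2)⟩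
    · have e2 : excW i j = (A, 0, 0) + (0, 1, 0) - D := by
        refine Prod.ext (by simp [excW, D]) (Prod.ext (by simp [excW, D]) (funext₂ fun i' j' => ?_))
        simp only [excW, D, Prod.snd_sub, Prod.snd_add, Pi.sub_apply, Pi.add_apply, Pi.zero_apply]
        split_ifs <;> norm_num
      rw [e2, map_sub, map_add]
      exact S.sub_mem (S.add_mem (s1 A) s2) m
    · by_cases hi : i' = i <;> simp [D, hi]
    · by_cases hj : j' = j
      · simpa [D, hj, ite_smul, eB] using hB.1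
      · simpa [D, hj] using hA.1
    · split_ifs <;> norm_num
    · by_cases hi : i' = i <;> by_cases hj : j' = j <;> simp [D, hi, hj]
  refine eq_top_iff.2 fun w _ => ?_
  obtain ⟨D, rfl⟩ := h.s.surj w
  rw [ident N D 0 0]
  simp only [map_add, map_sum, map_smul, Pi.zero_apply, zero_smul, Finset.sum_const_zero, add_zero]
  exact S.add_mem (S.add_mem (s1 _) (S.smul_mem _ s2))
    (S.sum_mem fun i _ => S.sum_mem fun j _ => S.smul_mem _ (s3 i j))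

end N1b

theorem n1b_stmt : N1BStmt.{u, v, u', v'} := by
  classical
  intro V 𝒞 V' 𝒞' κ _ _ _ _ _ N N' Φ 𝓗 h hn
  have := h.l.fd
  refine ⟨N1b.cv h hn, N1b.spn h hn, Module.Finite.of_surjective Φ h.s.surj, ?_⟩
  rintro (i | j)
  · rw [h.s.cC]
    exact h.s.lat _ ⟨h.l.cΛ i, IZ.zero, fun _ _ => IZ.ite IZ.one IZ.zero⟩
  · rw [h.s.cT]
    exact h.s.lat _ ⟨N.Λ.zero_mem, IZ.one, fun _ _ => IZ.ite IZ.one IZ.zero⟩

end Pool.Agent.MP_20d318_ag.CH
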