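import Pool.Agent.MP_20d318_ag.CH.LSpec

/-! Row N1C: the dichotomy and the subtraction on the next level. -/

set_option autoImplicit false
set_option linter.unusedSectionVars false

namespace Pool.Agent.MP_20d318_ag.CH

open Pool.Agent.MP_20d318_ag.Lat

universe u v u' v'

namespace N1c

variable {V : Type u} {𝒞 : Type v} {V' : Type u'} {𝒞' : Type v'} {κ : Type} [AddCommGroup V]
  [Module ℝ V] [AddCommGroup V'] [Module ℝ V'] [Fintype κ] {N : Nd V 𝒞 κ}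
  {N' : Nd V' 𝒞' (κ ⊕ Fin 4)} {Φ : WW V κ →ₗ[ℝ] V'} {𝓗 : Set (WW V κ)}

theorem ident (N : Nd V 𝒞 κ) (D : WW V κ) (x : κ → ℝ) (y : Fin 4 → ℝ) :
    D = ((D.1 - ∑ i, x i • N.c i, 0, 0) : WW V κ) + (D.2.1 - ∑ j, y j) • ((0, 1, 0) : WW V κ) +
      ∑ i, x i • N.rowW i + ∑ j, y j • (colW j : WW V κ) +
      ∑ i, ∑ j, (x i + y j - D.2.2 i j) • (excW i j : WW V κ) := by
  classical
  refine Prod.ext ?_ (Prod.ext ?_ ?_)
  · simp [Prod.fst_sum, Nd.rowW, colW, excW]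
  · simp [Prod.fst_sum, Prod.snd_sum, Nd.rowW, colW, excW]
  · funext i j
    simp [Prod.snd_sum, Finset.sum_apply, Nd.rowW, colW, excW, ite_and]

theorem key (s : StDiv N N' Φ) {Q : Set V} {Q' : Set V'} (hQ : IsCone Q')
    (h1 : ∀ L ∈ Q, Φ (L, 0, 0) ∈ Q') (h2 : Φ (0, 1, 0) ∈ Q') (h3 : ∀ i j, Φ (excW i j) ∈ Q')
    (h4 : ∀ k, N'.c k ∈ Q') {D : WW V κ} {x : κ ⊕ Fin 4 → ℝ}
    (h : GKc N Q D (fun i => x (.inl i)) (fun j => x (.inr j))) : SKc N' Q' (Φ D) x := by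
  classical
  obtain ⟨U, W, U0, hW, haU, hs, hQU, i₀, hU⟩ := h
  refine ⟨.inl i₀, ?_⟩
  have e1 : ∀ (inst : DecidableEq (κ ⊕ Fin 4)),
      ∑ k ∈ @Finset.erase _ inst Finset.univ (.inl i₀), x k • N'.c k =
      ∑ i, (if i = i₀ then 0 else x (.inl i)) • N'.c (.inl i) + ∑ j, x (.inr j) • N'.c (.inr j) := by
    intro inst
    have e0 : ∑ i, (if i = i₀ then 0 else x (.inl i)) • N'.c (.inl i) =
        ∑ i, x (.inl i) • N'.c (.inl i) - x (.inl i₀) • N'.c (.inl i₀) := by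
      rw [← Finset.sum_erase_eq_sub (Finset.mem_univ i₀), ← Finset.sum_erase (a := i₀) _ (by simp)]
      exact Finset.sum_congr rfl fun i hi => by rw [if_neg (Finset.ne_of_mem_erase hi)]
    rw [Finset.sum_erase_eq_sub (Finset.mem_univ _), Fintype.sum_sum_type, e0]
    abel
  have e2 : Φ D = Φ (D.1 - ∑ i, U i • N.c i, 0, 0) + (D.2.1 - ∑ j, W j) • Φ (0, 1, 0) +
      ∑ i, U i • N'.c (.inl i) + ∑ j, W j • N'.c (.inr j) +
      ∑ i, ∑ j, (U i + W j - D.2.2 i j) • Φ (excW i j) := by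
    have := congrArg Φ (ident N D U W)
    simp only [map_add, map_sum, map_smul] at this
    simp only [s.cC, s.cT]
    exact this
  have e3 : Φ D - (∑ i, (if i = i₀ then 0 else x (.inl i)) • N'.c (.inl i) +
      ∑ j, x (.inr j) • N'.c (.inr j)) =
      Φ (D.1 - ∑ i, U i • N.c i, 0, 0) + (D.2.1 - ∑ j, W j) • Φ (0, 1, 0) +
      ∑ i, (U i - if i = i₀ then 0 else x (.inl i)) • N'.c (.inl i) +
      ∑ j, (W j - x (.inr j)) • N'.c (.inr j) +
      ∑ i, ∑ j, (U i + W j - D.2.2 i j) • Φ (excW i j) := by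
    rw [e2]
    simp only [sub_smul (U _), sub_smul (W _), Finset.sum_sub_distrib]
    abel
  rw [e1, e3]
  refine hQ.add _ (hQ.add _ (hQ.add _ (hQ.add _ (h1 _ hQU) _ (hQ.smul _ (sub_nonneg.2 hs) _ h2)) _
    (hQ.sum_mem _ _ fun i _ => hQ.smul _ ?_ _ (h4 _))) _
    (hQ.sum_mem _ _ fun j _ => hQ.smul _ (sub_nonneg.2 (hW j)) _ (h4 _))) _
    (hQ.sum_mem _ _ fun i _ => hQ.sum_mem _ _ fun j _ =>
      hQ.smul _ (sub_nonneg.2 (haU i j)) _ (h3 i j))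
  split_ifs with e
  · simpa using U0 i
  · exact sub_nonneg.2 (hU i e)

theorem adm (s : StDiv N N' Φ) (hne : NefEq N N' Φ 𝓗) {D : WW V κ} {x : κ ⊕ Fin 4 → ℝ}
    (x0 : ∀ k, 0 ≤ x k) (hx : ∀ k, Φ D - x k • N'.c k ∈ N'.Nef) :
    Adm D (fun i => x (.inl i)) (fun j => x (.inr j)) := by
  refine ⟨fun i => x0 _, fun j => x0 _, fun i j => ?_, fun i j => ?_⟩
  · have h := hx (.inl i)
    rw [s.cC, ← map_smul, ← map_sub, hne] at h
    simpa [Nd.rowW] using h.1.1 i j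
  · have h := hx (.inr j)
    rw [s.cT, ← map_smul, ← map_sub, hne] at h
    simpa [colW] using h.1.1 i j

theorem degs (s : StDiv N N' Φ) {ν' : 𝒞'} {ν : 𝒞} {τ : ℝ} {ε : κ → Fin 4 → ℝ}
    (h : ∀ D, N'.d ν' (Φ D) = N.d ν D.1 + D.2.1 * τ - ∑ i, ∑ j, D.2.2 i j * ε i j) :
    (∀ i, N'.d ν' (N'.c (.inl i)) = N.d ν (N.c i) - ∑ j, ε i j) ∧
      (∀ j, N'.d ν' (N'.c (.inr j)) = τ - ∑ i, ε i j) ∧
      ∀ i j, N'.d ν' (Φ (excW i j)) = ε i j := by
  classical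
  refine ⟨fun i => ?_, fun j => ?_, fun i j => ?_⟩
  · rw [s.cC, h]
    simp [Nd.rowW]
  · rw [s.cT, h]
    simp [colW]
  · rw [h]
    simp [excW, ite_and]

/-- The four types of curves. -/
theorem types (s : St N N' Φ) (ν' : 𝒞') :
    (∃ a, ∀ k, k ≠ a → N'.d ν' (N'.c k) = 0) ∨ ((∀ k, 0 ≤ N'.d ν' (N'.c k)) ∧
      ((∃ a b, ∀ k, k ≠ a → k ≠ b → N'.d ν' (N'.c k) = 0) ∨
        ∃ ν, (∀ L, N'.d ν' (Φ (L, 0, 0)) = N.d ν L) ∧ 0 ≤ N'.d ν' (Φ (0, 1, 0)) ∧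
          ∀ i j, 0 ≤ N'.d ν' (Φ (excW i j)))) := by
  classical
  obtain ⟨ν, τ, ε, ⟨τ0, ht⟩, h⟩ := s.cur ν'
  obtain ⟨d1, d2, d3⟩ := degs s.toStDiv h
  rcases ht with ⟨j, hτ, he⟩ | ⟨i, hi, he⟩ | ⟨i, j, hi, hτ, e0, e1, he⟩ | ⟨e0, e1, e2⟩
  · refine Or.inl ⟨.inr j, ?_⟩
    rintro (i | j') hk
    · simp [d1, he]
    · have : j' ≠ j := fun e => hk (by rw [e])
      simp [d2, he, hτ, this]
  · refine Or.inl ⟨.inl i, ?_⟩
    rintro (i' | j) hk
    · have : i' ≠ i := fun e => hk (by rw [e])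
      simp [d1, he, hi i' this, this]
    · simp [d2, he]
  · have r1 : ∑ j', ε i j' = ε i j :=
      Finset.sum_eq_single j (fun j' _ hj => he i j' fun e => hj e.2) (by simp)
    have r2 : ∑ i', ε i' j = ε i j :=
      Finset.sum_eq_single i (fun i' _ hi' => he i' j fun e => hi' e.1) (by simp)
    have r3 : ∀ i', i' ≠ i → N'.d ν' (N'.c (.inl i')) = 0 := fun i' hi' => by
      rw [d1, hi i' hi', Finset.sum_eq_zero fun j' _ => he i' j' fun e => hi' e.1, sub_zero]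
    have r4 : ∀ j', j' ≠ j → N'.d ν' (N'.c (.inr j')) = 0 := fun j' hj' => by
      rw [d2, hτ, Finset.sum_eq_zero fun i' _ => he i' j' fun e => hj' e.2, sub_zero]
    refine Or.inr ⟨?_, Or.inl ⟨.inl i, .inr j, ?_⟩⟩
    · rintro (i' | j')
      · by_cases e : i' = i
        · rw [e, d1, r1]
          exact sub_nonneg.2 e1
        · exact (r3 i' e).ge
      · by_cases e : j' = j
        · rw [e, d2, r2, hτ]
          exact sub_nonneg.2 e0
        · exact (r4 j' e).ge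
    · rintro (i' | j') ha hb
      · exact r3 i' fun e => ha (by rw [e])
      · exact r4 j' fun e => hb (by rw [e])
  · refine Or.inr ⟨?_, Or.inr ⟨ν, fun L => by simp [h], by simpa [h] using τ0,
      fun i j => by rw [d3]; exact e0 i j⟩⟩
    rintro (i | j)
    · rw [d1]
      exact sub_nonneg.2 (e1 i)
    · rw [d2]
      exact sub_nonneg.2 (e2 j)

end N1c

theorem n1c_stmt : N1CStmt.{u, v, u', v'} := by
  intro V 𝒞 V' 𝒞' κ _ _ _ _ _ N N' Φ 𝓗 h hne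
  refine ⟨fun ν' => (N1c.types h.s ν').elim Or.inr fun t => Or.inl t.1, fun ν' L hL x x0 hx => ?_,
    fun L hL hΛ x x0 xz hx => ?_⟩
  · rcases N1c.types h.s ν' with ⟨a, ha⟩ | ⟨h0, ⟨a, b, hab⟩ | ⟨ν, h1, h2, h3⟩⟩
    · exact skc_few hL hx (a := a) (b := a) fun k hk _ => ha k hk
    · exact skc_few hL hx hab
    · obtain ⟨D, rfl⟩ := h.s.surj L
      refine N1c.key h.s.toStDiv (Q := {L | 0 ≤ N.d ν L}) ⟨by simp, fun a ha b hb => ?_,
        fun c hc a ha => ?_⟩ (fun L hL => ?_) h2 h3 h0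
        (h.l.gk.cur ν D ((hne D).1 hL) _ _ (N1c.adm h.s.toStDiv hne x0 hx))
      · change 0 ≤ N'.d ν' _
        rw [map_add]
        exact add_nonneg ha hb
      · change 0 ≤ N'.d ν' _
        rw [map_smul]
        exact mul_nonneg hc ha
      · change 0 ≤ N'.d ν' _
        rw [h1]
        exact hL
  · obtain ⟨n, hn, D, hD, e⟩ := h.s.cls L hΛ
    have n0 : (0 : ℝ) < n := Nat.cast_pos.2 hn
    have hx' : ∀ k, Φ D - ((n : ℝ) * x k) • N'.c k ∈ N'.Nef := fun k => by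
      rw [← e, mul_smul, ← smul_sub]
      exact N'.isCone_nef.smul _ n0.le _ (hx k)
    have hD' : Φ D ∈ N'.Nef := e ▸ N'.isCone_nef.smul _ n0.le _ hL
    obtain ⟨i₀, hi⟩ := N1c.key h.s.toStDiv (x := fun k => (n : ℝ) * x k) h.b'.cone h.s.eL h.s.eF
      h.s.eE h.s.eC (h.l.gk.eff D ((hne D).1 hD') hD _ _
        (N1c.adm h.s.toStDiv hne (fun k => mul_nonneg n0.le (x0 k)) hx')
        (fun i => (IZ.nat n).mul (xz _)) fun j => (IZ.nat n).mul (xz _))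
    refine ⟨i₀, ?_⟩
    have := h.b'.cone.smul _ (inv_nonneg.2 n0.le) _ hi
    simp only [← e, mul_smul, ← Finset.smul_sum, ← smul_sub] at this
    rwa [smul_smul, inv_mul_cancel₀ n0.ne', one_smul] at this

end Pool.Agent.MP_20d318_ag.CH
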