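import Pool.Agent.MP_20d318_ag.CH.LSpec

/-! Rows N1D and N3: finitely many curves, and the cover of the expected cone. -/

set_option autoImplicit false
set_option linter.unusedSectionVars false

namespace Pool.Agent.MP_20d318_ag.CH

open Pool.Agent.MP_20d318_ag.Lat

universe u v u' v'

namespace N1d

variable {V : Type u} {𝒞 : Type v} {κ : Type} [AddCommGroup V] [Module ℝ V] [Fintype κ]

theorem ident (N : Nd V 𝒞 κ) (D : WW V κ) (x : κ → ℝ) (y : Fin 4 → ℝ) :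
    D - (∑ i, x i • N.rowW i + ∑ j, y j • (colW j : WW V κ)) =
      (D.1 - ∑ i, x i • N.c i, D.2.1 - ∑ j, y j, fun i j => D.2.2 i j - x i - y j) := by
  classical
  refine Prod.ext ?_ (Prod.ext ?_ ?_)
  · simp [Prod.fst_sum, Nd.rowW, colW]
  · simp [Prod.fst_sum, Prod.snd_sum, Nd.rowW, colW]
  · funext i j
    simp [Prod.snd_sum, Finset.sum_apply, Nd.rowW, colW, sub_sub]

theorem ident0 (D : WW V κ) : D = ((D.1, 0, 0) : WW V κ) + D.2.1 • ((0, 1, 0) : WW V κ) +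
    ∑ i, ∑ j, D.2.2 i j • (-excW i j : WW V κ) := by
  classical
  refine Prod.ext ?_ (Prod.ext ?_ ?_)
  · simp [Prod.fst_sum, excW]
  · simp [Prod.fst_sum, Prod.snd_sum, excW]
  · funext i j
    simp [Prod.snd_sum, Finset.sum_apply, excW, ite_and]

/-- The form of a row. -/
def rowF (i : κ) : WW V κ →ₗ[ℝ] ℝ where
  toFun D := D.2.1 - ∑ j, D.2.2 i j
  map_add' D D' := by
    simp only [Prod.snd_add, Prod.fst_add, Pi.add_apply, Finset.sum_add_distrib]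
    ring
  map_smul' c D := by
    simp only [Prod.smul_snd, Prod.smul_fst, Pi.smul_apply, smul_eq_mul, RingHom.id_apply,
      ← Finset.mul_sum]
    ring

/-- The form of a column. -/
def colF (N : Nd V 𝒞 κ) (ν : 𝒞) (j : Fin 4) : WW V κ →ₗ[ℝ] ℝ where
  toFun D := N.d ν (D.1 - ∑ i, D.2.2 i j • N.c i)
  map_add' D D' := by
    simp only [d_sub, Prod.snd_add, Prod.fst_add, Pi.add_apply, map_add, add_mul,
      Finset.sum_add_distrib]
    ring
  map_smul' c D := by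
    simp only [d_sub, Prod.smul_snd, Prod.smul_fst, Pi.smul_apply, smul_eq_mul, RingHom.id_apply,
      map_smul, mul_assoc, ← Finset.mul_sum]
    ring

theorem rp0 (N : Nd V 𝒞 κ) {R : Finset V} (hR : (R : Set V) ⊆ N.Λ) :
    RP N.LW {D : WW V κ | D.1 ∈ cone (R : Set V) ∧ ∀ i j, 0 ≤ D.2.2 i j} := by
  classical
  have hc := isCone_cone (R : Set V)
  let G : Finset (WW V κ) := R.image (fun r => (r, 0, 0)) ∪ {(0, 1, 0)} ∪ {-(0, 1, 0)} ∪
    Finset.univ.image fun p : κ × Fin 4 => -excW p.1 p.2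
  have hG : ∀ D : WW V κ, D ∈ (G : Set (WW V κ)) ↔
      (((∃ r ∈ R, (r, 0, 0) = D) ∨ D = (0, 1, 0)) ∨ D = -(0, 1, 0)) ∨
      ∃ p : κ × Fin 4, -excW p.1 p.2 = D := fun D => by
    simp only [G, Finset.mem_coe, Finset.mem_union, Finset.mem_image, Finset.mem_singleton,
      Finset.mem_univ, true_and]
  refine ⟨G, fun D hD => ?_, Set.Subset.antisymm (IsCone.cone_subset ⟨⟨hc.zero,
    fun _ _ => le_rfl⟩, fun x hx y hy => ⟨hc.add _ hx.1 _ hy.1,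
      fun i j => add_nonneg (hx.2 i j) (hy.2 i j)⟩, fun c h0 x hx => ⟨hc.smul _ h0 _ hx.1,
        fun i j => mul_nonneg h0 (hx.2 i j)⟩⟩ fun D hD => ?_) fun D hD => ?_⟩
  · rcases (hG D).1 hD with ((⟨r, hr, rfl⟩ | rfl) | rfl) | ⟨p, rfl⟩
    · exact ⟨hR hr, IZ.zero, fun _ _ => IZ.zero⟩
    · exact ⟨N.Λ.zero_mem, IZ.one, fun _ _ => IZ.zero⟩
    · exact N.LW.neg_mem ⟨N.Λ.zero_mem, IZ.one, fun _ _ => IZ.zero⟩
    · exact N.LW.neg_mem ⟨N.Λ.zero_mem, IZ.zero, fun _ _ => IZ.ite IZ.one.neg IZ.zero⟩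
  · rcases (hG D).1 hD with ((⟨r, hr, rfl⟩ | rfl) | rfl) | ⟨p, rfl⟩
    · exact ⟨subset_cone _ hr, fun _ _ => le_rfl⟩
    · exact ⟨hc.zero, fun _ _ => le_rfl⟩
    · exact ⟨by simp only [Prod.fst_neg, neg_zero]; exact hc.zero, fun _ _ => by simp⟩
    · refine ⟨by simp only [excW, Prod.fst_neg, neg_zero]; exact hc.zero, fun i j => ?_⟩
      simp only [excW, Prod.snd_neg, Pi.neg_apply]
      split_ifs <;> simp
  · have hcG := isCone_cone (G : Set (WW V κ))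
    rw [ident0 D]
    refine hcG.add _ (hcG.add _ ?_ _ ?_) _ (hcG.sum_mem _ _ fun i _ => hcG.sum_mem _ _ fun j _ =>
        hcG.smul _ (hD.2 i j) _ (subset_cone _ ((hG _).2 (Or.inr ⟨(i, j), rfl⟩))))
    · exact (hcG.preimage (LinearMap.inl ℝ V (ℝ × (κ → Fin 4 → ℝ)))).cone_subset
        (fun r hr => subset_cone _ ((hG _).2 (Or.inl (Or.inl (Or.inl ⟨r, hr, rfl⟩))))) hD.1
    · rcases le_total 0 D.2.1 with h | h
      · exact hcG.smul _ h _ (subset_cone _ ((hG _).2 (Or.inl (Or.inl (Or.inr rfl)))))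
      · rw [← neg_smul_neg]
        exact hcG.smul _ (neg_nonneg.2 h) _ (subset_cone _ ((hG _).2 (Or.inl (Or.inr rfl))))

end N1d

theorem n1d_stmt : N1DStmt.{u, v, u', v'} := by
  intro V 𝒞 V' 𝒞' κ _ _ _ _ _ N N' Φ 𝓗 h hne
  choose νE nE nE0 hE using h.s.tE
  choose νC nC nC0 hC using h.s.tC
  refine ⟨Set.range (fun p : κ × Fin 4 => νE p.1 p.2) ∪ Set.range νC,
    (Set.finite_range _).union (Set.finite_range _), fun L hL z z0 hz => ?_⟩
  obtain ⟨D, rfl⟩ := h.s.surj L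
  have hD := (hne D).1 hL
  have e : Φ D - ∑ k, z k • N'.c k = Φ (D.1 - ∑ i, z (.inl i) • N.c i, D.2.1 - ∑ j, z (.inr j),
      fun i j => D.2.2 i j - z (.inl i) - z (.inr j)) := by
    rw [← N1d.ident, Fintype.sum_sum_type]
    simp only [map_sub, map_add, map_sum, map_smul, h.s.cC, h.s.cT]
  rw [e] at hz ⊢
  have h1 : ∀ i j, 0 ≤ D.2.2 i j - z (.inl i) - z (.inr j) := fun i j => by
    have := hz _ (Or.inl ⟨(i, j), rfl⟩)
    rw [hE] at this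
    exact nonneg_of_mul_nonneg_right this (nE0 i j)
  refine (hne _).2 ⟨⟨h1, fun i => ?_, ?_, fun j => ?_⟩, h.l.hh.sub D hD _ _ (fun i => z0 _)
    (fun j => z0 _) fun i j => by linarith [h1 i j]⟩
  · have := hz _ (Or.inr ⟨i, rfl⟩)
    rw [hC] at this
    exact sub_nonneg.1 (nonneg_of_mul_nonneg_right this (nC0 i))
  · exact h.l.dich.mid hD.1.2.2.1 (hD.1.2.2.2 0) (fun i => z0 _)
      fun i => by linarith [h1 i 0, z0 (.inr 0)]
  · have := h.l.dich.mid hD.1.2.2.1 (hD.1.2.2.2 j) (b := fun i => D.2.2 i j - z (.inr j))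
      (fun i => by linarith [h1 i j, z0 (.inl i)]) fun i => by linarith [z0 (.inr j)]
    have e2 : D.1 - ∑ i, z (.inl i) • N.c i -
        ∑ i, (D.2.2 i j - z (.inl i) - z (.inr j)) • N.c i =
        D.1 - ∑ i, (D.2.2 i j - z (.inr j)) • N.c i := by
      simp only [sub_smul, Finset.sum_sub_distrib]
      abel
    exact e2 ▸ this

theorem n3_stmt : N3Stmt.{u, v} := by
  intro V 𝒞 κ _ _ _ N b hc ⟨R, hR, hRc, hcov⟩ ⟨F, hF, hDL⟩
  obtain ⟨R', h1, h2⟩ := (N1d.rp0 N hR).inter_fin (T := Set.range N1d.rowF ∪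
      (fun p : 𝒞 × Fin 4 => N1d.colF N p.1 p.2) '' (F ×ˢ Set.univ))
    ((Set.finite_range _).union ((hF.prod Set.finite_univ).image _)) (by
      rintro _ (⟨i, rfl⟩ | ⟨p, -, rfl⟩) D hD
      · exact hD.2.1.sub (IZ.sum _ fun j _ => hD.2.2 i j)
      · exact b.int _ _ (N.Λ.sub_mem hD.1 (N.Λ.sum_mem fun i _ => (hD.2.2 i _).smul_mem (hc i))))
  refine ⟨R', h1, fun D hD => ?_, fun D hD hE => ?_⟩
  · rw [h2] at hD
    obtain ⟨⟨d1, d3⟩, d4⟩ := hD
    exact ⟨⟨d3, fun i => sub_nonneg.1 (d4 _ (Or.inl ⟨i, rfl⟩)), (hRc d1).1, fun j =>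
      hDL _ (hRc d1).1 _ (fun i => d3 i j) fun ν hν =>
        d4 _ (Or.inr ⟨(ν, j), ⟨hν, trivial⟩, rfl⟩)⟩, trivial⟩
  · obtain ⟨g, hg, hgD⟩ := hcov _ ⟨hD.1.2.2.1, hE⟩
    refine ⟨g, hg, fun hD' => ?_⟩
    rw [h2]
    refine ⟨⟨hgD, hD.1.1⟩, ?_⟩
    rintro _ (⟨i, rfl⟩ | ⟨p, -, rfl⟩)
    · exact sub_nonneg.2 (hD.1.2.1 i)
    · exact hD'.1.2.2.2 p.2 p.1

end Pool.Agent.MP_20d318_ag.CH
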