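import Pool.Agent.MP_20d318_ag.CH.Spec
import Pool.Agent.MP_fd6584_ag.MV.RowsG

/-! Smooth models are normal and locally factorial. -/

set_option autoImplicit false

namespace Pool.Agent.MP_20d318_ag.CH

open Pool.Agent.CBk Pool.Agent.MP_fd6584_ag.AG

theorem nice_stmt : NiceStmt := by
  intro k K _ _ _ _ X hX hs
  have hU : ∀ O ∈ X, UniqueFactorizationMonoid O := fun O hO => by
    obtain ⟨𝒢, -, h1, h2⟩ := hX.cov
    obtain ⟨G, hG, h3⟩ := Set.mem_iUnion₂.1 (h2 ▸ hO)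
    exact MVg.ufd_stmt k K G (h1 G hG).1
      (smG_stmt k K G (h1 G hG).1 fun O' h => hs O' (h2 ▸ Set.mem_biUnion hG h)) O h3
  have hN : Nice X := ⟨hX, fun O hO f hf => by
    have := hU O hO
    have : IsFractionRing O K := IsFractionRing.of_field O K fun z => by
      obtain ⟨a, ha, b, hb, -, e⟩ := hX.frac hO z
      exact ⟨⟨a, ha⟩, ⟨b, hb⟩, e⟩
    obtain ⟨y, rfl⟩ := IsIntegrallyClosed.isIntegral_iff.1 hf
    exact y.2⟩
  exact ⟨hN, MVg.fac_stmt k K X hN hU⟩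

end Pool.Agent.MP_20d318_ag.CH
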