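import Pool.Agent.MP_20d318_ag.CH.Spec

/-! Row NXA: the algebraic part of the induction hypothesis passes to the blow-up. -/

set_option autoImplicit false
set_option linter.unusedSectionVars false

namespace Pool.Agent.MP_20d318_ag.CH

open Pool.Agent.MP_fd6584_ag.Fn Pool.Agent.CBk
open Pool.Agent.MP_fd6584_ag.AG hiding deg_inv deg_congr deg_of_unit deg_mul deg_prod deg_zpow
  deg_eq_zero deg_nonneg deg_div deg_pow

namespace Nxa

variable {k M K Λ κ : Type} {n : ℕ} [Field k] [Field M] [Field K] [Algebra k M] [Algebra k K]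
  [Fintype κ] {L : Lv k M Λ κ n} {ι : M →ₐ[k] K} {l : k} {ζ w : K} {e : ℕ}
  {O : Subalgebra k K}

theorem prod_tau (l : k) (ζ : K) (O : Subalgebra k K) :
    ∏ j, tau l ζ j O = cb l ζ / eta ζ O ^ 4 := by
  unfold tau cb
  rw [Finset.prod_div_distrib, Fin.prod_univ_four, Finset.prod_const, Finset.card_univ,
    Fintype.card_fin]
  exact congrArg (· / _) (mul_one _)

variable (h : All L ι l ζ w e)

include h

theorem ee_ne (hO : O ∈ XX L ι ζ w e) (i : κ) (j : Fin 4) : EE L ι l ζ i j O ≠ 0 :=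
  (h.div.gE O hO i j).ne

theorem of_inl (hO : O ∈ XX L ι ζ w e) {i : κ} (hm : sN L ι l ζ (Sum.inl i) O ∈ mx O) :
    (AA L ι ζ w e O)⁻¹ ∈ mx O ∧ sX L ι i O ∈ mx O := by
  refine ⟨by_contra fun hn => hm.2 ((h.div.rC O hO i).2 hn), ?_⟩
  have h1 := mx_mul_right hm (prod_mem fun j (_ : j ∈ Finset.univ) => h.div.em O hO i j)
  have h2 : (∏ j, EE L ι l ζ i j O) ≠ 0 := Finset.prod_ne_zero_iff.2 fun j _ => ee_ne h hO i j
  exact (div_mul_cancel₀ (sX L ι i O) h2) ▸ h1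

theorem of_inr (hO : O ∈ XX L ι ζ w e) {j : Fin 4} (hm : sN L ι l ζ (Sum.inr j) O ∈ mx O) :
    AA L ι ζ w e O ∈ mx O ∧ tau l ζ j O ∈ mx O := by
  refine ⟨by_contra fun hn => hm.2 ((h.div.rT O hO j).2 hn), ?_⟩
  have h1 := mx_mul_right hm (prod_mem fun i (_ : i ∈ Finset.univ) => h.div.em O hO i j)
  have h2 : (∏ i, EE L ι l ζ i j O) ≠ 0 := Finset.prod_ne_zero_iff.2 fun i _ => ee_ne h hO i j
  exact (div_mul_cancel₀ (tau l ζ j O) h2) ▸ h1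

theorem not_both (hO : O ∈ XX L ι ζ w e) (h1 : AA L ι ζ w e O ∈ mx O)
    (h2 : (AA L ι ζ w e O)⁻¹ ∈ mx O) : False :=
  h1.2 ⟨h.loc.ane O hO, h1.1, h2.1⟩

theorem one (hO : O ∈ XX L ι ζ w e) (i i' : κ ⊕ Fin 4) (h1 : sN L ι l ζ i O ∈ mx O)
    (h2 : sN L ι l ζ i' O ∈ mx O) : i = i' := by
  rcases i with i | j <;> rcases i' with i' | j'
  · rw [h.loc.s1 O hO i i' (of_inl h hO h1).2 (of_inl h hO h2).2]
  · exact (not_both h hO (of_inr h hO h2).1 (of_inl h hO h1).1).elim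
  · exact (not_both h hO (of_inr h hO h1).1 (of_inl h hO h2).1).elim
  · rw [h.loc.t1 O hO j j' (of_inr h hO h1).2 (of_inr h hO h2).2]

theorem pl_inl (hp : XPl L ι l ζ w e) {P : Place k K} (hP : plO P ∈ XX L ι ζ w e) {i : κ}
    (hm : sN L ι l ζ (Sum.inl i) (plO P) ∈ mx (plO P)) :
    (∀ j, IsU (plO P) (tau l ζ j (plO P))) ∧ ∃ P₀ : Place k M, pr ι L.Y (plO P) = plO P₀ ∧
      plO P₀ ∈ L.Y ∧ L.s i (plO P₀) ∈ mx (plO P₀) := by
  obtain ⟨h1, h2⟩ := of_inl h hP hm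
  have hR := h.loc.maps.mem hP
  have h3 := (h.loc.maps.mx_up hP (h.ok.sm _ hR i)).1 h2
  refine ⟨fun j => isU_of_not_mx (h.loc.tm _ hP j) fun hj => h1.2 (hp.eA P i j hP h2 hj).inv, ?_⟩
  rcases hp.pl P hP with h4 | ⟨P₀, h4⟩
  · have h5 := (h.ok.cs i).ne hR
    rw [h4] at h3 h5
    exact (h5 (mem_mx_top.1 h3)).elim
  · exact ⟨P₀, h4, h4 ▸ hR, h4 ▸ h3⟩

theorem pl_inr (hp : XPl L ι l ζ w e) {P : Place k K} (hP : plO P ∈ XX L ι ζ w e) {j : Fin 4}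
    (hm : sN L ι l ζ (Sum.inr j) (plO P) ∈ mx (plO P)) :
    tau l ζ j (plO P) ∈ mx (plO P) ∧ pr ι L.Y (plO P) = ⊤ := by
  obtain ⟨h1, h2⟩ := of_inr h hP hm
  exact ⟨h2, hp.top P j hP h2 fun i =>
    isU_of_not_mx (h.loc.sm _ hP i) fun hi => h1.2 (hp.eA P i j hP hi h2)⟩

theorem uniq (hp : XPl L ι l ζ w e) (i : κ ⊕ Fin 4) (P P' : Place k K)
    (hP : plO P ∈ XX L ι ζ w e) (hP' : plO P' ∈ XX L ι ζ w e)
    (h1 : sN L ι l ζ i (plO P) ∈ mx (plO P)) (h2 : sN L ι l ζ i (plO P') ∈ mx (plO P')) :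
    P = P' := by
  rcases i with i | j
  · obtain ⟨a1, Q, a2, a3, a4⟩ := pl_inl h hp hP h1
    obtain ⟨b1, Q', b2, b3, b4⟩ := pl_inl h hp hP' h2
    obtain rfl := h.ok.uniq i Q Q' a3 b3 a4 b4
    exact hp.uV P P' Q hP hP' a1 b1 a2 b2
  · obtain ⟨a1, a2⟩ := pl_inr h hp hP h1
    obtain ⟨b1, b2⟩ := pl_inr h hp hP' h2
    exact hp.uT P P' j hP hP' a1 a2 b1 b2

theorem prod_s (hO : O ∈ XX L ι ζ w e) :
    ∏ i, sX L ι i O = ι L.φ * ι (L.jj (pr ι L.Y O)) ^ 2 := by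
  rw [h.prod_sX, ← h.ok.eqn _ (h.loc.maps.mem hO), map_mul, map_pow]

theorem eqn (hO : O ∈ XX L ι ζ w e) :
    ι L.φ * cb l ζ * (up ι L.Y L.jj O / (eta ζ O ^ 2 * ∏ i, ∏ j, EE L ι l ζ i j O)) ^ 2 =
      ∏ i, sN L ι l ζ i O := by
  rw [Fintype.prod_sum_type]
  simp only [sN, Sum.elim_inl, Sum.elim_inr, Finset.prod_div_distrib]
  rw [prod_s h hO, prod_tau, Finset.prod_comm (f := fun j i => EE L ι l ζ i j O)]
  unfold up
  ring

theorem gen_U (hO : O ∈ XX L ι ζ w e) : Gn (nx L ι l ζ w e).U O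
    (ι (gn L.U (pr ι L.Y O) * (gn L.U (pr ι L.Y O) / L.jj (pr ι L.Y O))) * eta ζ O ^ 2) := by
  have hR := h.loc.maps.mem hO
  have g1 := h.ok.gU _ hR
  have g2 := h.ok.gU' _ hR
  have g3 := h.loc.gZ O hO
  have e1 : ∀ (u v : M) (b : K), ι (u * v) * b ^ 2 /
      (ι (gn L.U (pr ι L.Y O) * (gn L.U (pr ι L.Y O) / L.jj (pr ι L.Y O))) * eta ζ O ^ 2) =
      ι (u / gn L.U (pr ι L.Y O)) * ι (v / (gn L.U (pr ι L.Y O) / L.jj (pr ι L.Y O))) *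
        (b / eta ζ O) ^ 2 := fun u v b => by
    rw [← map_mul, div_mul_div_comm, map_div₀, div_pow, div_mul_div_comm]
  have e2 : ∀ a ∈ (nx L ι l ζ w e).U, ∃ u ∈ L.U, ∃ v ∈ L.U', ∃ b ∈ ({ζ, 1} : Set K),
      a = ι (u * v) * b ^ 2 := by
    rintro a (⟨u, hu, v, hv, rfl⟩ | ⟨u, hu, v, hv, rfl⟩)
    · exact ⟨u, hu, v, hv, 1, Or.inr rfl, by rw [one_pow, mul_one]⟩
    · exact ⟨u, hu, v, hv, ζ, Or.inl rfl, rfl⟩
  refine ⟨fun a ha => ?_, ?_⟩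
  · obtain ⟨u, hu, v, hv, b, hb, rfl⟩ := e2 a ha
    rw [e1]
    exact O.mul_mem (O.mul_mem (h.loc.maps.mem_up hO (g1.1 u hu)) (h.loc.maps.mem_up hO (g2.1 v hv)))
      (O.pow_mem (g3.1 b hb) 2)
  · obtain ⟨u, hu, u1⟩ := g1.2
    obtain ⟨v, hv, v1⟩ := g2.2
    obtain ⟨b, hb, b1⟩ := g3.2
    refine ⟨ι (u * v) * b ^ 2, ?_, ?_⟩
    · rcases hb with rfl | rfl
      · exact Or.inr ⟨u, hu, v, hv, rfl⟩
      · exact Or.inl ⟨u, hu, v, hv, by rw [one_pow, mul_one]⟩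
    · rw [e1]
      exact ((h.loc.maps.isU_up hO u1).mul (h.loc.maps.isU_up hO v1)).mul (b1.pow 2)

end Nxa

open Nxa in
theorem nxa_stmt : NxaStmt := by
  intro k M K Λ κ n _ _ _ _ _ _ _ _ _ L ι l ζ w e h hp he
  subst he
  have hw : w = cb l ζ := by simpa using h.ext.eq
  have hφ : ι L.φ ≠ 0 := (map_ne_zero ι).2 h.ext.φne
  have hζ : ζ ≠ 0 := h.loc.fam.nz (Sum.inr false) ζ (Or.inl rfl)
  have fS : (SI L ι ζ w 1).Finite := h.loc.fam.fin (Sum.inr true)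
  have nS : ∀ a ∈ SI L ι ζ w 1, a ≠ 0 := h.loc.fam.nz (Sum.inr true)
  have nn : ∀ u ∈ L.U, ∀ v ∈ L.U', ι (u * v) ≠ 0 := fun u hu v hv =>
    (map_ne_zero ι).2 (mul_ne_zero (h.ok.nU u hu) (h.ok.nU' v hv))
  refine ⟨⟨Sum.inr 0⟩, h.loc.fam, mul_ne_zero hφ (hw ▸ h.loc.wne), h.div.cartN, ?_,
    fun O hO => eqn h hO, ?_, fun O hO => one h hO, uniq h hp,
    (h.ok.fU.image2 _ h.ok.fU').union (h.ok.fU.image2 _ h.ok.fU'), fS.image _, ?_, ?_,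
    fun O hO => gn_spec (gen_U h hO).prin, fun O hO => ?_⟩
  · have h1 := (h.div.cartU _ h.ok.cj).div ((h.div.cartZ.pow 2).mul
      (isCart_prod (s := Finset.univ) fun i _ => isCart_prod (s := Finset.univ) fun j _ =>
        h.div.cartE i j))
    have h2 : (nx L ι l ζ w 1).jj = up ι L.Y L.jj / (eta ζ ^ 2 * ∏ i, ∏ j, EE L ι l ζ i j) := by
      funext O
      simp only [nx, Pi.div_apply, Pi.mul_apply, Pi.pow_apply, Finset.prod_apply]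
    exact h2 ▸ h1
  · rintro O hO (i | j)
    exacts [(h.div.rC O hO i).1, (h.div.rT O hO j).1]
  · rintro _ (⟨u, hu, v, hv, rfl⟩ | ⟨u, hu, v, hv, rfl⟩)
    exacts [nn u hu v hv, mul_ne_zero (nn u hu v hv) (pow_ne_zero 2 hζ)]
  · rintro _ ⟨a, ha, rfl⟩
    exact mul_ne_zero hφ (nS a ha)
  · have hR := h.loc.maps.mem hO
    have u1 := (gn_spec (gen_U h hO).prin).unit (gen_U h hO)
    have n1 : ι (gn L.U (pr ι L.Y O)) ≠ 0 := (map_ne_zero ι).2 (h.ok.gU _ hR).ne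
    have n2 : ι (L.jj (pr ι L.Y O)) ≠ 0 := (map_ne_zero ι).2 (h.ok.cj.ne hR)
    have n3 : eta ζ O ≠ 0 := (h.loc.gZ O hO).ne
    have n4 : (∏ i, ∏ j, EE L ι l ζ i j O) ≠ 0 :=
      Finset.prod_ne_zero_iff.2 fun i _ => Finset.prod_ne_zero_iff.2 fun j _ => ee_ne h hO i j
    have n5 := h.loc.wne
    rcases h.loc.aa O hO with ha | ha
    · refine (((h.loc.gS O hO).1 ha).smul hφ).of_unit ?_
      have u2 := u1.div (h.div.pC O hO ha)
      rw [prod_s h hO] at u2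
      have e1 : gn (nx L ι l ζ w 1).U O / (nx L ι l ζ w 1).jj O / (ι L.φ * NN L ι ζ 1 O) =
          gn (nx L ι l ζ w 1).U O / (ι (gn L.U (pr ι L.Y O) *
            (gn L.U (pr ι L.Y O) / L.jj (pr ι L.Y O))) * eta ζ O ^ 2) /
            (ι L.φ * ι (L.jj (pr ι L.Y O)) ^ 2 / ∏ i, ∏ j, EE L ι l ζ i j O) := by
        generalize gn (nx L ι l ζ w 1).U O = γ
        simp only [nx, NN, up, map_mul, map_pow, map_div₀, Nat.reduceSub, Nat.reduceMul]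
        field_simp
      exact e1 ▸ u2
    · refine (((h.loc.gS O hO).2 ha).smul hφ).of_unit ?_
      have u2 := u1.div (h.div.pT O hO ha)
      rw [prod_tau, ← hw] at u2
      have e1 : gn (nx L ι l ζ w 1).U O / (nx L ι l ζ w 1).jj O /
          (ι L.φ * (NN L ι ζ 1 O * AA L ι ζ w 1 O)) =
          gn (nx L ι l ζ w 1).U O / (ι (gn L.U (pr ι L.Y O) *
            (gn L.U (pr ι L.Y O) / L.jj (pr ι L.Y O))) * eta ζ O ^ 2) /
            (w / eta ζ O ^ 4 / ∏ i, ∏ j, EE L ι l ζ i j O) := by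
        generalize gn (nx L ι l ζ w 1).U O = γ
        simp only [nx, NN, AA, up, map_mul, map_pow, map_div₀, Nat.reduceSub, Nat.reduceMul]
        field_simp
      exact e1 ▸ u2

end Pool.Agent.MP_20d318_ag.CH
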