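import Pool.Agent.MP_20d318_ag.CH.Spec

/-! The volume form and the coordinates of the next level. -/

set_option autoImplicit false
set_option linter.unusedSectionVars false

namespace Pool.Agent.MP_20d318_ag.CH

open Pool.Agent.MP_fd6584_ag.Fn Pool.Agent.CBk
open Pool.Agent.MP_fd6584_ag.AG hiding deg_inv deg_congr deg_of_unit deg_mul deg_prod deg_zpow
  deg_eq_zero deg_nonneg deg_div deg_pow

namespace NxbR

variable {k M K Λ κ : Type} {n : ℕ} [Field k] [Field M] [Field K] [Algebra k M] [Algebra k K]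
  [Fintype κ] {L : Lv k M Λ κ n} {ι : M →ₐ[k] K} {l : k} {ζ w : K}

theorem prod_sN (O : Subalgebra k K) : ∏ i, sN L ι l ζ i O =
    (∏ i, sX L ι i O) / (∏ i, ∏ j, EE L ι l ζ i j O) *
      ((∏ j, tau l ζ j O) / ∏ i, ∏ j, EE L ι l ζ i j O) := by
  rw [Fintype.prod_sum_type]
  simp only [sN, Sum.elim_inl, Sum.elim_inr, Finset.prod_div_distrib]
  rw [Finset.prod_comm (s := (Finset.univ : Finset (Fin 4)))]

theorem wt_unit (h : All L ι l ζ w 1) {O : Subalgebra k K} (hO : O ∈ XX L ι ζ w 1) :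
    IsU O (wt 1 O (AA L ι ζ w 1 O) (∏ i, sX L ι i O) / ∏ i, ∏ j, EE L ι l ζ i j O) := by
  unfold wt
  split_ifs with q
  · rw [Nat.sub_self, pow_zero, one_mul]
    exact h.div.pC O hO q
  · have e := h.loc.eqn O hO
    rw [pow_one] at e
    rw [e]
    exact h.div.pT O hO ((h.loc.aa O hO).resolve_left q)

theorem one (hD : Der) (h : All L ι l ζ w 1) (hv : XVol L ι l ζ w 1) :
    (∀ O ∈ XX L ι ζ w 1, Crd O (∏ i, sN L ι l ζ i O)) ∧ ∃ j, j ≠ 0 ∧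
      Vol (XX L ι ζ w 1) (nx L ι l ζ w 1).y fun O => j / (nx L ι l ζ w 1).jj O := by
  obtain ⟨j, hj, hv⟩ := hv
  refine ⟨fun O hO => ?_, ι j, (map_ne_zero ι).2 hj, fun δ hδ O hO => ?_⟩
  · obtain ⟨δ, hδ⟩ := hD.ex k K (n + 1 + 2) (nx L ι l ζ w 1).y (h.fld.ind _ L.y h.ok.ind)
      (h.fld.top rfl _ L.y h.ok.top)
    obtain ⟨c, h1, h2, h3⟩ := hv δ hδ O hO
    have h4 : ∀ t, t = AA L ι ζ w 1 O ∨ t = (AA L ι ζ w 1 O)⁻¹ → Crd O t := fun t ht hm => by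
      obtain ⟨i, rfl⟩ := h3 t hm ht
      exact hD.dual k K _ O δ c h1 (right_ne_zero_of_mul h2.ne) i hm
    have e := h.loc.eqn O hO
    have h0 := h.loc.ane O hO
    rw [pow_one] at e
    rw [prod_sN]
    rcases h.loc.aa O hO with q | q
    · have h5 := (h4 _ (.inl rfl)).of_unit (h.gX.loc O hO) q ((h.div.pC O hO q).pow 2)
      rw [← e]
      refine Eq.subst (motive := Crd O) ?_ h5
      ring
    · have h5 := (h4 _ (.inr rfl)).of_unit (h.gX.loc O hO) q ((h.div.pT O hO q).pow 2)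
      rw [← e] at h5 ⊢
      refine Eq.subst (motive := Crd O) ?_ h5
      field_simp
  · obtain ⟨c, h1, h2, -⟩ := hv δ hδ O hO
    have h3 := wt_unit h hO
    refine ⟨c, h1, Eq.subst (motive := IsU O) ?_ (h2.div h3)⟩
    obtain ⟨h4, h5⟩ := div_ne_zero_iff.1 h3.ne
    have h6 := (div_ne_zero_iff.1 (left_ne_zero_of_mul h2.ne)).2
    change _ = ι j / (up ι L.Y L.jj O / (eta ζ O ^ 2 * ∏ i, ∏ j, EE L ι l ζ i j O)) * dt δ c
    field_simp

theorem two (h : All L ι l ζ w 2) (hv : XVol L ι l ζ w 2) :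
    ∃ j, j ≠ 0 ∧ Vol (XX L ι ζ w 2) (nx L ι l ζ w 2).y fun _ => j := by
  obtain ⟨j, hj, hv⟩ := hv
  refine ⟨ι j * w, mul_ne_zero ((map_ne_zero ι).2 hj) h.loc.wne, fun δ hδ O hO => ?_⟩
  obtain ⟨c, h1, h2, -⟩ := hv δ hδ O hO
  refine ⟨c, h1, Eq.subst (motive := IsU O) (congrArg (· * dt δ c) ?_) h2⟩
  have e1 : wt 2 O (AA L ι ζ w 2 O) (∏ i, sX L ι i O) = AA L ι ζ w 2 O * ∏ i, sX L ι i O := by
    unfold wt
    split_ifs
    · rw [pow_one]
    · rfl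
  have e2 : AA L ι ζ w 2 O = w / (ι (L.φ * L.jj (pr ι L.Y O) ^ 1) * eta ζ O ^ 2) := rfl
  have e3 : up ι L.Y L.jj O = ι (L.jj (pr ι L.Y O)) := rfl
  have h0 := h.loc.ane O hO
  rw [e1, h.prod_sX, ← h.ok.eqn _ (h.loc.maps.mem hO), e3, e2]
  rw [e2] at h0
  obtain ⟨h3, h4⟩ := mul_ne_zero_iff.1 (div_ne_zero_iff.1 h0).2
  rw [pow_one, map_mul] at h3 ⊢
  obtain ⟨h5, h6⟩ := mul_ne_zero_iff.1 h3
  have h7 := (pow_ne_zero_iff two_ne_zero).1 h4
  rw [map_mul, map_pow]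
  field_simp

end NxbR

theorem nxb_stmt : NxbStmt := fun hD _ _ _ _ _ _ _ _ _ _ _ _ _ _ _ _ _ _ _ _ _ h hv =>
  ⟨by rintro rfl; exact NxbR.one hD h hv, by rintro rfl; exact NxbR.two h hv⟩

end Pool.Agent.MP_20d318_ag.CH
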