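import Pool.Agent.MP_20d318_ag.CH.Spec

/-! The prime divisors of the blow-up and of its double cover. -/

set_option autoImplicit false
set_option linter.unusedSectionVars false

namespace Pool.Agent.MP_20d318_ag.CH

open Pool.Agent.MP_fd6584_ag.Fn Pool.Agent.CBk
open Pool.Agent.MP_fd6584_ag.AG hiding deg_inv deg_congr deg_of_unit deg_mul deg_prod deg_zpow
  deg_eq_zero deg_nonneg deg_div deg_pow
open Pool.Agent.CBk.XPlAux (ext0 ext1 ext3 le_pu self_pu eta_congr zc_congr tau_congr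
  zeta_of_units gen_cases zc_eq)

namespace PL

variable {k M K Λ κ : Type} {n : ℕ} [Field k] [Field M] [Field K] [Algebra k M] [Algebra k K]
  [Fintype κ] {L : Lv k M Λ κ n} {ι : M →ₐ[k] K} {l : k} {ζ w : K} {e : ℕ}
  {O O' : Subalgebra k K}

theorem sX_congr (hR : pr ι L.Y O' = pr ι L.Y O) (i : κ) :
    sX L ι i O' = sX L ι i O := by
  unfold sX up; rw [hR]

theorem AA_congr (h : ζ ∈ O ↔ ζ ∈ O') (hR : pr ι L.Y O' = pr ι L.Y O) :
    AA L ι ζ w e O' = AA L ι ζ w e O := by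
  unfold AA up; rw [eta_congr h, hR]

/-- The branch point decides the chart of the line. -/
theorem zeta_mem (hL : XLoc L ι l ζ w e) (hO : O ∈ XX L ι ζ w e) {j : Fin 4}
    (ht : tau l ζ j O ∈ mx O) : ζ ∈ O ↔ j ≠ 3 := by
  constructor
  · rintro hz rfl
    exact one_not_mem_mx (by simpa [tau, eta, hz] using ht)
  · intro hj
    by_contra hz
    have h1 : ζ⁻¹ ∈ O := by simpa [zc, hz] using hL.zm O hO
    have h2 : tau l ζ 3 O ∈ mx O := by
      have e1 : tau l ζ 3 O = ζ⁻¹ := by simp [tau, eta, hz]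
      rw [e1]
      exact ⟨h1, fun hu => hz (by simpa using hu.2.2)⟩
    exact hj (hL.t1 O hO j 3 ht h2)

theorem zc_const (hL : XLoc L ι l ζ w e) {j : Fin 4} (ht : tau l ζ j O ∈ mx O) :
    ∃ c b : k, zc ζ O - algebraMap k K c = algebraMap k K b * tau l ζ j O := by
  obtain ⟨α, β, h1, h2⟩ := hL.tp O
  have ha : α j ≠ 0 := fun ha => by
    rw [h1 j, ha, map_zero, zero_mul, zero_add, const_mem_mx] at ht
    obtain ⟨j', hj⟩ := exists_ne j
    exact h2 j j' hj.symm (by rw [ha, ht, zero_mul, mul_zero])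
  refine ⟨-β j / α j, (α j)⁻¹, ?_⟩
  have : algebraMap k K (α j) ≠ 0 := by simpa using ha
  rw [h1 j, map_div₀, map_neg, map_inv₀]
  field_simp
  ring

theorem algM_zc (hL : XLoc L ι l ζ w e) {j : Fin 4} (ht : tau l ζ j O ∈ mx O)
    (B : Subalgebra k K) : AlgM O B (zc ζ O) := by
  obtain ⟨c, b, h⟩ := zc_const hL ht
  exact algM_of_mx (c := c) (h ▸ mx_mul_left (O.algebraMap_mem b) ht)

theorem map_le (hL : XLoc L ι l ζ w e) (hO : O ∈ XX L ι ζ w e) :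
    (pr ι L.Y O).map ι ≤ O := by
  rintro _ ⟨a, ha, rfl⟩
  exact hL.maps.mem_up hO ha

theorem map_le' (hL : XLoc L ι l ζ w e) (hO' : O' ∈ XX L ι ζ w e)
    (hR : pr ι L.Y O' = pr ι L.Y O) : (pr ι L.Y O).map ι ≤ O' :=
  hR ▸ map_le hL hO'

theorem map_mx (hL : XLoc L ι l ζ w e) (hO : O ∈ XX L ι ζ w e) (hO' : O' ∈ XX L ι ζ w e)
    (hR : pr ι L.Y O' = pr ι L.Y O) :
    ∀ s ∈ (pr ι L.Y O).map ι, s ∈ mx O ↔ s ∈ mx O' := by
  rintro _ ⟨a, ha, rfl⟩
  change ι a ∈ mx O ↔ ι a ∈ mx O'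
  rw [hL.maps.mx_up hO ha, hL.maps.mx_up hO' (hR ▸ ha), hR]

theorem s_mem (h : All L ι l ζ w e) {R : Subalgebra k M} (hR : R ∈ L.Y) (i : κ) : L.s i R ∈ R :=
  h.ok.sm R hR i

theorem sX_mx (h : All L ι l ζ w e) (hO : O ∈ XX L ι ζ w e) (i : κ) :
    sX L ι i O ∈ mx O ↔ L.s i (pr ι L.Y O) ∈ mx (pr ι L.Y O) :=
  h.loc.maps.mx_up hO (s_mem h (h.loc.maps.mem hO) i)

theorem sX_top (h : All L ι l ζ w e) (hO : O ∈ XX L ι ζ w e) (hR : pr ι L.Y O = ⊤)
    (i : κ) : IsU O (sX L ι i O) := by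
  refine isU_of_not_mx (h.loc.sm O hO i) fun hm => h.loc.sne O hO i ?_
  have h1 := (sX_mx h hO i).1 hm
  unfold sX up
  rw [hR] at h1 ⊢
  rw [mem_mx_top.1 h1, map_zero]

theorem prod_tau_mx (hL : XLoc L ι l ζ w e) (hO : O ∈ XX L ι ζ w e) {j : Fin 4}
    (ht : tau l ζ j O ∈ mx O) : ∏ j, tau l ζ j O ∈ mx O := by
  rw [← Finset.mul_prod_erase _ _ (Finset.mem_univ j)]
  exact mx_mul_right ht (O.prod_mem fun j' _ => hL.tm O hO j')

theorem eqn_inv (hL : XLoc L ι l ζ w e) (hO : O ∈ XX L ι ζ w e) :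
    ∏ i, sX L ι i O = (AA L ι ζ w e O)⁻¹ ^ e * ∏ j, tau l ζ j O := by
  rw [← hL.eqn O hO, inv_pow, inv_mul_cancel_left₀ (pow_ne_zero e (hL.ane O hO))]

theorem ss_mx (hL : XLoc L ι l ζ w e) (hO : O ∈ XX L ι ζ w e) {i : κ}
    (hs : sX L ι i O ∈ mx O) : ∏ i, sX L ι i O ∈ mx O := by
  classical
  rw [← Finset.mul_prod_erase _ _ (Finset.mem_univ i)]
  exact mx_mul_right hs (O.prod_mem fun i' _ => hL.sm O hO i')

/-- On the ramification divisors over the branch points `A` vanishes. -/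
theorem A_mx (hL : XLoc L ι l ζ w e) (hO : O ∈ XX L ι ζ w e) {j : Fin 4}
    (ht : tau l ζ j O ∈ mx O) (hs : ∀ i, IsU O (sX L ι i O)) : AA L ι ζ w e O ∈ mx O := by
  have h1 := prod_tau_mx hL hO ht
  have hu : IsU O (∏ i, sX L ι i O) := isU_prod fun i _ => hs i
  rcases hL.aa O hO with hA | hA
  · rw [← hL.eqn O hO] at h1
    exact mx_of_pow hA ((mx_or_of_mul (O.pow_mem hA e) hu.mem h1).resolve_right hu.not_mx)
  · exact absurd (eqn_inv hL hO ▸ mx_mul_left (O.pow_mem hA e) h1) hu.not_mx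

/-- On the ramification divisors over the branch curves `1 / A` vanishes. -/
theorem Ainv_mx (hL : XLoc L ι l ζ w e) (hO : O ∈ XX L ι ζ w e) {i : κ}
    (hs : sX L ι i O ∈ mx O) (ht : ∀ j, IsU O (tau l ζ j O)) :
    (AA L ι ζ w e O)⁻¹ ∈ mx O := by
  have h1 := ss_mx hL hO hs
  have hu : IsU O (∏ j, tau l ζ j O) := isU_prod fun j _ => ht j
  rcases hL.aa O hO with hA | hA
  · exact absurd (hL.eqn O hO ▸ mx_mul_left (O.pow_mem hA e) h1) hu.not_mx
  · rw [eqn_inv hL hO] at h1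
    exact mx_of_pow hA ((mx_or_of_mul (O.pow_mem hA e) hu.mem h1).resolve_right hu.not_mx)

theorem A_unit (he : e ≠ 0) (hL : XLoc L ι l ζ w e) (hO : O ∈ XX L ι ζ w e)
    (hs : ∀ i, IsU O (sX L ι i O)) (ht : ∀ j, IsU O (tau l ζ j O)) :
    IsU O (AA L ι ζ w e O) := by
  have hu : IsU O (∏ j, tau l ζ j O) := isU_prod fun j _ => ht j
  have hv : IsU O (∏ i, sX L ι i O) := isU_prod fun i _ => hs i
  rcases hL.aa O hO with hA | hA
  · rw [← hL.eqn O hO] at hu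
    exact IsU.of_pow hA he (IsU.of_mul (O.pow_mem hA e) hv.mem hu)
  · rw [eqn_inv hL hO] at hv
    simpa using (IsU.of_pow hA he (IsU.of_mul (O.pow_mem hA e) hu.mem hv)).inv

variable {P P' : Place k K}

theorem not_dim (h : All L ι l ζ w e) (hP : plO P ∈ XX L ι ζ w e) :
    ¬ Dim (plO P) (n + 1) := by
  obtain ⟨G, h1, h2, h3⟩ := h.loc.fine.chart hP
  exact htOne_stmt k K G (n + 1) _ P h1 h2 (h.fld.ind (n + 2) L.y h.ok.ind) h3

theorem pl (h : All L ι l ζ w e) (hP : plO P ∈ XX L ι ζ w e) :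
    pr ι L.Y (plO P) = ⊤ ∨ ∃ P₀ : Place k M, pr ι L.Y (plO P) = plO P₀ :=
  h.ok.tri _ (h.loc.maps.mem hP) fun h1 => not_dim h hP (h.loc.dim _ hP n h1)

theorem dim_pr (h : All L ι l ζ w e) (hO : O ∈ XX L ι ζ w e) {P₀ : Place k M}
    (hR : pr ι L.Y O = plO P₀) : Dim (pr ι L.Y O) (n + 1) := by
  have := h.loc.maps.mem hO
  rw [hR] at this ⊢
  exact h.ok.dim P₀ this

theorem top (h : All L ι l ζ w e) {j : Fin 4} (hP : plO P ∈ XX L ι ζ w e)
    (ht : tau l ζ j (plO P) ∈ mx (plO P)) (hs : ∀ i, IsU (plO P) (sX L ι i (plO P))) :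
    pr ι L.Y (plO P) = ⊤ := by
  refine (pl h hP).resolve_right fun ⟨P₀, hR⟩ => not_dim h hP ?_
  exact h.loc.dimZ _ hP _ (dim_pr h hP hR) (algM_zc h.loc ht _) fun ⟨_, i, hi⟩ => (hs i).not_mx hi

/-- The exceptional divisors lie over the branch curves, and `A` is a coordinate on the fibres. -/
theorem exc (h : All L ι l ζ w e) {i : κ} {j : Fin 4} (hP : plO P ∈ XX L ι ζ w e)
    (hs : sX L ι i (plO P) ∈ mx (plO P)) (ht : tau l ζ j (plO P) ∈ mx (plO P)) :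
    (∃ Q : Place k M, pr ι L.Y (plO P) = plO Q ∧ plO Q ∈ L.Y ∧ L.s i (plO Q) ∈ mx (plO Q)) ∧
      IsU (plO P) (AA L ι ζ w e (plO P)) ∧
      ¬ AlgM (plO P) ((pr ι L.Y (plO P)).map ι) (AA L ι ζ w e (plO P)) := by
  obtain ⟨P₀, hR⟩ := (pl h hP).resolve_left fun h1 => (sX_top h hP h1 i).not_mx hs
  have h1 := (sX_mx h hP i).1 hs
  have h2 := h.loc.maps.mem hP
  have hd := dim_pr h hP hR
  rw [hR] at h1 h2
  have h4 : IsU (plO P) (AA L ι ζ w e (plO P)) := by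
    by_contra hn
    exact not_dim h hP (h.loc.dimZ _ hP _ hd (algM_zc h.loc ht _) fun h5 => hn h5.1)
  exact ⟨⟨P₀, hR, h2, h1⟩, h4, fun h5 => not_dim h hP (h.loc.dimA _ hP _ hd h4 h5)⟩

theorem uE (h : All L ι l ζ w e) {i : κ} {j : Fin 4}
    (hP : plO P ∈ XX L ι ζ w e) (hP' : plO P' ∈ XX L ι ζ w e)
    (hs : sX L ι i (plO P) ∈ mx (plO P)) (ht : tau l ζ j (plO P) ∈ mx (plO P))
    (hs' : sX L ι i (plO P') ∈ mx (plO P')) (ht' : tau l ζ j (plO P') ∈ mx (plO P')) :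
    P = P' := by
  obtain ⟨⟨Q, h1, q1, q2⟩, h2, h3⟩ := exc h hP hs ht
  obtain ⟨⟨Q', h1', q3, q4⟩, h2', h3'⟩ := exc h hP' hs' ht'
  obtain rfl := h.ok.uniq i Q Q' q1 q3 q2 q4
  have hR := h1'.trans h1.symm
  have hz := (zeta_mem h.loc hP ht).trans (zeta_mem h.loc hP' ht').symm
  have p1 := h.loc.pts _ hP _ h2.mem (Or.inl rfl)
  have p2 := h.loc.pts _ hP' _ h2'.mem (Or.inl rfl)
  rw [AA_congr hz hR] at h2' h3' p2
  rw [hR] at h3' p2
  rw [zc_congr hz] at p2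
  rw [tau_congr hz] at ht'
  obtain ⟨c, b, hc⟩ := zc_const h.loc ht
  refine plO_inj (ext1 p1 p2 (map_le h.loc hP) (map_le' h.loc hP' hR) (map_mx h.loc hP hP' hR)
    h2.mem h2'.mem h3 h3' fun g hg => ?_).le
  rcases gen_cases hg with hg | rfl | rfl
  · exact ⟨g, le_pu hg, by simpa using zero_mem_mx, by simpa using zero_mem_mx⟩
  · exact ⟨_, Subalgebra.algebraMap_mem _ c, hc ▸ mx_mul_left (Subalgebra.algebraMap_mem _ b) ht,
      hc ▸ mx_mul_left (Subalgebra.algebraMap_mem _ b) ht'⟩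
  · exact ⟨_, self_pu, by simpa using zero_mem_mx, by simpa using zero_mem_mx⟩

theorem uT (h : All L ι l ζ w e) {j : Fin 4}
    (hO : O ∈ XX L ι ζ w e) (hO' : O' ∈ XX L ι ζ w e)
    (ht : tau l ζ j O ∈ mx O) (h1 : pr ι L.Y O = ⊤)
    (ht' : tau l ζ j O' ∈ mx O') (h1' : pr ι L.Y O' = ⊤) : O = O' := by
  have hR := h1'.trans h1.symm
  have hz := (zeta_mem h.loc hO ht).trans (zeta_mem h.loc hO' ht').symm
  have h2 := A_mx h.loc hO ht (sX_top h hO h1)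
  have h2' := A_mx h.loc hO' ht' (sX_top h hO' h1')
  have p1 := h.loc.pts _ hO _ h2.1 (Or.inl rfl)
  have p2 := h.loc.pts _ hO' _ h2'.1 (Or.inl rfl)
  rw [AA_congr hz hR] at h2' p2
  rw [hR, zc_congr hz] at p2
  rw [tau_congr hz] at ht'
  obtain ⟨c, b, hc⟩ := zc_const h.loc ht
  refine ext0 p1 p2 (map_le h.loc hO) (map_le' h.loc hO' hR) (map_mx h.loc hO hO' hR)
    fun g hg => ?_
  rcases gen_cases hg with hg | rfl | rfl
  · exact ⟨g, hg, by simpa using zero_mem_mx, by simpa using zero_mem_mx⟩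
  · exact ⟨_, Subalgebra.algebraMap_mem _ c, hc ▸ mx_mul_left (Subalgebra.algebraMap_mem _ b) ht,
      hc ▸ mx_mul_left (Subalgebra.algebraMap_mem _ b) ht'⟩
  · exact ⟨0, Subalgebra.zero_mem _, by simpa using h2, by simpa using h2'⟩

theorem not_algM (h : All L ι l ζ w e) {P₀ : Place k M}
    (hP : plO P ∈ XX L ι ζ w e) (ht : ∀ j, IsU (plO P) (tau l ζ j (plO P)))
    (hR : pr ι L.Y (plO P) = plO P₀) :
    ¬ AlgM (plO P) ((pr ι L.Y (plO P)).map ι) ζ := fun ha => by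
  refine not_dim h hP (h.loc.dimZ _ hP _ (dim_pr h hP hR)
    ((zc_eq (zeta_of_units ht)).symm ▸ ha) fun ⟨h1, i, hi⟩ => ?_)
  exact h1.inv.not_mx (Ainv_mx h.loc hP hi ht)

theorem uV (h : All L ι l ζ w e) {P₀ : Place k M}
    (hP : plO P ∈ XX L ι ζ w e) (hP' : plO P' ∈ XX L ι ζ w e)
    (ht : ∀ j, IsU (plO P) (tau l ζ j (plO P))) (ht' : ∀ j, IsU (plO P') (tau l ζ j (plO P')))
    (h1 : pr ι L.Y (plO P) = plO P₀) (h1' : pr ι L.Y (plO P') = plO P₀) :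
    P = P' := by
  have hR := h1'.trans h1.symm
  have z1 := zeta_of_units ht
  have z2 := zeta_of_units ht'
  have hz : ζ ∈ plO P ↔ ζ ∈ plO P' := iff_of_true z1 z2
  have n1 := not_algM h hP ht h1
  have n2 := not_algM h hP' ht' h1'
  rw [hR] at n2
  have hm := map_mx h.loc hP hP' hR
  have hsS : ∀ i, sX L ι i (plO P) ∈ (pr ι L.Y (plO P)).map ι := fun i =>
    ⟨_, s_mem h (h.loc.maps.mem hP) i, rfl⟩
  refine plO_inj (le_of_eq ?_)
  by_cases hs : ∃ i, sX L ι i (plO P) ∈ mx (plO P)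
  · obtain ⟨i, hi⟩ := hs
    have hi' : sX L ι i (plO P') ∈ mx (plO P') := sX_congr hR i ▸ (hm _ (hsS i)).1 hi
    have h2 := Ainv_mx h.loc hP hi ht
    have h2' := Ainv_mx h.loc hP' hi' ht'
    have p1 := h.loc.pts _ hP _ h2.1 (Or.inr rfl)
    have p2 := h.loc.pts _ hP' _ h2'.1 (Or.inr rfl)
    rw [AA_congr hz hR] at h2' p2
    rw [hR, zc_eq z2] at p2
    rw [zc_eq z1] at p1
    refine ext1 p1 p2 (map_le h.loc hP) (map_le' h.loc hP' hR) hm z1 z2 n1 n2 fun g hg => ?_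
    rcases gen_cases hg with hg | rfl | rfl
    · exact ⟨g, le_pu hg, by simpa using zero_mem_mx, by simpa using zero_mem_mx⟩
    · exact ⟨_, self_pu, by simpa using zero_mem_mx, by simpa using zero_mem_mx⟩
    · exact ⟨0, Subalgebra.zero_mem _, by simpa using h2, by simpa using h2'⟩
  · have hu : ∀ i, IsU (plO P) (sX L ι i (plO P)) := fun i =>
      isU_of_not_mx (h.loc.sm _ hP i) fun hi => hs ⟨i, hi⟩
    have hu' : ∀ i, IsU (plO P') (sX L ι i (plO P')) := fun i =>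
      isU_of_not_mx (h.loc.sm _ hP' i) fun hi =>
        (hu i).not_mx ((hm _ (hsS i)).2 (sX_congr hR i ▸ hi))
    have he : e ≠ 0 := by have := h.ext.he; omega
    have p1 := h.loc.pts _ hP _ (A_unit he h.loc hP hu ht).mem (Or.inl rfl)
    have p2 := h.loc.pts _ hP' _ (A_unit he h.loc hP' hu' ht').mem (Or.inl rfl)
    rw [AA_congr hz hR, hR, zc_eq z2, ← Subalgebra.coe_map] at p2
    rw [zc_eq z1, ← Subalgebra.coe_map] at p1
    have hS : ∀ i, IsU ((pr ι L.Y (plO P)).map ι) (sX L ι i (plO P)) := fun i => by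
      have h3 : IsU (pr ι L.Y (plO P)) (L.s i (pr ι L.Y (plO P))) :=
        isU_of_not_mx (s_mem h (h.loc.maps.mem hP) i) fun h4 =>
          (hu i).not_mx ((sX_mx h hP i).2 h4)
      exact ⟨(hu i).1, hsS i, _, h3.inv_mem, map_inv₀ ι _⟩
    have hv := (isU_prod (s := Finset.univ) fun i _ => hS i).inv
    have e1 := h.loc.eqn _ hP
    have e2 : ∏ j, tau l ζ j (plO P) = ζ * (ζ - 1) * (ζ - algebraMap k K l) := by
      simp [tau, eta, z1, Fin.prod_univ_four]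
    have e3 : AA L ι ζ w e (plO P) ^ e =
        (∏ i, sX L ι i (plO P))⁻¹ * (ζ * (ζ - 1) * (ζ - algebraMap k K l)) := by
      rw [← e2, ← e1, mul_comm (AA L ι ζ w e (plO P) ^ e),
        inv_mul_cancel_left₀ (Finset.prod_ne_zero_iff.2 fun i _ => (hu i).1)]
    rcases h.ext.he with rfl | rfl
    · refine ext1 p1 p2 (map_le h.loc hP) (map_le' h.loc hP' hR) hm z1 z2 n1 n2 fun g hg =>
        ⟨g, ?_, by simpa using zero_mem_mx, by simpa using zero_mem_mx⟩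
      rcases hg with hg | rfl | rfl
      · exact le_pu hg
      · exact self_pu
      · rw [← pow_one (AA L ι ζ w 1 (plO P)), e3]
        exact mul_mem (le_pu hv.mem) (mul_mem (mul_mem self_pu (sub_mem self_pu (one_mem _)))
          (sub_mem self_pu (Subalgebra.algebraMap_mem _ l)))
    · exact ext3 p1 p2 hm n1 n2 hv l e3

end PL

theorem pl_stmt : PlStmt := fun _ _ _ _ _ _ _ _ _ _ _ _ _ _ _ _ _ _ _ _ _ h =>
  { uE := fun _ _ _ _ => PL.uE h
    eA := fun _ _ _ hP hs ht => (PL.exc h hP hs ht).2.1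
    top := fun _ _ => PL.top h
    uT := fun _ _ _ hP hP' ht h1 ht' h1' => plO_inj (PL.uT h hP hP' ht h1 ht' h1').le
    pl := fun _ => PL.pl h
    uV := fun _ _ _ => PL.uV h }

end Pool.Agent.MP_20d318_ag.CH
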