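import Pool.Agent.MP_20d318_ag.CH.Spec

/-! Sections that are rational functions of `ζ`. -/

set_option autoImplicit false
set_option linter.unusedSectionVars false

namespace Pool.Agent.MP_20d318_ag.CH

open Pool.Agent.MP_fd6584_ag.Fn Pool.Agent.CBk Polynomial
open Pool.Agent.MP_fd6584_ag.AG hiding deg_inv deg_congr deg_of_unit deg_mul deg_prod deg_zpow
  deg_eq_zero deg_nonneg deg_div deg_pow
open Pool.Agent.MVg (Sc Fac GaussStmt)

namespace PolR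

variable {k M K Λ κ : Type} {n : ℕ} [Field k] [Field M] [Field K] [Algebra k M] [Algebra k K]

/-- A valuation ring over the prime `π` of `M[ζ]`. -/
theorem exists_val {ι : M →ₐ[k] K} {ζ : K} (htr : Tr ι ζ) {π : M[X]} (hπ : Irreducible π) :
    ∃ V : Subalgebra k K, IsVal V ∧ Dom ⊤ (V.comap ι) ∧ ∀ H : M[X],
      H.eval₂ (ι : M →+* K) ζ ∈ V ∧ (H.eval₂ (ι : M →+* K) ζ ∈ mx V ↔ π ∣ H) := by
  have : Fact (Irreducible π) := ⟨hπ⟩
  obtain ⟨V, hV, hd, h⟩ := XAlg.exists_val_ev ι ⊤ ζ htr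
    ((IsScalarTower.toAlgHom k M (AdjoinRoot π)).comp (Subalgebra.val ⊤))
    (fun u hu => isU_top.2 fun h0 => hu (by rw [show u = 0 from Subtype.ext h0, map_zero]))
    (AdjoinRoot.root π)
  refine ⟨V, hV, hd, fun H => ?_⟩
  have h1 := h (H.map ((Subalgebra.topEquiv (R := k) (A := M)).symm : M →+* (⊤ : Subalgebra k M)))
  rw [XAlg.ev_eq, XAlg.ev_eq, eval₂_map, eval₂_map] at h1
  rw [← AdjoinRoot.mk_eq_zero, ← AdjoinRoot.aeval_eq, aeval_def]
  exact h1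

variable [Fintype κ] {L : Lv k M Λ κ n} {ι : M →ₐ[k] K} {l : k} {ζ w : K} {e : ℕ}
  {g : Subalgebra k M → M} {t : ℤ} {a : κ → Fin 4 → ℤ} {O : Subalgebra k K}

/-- Removing the exceptional factors where they are units. -/
theorem strip {f : K} (hf : f * lb L ι l ζ g t a O ∈ O) (hz : ζ ∈ O)
    (hE : ∀ i j, IsU O (EE L ι l ζ i j O)) : f * ι (g (pr ι L.Y O)) ∈ O := by
  have u : IsU O (∏ i, ∏ j, EE L ι l ζ i j O ^ (-a i j)) :=
    isU_prod fun i _ => isU_prod fun j _ => (hE i j).zpow _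
  have := u.div_mem hf
  rwa [lb, ← mul_assoc, mul_div_cancel_right₀ _ u.1, CBk.eta, if_pos hz, one_zpow, mul_one] at this

/-- A section that is a rational function of `ζ` is a polynomial. -/
theorem poly (h : All L ι l ζ w e) (hg : IsCart L.Y g) (A B : M[X]) (hB : B ≠ 0)
    (hs : Sc (XX L ι ζ w e) (lb L ι l ζ g t a)
      (A.eval₂ (ι : M →+* K) ζ / B.eval₂ (ι : M →+* K) ζ)) :
    ∃ G : M[X], A.eval₂ (ι : M →+* K) ζ / B.eval₂ (ι : M →+* K) ζ = G.eval₂ (ι : M →+* K) ζ := by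
  obtain ⟨A', B', c, hc, rfl, rfl⟩ := UniqueFactorizationMonoid.exists_reduced_factors' A B hB
  have hc0 : c.eval₂ (ι : M →+* K) ζ ≠ 0 := fun e => left_ne_zero_of_mul hB (h.ext.tr _ e)
  have hB0 : B'.eval₂ (ι : M →+* K) ζ ≠ 0 := fun e => right_ne_zero_of_mul hB (h.ext.tr _ e)
  rw [eval₂_mul, eval₂_mul, mul_div_mul_left _ _ hc0] at hs ⊢
  by_cases hu : IsUnit B'
  · obtain ⟨G, hG⟩ := hu.dvd (a := A')
    exact ⟨G, by rw [hG, eval₂_mul, mul_div_cancel_left₀ _ hB0]⟩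
  obtain ⟨π, hπ, hd⟩ := WfDvdMonoid.exists_irreducible_factor hu (right_ne_zero_of_mul hB)
  obtain ⟨V, hV, hT, hm⟩ := exists_val h.ext.tr hπ
  have htop := h.ok.nice.toFine.top
  obtain ⟨O, hO, hOV, hR⟩ := h.below htop hV hT
  have hz : ζ ∈ O := XTst.mem_of_dom hOV (XTst.zor (h.loc.zm O hO)) (by simpa using (hm X).1)
  have hU : ∀ m, m ≠ 0 → IsU O (ι m) := fun m hm =>
    h.loc.maps.isU_up hO (by rw [hR]; exact isU_top.2 hm)
  have h1 := strip (hs O hO) hz fun i j =>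
    h.div.eu O hO i j (Or.inl (hU _ ((h.ok.cs i).ne (h.loc.maps.mem hO))))
  have hl := hU _ (hg.ne (h.loc.maps.mem hO))
  have h2 := hl.div_mem h1
  rw [mul_div_cancel_right₀ _ hl.ne] at h2
  have hA := mx_mul_left (hOV.1 h2) ((hm B').2.2 hd)
  rw [div_mul_cancel₀ _ hB0] at hA
  exact absurd (hc ((hm A').2.1 hA) hd) hπ.not_isUnit

/-- The coefficients of a polynomial section. -/
theorem coeff_sc (hG : GaussStmt) (h : All L ι l ζ w e) (hg : IsCart L.Y g) (G : M[X])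
    (hs : Sc (XX L ι ζ w e) (lb L ι l ζ g t a) (G.eval₂ (ι : M →+* K) ζ)) (m : ℕ) :
    Sc L.Y g (G.coeff m) := by
  refine MVg.sc_of_places h.ok.nice hg fun P hP => ?_
  obtain ⟨V, hV, hd, hu, hc⟩ := hG k M K ι P ζ h.ext.tr
  obtain ⟨O, hO, d, e⟩ := h.below hP hV hd
  have hz : ζ ∈ O := XTst.mem_of_dom d (XTst.zor (h.loc.zm O hO)) (XTst.mem_of_sub (hu 0).mem)
  have ht := XTst.tau_unit (l := l) hz fun c _ =>
    d.2 _ (O.sub_mem hz (O.algebraMap_mem c)) (hu c)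
  have a := strip (hs O hO) hz fun i j => h.div.eu O hO i j (Or.inr (ht j))
  rw [e] at a
  have b := hc (G * C (g (plO P))) (by rw [eval₂_mul, eval₂_C]; exact d.1 a) m
  rwa [coeff_mul_C] at b

end PolR

theorem pol_stmt : PolStmt := by
  intro hG k M K Λ κ n _ _ _ _ _ _ _ _ _ L ι l ζ w e h g t a hg μ h0 ⟨A, B, hB, hμ⟩ hs
  subst hμ
  obtain ⟨G, hG'⟩ := PolR.poly h hg A B hB hs
  rw [hG'] at hs h0
  exact ⟨G.leadingCoeff, fun h1 => h0 (by rw [leadingCoeff_eq_zero.1 h1, eval₂_zero]),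
    PolR.coeff_sc hG h hg G hs _⟩

end Pool.Agent.MP_20d318_ag.CH
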