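import Pool.Agent.MP_20d318_ag.CH.Spec

/-! Row PT: points of the blow-up over a given point. -/

set_option autoImplicit false
set_option linter.unusedSectionVars false

namespace Pool.Agent.MP_20d318_ag.CH

open Pool.Agent.MP_fd6584_ag.Fn Pool.Agent.CBk
open Pool.Agent.MP_fd6584_ag.AG hiding deg_inv deg_congr deg_of_unit deg_mul deg_prod deg_zpow
  deg_eq_zero deg_nonneg deg_div deg_pow
open Pool.Agent.CBk.XTst (tb tr_tb mem_of_dom zor mem_of_sub tau_eq tau_unit)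

namespace PtA

variable {k M K Λ κ : Type} {n : ℕ} [Field k] [Field M] [Field K] [Algebra k M] [Algebra k K]
  [Fintype κ] {L : Lv k M Λ κ n} {ι : M →ₐ[k] K} {l : k} {ζ w : K} {e : ℕ} {O V : Subalgebra k K}
  {R : Subalgebra k M}

theorem val_pow (hV : IsVal V) {a : K} (h : a ^ e ∈ mx V) : a ∈ mx V := by
  refine mx_of_pow (by_contra fun hn => ?_) h
  have h0 : a ≠ 0 := fun h0 => hn (h0 ▸ V.zero_mem)
  have := mx_mul_right h (V.pow_mem (hV.inv_mx hn).1 e)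
  rw [← mul_pow, mul_inv_cancel₀ h0, one_pow] at this
  exact one_not_mem_mx this

variable (h : All L ι l ζ w e)
include h

theorem s_mx (hO : O ∈ XX L ι ζ w e) {i : κ} (hs : L.s i (pr ι L.Y O) ∈ mx (pr ι L.Y O)) :
    sX L ι i O ∈ mx O :=
  (h.loc.maps.mx_up hO hs.1).2 hs

theorem A_not (hO : O ∈ XX L ι ζ w e) (hu : ∀ j, IsU O (tau l ζ j O)) {i : κ}
    (hi : sX L ι i O ∈ mx O) : AA L ι ζ w e O ∉ O := fun hA => by
  classical
  have h1 : ∏ i, sX L ι i O ∈ mx O := by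
    rw [← Finset.mul_prod_erase _ _ (Finset.mem_univ i)]
    exact mx_mul_right hi (O.prod_mem fun j _ => h.loc.sm O hO j)
  have := mx_mul_left (O.pow_mem hA e) h1
  rw [h.loc.eqn O hO] at this
  exact this.2 (isU_prod fun j _ => hu j)

theorem pT (hR : R ∈ L.Y) (j : Fin 4) : ∃ O ∈ XX L ι ζ w e, pr ι L.Y O = R ∧ tau l ζ j O ∈ mx O ∧
    AA L ι ζ w e O ∈ mx O ∧ ∃ c : k, zc ζ O - algebraMap k K c ∈ mx O := by
  have hz : ζ ≠ 0 := by simpa using h.ext.tr.ne 0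
  have hs : ∏ i, L.s i R ≠ 0 := Finset.prod_ne_zero_iff.2 fun i _ => (h.ok.cs i).ne hR
  have hs' : ι (∏ i, L.s i R) ≠ 0 := (map_ne_zero ι).2 hs
  obtain ⟨V, hV, hd, hv⟩ := (up_stmt k M K ι R _ (h.gY.loc _ hR) (tr_tb (l := l) h.ext.tr j hs)).1 0
  rw [map_zero, sub_zero] at hv
  obtain ⟨O, hO, hOV, he⟩ := h.below hR hV hd
  have ht : tb l ζ j ∈ mx V := by
    have := mx_mul_right (b := ι (∏ i, L.s i R)) hv
      (hd.1 (R.prod_mem fun i _ => h.ok.sm R hR i))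
    rwa [div_mul_cancel₀ _ hs'] at this
  obtain ⟨e0, c0, e1⟩ := tau_eq hz (h.loc.zm O hO) hOV ht
  have ht' : tau l ζ j O ∈ mx O := mx_of_le hOV.1 (h.loc.tm O hO j) (e0 ▸ ht)
  have hA : AA L ι ζ w e O ∈ mx V := by
    refine val_pow (e := e) hV ?_
    have e2 := h.loc.eqn O hO
    rw [← Finset.mul_prod_erase _ (tau l ζ · O) (Finset.mem_univ j), e0, h.prod_sX, he] at e2
    rw [eq_div_of_mul_eq hs' e2, ← div_mul_eq_mul_div]
    exact mx_mul_right hv (hOV.1 (O.prod_mem fun j' _ => h.loc.tm O hO j'))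
  exact ⟨O, hO, he, ht', mx_of_le hOV.1 (mem_of_dom hOV (h.loc.aa O hO) hA.1) hA, c0,
    by rwa [e1, ← e0]⟩

theorem pG [Infinite k] (hR : R ∈ L.Y) (i : κ) (hs : L.s i R ∈ mx R) :
    ∃ O ∈ XX L ι ζ w e, pr ι L.Y O = R ∧ (AA L ι ζ w e O)⁻¹ ∈ mx O ∧ zc ζ O = ζ ∧
      (∀ j, IsU O (tau l ζ j O)) ∧
      ∃ c : k, c ≠ 0 ∧ c ≠ 1 ∧ c ≠ l ∧ ζ - algebraMap k K c ∈ mx O := by
  classical
  obtain ⟨c0, h0⟩ := Infinite.exists_notMem_finset ({0, 1, l} : Finset k)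
  simp only [Finset.mem_insert, Finset.mem_singleton, not_or] at h0
  obtain ⟨V, hV, hd, hv⟩ := (up_stmt k M K ι R ζ (h.gY.loc _ hR) h.ext.tr).1 c0
  obtain ⟨O, hO, hOV, he⟩ := h.below hR hV hd
  have hz : ζ ∈ O := mem_of_dom hOV (zor (h.loc.zm O hO)) (mem_of_sub hv.1)
  have hv' : ζ - algebraMap k K c0 ∈ mx O :=
    mx_of_le hOV.1 (O.sub_mem hz (O.algebraMap_mem _)) hv
  have hu : ∀ j, IsU O (tau l ζ j O) := tau_unit hz fun c hc => by
    have hne : c0 - c ≠ 0 := sub_ne_zero.2 (by rcases hc with rfl | rfl | rfl <;> tauto)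
    have := (isU_const (O := O) hne).add_mx (h.gX.loc O hO) hv'
    rwa [map_sub, sub_add_sub_cancel'] at this
  have hA := A_not h hO hu (s_mx h hO (he ▸ hs))
  exact ⟨O, hO, he, ⟨(h.loc.aa O hO).resolve_left hA, fun hh => hA (by simpa using hh.inv_mem)⟩,
    if_pos hz, hu, c0, h0.1, h0.2.1, h0.2.2, hv'⟩

theorem rat_up (hO : O ∈ XX L ι ζ w e) (hr : RatPt (pr ι L.Y O)) {a : K} (ha : a ∈ mx O)
    (ha' : a = AA L ι ζ w e O ∨ a = (AA L ι ζ w e O)⁻¹) {c : k}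
    (hc : zc ζ O - algebraMap k K c ∈ mx O) : RatPt O := by
  refine ratPt_of (h.loc.pts O hO a ha.1 ha') rfl ?_
  rintro _ (⟨b, hb, rfl⟩ | rfl | rfl)
  · obtain ⟨d, hd⟩ := hr b hb
    have := (h.loc.maps.mx_up hO hd.1).2 hd
    rw [map_sub, AlgHom.commutes] at this
    exact ⟨d, this⟩
  · exact ⟨c, hc⟩
  · exact ⟨0, by rwa [map_zero, sub_zero]⟩

theorem sN_T (hO : O ∈ XX L ι ζ w e) {j : Fin 4} (ht : tau l ζ j O ∈ mx O)
    (hA : AA L ι ζ w e O ∈ mx O) : tau l ζ j O / ∏ i, EE L ι l ζ i j O ∈ mx O := by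
  have h1 : IsU O (∏ i, EE L ι l ζ i j O / sX L ι i O) :=
    isU_prod fun i _ => h.div.eT O hO i j hA.1 ht
  have h2 : IsU O (∏ j' ∈ Finset.univ.erase j, tau l ζ j' O) :=
    isU_prod fun j' hj => isU_of_not_mx (h.loc.tm O hO j') fun hm =>
      Finset.ne_of_mem_erase hj (h.loc.t1 O hO j' j hm ht)
  have h3 := h.loc.eqn O hO
  rw [← Finset.mul_prod_erase _ (tau l ζ · O) (Finset.mem_univ j)] at h3
  have he : e ≠ 0 := by rcases h.ext.he with rfl | rfl <;> decide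
  have := mx_div (mx_div (mx_pow hA he) h1) h2
  rwa [Finset.prod_div_distrib, div_div_eq_mul_div, h3, div_right_comm, mul_div_cancel_right₀ _ h2.1]
    at this

theorem rat [Infinite k] (i : κ ⊕ Fin 4) :
    ∃ O ∈ XX L ι ζ w e, RatPt O ∧ sN L ι l ζ i O ∈ mx O := by
  rcases i with i | j
  · obtain ⟨R, hR, hr, hs⟩ := h.ok.rat i
    obtain ⟨O, hO, rfl, hA, hz, hu, c, -, -, -, hc⟩ := pG h hR i hs
    exact ⟨O, hO, rat_up h hO hr hA (.inr rfl) (hz.symm ▸ hc),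
      mx_div (s_mx h hO hs) (isU_prod fun j _ => h.div.eu O hO i j (.inr (hu j)))⟩
  · obtain ⟨i⟩ := h.ok.ne
    obtain ⟨R, hR, hr, -⟩ := h.ok.rat i
    obtain ⟨O, hO, rfl, ht, hA, c, hc⟩ := pT h hR j
    exact ⟨O, hO, rat_up h hO hr hA (.inl rfl) hc, sN_T h hO ht hA⟩

end PtA

theorem pt_stmt : PtStmt := fun _ _ _ _ _ _ _ _ _ _ _ _ _ _ _ _ _ _ _ _ _ h =>
  ⟨fun _ hR j => PtA.pT h hR j, fun _ hR i hs => PtA.pG h hR i hs, PtA.rat h⟩

end Pool.Agent.MP_20d318_ag.CH
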