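import Pool.Agent.MP_20d318_ag.CH.Spec

/-! Automorphisms of one level lift to the next. -/

set_option autoImplicit false
set_option linter.unusedSectionVars false

namespace Pool.Agent.MP_20d318_ag.CH

open Pool.Agent.MP_fd6584_ag.Fn Pool.Agent.CBk
open Pool.Agent.MP_fd6584_ag.AG hiding deg_inv deg_congr deg_of_unit deg_mul deg_prod deg_zpow
  deg_eq_zero deg_nonneg deg_div deg_pow
open Pool.Agent.MP_20d318_ag.CB.P.SigX (sq_unit cc comap_comap eta_map zc_map tau_map)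

namespace Sig

variable {k M K Λ κ : Type} {n : ℕ} [Field k] [Field M] [Field K] [Algebra k M] [Algebra k K]
  [Fintype κ] {L : Lv k M Λ κ n} {ι : M →ₐ[k] K} {l : k} {ζ w : K} {e : ℕ} {σ : M ≃ₐ[k] M}
  {Φ : K ≃ₐ[k] K} {r : M} {O : Subalgebra k K}

variable (L ι ζ w e σ Φ r) in
/-- A lift of `σ` to the field. -/
structure Lt : Prop where
  h1 : ∀ m, Φ (ι m) = ι (σ m)
  h2 : Φ ζ = ζ
  h3 : Φ w = ι (r ^ (e - 1)) * w
  ne : r ≠ 0
  sq : σ L.φ = L.φ * r ^ 2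
  inv : ∀ R, R ∈ L.Y ↔ R.comap (σ : M →ₐ[k] M) ∈ L.Y
  st : ∀ i, ∀ R ∈ L.Y, IsU R (σ (L.s i (R.comap (σ : M →ₐ[k] M))) / L.s i R)

theorem Lt.symm (h : Lt L ι ζ w e σ Φ r) : Lt L ι ζ w e σ.symm Φ.symm (σ.symm r)⁻¹ := by
  have h1 : ∀ m, Φ.symm (ι m) = ι (σ.symm m) := fun m => by
    rw [Φ.symm_apply_eq, h.h1, σ.apply_symm_apply]
  have h0 : σ.symm r ≠ 0 := (map_ne_zero _).2 h.ne
  have hi : ∀ R, R ∈ L.Y ↔ R.comap (σ.symm : M →ₐ[k] M) ∈ L.Y := fun R => by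
    rw [h.inv (R.comap _), cc]
  refine ⟨h1, Φ.symm_apply_eq.2 h.h2.symm, ?_, inv_ne_zero h0, ?_, hi, fun i R hR => ?_⟩
  · rw [Φ.symm_apply_eq, map_mul, h.h1, h.h3, map_pow σ, map_inv₀, σ.apply_symm_apply, inv_pow,
      map_inv₀, inv_mul_cancel_left₀ ((map_ne_zero ι).2 (pow_ne_zero _ h.ne))]
  · rw [σ.symm_apply_eq, map_mul, h.sq, map_pow, map_inv₀, σ.apply_symm_apply]
    have := h.ne
    field_simp
  · have h2 := (isU_comap (σ.symm : M →ₐ[k] M)).1 (h.st i _ ((hi R).1 hR)).inv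
    rw [cc, inv_div, map_div₀] at h2
    simpa using h2

theorem dom_comap (h : All L ι l ζ w e) (hL : Lt L ι ζ w e σ Φ r) (hO : O ∈ XX L ι ζ w e) :
    Dom ((pr ι L.Y O).comap (σ : M →ₐ[k] M)) ((O.comap (Φ : K →ₐ[k] K)).comap ι) := by
  rw [comap_comap hL.h1]
  exact (h.loc.maps.dom hO).comap _

theorem pr_comap (h : All L ι l ζ w e) (hL : Lt L ι ζ w e σ Φ r) (hO : O ∈ XX L ι ζ w e) :
    pr ι L.Y (O.comap (Φ : K →ₐ[k] K)) = (pr ι L.Y O).comap (σ : M →ₐ[k] M) :=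
  pr_eq h.gY (isLocalRing_comap _ (mp_loc hO)) ((hL.inv _).1 (h.loc.maps.mem hO))
    (dom_comap h hL hO)

theorem up_unit (h : All L ι l ζ w e) (hL : Lt L ι ζ w e σ Φ r) (hO : O ∈ XX L ι ζ w e)
    {f f' : Subalgebra k M → M}
    (hf : ∀ R ∈ L.Y, IsU R (σ (f (R.comap (σ : M →ₐ[k] M))) / f' R)) :
    IsU O (Φ (up ι L.Y f (O.comap (Φ : K →ₐ[k] K))) / up ι L.Y f' O) := by
  unfold up
  rw [pr_comap h hL hO, hL.h1, ← map_div₀]
  exact h.loc.maps.isU_up hO (hf _ (h.loc.maps.mem hO))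

theorem jj_unit (h : Ok L) (hL : Lt L ι ζ w e σ Φ r) {R : Subalgebra k M} (hR : R ∈ L.Y) :
    IsU R (r * σ (L.jj (R.comap (σ : M →ₐ[k] M))) / L.jj R) := by
  refine sq_unit (h.nice.nrm R hR) ?_
  have u : IsU R (∏ i, σ (L.s i (R.comap (σ : M →ₐ[k] M))) / L.s i R) :=
    isU_prod fun i _ => hL.st i R hR
  rw [Finset.prod_div_distrib, ← map_prod, ← h.eqn _ hR, ← h.eqn _ ((hL.inv R).1 hR), map_mul,
    map_pow, hL.sq, mul_assoc, mul_div_mul_left _ _ h.φne, ← mul_pow, ← div_pow] at u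
  exact u

theorem ja_unit (h : Ok L) (he : e = 1 ∨ e = 2) (hL : Lt L ι ζ w e σ Φ r) {R : Subalgebra k M}
    (hR : R ∈ L.Y) : IsU R (σ (L.φ * L.jj (R.comap (σ : M →ₐ[k] M)) ^ (3 - e)) /
      (r ^ (e - 1) * (L.φ * L.jj R ^ (3 - e)))) := by
  have u := jj_unit h hL hR
  have h0 := h.cj.ne hR
  have h1 := h.φne
  have h2 := hL.ne
  have key : σ (L.φ * L.jj (R.comap (σ : M →ₐ[k] M)) ^ (3 - e)) /
      (r ^ (e - 1) * (L.φ * L.jj R ^ (3 - e))) =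
      (r * σ (L.jj (R.comap (σ : M →ₐ[k] M))) / L.jj R) ^ (3 - e) := by
    rw [map_mul, map_pow, hL.sq]
    rcases he with rfl | rfl <;> norm_num <;> field_simp
  rw [key]
  rcases he with rfl | rfl
  · rw [show 3 - 1 = 2 from rfl, sq]
    exact u.mul u
  · rwa [show 3 - 2 = 1 from rfl, pow_one]

theorem aa_unit (h : All L ι l ζ w e) (hL : Lt L ι ζ w e σ Φ r) (hO : O ∈ XX L ι ζ w e) :
    IsU O (AA L ι ζ w e O / Φ (AA L ι ζ w e (O.comap (Φ : K →ₐ[k] K)))) := by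
  have u := up_unit h hL hO (f := fun R => L.φ * L.jj R ^ (3 - e))
    (f' := fun R => r ^ (e - 1) * (L.φ * L.jj R ^ (3 - e)))
    fun R hR => ja_unit h.ok h.ext.he hL hR
  have hw := h.loc.wne
  have he := pow_ne_zero (2 * (3 - e)) (h.loc.gZ O hO).ne
  have hr : ι (r ^ (e - 1)) ≠ 0 := (map_ne_zero ι).2 (pow_ne_zero _ hL.ne)
  have e1 : up ι L.Y (fun R => r ^ (e - 1) * (L.φ * L.jj R ^ (3 - e))) O =
      ι (r ^ (e - 1)) * up ι L.Y (fun R => L.φ * L.jj R ^ (3 - e)) O := map_mul ι _ _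
  rw [e1] at u
  have h1 := (div_ne_zero_iff.1 u.1).1
  have h2 := right_ne_zero_of_mul (div_ne_zero_iff.1 u.1).2
  have key : AA L ι ζ w e O / Φ (AA L ι ζ w e (O.comap (Φ : K →ₐ[k] K))) =
      Φ (up ι L.Y (fun R => L.φ * L.jj R ^ (3 - e)) (O.comap (Φ : K →ₐ[k] K))) /
        (ι (r ^ (e - 1)) * up ι L.Y (fun R => L.φ * L.jj R ^ (3 - e)) O) := by
    unfold AA
    rw [map_div₀, map_mul, map_pow Φ, eta_map hL.h2, hL.h3]
    generalize eta ζ O ^ (2 * (3 - e)) = a at he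
    generalize ι (r ^ (e - 1)) = b at hr
    field_simp
  rwa [key]

theorem prin (h : All L ι l ζ w e) (hL : Lt L ι ζ w e σ Φ r) (hO : O ∈ XX L ι ζ w e)
    (j : Λ ⊕ Bool) : Prin (famX L ι ζ w e j) (O.comap (Φ : K →ₐ[k] K)) := by
  have hR := (hL.inv _).1 (h.loc.maps.mem hO)
  have hD := dom_comap h hL hO
  rcases j with a | _ | _
  · obtain ⟨γ, hγ⟩ := mp_prin h.ok.fam hR a
    exact (hγ.up ι hD.1).prin
  · have g := h.loc.gZ O hO
    have e1 : ({ζ, 1} : Set K) = (Φ : K →ₐ[k] K) '' {ζ, 1} := by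
      simp [Set.image_insert_eq, hL.h2]
    rw [← eta_map hL.h2] at g
    refine ((gn_map (Φ : K →ₐ[k] K)).1 ?_).prin (γ := eta ζ (O.comap (Φ : K →ₐ[k] K)))
    show Gn ((Φ : K →ₐ[k] K) '' {ζ, 1}) O _
    rw [← e1]
    exact g
  · have hu := aa_unit h hL hO
    have ha := h.loc.ane O hO
    refine h.loc.prin _ (isLocalRing_comap _ (mp_loc hO)) ⟨_, hR, hD⟩ ?_ ?_
    · rcases h.loc.aa O hO with h1 | h1
      · left
        have := O.mul_mem hu.inv_mem h1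
        rwa [inv_div, div_mul_cancel₀ _ ha] at this
      · right
        have := O.mul_mem hu.mem h1
        rw [div_mul_eq_mul_div, mul_inv_cancel₀ ha, one_div, ← map_inv₀] at this
        exact this
    · show Φ _ ∈ O
      rw [zc_map hL.h2]
      exact h.loc.zm O hO

theorem mem [Finite Λ] (h : All L ι l ζ w e) (hL : Lt L ι ζ w e σ Φ r) (hO : O ∈ XX L ι ζ w e) :
    O.comap (Φ : K →ₐ[k] K) ∈ XX L ι ζ w e := by
  refine (mp_comap Φ).1 (B1.mp_sub h.loc.fam (fun O hO j => ?_) (fun O hO j => ?_) hO)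
  · obtain ⟨g, hg⟩ := prin h hL hO j
    exact ((gn_map (Φ : K →ₐ[k] K)).2 hg).prin
  · have := prin h hL.symm ((mp_comap Φ).1 hO) j
    rwa [show (O.comap (Φ : K →ₐ[k] K)).comap (Φ.symm : K →ₐ[k] K) = O from cc Φ.symm O] at this

theorem ee_unit [Finite Λ] (h : All L ι l ζ w e) (hL : Lt L ι ζ w e σ Φ r)
    (hO : O ∈ XX L ι ζ w e) (i : κ) (j : Fin 4) :
    IsU O (Φ (EE L ι l ζ i j (O.comap (Φ : K →ₐ[k] K))) / EE L ι l ζ i j O) := by
  have g1 := (gn_map (Φ : K →ₐ[k] K)).2 (h.div.gE _ (mem h hL hO) i j)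
  rw [Set.image_pair] at g1
  have u1 : IsU O (Φ (sX L ι i (O.comap (Φ : K →ₐ[k] K))) / sX L ι i O) :=
    up_unit h hL hO (hL.st i)
  have u2 : IsU O (tau l ζ j O / Φ (tau l ζ j (O.comap (Φ : K →ₐ[k] K)))) := by
    rw [tau_map hL.h2, div_self (h.loc.tne O j)]
    exact isU_one
  have u3 : IsU O (sX L ι i O / Φ (sX L ι i (O.comap (Φ : K →ₐ[k] K)))) := by
    simpa using u1.inv
  exact (g1.pair_unit u3 u2).unit (h.div.gE _ hO i j)

end Sig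

open Sig in
theorem sig_stmt : SigStmt := by
  intro hH k M K Λ κ n _ _ _ _ _ _ _ _ _ L ι l ζ w e h g r hg
  obtain ⟨Φ, h1, h2, h3⟩ := (hH k M L.φ l e).2 K ι ζ w g.1 r h.ext hg.ne hg.sq
  have hL : Lt L ι ζ w e g.1 Φ r := ⟨h1, h2, h3, hg.ne, hg.sq, g.2, hg.st⟩
  have hX : ∀ O, O ∈ XX L ι ζ w e ↔ O.comap (Φ : K →ₐ[k] K) ∈ XX L ι ζ w e := fun O =>
    ⟨mem h hL, fun hO => by
      have := mem h hL.symm hO
      rwa [show (O.comap (Φ : K →ₐ[k] K)).comap (Φ.symm : K →ₐ[k] K) = O from cc Φ.symm O]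
        at this⟩
  exact ⟨⟨Φ, hX⟩, h1, h2, h3, fun O hO => pr_comap h hL hO, fun O hO i j => ee_unit h hL hO i j⟩

end Pool.Agent.MP_20d318_ag.CH
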