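import Pool.Agent.MP_20d318_ag.CH.LBase

/-! Row SKB: the subtraction on a surface with a component of nonnegative square. -/

set_option autoImplicit false
set_option linter.unusedSectionVars false

namespace Pool.Agent.MP_20d318_ag.CH

open Pool.Agent.MP_20d318_ag.Lat hiding act actW W
open Pool.Agent.MP_20d318_ag.CB
open Finset

namespace Skb

variable {ι κ : Type} [Fintype ι] [Fintype κ] {Λ : Ld ι κ}

/-- At most two terms are nonzero. -/
theorem few {s : κ → ℤ} (k0 : κ) (s0 : ∀ k, 0 ≤ s k) (hs : ∑ k, s k = 2) :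
    ∃ a b, ∀ r, r ≠ a → r ≠ b → s r = 0 := by
  classical
  by_contra h
  push Not at h
  obtain ⟨a, -, -, ha⟩ := h k0 k0
  obtain ⟨b, hba, -, hb⟩ := h a a
  obtain ⟨c, hca, hcb, hc⟩ := h a b
  have e : ∑ k ∈ ({a, b, c} : Finset κ), s k ≤ ∑ k, s k :=
    sum_le_sum_of_subset_of_nonneg (subset_univ _) fun i _ _ => s0 i
  rw [sum_insert (by simp [hba.symm, hca.symm]), sum_pair hcb.symm, hs] at e
  have := s0 a
  have := s0 b
  have := s0 c
  omega

open Classical in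
/-- The decomposition, for the sum over the other components. -/
theorem dec (hK : KEY Λ) : ∃ I : Finset (ι → ℤ), (∀ e ∈ I, e ∈ Λ.Ef) ∧
    ∀ (L N : ι → ℝ) (x : κ → ℝ), L ∈ Λ.NT → (∀ k, 0 ≤ x k) →
      (∀ k, L - x k • toR (Λ.C k) ∈ Λ.NT) → N = L - ∑ k ∈ univ.erase Λ.k0, x k • toR (Λ.C k) →
        N - ∑ e ∈ I, max 0 (-ip Λ.B N (toR e)) • toR e ∈ Λ.NT := by
  obtain ⟨I, i1, i2⟩ := hK
  refine ⟨I, i1, fun L N x hL x0 hx hN => i2 L N (fun k => if k = Λ.k0 then 0 else x k) hL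
    (fun k => ?_) (if_pos rfl) (fun k => ?_) ?_⟩
  · split_ifs
    exacts [le_rfl, x0 k]
  · split_ifs
    · rwa [zero_smul, sub_zero]
    · exact hx k
  · rw [hN, ← sum_erase (a := Λ.k0) univ (f := fun k => (if k = Λ.k0 then 0 else x k) • toR (Λ.C k))
      (by simp)]
    exact congrArg (L - ·) (sum_congr rfl fun k hk => by rw [if_neg (ne_of_mem_erase hk)])

end Skb

open Skb in
theorem skb_stmt : SkbStmt := by
  classical
  intro ι κ _ _ Λ G hS h1 hK
  obtain ⟨I, i1, i2⟩ := dec hK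
  refine ⟨fun c L hL x x0 hx => ?_, fun L hL hΛ x x0 xz hx => ?_⟩
  · have z : ∀ k, ip Λ.B (Λ.C k) c = 0 → (ldN Λ G).d c ((ldN Λ G).c k) = 0 := fun k h => by
      rw [ld_d, ld_c, ip_toR, h, Int.cast_zero]
    rcases le_or_gt 0 (ip Λ.B (c : ι → ℤ) c) with hc | hc
    · refine ⟨Λ.k0, ?_⟩
      have e := i2 L _ x (ld_nef.subset hL) x0 (fun k => ld_nef.subset (hx k)) rfl c c.2
      change 0 ≤ ip Λ.B (L - ∑ k ∈ univ.erase Λ.k0, x k • toR (Λ.C k)) (toR c)
      generalize L - ∑ k ∈ univ.erase Λ.k0, x k • toR (Λ.C k) = N at e ⊢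
      rw [ip_sub_left, ip_sum_left] at e
      have : 0 ≤ ∑ e ∈ I, ip Λ.B (max 0 (-ip Λ.B N (toR e)) • toR e) (toR c) :=
        sum_nonneg fun e he => by
          rw [ip_smul_left, ip_toR, ip_comm hS.sym e c]
          exact mul_nonneg (le_max_left _ _)
            (Int.cast_nonneg (h1.efn c (h1.pn c c.2 hc) e (i1 e he)))
      linarith
    · rcases h1.neg c c.2 hc with ⟨k, -, e, -⟩ | ⟨m, -, e⟩ | ⟨-, -, -, e⟩
      · exact skc_few (a := k) (b := k) hL hx fun i hi _ => z i (e ▸ hS.disj i k hi)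
      · obtain ⟨a, b, hab⟩ := few (s := fun k => ip Λ.B (Λ.C k) c) Λ.k0 (h1.Cc c c.2 m)
          (by rw [h1.sumK, e]; rfl)
        exact skc_few hL hx fun i ha hb => z i (hab i ha hb)
      · exact skc_few (a := Λ.k0) (b := Λ.k0) hL hx fun i _ _ => z i (e i)
  · refine ⟨Λ.k0, ?_⟩
    obtain ⟨y, rfl⟩ := hΛ
    choose n hn using xz
    have e := i2 _ _ x (ld_nef.subset hL) x0 (fun k => ld_nef.subset (hx k)) rfl
    have hN : toR y - ∑ k ∈ univ.erase Λ.k0, x k • toR (Λ.C k) =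
        toR (y - ∑ k ∈ univ.erase Λ.k0, n k • Λ.C k) := by
      rw [toR_sub, toR_sum]
      exact congrArg (toR y - ·) (sum_congr rfl fun k _ => by rw [toR_zsmul, hn])
    change toR y - ∑ k ∈ univ.erase Λ.k0, x k • toR (Λ.C k) ∈ (ldN Λ G).Ef
    rw [hN] at e ⊢
    generalize y - ∑ k ∈ univ.erase Λ.k0, n k • Λ.C k = N at e ⊢
    have hM : ∑ e ∈ I, max 0 (-ip Λ.B (toR N) (toR e)) • toR e =
        toR (∑ e ∈ I, (-ip Λ.B N e).toNat • e) := by
      rw [toR_sum]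
      refine sum_congr rfl fun e _ => ?_
      rw [toR_nsmul, ip_toR, ← Int.cast_natCast, Int.toNat_eq_max, Int.cast_max, Int.cast_neg,
        Int.cast_zero, max_comm]
    rw [hM, ← toR_sub] at e
    have a := (h1.ne _ ((h1.nefr _).1 e)).2
    have b : ∑ e ∈ I, (-ip Λ.B N e).toNat • e ∈ Λ.Ef :=
      sum_mem fun e he => nsmul_mem (i1 e he) _
    have := Λ.Ef.add_mem a b
    rw [sub_add_cancel] at this
    exact ld_ef this

end Pool.Agent.MP_20d318_ag.CH
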