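import Pool.Agent.MP_20d318_ag.CH.Spec

/-! Smoothness of the charts. -/

set_option autoImplicit false
set_option linter.unusedSectionVars false

namespace Pool.Agent.MP_20d318_ag.CH

open Pool.Agent.MP_fd6584_ag.Fn Pool.Agent.CBk Polynomial
open Pool.Agent.MP_fd6584_ag.AG hiding deg_inv deg_congr deg_of_unit deg_mul deg_prod deg_zpow
  deg_eq_zero deg_nonneg deg_div deg_pow

namespace SmoR

variable {k M K : Type} [Field k] [Field M] [Field K] [Algebra k M] [Algebra k K]

theorem ext_der {A : Type} [CommRing A] [Algebra k A] (d : Derivation k A A) :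
    ∃ D : Derivation k A[X] A[X], D X = 0 ∧ ∀ a, D (C a) = C (d a) := by
  refine ⟨(PolynomialModule.equivPolynomialSelf (R := A)).toLinearMap.compDer d.mapCoeffs, ?_,
    fun a => ?_⟩
  · change PolynomialModule.equivPolynomialSelf (d.mapCoeffs X) = 0
    rw [Derivation.mapCoeffs_X, map_zero]
  · ext i
    change (d.mapCoeffs (C a)).coeff i = _
    rw [Derivation.mapCoeffs_apply, coeff_C, coeff_C]
    split_ifs
    · rfl
    · exact map_zero d

theorem der_X {A : Type} [CommRing A] [Algebra k A] :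
    ∃ D : Derivation k A[X] A[X], ∀ p, D p = derivative p :=
  ⟨(derivative' (R := A)).restrictScalars k, fun _ => rfl⟩

theorem res_der (R : Subalgebra k M) (D : Derivation k M M) (h : ∀ f ∈ R, D f ∈ R) :
    ∃ d : Derivation k R R, ∀ a : R, (d a : M) = D a :=
  ⟨{ toFun := fun a => ⟨D a, h a a.2⟩
     map_add' := fun a b => Subtype.ext (map_add D (a : M) b)
     map_smul' := fun c a => Subtype.ext (D.map_smul c (a : M))
     map_one_eq_zero' := Subtype.ext D.map_one_eq_zero
     leibniz' := fun a b => Subtype.ext (D.leibniz (a : M) b) }, fun _ => rfl⟩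

theorem ev_mem {A : Type} [CommRing A] [Algebra k A] (f : A →ₐ[k] K) (b : K) (T : Subalgebra k K)
    (h1 : ∀ a, f a ∈ T) (h2 : b ∈ T) (p : A[X]) : XAlg.ev f b p ∈ T := by
  induction p using Polynomial.induction_on' with
  | add p q hp hq => rw [map_add]; exact add_mem hp hq
  | monomial n a =>
    rw [← C_mul_X_pow_eq_monomial, map_mul, map_pow, XAlg.ev_C, XAlg.ev_X]
    exact mul_mem (h1 a) (pow_mem h2 n)

theorem range_eq (ι : M →ₐ[k] K) (R : Subalgebra k M) (z t : K) :
    (XAlg.ev (XAlg.ev (ι.comp R.val) z) t).range = Algebra.adjoin k (ι '' R ∪ {z, t}) := by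
  refine le_antisymm ?_ (Algebra.adjoin_le ?_)
  · rintro _ ⟨p, rfl⟩
    exact ev_mem _ _ _ (ev_mem _ _ _ (fun a => Algebra.subset_adjoin (.inl ⟨a, a.2, rfl⟩))
      (Algebra.subset_adjoin (.inr (.inl rfl)))) (Algebra.subset_adjoin (.inr (.inr rfl))) p
  · rintro _ (⟨a, ha, rfl⟩ | rfl | rfl)
    · exact ⟨C (C ⟨a, ha⟩), (XAlg.ev_C _ _ _).trans (XAlg.ev_C _ _ _)⟩
    · exact ⟨C X, (XAlg.ev_C _ _ _).trans (XAlg.ev_X _ _)⟩
    · exact ⟨X, XAlg.ev_X _ _⟩

theorem ev_map {A : Type} [CommRing A] [Algebra k A] (f : A →ₐ[k] K) (b : K) (g : k[X]) :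
    XAlg.ev f b (g.map (algebraMap k A)) = aeval b g := by
  rw [XAlg.ev_eq, eval₂_map, AlgHom.comp_algebraMap, aeval_def]

theorem aeval_mem {O : Subalgebra k K} {z : K} (hz : z ∈ O) (g : k[X]) : aeval z g ∈ O := by
  rw [← ev_map (Algebra.ofId k K), Algebra.algebraMap_self, Polynomial.map_id]
  exact ev_mem _ _ _ (fun a => O.algebraMap_mem a) hz g

end SmoR

open SmoR in
theorem smo_stmt : SmoStmt := by
  intro hyp ker k M K _ _ _ _ _ _ e ι R O z A S g h hR hc
  have h1 : Algebra.FormallySmooth k R[X] := Algebra.FormallySmooth.comp k R R[X]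
  have h2 : Algebra.FormallySmooth k R[X][X] := Algebra.FormallySmooth.comp k R[X] R[X][X]
  have hS : (⟨S, h.mS⟩ : R) ≠ 0 := fun a => h.nS (congrArg Subtype.val a)
  have mS : ι S ∈ O := h.dom.1 h.mS
  have up : ∀ a, IsU R a → IsU O (ι a) := fun a ha => (isU_comap ι).1 (ha.mono h.dom.1)
  have e0 : e ≠ 0 := by rcases h.he with rfl | rfl <;> decide
  have eC : ∀ (t : K) (a : R), XAlg.ev (XAlg.ev (ι.comp R.val) z) t (C (C a)) = ι a := fun t a =>
    (XAlg.ev_C _ _ _).trans (XAlg.ev_C _ _ _)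
  have eg : ∀ (t : K) (q : k[X]), XAlg.ev (XAlg.ev (ι.comp R.val) z) t
      (C (q.map (algebraMap k R))) = aeval z q := fun t q =>
    (XAlg.ev_C _ _ _).trans (ev_map _ _ q)
  by_cases hA : A ∈ O
  · have hO := h.pts A hA (.inl rfl)
    rw [← range_eq] at hO
    have hk := (ker k M K ι R z A ⟨S, h.mS⟩ g e h.he h.tr hS h.deg).1 h.eq
    have hP : XAlg.ev (XAlg.ev (ι.comp R.val) z) A
        (C (C ⟨S, h.mS⟩) * X ^ e - C (g.map (algebraMap k R))) = 0 := by
      rw [map_sub, map_mul, map_pow, eC, eg, XAlg.ev_X, ← h.eq, mul_comm, sub_self]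
    rcases isU_or_mx (aeval_mem h.mz (derivative g)) with hu | hm
    · obtain ⟨d, hd⟩ := der_X (k := k) (A := R)
      obtain ⟨D, hX, hD⟩ := ext_der d
      refine hyp k K _ _ O _ D h2 hO hP hk ?_
      rw [map_sub, Derivation.leibniz, Derivation.leibniz_pow, hX, hD, hD, hd, hd, derivative_C,
        map_zero, smul_zero, smul_zero, smul_zero, smul_zero, add_zero, zero_sub, map_neg,
        derivative_map, eg]
      simpa using (isU_const (O := O) (neg_ne_zero.2 (one_ne_zero (α := k)))).mul hu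
    · obtain ⟨a, b, hab⟩ := h.sep
      have hg : IsU O (aeval z g) := isU_of_not_mx (aeval_mem h.mz g) fun hg => by
        have := mx_add h.loc (mx_mul_left (aeval_mem h.mz a) hg) (mx_mul_left (aeval_mem h.mz b) hm)
        rw [← map_mul, ← map_mul, ← map_add, hab, map_one] at this
        exact one_not_mem_mx this
      rw [← h.eq] at hg
      have uA : IsU O A := IsU.of_pow hA e0 (IsU.of_mul (pow_mem hA e) mS hg)
      have uS : IsU O (ι S) := IsU.of_mul mS (pow_mem hA e) (by rwa [mul_comm])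
      have ue : IsU O (e : K) := by
        rcases h.he with rfl | rfl
        · simpa using isU_one
        · have := isU_const (O := O) (NeZero.ne (2 : k))
          rwa [map_ofNat] at this
      obtain ⟨D, hD⟩ := der_X (k := k) (A := R[X])
      refine hyp k K _ _ O _ D h2 hO hP hk ?_
      rw [hD, derivative_sub, derivative_C, sub_zero, derivative_C_mul_X_pow, map_mul, map_pow,
        XAlg.ev_X, C_mul, map_mul, eC, map_natCast, map_natCast]
      exact (uS.mul ue).mul (uA.pow _)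
  · have ht : A⁻¹ ∈ O := h.aa.resolve_left hA
    have hm : A⁻¹ ∈ mx O := ⟨ht, fun a => hA (by simpa using a.inv_mem)⟩
    have hO := h.pts _ ht (.inr rfl)
    rw [← range_eq] at hO
    have eq : ι S = A⁻¹ ^ e * aeval z g := by
      rw [← h.eq, ← mul_assoc, ← mul_pow, inv_mul_cancel₀ h.nA, one_pow, one_mul]
    have hk := (ker k M K ι R z A⁻¹ ⟨S, h.mS⟩ g e h.he h.tr hS h.deg).2 eq
    have hP : XAlg.ev (XAlg.ev (ι.comp R.val) z) A⁻¹
        (C (C ⟨S, h.mS⟩) - X ^ e * C (g.map (algebraMap k R))) = 0 := by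
      rw [map_sub, map_mul, map_pow, eC, eg, XAlg.ev_X, ← eq, sub_self]
    obtain ⟨D₀, h3, h4⟩ := hc ⟨h.mS, fun a => (up _ a).not_mx
      (eq ▸ mx_mul_right (mx_pow hm e0) (aeval_mem h.mz g))⟩
    obtain ⟨d, hd⟩ := res_der R D₀ h3
    obtain ⟨D₁, hX₁, hD₁⟩ := ext_der d
    obtain ⟨D, hX, hD⟩ := ext_der D₁
    have h5 : D₁ (g.map (algebraMap k R)) = 0 := by
      rw [← aeval_X_left_eq_map, Derivation.map_aeval, hX₁, smul_zero]
    refine hyp k K _ _ O _ D h2 hO hP hk ?_
    rw [map_sub, Derivation.leibniz, Derivation.leibniz_pow, hX, hD, hD, hD₁, h5, map_zero,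
      smul_zero, smul_zero, smul_zero, smul_zero, add_zero, sub_zero, eC, hd]
    exact up _ h4

end Pool.Agent.MP_20d318_ag.CH
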