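import Pool.Agent.MP_20d318_ag.CH.Spec

/-! ROW TEST: the test curves of one step. -/

set_option autoImplicit false
set_option linter.unusedSectionVars false

namespace Pool.Agent.MP_20d318_ag.CH

open Pool.Agent.MP_fd6584_ag.Fn Pool.Agent.CBk
open Pool.Agent.MP_fd6584_ag.AG hiding deg_inv deg_congr deg_of_unit deg_mul deg_prod deg_zpow
  deg_eq_zero deg_nonneg deg_div deg_pow
open Pool.Agent.CBk.XTst (tb tb_form tr_tb mem_of_dom zor mem_of_sub tau_eq tau_unit)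
open Classical

namespace Tst

variable {k M K Λ κ : Type} {n : ℕ} [Field k] [Field M] [Field K] [Algebra k M] [Algebra k K]
  [Fintype κ] {L : Lv k M Λ κ n} {ι : M →ₐ[k] K} {l : k} {ζ w : K} {e : ℕ} {O : Subalgebra k K}

variable (h : All L ι l ζ w e)
include h

theorem z_ne : ζ ≠ 0 := by simpa using h.ext.tr.ne 0

theorem A_not (hO : O ∈ XX L ι ζ w e) (hu : ∀ j, IsU O (tau l ζ j O)) {i : κ}
    (hi : sX L ι i O ∈ mx O) : AA L ι ζ w e O ∉ O := fun hA => by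
  have h1 : ∏ i, sX L ι i O ∈ mx O := by
    rw [← Finset.mul_prod_erase _ _ (Finset.mem_univ i)]
    exact mx_mul_right hi (O.prod_mem fun j _ => h.loc.sm O hO j)
  have := mx_mul_left (O.pow_mem hA e) h1
  rw [h.loc.eqn O hO] at this
  exact this.2 (isU_prod fun j _ => hu j)

/-- A curve lifts to a point with constant coordinates. -/
theorem lift (hL : LiftStmt) (ν : Curve L.Y) (hO : O ∈ XX L ι ζ w e) (he : pr ι L.Y O = ν.gen)
    {a : K} (ha : a ∈ mx O) (h1 : a = AA L ι ζ w e O ∨ a = (AA L ι ζ w e O)⁻¹) {c : k}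
    (hz : zc ζ O - algebraMap k K c ∈ mx O) :
    ∃ ν' : Curve (XX L ι ζ w e), ν'.gen = O ∧ (h.pj ν').lin = ν.lin := by
  obtain ⟨ν', e1, e2⟩ := hL k M K ι L.Y _ ν O {zc ζ O, a} h.gY h.gX h.loc.maps hO he
    (h.loc.pts O hO a ha.1 h1) (by
      rintro g (rfl | rfl)
      · exact ⟨c, hz⟩
      · exact ⟨0, by simpa using ha⟩)
  exact ⟨ν', e1, lin_congr fun f hf => (h.pj_deg ν' hf).trans (e2 f hf)⟩

variable [NeZero (2 : k)] [IsAlgClosed k] (hc : XCur L ι l ζ w e)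
include hc

theorem cvC (i : κ) : ∃ ν : Curve (XX L ι ζ w e), RatPt (pr ι L.Y ν.gen) ∧
    0 < -ν.deg (eta ζ) ∧
      ∀ i' j, ν.deg (EE L ι l ζ i' j) = if i' = i then -ν.deg (eta ζ) else 0 := by
  obtain ⟨R, hR, hr, hs⟩ := h.ok.rat i
  obtain ⟨V, hV, hd, hv⟩ := (up_stmt k M K ι R ζ (h.gY.loc R hR) h.ext.tr).2
  obtain ⟨O, hO, hOV, he⟩ := h.below hR hV hd
  have hz : ζ ∈ O := mem_of_dom hOV (zor (h.loc.zm O hO)) (hv.1 0)
  have hu : ∀ c : k, IsU O (ζ - algebraMap k K c) := fun c =>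
    hOV.2 _ (O.sub_mem hz (O.algebraMap_mem _)) (ind_one hv c)
  have hs' : sX L ι i O ∈ mx O := by
    rw [sX, up, h.loc.maps.mx_up hO (he ▸ hs.1), he]
    exact hs
  have hA := A_not h hO (tau_unit hz fun c _ => hu c) hs'
  have hA' : (AA L ι ζ w e O)⁻¹ ∈ mx O :=
    ⟨(h.loc.aa O hO).resolve_left hA, fun hh => hA (by simpa using hh.inv_mem)⟩
  obtain ⟨ν, rfl⟩ := curve_stmt k K _ h.gX O hO (h.loc.dim O hO 0 (he ▸ hr.dim))
    (not_dim_zero (h.gX.loc O hO) hz fun c => (hu c).not_mx)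
  refine ⟨ν, he ▸ hr, ?_, hc.cB ν i hA' hs'⟩
  have e0 := deg_gn_pair ν (h.loc.gZ _ hO) (fun P => h.loc.gZ _ (ν.pt_mem P)) one_ne_zero
    (by rwa [div_one])
  rw [div_one] at e0
  rw [e0, neg_neg]
  exact pdeg_pos (ev_transcendental ν hz fun c => (hu c).not_mx)

theorem cvE (i : κ) (j : Fin 4) : ∃ ν : Curve (XX L ι ζ w e), RatPt (pr ι L.Y ν.gen) ∧
    ν.deg (eta ζ) = 0 ∧ 0 < -ν.deg (EE L ι l ζ i j) ∧
      ∀ i' j', ¬ (i' = i ∧ j' = j) → ν.deg (EE L ι l ζ i' j') = 0 := by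
  obtain ⟨R, hR, hr, hs⟩ := h.ok.rat i
  have hs1 : L.s i R ≠ 0 := (h.ok.cs i).ne hR
  have hs0 : ι (L.s i R) ≠ 0 := by simpa using hs1
  obtain ⟨V, hV, hd, hv⟩ := (up_stmt k M K ι R _ (h.gY.loc R hR)
    (tr_tb (l := l) h.ext.tr j hs1)).2
  obtain ⟨O, hO, hOV, he⟩ := h.below hR hV hd
  have ht : tb l ζ j ∈ mx V := by
    have := mx_mul_left (hv.1 0) ((mem_mx_comap ι).1 (hd.mx hs))
    rwa [Matrix.cons_val_zero, div_mul_cancel₀ _ hs0] at this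
  obtain ⟨e0, -⟩ := tau_eq (z_ne h) (h.loc.zm O hO) hOV ht
  have ht' : tau l ζ j O ∈ mx O := mx_of_le hOV.1 (h.loc.tm O hO j) (e0 ▸ ht)
  have es : sX L ι i O = ι (L.s i R) := by rw [sX, up, he]
  have hs' : sX L ι i O ∈ mx O := by
    rw [es, h.loc.maps.mx_up hO (he ▸ hs.1), he]
    exact hs
  have g0 : Gn {tb l ζ j, ι (L.s i R)} O (EE L ι l ζ i j O) := by
    have := h.div.gE O hO i j
    rwa [es, e0, Set.pair_comm] at this
  have hy : tb l ζ j / ι (L.s i R) ∈ O :=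
    mem_of_dom hOV (g0.prin.pair.imp_right fun hh => by rwa [inv_div]) (hv.1 0)
  have hu : ∀ c : k, tb l ζ j / ι (L.s i R) - algebraMap k K c ∉ mx O := fun c hh =>
    (ind_one hv c).not_mx (hOV.mx hh)
  obtain ⟨ν, rfl⟩ := curve_stmt k K _ h.gX O hO (h.loc.dim O hO 0 (he ▸ hr.dim))
    (not_dim_zero (h.gX.loc O hO) hy hu)
  have g1 : ∀ P, Gn {tb l ζ j, ι (L.s i R)} (ν.pt P) (EE L ι l ζ i j (ν.pt P)) := by
    intro P
    have hP := ν.pt_mem P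
    have hz := zor (h.loc.zm _ hP)
    have hm : tb l ζ j ∈ mx (ν.pt P) := by
      rw [e0] at ht'
      obtain ⟨c, ⟨h1, -⟩ | ⟨h1, -⟩⟩ := tb_form l ζ j
      · rw [h1] at ht' ⊢
        exact mem_pt_of_const ν P ht' hz
      · rw [h1] at ht' ⊢
        exact mem_pt_of_const ν P ht' (by simpa using hz.symm)
    have := h.div.gE _ hP i j
    rwa [(tau_eq (z_ne h) (h.loc.zm _ hP) (Dom.refl _) hm).1, sX, up,
      pr_pt h.gY h.gX h.loc.maps ν (he ▸ hr) P, he, Set.pair_comm] at this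
  have e3 := deg_gn_pair ν g0 g1 hs0 hy
  obtain ⟨e1, e2⟩ := hc.cX ν i j hs' ht'
  refine ⟨ν, he ▸ hr, e1, ?_, e2⟩
  rw [e3, neg_neg]
  exact pdeg_pos (ev_transcendental ν hy hu)

theorem tE (i : κ) (j : Fin 4) : ∃ ν', ∃ m : ℝ, 0 < m ∧
    ∀ D, (nx L ι l ζ w e).nd.d ν' (h.Phi D) = m * D.2.2 i j := by
  obtain ⟨ν, hr, e1, e2, e3⟩ := cvE h hc i j
  refine ⟨ν, (-ν.deg (EE L ι l ζ i j) : ℤ), Int.cast_pos.2 e2, fun D => ?_⟩
  rw [h.phi_d, nd_d, lin_rat (ν := h.pj ν) hr, e1,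
    Finset.sum_eq_single i (fun i' _ hi => Finset.sum_eq_zero fun j' _ => by
      rw [e3 i' j' fun hh => hi hh.1]; simp) (by simp),
    Finset.sum_eq_single j (fun j' _ hj => by rw [e3 i j' fun hh => hj hh.2]; simp) (by simp)]
  simp [mul_comm]

theorem tC (i : κ) : ∃ ν', ∃ m : ℝ, 0 < m ∧
    ∀ D, (nx L ι l ζ w e).nd.d ν' (h.Phi D) = m * (D.2.1 - ∑ j, D.2.2 i j) := by
  obtain ⟨ν, hr, e1, e2⟩ := cvC h hc i
  refine ⟨ν, (-ν.deg (eta ζ) : ℤ), Int.cast_pos.2 e1, fun D => ?_⟩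
  rw [h.phi_d, nd_d, lin_rat (ν := h.pj ν) hr,
    Finset.sum_eq_single i (fun i' _ hi => Finset.sum_eq_zero fun j' _ => by
      rw [e2 i' j', if_neg hi]; simp) (by simp)]
  simp only [e2, if_true, ← Finset.sum_mul, LinearMap.zero_apply]
  ring

variable (hL : LiftStmt) (hp : XPt L ι l ζ w e)
include hL hp

theorem tT (ν : Curve L.Y) (j : Fin 4) : ∃ ν', ∃ m : ℝ, 0 < m ∧
    ∀ D, (nx L ι l ζ w e).nd.d ν' (h.Phi D) =
      m * L.nd.d ν (D.1 - ∑ i, D.2.2 i j • L.nd.c i) := by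
  obtain ⟨O, hO, he, ht, hA, c, hz⟩ := hp.pT ν.gen ν.gen_mem j
  obtain ⟨ν', rfl, e0⟩ := lift h hL ν hO he hA (Or.inl rfl) hz
  obtain ⟨e1, e2⟩ := hc.cA ν' j hA ht
  have e3 : ∀ i, ((ν'.deg (sX L ι i) : ℤ) : ℝ) = L.nd.d ν (L.nd.c i) := fun i => by
    rw [← h.pj_c, nd_d, nd_d, e0]
  refine ⟨ν', 1, one_pos, fun D => ?_⟩
  rw [h.phi_d, e1, one_mul, map_sub, map_sum, nd_d (h.pj ν'), e0, nd_d]
  simp only [neg_zero, Int.cast_zero, mul_zero, add_zero]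
  congr 1
  refine Finset.sum_congr rfl fun i _ => ?_
  rw [Finset.sum_eq_single j (fun j' _ hj => by rw [e2 i j', if_neg hj]; simp) (by simp), e2,
    if_pos rfl, e3, map_smul, smul_eq_mul, nd_d]

theorem tB (ν : Curve L.Y) (i : κ) (hi : L.nd.d ν (L.nd.c i) < 0) : ∃ ν', ∃ m : ℝ, 0 < m ∧
    ∀ D, (nx L ι l ζ w e).nd.d ν' (h.Phi D) = m * L.nd.d ν D.1 := by
  rw [nd_c h.ok.toOkA] at hi
  have hs : L.s i ν.gen ∈ mx ν.gen := by
    by_contra hn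
    have := deg_nonneg h.gY (h.ok.cs i) (fun R hR => h.ok.sm R hR i) ν
      (isU_of_not_mx (h.ok.sm _ ν.gen_mem i) hn)
    exact absurd (Int.cast_lt_zero.1 hi) (not_lt.2 this)
  obtain ⟨O, hO, he, hA, hz, -, c, c0, c1, cl, hm⟩ := hp.pG ν.gen ν.gen_mem i hs
  obtain ⟨ν', rfl, e0⟩ := lift h hL ν hO he hA (Or.inr rfl) (c := c) (by rwa [hz])
  obtain ⟨e1, e2⟩ := hc.cG ν' c c0 c1 cl hm
  refine ⟨ν', 1, one_pos, fun D => ?_⟩
  rw [h.phi_d, e1, one_mul, nd_d (h.pj ν'), e0, nd_d]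
  simp [e2]

end Tst

theorem test_stmt : TestStmt := fun hL _ _ _ _ _ _ _ _ _ _ _ _ _ _ _ _ _ _ _ _ _ h hc hp =>
  ⟨Tst.tE h hc, Tst.tC h hc, Tst.tT h hc hL hp, Tst.tB h hc hL hp⟩

end Pool.Agent.MP_20d318_ag.CH
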