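import Pool.Agent.MP_20d318_ag.CH.BSpec

/-! TH0: the inequalities given by graphs. -/

set_option autoImplicit false
set_option linter.unusedSectionVars false

namespace Pool.Agent.MP_20d318_ag.CH

open Pool.Agent.MP_fd6584_ag.Fn Pool.Agent.CBk
open Pool.Agent.MP_fd6584_ag.AG hiding deg_inv deg_congr deg_of_unit deg_mul deg_prod deg_zpow
  deg_eq_zero deg_nonneg deg_div deg_pow
open Pool.Agent.MP_20d318_ag.CB (ip toR ip_nsmul_right toR_nsmul ip_smul_right)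
open Pool.Agent.MP_20d318_ag.CB.P (Pd Pair0 Sg nu)

namespace Th0

variable {k M I κ : Type} [Field k] [Field M] [Algebra k M] [Fintype I] [Fintype κ]
  {p : Pd k M I κ} {b A : I → ℤ} {σ : Fin 4 ≃ κ} {l : k} {s₀ s₃ φ : M} {P : Place k M}

theorem g2 (h : Pair0 p) (g : CC.G1 p b σ l A s₀ s₃ φ P) : G2 (lv0 p) l σ s₀ s₃ P := by
  have hP : plO P ∈ p.T := g.prm.2.1
  refine ⟨hP, fun i => isU_of_not_mx (CC.s_mem h hP i) fun hm => ?_, fun R hR hle =>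
    ⟨p.lb A R, p.lb_ne (h.all.a1.gne R hR) A, fun j => ⟨?_, g.cg j R hR hle⟩⟩⟩
  · obtain ⟨P', hP'⟩ := h.prm i
    obtain rfl := h.all.a1.peq _ _ _ hP' P hP hm
    have e := h.all.a1.uniq _ _ _ _ _ hP' g.prm
    have h1 := g.Cb i
    rw [e, g.bb] at h1
    exact zero_ne_one h1
  · have hm : ![s₀, s₀ - s₃, s₀ - l • s₃, s₃] j ∈ p.Sec A := by
      fin_cases j
      exacts [g.m0, sub_mem g.m0 g.m3, sub_mem g.m0 (Submodule.smul_mem _ l g.m3), g.m3]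
    exact hm R hR

theorem deg_s [IsAlgClosed k] (h : Pair0 p) (g : CC.G1 p b σ l A s₀ s₃ φ P) (ν : Curve p.T)
    (hν : ν.gen = plO P) (i : κ) : ν.deg (p.s i) = nu ν := by
  have h1 := deg_mul h.all.a1.nice.toGood (isCart_const (h.prm i).choose_spec.1)
    (h.all.a1.cart (p.C i)) ν
  rw [deg_const, zero_add, h.all.a1.zzd, h.all.a1.zz1 _ _ _ g.prm ν hν, ip_nsmul_right, g.Cb,
    mul_one] at h1
  exact h1

end Th0

open Th0 in
theorem th0_stmt : Th0Stmt := by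
  intro ga gb k M K I κ _ _ _ _ _ _ _ _ _ p ψ ι l ζ w e h hp hψ hG D hD b hb σ
  classical
  obtain ⟨A, s₀, s₃, φ, P, g⟩ := hG b hb σ
  have hP : plO P ∈ p.T := g.prm.2.1
  obtain ⟨ν, h1, h2⟩ := ga k M K Unit κ 0 (lv0 p) ι l ζ w e h P (s₀ / s₃) hP
    (hp.all.a1.dim P hP).2 g.ind
  obtain ⟨h3, h4⟩ := gb k M K Unit κ 0 (lv0 p) ι l ζ w e h σ s₀ s₃ P ν (g2 hp g) h1 h2
  have hg : (h.pj ν).gen = plO P := h1
  have hn : (0 : ℝ) < nu (h.pj ν) := Nat.cast_pos.2 (hp.all.a1.nupos _ P hg)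
  have hS : ∀ i, ν.deg (sX (lv0 p) ι i) = nu (h.pj ν) := fun i =>
    (h.pj_deg ν (h.ok.cs i)).symm.trans (deg_s hp g _ hg i)
  have h5 : 0 ≤ (nx (lv0 p) ι l ζ w e).nd.d ν (h.Phi D) := hD ν
  have h6 : (lv0 p).nd.d (h.pj ν) D.1 = nu (h.pj ν) * ip p.B (ψ.symm D.1) (toR b) := by
    have h7 : p.zz (h.pj ν) = nu (h.pj ν) • b := hp.all.a1.zz1 _ _ _ g.prm _ hg
    have h8 := hψ (h.pj ν) (ψ.symm D.1)
    rw [ψ.apply_symm_apply, h7, toR_nsmul, ip_smul_right] at h8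
    exact h8
  have h9 : ∑ i, ∑ j, D.2.2 i j * (ν.deg (EE (lv0 p) ι l ζ i j) : ℝ) =
      nu (h.pj ν) * ∑ j, D.2.2 (σ j) j := by
    rw [Finset.sum_comm, Finset.mul_sum]
    refine Finset.sum_congr rfl fun j _ => ?_
    rw [Finset.sum_eq_single (σ j) (fun i _ hi => by rw [h4, if_neg hi, Int.cast_zero, mul_zero])
      (by simp), h4, if_pos rfl, hS, Int.cast_natCast, mul_comm]
  rw [h.phi_d, h6, h9, h3 0, hS, Int.cast_natCast] at h5
  change ∑ j, D.2.2 (σ j) j ≤ ip p.B (ψ.symm D.1) (toR b) + D.2.1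
  refine le_of_mul_le_mul_left ?_ hn
  linarith

end Pool.Agent.MP_20d318_ag.CH
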