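import Pool.Agent.MP_20d318_ag.CH.LSpec

/-! Numerical classes on a tower of blow-ups: transport along an isomorphism. -/

set_option autoImplicit false
set_option linter.unusedSectionVars false

namespace Pool.Agent.MP_20d318_ag.CH

open Pool.Agent.MP_20d318_ag.Lat

universe u v u' v'

namespace TrA

variable {V : Type u} {𝒞 : Type v} {V' : Type u'} {𝒞' : Type v'} {κ : Type} [AddCommGroup V]
  [Module ℝ V] [AddCommGroup V'] [Module ℝ V'] [Fintype κ] {N : Nd V 𝒞 κ} {N' : Nd V' 𝒞' κ}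
  {ψ : V ≃ₗ[ℝ] V'} {𝓗 : Set (WW V κ)} {x : V} {w : ℝ × (κ → Fin 4 → ℝ)}

theorem nef (h : Iso N N' ψ) : ψ x ∈ N'.Nef ↔ x ∈ N.Nef := by
  refine ⟨fun k ν => ?_, fun k ν' => ?_⟩
  · obtain ⟨ν', r, hr, e⟩ := h.up ν
    have := k ν'
    rw [e] at this
    exact (mul_nonneg_iff_of_pos_left hr).1 this
  · rcases h.dn ν' with e | ⟨ν, r, hr, e⟩
    · exact (e _).ge
    · rw [e]
      exact mul_nonneg hr.le (k ν)

theorem sub (h : Iso N N' ψ) (a : κ → ℝ) :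
    ψ x - ∑ i, a i • N'.c i = ψ (x - ∑ i, a i • N.c i) := by
  simp only [map_sub, map_sum, map_smul, h.c]

theorem nl (h : Iso N N' ψ) : (ψ x, w) ∈ N'.NL ↔ (x, w) ∈ N.NL :=
  and_congr_right' (and_congr_right' (and_congr (nef h) (forall_congr' fun j => by
    rw [← nef h, ← sub h])))

theorem lw (h : Iso N N' ψ) : (ψ x, w) ∈ N'.LW ↔ (x, w) ∈ N.LW :=
  and_congr_left' (h.Λ x)

theorem hm : ((ψ x, w) : WW V' κ) ∈ {D : WW V' κ | (ψ.symm D.1, D.2) ∈ 𝓗} ↔ (x, w) ∈ 𝓗 := by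
  show (ψ.symm (ψ x), w) ∈ 𝓗 ↔ _
  rw [ψ.symm_apply_apply]

theorem both (h : Iso N N' ψ) :
    (ψ x, w) ∈ N'.NL ∩ {D : WW V' κ | (ψ.symm D.1, D.2) ∈ 𝓗} ↔ (x, w) ∈ N.NL ∩ 𝓗 :=
  and_congr (nl h) hm

theorem gkc (h : Iso N N' ψ) {Q : Set V} {Q' : Set V'} (hQ : ∀ z ∈ Q, ψ z ∈ Q') {p : κ → ℝ}
    {q : Fin 4 → ℝ} (k : GKc N Q (x, w) p q) : GKc N' Q' (ψ x, w) p q := by
  obtain ⟨a, b, h1, h2, h3, h4, h5, h6⟩ := k
  exact ⟨a, b, h1, h2, h3, h4, (sub h a).symm ▸ hQ _ h5, h6⟩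

theorem adm {p : κ → ℝ} {q : Fin 4 → ℝ} (k : Adm ((ψ x, w) : WW V' κ) p q) :
    Adm ((x, w) : WW V κ) p q := ⟨k.p0, k.q0, k.pa, k.qa⟩

theorem dich (h : Iso N N' ψ) (l : Dich N) : Dich N' := fun ν' => by
  rcases h.dn ν' with e | ⟨ν, r, hr, e⟩
  · exact Or.inl fun i => (e _).ge
  · refine (l ν).imp (fun k i => ?_) fun ⟨i, k⟩ => ⟨i, fun i' hi => ?_⟩
    · rw [← h.c, e]
      exact mul_nonneg hr.le (k i)
    · rw [← h.c, e, k i' hi, mul_zero]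

theorem gk (h : Iso N N' ψ) (l : Lev N 𝓗) : GK N' {D | (ψ.symm D.1, D.2) ∈ 𝓗} := by
  refine ⟨fun ν' ⟨y, w⟩ hD p q ha => ?_, fun ⟨y, w⟩ hD hL p q ha hp hq => ?_⟩ <;>
    obtain ⟨x, rfl⟩ := ψ.surjective y
  · rcases h.dn ν' with e | ⟨ν, r, hr, e⟩
    · obtain ⟨j, hj⟩ := exists_max_row ((ψ x, w) : WW V' κ)
      obtain ⟨i₀⟩ := l.ne
      exact gkc_of hD.1 ha hj ⟨i₀, (e _).ge⟩
    · refine gkc h (fun z hz => ?_) (l.gk.cur ν _ ((both h).1 hD) p q (adm ha))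
      show 0 ≤ N'.d ν' (ψ z)
      rw [e]
      exact mul_nonneg hr.le hz
  · exact gkc h (fun z hz => (h.Ef z).2 hz)
      (l.gk.eff _ ((both h).1 hD) ((lw h).1 hL) p q (adm ha) hp hq)

theorem hh (h : Iso N N' ψ) (l : Lev N 𝓗) : HH N' {D | (ψ.symm D.1, D.2) ∈ 𝓗} := by
  refine ⟨fun ⟨y, w⟩ hD a b ha hb hab => ?_, fun ⟨y, w⟩ h1 h2 h3 => ?_⟩ <;>
    obtain ⟨x, rfl⟩ := ψ.surjective y
  · rw [sub h a]
    exact hm.2 (l.hh.sub _ ((both h).1 hD) a b ha hb hab)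
  · exact hm.2 (l.hh.low (x, w) ((nef h).1 h1) h2 h3)

theorem cvw (h : Iso N N' ψ) (l : CVW N 𝓗) : CVW N' {D | (ψ.symm D.1, D.2) ∈ 𝓗} := by
  classical
  obtain ⟨R, h1, h2, h3⟩ := l
  let f : WW V κ →ₗ[ℝ] WW V' κ := ψ.toLinearMap.prodMap LinearMap.id
  have e : cone ((R.image f : Finset (WW V' κ)) : Set (WW V' κ)) = f '' cone (R : Set (WW V κ)) := by
    rw [Finset.coe_image, cone_map]
  refine ⟨R.image f, ?_, ?_, fun ⟨y, w⟩ hD hE => ?_⟩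
  · rw [Finset.coe_image]
    rintro _ ⟨⟨x, w⟩, hx, rfl⟩
    exact (lw h).2 (h1 hx)
  · rw [e]
    rintro _ ⟨⟨x, w⟩, hx, rfl⟩
    exact (both h).2 (h2 hx)
  · obtain ⟨x, rfl⟩ := ψ.surjective y
    obtain ⟨g, hg, k⟩ := h3 _ ((both h).1 hD) ((h.Ef x).1 hE)
    obtain ⟨g', hg', e'⟩ := h.G g hg
    refine ⟨g', hg', ?_⟩
    rw [e, e']
    exact fun m => ⟨_, k ((both h).1 m), rfl⟩

theorem spn (h : Iso N N' ψ) (l : Spn N) : Spn N' := by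
  refine eq_top_iff.2 fun y _ => ?_
  obtain ⟨x, rfl⟩ := ψ.surjective y
  have h1 : x ∈ Submodule.span ℝ (N.Nef ∩ N.Ef) := by rw [l]; trivial
  refine Submodule.span_mono ?_ (Submodule.apply_mem_span_image_of_mem_span ψ.toLinearMap h1)
  rintro _ ⟨z, hz, rfl⟩
  exact ⟨(nef h).2 hz.1, (h.Ef z).2 hz.2⟩

end TrA

theorem tr_stmt : TrStmt.{u, v, u', v'} := by
  intro V 𝒞 V' 𝒞' κ _ _ _ _ _ N N' ψ 𝓗 h l
  have := l.fd
  exact ⟨ψ.finiteDimensional, l.ne, fun i => h.c i ▸ (h.Λ _).2 (l.cΛ i), TrA.dich h l.dich,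
    TrA.gk h l, TrA.hh h l, TrA.cvw h l.cvw, TrA.spn h l.spn⟩

end Pool.Agent.MP_20d318_ag.CH
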