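import Pool.Agent.MP_20d318_ag.CH.Spec

/-! TRIV: the canonical sheaf. -/

set_option autoImplicit false
set_option linter.unusedSectionVars false

namespace Pool.Agent.MP_20d318_ag.CH

open Pool.Agent.MP_fd6584_ag Pool.Agent.MP_fd6584_ag.Pj Pool.Agent.CBk.Canon

theorem Triv.mem {k K J : Type} [Field k] [Field K] [Algebra k K] {𝒞 : Charts k K J} (M : Model 𝒞)
    (x : M.X) : Sch.OA M x ∈ Sch.pts 𝒞 := by
  obtain ⟨j, p, h⟩ := M.cover x
  refine Set.mem_iUnion.mpr ⟨j, (Sch.toOA M x).isLocalRing, fun _ hy => Model.B_le_O h hy,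
    fun f hf => ?_⟩
  obtain ⟨a, b, hb, h1⟩ := (Model.mem_O h).mp hf
  have h2 := (Model.U_iff h b).mpr hb
  exact ⟨a, a.2, b, b.2, h2, eq_div_of_mul_eq h2.1 h1⟩

theorem triv_stmt : TrivStmt := by
  intro k K J _ _ _ 𝒞 M n y l hi hs hl h
  have hy : IsTranscendenceBasis k y := hi.isTranscendenceBasis_iff_isAlgebraic.2
    (IntermediateField.isAlgebraic_adjoin_iff_top.1 inferInstance)
  let : Algebra k M.X.functionField := (const M.s).toAlgebra
  let e : M.X.functionField ≃ₐ[k] K := AlgEquiv.ofRingEquiv (f := M.e) M.e_const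
  obtain ⟨b, hb⟩ := exists_basis (y := fun i => e.symm (y i))
    (.of_comp e.toAlgHom e.injective (by simpa [Function.comp_def] using hy))
    (sep_comap e.toAlgHom _ (fun i => e.apply_symm_apply (y i)) hs)
  let D : Derivation k K (Fin (n + 1) → K) := Derivation.mk' (LinearMap.pi fun i => e.toLinearMap ∘ₗ
    (b.coord i).restrictScalars k ∘ₗ (KaehlerDifferential.D k _).toLinearMap ∘ₗ e.symm.toLinearMap)
    fun x y => by ext i; simp
  have hD : ∀ y i, D (M.e y) i = M.e (b.repr (KaehlerDifferential.D k _ y) i) := fun y i => by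
    change e (b.coord i (KaehlerDifferential.D k _ (e.symm (e y)))) = _
    rw [e.symm_apply_apply]
    rfl
  let b' := b.unitsSMul (Pi.mulSingle 0 (Units.mk0 (e.symm l) (by simpa using hl))⁻¹)
  have hdet : ∀ (z : M.X) (a : Fin (n + 1) → M.X.presheaf.stalk z), M.e (b'.det fun i =>
      KaehlerDifferential.D k M.X.functionField (algebraMap _ _ (a i))) =
      l * dt D fun i => M.ev z (a i) := fun z a => by
    rw [Module.Basis.det_unitsSMul, Finset.prod_pi_mulSingle' 0, if_pos (Finset.mem_univ _), inv_inv,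
      AlternatingMap.smul_apply, smul_eq_mul, map_mul, Module.Basis.det_apply, RingEquiv.map_det,
      ← Matrix.det_transpose, dt]
    exact congrArg₂ (· * ·) (e.apply_symm_apply l)
      (congrArg Matrix.det (Matrix.ext fun j i => (hD _ i).symm))
  refine ⟨n + 1, b', fun z => ?_⟩
  obtain ⟨c, ⟨h1, h2⟩, h3⟩ := h D (fun i => funext fun j => by
    rw [← M.e.apply_symm_apply (y i), hD]
    change M.e (b.repr (KaehlerDifferential.D k _ (e.symm (y i))) j) = _
    rw [← hb, b.repr_self, Finsupp.single_apply, Pi.single_apply]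
    simp [eq_comm]) _ (Triv.mem M z)
  constructor
  · intro a
    choose t ht hu using fun i => h2 _ (show M.ev z (a i) ∈ Sch.OA M z from ⟨a i, rfl⟩)
    have h5 : (dt D fun i => M.ev z (a i)) = (Matrix.of t).det * dt D c := by
      rw [dt, dt, ← Matrix.det_mul]
      exact congrArg Matrix.det (Matrix.ext fun j i => by simp [Matrix.mul_apply, hu])
    have h6 : (Matrix.of t).det ∈ Sch.OA M z := by
      rw [Matrix.det_apply']
      exact sum_mem fun σ _ => mul_mem (intCast_mem _ _) (prod_mem fun i _ => ht _ _)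
    obtain ⟨u, hu⟩ := mul_mem h6 h3.2.1
    exact ⟨u, M.e.injective (by rw [hdet, h5, mul_left_comm]; exact hu)⟩
  · choose a ha using h1
    obtain rfl : c = fun i => M.ev z (a i) := funext fun i => (ha i).symm
    simp only [← hdet] at h3
    obtain ⟨h4, -, u, hu⟩ := h3
    exact ⟨a, fun h0 => h4 (by rw [h0, map_zero]), u, M.e.injective (by rw [map_inv₀]; exact hu)⟩

end Pool.Agent.MP_20d318_ag.CH
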