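import Pool.Agent.MP_20d318_ag.CH.Spec

/-! Row TW: the tower of fields. -/

set_option autoImplicit false
set_option linter.unusedSectionVars false

namespace Pool.Agent.MP_20d318_ag.CH

open Pool.Agent.MP_fd6584_ag.Fn Pool.Agent.CBk
open Pool.Agent.MP_fd6584_ag.AG hiding deg_inv deg_congr deg_of_unit deg_mul deg_prod deg_zpow
  deg_eq_zero deg_nonneg deg_div deg_pow

namespace TwR

variable {k M₀ M K : Type} [Field k] [Field M₀] [Field M] [Field K] [Algebra k M₀] [Algebra k M]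
  [Algebra k K] {m : ℕ}

theorem map_cb (ι : M →ₐ[k] K) (l : k) (z : M) : ι (cb l z) = cb l (ι z) := by
  simp [cb]

theorem eval_cons (ι₀ : M₀ →ₐ[k] M) (ζ₀ : Fin m → M) (ι : M →ₐ[k] K) (ζ : K)
    (q : MvPolynomial (Fin (m + 1)) M₀) :
    q.eval₂ (ι.comp ι₀ : M₀ →+* K) (Fin.cons ζ fun r => ι (ζ₀ r)) =
      Polynomial.eval₂ (ι : M →+* K) ζ ((MvPolynomial.finSuccEquiv M₀ m q).map
        (MvPolynomial.eval₂Hom (ι₀ : M₀ →+* M) ζ₀)) := by
  induction q using MvPolynomial.induction_on with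
  | C a => simp [MvPolynomial.finSuccEquiv_apply]
  | add p q hp hq =>
    rw [MvPolynomial.eval₂_add, hp, hq, map_add, Polynomial.map_add, Polynomial.eval₂_add]
  | mul_X p i hp =>
    rw [MvPolynomial.eval₂_mul, hp, map_mul, Polynomial.map_mul, Polynomial.eval₂_mul,
      MvPolynomial.eval₂_X]
    refine congrArg _ (Fin.cases ?_ (fun r => ?_) i)
    · simp [MvPolynomial.finSuccEquiv_X_zero]
    · simp [MvPolynomial.finSuccEquiv_X_succ]

theorem step {T : Set (Subalgebra k M₀)} {φ : M₀} {l : Fin (m + 1) → k}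
    {Y : Set (Subalgebra k M)} {X : Set (Subalgebra k K)} {ψ : M} {ι₀ : M₀ →ₐ[k] M}
    {ζ₀ : Fin m → M} {ι : M →ₐ[k] K} {ζ w : K} {e : ℕ} (h : Tw T φ (Fin.tail l) Y ψ ∅ ι₀ ζ₀)
    (hx : Ext ψ ι (l 0) ζ w e) (hm : Maps ι X Y) (hz : ∀ O ∈ X, zc ζ O ∈ O) (G : Set K)
    (hG : w ∈ G ∨ w = cb (l 0) ζ) :
    Tw T φ l X (ι ψ * cb (l 0) ζ) G (ι.comp ι₀) (Fin.cons ζ fun r => ι (ζ₀ r)) := by
  refine ⟨fun q hq => ?_, ?_, ?_, fun O hO => ?_⟩
  · rw [eval_cons] at hq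
    have h1 := hx.tr _ hq
    rw [Polynomial.map_eq_zero_iff ((injective_iff_map_eq_zero _).2 h.ind)] at h1
    exact (map_eq_zero_iff _ (MvPolynomial.finSuccEquiv M₀ m).injective).1 h1
  · rw [Fin.prod_univ_succ, h.eq, map_mul, map_prod]
    simp only [map_cb, Fin.cons_zero, Fin.cons_succ, AlgHom.comp_apply, Fin.tail]
    ring
  · set F := IntermediateField.adjoin k (Set.range (ι.comp ι₀) ∪
      (Set.range (Fin.cons ζ fun r => ι (ζ₀ r) : Fin (m + 1) → K) ∪ G)) with hF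
    have h1 : ζ ∈ F := IntermediateField.subset_adjoin _ _ (Or.inr (Or.inl ⟨0, rfl⟩))
    have h2 : (⊤ : IntermediateField k M) ≤ F.comap ι := by
      rw [← h.top, IntermediateField.adjoin_le_iff]
      rintro _ (⟨a, rfl⟩ | ⟨r, rfl⟩ | ⟨⟨⟩⟩)
      · exact IntermediateField.subset_adjoin k _ (Or.inl ⟨a, rfl⟩)
      · exact IntermediateField.subset_adjoin k _ (Or.inr (Or.inl ⟨r.succ, rfl⟩))
    rw [eq_top_iff, ← hx.top, IntermediateField.adjoin_le_iff]
    rintro _ (⟨a, rfl⟩ | rfl | rfl)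
    · exact h2 trivial
    · exact h1
    · rcases hG with hG | hG
      · exact IntermediateField.subset_adjoin k _ (Or.inr (Or.inr hG))
      · rw [hG]
        exact F.mul_mem (F.mul_mem h1 (F.sub_mem h1 F.one_mem)) (F.sub_mem h1 (F.algebraMap_mem _))
  · obtain ⟨⟨R, hR, h1⟩, h2⟩ := h.reg _ (hm.mem hO)
    refine ⟨⟨R, hR, fun a ha => hm.mem_up hO (h1 a ha)⟩, Fin.cases ?_ fun r => ?_⟩
    · have h3 := hz O hO
      unfold zc at h3
      split_ifs at h3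
      exacts [Or.inl h3, Or.inr h3]
    · refine (h2 r).imp (hm.mem_up hO) fun h3 => ?_
      have h4 := hm.mem_up hO h3
      rwa [map_inv₀] at h4

end TwR

theorem tw_stmt : TwStmt := by
  intro k M₀ _ _ _ T φ
  refine ⟨fun l => ⟨fun q hq => ?_, by simp, ?_,
    fun O hO => ⟨⟨O, hO, fun a ha => ha⟩, fun r => r.elim0⟩⟩,
    fun M K _ _ _ _ m l Y X ψ ι₀ ζ₀ ι ζ w e h hx hm hz =>
      ⟨TwR.step h hx hm hz _ (Or.inl rfl), fun he => TwR.step h hx hm hz _ (Or.inr ?_)⟩⟩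
  · obtain ⟨c, rfl⟩ := MvPolynomial.C_surjective (Fin 0) q
    rw [MvPolynomial.eval₂_C] at hq
    rw [show c = 0 from hq, map_zero]
  · exact eq_top_iff.2 fun a _ => IntermediateField.subset_adjoin k _ (Or.inl ⟨a, rfl⟩)
  · subst he
    simpa using hx.eq

end Pool.Agent.MP_20d318_ag.CH
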