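import Pool.Agent.MP_20d318_ag.CH.Spec

/-! Row VOL: the volume form on the next level. -/

set_option autoImplicit false
set_option linter.unusedSectionVars false

namespace Pool.Agent.MP_20d318_ag.CH

open Pool.Agent.MP_fd6584_ag.Fn Pool.Agent.CBk Polynomial
open Pool.Agent.MP_fd6584_ag.AG hiding deg_inv deg_congr deg_of_unit deg_mul deg_prod deg_zpow
  deg_eq_zero deg_nonneg deg_div deg_pow

namespace VolAux

variable {k M K : Type} [Field k] [Field M] [Field K] [Algebra k M] [Algebra k K] {N : ℕ}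
  {ι : M →ₐ[k] K} {δ₀ : Derivation k M (Fin N → M)} {δ : Derivation k K (Fin (N + 1) → K)}

theorem lin (ch : ∀ a, δ (ι a) = Fin.cons 0 fun i => ι (δ₀ a i)) {c r : Fin N → M} {a : M}
    (h : δ₀ a = ∑ i, r i • δ₀ (c i)) : δ (ι a) = ∑ i, ι (r i) • δ (ι (c i)) := by
  funext i
  rw [ch, h, Finset.sum_apply]
  refine Fin.cases ?_ (fun i => ?_) i <;> simp [ch]

theorem det (ch : ∀ a, δ (ι a) = Fin.cons 0 fun i => ι (δ₀ a i)) {z u : K}
    (hz : δ z = u • Pi.single 0 1) (c : Fin N → M) :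
    dt δ (Fin.cons z fun i => ι (c i)) = u * ι (dt δ₀ c) := by
  unfold dt
  rw [Matrix.det_succ_row_zero, Finset.sum_eq_single 0 (fun j _ hj => by simp [hz, hj]) (by simp),
    AlgHom.map_det]
  refine congrArg₂ _ (by simp [hz]) (congrArg _ ?_)
  ext i j
  simp [ch]

end VolAux

open VolAux in
theorem vol_stmt : VolStmt := by
  intro hD hC k M K Λ κ n _ _ _ _ _ _ _ _ _ L ι l ζ w e h
  obtain ⟨j, j0, hv⟩ := h.ok.vol
  obtain ⟨δ₀, h0⟩ := hD.ex k M (n + 2) L.y h.ok.ind h.ok.top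
  refine ⟨j, j0, fun (δ : Derivation k K (Fin (n + 2 + 1) → K)) hδ O hO => ?_⟩
  have hR := h.loc.maps.mem hO
  obtain ⟨c, ⟨cm, cg⟩, cu⟩ := hv δ₀ h0 _ hR
  have hz : δ ζ = Pi.single 0 1 := hδ 0
  have hy : ∀ i, δ (ι (L.y i)) = Pi.single i.succ 1 := fun i => hδ i.succ
  have ch : ∀ a, δ (ι a) = Fin.cons 0 fun i => ι (δ₀ a i) := fun a => by
    rw [hD.chain k M K _ _ L.y δ₀ ι δ h.ok.top h0 a]
    funext i
    refine Fin.cases ?_ (fun i => ?_) i <;> simp [hy, Pi.single_apply]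
  obtain ⟨g, hg⟩ := h.lc hO
  obtain ⟨c', g1, ⟨u, hu, g2⟩, g3⟩ := hC k M K e ι _ O _ _ _ g (n + 2) δ c hg cm
    (fun a ha => (cg a ha).imp fun r hr => ⟨hr.1, lin ch hr.2⟩) (fun hS => by
      obtain ⟨r, r1, r2⟩ := cg _ hS.1
      refine ⟨r, r1, lin ch r2, by_contra fun hn => ?_⟩
      obtain ⟨D, d1, d2⟩ := h.ok.crd _ hR hS
      have e : ∀ a, D a = ∑ i, δ₀ a i * D (L.y i) :=
        hD.chain k M M M _ L.y δ₀ (AlgHom.id k M) D h.ok.top h0
      have e' : D (∏ i, L.s i (pr ι L.Y O)) = ∑ i, r i * D (c i) := by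
        rw [e, r2]
        simp only [e (c _), Finset.sum_apply, Pi.smul_apply, smul_eq_mul, Finset.sum_mul,
          Finset.mul_sum, mul_assoc]
        exact Finset.sum_comm
      rw [e'] at d2
      exact (mx_sum hg.locR fun i _ => mx_mul_right ⟨r1 i, fun hi => hn ⟨i, hi⟩⟩ (d1 _ (cm i))).2 d2)
  refine ⟨c', g1, ?_, g3⟩
  obtain ⟨v, hv, v1⟩ : ∃ v : K, δ (zc ζ O) = v • Pi.single 0 1 ∧ IsU O (eta ζ O ^ 2 * v) := by
    unfold zc CBk.eta
    split_ifs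
    · exact ⟨1, by rw [hz, one_smul], by simpa using isU_one⟩
    · have z0 : ζ ≠ 0 := by simpa using h.ext.tr.ne 0
      exact ⟨-ζ⁻¹ ^ 2, by rw [Derivation.leibniz_inv, hz], by simpa [z0] using isU_one.neg⟩
  have := (hu.mul v1).mul (h.loc.maps.isU_up hO cu)
  rw [det ch hv, ← h.prod_sX] at g2
  refine Eq.subst ?_ this
  rw [map_mul, map_div₀, up]
  linear_combination (-(ι j * eta ζ O ^ 2 / ι (L.jj (pr ι L.Y O)))) * g2

end Pool.Agent.MP_20d318_ag.CH
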