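import Pool.Agent.MP_20d318_ag.CH.Spec

/-! The divisors on one step of the tower. -/

set_option autoImplicit false
set_option linter.unusedSectionVars false

namespace Pool.Agent.MP_20d318_ag.CH

open Pool.Agent.MP_fd6584_ag.Fn Pool.Agent.CBk
open Pool.Agent.MP_fd6584_ag.AG hiding deg_inv deg_congr deg_of_unit deg_mul deg_prod deg_zpow
  deg_eq_zero deg_nonneg deg_div deg_pow
open Pool.Agent.CBk.XDivL (prod_div gn_swap)

namespace Xdv

section loc

variable {k K I J : Type} [Field k] [Field K] [Algebra k K] [Fintype I] [Fintype J]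

/-- The local equation `A ^ e ∏ s = ∏ t` with at most one vanishing factor on each side. -/
structure Loc (e : ℕ) (O : Subalgebra k K) (s : I → K) (t : J → K) (A : K) : Prop where
  sne : ∀ i, s i ≠ 0
  tne : ∀ j, t j ≠ 0
  ane : A ≠ 0
  aa : A ∈ O ∨ A⁻¹ ∈ O
  eqn : A ^ e * ∏ i, s i = ∏ j, t j
  sm : ∀ i, s i ∈ O
  tm : ∀ j, t j ∈ O
  s1 : ∀ i i', s i ∈ mx O → s i' ∈ mx O → i = i'
  t1 : ∀ j j', t j ∈ mx O → t j' ∈ mx O → j = j'

variable {e : ℕ} {O : Subalgebra k K} {s : I → K} {t : J → K} {A : K}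

theorem Loc.symm (h : Loc e O s t A) : Loc e O t s A⁻¹ where
  sne := h.tne
  tne := h.sne
  ane := inv_ne_zero h.ane
  aa := by rw [inv_inv]; exact h.aa.symm
  eqn := by rw [← h.eqn, inv_pow, inv_mul_cancel_left₀ (pow_ne_zero e h.ane)]
  sm := h.tm
  tm := h.sm
  s1 := h.t1
  t1 := h.s1

theorem Loc.su (h : Loc e O s t A) {i : I} (hi : s i ∈ mx O) (i' : I) (hne : i' ≠ i) :
    IsU O (s i') :=
  isU_of_not_mx (h.sm i') fun h' => hne (h.s1 i' i h' hi)

theorem Loc.key (h : Loc e O s t A) {i : I} {j : J} (hi : s i ∈ mx O) (hj : t j ∈ mx O) :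
    IsU O (t j / s i / A ^ e) := by
  have h1 := prod_div i (h.sne i) (h.su hi)
  have h2 := prod_div j (h.tne j) (h.symm.su hj)
  have h3 := h1.div h2
  have h4 : (∏ i', s i') ≠ 0 := Finset.prod_ne_zero_iff.2 fun i _ => h.sne i
  have := h.sne i
  have := h.tne j
  have := h.ane
  have h5 : (∏ i', s i') / s i / ((∏ j', t j') / t j) = t j / s i / A ^ e := by
    rw [← h.eqn]
    field_simp
  rwa [h5] at h3

theorem Loc.div_mem (h : Loc e O s t A) (hA : A ∈ O) (i : I) {j : J} (hj : t j ∈ mx O) :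
    t j / s i ∈ O := by
  rcases isU_or_mx (h.sm i) with hi | hi
  · exact hi.div_mem (h.tm j)
  · have := O.mul_mem (h.key hi hj).mem (O.pow_mem hA e)
    rwa [div_mul_cancel₀ _ (pow_ne_zero e h.ane)] at this

theorem Loc.prin (h : Loc e O s t A) (i : I) (j : J) : Prin {s i, t j} O := by
  rcases isU_or_mx (h.sm i) with hi | hi
  · exact (gn_left (h.sne i) (hi.div_mem (h.tm j))).prin
  rcases isU_or_mx (h.tm j) with hj | hj
  · exact (gn_right (h.tne j) (hj.div_mem (h.sm i))).prin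
  rcases h.aa with hA | hA
  · exact (gn_left (h.sne i) (h.div_mem hA i hj)).prin
  · exact (gn_right (h.tne j) (h.symm.div_mem hA j hi)).prin

theorem Loc.pm (h : Loc e O s t A) (i : I) (j : J) : ∀ a ∈ ({s i, t j} : Set K), a ∈ O := by
  rintro a (rfl | rfl)
  exacts [h.sm i, h.tm j]

variable {E : I → J → K}

theorem Loc.eu (h : Loc e O s t A) (hE : ∀ i j, Gn {s i, t j} O (E i j)) (i : I) (j : J)
    (hu : IsU O (s i) ∨ IsU O (t j)) : IsU O (E i j) :=
  (hE i j).isU (h.pm i j) (hu.elim (fun h' => ⟨_, Or.inl rfl, h'⟩) fun h' => ⟨_, Or.inr rfl, h'⟩)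

theorem Loc.eT (h : Loc e O s t A) (hE : ∀ i j, Gn {s i, t j} O (E i j)) (i : I) (j : J)
    (hA : A ∈ O) (hj : t j ∈ mx O) : IsU O (E i j / s i) :=
  (hE i j).unit (gn_left (h.sne i) (h.div_mem hA i hj))

theorem Loc.rC (h : Loc e O s t A) (hE : ∀ i j, Gn {s i, t j} O (E i j)) (i : I) :
    s i / ∏ j, E i j ∈ O ∧ (A⁻¹ ∉ mx O → IsU O (s i / ∏ j, E i j)) := by
  rcases isU_or_mx (h.sm i) with hi | hi
  · have := hi.div (isU_prod (s := Finset.univ) fun j _ => h.eu hE i j (Or.inl hi))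
    exact ⟨this.mem, fun _ => this⟩
  have hA : A⁻¹ ∉ mx O → A ∈ O := fun hA => h.aa.elim id fun h' => by
    simpa using (isU_of_not_mx h' hA).inv_mem
  by_cases hj : ∃ j, t j ∈ mx O
  · obtain ⟨j, hj⟩ := hj
    have h1 := prod_div (O := O) (f := E i) j (hE i j).ne
      fun j' hj' => h.eu hE i j' (Or.inr (h.symm.su hj j' hj'))
    have h2 : s i / ∏ j, E i j = s i / E i j / ((∏ j', E i j') / E i j) := by
      have := (hE i j).ne
      rw [div_div_div_cancel_right₀ this]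
    rw [h2]
    refine ⟨h1.div_mem ((hE i j).1 _ (Or.inl rfl)), fun h3 => IsU.div ?_ h1⟩
    simpa using (h.eT hE i j (hA h3) hj).inv
  · have ht : ∀ j, IsU O (t j) := fun j => isU_of_not_mx (h.tm j) fun h' => hj ⟨j, h'⟩
    refine ⟨(isU_prod (s := Finset.univ) fun j _ => h.eu hE i j (Or.inr (ht j))).div_mem (h.sm i),
      fun h3 => absurd ?_ hi.2⟩
    have h4 : IsU O (A ^ e * ∏ i, s i) := by
      rw [h.eqn]; exact isU_prod fun j _ => ht j
    have h5 : IsU O ((∏ i, s i) * A ^ e) := by rwa [mul_comm]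
    have h6 := IsU.of_mul (O.prod_mem fun i _ => h.sm i) (O.pow_mem (hA h3) e) h5
    have h7 := h6.div (prod_div i (h.sne i) (h.su hi))
    rwa [div_div_cancel₀ h6.1] at h7

theorem Loc.pC (h : Loc e O s t A) (hE : ∀ i j, Gn {s i, t j} O (E i j)) (hA : A ∈ O) :
    IsU O ((∏ i, s i) / ∏ i, ∏ j, E i j) := by
  have h1 : A⁻¹ ∉ mx O := fun h' =>
    h'.2 ⟨inv_ne_zero h.ane, h'.1, by rw [inv_inv]; exact hA⟩
  rw [← Finset.prod_div_distrib]
  exact isU_prod fun i _ => (h.rC hE i).2 h1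

theorem Loc.pT (h : Loc e O s t A) (hE : ∀ i j, Gn {s i, t j} O (E i j)) (hA : A⁻¹ ∈ O) :
    IsU O ((∏ j, t j) / ∏ i, ∏ j, E i j) := by
  rw [Finset.prod_comm]
  exact h.symm.pC (gn_swap hE) hA

end loc

variable {k M K Λ κ : Type} {n : ℕ} [Field k] [Field M] [Field K] [Algebra k M] [Algebra k K]
  [Finite Λ] [Fintype κ] {L : Lv k M Λ κ n} {ι : M →ₐ[k] K} {l : k} {ζ w : K} {e : ℕ}

theorem loc (h : XLoc L ι l ζ w e) {O : Subalgebra k K} (hO : O ∈ XX L ι ζ w e) :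
    Loc e O (fun i => sX L ι i O) (fun j => tau l ζ j O) (AA L ι ζ w e O) where
  sne := h.sne O hO
  tne := h.tne O
  ane := h.ane O hO
  aa := h.aa O hO
  eqn := h.eqn O hO
  sm := h.sm O hO
  tm := h.tm O hO
  s1 := h.s1 O hO
  t1 := h.t1 O hO

theorem gE (h : XLoc L ι l ζ w e) {O : Subalgebra k K} (hO : O ∈ XX L ι ζ w e) (i : κ)
    (j : Fin 4) : Gn {sX L ι i O, tau l ζ j O} O (EE L ι l ζ i j O) :=
  gn_spec ((loc h hO).prin i j)

theorem cartZ (h : XLoc L ι l ζ w e) : IsCart (XX L ι ζ w e) (eta ζ) :=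
  isCart_of_gn (Set.toFinite _) h.gZ

theorem cne (h : XLoc L ι l ζ w e) (j : Fin 4) :
    (![ζ, ζ - 1, ζ - algebraMap k K l, 1] j : K) ≠ 0 := fun e =>
  h.tne ⊤ j (by rw [tau, e, zero_div])

theorem cartT (h : XLoc L ι l ζ w e) (j : Fin 4) : IsCart (XX L ι ζ w e) (tau l ζ j) :=
  (isCart_const (cne h j)).div (cartZ h)

theorem cartU (ht : OkA L) (h : XLoc L ι l ζ w e) {f : Subalgebra k M → M} (hf : IsCart L.Y f) :
    IsCart (XX L ι ζ w e) (up ι L.Y f) :=
  isCart_up (fine_mp ht.fam).toGood h.fine.toGood h.maps hf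

theorem cartS (ht : OkA L) (h : XLoc L ι l ζ w e) (i : κ) : IsCart (XX L ι ζ w e) (sX L ι i) :=
  cartU ht h (ht.cs i)

theorem cartA (ht : OkA L) (h : XLoc L ι l ζ w e) : IsCart (XX L ι ζ w e) (AA L ι ζ w e) :=
  (isCart_const h.wne).div ((cartU ht h ((isCart_const ht.φne).mul
    (ht.cj.pow (3 - e)))).mul ((cartZ h).pow (2 * (3 - e))))

theorem cartE (ht : OkA L) (h : XLoc L ι l ζ w e) (i : κ) (j : Fin 4) :
    IsCart (XX L ι ζ w e) (EE L ι l ζ i j) :=
  isCart_gn_pair (cartS ht h i) (cartT h j) fun _ hO => gE h hO i j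

theorem cartN (ht : OkA L) (h : XLoc L ι l ζ w e) (i : κ ⊕ Fin 4) :
    IsCart (XX L ι ζ w e) (sN L ι l ζ i) := by
  rcases i with i | j
  · have e1 : sN L ι l ζ (Sum.inl i) = sX L ι i / ∏ j, EE L ι l ζ i j := by
      funext O
      simp only [sN, Sum.elim_inl, Pi.div_apply, Finset.prod_apply]
    rw [e1]
    exact (cartS ht h i).div (isCart_prod fun j _ => cartE ht h i j)
  · have e1 : sN L ι l ζ (Sum.inr j) = tau l ζ j / ∏ i, EE L ι l ζ i j := by
      funext O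
      simp only [sN, Sum.elim_inr, Pi.div_apply, Finset.prod_apply]
    rw [e1]
    exact (cartT h j).div (isCart_prod fun i _ => cartE ht h i j)

theorem lb_eq (g : Subalgebra k M → M) (t : ℤ) (a : κ → Fin 4 → ℤ) : lb L ι l ζ g t a =
    up ι L.Y g * eta ζ ^ (-t) * ∏ i, ∏ j, EE L ι l ζ i j ^ (-a i j) := by
  funext O
  simp only [lb, Pi.mul_apply, Pi.pow_apply, Finset.prod_apply]

theorem cartP (ht : OkA L) (h : XLoc L ι l ζ w e) (a : κ → Fin 4 → ℤ) (i : κ) :
    IsCart (XX L ι ζ w e) (∏ j, EE L ι l ζ i j ^ (-a i j)) :=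
  isCart_prod fun j _ => (cartE ht h i j).zpow _

theorem cartW (ht : OkA L) (h : XLoc L ι l ζ w e) (g : Subalgebra k M → M) (t : ℤ)
    (a : κ → Fin 4 → ℤ) (hg : IsCart L.Y g) : IsCart (XX L ι ζ w e) (lb L ι l ζ g t a) := by
  rw [lb_eq]
  exact ((cartU ht h hg).mul ((cartZ h).zpow _)).mul (isCart_prod fun i _ => cartP ht h a i)

variable [IsAlgClosed k]

theorem degT (h : XLoc L ι l ζ w e) (ν : Curve (XX L ι ζ w e)) (j : Fin 4) :
    ν.deg (tau l ζ j) = -ν.deg (eta ζ) := by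
  have := deg_div h.fine.toGood (isCart_const (cne h j)) (cartZ h) ν
  rw [deg_const, zero_sub] at this
  exact this

theorem degW (ht : OkA L) (h : XLoc L ι l ζ w e) (ν : Curve (XX L ι ζ w e))
    (g : Subalgebra k M → M) (t : ℤ) (a : κ → Fin 4 → ℤ) (hg : IsCart L.Y g) :
    ν.deg (lb L ι l ζ g t a) =
      ν.deg (up ι L.Y g) - t * ν.deg (eta ζ) - ∑ i, ∑ j, a i j * ν.deg (EE L ι l ζ i j) := by
  have hX := h.fine.toGood
  rw [lb_eq, deg_mul hX ((cartU ht h hg).mul ((cartZ h).zpow _))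
    (isCart_prod fun i _ => cartP ht h a i),
    deg_mul hX (cartU ht h hg) ((cartZ h).zpow _), deg_zpow hX (cartZ h),
    deg_prod hX fun i _ => cartP ht h a i]
  have h2 : ∀ i, ν.deg (∏ j, EE L ι l ζ i j ^ (-a i j)) =
      -∑ j, a i j * ν.deg (EE L ι l ζ i j) := fun i => by
    rw [deg_prod hX fun j _ => (cartE ht h i j).zpow _, ← Finset.sum_neg_distrib]
    exact Finset.sum_congr rfl fun j _ => by rw [deg_zpow hX (cartE ht h i j), neg_mul]
  rw [Finset.sum_congr rfl fun i _ => h2 i, Finset.sum_neg_distrib]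
  ring

end Xdv

open Xdv in
/-- XDIV. -/
theorem xdiv_stmt : XdivStmt := fun _ _ _ _ _ _ _ _ _ _ _ _ _ _ _ _ _ _ _ _ ht _ h =>
  { gE := fun _ hO => gE h hO
    em := fun _ hO i j => (gE h hO i j).mem ((loc h hO).pm i j)
    eu := fun _ hO => (loc h hO).eu (gE h hO)
    emx := fun _ hO i j hi hj => (gE h hO i j).mem_mx (by rintro a (rfl | rfl); exacts [hi, hj])
    eT := fun _ hO => (loc h hO).eT (gE h hO)
    eC := fun _ hO i j => (loc h hO).symm.eT (gn_swap (gE h hO)) j i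
    rT := fun _ hO j => by
      simpa only [inv_inv] using (loc h hO).symm.rC (gn_swap (gE h hO)) j
    rC := fun _ hO => (loc h hO).rC (gE h hO)
    pC := fun _ hO => (loc h hO).pC (gE h hO)
    pT := fun _ hO => (loc h hO).pT (gE h hO)
    cartU := fun _ => cartU ht h
    cartZ := cartZ h
    cartT := cartT h
    cartS := cartS ht h
    cartA := cartA ht h
    cartE := cartE ht h
    cartN := cartN ht h
    cartW := cartW ht h
    degT := degT h
    degW := degW ht h }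

end Pool.Agent.MP_20d318_ag.CH
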