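import Pool.Agent.MP_20d318_ag.CH.Spec

/-! XLOC: the charts of the blow-up and of its double cover. -/

set_option autoImplicit false
set_option linter.unusedSectionVars false

namespace Pool.Agent.MP_20d318_ag.CH

open Pool.Agent.MP_fd6584_ag.Fn Pool.Agent.CBk Polynomial
open Pool.Agent.MP_fd6584_ag.AG hiding deg_inv deg_congr deg_of_unit deg_mul deg_prod deg_zpow
  deg_eq_zero deg_nonneg deg_div deg_pow

namespace XlocR

open CB.P.XLocR (up_ne prod_eq eta_cases)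

variable {k M K Λ κ : Type} {n : ℕ} [Field k] [Field M] [Field K] [Algebra k M] [Algebra k K]
  [Finite Λ] [Fintype κ] {L : Lv k M Λ κ n} {ι : M →ₐ[k] K} {l : k} {ζ w : K} {e : ℕ} {φ : M}
  {O B : Subalgebra k K}

section ext

variable (he : Ext φ ι l ζ w e)

include he

theorem z_ne (c : k) : ζ - algebraMap k K c ≠ 0 := by
  have := he.tr.ne (algebraMap k M c)
  rw [AlgHom.commutes] at this
  exact sub_ne_zero.2 this

theorem z0 : ζ ≠ 0 := by simpa using z_ne he 0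

theorem z1 : ζ - 1 ≠ 0 := by simpa using z_ne he 1

theorem e0 : e ≠ 0 := by rcases he.he with h | h <;> omega

theorem w_ne : w ≠ 0 := fun h => by
  have h1 := he.eq
  rw [h, zero_pow (e0 he)] at h1
  exact mul_ne_zero (pow_ne_zero _ (up_ne he.φne))
    (mul_ne_zero (mul_ne_zero (z0 he) (z1 he)) (z_ne he l)) h1.symm

theorem eta_ne (O : Subalgebra k K) : eta ζ O ≠ 0 := by
  unfold CBk.eta
  split_ifs
  · exact one_ne_zero
  · exact z0 he

theorem tau_ne (O : Subalgebra k K) (j : Fin 4) : tau l ζ j O ≠ 0 := by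
  refine div_ne_zero ?_ (eta_ne he O)
  fin_cases j
  · exact z0 he
  · exact z1 he
  · exact z_ne he l
  · exact one_ne_zero

theorem tp (O : Subalgebra k K) : ∃ α β : Fin 4 → k,
    (∀ j, tau l ζ j O = algebraMap k K (α j) * zc ζ O + algebraMap k K (β j)) ∧
    ∀ j j', j ≠ j' → α j * β j' ≠ α j' * β j := by
  have h0 := he.l0
  have h1 := he.l1
  have h1' := h1.symm
  have hz := z0 he
  by_cases h : ζ ∈ O
  · refine ⟨![1, 1, 1, 0], ![0, -1, -l, 1], fun j => ?_, fun j j' hj => ?_⟩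
    · fin_cases j <;> simp [tau, CBk.eta, zc, h, sub_eq_add_neg]
    · fin_cases j <;> fin_cases j' <;> simp_all
  · refine ⟨![0, -1, -l, 1], ![1, 1, 1, 0], fun j => ?_, fun j j' hj => ?_⟩
    · fin_cases j <;> simp [tau, CBk.eta, zc, h, hz, div_eq_mul_inv, sub_mul] <;> ring
    · fin_cases j <;> fin_cases j' <;> simp_all

omit he in
theorem cub0 {c a : k} (hc : c ≠ 0) (h0 : a ≠ 0) (h1 : a ≠ 1) : ∃ g : k[X], g.natDegree = 3 ∧
    g.Separable ∧ ∀ z : K, aeval z g = algebraMap k K c * cb a z := by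
  refine ⟨C c * ∏ i, (X - C (![0, 1, a] i)), ?_, ?_, fun z => ?_⟩
  · rw [natDegree_C_mul hc, natDegree_finsetProd_X_sub_C_eq_card]
    rfl
  · refine Separable.unit_mul (isUnit_C.2 hc.isUnit) (separable_prod_X_sub_C_iff.2 ?_)
    have h0' := h0.symm
    have h1' := h1.symm
    intro i j
    fin_cases i <;> fin_cases j <;> simp_all
  · simp [Fin.prod_univ_three, cb]

/-- The product of the four equations is a separable cubic in the coordinate. -/
theorem cub (O : Subalgebra k K) : ∃ g : k[X], g.natDegree = 3 ∧ g.Separable ∧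
    ∏ j, tau l ζ j O = aeval (zc ζ O) g := by
  have hz := z0 he
  rw [prod_eq]
  rcases eta_cases ζ O with ⟨h1, h2⟩ | ⟨h1, h2⟩ <;> rw [h1, h2]
  · obtain ⟨g, a, b, c⟩ := cub0 (K := K) one_ne_zero he.l0 he.l1
    exact ⟨g, a, b, by simp [c, cb]⟩
  · obtain ⟨g, a, b, c⟩ := cub0 (K := K) he.l0 (inv_ne_zero he.l0) (inv_ne_one.2 he.l1)
    have hl : algebraMap k K l ≠ 0 := by simpa using he.l0
    refine ⟨g, a, b, ?_⟩
    rw [c, cb, map_inv₀]
    field_simp
    ring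

theorem t1 (hO : IsLocalRing O) (j j' : Fin 4) (h : tau l ζ j O ∈ mx O)
    (h' : tau l ζ j' O ∈ mx O) : j = j' := by
  by_contra hn
  obtain ⟨α, β, h1, h2⟩ := tp he O
  have h3 := mx_sub' hO (mx_mul_left (O.algebraMap_mem (α j)) h')
    (mx_mul_left (O.algebraMap_mem (α j')) h)
  have h4 : algebraMap k K (α j) * tau l ζ j' O - algebraMap k K (α j') * tau l ζ j O =
      algebraMap k K (α j * β j' - α j' * β j) := by
    rw [h1, h1, map_sub, map_mul, map_mul]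
    ring
  rw [h4, const_mem_mx, sub_eq_zero] at h3
  exact h2 j j' hn h3

end ext

section loc

variable (ht : OkA L) (he : Ext L.φ ι l ζ w e) (hR : pr ι L.Y O ∈ L.Y)

include ht he hR

theorem N_ne : NN L ι ζ e O ≠ 0 :=
  mul_ne_zero (up_ne (pow_ne_zero _ (ht.gU _ hR).ne)) (pow_ne_zero _ (eta_ne he O))

theorem A_ne : AA L ι ζ w e O ≠ 0 :=
  div_ne_zero (w_ne he) (mul_ne_zero (up_ne (mul_ne_zero ht.φne (pow_ne_zero _ (ht.cj.ne hR))))
    (pow_ne_zero _ (eta_ne he O)))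

theorem eqn : AA L ι ζ w e O ^ e * ∏ i, sX L ι i O = ∏ j, tau l ζ j O := by
  have h1 : ∏ i, sX L ι i O = ι L.φ * ι (L.jj (pr ι L.Y O)) ^ 2 := by
    rw [← map_pow, ← map_mul, ht.eqn _ hR, map_prod]
    rfl
  have h3 := eta_ne he O
  have h4 : ι (L.jj (pr ι L.Y O)) ≠ 0 := up_ne (ht.cj.ne hR)
  have h5 : ι L.φ ≠ 0 := up_ne ht.φne
  rw [prod_eq, h1]
  simp only [AA, up, map_mul, map_pow, div_pow]
  rw [he.eq, cb]
  rcases he.he with rfl | rfl <;> norm_num <;> field_simp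

theorem w_eq (m : M) : w * ι (m ^ (3 - e) / L.φ) = NN L ι ζ e O * AA L ι ζ w e O *
    ι ((m / (gn L.U (pr ι L.Y O) / L.jj (pr ι L.Y O))) ^ (3 - e)) := by
  have h3 := eta_ne he O
  have h4 : ι (L.jj (pr ι L.Y O)) ≠ 0 := up_ne (ht.cj.ne hR)
  have h5 : ι L.φ ≠ 0 := up_ne ht.φne
  have h6 : ι (gn L.U (pr ι L.Y O)) ≠ 0 := up_ne (ht.gU _ hR).ne
  simp only [NN, AA, up, map_mul, map_div₀, map_pow, div_pow]
  field_simp

theorem v_eq (m : M) (c : K) : ι (m ^ (3 - e)) * c = NN L ι ζ e O *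
    (ι ((m / gn L.U (pr ι L.Y O)) ^ (3 - e)) * (c / eta ζ O ^ (2 * (3 - e)))) := by
  have h3 := eta_ne he O
  have h6 : ι (gn L.U (pr ι L.Y O)) ≠ 0 := up_ne (ht.gU _ hR).ne
  simp only [NN, map_div₀, map_pow, div_pow]
  field_simp

theorem SI_mem (hB : ∀ a ∈ pr ι L.Y O, ι a ∈ B) (hz : zc ζ O ∈ B) :
    ∀ c ∈ SI L ι ζ w e, ∃ b ∈ B, c = NN L ι ζ e O * AA L ι ζ w e O * b ∨ c = NN L ι ζ e O * b := by
  have g := (ht.gU' _ hR).1
  have g' := (ht.gU _ hR).1
  have hz0 := z0 he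
  have p1 : 1 / eta ζ O ^ (2 * (3 - e)) ∈ B := by
    rcases eta_cases ζ O with ⟨h1, h2⟩ | ⟨h1, h2⟩
    · rw [h1]; simp
    · rw [h1, one_div, ← inv_pow, ← h2]; exact pow_mem hz _
  have p2 : ζ ^ (2 * (3 - e)) / eta ζ O ^ (2 * (3 - e)) ∈ B := by
    rcases eta_cases ζ O with ⟨h1, h2⟩ | ⟨h1, h2⟩
    · rw [h1, one_pow, div_one, ← h2]; exact pow_mem hz _
    · rw [h1, div_self (pow_ne_zero _ hz0)]; exact B.one_mem
  have key : ∀ m ∈ L.U, ∀ c : K, c / eta ζ O ^ (2 * (3 - e)) ∈ B → ∃ b ∈ B,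
      ι (m ^ (3 - e)) * c = NN L ι ζ e O * AA L ι ζ w e O * b ∨
        ι (m ^ (3 - e)) * c = NN L ι ζ e O * b :=
    fun m hm c hc => ⟨_, mul_mem (hB _ (pow_mem (g' m hm) _)) hc, Or.inr (v_eq ht he hR m c)⟩
  rintro c (⟨m, hm, rfl⟩ | ⟨m, hm, rfl⟩ | ⟨m, hm, rfl⟩)
  · exact ⟨_, hB _ (pow_mem (g m hm) _), Or.inl (w_eq ht he hR m)⟩
  · simpa only [mul_one] using key m hm 1 p1
  · exact key m hm _ p2

theorem SI_one :
    ∃ u, IsU (pr ι L.Y O) u ∧ NN L ι ζ e O * AA L ι ζ w e O * ι u ∈ SI L ι ζ w e := by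
  obtain ⟨m, hm, hu⟩ := (ht.gU' _ hR).2
  refine ⟨_, hu.pow (3 - e), ?_⟩
  rw [← w_eq ht he hR]
  exact Or.inl ⟨m, hm, rfl⟩

theorem SI_two : ∃ u, IsU (pr ι L.Y O) u ∧ NN L ι ζ e O * ι u ∈ SI L ι ζ w e := by
  obtain ⟨m, hm, hu⟩ := (ht.gU _ hR).2
  refine ⟨_, hu.pow (3 - e), ?_⟩
  have h1 := v_eq ht he hR m (eta ζ O ^ (2 * (3 - e)))
  rw [div_self (pow_ne_zero _ (eta_ne he O)), mul_one] at h1
  rw [← h1]
  rcases eta_cases ζ O with ⟨h2, -⟩ | ⟨h2, -⟩ <;> rw [h2]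
  · exact Or.inr (Or.inl ⟨m, hm, by simp⟩)
  · exact Or.inr (Or.inr ⟨m, hm, rfl⟩)

variable (hB : ∀ a ∈ pr ι L.Y O, ι a ∈ B) (hz : zc ζ O ∈ B)

include hB hz

omit ht he hR hz in
theorem isU_B {u : M} (hu : IsU (pr ι L.Y O) u) : IsU B (ι u) :=
  ⟨up_ne hu.ne, hB _ hu.mem, by simpa using hB _ hu.inv_mem⟩

theorem gS1 (ha : AA L ι ζ w e O ∈ B) : Gn (SI L ι ζ w e) B (NN L ι ζ e O) := by
  have hN := N_ne ht he hR
  obtain ⟨u, hu, h⟩ := SI_two ht he hR
  refine ⟨fun c hc => ?_, _, h, ?_⟩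
  · obtain ⟨b, hb, rfl | rfl⟩ := SI_mem ht he hR hB hz c hc
    · exact Set.mem_of_eq_of_mem (by field_simp) (mul_mem ha hb)
    · exact Set.mem_of_eq_of_mem (by field_simp) hb
  · rw [mul_div_cancel_left₀ _ hN]
    exact isU_B hB hu

theorem gS2 (ha : (AA L ι ζ w e O)⁻¹ ∈ B) :
    Gn (SI L ι ζ w e) B (NN L ι ζ e O * AA L ι ζ w e O) := by
  have hN := N_ne ht he hR
  have hA := A_ne ht he hR
  obtain ⟨u, hu, h⟩ := SI_one ht he hR
  refine ⟨fun c hc => ?_, _, h, ?_⟩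
  · obtain ⟨b, hb, rfl | rfl⟩ := SI_mem ht he hR hB hz c hc
    · exact Set.mem_of_eq_of_mem (by field_simp) hb
    · exact Set.mem_of_eq_of_mem (by field_simp) (mul_mem ha hb)
  · rw [mul_div_cancel_left₀ _ (mul_ne_zero hN hA)]
    exact isU_B hB hu

theorem prinS (ha : AA L ι ζ w e O ∈ B ∨ (AA L ι ζ w e O)⁻¹ ∈ B) : Prin (SI L ι ζ w e) B :=
  ha.elim (fun h => (gS1 ht he hR hB hz h).prin) fun h => (gS2 ht he hR hB hz h).prin

theorem aa_of (hp : Prin (SI L ι ζ w e) B) : AA L ι ζ w e O ∈ B ∨ (AA L ι ζ w e O)⁻¹ ∈ B := by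
  have hN := N_ne ht he hR
  have hA := A_ne ht he hR
  obtain ⟨c, hc, hg⟩ := hp.exists_mem
  have hc0 := hg.ne
  obtain ⟨b, hb, rfl | rfl⟩ := SI_mem ht he hR hB hz c hc
  · obtain ⟨u, hu, h⟩ := SI_two ht he hR
    have h0 : ι u ≠ 0 := up_ne hu.ne
    have h1 : (ι u)⁻¹ ∈ B := (isU_B hB hu).inv_mem
    have hb0 := right_ne_zero_of_mul hc0
    right
    exact Set.mem_of_eq_of_mem (by field_simp) (mul_mem (mul_mem (hg.1 _ h) hb) h1)
  · obtain ⟨u, hu, h⟩ := SI_one ht he hR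
    have h0 : ι u ≠ 0 := up_ne hu.ne
    have h1 : (ι u)⁻¹ ∈ B := (isU_B hB hu).inv_mem
    have hb0 := right_ne_zero_of_mul hc0
    left
    exact Set.mem_of_eq_of_mem (by field_simp) (mul_mem (mul_mem (hg.1 _ h) hb) h1)

end loc

section glob

variable (ht : OkA L) (he : Ext L.φ ι l ζ w e)

include ht he

theorem fam : Fam k (famX L ι ζ w e) where
  fin := by
    rintro (a | b)
    · exact (ht.fam.fin a).image ι
    · cases b
      · exact Set.toFinite ({ζ, 1} : Set K)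
      · exact (ht.fU'.image _).union ((ht.fU.image _).union (ht.fU.image _))
  ne := by
    rintro (a | b)
    · exact (ht.fam.ne a).image ι
    · cases b
      · exact ⟨ζ, Or.inl rfl⟩
      · obtain ⟨m, hm, -⟩ := (ht.gU _ (fine_mp ht.fam).top).2
        exact ⟨_, Or.inr (Or.inl ⟨m, hm, rfl⟩)⟩
  nz := by
    rintro (o | b) a ha
    · obtain ⟨m, hm, rfl⟩ := ha
      exact up_ne (ht.fam.nz o m hm)
    · cases b
      · rcases ha with rfl | rfl
        · exact z0 he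
        · exact one_ne_zero
      · rcases ha with ⟨m, hm, rfl⟩ | ⟨m, hm, rfl⟩ | ⟨m, hm, rfl⟩
        · exact mul_ne_zero (w_ne he) (up_ne (div_ne_zero (pow_ne_zero _ (ht.nU' m hm)) ht.φne))
        · exact up_ne (pow_ne_zero _ (ht.nU m hm))
        · exact mul_ne_zero (up_ne (pow_ne_zero _ (ht.nU m hm))) (pow_ne_zero _ (z0 he))
  top := by
    have h1 : (⊤ : IntermediateField k M) ≤ (IntermediateField.adjoin k
        {f | ∃ l, ∃ a ∈ famX L ι ζ w e l, ∃ b ∈ famX L ι ζ w e l, f = a / b}).comap ι := by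
      rw [← ht.fam.top, IntermediateField.adjoin_le_iff]
      rintro _ ⟨o, a, ha, b, hb, rfl⟩
      exact IntermediateField.subset_adjoin _ _
        ⟨Sum.inl o, ι a, ⟨a, ha, rfl⟩, ι b, ⟨b, hb, rfl⟩, map_div₀ ι a b⟩
    rw [eq_top_iff, ← he.top, IntermediateField.adjoin_le_iff]
    rintro f (⟨m, h⟩ | h | h)
    · exact h ▸ h1 (IntermediateField.mem_top (x := m))
    · exact IntermediateField.subset_adjoin _ _
        ⟨Sum.inr false, ζ, Or.inl rfl, 1, Or.inr rfl, by simpa using h⟩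
    · obtain ⟨m, hm, -⟩ := (ht.gU _ (fine_mp ht.fam).top).2
      obtain ⟨m', hm', -⟩ := (ht.gU' _ (fine_mp ht.fam).top).2
      have h2 : ι (m ^ (3 - e)) ≠ 0 := up_ne (pow_ne_zero _ (ht.nU m hm))
      have h3 : ι (m' ^ (3 - e) / L.φ) ≠ 0 :=
        up_ne (div_ne_zero (pow_ne_zero _ (ht.nU' m' hm')) ht.φne)
      have e1 : f = w * ι (m' ^ (3 - e) / L.φ) / ι (m ^ (3 - e)) *
          ι (m ^ (3 - e) / (m' ^ (3 - e) / L.φ)) := by
        rw [map_div₀ ι (m ^ (3 - e)), show f = w from h, div_mul_div_cancel₀ h2,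
          mul_div_cancel_right₀ _ h3]
      rw [e1]
      exact mul_mem (IntermediateField.subset_adjoin _ _ ⟨Sum.inr true, _, Or.inl ⟨m', hm', rfl⟩,
        _, Or.inr (Or.inl ⟨m, hm, rfl⟩), rfl⟩) (h1 IntermediateField.mem_top)

theorem maps : Maps ι (XX L ι ζ w e) L.Y := fun O hO => by
  refine exists_mp_dom (S := L.S) (isLocalRing_comap ι (mp_loc hO)) fun a => ?_
  obtain ⟨_, ⟨b, -, rfl⟩, hg⟩ := (mp_prin (fam ht he) hO (Sum.inl a)).exists_mem
  exact ((gn_map ι).1 hg).prin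

variable (hO : O ∈ XX L ι ζ w e)

include hO

theorem zm : zc ζ O ∈ O := by
  unfold zc
  split_ifs with h
  · exact h
  · rcases Prin.pair (mp_prin (fam ht he) hO (Sum.inr false)) with h1 | h1
    · exact absurd (by simpa using h1) h
    · simpa using h1

theorem gZ : Gn {ζ, 1} O (eta ζ O) := by
  have hz := zm ht he hO
  rcases eta_cases ζ O with ⟨h1, h2⟩ | ⟨h1, h2⟩
  · rw [h1]
    exact gn_right one_ne_zero (by rw [div_one, ← h2]; exact hz)
  · rw [h1]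
    exact gn_left (z0 he) (by rw [one_div, ← h2]; exact hz)

theorem aa : AA L ι ζ w e O ∈ O ∨ (AA L ι ζ w e O)⁻¹ ∈ O :=
  aa_of ht he ((maps ht he).mem hO) (fun _ => (maps ht he).mem_up hO) (zm ht he hO)
    (mp_prin (fam ht he) hO (Sum.inr true))

theorem pts (a : K) (ha : a ∈ O) (h : a = AA L ι ζ w e O ∨ a = (AA L ι ζ w e O)⁻¹) :
    O ∈ Pts (Algebra.adjoin k (ι '' pr ι L.Y O ∪ {zc ζ O, a})) := by
  have hm := maps ht he
  have hB : ∀ b ∈ pr ι L.Y O,
      ι b ∈ Algebra.adjoin k (ι '' pr ι L.Y O ∪ {zc ζ O, a}) := fun b hb =>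
    Algebra.subset_adjoin (Or.inl ⟨b, hb, rfl⟩)
  have hz : zc ζ O ∈ Algebra.adjoin k (ι '' pr ι L.Y O ∪ {zc ζ O, a}) :=
    Algebra.subset_adjoin (Or.inr (Or.inl rfl))
  have ha' : a ∈ Algebra.adjoin k (ι '' pr ι L.Y O ∪ {zc ζ O, a}) :=
    Algebra.subset_adjoin (Or.inr (Or.inr rfl))
  refine mp_chart (fam ht he) hO ?_ ?_
  · rw [Algebra.adjoin_le_iff]
    rintro _ (⟨b, hb, rfl⟩ | rfl | rfl)
    · exact hm.mem_up hO hb
    · exact zm ht he hO
    · exact ha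
  · rintro (o | b)
    · obtain ⟨b, hb, hg⟩ := (mp_prin ht.fam (hm.mem hO) o).exists_mem
      refine ⟨ι b, ⟨b, hb, rfl⟩, ?_⟩
      rintro _ ⟨c, hc, rfl⟩
      rw [← map_div₀]
      exact le_fr (hB _ (hg.1 c hc))
    · cases b
      · have hz0 := z0 he
        rcases eta_cases ζ O with ⟨-, h2⟩ | ⟨-, h2⟩
        · refine ⟨1, Or.inr rfl, fun c hc => le_fr ?_⟩
          rcases hc with hc | hc <;> rw [hc, div_one]
          · exact Set.mem_of_eq_of_mem h2.symm hz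
          · exact one_mem _
        · refine ⟨ζ, Or.inl rfl, fun c hc => le_fr ?_⟩
          rcases hc with hc | hc <;> rw [hc]
          · rw [div_self hz0]
            exact one_mem _
          · rw [one_div]
            exact Set.mem_of_eq_of_mem h2.symm hz
      · obtain ⟨b, hb, h1⟩ := (prinS ht he (hm.mem hO) hB hz
          (h.imp (fun h => Set.mem_of_eq_of_mem h.symm ha')
            fun h => Set.mem_of_eq_of_mem h.symm ha')).exists_mem
        exact ⟨b, hb, fun c hc => le_fr (h1.1 c hc)⟩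

theorem tm (j : Fin 4) : tau l ζ j O ∈ O := by
  obtain ⟨α, β, h, -⟩ := tp he O
  rw [h]
  exact add_mem (mul_mem (O.algebraMap_mem _) (zm ht he hO)) (O.algebraMap_mem _)

theorem sm (i : κ) : sX L ι i O ∈ O :=
  (maps ht he).mem_up hO (ht.sm _ ((maps ht he).mem hO) i)

theorem s1 (i i' : κ) (h : sX L ι i O ∈ mx O) (h' : sX L ι i' O ∈ mx O) : i = i' := by
  have hm := maps ht he
  have hR := hm.mem hO
  exact ht.one _ hR i i' ((hm.mx_up hO (ht.sm _ hR i)).1 h) ((hm.mx_up hO (ht.sm _ hR i')).1 h')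

theorem ss_mem (u : K) : ∏ i, sX L ι i O ∈ Algebra.adjoin k (ι '' pr ι L.Y O ∪ {u}) :=
  prod_mem fun i _ => Algebra.subset_adjoin (Or.inl ⟨_, ht.sm _ ((maps ht he).mem hO) i, rfl⟩)

/-- The coordinate on the line is algebraic over the rest. -/
theorem algZ : AlgM O (Algebra.adjoin k (ι '' pr ι L.Y O ∪ {AA L ι ζ w e O})) (zc ζ O) := by
  obtain ⟨g, h0, -, h2⟩ := cub he O
  have h1 : g.coeff 3 ≠ 0 := by
    rw [← h0]
    exact leadingCoeff_ne_zero.2 fun h => by simp [h] at h0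
  have hA : AA L ι ζ w e O ∈ Algebra.adjoin k (ι '' pr ι L.Y O ∪ {AA L ι ζ w e O}) :=
    Algebra.subset_adjoin (Or.inr rfl)
  refine ⟨g.map (algebraMap k K) - C (AA L ι ζ w e O ^ e * (∏ i, sX L ι i O)), fun i => ?_,
    ⟨3, ?_⟩, ?_⟩
  · rw [coeff_sub, coeff_map, coeff_C]
    refine sub_mem (Subalgebra.algebraMap_mem _ _) ?_
    split_ifs
    · exact mul_mem (pow_mem hA e) (ss_mem ht he hO _)
    · exact zero_mem _
  · rw [coeff_sub, coeff_map, coeff_C, if_neg three_ne_zero, sub_zero]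
    exact isU_const h1
  · rw [eval_sub, eval_C, eqn ht he ((maps ht he).mem hO), h2, eval_map_algebraMap, sub_self]
    exact zero_mem_mx

/-- Away from the components the fibre coordinate is algebraic over the rest. -/
theorem algA (hs : ∀ i, IsU O (sX L ι i O)) :
    AlgM O (Algebra.adjoin k (ι '' pr ι L.Y O ∪ {zc ζ O})) (AA L ι ζ w e O) := by
  obtain ⟨g, -, -, h2⟩ := cub he O
  have hz : zc ζ O ∈ Algebra.adjoin k (ι '' pr ι L.Y O ∪ {zc ζ O}) :=
    Algebra.subset_adjoin (Or.inr rfl)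
  refine ⟨monomial e (∏ i, sX L ι i O) - C (∏ j, tau l ζ j O), fun i => ?_, ⟨e, ?_⟩, ?_⟩
  · rw [coeff_sub, coeff_monomial, coeff_C]
    refine sub_mem ?_ ?_ <;> split_ifs
    · exact ss_mem ht he hO _
    · exact zero_mem _
    · rw [h2]
      exact aeval_mem_adjoin_singleton k _ |> (Algebra.adjoin_le (by simpa using hz))
    · exact zero_mem _
  · rw [coeff_sub, coeff_monomial, coeff_C, if_pos rfl, if_neg (e0 he), sub_zero]
    exact isU_prod fun i _ => hs i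
  · rw [eval_sub, eval_C, eval_monomial, ← eqn ht he ((maps ht he).mem hO), mul_comm, sub_self]
    exact zero_mem_mx

theorem inv_mx (h : AA L ι ζ w e O ∉ O) : (AA L ι ζ w e O)⁻¹ ∈ mx O :=
  ⟨(aa ht he hO).resolve_left h, fun h1 => h (by simpa using h1.inv_mem)⟩

variable {m : ℕ} (hn : Dim (pr ι L.Y O) m)

include hn

theorem upA (ha : AA L ι ζ w e O ∈ O) : Dim O (m + 1) ∧
    (AlgM O ((pr ι L.Y O).map ι) (AA L ι ζ w e O) → Dim O m) :=
  dimUp_stmt k M K ι _ O _ (zc ζ O) m ((maps ht he).dom hO)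
    (by rw [Set.pair_comm]; exact pts ht he hO _ ha (Or.inl rfl)) hn (algZ ht he hO)

theorem upZ (a : K) (ha : a ∈ mx O) (h : a = AA L ι ζ w e O ∨ a = (AA L ι ζ w e O)⁻¹) :
    Dim O (m + 1) ∧ (AlgM O ((pr ι L.Y O).map ι) (zc ζ O) → Dim O m) :=
  dimUp_stmt k M K ι _ O _ a m ((maps ht he).dom hO) (pts ht he hO a ha.1 h) hn
    (algM_of_mx (c := 0) (by simpa using ha))

theorem dim : Dim O (m + 1) := by
  by_cases h : AA L ι ζ w e O ∈ O
  · exact (upA ht he hO hn h).1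
  · exact (upZ ht he hO hn _ (inv_mx ht he hO h) (Or.inr rfl)).1

theorem dimZ (h1 : AlgM O ((pr ι L.Y O).map ι) (zc ζ O))
    (h2 : ¬ (IsU O (AA L ι ζ w e O) ∧ ∃ i, sX L ι i O ∈ mx O)) : Dim O m := by
  by_cases h : AA L ι ζ w e O ∈ O
  · rcases isU_or_mx h with h3 | h3
    · exact (dimUp_stmt k M K ι _ O _ _ m ((maps ht he).dom hO) (pts ht he hO _ h (Or.inl rfl)) hn
        (algA ht he hO fun i => isU_of_not_mx (sm ht he hO i) fun h4 => h2 ⟨h3, i, h4⟩)).2 h1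
    · exact (upZ ht he hO hn _ h3 (Or.inl rfl)).2 h1
  · exact (upZ ht he hO hn _ (inv_mx ht he hO h) (Or.inr rfl)).2 h1

end glob

end XlocR

open XlocR in
theorem xloc_stmt : XlocStmt := fun _ _ _ _ _ _ _ _ _ _ _ _ _ _ _ _ _ _ _ _ ht he =>
  { fam := fam ht he
    fine := fine_mp (fam ht he)
    maps := maps ht he
    wne := w_ne he
    tne := tau_ne he
    zm := fun _ => zm ht he
    gZ := fun _ => gZ ht he
    tp := tp he
    cub := cub he
    sne := fun _ hO i => CB.P.XLocR.up_ne ((ht.cs i).ne ((maps ht he).mem hO))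
    ane := fun _ hO => A_ne ht he ((maps ht he).mem hO)
    aa := fun _ => aa ht he
    eqn := fun _ hO => eqn ht he ((maps ht he).mem hO)
    pts := fun _ => pts ht he
    prin := fun _ _ h ha hz => prinS ht he (pr_spec h).1 (fun _ hc => (pr_spec h).2.1 hc) hz ha
    gS := fun _ hO =>
      ⟨gS1 ht he ((maps ht he).mem hO) (fun _ => (maps ht he).mem_up hO) (zm ht he hO),
        gS2 ht he ((maps ht he).mem hO) (fun _ => (maps ht he).mem_up hO) (zm ht he hO)⟩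
    tm := fun _ => tm ht he
    sm := fun _ => sm ht he
    t1 := fun _ hO => t1 he (mp_loc hO)
    s1 := fun _ => s1 ht he
    dim := fun _ hO _ hn => dim ht he hO hn
    dimZ := fun _ hO _ hn => dimZ ht he hO hn
    dimA := fun _ hO _ hn hu => (upA ht he hO hn hu.mem).2 }

end Pool.Agent.MP_20d318_ag.CH
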