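import Pool.Agent.MP_20d318_ag.CH.LBase

/-! The coefficients with lower bounds. -/

set_option autoImplicit false
set_option linter.unusedSectionVars false

namespace Pool.Agent.MP_20d318_ag.CH

namespace Xyp

variable {κ R : Type} [Fintype κ] [Field R] [LinearOrder R] [IsStrictOrderedRing R]
  {a : κ → Fin 4 → R} {t : R} {xh p : κ → R} {q : Fin 4 → R}

/-- The graph inequality after the subtraction. -/
theorem graph {c : Fin 4 → Fin 4 → R} {p q : Fin 4 → R} {s t : R} (hr : ∀ k, ∑ j, c k j ≤ t)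
    (hp : ∀ (e : Equiv.Perm (Fin 4)) j j', c (e 0) j + c (e 1) j + c (e 2) j' + c (e 3) j' ≤ s)
    (hg : ∑ j, c j j ≤ s + t) (p0 : ∀ k, 0 ≤ p k) (pa : ∀ k j, p k ≤ c k j)
    (qa : ∀ k j, q j ≤ c k j) :
    ∑ j, max 0 (c j j - p j - q j) ≤ s - ∑ k, p k + (t - ∑ j, q j) := by
  by_cases h : ∀ j, 0 ≤ c j j - p j - q j
  · simp only [max_eq_right (h _), Finset.sum_sub_distrib]
    linarith
  · obtain ⟨m, hm⟩ := not_forall.1 h
    have e3 : Equiv.swap 3 m 3 = m := Equiv.swap_apply_left _ _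
    generalize Equiv.swap 3 m = e at e3
    have sm : ∀ f : Fin 4 → R, ∑ x, f x = f (e 0) + f (e 1) + f (e 2) + f m := fun f => by
      rw [← Equiv.sum_comp e f, Fin.sum_univ_four, e3]
    have c0 : ∀ k j, 0 ≤ c k j := fun k j => (p0 k).trans (pa k j)
    have b1 : ∀ i j, max 0 (c i i - p i - q i) ≤ c i i + c i j - p i - q i := fun i j =>
      max_le (by linarith [qa i i, pa i j]) (by linarith [c0 i j])
    have b2 : ∀ i j, max 0 (c j j - p j - q j) ≤ c j j + c i j - p j - q j := fun i j =>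
      max_le (by linarith [qa i j, pa j j]) (by linarith [c0 i j])
    have h1 := hr (e 1)
    have h2 := hp e (e 0) (e 2)
    rw [sm] at h1
    rw [e3] at h2
    rw [sm, sm p, sm q, max_eq_left (not_le.1 hm).le]
    linarith [b1 (e 1) (e 0), b2 (e 1) (e 0), b2 (e 1) (e 2), pa m (e 2), qa (e 1) m]

/-- Removal of the largest row. -/
theorem optA [Nonempty κ] (p0 : ∀ k, 0 ≤ p k) (pa : ∀ k j, p k ≤ a k j) (qa : ∀ k j, q j ≤ a k j)
    (ht : ∀ k, ∑ j, a k j ≤ t) (ub : ∀ k j, a k j ≤ xh k) :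
    ∃ (x : κ → R) (y : Fin 4 → R), (∀ k, 0 ≤ x k) ∧ (∀ j, q j ≤ y j) ∧
      (∀ k j, a k j ≤ x k + y j) ∧ ∑ j, y j ≤ t ∧ (∀ k, x k ≤ xh k) ∧
      (∃ i₀, ∀ i, i ≠ i₀ → p i ≤ x i) ∧ ∀ k, ∑ l, x l + xh k ≤ ∑ l, xh l := by
  classical
  obtain ⟨m, hm⟩ := Finite.exists_max xh
  have h0 : ∀ k j, 0 ≤ a k j := fun k j => (p0 k).trans (pa k j)
  have hx : ∀ k, 0 ≤ xh k := fun k => (h0 k 0).trans (ub k 0)
  refine ⟨Function.update xh m 0, a m, fun k => ?_, qa m, fun k j => ?_, ht m, fun k => ?_,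
    ⟨m, fun i hi => ?_⟩, fun k => ?_⟩
  · by_cases e : k = m
    · simp [e]
    · simp [e, hx]
  · by_cases e : k = m
    · simp [e]
    · rw [Function.update_of_ne e]
      exact (ub k j).trans (le_add_of_nonneg_right (h0 m j))
  · by_cases e : k = m
    · simp [e, hx]
    · simp [e]
  · rw [Function.update_of_ne hi]
    exact (pa i 0).trans (ub i 0)
  · rw [Finset.sum_update_of_mem (Finset.mem_univ m), zero_add, Finset.sdiff_singleton_eq_erase,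
      ← Finset.sum_erase_add _ xh (Finset.mem_univ m)]
    exact add_le_add_right (hm k) _

/-- The linear program with lower bounds. -/
theorem lpp (lp : CC.LpStmt) {c : Fin 4 → Fin 4 → R} {p q : Fin 4 → R} {s t : R}
    (hr : ∀ k, ∑ j, c k j ≤ t)
    (hp : ∀ (e : Equiv.Perm (Fin 4)) j j', c (e 0) j + c (e 1) j + c (e 2) j' + c (e 3) j' ≤ s)
    (hg : ∀ e : Equiv.Perm (Fin 4), ∑ j, c (e j) j ≤ s + t) (p0 : ∀ k, 0 ≤ p k)
    (q0 : ∀ j, 0 ≤ q j) (pa : ∀ k j, p k ≤ c k j) (qa : ∀ k j, q j ≤ c k j) :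
    ∃ x y : Fin 4 → R, (∀ k, p k ≤ x k) ∧ (∀ j, q j ≤ y j) ∧ (∀ k j, c k j ≤ x k + y j) ∧
      ∑ j, y j ≤ t ∧ ∑ k, x k ≤ s ∧ ∀ k, ∃ j, x k ≤ c k j := by
  have b1 : ∀ k j, max 0 (c k j - p k - q j) ≤ c k j - q j := fun k j =>
    max_le (by linarith [qa k j]) (by linarith [p0 k])
  have b2 : ∀ k j, max 0 (c k j - p k - q j) ≤ c k j - p k := fun k j =>
    max_le (by linarith [pa k j]) (by linarith [q0 j])
  obtain ⟨x, y, k1, k2, k3, k4, k5, k6⟩ := lp R (fun k j => max 0 (c k j - p k - q j))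
    (t - ∑ j, q j) (s - ∑ k, p k) (fun _ _ => le_max_left _ _)
    (fun k => (Finset.sum_le_sum fun j _ => b1 k j).trans (by
      rw [Finset.sum_sub_distrib]
      linarith [hr k]))
    (fun e j j' => by
      rw [← Equiv.sum_comp e p, Fin.sum_univ_four]
      linarith [hp e j j', b2 (e 0) j, b2 (e 1) j, b2 (e 2) j', b2 (e 3) j'])
    (fun e => by
      rw [← Equiv.sum_comp e p]
      exact graph (c := fun k => c (e k)) (fun k => hr _) (fun e' => hp (e'.trans e)) (hg e)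
        (fun k => p0 _) (fun k => pa _) fun k => qa _)
  refine ⟨fun k => p k + x k, fun j => q j + y j, fun k => le_add_of_nonneg_right (k1 k),
    fun j => le_add_of_nonneg_right (k2 j), fun k j => ?_, ?_, ?_, fun k => ?_⟩
  · linarith [k3 k j, le_max_right 0 (c k j - p k - q j)]
  · rw [Finset.sum_add_distrib]
    linarith
  · rw [Finset.sum_add_distrib]
    linarith
  · obtain ⟨j, hj⟩ := k6 k
    exact ⟨j, by linarith [b2 k j]⟩

/-- The solution of the linear program. -/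
theorem optB (lp : CC.LpStmt) (e0 : Fin 4 ≃ κ) (p0 : ∀ k, 0 ≤ p k) (q0 : ∀ j, 0 ≤ q j)
    (pa : ∀ k j, p k ≤ a k j) (qa : ∀ k j, q j ≤ a k j) (ht : ∀ k, ∑ j, a k j ≤ t)
    (ub : ∀ k j, a k j ≤ xh k) :
    ∃ (x : κ → R) (y : Fin 4 → R), (∀ k, p k ≤ x k) ∧ (∀ j, q j ≤ y j) ∧
      (∀ k j, a k j ≤ x k + y j) ∧ ∑ j, y j ≤ t ∧ (∀ k, x k ≤ xh k) ∧ ∀ s : R,
      (∀ (e : Fin 4 ≃ κ) j j', a (e 0) j + a (e 1) j + a (e 2) j' + a (e 3) j' ≤ s) →
      (∀ e : Fin 4 ≃ κ, ∑ j, a (e j) j ≤ s + t) → ∑ k, x k ≤ s := by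
  obtain ⟨u, hu⟩ := Finite.exists_max fun u : Equiv.Perm (Fin 4) × Fin 4 × Fin 4 =>
    a (e0 (u.1 0)) u.2.1 + a (e0 (u.1 1)) u.2.1 + a (e0 (u.1 2)) u.2.2 + a (e0 (u.1 3)) u.2.2
  obtain ⟨w, hw⟩ := Finite.exists_max fun w : Equiv.Perm (Fin 4) => ∑ j, a (e0 (w j)) j
  obtain ⟨x, y, k1, k2, k3, k4, k5, k6⟩ := lpp lp (c := fun k => a (e0 k)) (t := t)
    (p := fun k => p (e0 k)) (q := q)
    (s := max (a (e0 (u.1 0)) u.2.1 + a (e0 (u.1 1)) u.2.1 + a (e0 (u.1 2)) u.2.2 +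
      a (e0 (u.1 3)) u.2.2) (∑ j, a (e0 (w j)) j - t)) (fun k => ht _)
    (fun e j j' => (hu (e, j, j')).trans (le_max_left _ _))
    (fun e => (hw e).trans (sub_le_iff_le_add.1 (le_max_right _ _))) (fun k => p0 _) q0
    (fun k => pa _) fun k => qa _
  refine ⟨fun k => x (e0.symm k), y, fun k => ?_, k2, fun k j => ?_, k4, fun k => ?_,
    fun s h1 h2 => ?_⟩
  · simpa using k1 (e0.symm k)
  · simpa using k3 (e0.symm k) j
  · obtain ⟨j, hj⟩ := k6 (e0.symm k)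
    exact hj.trans (by simpa using ub k j)
  · rw [Equiv.sum_comp e0.symm x]
    exact k5.trans (max_le (h1 (u.1.trans e0) _ _) (sub_le_iff_le_add.2 (h2 (w.trans e0))))

end Xyp

theorem xyp_stmt : XypStmt := by
  intro lp R κ _ _ _ _ _ a t p q ht p0 q0 pa qa
  choose j hj using fun k => Finite.exists_max (a k)
  obtain ⟨x, y, k1, k2, k3, k4, k5, k7, k6⟩ :=
    Xyp.optA (xh := fun k => a k (j k)) p0 pa qa ht hj
  have k0 : ∀ j, 0 ≤ y j := fun j => (q0 j).trans (k2 j)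
  by_cases he : Nonempty (Fin 4 ≃ κ)
  · obtain ⟨x', y', l1, l2, l3, l4, l5, l6⟩ :=
      Xyp.optB (xh := fun k => a k (j k)) lp he.some p0 q0 pa qa ht hj
    rcases le_total (∑ k, x k) (∑ k, x' k) with h | h
    · exact ⟨_, x, y, ⟨k1, k0, k3, k4, fun k => ⟨_, rfl⟩, hj, k5, k6,
        fun s _ h1 h2 => h.trans (l6 s h1 h2)⟩, k2, k7⟩
    · exact ⟨_, x', y', ⟨fun k => (p0 k).trans (l1 k), fun j => (q0 j).trans (l2 j), l3, l4,
        fun k => ⟨_, rfl⟩, hj, l5, fun k => (add_le_add_left h _).trans (k6 k),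
        fun s _ => l6 s⟩, l2, he.some 0, fun i _ => l1 i⟩
  · exact ⟨_, x, y, ⟨k1, k0, k3, k4, fun k => ⟨_, rfl⟩, hj, k5, k6, fun s h => absurd h he⟩, k2, k7⟩

end Pool.Agent.MP_20d318_ag.CH
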